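import Pool.Agent.SqfBridge.Konig

set_option autoImplicit false

namespace Pool.Agent.SqfBridge

theorem blk_reverse (a : Fin 3) (b : Bool) : (blk a b).reverse = blk a (!b) := by
  revert a b; decide

theorem G_reverse (tb : List (Fin 3 × Bool)) :
    (G tb).reverse = G ((tb.map (fun x => (x.1, !x.2))).reverse) := by
  induction tb with
  | nil => rfl
  | cons x l ih =>
    rw [G_cons, List.reverse_append, ih, List.map_cons, List.reverse_cons, G_append, blk_reverse]
    rw [G_cons, G_nil, List.append_nil]

theorem false_ne_true_blk (a c : Fin 3) : ∃ s : Fin 18,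
    (blk a false).getD s.val 0 ≠ (blk c true).getD s.val 0 := by
  revert a c; decide

theorem glue (A B : List (Fin 3)) (tb : List (Fin 3 × Bool)) (f m : ℕ)
    (hA : Sqf (A ++ G tb)) (hB : Sqf (G tb ++ B))
    (hadj : ∀ i, i + 1 < tb.length →
      (tb.getD i (0, false)).1 ≠ (tb.getD (i + 1) (0, false)).1)
    (hf : (tb.getD f (0, false)).2 = false)
    (ht : ∀ i, f < i → i ≤ f + m → (tb.getD i (0, false)).2 = true)
    (hlen : f + m + 1 ≤ tb.length)
    (hbig : A.length + B.length + 18 * tb.length ≤ 36 * m)
    (hbig2 : A.length + B.length + 36 * f + 36 ≤ 18 * tb.length) :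
    Sqf (A ++ G tb ++ B) := by
  rw [sqf_iff] at hA hB ⊢
  rw [List.length_append, G_length] at hA hB
  intro i p hp hi hsq
  rw [List.length_append, List.length_append, G_length] at hi
  -- letters
  have hmid : ∀ k, k < 18 * tb.length → (A ++ G tb ++ B).getD (A.length + k) 0
      = Gf (fun i => (tb.getD i (0, false)).1) (fun i => (tb.getD i (0, false)).2) k := by
    intro k hk
    rw [List.getD_append _ _ _ _ (by rw [List.length_append, G_length]; omega),
      List.getD_append_right _ _ _ _ (Nat.le_add_right _ _), Nat.add_sub_cancel_left,
      G_getD tb k hk]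
    rfl
  rcases Nat.lt_or_ge (A.length + 18 * tb.length) (i + 2 * p) with h1 | h1
  · rcases Nat.lt_or_ge i A.length with h2 | h2
    · -- across
      have hcop : ∀ s < 18,
          Gf (fun i => (tb.getD i (0, false)).1) (fun i => (tb.getD i (0, false)).2) (18 * f + p + s)
          = (blk (tb.getD f (0, false)).1 false).getD s 0 := by
        intro s hs
        have h3 := hsq (A.length + 18 * f + s - i) (by omega)
        simp only at h3
        have e1 : i + (A.length + 18 * f + s - i) = A.length + (18 * f + s) := by omega
        have e2 : i + p + (A.length + 18 * f + s - i) = A.length + (18 * f + p + s) := by omega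
        rw [e1, e2, hmid _ (by omega), hmid _ (by omega)] at h3
        rw [← h3]
        unfold Gf
        have e3 : (18 * f + s) / 18 = f := by omega
        have e4 : (18 * f + s) % 18 = s := by omega
        rw [e3, e4]
        show (blk _ (tb.getD f (0, false)).2).getD s 0 = _
        rw [hf]
      have hal : (18 * f + p) % 18 = 0 := by
        by_cases hz : (18 * f + p) / 18 + 1 < tb.length
        · exact occ_aligned (t := fun i => (tb.getD i (0, false)).1)
            (b := fun i => (tb.getD i (0, false)).2) (hadj _ hz) hcop
        · omega
      obtain ⟨κ, rfl⟩ : ∃ κ, p = 18 * κ := ⟨p / 18, by omega⟩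
      have htrue := ht (f + κ) (by omega) (by omega)
      obtain ⟨s, hs⟩ := false_ne_true_blk (tb.getD f (0, false)).1 (tb.getD (f + κ) (0, false)).1
      apply hs
      have h4 := hcop s.val s.isLt
      rw [← h4]
      unfold Gf
      have hslt := s.isLt
      have e3 : (18 * f + 18 * κ + s.val) / 18 = f + κ := by omega
      have e4 : (18 * f + 18 * κ + s.val) % 18 = s.val := by omega
      rw [e3, e4]
      show (blk _ (tb.getD (f + κ) (0, false)).2).getD s.val 0 = _
      rw [htrue]
    · -- inside the right part
      refine hB (i - A.length) p hp (by omega) (fun j hj => ?_)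
      have h3 := hsq j hj
      simp only at h3 ⊢
      have e : ∀ k, A.length ≤ k → (A ++ G tb ++ B).getD k 0 = (G tb ++ B).getD (k - A.length) 0 := by
        intro k hk
        rw [List.append_assoc, List.getD_append_right _ _ _ _ hk]
      rw [e _ (by omega), e _ (by omega)] at h3
      have e1 : i - A.length + j = i + j - A.length := by omega
      have e2 : i - A.length + p + j = i + p + j - A.length := by omega
      rw [e1, e2]
      exact h3
  · -- inside the left part
    refine hA i p hp (by omega) (fun j hj => ?_)
    have h3 := hsq j hj
    simp only at h3 ⊢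
    have e : ∀ k, k < A.length + 18 * tb.length →
        (A ++ G tb ++ B).getD k 0 = (A ++ G tb).getD k 0 := by
      intro k hk
      rw [List.getD_append _ _ _ _ (by rw [List.length_append, G_length]; exact hk)]
    rw [e _ (by omega), e _ (by omega)] at h3
    exact h3

theorem bridge_of_escape (hesc : EscapeStmt) : ∀ w y : List (Fin 3),
    {x : List (Fin 3) | ∀ a u b : List (Fin 3), u ≠ [] → w ++ x ≠ a ++ u ++ u ++ b}.Infinite →
    {x : List (Fin 3) | ∀ a u b : List (Fin 3), u ≠ [] → x ++ y ≠ a ++ u ++ u ++ b}.Infinite →
    ∃ z : List (Fin 3), ∀ a u b : List (Fin 3), u ≠ [] → w ++ z ++ y ≠ a ++ u ++ u ++ b := by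
  intro w y hw hy
  have hw' : Ext w := hw
  have hy' : Ext y.reverse := by
    have h1 : (List.reverse '' {x : List (Fin 3) | Sqf (x ++ y)}).Infinite :=
      Set.Infinite.image (List.reverse_injective.injOn) hy
    refine h1.mono ?_
    rintro _ ⟨x, hx, rfl⟩
    show Sqf (y.reverse ++ x.reverse)
    rw [← List.reverse_append]
    exact Sqf.rev hx
  obtain ⟨W, hW, hWw⟩ := konig hw'
  obtain ⟨W', hW', hWy⟩ := konig hy'
  obtain ⟨N, hN, y1, t1, β1, h1⟩ := hesc W hW w.length
  obtain ⟨N', hN', y2, t2, β2, h2⟩ := hesc W' hW' y.reverse.length
  obtain ⟨s, hs⟩ := range_map_take hWw hN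
  obtain ⟨s', hs'⟩ := range_map_take hWy hN'
  let A : List (Fin 3) := (List.range N).map W ++ y1
  let B' : List (Fin 3) := (List.range N').map W' ++ y2
  obtain ⟨T, hT, hTsq⟩ := long_between (A.length + B'.length + 4 * β1.length + 4 * β2.length + 10)
    t1 t2
  obtain ⟨m, hm⟩ : ∃ m, T.length = β1.length + 1 + m + β2.length :=
    ⟨T.length - (β1.length + 1 + β2.length), by omega⟩
  let bits : List Bool := β1 ++ ([false] ++ (List.replicate m true ++ (β2.map not).reverse))
  have hbits : bits.length = T.length := by
    simp only [bits, List.length_append, List.length_singleton, List.length_replicate,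
      List.length_reverse, List.length_map]
    omega
  let tb : List (Fin 3 × Bool) := T.zip bits
  have hfst : tb.map Prod.fst = T := List.map_fst_zip (by omega)
  have hsnd : tb.map Prod.snd = bits := List.map_snd_zip (by omega)
  have htbl : tb.length = T.length := by
    simp only [tb, List.length_zip]; omega
  have hA : Sqf (A ++ G tb) := by
    apply h1 tb
    · rw [hfst]
      have : Sqf ([t1] ++ T) := Sqf.left hTsq
      exact this
    · rw [hsnd]
      exact List.prefix_append _ _
  have hB : Sqf (G tb ++ B'.reverse) := by
    have h3 : Sqf (B' ++ G ((tb.map (fun x => (x.1, !x.2))).reverse)) := by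
      apply h2
      · have e1 : ((tb.map (fun x => (x.1, !x.2))).reverse).map Prod.fst = T.reverse := by
          rw [List.map_reverse, List.map_map]
          have : (Prod.fst ∘ fun x : Fin 3 × Bool => (x.1, !x.2)) = Prod.fst := rfl
          rw [this, hfst]
        rw [e1]
        have h4 : Sqf (T ++ [t2]) := by
          apply Sqf.mid (a := [t1]) (b := [])
          rw [List.append_nil, ← List.append_assoc]
          exact hTsq
        have h5 := h4.rev
        rw [List.reverse_append] at h5
        exact h5
      · have e1 : ((tb.map (fun x => (x.1, !x.2))).reverse).map Prod.snd = (bits.map not).reverse := by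
          rw [List.map_reverse, List.map_map]
          have : (Prod.snd ∘ fun x : Fin 3 × Bool => (x.1, !x.2)) = not ∘ Prod.snd := rfl
          rw [this, ← List.map_map, hsnd]
        rw [e1]
        have e2 : (bits.map not).reverse = β2 ++ ((β1 ++ ([false] ++ List.replicate m true)).map
            not).reverse := by
          have e3 : bits = (β1 ++ ([false] ++ List.replicate m true)) ++ (β2.map not).reverse := by
            simp only [bits, List.append_assoc]
          have e4 : ((β2.map not).reverse.map not).reverse = β2 := by
            rw [List.map_reverse, List.reverse_reverse, List.map_map]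
            have : (not ∘ not) = id := by funext x; cases x <;> rfl
            rw [this, List.map_id]
          rw [e3, List.map_append, List.reverse_append, e4]
        rw [e2]
        exact List.prefix_append _ _
    have h4 := h3.rev
    rw [List.reverse_append, ← G_reverse, List.reverse_reverse] at h4
    exact h4
  have hgetb : ∀ i, i < T.length → (tb.getD i (0, false)).2 = bits.getD i false := by
    intro i hi
    rw [List.getD_eq_getElem _ _ (by omega), List.getD_eq_getElem _ _ (by omega)]
    simp only [tb, List.getElem_zip]
  have hgett : ∀ i, i < T.length → (tb.getD i (0, false)).1 = T.getD i 0 := by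
    intro i hi
    rw [List.getD_eq_getElem _ _ (by omega), List.getD_eq_getElem _ _ (by omega)]
    simp only [tb, List.getElem_zip]
  have hTs : SFto (fun k => T.getD k 0) T.length := by
    rw [← sqf_iff]
    exact Sqf.mid hTsq
  have hfinal : Sqf (A ++ G tb ++ B'.reverse) := by
    apply glue A B'.reverse tb β1.length m hA hB
    · intro i hi
      rw [hgett i (by omega), hgett (i + 1) (by omega)]
      intro hc
      refine hTs i 1 (by norm_num) (by omega) (fun j hj => ?_)
      have : j = 0 := by omega
      subst this
      exact hc
    · rw [hgetb _ (by omega)]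
      simp only [bits]
      rw [List.getD_append_right _ _ _ _ (le_refl _), Nat.sub_self]
      rfl
    · intro i hi1 hi2
      rw [hgetb _ (by omega)]
      simp only [bits]
      rw [List.getD_append_right _ _ _ _ (by omega), List.getD_append_right _ _ _ _ (by simp; omega),
        List.getD_append _ _ _ _ (by simp; omega), List.getD_eq_getElem _ _ (by simp; omega),
        List.getElem_replicate]
    · omega
    · rw [List.length_reverse]; omega
    · rw [List.length_reverse]; omega
  refine ⟨s ++ y1 ++ G tb ++ y2.reverse ++ s'.reverse, ?_⟩
  have e : w ++ (s ++ y1 ++ G tb ++ y2.reverse ++ s'.reverse) ++ y = A ++ G tb ++ B'.reverse := by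
    simp only [A, B']
    rw [hs, hs']
    simp only [List.reverse_append, List.reverse_reverse, List.append_assoc]
  rw [e]
  exact hfinal

end Pool.Agent.SqfBridge
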