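import Pool.Agent.SqfBridge.Kern

set_option autoImplicit false

namespace Pool.Agent.SqfBridge

open PT

def ph0 : PT := (O (O (N (O (O (N (L 5332) (L 8601)))) (N (O (N (L 10916) (L 10916))) (L 11485)))))

def ph1 : PT := (O (N (O (O (O (O (N (L 12507) (L 12507)))))) (N (L 12507) (O (O (N (L 12507) (L 12507)))))))

def ph2 : PT := (O (O (O (N (O (O (O (O (N (L 10172) (L 10172)))))) (L 10944)))))

def ph3 : PT := (O (O (N (O (N (N (L 8694) (L 8694)) (O (O (N (L 8694) (L 8694)))))) (O (O (N (L 7257) (L 8887)))))))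

def ph4 : PT := (N (O (O (N (O (O (N (L 12507) (L 12507)))) (L 12507)))) (O (O (N (O (N (L 6209) (L 9154))) (L 12507)))))

def ph5 : PT := (N (O (O (N (O (O (N (L 7339) (N (L 9938) (L 9938))))) (O (N (L 12507) (L 12507)))))) (N (L 12507) (O (O (N (N (L 12507) (O (N (L 12507) (N (L 12507) (L 12507))))) (O (O (N (L 12507) (L 12507)))))))))

def ph6 : PT := (O (N (O (N (N (O (O (N (O (O (N (L 7443) (L 10220)))) (L 10499)))) (L 10499)) (L 10499))) (L 8326)))

def ph7 : PT := (N (O (O (N (O (O (N (L 7257) (O (N (L 7257) (L 7257)))))) (L 7759)))) (O (N (O (O (N (L 11568) (L 11568)))) (O (O (O (N (L 11568) (L 11568))))))))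

def ph8 : PT := (O (N (O (O (N (O (O (N ph0 ph1))) (N (O (N ph2 ph3)) (O (O ph4)))))) (O (N (O (O (O (O ph5)))) (N (O (O (O ph6))) (O (O (N ph7 (O (O (N (L 11654) (L 11510))))))))))))

def ph9 : PT := (O (O (N (O (O (N (L 7257) (O (N (L 7257) (N (L 7257) (L 7257))))))) (N (L 7257) (L 7257)))))

def ph10 : PT := (O (O (N (O (O (N (L 12507) (O (N (L 12507) (L 12507)))))) (L 12507))))

def ph11 : PT := (O (O (O (O (N (O (O (N (L 5502) (N (L 5502) (L 5502))))) (O (N (L 6825) (N (L 6825) (L 6825)))))))))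

def ph12 : PT := (O (N (O (N (N (L 8921) (L 7928)) (L 9765))) (O (O (N (N (L 5599) (O (N (L 9765) (N (L 9765) (L 9765))))) (L 9765))))))

def ph13 : PT := (N (O (O (N (O (O (N (L 4378) (O (N (L 4378) (L 4378)))))) (L 6606)))) (O (N (O (O (N (O (O (N (L 11398) (L 11398)))) (L 11398)))) (L 11398))))

def ph14 : PT := (O (O (N (O (O (N (O (O (N (L 7139) (L 8210)))) (L 8210)))) (O (O (N (N (L 6037) (O (N (L 6037) (L 6037)))) (L 6037)))))))

def ph15 : PT := (O (N (O (O (O (N (O (O ph9)) (N (L 11986) (L 12412)))))) (O (O (N (O (N (N ph10 ph11) (O ph12))) (O (O (N ph13 ph14))))))))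

def ph16 : PT := (N (O (O (N (L 2413) (L 10051)))) (O (N (O (O (N (L 10757) (O (N (L 10390) (L 10390)))))) (N (L 10051) (L 10051)))))

def ph17 : PT := (N (O (O (N (O (O (N (O (O (N (L 3812) (L 3812)))) (L 7793)))) (L 7793)))) (O (O (O (O (N (O (O (N (L 11344) (L 11344)))) (L 11344)))))))

def ph18 : PT := (O (O (N (O (N (N (L 5779) (L 6896)) (O (O (N (L 6896) (L 6896)))))) (O (O (O (N (L 7847) (O (N (L 8976) (L 8976))))))))))

def ph19 : PT := (N (N (O (O (N (L 6635) (L 6635)))) (L 10004)) (O (O (N (L 10519) (L 11222)))))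

def ph20 : PT := (O (O (N (O (O (N (O (O ph16)) (O (O (O (N (N (L 10386) (L 10386)) (L 10757)))))))) (O (O (N (O (N ph17 ph18)) (O (O ph19))))))))

def ph21 : PT := (O (O (N (O (O (N (L 7344) (O (N (L 7344) (N (L 7344) (L 7344))))))) (N (L 5250) (L 5250)))))

def ph22 : PT := (O (N (O (N (N (L 2735) (L 3908)) (O (O (N (L 4465) (L 4465)))))) (O (O (N (N (L 3421) (L 3421)) (L 3421))))))

def ph23 : PT := (O (O (N (O (O (N (L 6927) (O (N (L 6927) (L 6927)))))) (L 6927))))

def ph24 : PT := (N (L 5172) (N (L 7460) (O (O (N (O (O (N (L 7563) (L 7563)))) (L 7563))))))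

def ph25 : PT := (N (L 6384) (O (O (N (N (O (O (N (L 2007) (L 2007)))) (L 7113)) (L 7113)))))

def ph26 : PT := (O (O (N (O (O (N (L 9882) (O (N (L 9110) (L 9110)))))) (O (O (N (L 1804) (L 6988)))))))

def ph27 : PT := (O (N (O (N (N (O (O (N (L 6605) (L 6605)))) (L 5612)) (L 7206))) (O (O (N (N (O (O (N (L 2007) (L 2007)))) (O (N (L 7206) (N (L 7206) (L 7206))))) (O (O (N (L 7206) (L 7206)))))))))

def ph28 : PT := (N (O (O (N (L 16007) (N (O (N (O ph21) (O ph22))) (O (O (N ph23 (L 6927)))))))) (O (N (O (O (N (O (O ph24)) (O (N (O (O (N (L 8677) (O (N (L 9446) (L 8677)))))) ph25))))) (N (O (O (O (O (N (L 8976) (L 8976)))))) (O (O (N (N ph26 (O (N (L 8147) (L 9019)))) (O ph27))))))))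

def ph29 : PT := (N (O (N (N (L 7249) (L 8921)) (L 8921))) (O (O (N (N (L 12507) (O (N (L 12507) (L 12507)))) (L 12122)))))

def ph30 : PT := (O (N (L 11329) (O (O (N (N (L 10468) (O (N (L 10468) (L 10468)))) (L 10468))))))

def ph31 : PT := (O (O (O (N (O (N (N (O (O (N (L 8863) (N (L 12507) (L 12507))))) (O (O (O (O (N (L 12507) (O (N (L 12507) (L 12507))))))))) (O (O ph29)))) (O (O (N (N (O (O (N (L 7953) (L 9832)))) (O (N (L 11329) (L 11329)))) (O ph30))))))))

def ph32 : PT := (N (O (O (N (O (O (N (L 6807) (L 6807)))) (L 6238)))) (O (N (O (O (N (L 10151) (O (N (L 10151) (L 10151)))))) (L 9657))))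

def ph33 : PT := (O (O (N (O (O (N (L 9628) (O (N (L 10169) (L 10169)))))) (N (L 5238) (L 9835)))))

def ph34 : PT := (O (O (O (O (N (L 10523) (O (N (L 10941) (N (L 10941) (L 10941)))))))))

def ph35 : PT := (O (O (N (O (O (N (L 4742) (L 4742)))) (N (L 9612) (L 9612)))))

def ph36 : PT := (O (O (N (O (N (N (L 7721) (L 7721)) (L 7721))) (O (O (N (N (L 1193) (O (N (L 7433) (L 7433)))) (L 7433)))))))

def ph37 : PT := (O (N (N (O (O (N (O (O ph32)) (L 9350)))) (O (N (O (O (N ph33 ph34))) (O (O (O (N (N (L 5172) (L 10073)) (L 10159)))))))) (O (O (N (O (N (N ph35 (L 8823)) (O (O (N (L 9927) (O (O (O (N (L 10372) (L 10372)))))))))) (O (O (N (N (L 9042) (O (N (O (O (N (L 5956) (L 9042)))) (L 8124)))) ph36))))))))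

def ph38 : PT := (O (O (N (O (O (N (O ph8) (N ph15 ph20)))) (O (N (O (O ph28)) (N (O ph31) (O ph37)))))))

def ph39 : PT := (N (O (O (N (O (O (N (L 8751) (L 8751)))) (L 8751)))) (O (N (L 9523) (L 9296))))

def ph40 : PT := (O (O (O (N (O (N (N (L 5599) (L 5599)) (L 5599))) (L 5599)))))

def ph41 : PT := (O (N (L 7905) (N (L 8674) (O (O (N (N (O (O (N (L 8674) (L 4523)))) (L 8674)) (L 8674)))))))

def ph42 : PT := (O (O (N (O (N (N (O (O (N (L 10893) (L 10893)))) (L 10893)) (L 10893))) (L 10032))))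

def ph43 : PT := (N (N (O (O (N (O (O (N (L 10893) (L 10893)))) (L 10893)))) (O (N (O (O (N (L 4569) (L 4569)))) (L 5138)))) (L 8917))

def ph44 : PT := (O (O (N (O (O (N (O (O ph39)) (N (O ph40) (O (O (N (L 5599) (O (O (N (L 5599) (L 5599))))))))))) (O (N (O (O (N (L 11519) ph41))) (N (O (O ph42)) (O (O ph43))))))))

def ph45 : PT := (O (N (L 8876) (O (N (O (O (N (L 8107) (L 8107)))) (L 8107)))))

def ph46 : PT := (O (N (L 7257) (O (O (N (O (N (L 10492) (L 10492))) (L 10961))))))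

def ph47 : PT := (O (O (O (O (O (N (O (O (N (L 8969) (L 8969)))) (L 9387)))))))

def ph48 : PT := (O (O (N (O (N (N (L 7889) (L 9678)) (L 9678))) (O (O (N (N (L 8207) (O (N (L 9336) (L 9336)))) (O (O (N (L 9251) (L 9251))))))))))

def ph49 : PT := (N (N (O (O (N (L 11261) (L 8054)))) (O (O (O (O (N (L 11261) (L 10472))))))) (O (O (N (O (N (L 10792) (L 10792))) (L 10792)))))

def ph50 : PT := (N (O (N (O (O (O (N (O ph45) (N ph46 (L 9647)))))) (O (O (N (O (N ph47 ph48)) (O (O (N (N (L 5551) (L 9613)) (L 9699))))))))) (O (O (N (O (O (N (O (O (N (L 9507) (O (N (L 6439) (N (L 9507) (L 9507))))))) (O (O (O (N (L 5190) (L 9507)))))))) (O (O (N (O ph49) (O (O (N (N (L 12507) (L 12507)) (L 12507)))))))))))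

def ph51 : PT := (O (O (N (O (O (N (L 9196) (L 9196)))) (N (L 7527) (L 9362)))))

def ph52 : PT := (O (N (O (O (N (L 1702) (O (N (L 6743) (L 6743)))))) (N (O (O (O (O (N (L 9955) (L 9955)))))) (O (O (N (N (L 9037) (L 9037)) (L 9037)))))))

def ph53 : PT := (N (O (O (N (O (O (N (L 8101) (O (N (L 8101) (L 8101)))))) (L 8101)))) (L 8101))

def ph54 : PT := (O (N (O (O (N (L 3802) (L 7261)))) (N (O (N (O (O (O (N (L 7261) (L 7261))))) (O (O (N (L 7261) (L 7261)))))) (O (O (N (L 6475) (L 7261)))))))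

def ph55 : PT := (N (O (O (N (L 7688) (O (N (L 7864) (L 7688)))))) (N (L 7239) (O (O (N (L 3548) (L 7864))))))

def ph56 : PT := (O (N (O (O (N (L 9836) (O (N (L 9064) (N (L 9064) (L 9064))))))) (N (O (N (L 5104) (L 11061))) (O (O (N (L 9835) (L 9835)))))))

def ph57 : PT := (O (O (O (N (O (O (N (L 4309) (N (L 3740) (L 3740))))) (L 4309)))))

def ph58 : PT := (N (O (N (N (O (O (N (L 7066) (N (L 7066) (L 7066))))) (L 7066)) (L 8059))) (O (O (N (N (L 6404) (L 8903)) (L 8903)))))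

def ph59 : PT := (O (O (N (O (O (N (L 4375) (L 5899)))) (O (O (N (L 8258) (O (O (N (L 8258) (L 8258))))))))))

def ph60 : PT := (O (N (O (O (N (L 8671) (O (N (L 8671) (N (L 8671) (L 8671))))))) (O (O (O (N (N (L 5870) (O (N (L 8237) (L 8237)))) (L 8237)))))))

def ph61 : PT := (N (N (O (O (N (O (O (N ph51 ph52))) (N (L 14257) (O (O ph53)))))) (O (O (O (O (N (O ph54) (O ph55))))))) (O (O (N (O (N (N (O ph56) (O ph57)) (O (O ph58)))) (O (O (N (N ph59 ph60) (O (O (O (O (O (N (L 12424) (L 12424))))))))))))))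

def ph62 : PT := (N (O (O (N (L 2492) (N (L 9541) (L 9541))))) (O (N (O (O (N (L 8419) (L 8419)))) (N (O (O (O (O (N (L 8419) (L 8419)))))) (L 8419)))))

def ph63 : PT := (N (O (O (O (N (L 7878) (L 4049))))) (O (O (N (O (N (L 10622) (L 10622))) (L 10473)))))

def ph64 : PT := (O (O (N (O (O (N (L 7789) (L 7789)))) (N (L 1795) (L 7789)))))

def ph65 : PT := (N (L 9119) (O (O (N (O (N (N (L 5248) (L 5248)) (L 8642))) (L 9660)))))

def ph66 : PT := (O (O (N (O (O (N (O (O (N (L 6665) (L 5728)))) (L 10834)))) (N (O (N (L 11905) (L 11905))) (O (O (N (L 11119) (L 11119))))))))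

def ph67 : PT := (N (O (O (N (O (O (N (L 9488) (O (N (L 9488) (L 9488)))))) (L 3480)))) (O (N (O (O (N (L 9100) (L 9100)))) (L 9100))))

def ph68 : PT := (O (O (N (O (N (N (O (O (N (L 9795) (L 9795)))) (L 9795)) (L 9795))) (L 8934))))

def ph69 : PT := (O (N (N (O (O (N (O (O ph62)) (O (O ph63))))) (O (N (O (O (N ph64 (O (N (L 7789) (L 7789)))))) (O (O (O ph65)))))) (O (O (N (O (O (N ph66 (L 11905)))) (O (O (N ph67 ph68))))))))

def ph70 : PT := (N (O (O (N (O (O (N (L 5601) (O (N (L 5601) (L 5601)))))) (N (L 4568) (L 4604))))) (O (O (N (L 5107) (L 5107)))))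

def ph71 : PT := (O (O (N (O (O (O (O (O (N (L 8358) (L 8358))))))) (N (L 5533) (L 7252)))))

def ph72 : PT := (O (N (O (O (N (L 966) (O (N (L 5092) (L 5092)))))) (N (L 7873) (O (O (N (N (L 6955) (O (N (L 6955) (L 6955)))) (L 7873)))))))

def ph73 : PT := (O (O (N (O (N (N (O (O (N (L 4629) (L 4629)))) (L 5418)) (L 5418))) (O (O (N (N (L 4289) (O (N (L 4289) (L 4289)))) (L 4289)))))))

def ph74 : PT := (N (L 9890) (O (O (N (O (N (N (L 9187) (L 9187)) (O (O (N (L 9187) (L 9187)))))) (L 9890)))))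

def ph75 : PT := (O (O (N (O (O (N (O (O ph70)) (N (O (N (L 10034) (L 10034))) (O (O (N (L 11027) (L 11027)))))))) (O (N (O (O (N ph71 ph72))) (N (O (O ph73)) (O (O ph74))))))))

def ph76 : PT := (O (O (N (L 4393) (O (O (N (O (N (L 6659) (L 6659))) (L 6659)))))))

def ph77 : PT := (O (N (L 287) (O (N (O (O (N (L 8164) (O (N (L 8164) (L 8164)))))) (L 8368)))))

def ph78 : PT := (N (N (L 8407) (O (O (O (O (N (L 7989) (O (N (L 7989) (L 7989))))))))) (L 4372))

def ph79 : PT := (O (O (O (N (N (O (O (N (O (O (N (O (O (N (L 7759) (L 7759)))) (L 7759)))) ph76))) (O (N (O ph77) (O (O (O (N (N (L 8160) (O (N (L 8160) (L 8160)))) (L 8531)))))))) (O (O (N (O ph78) (O (O (N (N (O (O (N (L 9400) (L 9400)))) (L 9400)) (L 8697)))))))))))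

def ph80 : PT := (N (O (O (N (O (O (N (L 3028) (O (N (L 3954) (L 3954)))))) (N (O (N (L 5400) (L 5400))) (L 5400))))) (O (N (L 8223) (L 8223))))

def ph81 : PT := (N (L 4176) (O (O (N (O (O (O (O (N (L 8447) (L 8447)))))) (O (O (N (N (L 7593) (L 7593)) (L 7593))))))))

def ph82 : PT := (O (O (N (O (O (N (O (O (N (L 6046) (L 6046)))) (L 6046)))) (N (O (N (L 5477) (L 5477))) (L 3642)))))

def ph83 : PT := (O (O (N (O (O (N (O (O (N (L 1351) (L 1351)))) (O (N (L 7916) (N (L 7916) (L 7916))))))) (N (O (N (L 7916) (L 7916))) (O (O (N (L 7130) (L 7130))))))))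

def ph84 : PT := (O (N (L 3768) (O (O (N (N (O (O (N (L 4891) (L 4891)))) (L 4891)) (L 4891))))))

def ph85 : PT := (N (L 8490) (O (N (O (O (N (L 8529) (O (N (L 8529) (N (L 8529) (L 8529))))))) (L 8612))))

def ph86 : PT := (O (N (N (O (O (N (O (O ph80)) (N (O ph81) (L 7582))))) (O (O (O (O (N ph82 (O (N (L 10305) (L 10305))))))))) (O (O (N (O (N (N ph83 (L 8889)) (O ph84))) (O (O (O ph85))))))))

def ph87 : PT := (O (N (O (O (N (L 950) (L 950)))) (O (N (O (O (N (L 8248) (O (N (L 8248) (L 8248)))))) (L 8248)))))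

def ph88 : PT := (N (O (O (N (O (O (N (L 6570) (O (N (L 6570) (L 6570)))))) (L 6570)))) (O (N (O (O (N (L 2984) (L 3845)))) (N (O (O (O (O (N (L 2927) (L 2927)))))) (L 2927)))))

def ph89 : PT := (N (O (O (N (O (O (N (L 7472) (O (N (L 7472) (L 7472)))))) (N (O (N (L 7472) (L 7472))) (L 7071))))) (O (O (O (O (N (L 7472) (O (N (L 6683) (N (L 6683) (L 6683))))))))))

def ph90 : PT := (O (O (O (O (N (N (O (O (N (L 11412) (L 11412)))) (L 11412)) (L 11412))))))

def ph91 : PT := (N (N (O (O (N (O (O (N (L 8929) (L 8929)))) (L 8929)))) (O (N (O (O (N (L 3652) (O (N (L 4513) (L 4513)))))) (L 8929)))) (O (O (N (L 6321) (O (O (N (L 6821) (L 6821))))))))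

def ph92 : PT := (O (O (N (N (O (O (N (O ph87) (O (O (N (L 7873) (L 6945))))))) (O (N (O (O ph88)) (L 7409)))) (O (O (N (O (N ph89 ph90)) (O (O ph91))))))))

def ph93 : PT := (N (O (N (O (O (O (N ph44 ph50)))) (O (O (N (O ph61) (O ph69)))))) (O (O (N (N (L 16007) (O (N ph75 ph79))) (O (O (N ph86 ph92)))))))

def ph94 : PT := (O (N (O (O (N (O (O (N (L 10187) (L 11604)))) (O (N (L 15337) (L 14843)))))) (N (O (N (O (O (O (N (L 16007) (L 16007))))) (L 16007))) (O (O (N (L 16007) (O (O (N (L 16007) (L 16007))))))))))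

def ph95 : PT := (N (O (O (O (O (N (O (O (N (O (O (N (L 10757) (L 15194)))) (L 15194)))) (L 15194)))))) (N (L 16007) (O (O (N (N (L 16007) (L 15084)) (L 16007))))))

def ph96 : PT := (O (O (N (O (O (O (O (N (L 16007) (N (L 16007) (L 16007))))))) (L 16007))))

def ph97 : PT := (O (N (O (N (N (O (O (N (L 14349) (L 13893)))) (O (O (O (O (N (O (O (N (L 6944) (L 13773)))) (L 13773))))))) (L 14349))) (O (O (N (N (L 7586) (L 12378)) (O (O (N (L 13829) (L 14542)))))))))

def ph98 : PT := (O (O (N (O (O (N (L 10757) (O (N (L 15610) (N (L 14882) (L 14882))))))) (L 16007))))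

def ph99 : PT := (O (O (N (O (N (N (O (O (N (O (O (N (L 8784) (L 12335)))) (L 12335)))) (L 12335)) (L 14842))) (O (O (N (N (L 15423) (L 13203)) (L 15423)))))))

def ph100 : PT := (O (O (N (O (O (N (L 5589) (L 8188)))) (O (N (L 10757) (L 10757))))))

def ph101 : PT := (N (O (N (N (O (O (N (O (O (N (L 10591) (L 13832)))) (L 14111)))) (L 13281)) (L 13673))) (L 11501))

def ph102 : PT := (O (O (N (O (O (N (O (O (N (O (O (N (L 10405) (L 7525)))) (L 10405)))) (O (N (L 10869) (N (L 10375) (L 10869))))))) (L 11371))))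

def ph103 : PT := (O (N (O (O (N (O (O (N (L 14598) (N (L 13988) (L 14598))))) (L 13234)))) (L 13922)))

def ph104 : PT := (O (N (O (N (N (O (O (N (L 13222) (N (L 13222) (L 13222))))) (L 13222)) (L 13222))) (O (O (N (N (L 10462) (O (N (L 9760) (L 10371)))) (O (O (N (L 11047) (L 9943)))))))))

def ph105 : PT := (N (O (O (N (O (O (N (O ph94) (O ph95)))) (N (O (N (O ph96) (O ph97))) (O (O (N ph98 ph99))))))) (O (N (O (O (O (O (N ph100 (N (L 10757) (O (O (N (L 10757) (L 10757)))))))))) (N (O (O (O (O ph101)))) (O (O (N (N ph102 ph103) (O ph104))))))))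

def ph106 : PT := (O (O (O (O (O (N (L 10583) (O (N (L 10583) (N (L 10583) (L 10583))))))))))

def ph107 : PT := (O (N (O (O (N (L 13452) (O (N (L 13452) (L 13273)))))) (N (O (O (O (O (N (L 11262) (L 11262)))))) (O (O (N (N (L 11262) (O (N (L 5507) (L 7199)))) (L 10158)))))))

def ph108 : PT := (O (O (N (O (N (L 16007) (O (O (N (L 16007) (L 16007)))))) (O (O (N (N (L 16007) (L 15609)) (L 16007)))))))

def ph109 : PT := (N (L 10662) (O (O (N (O (N (L 15244) (L 15244))) (L 15638)))))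

def ph110 : PT := (O (N (O (O (N (O (O (N (L 16007) (N (L 15766) (L 15766))))) (O (N (O (O (N (O (O (N (L 12795) (N (O (N (L 12795) (L 10757))) (L 12795))))) (L 12795)))) (L 16007)))))) (L 15014)))

def ph111 : PT := (O (O (O (N (O (O (N (O (O (N (O (O (N (L 11695) (N (L 8805) (L 11231))))) (L 11695)))) (N (L 11695) (L 11695))))) (O (N (L 12298) (L 12298)))))))

def ph112 : PT := (N (O (N (N (O (O (N (L 14310) (N (L 13854) (L 14310))))) (L 6178)) (O (O (N (L 15154) (L 15154)))))) (O (O (N (N (O (O (N (O (O (N (O (O (N (L 10988) (N (L 8629) (L 10524))))) (L 10988)))) (L 10988)))) (O (N (L 15154) (L 14620)))) (L 15154)))))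

def ph113 : PT := (O (O (N (O (O (N (O (O (N (L 9564) (L 10571)))) (O (N (L 10571) (N (L 10113) (L 10113))))))) (O (O (N (L 12799) (L 12328)))))))

def ph114 : PT := (O (N (O (O (N (O (O (N (O (O (N (O (O (N (L 13332) (L 9163)))) (L 13332)))) (N (L 14403) (L 14403))))) (L 14403)))) (O (O (N (N (O (O (N (L 12230) (L 12230)))) (O (N (L 12230) (N (L 11620) (L 12230))))) (L 11793))))))

def ph115 : PT := (N (O (O (O (N (O (O (N ph106 ph107))) (N (O (N (O (O (O (N (O (O (N (L 16007) (L 16007)))) (L 16007))))) ph108)) (O (O ph109))))))) (O (O (N (O (N (N (O ph110) (O ph111)) (O (O ph112)))) (O (O (N (N ph113 (O (N (L 8783) (O (O (O (N (L 13063) (L 13063)))))))) (O ph114))))))))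

def ph116 : PT := (O (O (N (O (O (N (O (O (N (L 9149) (N (L 8685) (L 8685))))) (L 8655)))) (N (L 16007) (L 16007)))))

def ph117 : PT := (O (N (O (O (N (O (O (N (L 15122) (N (L 14283) (L 14283))))) (O (N (O (O (N (O (O (N (L 10998) (L 8640)))) (L 10998)))) (L 11421)))))) (N (L 15520) (L 14681))))

def ph118 : PT := (N (N (L 13143) (O (N (O (O (N (O (O (N (L 11833) (L 8636)))) (L 11916)))) (L 13728)))) (O (O (N (O (N (N (L 16007) (L 16007)) (L 16007))) (L 16007)))))

def ph119 : PT := (O (O (N (O (O (N (O (O (N (L 8426) (L 9872)))) (L 13395)))) (L 12926))))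

def ph120 : PT := (O (N (O (N (N (O (O (N (O (O (N (O (O (N (L 11839) (N (L 11375) (O (O (N (L 11375) (L 10684)))))))) (L 11839)))) (N (L 11839) (L 11839))))) (L 12956)) (L 12518))) (O (O (O (N (L 13907) (O (N (L 15036) (N (L 14426) (L 15036))))))))))

def ph121 : PT := (N (O (O (N (O (O (N (O (O (N (L 11601) (N (L 11601) (O (O (N (L 9012) (L 5359)))))))) (L 12657)))) (O (O (N (L 12657) (L 12657))))))) (O (N (O (O (N (L 10979) (O (N (O (O (N (L 8254) (L 11818)))) (L 11818)))))) (L 11818))))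

def ph122 : PT := (O (O (N (O (N (N (O (O (N (L 15821) (L 15821)))) (L 15821)) (L 15821))) (O (O (N (N (L 13338) (O (N (L 8922) (L 13338)))) (L 12234)))))))

def ph123 : PT := (O (N (O (O (N (O (O (N ph116 ph117))) (O (O (O ph118)))))) (O (O (N (O (N (N ph119 (O (O (O (O (N (O (O (N (L 14581) (L 9594)))) (L 13853))))))) (O ph120))) (O (O (N ph121 ph122))))))))

def ph124 : PT := (N (O (O (N (O (O (N (L 10968) (L 11454)))) (O (N (L 7955) (L 9852)))))) (L 11005))

def ph125 : PT := (O (N (O (O (N (L 11711) (O (N (L 12296) (L 12296)))))) (N (O (N (O (O (O (N (L 9885) (L 9885))))) (L 9885))) (O (O (N (O (O (N (O (O (N (L 8398) (L 3500)))) (L 8398)))) (L 7294)))))))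

def ph126 : PT := (N (O (N (N (O (O (N (O (O (N (L 9935) (L 8884)))) (L 9935)))) (L 10278)) (O (O (N (L 11227) (O (O (N (L 11645) (L 11227))))))))) (O (O (N (N (L 10621) (O (N (L 10621) (L 9897)))) (L 10184)))))

def ph127 : PT := (O (N (O (O (N (O (O (N (L 13545) (N (L 12935) (L 13387))))) (O (N (O (O (N (L 8878) (O (N (L 5177) (L 8150)))))) (L 9276)))))) (O (O (O (N (N (L 13387) (O (N (L 13387) (L 12219)))) (L 12869)))))))

def ph128 : PT := (O (N (O (N (N (L 11259) (L 10002)) (L 11822))) (O (O (N (N (L 9380) (L 5582)) (O (O (N (L 11478) (L 10374)))))))))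

def ph129 : PT := (O (O (N (O (O (O (O (O ph124))))) (N (O (N (O (O ph125)) (O (O ph126)))) (O (O (N (O ph127) (O ph128))))))))

def ph130 : PT := (O (O (O (O (O (N (O (O (N (L 11652) (L 10050)))) (L 11652)))))))

def ph131 : PT := (N (O (N (O (O (O (N (L 12315) (L 12315))))) (L 11259))) (O (O (N (O (O (N (O (O (N (L 10763) (O (N (O (O (N (L 10763) (O (N (L 5813) (L 10035)))))) (L 10035)))))) (L 10763)))) (O (O (N (L 11399) (L 11399))))))))

def ph132 : PT := (O (N (O (O (N (L 12753) (N (L 12753) (L 12753))))) (O (N (L 7696) (L 11795)))))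

def ph133 : PT := (O (O (N (N (O (O (N (O (O (N (L 8029) (O (N (O (O (N (L 8029) (L 7309)))) (L 8029)))))) (L 8029)))) (O (N (L 12553) (L 12553)))) (L 12422))))

def ph134 : PT := (O (O (N (N (L 14913) (O (N (L 10865) (L 14913)))) (O (O (N (L 14913) (L 14913)))))))

def ph135 : PT := (O (N (O (O (N (O (O (N (L 12070) (L 11231)))) (O (N (O (O (N (L 10467) (O (N (O (O (N (L 10467) (O (N (L 9739) (L 7360)))))) (L 9739)))))) (L 10467)))))) (O (O (N (O (O (O (N (L 6992) (L 8284))))) (L 12790))))))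

def ph136 : PT := (N (O (O (O (O (O (N (L 14627) (N (L 14627) (L 14627)))))))) (O (O (O (N (N (L 11754) (O (N (O (O (N (L 8433) (L 7269)))) (L 8433)))) (O (O (N (L 12339) (L 11235)))))))))

def ph137 : PT := (N (O (N (N (O (O (N (L 12409) (L 11953)))) (O (O (O (O (N (L 11416) (O (N (O (O (N (L 9544) (L 3862)))) (L 10979))))))))) (L 13010))) (O (O (N (N (O (O (N (O (O (N (L 7811) (L 7091)))) (L 7811)))) (O (N (L 13010) (L 12476)))) (L 12297)))))

def ph138 : PT := (O (N (O (O (N (O (O (N ph130 ph131))) (O (N (O ph132) (N (L 12406) ph133)))))) (N (O (O (O (O (N (O (N (L 14913) (O (O (N (L 14109) (L 14109)))))) ph134))))) (O (O (N (N (O ph135) (O ph136)) (O (O ph137))))))))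

def ph139 : PT := (N (O (O (N (O (O (N (O (O (N (L 15409) (O (N (L 15409) (N (L 12507) (L 15409))))))) (L 15409)))) (L 14951)))) (N (O (O (O (O (O (N (L 16007) (N (L 16007) (L 16007)))))))) (O (O (N (O (O (N (O (O (N (L 13683) (O (N (L 13683) (L 10757)))))) (L 13683)))) (L 12579))))))

def ph140 : PT := (O (O (N (L 15513) (O (N (L 14785) (O (O (O (N (L 14785) (L 14785))))))))))

def ph141 : PT := (O (N (N (O (O (N (L 12275) (L 13795)))) (L 14637)) (L 15029)))

def ph142 : PT := (O (N (O (O (N (L 14035) (O (N (L 14303) (N (L 8789) (L 14303))))))) (O (O (N (O (O (O (N (L 15986) (L 15273))))) (L 15086))))))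

def ph143 : PT := (N (O (O (N (O (O (N (L 15922) (L 15083)))) (O (N (O (O (N (L 9811) (L 8027)))) (L 9811)))))) (O (O (O (N (N (L 15617) (O (N (L 15617) (N (L 14449) (L 14449))))) (L 15999))))))

def ph144 : PT := (N (O (O (N (O (O (N (L 16007) (L 15480)))) (O (O (O (O (N (L 15480) (L 14810))))))))) (O (O (N (N (O (O (N (L 13658) (L 13073)))) (O (N (O (O (N (L 12574) (O (N (L 12574) (N (L 9948) (L 11846))))))) (L 13658)))) (L 12554)))))

def ph145 : PT := (O (O (N (O (N (N (O (O ph139)) (O (O ph140))) (O (O (N ph141 (O (O (N (L 16007) (L 16007))))))))) (O (O (N (N (O ph142) (O ph143)) (O (O ph144))))))))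

def ph146 : PT := (O (O (N (O (O (N (L 12439) (O (N (L 12903) (L 8414)))))) (N (O (N (L 12334) (L 12334))) (L 12334)))))

def ph147 : PT := (O (N (O (O (N (O (O (O (N (L 14782) (L 14782))))) (O (N (O (O (N (L 8731) (O (N (L 8731) (N (L 8003) (L 7418))))))) (L 14893)))))) (N (L 14752) (O (O (N (N (L 14782) (L 13614)) (L 14619)))))))

def ph148 : PT := (O (O (O (N (O (O (N (L 10881) (L 7600)))) (N (O (N (L 12571) (L 12571))) (L 12571))))))

def ph149 : PT := (O (O (N (O (N (N (L 13164) (L 7600)) (O (O (N (L 13877) (L 13292)))))) (O (O (N (N (L 12701) (L 11645)) (L 11645)))))))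

def ph150 : PT := (O (N (O (O (N (O (O (N (L 10416) (N (L 9806) (L 10416))))) (L 10957)))) (N (O (N (O (O (O (N (O (O (N (L 6026) (O (N (L 6026) (L 5532)))))) (L 6026))))) (O (O (N (L 5483) (L 6026)))))) (L 9947))))

def ph151 : PT := (O (O (O (N (O (O (N (L 8773) (L 8773)))) (O (N (L 9191) (L 9191)))))))

def ph152 : PT := (N (O (O (N (O (O (N (L 8508) (O (N (L 8508) (N (L 8014) (L 5939))))))) (L 8508)))) (O (N (O (O (N (L 8251) (O (N (O (O (N (L 7316) (L 6588)))) (L 7316)))))) (L 9415))))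

def ph153 : PT := (O (O (N (L 11978) (O (O (N (N (L 12782) (O (O (O (O (N (L 10643) (L 9915))))))) (L 11694)))))))

def ph154 : PT := (O (N (O (O (N (O (O (N (L 10838) (N (L 10374) (L 10374))))) (O (N (L 10838) (N (L 10344) (L 7587))))))) (N (L 13563) (O (O (N (L 14463) (O (O (N (L 14463) (L 14463))))))))))

def ph155 : PT := (O (O (O (N (O (O (N (L 14089) (N (L 13479) (L 14089))))) (O (N (O (O (N (L 8497) (L 6267)))) (L 8497)))))))

def ph156 : PT := (N (O (N (N (L 12370) (L 11700)) (L 12571))) (O (O (O (N (L 12779) (O (N (O (O (N (L 10655) (O (N (L 9571) (N (L 8843) (L 7739))))))) (L 10655))))))))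

def ph157 : PT := (O (O (N (O (O (N (O (O (N (L 11674) (L 10835)))) (O (N (O (O (N (L 9018) (L 7186)))) (N (L 10954) (L 10954))))))) (L 11674))))

def ph158 : PT := (O (N (O (O (N (O (O (N (O (O (N (L 12052) (L 7568)))) (L 12052)))) (O (N (L 12932) (L 12932)))))) (O (O (O (O (N (L 12629) (L 11901))))))))

def ph159 : PT := (O (N (O (N (N (O (O (N (L 13380) (L 12924)))) (O (O (O (O (N (L 12549) (O (N (L 12549) (N (L 11821) (O (O (N (L 11269) (L 5971))))))))))))) (L 13380))) (O (O (N (N (O (O (N (L 6358) (L 6852)))) (O (N (L 13092) (L 12558)))) (L 12379))))))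

def ph160 : PT := (N (N (O (O (N (O (O (N ph146 ph147))) (O (O (N ph148 ph149)))))) (O (N (O (O (N (O ph150) (O ph151)))) (O (O (O (N ph152 ph153))))))) (O (O (N (O (N (N (O ph154) (O ph155)) (O (O ph156)))) (O (O (N (N ph157 ph158) (O ph159))))))))

def ph161 : PT := (O (N (O (O (N (O (O ph105)) (N (O ph115) (O ph123))))) (O (N (O (O (N ph129 ph138))) (N (O (O ph145)) (O (O ph160)))))))

def ph162 : PT := (O (O (N (O (N (L 9769) (O (O (N (L 9769) (L 9769)))))) (L 9769))))

def ph163 : PT := (N (L 6155) (N (L 6924) (O (O (N (N (O (O (N (L 6924) (L 2773)))) (L 6924)) (L 6924))))))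

def ph164 : PT := (N (O (O (N (L 9143) (L 9143)))) (O (N (O (O (N (O (O (N (L 2819) (L 2819)))) (L 2819)))) (L 3388))))

def ph165 : PT := (O (N (O (O (N (O (O (N (L 7001) (O (N (L 7773) (N (L 7546) (L 7546))))))) (N (O (O (O (O (N (L 3849) (L 3849)))))) (O (O (N (L 3849) (O (O (N (O (N (L 3849) (L 3849))) (L 3849))))))))))) (O (N (O (O (N (O ph162) (O ph163)))) (N (O (O (O (O (N (O (N (L 9143) (L 9143))) (L 8282)))))) (O (O (N ph164 (L 7167)))))))))

def ph166 : PT := (O (O (O (O (N (O (O (N (L 7219) (N (L 7219) (L 7219))))) (O (N (L 7637) (L 7637))))))))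

def ph167 : PT := (O (N (L 6139) (O (O (N (N (O (O (N (L 6457) (L 6457)))) (O (N (L 7586) (N (L 7586) (L 7586))))) (L 7501))))))

def ph168 : PT := (O (N (O (O (O (N (L 6357) (N (O (N (L 5507) (O (O (N (O (N (L 8742) (L 8742))) (L 9211)))))) (L 7897)))))) (O (O (N (O (N (O ph166) (O ph167))) (O (O (N (N (L 3801) (O (N (L 7863) (L 7863)))) (O (O (N (L 7949) (L 7949))))))))))))

def ph169 : PT := (N (O (O (N (L 9511) (N (L 6304) (L 6304))))) (O (O (O (O (N (O (O (N (L 9511) (L 9511)))) (L 8722)))))))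

def ph170 : PT := (O (O (N (O (N (L 9042) (O (O (N (L 9042) (L 9042)))))) (L 9042))))

def ph171 : PT := (O (O (N (O (O (N (O (O (N (L 7757) (O (N (L 4689) (N (L 7757) (L 7757))))))) (O (O (O (N (L 3440) (O (O (N (L 7757) (L 7757))))))))))) (O (O (N (O (N ph169 ph170)) (O (O (N (L 10757) (L 10757))))))))))

def ph172 : PT := (O (N (O (O (N (O (O (N (L 9028) (N (L 7974) (L 7974))))) (L 7446)))) (N (O (N (L 9808) (L 9204))) (O (O (N (L 10032) (L 11159)))))))

def ph173 : PT := (N (O (O (N (O (O (O (N (L 4435) (L 4435))))) (O (N (L 8696) (L 8696)))))) (N (O (O (O (O (N (O (N (L 11472) (L 11472))) (L 11472)))))) (O (O (N (L 10759) (L 10372))))))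

def ph174 : PT := (O (O (N (L 9100) (O (O (N (L 9100) (O (O (N (L 9100) (L 8000))))))))))

def ph175 : PT := (N (O (O (N (O (O (N (L 5817) (N (L 5817) (L 5817))))) (L 8805)))) (N (O (N (L 8076) (O (O (N (O (N (L 8562) (L 8562))) (L 8562)))))) (O (O (N (L 7776) (O (O (N (L 8562) (L 8562)))))))))

def ph176 : PT := (N (O (O (O (O (N (L 5489) (L 5489)))))) (O (O (N (N (O (O (N (L 5563) (O (O (N (L 5563) (O (O (N (O (N (N (L 5563) (L 4845)) (L 5563))) (L 5563)))))))))) (L 4970)) (L 9076)))))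

def ph177 : PT := (N (O (O (N (O (O (N (O ph172) (O ph173)))) (N (O (O (O (O (O (N (L 7257) (N (L 7257) (L 7257)))))))) (O (O (N (O (O (N (L 6224) (O (O (O (N (L 10204) (L 10204)))))))) ph174))))))) (O (O (O (O (N (O (O ph175)) (O (N (O (O (N (L 9334) (O (N (L 9879) (L 9028)))))) ph176))))))))

def ph178 : PT := (N (L 7314) (N (O (N (O (O (O (N (L 6907) (N (O (N (L 6907) (O (O (N (O (N (L 6907) (O (O (N (L 5045) (L 6907)))))) (L 6907)))))) (L 6907)))))) (L 12697))) (O (O (N (L 10826) (O (O (N (L 11638) (L 11638)))))))))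

def ph179 : PT := (O (O (N (O (O (N (L 6660) (N (O (N (L 6091) (O (O (N (O (N (L 6091) (O (O (N (O (N (L 5709) (L 5709))) (L 6091)))))) (L 6091)))))) (L 6091))))) (L 5880))))

def ph180 : PT := (O (O (N (N (O (O (N (L 8755) (O (O (N (L 8755) (O (O (N (O (N (L 8755) (O (O (N (L 6279) (L 8755)))))) (L 8755)))))))))) (L 10774)) (L 10451))))

def ph181 : PT := (O (N (O (O (N (L 6344) (O (N (L 8250) (L 7779)))))) (O (O (N (L 10123) (O (O (N (L 10609) (L 10609)))))))))

def ph182 : PT := (N (O (O (N (L 10049) (O (N (L 10418) (N (L 9743) (L 10418))))))) (O (O (O (N (N (L 7235) (L 9391)) (L 9181))))))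

def ph183 : PT := (O (O (O (N (L 13052) (O (O (N (O (N (L 14179) (L 14179))) (L 14179))))))))

def ph184 : PT := (O (O (N (O (N (N (O (O ph178)) (O (O ph179))) (O (O (N (O (N (N (L 8940) (L 9417)) (L 10410))) ph180))))) (O (O (N (N (O ph181) (O ph182)) (O (O ph183))))))))

def ph185 : PT := (O (O (N (O (O (N (L 3953) (L 4118)))) (N (L 10924) (L 10924)))))

def ph186 : PT := (O (N (O (O (N (O (O (O (N (L 10147) (L 10147))))) (L 9841)))) (N (L 6669) (O (O (N (L 9923) (L 9713)))))))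

def ph187 : PT := (O (O (O (N (L 9975) (N (O (N (L 6146) (L 6146))) (L 6146))))))

def ph188 : PT := (O (O (N (O (N (L 11567) (O (O (N (L 12115) (L 12115)))))) (O (O (N (L 11966) (L 11966)))))))

def ph189 : PT := (O (N (O (O (N (L 10070) (L 9847)))) (N (O (N (L 4528) (O (O (N (L 4528) (O (O (N (L 4528) (L 4528))))))))) (O (O (N (L 9929) (O (O (N (L 9719) (L 10522))))))))))

def ph190 : PT := (N (O (O (N (L 5801) (L 5483)))) (N (L 8639) (O (O (N (L 8639) (O (O (N (L 8639) (L 8639)))))))))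

def ph191 : PT := (O (O (N (O (N (N (L 6357) (L 7169)) (L 10181))) (L 11581))))

def ph192 : PT := (O (N (O (O (N (O (O (N (L 9398) (N (O (N (L 8461) (O (O (N (L 8461) (L 7257)))))) (L 8461))))) (L 13096)))) (N (L 13675) (O (O (N (L 13375) (L 13375)))))))

def ph193 : PT := (O (O (N (O (O (N (L 11769) (O (N (L 12190) (N (L 11546) (L 12190))))))) (O (O (N (L 6213) (O (O (N (L 6213) (L 4323))))))))))

def ph194 : PT := (O (N (O (O (N (L 8011) (O (N (L 9065) (N (O (O (O (O (N (L 9065) (L 7350)))))) (L 9065))))))) (O (O (O (N (N (L 11353) (L 11353)) (L 11353)))))))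

def ph195 : PT := (N (N (O (O (N (O (O (N ph185 ph186))) (O (O (N ph187 ph188)))))) (O (N (O (O (N (O ph189) (O ph190)))) (O (O (O (N (L 10365) ph191))))))) (O (O (N (O (O (N (O ph192) (L 13963)))) (O (O (N (N ph193 ph194) (O (O (N (O (N (L 11177) (L 11671))) (L 10571)))))))))))

def ph196 : PT := (O (N (O (O (O (N (O ph165) (N ph168 ph171))))) (O (O (N (O (N ph177 ph184)) (O (O ph195)))))))

def ph197 : PT := (N (O (O (N (L 7301) (N (L 7301) (L 7301))))) (O (N (O (O (O (O (N (L 4629) (L 4629)))))) (L 4339))))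

def ph198 : PT := (N (L 7706) (O (O (N (O (N (L 7706) (O (O (N (L 7706) (L 7706)))))) (L 7706)))))

def ph199 : PT := (O (N (O (O (N (O (O (N (L 3138) (N (L 3138) (L 3138))))) (O (N (L 3138) (L 2664)))))) (N (L 9357) (O (O (N (L 9357) (O (O (N (L 9357) (L 9357))))))))))

def ph200 : PT := (N (N (L 8589) (L 4864)) (O (O (N (L 9334) (O (O (N (L 8562) (L 8562))))))))

def ph201 : PT := (O (O (N (O (O (N (O (O ph197)) (N (O ph198) (L 7397))))) (O (N (O (O (N (L 9514) ph199))) (N (O (O (O (O (N (L 9038) (L 9038)))))) (O (O ph200))))))))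

def ph202 : PT := (O (O (N (O (N (L 9113) (L 9507))) (O (O (N (N (L 5416) (L 4542)) (L 5416)))))))

def ph203 : PT := (O (O (N (O (O (O (N (O (O (N (L 3418) (O (N (L 3418) (L 3418)))))) (N (O (N (L 7522) (L 7522))) (O (O (N (L 3821) (L 6753))))))))) (O (O (N (O (N (N (L 9255) (O (O (O (O (N (L 3815) (L 2378))))))) ph202)) (O (O (N (L 6613) (L 7088))))))))))

def ph204 : PT := (O (O (N (O (O (N (L 10606) (L 10160)))) (N (L 9907) (L 5487)))))

def ph205 : PT := (O (O (N (L 10446) (O (O (N (L 10446) (O (O (N (L 10446) (L 10446))))))))))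

def ph206 : PT := (O (O (O (N (O (O (N (L 7187) (O (N (L 6159) (N (L 6159) (O (O (N (N (L 6159) (O (N (O (O (N (O (O (N (L 6159) (L 5392)))) (L 6159)))) (L 6159)))) (L 6159)))))))))) (L 6652)))))

def ph207 : PT := (N (O (O (N (L 6910) (L 7544)))) (O (O (N (L 8091) (O (O (N (L 8799) (L 8799))))))))

def ph208 : PT := (O (N (O (O (O (O (O (N (L 10902) (N (L 10135) (L 10135)))))))) (N (L 3788) (O (O (N (L 9195) (O (O (N (L 10080) (L 10080))))))))))

def ph209 : PT := (N (O (O (N (O (O (N (L 5227) (L 4764)))) (L 8275)))) (N (O (O (O (O (N (L 11192) (L 11192)))))) (O (O (N (N (L 6332) (O (N (L 6921) (L 5205)))) (O (O (N (L 10787) (L 9773)))))))))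

def ph210 : PT := (O (N (O (N (L 5325) (L 7092))) (O (O (N (N (L 5251) (L 4928)) (L 5963))))))

def ph211 : PT := (O (N (O (O (N (O (O (N ph204 ph205))) (N (O (N ph206 (O (O (N (L 6128) (L 6197)))))) (O (O ph207)))))) (O (N (O (O (N (O ph208) (O ph209)))) (N (O (O (O ph210))) (O (O (N (L 8140) (O (O (N (O (N (L 7437) (L 7437))) (L 8140))))))))))))

def ph212 : PT := (O (N (O (O (N (L 9745) (L 9745)))) (O (N (L 7795) (N (L 8429) (O (O (N (L 6009) (L 8429)))))))))

def ph213 : PT := (O (N (O (O (O (N (L 9657) (N (L 9657) (O (O (N (O (O (N (L 8300) (N (L 8300) (L 3041))))) (L 9657))))))))) (O (O (N (O (N (N (L 9657) (L 9657)) (L 9657))) (L 9657))))))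

def ph214 : PT := (N (O (O (N (L 6558) (N (L 6558) (O (O (N (N (L 6558) (O (N (L 6558) (N (L 5957) (O (O (N (L 2898) (L 2898)))))))) (L 6558)))))))) (O (N (O (O (N (L 5719) (O (N (L 6486) (N (L 6486) (O (O (N (N (L 6486) (O (N (L 6486) (N (L 6486) (O (O (N (N (L 6486) (L 5601)) (L 6486)))))))) (L 6486)))))))))) (O (O (O (O (O (N (L 7464) (L 7464))))))))))

def ph215 : PT := (N (O (O (N (L 11786) (N (O (N (L 11786) (L 11786))) (L 11786))))) (L 11620))

def ph216 : PT := (N (N (O (O (N (L 11559) (L 11559)))) (O (O (O (O (N (L 11559) (L 11559))))))) (L 11074))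

def ph217 : PT := (O (O (N (N (O (O (N (O ph212) (O ph213)))) (O (N (O (O ph214)) (O (O (O (N (L 6305) (L 5880)))))))) (O (O (N (O (N ph215 (O (O (N (O (N (L 5752) (L 10643))) (L 10643)))))) (O (O ph216))))))))

def ph218 : PT := (O (O (N (O (O (N (O (O (N (L 8677) (L 5695)))) (L 9603)))) (N (O (N (L 10093) (O (O (N (L 10093) (L 10093)))))) (L 10093)))))

def ph219 : PT := (O (N (O (O (N (L 8824) (L 9012)))) (N (L 9320) (O (O (N (N (L 10044) (O (N (L 10044) (L 10044)))) (L 6473)))))))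

def ph220 : PT := (O (O (O (N (L 9825) (N (L 9825) (O (O (N (L 9825) (L 5243)))))))))

def ph221 : PT := (O (O (N (O (O (O (O (N (L 11822) (L 11822)))))) (O (O (N (N (L 10096) (L 7217)) (O (O (N (L 11822) (L 10808))))))))))

def ph222 : PT := (O (N (O (O (N (L 11936) (L 11490)))) (N (O (N (L 11701) (L 11701))) (O (O (N (L 9403) (L 7459)))))))

def ph223 : PT := (N (O (O (N (O (O (N (L 7756) (L 6989)))) (O (N (L 7638) (N (L 7638) (O (O (N (L 7638) (L 7638)))))))))) (N (L 10128) (O (O (N (L 8796) (L 10520))))))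

def ph224 : PT := (O (N (O (O (N (O (O (N (L 7575) (N (L 7575) (O (O (N (L 7575) (L 6599)))))))) (O (N (L 13479) (N (L 13479) (L 13479))))))) (N (O (N (O (O (O (N (L 12612) (L 12612))))) (L 12612))) (O (O (N (O (O (N (L 10266) (L 5380)))) (O (O (N (L 10936) (L 9922))))))))))

def ph225 : PT := (N (O (N (N (O (O (N (L 9992) (N (L 9992) (L 7914))))) (L 9060)) (L 9992))) (O (O (N (N (L 10403) (L 11115)) (L 11115)))))

def ph226 : PT := (O (N (O (O (N (L 8439) (O (N (L 9206) (L 6779)))))) (O (O (O (N (N (L 11283) (L 10398)) (L 12122)))))))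

def ph227 : PT := (N (N (O (O (N (O (O (N ph218 ph219))) (N (O (N ph220 ph221)) (O (O (N (L 12153) (L 12507)))))))) (O (O (O (O (N (O ph222) (O ph223))))))) (O (O (N (O (N (N (O ph224) (L 12543)) (O (O ph225)))) (O (O (O (N (O (O (N (L 13934) (L 13522)))) ph226))))))))

def ph228 : PT := (N (O (O (N (O (O (N (L 7174) (O (N (L 7174) (L 7174)))))) (N (L 7174) (L 5035))))) (O (N (O (O (N (L 7144) (L 5245)))) (N (L 10840) (O (O (N (L 10840) (L 10840))))))))

def ph229 : PT := (O (O (N (O (O (N (O (O (N (L 8882) (L 8115)))) (L 4820)))) (N (L 12121) (L 12121)))))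

def ph230 : PT := (O (N (O (O (N (L 6050) (O (N (L 10069) (N (L 8991) (L 8991))))))) (N (L 8371) (L 8371))))

def ph231 : PT := (O (O (N (O (O (N (L 13362) (L 12916)))) (N (L 13341) (O (O (N (L 12825) (O (O (N (L 10970) (L 7965)))))))))))

def ph232 : PT := (O (O (O (O (N (O (O (N (L 12764) (L 11808)))) (O (N (L 11975) (N (L 11975) (O (O (N (L 7112) (O (O (N (L 6854) (O (O (N (L 6854) (O (O (N (L 4933) (L 5840)))))))))))))))))))))

def ph233 : PT := (N (O (O (N (O (O (N (L 6469) (O (N (L 6469) (N (L 6469) (O (O (N (L 6469) (O (O (N (L 6469) (O (O (N (L 6469) (O (O (N (L 6469) (O (O (N (L 5455) (L 5455)))))))))))))))))))))) (L 6229)))) (O (N (O (O (N (L 6886) (O (N (L 10737) (L 9659)))))) (O (O (O (N (L 11567) (L 11567))))))))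

def ph234 : PT := (O (O (N (L 12280) (O (O (N (L 11902) (O (O (N (L 11902) (L 11902))))))))))

def ph235 : PT := (O (N (N (O (O (N (O (O ph228)) (O (O (N (L 10997) (O (O (N (L 11016) (L 10542)))))))))) (O (N (O (O (N ph229 ph230))) (O (O (O (O (N (L 10135) (L 9672))))))))) (O (O (N (O (N (N ph231 ph232) (O (O (O (O (N (L 13592) (L 14127)))))))) (O (O (N ph233 ph234))))))))

def ph236 : PT := (O (O (N (N (O (O (N ph201 ph203))) (O (N (O ph211) (O ph217)))) (O (O (N (O ph227) (O ph235)))))))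

def ph237 : PT := (N (O (O (N (O (O (N (L 8437) (L 9854)))) (O (N (L 13587) (L 13093)))))) (N (O (N (L 14257) (L 14257))) (L 14257)))

def ph238 : PT := (N (O (O (O (O (N (L 14257) (L 14257)))))) (O (O (N (N (O (O (N (L 14257) (L 14257)))) (O (N (L 13334) (L 13334)))) (L 14257)))))

def ph239 : PT := (O (N (O (O (O (O (N (L 14257) (L 14257)))))) (N (L 14257) (L 14257))))

def ph240 : PT := (N (O (N (N (O (O (N (L 12599) (L 12143)))) (O (O (O (O (N (L 5194) (L 12023))))))) (O (O (N (L 12599) (L 12599)))))) (O (O (N (N (L 5836) (O (N (L 10628) (L 10628)))) (L 12079)))))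

def ph241 : PT := (O (N (O (O (N (L 9007) (O (N (L 13860) (L 13132)))))) (O (O (O (N (N (L 14257) (L 14257)) (L 14257)))))))

def ph242 : PT := (O (N (O (N (N (O (O (N (L 7034) (N (L 10585) (L 10585))))) (L 10585)) (L 13092))) (O (O (N (N (O (O (N (L 13673) (L 13673)))) (L 11453)) (L 13673))))))

def ph243 : PT := (O (O (N (O (O (N (O (O ph237)) (O (N (O (O (O (O (N (O (O (N (L 9007) (L 13444)))) (L 13444)))))) ph238))))) (N (O (N (O (O ph239)) (O (O ph240)))) (O (O (N (O ph241) (O ph242))))))))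

def ph244 : PT := (O (N (O (O (N (L 3839) (N (L 6438) (L 6438))))) (O (N (O (O (N (L 9007) (L 9007)))) (N (L 9007) (L 9007))))))

def ph245 : PT := (O (N (N (O (O (N (L 8841) (L 12361)))) (O (O (O (O (N (L 11531) (L 11531))))))) (L 11923)))

def ph246 : PT := (O (N (O (O (N (O (O (N (L 5775) (N (L 8655) (L 8655))))) (O (N (L 9119) (N (L 8625) (L 9119))))))) (L 9621)))

def ph247 : PT := (N (O (O (N (O (O (N (L 12848) (N (L 12238) (L 12848))))) (L 11484)))) (O (O (O (N (N (L 12172) (O (N (L 12172) (N (L 12172) (L 12172))))) (O (O (N (L 12172) (L 12172)))))))))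

def ph248 : PT := (N (O (N (N (O (O (N (L 11472) (L 11472)))) (L 11472)) (L 11472))) (O (O (N (N (O (O (N (L 8712) (L 8712)))) (L 8010)) (L 8193)))))

def ph249 : PT := (O (N (O (O (O (O (N (O ph244) (N (O (O (O (O (N (L 9007) (L 9007)))))) (O (O (N (L 9007) (O (O (N (L 9007) (L 9007))))))))))))) (N (O (O (O (O (N ph245 (L 9751)))))) (O (O (N (N (O ph246) (O ph247)) (O (O ph248))))))))

def ph250 : PT := (N (O (O (N (O (O (O (N (L 11702) (L 11702))))) (O (N (L 11702) (L 11523)))))) (N (L 9512) (O (O (N (N (O (O (N (L 9512) (L 9512)))) (O (N (L 3757) (N (L 5449) (L 5449))))) (O (O (N (L 8408) (L 8408)))))))))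

def ph251 : PT := (O (N (O (N (L 14257) (L 14257))) (O (O (N (N (L 14257) (L 13859)) (L 14257))))))

def ph252 : PT := (O (O (N (O (N (N (O (O (N (L 13494) (L 13494)))) (L 13494)) (O (O (N (L 13494) (L 13494)))))) (L 13888))))

def ph253 : PT := (O (O (O (N (O (O (N (O (O (N (O (O (N (L 8833) (L 8833)))) (L 16007)))) (O ph250)))) (N (O (N (O (O (O (N (L 14257) (L 14257))))) (O ph251))) (O (O (N (L 8912) ph252))))))))

def ph254 : PT := (N (O (O (N (O (O (N (L 14257) (N (L 14016) (L 14016))))) (O (N (O (O (N (O (O (N (L 11045) (L 9007)))) (L 11045)))) (L 14257)))))) (L 13264))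

def ph255 : PT := (O (O (N (O (O (N (O (O (N (O (O (N (L 9945) (L 7055)))) (L 9945)))) (L 9945)))) (O (N (L 10548) (L 10548))))))

def ph256 : PT := (O (N (N (O (O (N (L 12560) (L 12104)))) (L 4428)) (O (O (N (L 13404) (L 13404))))))

def ph257 : PT := (O (O (N (N (O (O (N (O (O (N (L 6879) (L 9238)))) (L 9238)))) (O (N (L 13404) (L 12870)))) (L 13404))))

def ph258 : PT := (O (N (O (O (N (O (O (N (L 7814) (N (L 8821) (L 8821))))) (O (N (L 8821) (L 8363)))))) (O (O (N (O (O (O (N (L 11049) (L 11049))))) (L 10578))))))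

def ph259 : PT := (N (L 7033) (O (O (O (N (N (L 11313) (L 11313)) (O (O (N (L 11313) (L 11313)))))))))

def ph260 : PT := (N (O (O (N (O (O (N (O (O (N (L 7413) (L 11582)))) (L 12653)))) (L 12653)))) (O (O (N (N (L 10480) (L 10480)) (L 10043)))))

def ph261 : PT := (O (O (N (O (N (N (O (O ph254)) (O (O ph255))) (O (O (N ph256 ph257))))) (O (O (N (N (O ph258) (O ph259)) (O (O ph260))))))))

def ph262 : PT := (O (N (O (O (N (O (O (N (L 7399) (N (L 6935) (L 6935))))) (L 6905)))) (N (L 14257) (O (O (N (L 14257) (L 14257)))))))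

def ph263 : PT := (N (O (O (N (O (O (N (L 13372) (N (L 12533) (L 12533))))) (O (N (O (O (N (L 6890) (L 9248)))) (L 9671)))))) (N (L 13770) (O (O (N (O (O (O (N (L 12931) (L 12931))))) (O (O (N (L 12931) (L 12931)))))))))

def ph264 : PT := (N (L 11393) (O (N (O (O (N (L 6886) (O (N (L 10166) (N (L 10166) (L 10166))))))) (L 11978))))

def ph265 : PT := (O (N (O (O (N (O (O (N (L 6676) (N (L 8122) (L 8122))))) (O (N (L 11645) (L 11645)))))) (N (L 11176) (L 11176))))

def ph266 : PT := (N (O (N (N (O (O (N (O (O (N (O (O (N (L 10089) (L 8934)))) (L 10089)))) (L 10089)))) (L 11206)) (O (O (N (L 10768) (L 10768)))))) (O (O (O (N (L 12157) (O (N (L 13286) (L 13286))))))))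

def ph267 : PT := (O (O (N (O (O (N (O (O (N (L 9851) (N (L 9851) (L 3609))))) (L 10907)))) (L 10907))))

def ph268 : PT := (O (N (O (O (N (L 9229) (O (N (L 6504) (L 10068)))))) (O (O (O (O (N (L 10068) (L 10068))))))))

def ph269 : PT := (O (N (O (N (N (O (O (N (L 14071) (N (L 14071) (L 14071))))) (L 14071)) (L 14071))) (O (O (N (N (O (O (N (L 11588) (L 11588)))) (O (N (L 7172) (N (L 11588) (L 11588))))) (O (O (N (L 10484) (L 10484)))))))))

def ph270 : PT := (N (O (O (N (O (O (N (O ph262) (O ph263)))) (O (O (O (N ph264 (O (O (N (L 14257) (L 14257))))))))))) (O (O (N (O (N (N (O ph265) (O (O (O (O (N (L 7844) (L 12103))))))) (O (O ph266)))) (O (O (N (N ph267 ph268) (O ph269))))))))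

def ph271 : PT := (N (O (O (N (L 9961) (O (N (L 10546) (L 10546)))))) (N (O (N (O (O (O (N (L 8135) (N (L 8135) (L 8135)))))) (L 8135))) (O (O (N (O (O (N (L 1750) (N (L 6648) (L 6648))))) (L 5544))))))

def ph272 : PT := (O (N (N (L 7134) (O (O (O (O (N (L 8528) (L 8528))))))) (O (O (N (L 9477) (L 9477))))))

def ph273 : PT := (N (O (O (N (O (O (N (L 11795) (L 11185)))) (O (N (O (O (N (L 7128) (L 3427)))) (L 7526)))))) (O (O (O (N (N (L 11637) (O (N (L 11637) (L 10469)))) (L 11119))))))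

def ph274 : PT := (N (O (N (N (O (O (N (L 9509) (L 9509)))) (L 8252)) (L 10072))) (O (O (N (N (O (O (N (L 7630) (L 7630)))) (O (N (L 3832) (L 3832)))) (L 8624)))))

def ph275 : PT := (O (N (O (O (N (O (O (N (O (O (N (L 9218) (O (N (L 6205) (L 8102)))))) (L 9255)))) (L 16007)))) (N (O (N (O (O (O ph271))) (O (O (N ph272 (O (O (N (N (L 8871) (L 8147)) (L 8434))))))))) (O (O (N (O (O ph273)) (O (O ph274))))))))

def ph276 : PT := (O (O (O (O (N (O (O (N (L 9902) (L 8300)))) (N (L 9902) (L 9902)))))))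

def ph277 : PT := (O (O (N (O (O (N (O (O (N (L 9013) (O (N (L 4063) (L 8285)))))) (L 9013)))) (O (O (N (L 9649) (L 9649)))))))

def ph278 : PT := (N (O (O (N (L 11003) (N (L 11003) (O (O (N (L 11003) (L 11003)))))))) (O (N (L 5946) (N (L 10045) (L 10045)))))

def ph279 : PT := (O (O (O (N (O (N (N (L 10656) (L 10656)) (L 10656))) (O (O (N (N (L 10656) (L 10656)) (L 10656))))))))

def ph280 : PT := (O (N (N (O (O (N (L 5559) (L 6279)))) (L 10803)) (L 10672)))

def ph281 : PT := (N (L 13163) (O (O (N (O (N (N (L 12359) (L 12359)) (L 12359))) (L 12359)))))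

def ph282 : PT := (O (N (N (L 13163) (L 9115)) (O (O (N (L 13163) (O (O (N (N (L 13163) (L 13163)) (L 13163)))))))))

def ph283 : PT := (N (O (O (N (O (O (N (L 10320) (L 9481)))) (O (N (O (O (N (L 8717) (O (N (O (O (N (L 8717) (L 5610)))) (L 7989)))))) (L 8717)))))) (O (O (N (O (O (O (N (L 5242) (N (L 6534) (L 6534)))))) (O (O (N (O (N (L 11040) (L 11040))) (L 11040))))))))

def ph284 : PT := (O (O (O (N (N (O (O (N (L 10004) (L 10004)))) (O (N (L 5519) (L 6683)))) (L 9485)))))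

def ph285 : PT := (O (N (N (O (O (N (L 10659) (L 10203)))) (O (O (O (O (N (L 9666) (O (N (L 2112) (L 9229))))))))) (O (O (N (L 11260) (L 11260))))))

def ph286 : PT := (O (O (N (N (O (O (N (O (O (N (L 6061) (L 5341)))) (L 6061)))) (O (N (L 11260) (L 10726)))) (O (O (N (L 10547) (L 10547)))))))

def ph287 : PT := (N (O (O (N (O (O (N (O ph276) (N (O (N (O (O (O (N (L 10565) (L 10565))))) (L 9509))) ph277)))) (O (N (O (O ph278)) (N (O ph279) (O ph280))))))) (N (O (O (O (O (N (O ph281) (O ph282)))))) (O (O (N (N (O (O ph283)) (O (N (O (O (O (O (O (N (L 12877) (N (L 12877) (L 12877)))))))) ph284))) (O (O (N ph285 ph286))))))))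

def ph288 : PT := (O (O (N (O (O (N (O (O (N (L 13659) (L 10757)))) (L 13659)))) (L 13201))))

def ph289 : PT := (N (O (O (O (O (O (N (L 14257) (N (L 14257) (L 14257)))))))) (O (O (N (O (O (N (O (O (N (L 11933) (L 9007)))) (L 11933)))) (L 10829)))))

def ph290 : PT := (O (N (L 13763) (O (N (O (O (N (L 13035) (L 13035)))) (O (O (O (N (L 13035) (L 13035)))))))))

def ph291 : PT := (N (N (O (O (N (L 10525) (L 12045)))) (O (O (O (O (N (L 12887) (L 12887))))))) (O (O (N (O (N (N (L 13279) (L 13279)) (L 13279))) (L 13279)))))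

def ph292 : PT := (N (O (O (N (L 12285) (O (N (L 12553) (N (L 7039) (L 12553))))))) (O (O (N (O (O (O (N (L 14236) (N (L 13523) (L 13523)))))) (L 13336)))))

def ph293 : PT := (O (O (N (O (O (N (L 14172) (L 13333)))) (O (N (L 6277) (L 8061))))))

def ph294 : PT := (O (O (O (N (N (L 13867) (O (N (L 13867) (L 12699)))) (L 14249)))))

def ph295 : PT := (O (O (N (N (L 11323) (O (N (O (O (N (L 10824) (L 8198)))) (L 11908)))) (L 10804))))

def ph296 : PT := (O (N (O (N (N (O (O (N ph288 ph289))) (O (O (O ph290)))) (O (O (N (O ph291) (O (O (N (N (L 14257) (L 14257)) (L 14257))))))))) (O (O (N (N (O (O ph292)) (O (N ph293 ph294))) (O (O (N (O (O (N (O (O (N (L 14257) (L 13730)))) (L 13060)))) ph295))))))))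

def ph297 : PT := (O (N (O (O (N (O (O (N (L 10689) (N (L 10689) (L 10689))))) (L 6664)))) (N (L 10584) (L 10584))))

def ph298 : PT := (N (O (O (N (O (O (O (N (L 13032) (L 13032))))) (O (N (O (O (N (L 6981) (L 5668)))) (L 13143)))))) (N (L 13002) (O (O (N (N (L 13032) (O (N (L 11864) (N (L 11864) (L 11864))))) (L 12869))))))

def ph299 : PT := (O (N (O (N (N (O (O (N (L 11414) (L 11414)))) (L 5850)) (L 11542))) (O (O (N (N (L 10951) (L 9895)) (L 9895))))))

def ph300 : PT := (N (O (O (N (O (O (N (L 8666) (L 8056)))) (L 9207)))) (N (O (N (O (O (O (N (O (O (N (L 4276) (L 3782)))) (N (L 4276) (L 4276)))))) (O (O (N (L 3733) (L 4276)))))) (O (O (N (L 8197) (L 8197))))))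

def ph301 : PT := (O (O (N (O (O (N (O (O (N (L 6758) (L 6758)))) (O (N (L 6758) (L 4189)))))) (O (O (N (L 6758) (L 6758)))))))

def ph302 : PT := (O (N (O (O (N (O (O (N (L 6501) (N (L 6501) (L 6501))))) (L 4838)))) (O (O (O (N (N (L 7665) (L 7665)) (L 7665)))))))

def ph303 : PT := (O (N (O (N (N (O (O (N (L 10228) (N (L 10228) (L 10228))))) (L 10228)) (L 10228))) (O (O (N (N (O (O (N (L 11032) (L 11032)))) (L 8165)) (L 9944))))))

def ph304 : PT := (N (O (O (N (O (O (N (O ph297) (O ph298)))) (O (O (N (O (O (O (N (L 5850) (N (L 10821) (L 10821)))))) (O ph299))))))) (O (N (O (O (N (O (O ph300)) (O (N (O (O (N (L 7023) (O (N (L 7441) (L 7441)))))) (L 16007)))))) (O (O (O (N (N ph301 ph302) (O ph303))))))))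

def ph305 : PT := (N (O (O (N (O (O (N (L 9088) (N (L 8624) (L 8624))))) (L 5837)))) (N (L 11813) (O (O (N (L 12713) (L 12713))))))

def ph306 : PT := (O (O (N (O (O (N (L 12339) (L 11729)))) (O (N (L 4517) (L 6747))))))

def ph307 : PT := (O (N (N (O (O (N (L 10620) (N (L 10620) (L 10620))))) (L 9950)) (L 10821)))

def ph308 : PT := (O (O (O (N (L 11029) (O (N (O (O (N (L 8905) (L 5989)))) (L 8905)))))))

def ph309 : PT := (O (N (O (O (N (O (O (N (L 9924) (N (L 9085) (L 9085))))) (O (N (L 5436) (L 9204)))))) (L 9924)))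

def ph310 : PT := (N (O (O (N (O (O (N (L 5818) (L 10302)))) (O (N (L 11182) (L 11182)))))) (O (O (O (O (N (O (O (N (L 10879) (L 10879)))) (L 10151)))))))

def ph311 : PT := (N (O (N (N (O (O (N (L 11630) (N (L 11174) (L 11174))))) (O (O (O (O (N (L 10799) (O (N (L 10799) (N (L 10071) (L 4221)))))))))) (L 11630))) (O (O (N (N (L 4608) (O (N (L 11342) (L 10808)))) (L 10629)))))

def ph312 : PT := (O (O (N (O (N (N (O (O ph305)) (O (O ph306))) (O (O (N ph307 ph308))))) (O (O (N (N (O ph309) (O ph310)) (O (O ph311))))))))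

def ph313 : PT := (N (O (O (N (O (O (N ph243 ph249))) (N (O (N ph253 ph261)) (O (O ph270)))))) (O (N (O (O (N (O ph275) (O ph287)))) (N (O (O (O ph296))) (O (O (N ph304 ph312)))))))

def ph314 : PT := (O (N (O (O (N (O (O (N (L 12379) (L 12379)))) (O (N (L 11694) (L 11694)))))) (N (O (N (O (O (O (N (L 9459) (L 9867))))) (L 9459))) (O (O (N (L 9867) (O (O (N (O (N (N (L 4268) (L 4547)) (L 5128))) (L 9867))))))))))

def ph315 : PT := (N (O (O (O (O (N (L 12047) (L 12047)))))) (N (O (O (O (O (N (O (N (N (O (O (N (O (O (N (L 5796) (L 6194)))) (L 6473)))) (L 6473)) (L 6473))) (L 6473)))))) (O (O (N (N (L 8331) (L 8331)) (L 8331))))))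

def ph316 : PT := (O (N (O (N (L 8341) (L 7612))) (O (O (N (L 7217) (O (O (N (L 2099) (L 4816)))))))))

def ph317 : PT := (O (O (N (O (N (N (L 7359) (L 8061)) (O (O (N (L 2099) (L 5223)))))) (L 7041))))

def ph318 : PT := (O (N (O (N (O (O (O (N (L 11356) (L 10654))))) (O (O (N (O (N (N (L 7920) (L 8477)) (L 8477))) (L 8477)))))) (L 10939)))

def ph319 : PT := (N (L 11416) (O (O (N (N (O (O (N (L 12521) (O (O (N (N (L 7870) (L 8370)) (L 8370))))))) (O (N (L 12521) (L 12521)))) (L 11493)))))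

def ph320 : PT := (N (O (N (N (O (O (N (L 12503) (N (L 11801) (L 11801))))) (L 12038)) (O (O (N (O (N (L 7467) (L 8024))) (L 12503)))))) (O (O (N (N (O (O (N (L 13383) (L 13383)))) (L 13383)) (L 12006)))))

def ph321 : PT := (O (O (N (O (O (N (L 14195) (L 14195)))) (O (O (N (L 14195) (L 13291)))))))

def ph322 : PT := (O (N (O (O (N (O (O (N (L 8416) (N (O (N (N (L 7916) (L 8416)) (L 8416))) (L 8416))))) (L 8416)))) (O (O (O (N (L 8985) (L 7608)))))))

def ph323 : PT := (O (N (O (N (N (O (O (N (L 5417) (L 8166)))) (L 8616)) (L 8337))) (O (O (N (N (L 12683) (O (N (L 12683) (N (L 11890) (L 11890))))) (L 12526))))))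

def ph324 : PT := (N (O (O (N (O (O (N (O ph314) (O ph315)))) (N (O (N (O (O (O (O (N (O (N (L 7004) (L 7004))) (L 7004)))))) (O ph316))) (O (O (N (O (O (N (L 7133) (L 7547)))) ph317))))))) (O (N (O (O (N (O (O ph318)) (O (N (O (O (N (L 10682) (L 11182)))) ph319))))) (N (O (O (O (O ph320)))) (O (O (N (N ph321 ph322) (O ph323))))))))

def ph325 : PT := (O (O (N (L 10275) (N (L 9273) (O (O (N (L 9273) (L 9273))))))))

def ph326 : PT := (O (N (O (O (N (O (O (O (N (L 10884) (L 11869))))) (L 11384)))) (N (L 10849) (O (O (N (N (L 11954) (L 11934)) (L 10926)))))))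

def ph327 : PT := (O (O (O (N (L 6574) (N (O (N (O (O (O (N (L 6166) (L 3208))))) (L 6574))) (L 6574))))))

def ph328 : PT := (O (O (N (O (N (L 5993) (O (O (N (O (N (N (L 5291) (L 5993)) (L 5993))) (L 5993)))))) (O (O (N (N (L 6015) (L 6015)) (L 6015)))))))

def ph329 : PT := (N (O (O (N (O (O (N (L 12948) (L 11897)))) (L 12948)))) (O (O (N (O (N (N (O (O (N (L 5482) (L 5482)))) (L 5482)) (L 5482))) (L 9595)))))

def ph330 : PT := (O (O (O (N (O (O (N (L 5469) (N (L 5469) (L 5469))))) (O (N (L 5887) (L 5887)))))))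

def ph331 : PT := (N (O (N (N (O (O (N (L 7437) (N (L 5507) (L 7437))))) (L 7437)) (O (O (N (L 6708) (L 6708)))))) (O (O (N (N (O (O (N (L 7755) (L 7755)))) (O (N (L 8884) (L 8884)))) (L 8799)))))

def ph332 : PT := (O (O (N (L 7688) (O (O (N (O (O (O (N (L 7758) (N (O (N (L 7758) (L 7875))) (L 7758)))))) (L 7153)))))))

def ph333 : PT := (O (N (O (O (N (L 6851) (L 6851)))) (O (O (O (N (N (L 6851) (L 6851)) (O (O (N (O (N (L 4704) (L 6851))) (L 6851))))))))))

def ph334 : PT := (O (N (O (O (N (O (O (N (L 12168) (N (L 11622) (L 12168))))) (L 12168)))) (O (O (N (L 12168) (L 10791))))))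

def ph335 : PT := (N (O (O (O (N (O (O (N ph325 ph326))) (N (O (N ph327 ph328)) (O (O ph329))))))) (O (O (N (O (N (O (O ph330)) (O (O ph331)))) (O (O (N (N ph332 ph333) (O ph334))))))))

def ph336 : PT := (O (O (N (L 13354) (N (O (N (L 12284) (L 11616))) (L 12284)))))

def ph337 : PT := (O (N (O (O (N (O (O (N (L 9716) (N (O (N (L 9216) (L 9716))) (L 9716))))) (O (N (L 9716) (L 9716)))))) (N (O (O (O (O (N (O (N (L 6007) (L 10479))) (L 10479)))))) (L 10479))))

def ph338 : PT := (N (N (O (O (N (L 9037) (O (O (N (L 7165) (L 9037))))))) (O (N (O (O (N (L 9037) (L 9037)))) (L 9037)))) (O (O (N (O (N (L 9906) (L 6007))) (L 9906)))))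

def ph339 : PT := (O (O (N (L 11778) (N (O (N (O (O (O (N (L 10024) (L 8985))))) (L 9419))) (L 10524)))))

def ph340 : PT := (O (O (O (O (N (O (O (N (L 12392) (N (L 12392) (L 12392))))) (O (N (L 12392) (L 12392))))))))

def ph341 : PT := (O (O (N (O (N (N (O (O (N (L 7272) (N (L 7272) (L 7272))))) (L 7272)) (L 12785))) (O (O (N (N (L 12595) (O (N (L 12595) (L 11802)))) (L 12595)))))))

def ph342 : PT := (O (N (O (O (N (O (O (N ph336 ph337))) (O (O (O ph338)))))) (O (O (N (O (N (N ph339 ph340) (O (O (N (O (N (N (L 10101) (L 10803)) (L 6523))) (L 9821)))))) (O (O (N (N (L 12297) (L 12181)) ph341))))))))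

def ph343 : PT := (N (O (O (N (O (O (N (L 8264) (L 8264)))) (L 8264)))) (N (O (N (O (O (O (N (L 6381) (N (L 6381) (L 6381)))))) (L 5957))) (O (O (N (L 9073) (L 9490))))))

def ph344 : PT := (N (L 10757) (O (O (N (N (L 10757) (O (N (L 10757) (L 10757)))) (L 10757)))))

def ph345 : PT := (O (N (L 10757) (N (L 10027) (O (O (N (L 10027) (L 10027)))))))

def ph346 : PT := (N (O (N (N (O (O (N (L 10757) (L 10757)))) (L 10757)) (O (O (N (L 3974) (L 5493)))))) (L 10757))

def ph347 : PT := (O (N (O (N (N (O (O (N (L 3427) (N (L 3427) (L 3427))))) (L 3427)) (L 8497))) (O (O (N (N (L 10385) (L 10385)) (L 10385))))))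

def ph348 : PT := (O (O (N (O (O (N (O (O ph343)) (O (O ph344))))) (N (O (N (O (O ph345)) (O (O ph346)))) (O (O (N (L 10626) (O ph347))))))))

def ph349 : PT := (N (O (N (O (O (O (N (L 9372) (L 9372))))) (L 9372))) (L 8632))

def ph350 : PT := (O (N (L 10757) (O (N (O (O (N (L 10757) (L 10757)))) (L 10757)))))

def ph351 : PT := (O (N (L 5834) (O (O (N (O (O (O (N (L 7060) (L 7060))))) (L 3220))))))

def ph352 : PT := (N (O (N (N (O (O (N (L 5715) (L 5715)))) (L 5715)) (L 5715))) (O (O (N (L 6491) (O (O (N (L 4290) (L 6491))))))))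

def ph353 : PT := (O (N (O (O (N (O (O (N (L 9632) ph349))) (O (N (O ph350) (N (L 10189) (O (O (N (L 10757) (L 4700)))))))))) (N (O (O (O (O (N (O (N (N (O (O (N (L 8728) (L 8728)))) (L 14257)) (L 8728))) (O (O (N (N (L 9152) (O (N (L 9152) (L 9152)))) (L 9152))))))))) (O (O (N (N (O ph351) (O (O (O (O (O (N (N (L 8430) (L 8430)) (L 8430)))))))) (O (O ph352))))))))

def ph354 : PT := (N (O (O (N (O (O (N (L 11645) (N (L 11645) (L 11645))))) (O (N (L 10490) (N (L 6938) (L 10490))))))) (N (O (N (L 10054) (O (O (N (L 11237) (L 11237)))))) (O (O (N (L 7461) (O (O (N (O (N (L 7461) (L 7182))) (L 7461)))))))))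

def ph355 : PT := (O (O (N (O (O (O (N (O (N (L 8857) (O (O (N (L 7746) (L 8857)))))) (L 8857))))) (O (N (L 13118) (L 13118))))))

def ph356 : PT := (N (O (O (O (O (N (O (N (L 10004) (O (O (N (L 9722) (L 10004)))))) (L 14451)))))) (O (O (N (L 13628) (O (O (N (O (N (L 13417) (L 12974))) (L 13628))))))))

def ph357 : PT := (O (N (O (O (N (O (O (N (L 8874) (N (O (O (O (O (N (L 6231) (L 8874)))))) (L 8874))))) (O (N (L 10100) (L 9822)))))) (N (O (N (L 4012) (L 4435))) (O (O (N (O (O (N (L 9962) (L 9962)))) (L 9962)))))))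

def ph358 : PT := (O (N (O (O (N (O (O (N (L 11216) (N (L 11216) (L 11216))))) (O (N (L 11216) (N (L 10111) (L 11216))))))) (O (O (O (N (N (L 8291) (L 8291)) (O (O (N (L 7174) (L 7453))))))))))

def ph359 : PT := (O (N (O (N (N (O (O (N (L 12032) (N (L 11330) (L 11330))))) (L 12032)) (L 7126))) (O (O (N (N (L 11050) (L 11050)) (L 11050))))))

def ph360 : PT := (O (O (N (O (O (N (O (O ph354)) (O (N ph355 ph356))))) (N (O (N (O (O ph357)) (O (O (O (O (O (N (N (L 9275) (L 9275)) (L 9275))))))))) (O (O (N (O ph358) (O ph359))))))))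

def ph361 : PT := (O (O (N (O (O (N (L 10809) (N (O (N (L 10809) (O (O (N (L 7700) (L 10809)))))) (L 10809))))) (L 13797))))

def ph362 : PT := (N (O (N (L 12522) (O (O (N (O (N (L 13404) (L 6812))) (L 13404)))))) (O (O (N (L 12768) (O (O (N (O (N (L 12177) (L 12177))) (L 13554))))))))

def ph363 : PT := (O (O (N (N (O (O (N (L 10555) (O (O (N (L 10555) (L 8107))))))) (L 9962)) (O (O (N (L 13040) (L 13040)))))))

def ph364 : PT := (O (O (O (O (N (O (O (N ph361 ph362))) (O (N (O (O (N (L 13256) (O (N (L 14079) (L 13450)))))) (N (L 9376) ph363))))))))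

def ph365 : PT := (N (O (N (O (O (O (N (L 10624) (N (O (N (L 10624) (O (O (N (O (N (L 9519) (L 5383))) (L 10624)))))) (L 10624)))))) (L 12448))) (O (O (N (L 13352) (L 7324)))))

def ph366 : PT := (O (N (O (O (N (L 10923) (N (L 8138) (L 10354))))) (L 10143)))

def ph367 : PT := (O (N (N (O (O (N (L 11854) (O (O (N (L 11854) (L 7544))))))) (L 13873)) (L 13312)))

def ph368 : PT := (N (O (O (N (O (O (N (L 10607) (N (O (N (L 10607) (O (O (N (O (N (L 9502) (L 7649))) (L 10607)))))) (L 10607))))) (O (N (L 12513) (L 12042)))))) (O (O (N (L 12534) (O (O (N (O (N (L 8483) (O (O (N (L 8204) (L 8483)))))) (L 8483))))))))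

def ph369 : PT := (O (O (N (L 13242) (O (N (L 14111) (N (L 14006) (O (O (N (L 14111) (L 14111))))))))))

def ph370 : PT := (O (O (O (N (N (O (O (N (L 11498) (L 9632)))) (L 13654)) (L 12416)))))

def ph371 : PT := (O (O (N (N (L 15137) (O (N (L 14776) (L 15648)))) (O (O (N (O (N (L 13233) (O (O (N (L 12429) (L 13233)))))) (L 13233)))))))

def ph372 : PT := (O (N (O (N (N (O (O (N (O (O (N (L 11577) (O (N (L 11577) (L 9743)))))) ph365))) (O (O (O ph366)))) (O (O (N (O (N (N (L 8384) (L 8663)) (L 8384))) (O ph367)))))) (O (O (N (N (O (O ph368)) (O (N ph369 ph370))) (O (O (O ph371))))))))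

def ph373 : PT := (O (N (O (O (N (O (O (N (L 7568) (N (O (N (L 7568) (L 5162))) (L 7568))))) (O (N (L 7733) (L 7733)))))) (N (O (N (L 10743) (L 9174))) (O (O (N (L 11445) (O (O (N (L 11445) (L 11445))))))))))

def ph374 : PT := (N (O (O (N (L 12692) (O (N (L 12886) (L 12886)))))) (N (O (O (O (O (N (L 9179) (L 9179)))))) (O (O (N (L 13538) (O (O (N (L 13328) (L 12300)))))))))

def ph375 : PT := (O (O (N (O (O (N (L 13590) (O (N (L 13020) (L 13020)))))) (N (O (N (L 9761) (O (O (N (L 8656) (O (O (N (L 7139) (L 9761))))))))) (L 9761)))))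

def ph376 : PT := (O (N (O (N (L 11097) (O (O (N (O (N (L 8807) (O (O (N (L 8807) (L 8296)))))) (L 8807)))))) (O (O (N (L 10817) (O (O (N (L 10817) (L 10817)))))))))

def ph377 : PT := (N (O (O (N (O (O (N (L 12710) (L 12005)))) (L 12710)))) (N (O (N (L 7643) (O (O (N (L 7038) (O (O (N (L 5139) (L 8067))))))))) (O (O (N (L 11684) (O (O (N (L 12477) (L 12477)))))))))

def ph378 : PT := (N (O (O (O (O (N (L 9846) (O (O (N (L 9846) (L 9846))))))))) (O (O (N (L 10387) (O (O (N (O (N (L 10898) (O (O (N (L 10898) (L 6889)))))) (L 10898))))))))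

def ph379 : PT := (O (O (N (O (O (N (L 11848) (O (N (L 11848) (N (L 11570) (L 11570))))))) (O (O (N (L 13540) (L 7983)))))))

def ph380 : PT := (O (N (L 12910) (O (O (O (N (N (L 13980) (L 13980)) (L 12952)))))))

def ph381 : PT := (O (N (O (N (N (O (O (N (L 8595) (N (O (N (L 8595) (O (O (N (L 7490) (O (O (N (L 7374) (L 8595))))))))) (L 8595))))) (L 9407)) (L 11690))) (O (O (O (O (O (N (L 13819) (L 13819)))))))))

def ph382 : PT := (N (O (O (N (O (O (N (O ph373) (O ph374)))) (O (O (N (O ph375) (O ph376))))))) (O (N (O (O (N (O (O ph377)) (O (N (O (O (N (O (O (N (L 9416) (L 9416)))) (L 7993)))) ph378))))) (O (O (O (N (N ph379 ph380) (O ph381))))))))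

def ph383 : PT := (N (O (O (N (O (O (N (L 7648) (N (O (N (L 6711) (L 5507))) (L 6711))))) (L 11346)))) (N (O (N (O (O (O (N (L 11925) (N (L 11925) (L 11925)))))) (L 11925))) (O (O (N (L 11625) (O (O (N (L 11625) (L 11625)))))))))

def ph384 : PT := (O (N (O (O (N (L 12698) (O (N (L 13619) (N (L 13545) (L 13619))))))) (O (O (N (L 7712) (L 5217))))))

def ph385 : PT := (N (O (O (N (O (O (N (L 10010) (N (L 10010) (L 10010))))) (O (N (L 11064) (N (L 8244) (L 11064))))))) (O (O (O (N (L 13352) (L 13352))))))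

def ph386 : PT := (N (O (N (N (O (O (N (L 12629) (N (L 11927) (L 11927))))) (L 12164)) (O (O (O (O (N (L 12629) (L 9921)))))))) (O (O (N (L 12332) (O (O (N (O (N (L 10955) (L 10955))) (L 12332))))))))

def ph387 : PT := (O (O (N (O (O (N (O (O ph383)) (L 12213)))) (O (O (N (N (O ph384) (O ph385)) (O (O ph386))))))))

def ph388 : PT := (N (N (O (O (N (O (O ph324)) (N (O ph335) (O ph342))))) (O (O (O (O (N ph348 ph353)))))) (O (O (N (O (N (N ph360 ph364) (O ph372))) (O (O (N ph382 ph387)))))))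

def ph389 : PT := (O (O (N (O (O (N (L 8530) (L 8530)))) (N (O (N (L 6924) (O (O (N (L 6924) (O (O (N (N (L 5551) (L 6924)) (L 6924))))))))) (O (O (N (L 10372) (L 9907))))))))

def ph390 : PT := (O (N (O (O (O (O (N (L 10537) (L 10537)))))) (N (L 10537) (O (O (N (N (L 7156) (L 9097)) (L 10537)))))))

def ph391 : PT := (O (O (N (O (N (L 10982) (O (O (N (L 5166) (L 4482)))))) (L 10581))))

def ph392 : PT := (N (L 7947) (O (O (N (O (N (N (L 8541) (L 8541)) (L 8541))) (O (O (N (L 5647) (L 6076))))))))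

def ph393 : PT := (O (O (N (O (N (O (O (O (N (L 13803) (L 13803))))) (O (O (N (L 13803) (L 13803)))))) (O (O (N (L 10694) (L 11843)))))))

def ph394 : PT := (N (O (O (N (O (O (N (L 8370) (L 8370)))) (O (N (L 9590) (N (L 9116) (O (O (N (L 7257) (L 9116)))))))))) (N (L 10810) (O (O (N (N (O (O (N (L 10810) (L 10295)))) (L 10810)) (O (O (N (L 7689) (O (O (N (N (O (O (N (L 7607) (L 7689)))) (L 7689)) (L 7689))))))))))))

def ph395 : PT := (O (N (O (N (L 13020) (L 12387))) (O (O (N (N (L 7288) (O (N (L 13444) (L 13100)))) (O (O (N (L 13444) (L 13444)))))))))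

def ph396 : PT := (N (O (O (N (L 12700) (L 13060)))) (O (N (O (O (N (L 11316) (L 10371)))) (O (O (O (N (N (L 8883) (L 11316)) (L 11316))))))))

def ph397 : PT := (O (O (N (O (N (N (O (O (N (L 8208) (L 8816)))) (L 8208)) (L 8208))) (O (O (N (N (L 9592) (O (N (L 9592) (L 9592)))) (O (O (N (L 7099) (O (O (N (N (L 6812) (L 7099)) (L 7099)))))))))))))

def ph398 : PT := (O (N (O (O (N (O (O (N ph389 ph390))) (N (O (N (L 10843) ph391)) (O (O ph392)))))) (O (N (O (O (N (O ph393) (O ph394)))) (N (O (O (O ph395))) (O (O (N ph396 ph397))))))))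

def ph399 : PT := (N (O (O (N (O (O (N (L 9690) (L 9245)))) (L 9690)))) (O (N (L 8470) (N (L 8732) (L 8732)))))

def ph400 : PT := (N (O (O (O (N (L 11689) (N (O (N (N (L 11689) (L 10969)) (L 10969))) (L 11689)))))) (O (O (N (O (N (L 11321) (L 11321))) (O (O (N (N (L 5772) (L 7258)) (L 7258))))))))

def ph401 : PT := (O (N (O (O (N (O (O (N (L 10093) (L 10093)))) (L 8368)))) (O (O (N (O (N (L 11231) (L 11231))) (L 11839))))))

def ph402 : PT := (O (O (N (O (O (N (L 11518) (O (N (L 12202) (N (L 12202) (L 12202))))))) (L 12414))))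

def ph403 : PT := (O (N (O (N (N (L 10682) (L 11263)) (O (O (N (L 5587) (L 5587)))))) (O (O (N (N (O (O (N (L 9927) (L 10281)))) (L 6849)) (L 10281))))))

def ph404 : PT := (O (O (N (O (O (N (O (O (N (L 10049) (L 10049)))) (L 10049)))) (O (O (N (N (O (O (N (L 6132) (N (L 5338) (L 6132))))) (L 5788)) (L 10630)))))))

def ph405 : PT := (O (N (O (O (O (N (O (O ph399)) (N (O ph400) (O ph401)))))) (O (O (N (O (N (N ph402 (O (O (O (O (N (O (O (N (L 8865) (L 8865)))) (L 8021))))))) (O ph403))) (O (O (N (L 10557) ph404))))))))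

def ph406 : PT := (O (N (O (O (N (O (O (N (L 16007) (L 15547)))) (O (N (L 15392) (L 15392)))))) (N (O (N (L 14959) (L 14957))) (O (O (N (O (O (N (L 10757) (L 11164)))) (L 11164)))))))

def ph407 : PT := (O (N (L 14477) (O (O (N (N (L 13962) (O (N (L 14477) (N (L 14477) (L 14477))))) (O (O (N (L 11434) (O (O (N (N (L 11434) (L 8696)) (L 11434))))))))))))

def ph408 : PT := (O (O (N (O (O (N (L 11644) (O (N (L 11836) (N (L 11836) (L 9849))))))) (L 11890))))

def ph409 : PT := (O (N (O (N (L 11180) (O (O (N (O (N (L 11417) (L 11417))) (L 11805)))))) (O (O (N (N (L 10505) (O (N (L 4447) (L 8532)))) (L 10505))))))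

def ph410 : PT := (O (O (N (O (O (N (L 12587) (O (N (L 11642) (L 11642)))))) (O (O (O (N (L 6365) (L 13221))))))))

def ph411 : PT := (O (O (N (O (N (N (O (O (N (L 12796) (L 12796)))) (L 12796)) (O (O (N (L 12796) (L 11781)))))) (O (O (N (L 13504) (O (O (N (L 11352) (O (O (N (L 7049) (L 11352)))))))))))))

def ph412 : PT := (N (O (O (O (O (O (N (L 15927) (L 15812))))))) (N (O (N (O (O (O (N (L 9949) (N (L 9949) (L 7311)))))) (L 9949))) (O (O (N (O (O (N (L 14717) (L 14717)))) (O (O (N (L 8072) (O (O (N (N (L 8072) (L 7728)) (L 8072))))))))))))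

def ph413 : PT := (O (O (N (O (O (N (L 11179) (L 8193)))) (O (N (L 14227) (L 13269))))))

def ph414 : PT := (N (O (O (O (O (N (L 16007) (O (O (N (N (L 11575) (O (N (L 9442) (L 11231)))) (L 11575))))))))) (O (O (N (N (L 11540) (O (N (L 12873) (O (O (O (N (N (L 11157) (O (N (L 7370) (L 11157)))) (L 11157)))))))) (L 14336)))))

def ph415 : PT := (N (O (N (N (O (O (N (L 11595) (N (L 11595) (O (O (N (L 9449) (L 11595)))))))) (L 11595)) (O (O (N (L 12347) (L 12347)))))) (O (O (N (N (O (O (N (L 10704) (L 10189)))) (O (N (L 10704) (L 10704)))) (O (O (N (L 10704) (L 7062))))))))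

def ph416 : PT := (O (N (O (N (N (O (O (N (L 10924) (N (L 10343) (L 10343))))) (L 10924)) (O (O (N (L 6686) (O (O (N (N (L 6686) (L 5687)) (L 6686))))))))) (O (O (N (N (L 13645) (O (N (L 13645) (L 11132)))) (L 13645))))))

def ph417 : PT := (N (O (O (N (O (O (N (O ph406) (O ph407)))) (N (O (N (O ph408) (O ph409))) (O (O (N ph410 ph411))))))) (O (N (O (O (N (O (O ph412)) (O (N ph413 ph414))))) (N (O (O (O (O ph415)))) (O (O (N (O (O (O (N (L 12077) (L 12761))))) (O ph416))))))))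

def ph418 : PT := (N (O (O (N (O (O (N (L 14839) (O (N (L 14839) (L 14839)))))) (L 14839)))) (O (N (O (O (N (L 14109) (O (N (L 13164) (L 13164)))))) (N (L 14116) (O (O (N (N (L 12323) (O (N (L 12323) (N (L 11740) (L 11740))))) (L 14743))))))))

def ph419 : PT := (N (O (O (O (N (O (O (N (L 15971) (L 15971)))) (N (L 15971) (L 8772)))))) (O (O (N (O (N (N (L 12878) (L 12878)) (O (O (N (L 12878) (O (O (N (N (L 12878) (L 7907)) (L 12878))))))))) (L 12878)))))

def ph420 : PT := (O (O (N (L 12427) (N (L 12245) (O (O (N (O (O (N (L 12872) (L 8629)))) (L 12872))))))))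

def ph421 : PT := (O (N (O (O (N (O (O (N (L 10813) (L 10813)))) (O (N (L 12800) (N (L 12800) (L 11332))))))) (O (O (O (O (O (N (L 12820) (L 12820)))))))))

def ph422 : PT := (N (N (L 11875) (O (N (L 11674) (L 10757)))) (O (O (N (L 10207) (L 11222)))))

def ph423 : PT := (O (O (N (O (O (N (L 10378) (O (N (L 10378) (L 10378)))))) (N (O (N (L 8863) (L 8519))) (O (O (N (L 11820) (L 11226))))))))

def ph424 : PT := (O (N (O (N (N (O (O (N (L 9545) (N (L 9545) (O (O (N (O (O (N (L 9545) (N (L 8962) (L 6309))))) (L 9545)))))))) (L 9545)) (L 13421))) (L 14400)))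

def ph425 : PT := (N (O (O (N (O (O (N (L 9809) (L 9809)))) (L 9809)))) (O (O (O (O (N (O (O (N (L 9809) (L 9809)))) (L 9809)))))))

def ph426 : PT := (O (N (N (O (O (N (O (O ph418)) (O (O ph419))))) (O (N (O (O (N ph420 ph421))) (O (O (O ph422)))))) (O (O (N (O (N (N ph423 (O (O (O (O (N (L 11948) (L 12632))))))) (O ph424))) (O (O (N ph425 (O (O (N (L 13094) (L 12296))))))))))))

def ph427 : PT := (O (N (O (O (N (O (O (N (L 13339) (N (L 10357) (O (O (N (L 10357) (O (O (N (O (N (L 5618) (L 10357))) (L 10357))))))))))) (O (N (L 13371) (N (L 13307) (L 13371))))))) (N (O (N (L 12491) (O (O (N (L 13072) (O (O (N (L 13072) (O (O (N (L 8343) (L 13072)))))))))))) (O (O (N (L 13394) (O (O (N (L 13394) (L 13394))))))))))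

def ph428 : PT := (N (O (O (N (L 13970) (L 13949)))) (N (L 14575) (O (O (N (N (L 15926) (O (N (L 15926) (L 15343)))) (L 12355))))))

def ph429 : PT := (O (O (N (O (O (N (L 15268) (O (N (L 14823) (L 14823)))))) (N (O (N (L 15268) (L 14641))) (O (O (N (L 15268) (O (O (N (O (N (L 9945) (L 10686))) (L 10686)))))))))))

def ph430 : PT := (O (N (L 16007) (O (O (N (N (O (O (N (L 14795) (L 15539)))) (O (N (L 12660) (N (L 12660) (O (O (N (L 12660) (L 10139)))))))) (L 16007))))))

def ph431 : PT := (O (O (N (L 16007) (O (O (O (N (N (L 16007) (L 16007)) (L 16007))))))))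

def ph432 : PT := (O (O (N (O (N (N (O (O (N (L 12705) (L 12705)))) (L 12124)) (L 12705))) (O (O (N (N (L 12028) (L 11684)) (O (O (N (O (N (N (L 10757) (L 11244)) (L 11244))) (L 11244))))))))))

def ph433 : PT := (N (O (O (N (O (O (N (L 16007) (L 16007)))) (L 16007)))) (N (O (N (L 16007) (L 16007))) (O (O (N (O (O (N (L 15285) (N (L 14702) (L 15285))))) (L 13341))))))

def ph434 : PT := (N (O (O (O (O (N (L 15052) (L 15052)))))) (O (O (N (N (O (O (N (L 13720) (L 13720)))) (L 13720)) (O (O (N (L 12270) (O (O (N (L 12270) (L 8770)))))))))))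

def ph435 : PT := (N (O (O (N (O (O (N (O ph427) (O ph428)))) (N (O (N (O ph429) (O ph430))) (O (O (N ph431 ph432))))))) (O (O (O (O (N (O (O ph433)) (O (N (O (O (N (O (O (N (L 12418) (L 11651)))) (L 13520)))) ph434))))))))

def ph436 : PT := (N (O (O (N (O (O (N (L 8853) (N (L 8853) (L 5507))))) (O (N (L 14241) (N (L 13799) (L 14241))))))) (N (O (N (O (O (O (N (L 13890) (N (L 13451) (L 13876)))))) (O (O (O (O (O (N (L 13890) (O (O (N (L 11926) (L 13890)))))))))))) (O (O (N (O (O (N (L 11544) (N (L 6658) (O (O (N (L 6658) (L 5507)))))))) (L 11200))))))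

def ph437 : PT := (O (N (N (O (O (N (L 11507) (N (L 11507) (O (O (N (L 9429) (O (O (N (O (N (L 9429) (L 5507))) (L 9429))))))))))) (L 10575)) (L 10492)))

def ph438 : PT := (N (O (O (N (O (O (N (L 6689) (L 6689)))) (O (N (L 7456) (L 5029)))))) (O (O (O (N (N (O (O (N (L 9533) (L 9533)))) (O (N (L 8648) (N (L 8648) (L 8648))))) (L 10372))))))

def ph439 : PT := (O (O (N (O (N (N (O (O ph436)) (L 13358)) (O (O (N ph437 (O (O (N (N (L 10312) (L 10278)) (L 9365))))))))) (O (O (O (N (O (O (N (O (O (N (L 12184) (L 12184)))) (L 11772)))) (O ph438))))))))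

def ph440 : PT := (O (O (N (O (O (N (L 13327) (O (N (L 12882) (L 12882)))))) (N (O (N (L 13327) (L 12700))) (O (O (N (L 11188) (O (O (N (L 11188) (L 8207)))))))))))

def ph441 : PT := (O (N (O (O (N (O (O (O (N (L 13297) (L 12077))))) (O (N (L 11398) (L 10304)))))) (N (O (O (O (O (N (L 15725) (L 15725)))))) (O (O (N (L 13079) (O (O (N (L 13079) (O (O (N (L 13079) (L 9090)))))))))))))

def ph442 : PT := (O (O (N (O (N (L 12655) (L 12655))) (O (O (N (L 9954) (O (O (N (L 10298) (O (O (N (L 8792) (L 9992)))))))))))))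

def ph443 : PT := (O (N (O (O (N (O (O (N (L 13967) (L 13792)))) (O (O (N (L 11717) (L 9230))))))) (N (O (N (O (O (O (N (L 14707) (L 15122))))) (L 14707))) (O (O (N (L 9220) (O (O (N (L 9220) (O (O (N (L 9220) (L 8914)))))))))))))

def ph444 : PT := (N (O (O (N (O (O (N (L 12002) (N (L 12002) (O (O (N (L 12002) (O (O (N (L 12002) (L 10282))))))))))) (O (N (L 16007) (N (L 13985) (L 14943))))))) (N (O (O (O (O (N (L 14323) (O (O (N (L 12770) (O (O (N (L 12770) (L 6621)))))))))))) (O (O (N (O (O (O (N (L 13579) (L 14323))))) (L 13351))))))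

def ph445 : PT := (O (O (O (O (N (N (O (O (N (L 10757) (L 10757)))) (L 10757)) (L 10757))))))

def ph446 : PT := (O (N (O (O (N (O (O (N (L 16007) (N (L 16007) (L 16007))))) (L 16007)))) (N (O (N (L 16007) (L 16007))) (O (O (N (L 16007) (O (O (N (L 16007) (O (O (N (L 13728) (L 9969)))))))))))))

def ph447 : PT := (O (O (O (N (O (O (N (L 16007) (L 16007)))) (O (N (L 16007) (N (L 16007) (O (O (N (L 13037) (O (O (N (L 12779) (O (O (N (L 12779) (L 9886)))))))))))))))))

def ph448 : PT := (O (O (N (N (O (O (N (L 16007) (L 16007)))) (L 16007)) (O (O (N (L 16007) (O (O (N (L 12732) (O (O (N (L 12732) (L 12377)))))))))))))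

def ph449 : PT := (O (O (N (O (O (N (O (O (N (L 11174) (L 12394)))) (O (N (L 12394) (N (L 12394) (L 10408))))))) (O (O (N (L 12154) (L 12154)))))))

def ph450 : PT := (O (N (O (O (N (O (O (N (L 12811) (L 10757)))) (O (N (L 16007) (N (L 14626) (L 15584))))))) (O (O (O (N (L 16007) (L 16007)))))))

def ph451 : PT := (O (N (O (N (L 15248) (O (O (O (O (N (L 15829) (L 15196)))))))) (O (O (N (N (L 15152) (O (N (L 15152) (N (L 14808) (L 14808))))) (O (O (N (L 12226) (L 10152)))))))))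

def ph452 : PT := (N (N (O (O (N (O (O (N ph440 ph441))) (O (O (N (O (O (O (N (L 14413) (L 13693))))) ph442)))))) (O (N (O (O (N (O ph443) (O ph444)))) (O (O (O (N (N (O (O (N (L 16007) (L 16007)))) (L 15349)) ph445))))))) (O (O (N (O (N (N (O ph446) (O ph447)) (O (O ph448)))) (O (O (N (N ph449 ph450) (O ph451))))))))

def ph453 : PT := (O (N (N (O (O (N (O ph398) (O ph405)))) (O (N (O (O ph417)) (O (O ph426))))) (O (O (N (O (N ph435 ph439)) (O (O ph452)))))))

def ph454 : PT := (O (O (N (O (O (N (L 6687) (L 8104)))) (O (N (L 11837) (L 11343))))))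

def ph455 : PT := (N (O (N (L 12507) (O (O (N (L 12507) (L 12507)))))) (L 12507))

def ph456 : PT := (O (O (O (N (O (O (N (L 7257) (O (N (L 11694) (L 11694)))))) (L 11694)))))

def ph457 : PT := (O (O (N (N (O (O (N (L 12507) (L 12507)))) (L 11584)) (L 12507))))

def ph458 : PT := (N (O (O (N (L 7257) (O (N (L 12110) (L 11382)))))) (O (O (O (N (N (L 12507) (L 12507)) (L 12507))))))

def ph459 : PT := (N (O (N (N (L 5284) (L 8835)) (L 11342))) (O (O (N (N (O (O (N (L 11923) (L 11923)))) (L 9703)) (L 11923)))))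

def ph460 : PT := (O (N (O (O (N (O (O (N ph454 ph455))) (O (N (O ph456) (N (O (O (O (O (N (L 12507) (L 12507)))))) ph457)))))) (N (O (N (O (O (O (N (O (O (O (O (N (L 12507) (L 12507)))))) (L 12507))))) (O (O (N (O (N (N (L 10393) (L 3444)) (L 10849))) (O (O (N (N (L 4086) (O (N (L 8878) (L 8878)))) (L 10329))))))))) (O (O (N (O (O ph458)) (O (O ph459))))))))

def ph461 : PT := (N (O (O (N (L 2089) (N (L 4688) (O (O (N (N (L 4688) (L 4688)) (L 4688)))))))) (O (N (O (O (N (L 7257) (L 7257)))) (N (L 7257) (L 7257)))))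

def ph462 : PT := (N (N (O (O (N (L 7091) (N (L 10611) (L 10611))))) (O (O (O (O (N (L 9781) (O (N (L 9781) (L 9781))))))))) (L 10173))

def ph463 : PT := (O (N (N (O (O (N (O (O (N (L 9722) (L 9722)))) (L 9722)))) (L 9722)) (L 9722)))

def ph464 : PT := (N (O (O (N (L 16007) (O (N (O (O ph461)) (N (L 7257) (O (O (N (L 7257) (L 7257)))))))))) (N (O (O (O (O (N (O ph462) (L 8001)))))) (O (O (N (N (O (O (N (O (O (N (L 4025) (O (N (L 7369) (L 6875)))))) (L 7871)))) (O (N (O (O (N (O (O (N (L 11098) (L 10488)))) (L 9734)))) (O (O (O (N (N (L 10422) (L 10422)) (L 10422)))))))) (O (O (N ph463 (O (O (N (L 6260) (O (O (N (L 6443) (L 6443)))))))))))))))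

def ph465 : PT := (N (L 7762) (O (O (N (N (O (O (N (L 7762) (L 7762)))) (L 2007)) (L 6658)))))

def ph466 : PT := (O (N (L 12507) (N (O (N (O (O (O (N (L 12507) (L 12507))))) (L 12507))) (L 12507))))

def ph467 : PT := (N (O (N (L 12507) (L 12507))) (O (O (N (N (L 12507) (L 12109)) (L 12507)))))

def ph468 : PT := (O (O (N (O (O (N (O (O (N (O (O (N (L 7083) (L 7083)))) (L 14257)))) (O (N (O (O (N (L 9952) (O (N (L 9952) (L 9773)))))) ph465))))) (N (O (N (O (O ph466)) (O (O ph467)))) (O (O (N (L 7162) (O (O (N (O (N (L 11744) (L 11744))) (L 12138)))))))))))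

def ph469 : PT := (O (O (N (O (O (N (L 12507) (L 12266)))) (O (N (O (O (N (L 7257) (L 9295)))) (N (L 12507) (L 12507)))))))

def ph470 : PT := (O (N (O (O (N (O (O (N (O (O (N (L 8195) (L 5305)))) (L 8195)))) (N (L 8195) (L 8195))))) (O (N (O (O (N (L 8798) (L 8798)))) (L 8798)))))

def ph471 : PT := (N (N (O (O (N (L 10810) (L 10354)))) (L 2678)) (O (O (N (L 11654) (L 11654)))))

def ph472 : PT := (O (N (N (O (O (N (L 5129) (L 7488)))) (O (N (L 11654) (L 11120)))) (L 11654)))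

def ph473 : PT := (N (O (O (N (O (O (N (L 6064) (N (L 7071) (L 7071))))) (L 6613)))) (O (O (N (O (O (O (N (L 9299) (L 9299))))) (L 8828)))))

def ph474 : PT := (O (O (N (O (O (N (O (O (N (L 5663) (L 9832)))) (N (L 10903) (L 10903))))) (L 10903))))

def ph475 : PT := (O (O (N (N (O (O (N (L 8730) (L 8730)))) (L 8730)) (L 8293))))

def ph476 : PT := (O (N (O (N (N (O (O (N ph469 (O (O (O (N (L 11514) (L 11514)))))))) (O (O (O ph470)))) (O (O (N (O ph471) (O ph472)))))) (O (O (N (N (O (O ph473)) (O (N (L 5283) (O (O (O (N (L 9563) (L 9563)))))))) (O (O (N ph474 ph475))))))))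

def ph477 : PT := (N (O (O (N (O (O (N (L 5649) (L 5185)))) (L 5155)))) (N (L 12507) (O (O (N (L 12507) (L 12507))))))

def ph478 : PT := (O (O (N (O (O (N (L 11622) (N (L 10783) (L 10783))))) (O (N (L 5140) (L 7921))))))

def ph479 : PT := (N (L 12020) (O (O (N (L 11181) (O (O (N (L 11181) (L 11181))))))))

def ph480 : PT := (O (N (O (O (N (L 5136) (O (N (L 8416) (L 8416)))))) (O (O (O (N (N (L 10228) (L 10228)) (L 10228)))))))

def ph481 : PT := (O (O (N (O (O (N (O (O ph477)) (O (N ph478 ph479))))) (O (O (O (N (N (O (O (N (L 9643) (L 9643)))) ph480) (O (O (N (L 12507) (L 12507)))))))))))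

def ph482 : PT := (N (O (O (N (O (O (N (L 4926) (N (L 6372) (L 6372))))) (L 9895)))) (N (L 9426) (L 9426)))

def ph483 : PT := (O (N (N (O (O (N (O (O (N (L 7184) (L 8339)))) (N (L 8339) (L 8339))))) (L 9456)) (L 9018)))

def ph484 : PT := (O (N (O (O (N (O (O (N (L 8101) (L 1859)))) (O (N (L 9157) (L 9157)))))) (O (O (N (L 9157) (O (O (N (L 9157) (L 9157)))))))))

def ph485 : PT := (N (O (O (N (O (O (N (L 7479) (L 7479)))) (L 4754)))) (L 8318))

def ph486 : PT := (N (O (N (N (L 12321) (L 12321)) (L 12321))) (O (O (N (N (O (O (N (L 9838) (L 9838)))) (O (N (L 5422) (L 9838)))) (O (O (N (L 8734) (L 8734))))))))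

def ph487 : PT := (O (O (N (O (N (N (O (O ph482)) (O (O (O (O (N (L 6094) (L 10353))))))) (O (O (N ph483 (O (O (O (N (L 10407) (L 11536)))))))))) (O (O (N (N (O ph484) (O ph485)) (O (O ph486))))))))

def ph488 : PT := (O (O (N (O (O (N (O ph460) (O ph464)))) (N (O (N (O ph468) (O ph476))) (O (O (N ph481 ph487)))))))

def ph489 : PT := (N (O (N (O (O (O (N (L 6385) (N (L 6385) (L 6385)))))) (L 6385))) (O (O (N (L 0) (L 3794)))))

def ph490 : PT := (N (N (L 5384) (O (O (O (O (N (L 6778) (L 6778))))))) (O (O (N (L 7727) (L 7727)))))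

def ph491 : PT := (O (O (N (O (O (N (L 10045) (L 9435)))) (O (N (O (O (N (L 5378) (L 1677)))) (L 5776))))))

def ph492 : PT := (O (O (O (N (N (L 9887) (O (N (L 9887) (L 8719)))) (L 9369)))))

def ph493 : PT := (N (O (O (N (O (O (N (O (O (N (L 7468) (O (N (L 4455) (L 6352)))))) (L 7505)))) (L 14257)))) (N (O (N (O (O (O (N (O (O (N (L 8211) (L 8796)))) ph489)))) (O (O (N (O ph490) (O (O (N (N (L 7121) (O (N (L 6397) (L 6397)))) (L 6684))))))))) (O (O (N (O (O (N ph491 ph492))) (O (O (N (O (N (L 6502) (L 8322))) (O (O (N (L 2082) (O (O (N (L 6874) (L 6874)))))))))))))))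

def ph494 : PT := (O (N (O (O (N (O (O (N (L 7263) (L 2313)))) (L 7263)))) (O (O (N (L 7899) (O (O (N (N (L 7899) (L 7899)) (L 7899)))))))))

def ph495 : PT := (O (O (N (L 9253) (N (L 9253) (O (O (N (L 9253) (L 9253))))))))

def ph496 : PT := (O (O (N (L 8906) (O (O (N (N (L 8906) (L 8906)) (L 8906)))))))

def ph497 : PT := (N (N (O (O (N (L 3809) (L 4529)))) (O (N (L 9053) (O (O (O (N (N (L 9053) (L 9053)) (L 9053)))))))) (L 8922))

def ph498 : PT := (O (O (N (O (O (N (O (O (O (O (O (N (O (O (N (L 8152) (L 6550)))) (L 8152))))))) (N (O (N (O (O (O (N (L 8815) (L 8815))))) (L 7759))) (O ph494))))) (O (N (O (O (N ph495 (O (N (L 4196) (N (L 8295) (O (O (N (L 8295) (L 8295)))))))))) (N (O (O ph496)) (O (O ph497))))))))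

def ph499 : PT := (N (N (L 11413) (L 7365)) (O (O (N (L 11413) (O (O (N (N (L 11413) (L 11413)) (L 11413))))))))

def ph500 : PT := (O (O (N (O (O (N (O (O (N (L 8570) (L 8570)))) (L 7731)))) (O (N (O (O (N (L 6967) (O (N (L 3860) (L 6239)))))) (L 6967))))))

def ph501 : PT := (O (O (N (O (O (O (N (L 3492) (N (L 4784) (L 4784)))))) (O (O (N (O (N (N (L 9290) (L 9290)) (L 9290))) (L 9290)))))))

def ph502 : PT := (O (O (N (N (O (O (N (L 8254) (L 8254)))) (O (N (L 3769) (L 4933)))) (O (O (N (L 7735) (L 7735)))))))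

def ph503 : PT := (N (N (O (O (N (L 8909) (L 8453)))) (O (O (O (O (N (L 7916) (L 362))))))) (O (O (N (L 9510) (L 9510)))))

def ph504 : PT := (O (N (N (O (O (N (O (O (N (L 4311) (L 3591)))) (L 4311)))) (O (N (L 9510) (L 8976)))) (O (O (N (L 8797) (L 8797))))))

def ph505 : PT := (N (O (O (O (O (N (O (N (L 11413) (L 10609))) (O (O ph499))))))) (O (O (N (N (O (O (N ph500 ph501))) (O (N (O (O (O (O (O (N (L 11127) (N (L 11127) (L 11127)))))))) (O ph502)))) (O (O (N (O ph503) (O ph504))))))))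

def ph506 : PT := (O (N (O (O (N (L 9007) (L 11909)))) (O (N (O (O (N (L 11451) (L 11451)))) (L 11451)))))

def ph507 : PT := (N (L 12013) (O (N (L 11285) (N (L 16007) (O (O (N (N (L 11285) (L 11285)) (L 11285))))))))

def ph508 : PT := (N (L 12507) (O (O (O (O (O (N (N (L 12507) (L 12507)) (L 12507))))))))

def ph509 : PT := (O (O (N (O (O (N (L 10535) (L 10535)))) (O (N (L 10803) (N (L 5289) (L 10803)))))))

def ph510 : PT := (O (N (O (O (N (L 12422) (L 11583)))) (O (N (O (O (N (L 4527) (L 4527)))) (L 6311)))))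

def ph511 : PT := (O (N (O (O (N (L 12507) (L 11980)))) (O (O (O (O (N (L 11310) (L 11310))))))))

def ph512 : PT := (O (N (N (O (O (N (L 9573) (L 9573)))) (O (N (L 6448) (L 10158)))) (L 9054)))

def ph513 : PT := (N (O (N (N (O (O (N (O ph506) (N (O (O (O (O (O (N (L 12507) (N (L 12507) (L 12507)))))))) (O (O (N (O (O (N (L 7257) (L 10183)))) (L 9079)))))))) (O (O (O (O ph507))))) (O (O (N (O (N (N (O (O (N (L 8775) (L 10295)))) (L 11137)) (O (O (N (L 11529) (L 11529)))))) (O (O ph508))))))) (O (O (N (N (O (O (N ph509 (O (O (N (O (O (O (N (L 12486) (L 11773))))) (L 11586))))))) (O (N (O ph510) (O (O (O (N (N (L 12117) (L 10949)) (L 12499)))))))) (O (O (N (O ph511) (O ph512))))))))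

def ph514 : PT := (N (O (O (N (O (O (N (L 8939) (N (L 8939) (L 8939))))) (O (N (O (O (N (L 4914) (L 4914)))) (L 4914)))))) (N (L 8834) (O (O (N (L 8834) (L 8834))))))

def ph515 : PT := (O (N (L 4100) (N (L 9071) (O (O (N (O (O (N (L 9071) (L 9071)))) (L 9071)))))))

def ph516 : PT := (N (O (N (N (O (O (N (L 9664) (L 9664)))) (L 4100)) (O (O (N (L 9792) (L 9792)))))) (O (O (N (N (L 9201) (O (N (L 8145) (L 8145)))) (L 8145)))))

def ph517 : PT := (O (O (N (O (O (N (O (O ph514)) (O (N (O (O (N (L 11282) (O (N (L 3918) (L 11393)))))) (L 10114)))))) (O (O (N (O (O ph515)) (O (O ph516))))))))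

def ph518 : PT := (N (O (N (O (O (O (N (O (O (N (L 2526) (L 2032)))) (L 2526))))) (O (O (N (L 1983) (L 2526)))))) (L 6447))

def ph519 : PT := (O (N (L 5273) (O (N (L 5691) (N (L 5691) (O (O (N (N (L 5691) (L 5691)) (L 5691)))))))))

def ph520 : PT := (O (N (O (O (N (O (O (N (L 5008) (L 5008)))) (L 2439)))) (O (O (N (L 5008) (L 5008))))))

def ph521 : PT := (N (O (O (N (O (O (N (L 4751) (L 4751)))) (O (N (O (O (N (L 3088) (L 3088)))) (L 3088)))))) (O (O (O (N (N (L 5915) (L 5915)) (L 5915))))))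

def ph522 : PT := (O (N (O (O (N (O (O (N (O (O (N (L 6306) (L 7457)))) ph518))) (O (N (O ph519) (L 14257)))))) (O (O (O (N (N (O ph520) (O ph521)) (O (O (N (O (N (L 8478) (L 8478))) (O (O (N (L 6415) (L 8194)))))))))))))

def ph523 : PT := (N (O (N (L 10063) (L 10063))) (O (O (N (L 10963) (L 10963)))))

def ph524 : PT := (O (N (O (O (N (L 10589) (N (L 9979) (L 9979))))) (O (N (L 2767) (N (L 4997) (O (O (N (L 4997) (L 4997)))))))))

def ph525 : PT := (N (N (O (O (N (L 8870) (N (L 8870) (L 8870))))) (L 8200)) (L 9071))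

def ph526 : PT := (N (O (O (N (O (O (N (L 8174) (N (L 7335) (L 7335))))) (O (N (L 3686) (L 7454)))))) (L 8174))

def ph527 : PT := (O (N (N (O (O (N (L 9880) (L 9424)))) (O (O (O (O (N (L 9049) (O (N (L 9049) (N (L 8321) (L 2471)))))))))) (L 9880)))

def ph528 : PT := (O (O (N (N (O (O (N (L 2858) (L 2858)))) (O (N (L 9592) (L 9058)))) (L 8879))))

def ph529 : PT := (O (N (O (N (N (O (O (N (O (O (N (O (O (N (L 7338) (L 6874)))) (L 4087)))) ph523))) (O (O (O ph524)))) (O (O (N (O ph525) (O (O (O (N (L 9279) (O (N (L 4239) (L 7155)))))))))))) (O (O (N (N (O (O ph526)) (O (N (O (O (N (O (O (N (L 4068) (L 8552)))) (L 9432)))) (O (O (O (O (N (L 9129) (L 8401))))))))) (O (O (N ph527 ph528))))))))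

def ph530 : PT := (O (N (O (O (N (O (O ph493)) (O (N ph498 ph505))))) (N (O (O (O (O ph513)))) (O (O (N (N ph517 ph522) (O ph529)))))))

def ph531 : PT := (N (O (O (N (O (O (N (L 10629) (L 10629)))) (O (N (L 9944) (L 9944)))))) (N (O (N (O (O (O (N (L 7709) (N (L 8117) (L 8117)))))) (L 7709))) (O (O (N (L 8117) (O (O (N (O (N (L 2518) (L 3378))) (L 8117)))))))))

def ph532 : PT := (N (O (O (O (O (N (O (N (N (O (O (N (O (O (N (L 4046) (L 4444)))) (L 4723)))) (L 4723)) (L 4723))) (L 4723)))))) (O (O (N (N (L 6581) (L 6581)) (L 6581)))))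

def ph533 : PT := (N (O (N (N (O (O (N (L 6591) (L 6591)))) (L 6591)) (O (O (N (L 5862) (L 5862)))))) (O (O (N (N (O (O (N (L 5467) (L 5467)))) (O (N (L 5467) (L 5467)))) (L 349)))))

def ph534 : PT := (O (N (O (N (N (O (O (N (L 5609) (L 5609)))) (L 6311)) (O (O (N (L 349) (L 3473)))))) (L 5291)))

def ph535 : PT := (O (O (N (O (O (N (O (O ph531)) (O (N (O (O (O (O (N (L 10297) (L 10297)))))) ph532))))) (N (O (N (O (O (O (O (N (L 5254) (L 5254)))))) (O (O ph533)))) (O (O (N (O (O (N (L 5383) (L 5797)))) (O ph534))))))))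

def ph536 : PT := (N (O (N (O (O (O (N (L 9606) (N (L 8904) (L 8904)))))) (O (O (N (O (N (L 6170) (L 6727))) (L 6727)))))) (L 9189))

def ph537 : PT := (O (O (N (N (O (O (N (L 10771) (L 6120)))) (L 10771)) (O (O (N (L 9743) (L 9743)))))))

def ph538 : PT := (O (N (N (O (O (N (L 10753) (L 10051)))) (L 10288)) (O (O (N (L 5717) (L 10753))))))

def ph539 : PT := (O (N (O (O (N (L 12445) (L 12445)))) (O (O (N (O (O (O (N (L 12445) (L 12445))))) (L 11541))))))

def ph540 : PT := (N (O (O (N (O (O (N (L 6666) (L 6166)))) (L 6666)))) (L 5858))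

def ph541 : PT := (N (O (N (L 3667) (L 6587))) (O (O (N (L 10140) (L 10776)))))

def ph542 : PT := (O (N (O (O (N (O (O (O ph536))) (O (N (O (O (N (L 8932) (O (N (L 9432) (L 9432)))))) (N (L 9666) ph537)))))) (N (O (O (O (O (N ph538 (O (O (N (N (L 11633) (L 11633)) (L 10256))))))))) (O (O (N (N (O ph539) (O ph540)) (O (O ph541))))))))

def ph543 : PT := (O (N (L 8525) (N (L 7523) (O (O (N (O (O (N (L 7523) (L 7523)))) (L 7523)))))))

def ph544 : PT := (O (O (N (O (O (N (O (O (N (L 4824) (L 4824)))) (L 4824)))) (N (O (N (L 1458) (L 4824))) (L 4824)))))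

def ph545 : PT := (O (N (O (N (L 4243) (O (O (N (L 3541) (L 4243)))))) (O (O (N (N (O (O (N (L 4265) (L 4265)))) (L 4265)) (L 4265))))))

def ph546 : PT := (O (O (N (O (O (N (L 11198) (O (N (L 10147) (L 10147)))))) (L 11198))))

def ph547 : PT := (O (O (O (N (O (O (N (O ph543) (O (N (O (O (N (L 9134) (L 9634)))) (L 9099)))))) (N (O (N (O ph544) (O ph545))) (O (O (N ph546 (O (O (N (O (N (N (L 3732) (L 3732)) (L 3732))) (L 7845))))))))))))

def ph548 : PT := (O (O (N (N (O (O (N (L 6005) (L 6005)))) (O (N (L 7134) (L 7134)))) (L 7049))))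

def ph549 : PT := (O (N (L 5938) (O (O (N (O (O (O (N (L 6008) (L 6008))))) (L 5403))))))

def ph550 : PT := (N (O (O (N (O (O (N (L 5101) (N (L 5101) (L 5101))))) (L 5101)))) (O (O (O (N (L 5101) (O (O (N (L 2954) (L 5101)))))))))

def ph551 : PT := (N (O (O (N (O (O (N (L 10418) (N (L 9872) (L 10418))))) (L 10418)))) (O (O (N (N (L 10418) (L 10418)) (L 9041)))))

def ph552 : PT := (O (O (N (O (N (N (L 16007) (O (O (O (O (N (O (O (N (L 3719) (L 3719)))) (L 4137))))))) (O (O (N (O (N (N (L 3757) (L 5687)) (L 4958))) ph548))))) (O (O (N (N (O ph549) (O ph550)) (O (O ph551))))))))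

def ph553 : PT := (O (N (O (O (N (L 11604) (L 11604)))) (N (L 9866) (L 10534))))

def ph554 : PT := (N (O (O (N (O (O (N (L 7966) (N (L 7466) (L 7966))))) (O (N (L 7966) (L 7966)))))) (N (O (O (O (O (N (L 4257) (L 8729)))))) (O (O (N (O (O (O (N (L 8729) (L 8729))))) (O (O (N (L 8729) (L 8729)))))))))

def ph555 : PT := (N (O (O (N (O (O (N (L 7287) (L 7287)))) (L 5415)))) (O (N (L 7287) (L 7287))))

def ph556 : PT := (O (O (N (O (N (N (O (O (N (L 8156) (L 8156)))) (L 8156)) (L 4257))) (O (O (N (N (L 8156) (L 8156)) (L 8156)))))))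

def ph557 : PT := (O (N (O (O (N (O (O (N (L 10028) (L 10028)))) (L 10028)))) (N (O (N (O (O (O (N (L 8274) (L 7235))))) (L 7669))) (L 8774))))

def ph558 : PT := (O (O (O (N (O (O (N (L 10642) (N (L 10642) (L 10642))))) (O (N (L 10642) (L 10642)))))))

def ph559 : PT := (N (O (N (N (O (O (N (L 8351) (N (L 8351) (L 8351))))) (L 9053)) (L 4773))) (O (O (O (N (L 8071) (O (N (L 8071) (L 8071))))))))

def ph560 : PT := (O (N (O (N (N (L 5522) (L 5522)) (L 11035))) (O (O (N (N (L 10845) (O (N (L 10845) (L 10052)))) (L 10845))))))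

def ph561 : PT := (N (O (O (N (O (O (N (O ph553) (O ph554)))) (O (O (O (N ph555 ph556))))))) (O (O (N (O (N (N (O ph557) (O ph558)) (O (O ph559)))) (O (O (N (N (L 10547) (L 10431)) (O ph560))))))))

def ph562 : PT := (N (O (N (L 4631) (L 4207))) (O (O (N (O (O (N (L 7323) (L 7323)))) (L 7740)))))

def ph563 : PT := (O (N (N (O (O (N (L 9007) (L 9007)))) (L 9007)) (O (O (N (L 2224) (L 3743))))))

def ph564 : PT := (O (N (O (O (N (O (O (N (L 6514) ph562))) (O (O (N (L 9007) (O (O (N (L 9007) (O (O (N (L 9007) (L 9007))))))))))))) (N (O (N (O (O (O (N (L 9007) (L 8277))))) (O (O (N ph563 (L 9007)))))) (O (O (N (L 8876) (O (O (N (O (N (L 1677) (L 6747))) (O (O (N (L 8635) (L 8635)))))))))))))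

def ph565 : PT := (N (N (O (O (N (L 6978) (N (L 6978) (L 6978))))) (L 12507)) (L 6978))

def ph566 : PT := (O (O (O (N (N (L 6680) (O (N (L 6680) (L 6680)))) (L 6680)))))

def ph567 : PT := (O (O (N (N (L 4741) (L 4741)) (O (O (N (L 2540) (L 4741)))))))

def ph568 : PT := (N (O (O (N (O (O (N (L 7882) (N (L 7622) (L 6882))))) (O (N (O (O (N (L 9007) (L 9007)))) (N (O (O (O (O (N (L 8439) (L 8439)))))) (O (O (N (N (L 9007) (L 9007)) (L 2950)))))))))) (N (O (O (O (O (N (O ph565) (O (O (N (L 7402) (L 7402))))))))) (O (O (N (N (O (O (N (L 4084) (O (O (N (L 5310) (L 1470))))))) (O (O ph566))) (O (O (N (L 3965) ph567))))))))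

def ph569 : PT := (N (O (O (N (O (O (N ph535 ph542))) (N (O (N ph547 ph552)) (O (O ph561)))))) (O (N (O (O (N (O ph564) (O ph568)))) (L 16007))))

def ph570 : PT := (O (O (N (O (O (N (L 9895) (N (L 9895) (L 9895))))) (O (N (L 8740) (L 5188))))))

def ph571 : PT := (N (O (N (L 8304) (O (O (N (L 9487) (O (O (N (L 9487) (L 9487))))))))) (O (O (N (L 5711) (L 5432)))))

def ph572 : PT := (O (N (O (O (O (N (O (N (L 7107) (O (O (N (L 5996) (L 7107)))))) (L 7107))))) (O (N (O (O (N (L 11368) (L 11368)))) (N (L 11368) (L 11368))))))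

def ph573 : PT := (O (O (O (O (N (O (N (N (L 8254) (L 8254)) (O (O (N (L 7972) (L 8254)))))) (L 12701))))))

def ph574 : PT := (O (O (N (L 11878) (O (O (N (O (N (L 11667) (L 11224))) (L 11878)))))))

def ph575 : PT := (N (O (O (N (O (O (N (L 7124) (N (O (O (O (O (N (L 4481) (L 7124)))))) (L 7124))))) (O (N (L 8350) (L 8072)))))) (N (O (N (O (O (O (N (L 2262) (N (L 2262) (L 2262)))))) (L 2685))) (O (O (N (O (O (N (L 8212) (L 8212)))) (O (O (N (L 8212) (L 8212)))))))))

def ph576 : PT := (N (O (O (N (O (O (N (L 9466) (N (L 9466) (L 9466))))) (O (N (L 9466) (L 8361)))))) (O (O (O (N (N (O (O (N (L 6541) (L 6541)))) (L 6541)) (O (O (N (L 5424) (L 5703)))))))))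

def ph577 : PT := (N (O (N (N (O (O (N (L 10282) (N (L 9580) (L 9580))))) (L 10282)) (L 5376))) (O (O (N (L 9300) (L 9300)))))

def ph578 : PT := (O (N (O (O (N (O (O (N ph570 ph571))) (O (N (O ph572) (N ph573 ph574)))))) (N (O (N (O (O (O ph575))) (O (O (O (O (O (N (N (L 7525) (O (N (L 7525) (L 7525)))) (L 7525))))))))) (O (O (N (O (O ph576)) (O (O ph577))))))))

def ph579 : PT := (O (N (O (O (N (L 9059) (N (L 5950) (L 9059))))) (O (O (N (L 12047) (O (O (N (L 12047) (L 12047)))))))))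

def ph580 : PT := (O (N (O (O (O (N (L 10772) (L 10772))))) (O (O (N (O (N (L 11654) (L 5062))) (L 11654))))))

def ph581 : PT := (O (O (N (L 11018) (O (O (N (O (N (N (L 10427) (L 10427)) (L 10427))) (L 11804)))))))

def ph582 : PT := (O (N (N (L 6357) (L 8212)) (O (O (N (L 11290) (O (O (N (L 11290) (L 11290)))))))))

def ph583 : PT := (O (O (O (N (O (O (N (O ph579) (N ph580 ph581)))) (O (N (O (O (N (L 11506) (O (N (L 12329) (N (L 11700) (L 11700))))))) (N (L 7626) (O ph582))))))))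

def ph584 : PT := (O (N (O (O (O (N (O (O (N (L 8874) (L 8874)))) (N (L 3633) (L 8874)))))) (O (O (O (O (O (N (N (L 10698) (L 10698)) (L 10698)))))))))

def ph585 : PT := (N (O (O (N (O (O (N (L 9173) (L 9173)))) (N (L 6388) (L 8604))))) (L 8393))

def ph586 : PT := (N (N (O (O (N (L 10104) (L 5794)))) (L 12123)) (O (O (O (O (O (N (L 11562) (L 11562))))))))

def ph587 : PT := (O (O (N (O (O (N (L 8857) (L 5899)))) (O (N (L 10763) (L 10292))))))

def ph588 : PT := (O (O (N (O (O (O (N (L 10784) (N (L 10784) (L 10784)))))) (O (O (N (O (N (L 6733) (O (O (N (L 6454) (L 6733)))))) (L 6733)))))))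

def ph589 : PT := (O (N (L 11492) (O (N (L 12361) (N (L 12256) (O (O (N (L 12361) (L 12361)))))))))

def ph590 : PT := (O (N (N (L 13387) (O (N (L 13026) (L 13898)))) (O (O (N (O (N (L 11483) (O (O (N (L 10679) (L 11483)))))) (L 11483))))))

def ph591 : PT := (N (O (N (N (O (O (N (O (O (N (L 9827) (L 7993)))) (N ph584 (O (O (N (O (O (N (L 11602) (L 11602)))) (L 5574)))))))) (O (O (O (O ph585))))) (O (O (N (O (N (N (O (O (N (L 6634) (L 6634)))) (L 6913)) (L 6634))) (O (O ph586))))))) (O (O (N (N (O (O (N ph587 ph588))) (O (N (O ph589) (O (O (O (N (N (L 7882) (L 11904)) (L 10666)))))))) (O (O (O (O ph590))))))))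

def ph592 : PT := (N (O (O (N (O (O (N (L 5818) (N (O (N (L 5818) (L 3412))) (L 5818))))) (O (N (L 5983) (L 5983)))))) (N (L 7424) (L 9695)))

def ph593 : PT := (O (O (N (L 10942) (O (N (L 11136) (N (L 11136) (O (O (N (L 11136) (L 11136))))))))))

def ph594 : PT := (N (L 7429) (O (O (N (L 11788) (O (O (N (L 11578) (L 10550))))))))

def ph595 : PT := (O (N (O (O (N (L 11840) (O (N (L 11270) (L 11270)))))) (N (O (N (O (O (O (N (L 8011) (L 8011))))) (O (O (N (L 6906) (L 5389)))))) (L 8011))))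

def ph596 : PT := (N (O (N (N (O (O (N (L 9347) (L 9347)))) (L 9347)) (O (O (N (O (N (L 7057) (L 6546))) (L 7057)))))) (O (O (N (L 9067) (O (O (N (L 9067) (L 9067))))))))

def ph597 : PT := (O (O (N (O (O (N (O (O ph592)) (O (N ph593 ph594))))) (O (O (N (O (O ph595)) (O (O ph596))))))))

def ph598 : PT := (N (O (N (L 5893) (O (O (N (L 5288) (L 3389)))))) (O (O (N (L 9934) (O (O (N (L 10727) (L 10727))))))))

def ph599 : PT := (O (N (O (O (N (L 7666) (N (L 7666) (O (O (N (L 7666) (L 7666)))))))) (L 6243)))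

def ph600 : PT := (O (N (O (O (N (L 10098) (L 9820)))) (O (O (N (O (O (O (N (L 11790) (L 11790))))) (L 6233))))))

def ph601 : PT := (N (L 11160) (O (O (O (N (N (L 12230) (L 12230)) (L 11202))))))

def ph602 : PT := (N (O (N (N (O (O (N (L 6845) (N (O (N (L 6845) (L 5624))) (L 6845))))) (L 7657)) (L 9940))) (O (O (O (O (O (N (L 12069) (L 12069))))))))

def ph603 : PT := (O (N (O (O (N (O (O (N (O (O (N (L 10255) (L 10960)))) ph598))) (O (N (O ph599) (N (O (O (O (O (N (L 8096) (O (O (N (L 8096) (L 8096))))))))) (O (O (N (L 8637) (O (O (N (L 5139) (L 9148))))))))))))) (O (O (O (N (N (O ph600) (O ph601)) (O (O ph602))))))))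

def ph604 : PT := (O (O (N (O (O (N (L 5898) (N (L 3757) (L 4961))))) (L 9596))))

def ph605 : PT := (N (O (N (L 10175) (L 10175))) (O (O (N (L 9875) (O (O (N (L 9875) (L 9875))))))))

def ph606 : PT := (N (O (O (N (L 10948) (O (N (L 11869) (L 11795)))))) (O (O (N (O (O (O (N (L 5962) (L 5962))))) (L 3467)))))

def ph607 : PT := (O (O (N (O (O (N (L 8260) (N (L 8260) (L 8260))))) (O (N (L 9314) (L 6494))))))

def ph608 : PT := (O (O (O (N (N (L 11602) (O (N (L 11602) (L 11602)))) (L 11602)))))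

def ph609 : PT := (O (N (O (N (N (O (O (N ph604 ph605))) (L 10463)) (L 16007))) (O (O (N (N (O (O ph606)) (O (N ph607 ph608))) (O (O (N (O (N (L 10177) (L 8171))) (O (O (N (L 10582) (O (O (N (L 9205) (L 10582)))))))))))))))

def ph610 : PT := (O (O (N (O (N (N (O ph578) (O ph583)) (O (O ph591)))) (O (O (N (N ph597 ph603) (O ph609)))))))

def ph611 : PT := (O (N (O (O (N (L 6780) (L 6780)))) (N (O (N (L 5174) (O (O (N (L 5174) (L 3801)))))) (O (O (N (L 8622) (L 8157)))))))

def ph612 : PT := (N (O (O (O (O (N (L 8787) (L 8787)))))) (N (L 8787) (O (O (N (N (L 5406) (O (N (L 7347) (N (L 7347) (L 7347))))) (L 8787))))))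

def ph613 : PT := (O (N (O (N (N (O (O (N (L 9232) (N (L 9232) (L 9232))))) (L 9232)) (L 2732))) (O (O (N (N (L 8831) (L 8831)) (L 8831))))))

def ph614 : PT := (O (O (N (O (N (N (O (O (N (L 6791) (L 6791)))) (L 6791)) (L 6791))) (O (O (N (N (L 3897) (O (N (L 3897) (L 3897)))) (L 4326)))))))

def ph615 : PT := (O (N (O (N (L 12053) (L 12053))) (O (O (N (O (O (N (L 8944) (N (L 8944) (L 8944))))) (L 10093))))))

def ph616 : PT := (N (L 9060) (O (O (N (N (O (O (N (L 9060) (L 8545)))) (O (N (L 9060) (L 9060)))) (O (O (N (L 5939) (O (O (N (N (L 5857) (L 5939)) (L 5939)))))))))))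

def ph617 : PT := (N (O (N (N (O (O (N (L 11270) (L 11270)))) (L 11270)) (L 10637))) (O (O (N (N (L 5538) (O (N (L 11694) (L 11350)))) (L 11694)))))

def ph618 : PT := (O (N (O (N (N (O (O (N (L 6458) (N (L 7066) (L 7066))))) (L 6458)) (L 6458))) (O (O (N (N (L 7842) (O (N (L 7842) (N (L 7842) (L 7842))))) (O (O (N (L 5349) (O (O (N (L 5062) (L 5349))))))))))))

def ph619 : PT := (N (O (O (N (O (O (N (O ph611) (O ph612)))) (N (O (N (L 9093) (O ph613))) (O (O (N (L 6197) ph614))))))) (O (N (O (O (N (O (O ph615)) (O (N (O (O (N (L 6620) (O (N (L 7840) (L 5507)))))) ph616))))) (N (O (O (O (O ph617)))) (O (O (N (N (O (O (N (L 10950) (O (O (N (L 11310) (L 11310))))))) (O (N (L 8621) (L 7133)))) (O ph618))))))))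

def ph620 : PT := (O (N (L 6720) (N (L 6982) (O (O (N (N (L 6982) (L 6982)) (L 6982)))))))

def ph621 : PT := (O (O (N (O (N (L 9571) (O (O (N (L 9571) (L 9571)))))) (L 4022))))

def ph622 : PT := (N (O (O (N (O (O (N (L 8343) (O (N (L 8343) (L 8343)))))) (L 6618)))) (O (O (N (O (N (N (L 9481) (L 9481)) (L 9481))) (L 10089)))))

def ph623 : PT := (O (N (O (O (N (L 9768) (O (N (L 10452) (L 10452)))))) (O (O (O (N (L 10664) (L 10664)))))))

def ph624 : PT := (N (O (N (N (O (O (N (L 8932) (N (L 8932) (L 8932))))) (L 9513)) (L 3837))) (O (O (N (N (L 8177) (L 5099)) (L 8531)))))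

def ph625 : PT := (O (N (O (O (N (O (O (N (L 8299) (N (L 8299) (L 8299))))) (L 8299)))) (O (O (N (N (O (O (N (L 4382) (L 3588)))) (O (N (L 4038) (N (L 4038) (L 4038))))) (L 8880))))))

def ph626 : PT := (N (O (O (O (N (O (O (N (O (O (N (L 7495) (L 7940)))) ph620))) (N (O (N (O (O (O (N (L 9939) (L 9219))))) ph621)) (O (O ph622))))))) (O (O (N (O (N (N (O ph623) (O (O (O (O (N (O (O (N (L 7115) (L 7115)))) (L 6271))))))) (O (O ph624)))) (O (O (N (L 8807) (O ph625))))))))

def ph627 : PT := (N (O (O (N (O (O (N (L 14257) (L 13797)))) (O (N (O (O (N (L 13642) (L 13642)))) (L 13642)))))) (N (O (N (L 13209) (L 13207))) (O (O (N (O (O (N (L 9007) (N (L 9414) (L 9414))))) (L 9414))))))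

def ph628 : PT := (N (L 12727) (O (O (N (N (L 12212) (O (N (L 12727) (L 12727)))) (O (O (N (L 9684) (O (O (N (L 6946) (L 9684)))))))))))

def ph629 : PT := (O (N (O (O (N (L 9894) (O (N (L 10086) (L 8099)))))) (N (L 10140) (L 10140))))

def ph630 : PT := (N (O (N (N (O (O (N (L 9430) (L 9430)))) (L 9430)) (O (O (N (L 9667) (L 10055)))))) (O (O (N (N (L 8755) (O (N (L 2697) (L 6782)))) (L 8755)))))

def ph631 : PT := (O (N (O (O (N (L 10837) (L 9892)))) (O (O (O (N (L 4615) (L 11471)))))))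

def ph632 : PT := (O (N (O (N (N (L 11046) (L 11046)) (L 10031))) (O (O (N (L 11754) (O (O (N (L 9602) (L 5299)))))))))

def ph633 : PT := (O (O (N (O (O (N (O (O ph627)) (O (O ph628))))) (N (O (N (O (O ph629)) (O (O ph630)))) (O (O (N (O ph631) (O ph632))))))))

def ph634 : PT := (N (O (N (O (O (O (N (L 8199) (L 5561))))) (L 8199))) (O (O (N (O (O (N (L 12967) (L 12967)))) (O (O (N (L 6322) (O (O (N (L 5978) (L 6322)))))))))))

def ph635 : PT := (O (N (O (O (N (L 9429) (N (L 6443) (L 6443))))) (O (N (O (O (N (L 12477) (L 12477)))) (L 11519)))))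

def ph636 : PT := (O (O (O (O (N (L 14257) (O (O (N (N (L 9825) (L 7692)) (L 9825)))))))))

def ph637 : PT := (O (O (N (N (L 9790) (O (N (L 11123) (O (O (O (N (L 5620) (L 9407)))))))) (L 12586))))

def ph638 : PT := (O (N (N (O (O (N (L 9845) (L 7699)))) (L 9845)) (O (O (N (L 10597) (L 10597))))))

def ph639 : PT := (O (O (N (N (O (O (N (L 8954) (L 8439)))) (O (N (L 8954) (L 8954)))) (O (O (N (L 8954) (L 5312)))))))

def ph640 : PT := (N (O (N (N (O (O (N (L 9174) (L 8593)))) (L 9174)) (O (O (N (L 4936) (O (O (N (L 3937) (L 4936))))))))) (L 9382))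

def ph641 : PT := (O (N (O (O (N (O (O (N (O (O (O (O (O (N (L 14177) (L 14062))))))) ph634))) (O (N (O ph635) (N ph636 ph637)))))) (N (O (O (O (O (N ph638 ph639))))) (O (O (N (N (O (O (N (L 10327) (L 11011)))) (L 16007)) (O (O ph640))))))))

def ph642 : PT := (O (O (N (O (O (N (L 13089) (O (N (L 13089) (N (L 13089) (L 13089))))))) (L 13089))))

def ph643 : PT := (O (N (O (O (N (L 12359) (O (N (L 11414) (L 11414)))))) (N (L 12366) (O (O (N (N (L 10573) (L 9990)) (O (O (N (L 12993) (L 12993))))))))))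

def ph644 : PT := (O (O (O (N (O (O (N (L 14221) (O (N (L 14221) (L 14221)))))) (N (O (N (L 14221) (L 14221))) (L 7022))))))

def ph645 : PT := (O (O (N (O (N (N (L 11128) (L 11128)) (O (O (N (L 11128) (O (O (N (L 6157) (L 11128))))))))) (L 11128))))

def ph646 : PT := (O (N (O (O (N (L 10677) (L 10677)))) (N (L 10495) (O (O (N (L 6879) (L 11122)))))))

def ph647 : PT := (N (O (O (N (O (O (N (L 9063) (L 9063)))) (O (N (L 11050) (N (L 11050) (L 9582))))))) (L 11070))

def ph648 : PT := (O (O (N (L 8457) (O (O (N (N (L 9472) (L 9472)) (L 9472)))))))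

def ph649 : PT := (O (N (O (O (N (L 8628) (O (N (L 8628) (L 8628)))))) (N (L 6769) (O (O (N (L 10070) (O (O (N (L 9476) (L 9476))))))))))

def ph650 : PT := (O (O (O (N (O (O (N (L 10198) (L 10198)))) (O (N (L 10882) (L 10882)))))))

def ph651 : PT := (N (O (N (N (O (O (N (L 7795) (N (L 7795) (O (O (N (L 4559) (L 7795)))))))) (L 7795)) (O (O (N (L 11671) (L 11671)))))) (L 12650))

def ph652 : PT := (N (N (O (O (N (O (O (N ph642 ph643))) (O (O (N ph644 ph645)))))) (O (N (O (O (N (O ph646) (O ph647)))) (O (O (O (N (N (L 10125) (L 9007)) ph648))))))) (O (O (N (O (N (N (O ph649) (O ph650)) (O (O ph651)))) (O (O (N (N (O (O (N (O (O (N (L 8059) (L 8059)))) (L 8059)))) (O (O (O (O (N (O (O (N (L 8059) (L 8059)))) (L 8059))))))) (L 10546))))))))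

def ph653 : PT := (N (O (O (N (O (O (N (L 11589) (N (L 8607) (O (O (N (L 8607) (O (O (N (L 3868) (L 8607))))))))))) (O (N (L 11621) (N (L 11557) (L 11621))))))) (N (O (N (O (O (O (O (N (L 10741) (L 10741)))))) (O (O (N (L 11322) (O (O (N (L 11322) (L 6593))))))))) (O (O (N (L 11644) (O (O (N (L 11644) (L 11644)))))))))

def ph654 : PT := (N (O (O (O (O (N (L 12825) (L 12825)))))) (O (O (N (N (O (O (N (L 14176) (L 14176)))) (O (N (L 14176) (L 13593)))) (L 10605)))))

def ph655 : PT := (O (N (O (O (N (L 13518) (L 13073)))) (N (O (N (O (O (O (N (L 13518) (L 13518))))) (L 12891))) (O (O (N (O (O (N (L 13518) (L 13518)))) (O (O (N (L 8195) (L 8936))))))))))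

def ph656 : PT := (N (O (O (O (O (N (L 14257) (L 14257)))))) (O (O (N (N (O (O (N (L 13045) (L 13789)))) (O (N (L 10910) (L 8389)))) (L 14257)))))

def ph657 : PT := (O (N (L 14257) (O (O (O (N (N (L 14257) (L 14257)) (L 14257)))))))

def ph658 : PT := (O (N (O (N (N (O (O (N (L 10955) (N (L 10955) (L 10955))))) (L 10374)) (L 10955))) (O (O (N (N (L 10278) (L 9934)) (O (O (N (O (N (N (L 9007) (L 9494)) (L 9494))) (L 9494)))))))))

def ph659 : PT := (O (O (N (O (O (N (O (O ph653)) (O (N (O (O (N (L 12220) (L 12199)))) ph654))))) (N (O (N (O (O ph655)) (O (O ph656)))) (O (O (N (O ph657) (O ph658))))))))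

def ph660 : PT := (O (O (N (O (O (N (L 14257) (N (O (N (L 14257) (L 14257))) (L 14257))))) (L 14257))))

def ph661 : PT := (N (O (N (O (O (O (N (L 14257) (L 14257))))) (O (O (N (L 14257) (L 14257)))))) (O (O (N (O (O (N (L 13535) (L 13535)))) (L 11591)))))

def ph662 : PT := (O (N (O (O (N (L 10668) (N (L 9901) (L 9901))))) (O (N (O (O (N (L 11770) (L 11770)))) (N (L 11770) (L 11770))))))

def ph663 : PT := (O (O (O (O (N (O (N (N (L 13302) (L 13302)) (L 13302))) (L 13302))))))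

def ph664 : PT := (O (O (N (N (O (O (N (L 11970) (L 11970)))) (L 11970)) (L 7020))))

def ph665 : PT := (O (O (O (O (N (O (O (N ph660 ph661))) (O (N (O ph662) (N ph663 ph664))))))))

def ph666 : PT := (O (O (N (O (O (N (L 7103) (N (L 7103) (L 3757))))) (O (N (L 12491) (N (L 12049) (L 12491)))))))

def ph667 : PT := (N (O (N (O (O (O (N (L 12140) (N (L 11701) (L 12126)))))) (O (O (O (O (O (N (L 12140) (O (O (N (L 10176) (L 12140)))))))))))) (O (O (N (O (O (N (L 9794) (L 3757)))) (L 9450)))))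

def ph668 : PT := (O (N (L 11608) (O (N (O (O (N (L 11608) (L 11608)))) (L 11608)))))

def ph669 : PT := (N (N (O (O (N (L 9757) (N (L 9757) (O (O (N (L 7679) (L 3757)))))))) (L 8825)) (L 8742))

def ph670 : PT := (O (O (O (N (N (O (O (N (L 7783) (L 7783)))) (O (N (L 6898) (L 6898)))) (L 8622)))))

def ph671 : PT := (O (N (O (N (N (O (O (N ph666 ph667))) (O (O (O ph668)))) (O (O (N (O ph669) (O (O (N (N (O (O (N (L 8562) (L 8562)))) (L 8528)) (L 7615))))))))) (O (O (O (N (O (O (N (L 10434) (L 10022)))) (O (N (O (O (N (L 4939) (O (N (L 5706) (L 3279)))))) ph670))))))))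

def ph672 : PT := (O (N (O (O (N (L 11577) (O (N (L 11132) (L 11132)))))) (N (O (N (O (O (O (N (L 11577) (L 11577))))) (L 10950))) (O (O (N (O (O (N (L 9438) (L 9438)))) (L 6457)))))))

def ph673 : PT := (N (O (O (N (O (O (O (N (L 11547) (L 10327))))) (O (N (L 9648) (L 8554)))))) (N (O (O (O (O (N (L 13975) (L 13975)))))) (O (O (N (N (L 11329) (L 11329)) (O (O (N (L 11329) (L 7340)))))))))

def ph674 : PT := (O (O (N (L 12663) (N (O (N (L 11943) (O (O (N (L 11943) (L 11943)))))) (L 11943)))))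

def ph675 : PT := (N (O (O (N (O (O (N (L 12217) (N (L 12042) (L 12042))))) (O (O (N (L 9967) (L 7480))))))) (N (O (N (L 12957) (L 12957))) (O (O (N (L 7470) (O (O (N (L 7470) (L 7164)))))))))

def ph676 : PT := (O (O (N (O (O (N (L 10252) (N (L 10252) (O (O (N (L 10252) (L 8532)))))))) (O (N (L 14257) (N (L 12235) (L 13193)))))))

def ph677 : PT := (N (O (O (O (O (N (L 12573) (O (O (N (L 11020) (L 4871))))))))) (O (O (N (L 11829) (L 11601)))))

def ph678 : PT := (O (O (N (O (O (N (O (O (N (L 14257) (L 14257)))) (L 14257)))) (O (O (N (L 14257) (L 14257)))))))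

def ph679 : PT := (O (O (O (N (N (O (O (N (L 9007) (N (L 9007) (L 9007))))) (L 9007)) (L 9007)))))

def ph680 : PT := (N (O (O (N (O (O (N (O ph672) (O ph673)))) (O (O (N (O ph674) (O (O (N (L 10905) (O (O (N (L 8204) (L 7042))))))))))))) (O (N (O (O (N (O (O ph675)) (O (N ph676 ph677))))) (O (O (O (N (N ph678 (L 13599)) (O ph679))))))))

def ph681 : PT := (N (O (O (N (O (O (N (L 14257) (L 14257)))) (L 14257)))) (N (O (N (L 14257) (L 14257))) (O (O (N (L 14257) (O (O (N (L 14257) (L 8219)))))))))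

def ph682 : PT := (O (O (N (O (O (N (L 14257) (L 14257)))) (O (N (L 14257) (N (L 14257) (O (O (N (L 11287) (O (O (N (L 11029) (L 8136)))))))))))))

def ph683 : PT := (O (N (N (O (O (N (L 14257) (L 14257)))) (L 14257)) (O (O (N (O (N (N (L 14257) (L 14257)) (L 14257))) (O (O (N (L 10982) (L 10627)))))))))

def ph684 : PT := (O (N (O (O (N (O (O (N (L 9424) (N (L 10644) (L 10644))))) (O (N (L 10644) (L 8658)))))) (O (O (N (O (O (O (N (L 10404) (L 10404))))) (L 10404))))))

def ph685 : PT := (N (O (O (N (L 9007) (O (N (L 14257) (L 12876)))))) (O (O (O (N (N (L 14257) (O (N (L 14257) (N (L 14257) (L 14257))))) (L 14257))))))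

def ph686 : PT := (N (O (N (N (O (O (N (L 13498) (L 13498)))) (L 13498)) (L 13446))) (O (O (N (N (L 13402) (O (N (L 13402) (L 13058)))) (L 8402)))))

def ph687 : PT := (O (O (N (O (N (N (O (O ph681)) (O (O ph682))) (O (O (O ph683))))) (O (O (N (N (O ph684) (O ph685)) (O (O ph686))))))))

def ph688 : PT := (N (N (O (O (N (O (O ph619)) (O (O ph626))))) (O (N (O (O (N ph633 ph641))) (O (O (O ph652)))))) (O (O (N (O (N (N ph659 ph665) (O ph671))) (O (O (N ph680 ph687)))))))

def ph689 : PT := (N (O (O (N (O (O (N (L 7082) (L 10351)))) (N (L 12666) (L 13235))))) (O (N (O (O (O (O (N (L 14257) (N (L 14257) (L 14257))))))) (N (L 14257) (L 14257)))))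

def ph690 : PT := (N (O (O (O (N (L 11922) (L 12694))))) (O (O (N (O (N (L 10444) (L 10444))) (O (O (N (L 9007) (L 10637))))))))

def ph691 : PT := (O (N (O (O (N (L 14257) (L 14257)))) (O (O (N (O (N (L 7959) (L 10904))) (O (O (N (L 14257) (L 14257)))))))))

def ph692 : PT := (O (N (O (O (N (O (O (N (L 9089) (N (L 11688) (L 11688))))) (O (N (L 14257) (L 14257)))))) (N (L 14257) (O (O (N (N (L 14257) (O (N (L 14257) (L 14257)))) (O (O (N (L 14257) (L 14257))))))))))

def ph693 : PT := (O (O (N (O (N (N (O (O (N (O (O (N (L 9193) (L 11970)))) (L 12249)))) (L 12249)) (L 12249))) (O (O (N (N (L 10076) (L 10076)) (L 10076)))))))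

def ph694 : PT := (N (N (O (O (N (L 9007) (L 9509)))) (O (N (O (O (N (L 13318) (L 13318)))) (L 13318)))) (O (O (N (L 13404) (L 13260)))))

def ph695 : PT := (O (O (N (O (O (N (O (O ph689)) (N (O ph690) (O ph691))))) (O (N (O (O (O ph692))) (N (O (O ph693)) (O (O ph694))))))))

def ph696 : PT := (O (O (O (N (O (O (N (L 9007) (O (N (L 9007) (L 9007)))))) (N (L 9007) (L 9007))))))

def ph697 : PT := (N (O (O (N (O (O (N (L 14257) (O (N (L 14257) (L 14257)))))) (L 14257)))) (O (O (O (O (N (L 7252) (O (N (L 8575) (N (L 8575) (L 8575))))))))))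

def ph698 : PT := (O (O (N (O (N (N (O (O (N (L 10671) (L 10671)))) (L 9678)) (L 11515))) (O (O (N (N (L 7349) (O (N (L 11515) (L 11515)))) (L 11515)))))))

def ph699 : PT := (N (N (O (O (N (L 6128) (L 8356)))) (O (N (O (O (N (L 13148) (L 13148)))) (L 13148)))) (O (O (N (O (O (N (O (O (N (L 8889) (L 9960)))) (L 9960)))) (L 7787)))))

def ph700 : PT := (O (N (O (O (N (L 4163) (L 11801)))) (O (N (O (O (N (L 12507) (O (N (L 12140) (L 12140)))))) (N (L 11801) (L 11801))))))

def ph701 : PT := (N (N (O (O (N (O (O (N (L 5562) (L 9543)))) (L 9543)))) (O (O (O (O (N (L 13094) (L 13094))))))) (O (O (N (O (N (N (O (O (N (L 7529) (L 8646)))) (L 8646)) (L 8646))) (O (O (O (N (L 9597) (L 10726)))))))))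

def ph702 : PT := (O (N (N (O (O (N (O (O (N (L 8385) (L 8385)))) (L 8385)))) (O (N (O (O (N (L 12543) (L 11754)))) (L 12543)))) (O (O (N (L 12269) (L 12972))))))

def ph703 : PT := (N (O (N (O (O (O (N (O ph696) (N (O (N (L 14257) (L 13736))) (L 14162)))))) (O (O (N (O (N ph697 ph698)) (O (O ph699))))))) (O (O (N (O (O (N (O ph700) (O (O (O (N (N (L 12136) (L 12136)) (L 12507)))))))) (O (O (N (O ph701) (O ph702))))))))

def ph704 : PT := (O (O (O (N (O (O (N (L 9094) (O (N (L 9094) (L 9094)))))) (N (O (N (L 7000) (L 7000))) (L 7000))))))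

def ph705 : PT := (O (O (N (O (N (N (L 4485) (L 5658)) (O (O (N (L 6215) (L 6215)))))) (O (O (N (N (L 5171) (L 5171)) (L 5171)))))))

def ph706 : PT := (N (O (O (N (O (O (N (L 8677) (O (N (L 8677) (L 8677)))))) (L 8677)))) (L 8677))

def ph707 : PT := (O (N (L 6922) (N (L 9210) (O (O (N (O (O (N (L 9313) (L 9313)))) (L 9313)))))))

def ph708 : PT := (N (O (O (N (O (O (N (L 10427) (L 10427)))) (O (N (L 11196) (L 10427)))))) (N (L 8134) (O (O (N (N (L 3757) (O (N (L 8863) (N (L 8863) (L 8863))))) (L 8863))))))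

def ph709 : PT := (N (O (O (N (O (O (N (L 11632) (L 10860)))) (O (O (N (L 3554) (L 8738))))))) (O (N (L 9897) (O (O (O (N (N (L 10769) (L 10769)) (L 10769))))))))

def ph710 : PT := (O (O (N (O (N (N (O (O (N (L 8355) (L 8355)))) (L 7362)) (L 8956))) (O (O (N (N (L 3757) (O (N (L 8956) (L 8956)))) (L 8956)))))))

def ph711 : PT := (O (N (O (O (O (N (O (N ph704 ph705)) (O (O ph706)))))) (O (N (O (O (N (O ph707) (O ph708)))) (N (O (O (O (O (N (L 10726) (L 10726)))))) (O (O (N ph709 ph710))))))))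

def ph712 : PT := (O (O (N (L 10613) (N (L 14257) (O (O (N (L 14257) (L 14257))))))))

def ph713 : PT := (O (N (O (N (N (O (O (N (L 8999) (N (L 10671) (L 10671))))) (L 10671)) (L 10671))) (O (O (N (N (L 14257) (O (N (L 14257) (N (L 14257) (L 14257))))) (L 13872))))))

def ph714 : PT := (N (O (O (N (O (O (N (L 9703) (L 9703)))) (L 11582)))) (O (N (L 13079) (L 13079))))

def ph715 : PT := (O (O (N (L 13079) (O (O (N (N (L 12218) (O (N (L 12218) (L 12218)))) (L 12218)))))))

def ph716 : PT := (O (O (O (O (N (O (N (N ph712 (O (O (O (O (N (L 14257) (O (N (L 14257) (L 14257))))))))) (O ph713))) (O (O (N ph714 ph715))))))))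

def ph717 : PT := (O (N (O (O (N (O (O (N (L 8557) (L 8557)))) (L 7988)))) (O (N (O (O (N (L 11901) (O (N (L 11901) (L 11901)))))) (L 11407)))))

def ph718 : PT := (N (O (O (N (O (O (N (L 11378) (O (N (L 11919) (L 11919)))))) (N (L 6988) (O (O (N (L 12191) (L 11585)))))))) (O (O (O (O (N (L 12273) (O (N (L 12691) (N (L 12691) (L 12691))))))))))

def ph719 : PT := (O (N (N (O (O (N (O (O (N (L 12237) (L 6922)))) (L 12237)))) (O (N (L 11823) (L 12612)))) (L 11909)))

def ph720 : PT := (N (O (O (N (O (O (N (L 6492) (L 6492)))) (N (O (N (L 11362) (L 11362))) (L 11362))))) (L 10573))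

def ph721 : PT := (N (N (O (O (N (L 10792) (L 10792)))) (O (N (O (O (N (O (O (N (L 7706) (L 10792)))) (L 10792)))) (L 9874)))) (O (O (N (L 9471) (O (O (N (N (L 2943) (L 9183)) (L 9183))))))))

def ph722 : PT := (O (O (N (N (O (O (N (O ph717) (O (O (N (L 12028) (L 11100))))))) (O (N (O (O ph718)) (O (O ph719))))) (O (O (N (O (N ph720 (O (O (N (L 11677) (O (O (O (N (L 12122) (L 12122)))))))))) (O (O ph721))))))))

def ph723 : PT := (O (N (O (O (N (L 10501) (L 10501)))) (O (N (O (O (O (O (N (L 11273) (L 11273)))))) (L 11046)))))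

def ph724 : PT := (N (O (O (O (N (L 13269) (L 13269))))) (O (N (L 9655) (N (L 10424) (O (O (N (N (O (O (N (L 10424) (O (O (N (L 6273) (L 10424))))))) (L 10424)) (L 10424))))))))

def ph725 : PT := (O (O (O (N (O (N (N (L 12643) (L 12643)) (L 12643))) (L 11782)))))

def ph726 : PT := (O (N (N (O (O (N (L 12643) (L 12643)))) (O (N (L 6319) (L 6888)))) (L 10667)))

def ph727 : PT := (N (O (N (O (O (O (N (L 9007) (L 9007))))) (O (O (N (L 12242) (L 12711)))))) (L 11397))

def ph728 : PT := (N (O (O (O (O (O (N (L 10719) (L 11137))))))) (O (O (N (O (N (N (O (O (N (L 11428) (L 9639)))) (L 11428)) (L 11428))) (O (O (N (N (L 9957) (L 11086)) (L 11001))))))))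

def ph729 : PT := (O (N (N (O (O (N (L 12152) (L 7301)))) (O (N (L 11363) (L 12152)))) (L 11449)))

def ph730 : PT := (O (O (O (N (N (L 6940) (O (N (L 11257) (L 11257)))) (L 11257)))))

def ph731 : PT := (O (N (N (O (O (N (L 13011) (N (L 9804) (L 13011))))) (O (O (O (O (N (L 13011) (L 12222))))))) (O (O (N (L 12542) (L 12542))))))

def ph732 : PT := (N (O (O (N (O (O (N (O ph723) (N (O (O (O (O (N (L 7349) (L 7349)))))) (O (O (N (L 7349) (O (O (N (L 7349) (L 7349))))))))))) (O (N (O (O ph724)) (N (O ph725) (O ph726))))))) (N (O (N (O (O (O (N (O (O (N (L 10626) (L 9857)))) ph727)))) (O (O (N (O ph728) (O ph729)))))) (O (O (N (O (O (N (O (O (N (L 11257) (O (N (L 8189) (L 11257)))))) ph730))) (O (O (N ph731 (O (O (N (N (L 14257) (L 14257)) (L 14257))))))))))))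

def ph733 : PT := (N (O (O (N (O (O (N (L 10946) (O (N (L 10946) (L 10946)))))) (N (L 9277) (L 11112))))) (O (N (O (O (N (O (O (N (L 6455) (N (O (N (L 5886) (L 3452))) (L 6455))))) (O (N (L 8493) (N (L 8493) (L 8493))))))) (N (O (O (O (O (N (L 11705) (L 11705)))))) (L 10787)))))

def ph734 : PT := (O (O (N (O (O (N (O (O (N (L 9011) (N (L 5552) (L 6121))))) (L 9011)))) (N (O (N (L 9011) (O (O (N (L 9011) (L 9011)))))) (O (O (N (L 8225) (L 9011))))))))

def ph735 : PT := (O (N (O (O (N (L 9438) (O (N (L 9614) (L 9438)))))) (N (L 8989) (O (O (N (N (L 5298) (L 9614)) (L 9614)))))))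

def ph736 : PT := (O (O (N (O (O (N (L 11586) (L 10814)))) (N (O (N (L 6854) (L 12811))) (O (O (N (L 11585) (L 11585))))))))

def ph737 : PT := (O (N (O (N (N (O (O (N (L 8816) (N (L 8816) (L 8816))))) (L 8816)) (L 9809))) (O (O (N (N (O (O (N (L 8189) (L 8154)))) (O (N (L 10653) (N (L 10653) (L 10653))))) (L 10653))))))

def ph738 : PT := (N (O (O (N (O (O (N (O (O (N (L 7649) (L 6125)))) (L 7649)))) (O (O (N (L 10008) (L 10008))))))) (O (N (O (O (N (L 10421) (L 10421)))) (O (O (O (N (N (L 7620) (L 9987)) (L 9987))))))))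

def ph739 : PT := (O (N (N (O (O (N (O (O ph733)) (N (L 16007) (O (O (N (L 9851) (L 9851)))))))) (O (O (O (O (N ph734 ph735)))))) (O (O (N (O (N (N ph736 (O (O (O (O (N (O (O (N (L 6059) (L 5490)))) (L 6059))))))) (O ph737))) (O (O (N ph738 (O (O (O (O (O (N (N (L 14174) (L 14174)) (L 14174)))))))))))))))

def ph740 : PT := (O (N (O (O (N (L 4242) (N (L 11291) (L 11291))))) (O (N (O (O (N (L 10169) (L 10169)))) (N (L 10169) (L 10169))))))

def ph741 : PT := (O (N (O (O (O (N (L 9628) (N (O (N (L 9628) (L 5799))) (L 9628)))))) (O (O (N (O (N (L 12372) (L 12372))) (L 12223))))))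

def ph742 : PT := (O (N (L 10869) (O (O (N (O (N (L 6998) (L 10392))) (L 11410))))))

def ph743 : PT := (N (O (O (N (O (O (N (O (O (N (L 8415) (N (L 7478) (L 8415))))) (L 12584)))) (N (O (N (L 13655) (L 13655))) (O (O (N (L 12869) (L 12869)))))))) (L 13655))

def ph744 : PT := (N (N (O (O (N (O (O (N (L 11238) (L 11238)))) (L 5230)))) (O (N (O (O (N (L 10850) (O (N (L 10850) (L 10850)))))) (L 10850)))) (O (O (N (O (N (N (L 11545) (L 11545)) (L 11545))) (L 10684)))))

def ph745 : PT := (O (O (N (N (O (O (N (O ph740) (O ph741)))) (O (N (O (O (N (O (O (N (L 9539) (N (L 3545) (L 9539))))) (L 9539)))) (O (O ph742))))) (O (O (N (O (O ph743)) (O (O ph744))))))))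

def ph746 : PT := (O (N (O (O (N (O (O (N (L 7351) (L 7351)))) (N (L 6318) (O (O (N (L 6354) (L 6887)))))))) (O (O (N (L 6857) (L 6857))))))

def ph747 : PT := (N (O (O (N (L 10108) (N (L 7283) (O (O (N (L 9608) (L 9002)))))))) (O (N (O (O (N (L 2716) (L 6842)))) (N (L 9623) (O (O (N (N (L 8705) (L 8705)) (L 9623))))))))

def ph748 : PT := (O (O (O (N (O (N (N (L 6379) (L 7168)) (L 7168))) (O (O (N (N (L 6039) (L 6039)) (L 6039))))))))

def ph749 : PT := (O (N (L 11640) (O (O (N (O (N (L 10937) (L 10937))) (L 11640))))))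

def ph750 : PT := (N (O (O (N (O (O (N (L 9509) (L 9509)))) (O (N (L 9509) (L 9509)))))) (O (O (N (L 6143) (L 8409)))))

def ph751 : PT := (O (O (N (L 2037) (O (N (O (O (N (L 9914) (L 9914)))) (L 10118))))))

def ph752 : PT := (O (O (O (N (N (L 9910) (O (N (L 9910) (L 9910)))) (L 10281)))))

def ph753 : PT := (O (N (N (O (O (N (L 10157) (L 10157)))) (L 9739)) (L 6122)))

def ph754 : PT := (N (O (O (N (O (O (N (O ph746) (N (O (N (L 11784) (L 11784))) (O (O (N (O (O (N (L 12777) (L 12777)))) (L 12777)))))))) (O (N (O (O ph747)) (N (O ph748) (O ph749))))))) (O (O (O (N (N (O (O ph750)) (O (N ph751 ph752))) (O (O (N ph753 (O (O (N (N (L 11150) (L 11150)) (L 10447))))))))))))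

def ph755 : PT := (O (N (O (O (N (O (O (N (L 4778) (L 5704)))) (N (L 7150) (L 7150))))) (O (N (O (O (N (L 9973) (L 9973)))) (L 9973)))))

def ph756 : PT := (N (O (O (N (O (O (N (L 7796) (L 7796)))) (N (L 7227) (L 5392))))) (O (N (L 12055) (L 12055))))

def ph757 : PT := (N (O (O (N (O (O (N (L 3101) (O (N (L 9666) (L 9666)))))) (N (O (N (L 9666) (L 9666))) (L 8880))))) (L 10639))

def ph758 : PT := (O (O (N (L 5518) (O (O (N (N (L 6641) (O (N (L 6641) (L 6641)))) (L 6641)))))))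

def ph759 : PT := (O (N (L 10240) (O (N (O (O (N (L 10279) (O (N (L 10279) (L 10279)))))) (L 10362)))))

def ph760 : PT := (O (N (O (O (N (O (O (N (L 8320) (L 8320)))) (L 8320)))) (O (N (O (O (N (L 4734) (L 5595)))) (N (L 4677) (L 4677))))))

def ph761 : PT := (N (N (O (O (N (L 9222) (N (L 9222) (L 8821))))) (O (O (O (O (N (L 9222) (O (N (L 8433) (L 8433))))))))) (O (O (O (O (N (N (L 13162) (L 13162)) (L 13162)))))))

def ph762 : PT := (O (N (N (O (O (N (L 10679) (L 10679)))) (O (N (O (O (N (L 5402) (L 6263)))) (L 10679)))) (O (O (N (L 8071) (L 8571))))))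

def ph763 : PT := (N (O (N (N (O (O (N (O ph755) (N (O (N (L 5926) (O (O (N (L 10197) (L 9343)))))) (L 9332))))) (O (O (O (O ph756))))) (O (O (N (O (N ph757 ph758)) (O (O ph759))))))) (O (O (N (N (O (O (N (O (O (N (O (O (N (L 2700) (L 2700)))) (L 9998)))) (O (O (N (L 9623) (L 8695))))))) (O (N (O ph760) (L 9159)))) (O (O (N (O ph761) (O ph762))))))))

def ph764 : PT := (N (O (O (N (O (O (N ph695 ph703))) (O (N (O ph711) (N ph716 ph722)))))) (N (O (N (O (O (O ph732))) (O (O (N ph739 ph745))))) (O (O (N (O (O ph754)) (O (O ph763)))))))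

def ph765 : PT := (O (N (O (O (O (O (N (L 9419) (L 9419)))))) (N (L 10924) (O (O (N (N (L 10477) (O (N (L 10477) (L 10477)))) (L 11316)))))))

def ph766 : PT := (O (O (N (O (N (N (L 11602) (L 7998)) (L 11602))) (O (O (N (N (L 9336) (L 10512)) (O (O (N (L 10435) (L 10435))))))))))

def ph767 : PT := (N (O (O (N (O (O (N (L 6498) (O (N (L 9835) (L 9835)))))) (L 10450)))) (O (O (N (O (N (N (L 10534) (L 10534)) (L 10534))) (O (O (N (N (L 10752) (L 9700)) (L 10752))))))))

def ph768 : PT := (N (O (O (N (O (O (N (L 9275) (L 9275)))) (L 9275)))) (O (N (O (O (N (O (O (N (L 9790) (L 9790)))) (L 9790)))) (L 9288))))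

def ph769 : PT := (O (O (N (O (N (N (O (O (N (L 6608) (L 6608)))) (L 6608)) (L 6608))) (O (O (N (N (L 4433) (L 3757)) (O (O (N (L 4433) (L 4433))))))))))

def ph770 : PT := (O (N (O (O (N (O (O (N (L 11937) ph765))) (N (O (N (O (O (O (N (L 10823) (L 10823))))) ph766)) (O (O ph767)))))) (O (N (L 16007) (N (L 9422) (O (O (N ph768 ph769))))))))

def ph771 : PT := (N (O (O (O (O (O (N (L 12333) (L 12333))))))) (O (N (O (O (N (L 11549) (O (N (L 11549) (N (L 11549) (L 11549))))))) (N (L 9359) (O (O (N (N (L 9359) (L 5296)) (L 9359))))))))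

def ph772 : PT := (N (O (O (O (N (L 10571) (L 10571))))) (O (O (N (O (N (L 11063) (L 11063))) (L 11063)))))

def ph773 : PT := (O (O (N (O (O (N (L 9991) (O (N (L 6181) (L 9991)))))) (L 9568))))

def ph774 : PT := (O (O (O (O (N (O (O (N (L 10555) (L 10555)))) (L 10555))))))

def ph775 : PT := (O (N (O (N (N (L 9401) (L 8317)) (O (O (N (L 11135) (L 11135)))))) (L 10379)))

def ph776 : PT := (N (O (O (N (O (O (N (L 12122) (L 12122)))) (L 11255)))) (O (N (L 2897) (L 6449))))

def ph777 : PT := (O (N (O (O (O (N (O (O ph771)) (N (O ph772) (O (O (N (L 5450) (O (O (N (L 8630) (L 9024)))))))))))) (O (O (N (O (N (N ph773 ph774) (O ph775))) (O (O (N ph776 (L 10913)))))))))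

def ph778 : PT := (N (O (O (N (O (O (N (L 13045) (L 11913)))) (L 12257)))) (O (N (O (O (N (O (O (N (L 9676) (L 9676)))) (O (N (L 5552) (L 5975)))))) (N (O (O (O (O (N (L 10074) (L 10074)))))) (L 9235)))))

def ph779 : PT := (O (N (N (L 8282) (O (N (O (O (N (L 6387) (L 7198)))) (L 8282)))) (L 12895)))

def ph780 : PT := (N (N (O (O (N (L 7109) (L 7109)))) (L 6270)) (O (O (N (O (N (N (L 10273) (L 10273)) (L 10273))) (O (O (N (N (L 7790) (O (N (L 3374) (L 7790)))) (L 7790))))))))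

def ph781 : PT := (O (O (N (O (O (N (O (O ph778)) (O (O ph779))))) (O (O (N (O (N (N (L 10176) (L 7967)) (O (O (N (L 12434) (L 12318)))))) (O (O ph780))))))))

def ph782 : PT := (O (N (O (O (N (O (O (N (L 12718) (N (L 13204) (L 13204))))) (O (N (O (O (N (L 11602) (O (N (L 9705) (L 11602)))))) (L 11602)))))) (L 12755)))

def ph783 : PT := (O (N (L 10634) (O (O (N (N (L 11106) (L 10054)) (L 11106))))))

def ph784 : PT := (O (O (N (O (O (N (O (O (N (L 12315) (L 12315)))) (O (N (L 6967) (L 7365)))))) (O (O (O (N (N (L 11476) (L 11476)) (L 12315))))))))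

def ph785 : PT := (O (O (N (O (N (N (O (O (N (L 9348) (L 9348)))) (L 8091)) (L 9911))) (O (O (N (N (L 8054) (O (N (L 4399) (L 8054)))) (O (O (N (L 9567) (L 9567))))))))))

def ph786 : PT := (N (O (O (O (O (O (N (L 11800) (L 12600))))))) (N (O (N (O (O (O (N (L 9106) (N (L 9106) (L 9106)))))) (L 9106))) (O (O (N (L 7554) (L 9294))))))

def ph787 : PT := (N (O (O (O (O (N (L 13347) (L 13347)))))) (O (O (N (N (O (O (N (L 13347) (L 13347)))) (O (N (L 13347) (L 13347)))) (L 13089)))))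

def ph788 : PT := (N (L 13172) (O (O (N (N (L 13566) (O (N (O (O (N (L 12069) (O (N (L 7545) (L 10985)))))) (L 12069)))) (O (O (N (L 13566) (L 13566))))))))

def ph789 : PT := (O (N (O (O (O (O (O (N (L 12537) (N (L 12537) (L 12537)))))))) (O (O (O (N (N (L 9459) (L 5553)) (O (O (N (L 9459) (L 9459))))))))))

def ph790 : PT := (N (O (O (N (O (O (O (O ph782)))) (N (O (N (O (O (O (N (L 11098) (N (L 8687) (L 7200)))))) (O ph783))) (O (O (N ph784 ph785))))))) (O (N (O (O (N (O (O ph786)) (O (N (O (O (N (O (O (N (L 9248) (L 9248)))) (L 8850)))) ph787))))) (N (O (O (O (O ph788)))) (O (O (N (N (O (O (N (O (O (N (L 8022) (L 6419)))) (L 8742)))) ph789) (O (O (N (O (N (L 9591) (L 11877))) (L 10701)))))))))))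

def ph791 : PT := (O (N (O (O (N (O (O (N (L 14257) (L 14257)))) (L 13737)))) (N (L 11818) (L 8510))))

def ph792 : PT := (N (O (N (N (O (O (N (L 14025) (L 14257)))) (L 14257)) (L 14257))) (L 13623))

def ph793 : PT := (O (N (O (O (N (L 11092) (L 4981)))) (O (O (O (N (N (L 10787) (O (N (L 10787) (L 10787)))) (L 11169)))))))

def ph794 : PT := (O (N (O (O (N (O (O (N (L 11907) (N (L 10650) (L 10650))))) (L 10650)))) (O (O (N (N (L 8828) (O (N (L 7744) (L 8828)))) (L 8828))))))

def ph795 : PT := (O (O (O (N (O (N (N (O ph791) (L 9627)) (O (O ph792)))) (O (O (N (N (O (O (N (O (O (N (L 11671) (L 10539)))) (L 11156)))) ph793) (O ph794))))))))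

def ph796 : PT := (N (O (O (N (O (O (N (L 11296) (O (N (L 10164) (L 10164)))))) (L 10508)))) (O (N (O (O (N (O (O (N (L 10320) (L 10320)))) (O (N (L 3430) (N (L 9592) (L 9592))))))) (N (L 10320) (O (O (N (N (L 9481) (L 9481)) (L 9481))))))))

def ph797 : PT := (N (O (O (O (N (L 5580) (L 7270))))) (O (O (N (O (N (N (L 8576) (L 7492)) (O (O (N (L 8576) (L 8576)))))) (O (O (N (N (L 7400) (L 7400)) (L 7400))))))))

def ph798 : PT := (N (N (O (O (N (O (O (N (L 7689) (L 7689)))) (L 7689)))) (O (N (O (O (N (L 3204) (L 1430)))) (L 3529)))) (O (O (N (L 6518) (O (O (N (N (L 6912) (L 4757)) (L 6912))))))))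

def ph799 : PT := (O (O (N (O (O (N (L 10469) (O (N (L 9337) (N (L 9337) (L 9337))))))) (L 9681))))

def ph800 : PT := (O (O (O (O (N (O (O (N (L 10735) (N (L 11269) (L 11269))))) (O (N (O (O (N (L 3715) (L 3317)))) (L 3715))))))))

def ph801 : PT := (O (N (O (N (N (L 7588) (L 7588)) (L 8845))) (O (O (O (N (L 8582) (O (N (O (O (N (L 5873) (L 4789)))) (L 5873)))))))))

def ph802 : PT := (N (O (O (N (O (O (N (L 6892) (O (N (L 4236) (L 6172)))))) (L 6892)))) (O (N (L 9318) (L 9015))))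

def ph803 : PT := (O (O (N (O (N (N (L 10248) (L 7767)) (L 10248))) (O (O (N (N (L 9072) (L 10248)) (L 9072)))))))

def ph804 : PT := (O (N (N (O (O (N (O (O ph796)) (O (O ph797))))) (O (N (O (O (O (O (O (N (L 7627) (N (O (N (L 7627) (L 7627))) (L 7627)))))))) (O (O (O ph798)))))) (O (O (N (O (N (N ph799 ph800) (O ph801))) (O (O (N ph802 ph803))))))))

def ph805 : PT := (O (O (N (O (O (N (O ph770) (N ph777 ph781)))) (O (N (O (O ph790)) (N (O ph795) (O ph804)))))))

def ph806 : PT := (O (O (N (O (O (N (O (O (N (L 5507) (L 5507)))) (L 5507)))) (L 8409))))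

def ph807 : PT := (O (O (O (N (O (O (N (L 9007) (L 9007)))) (N (O (N (L 9007) (L 9007))) (O (O (N (L 9007) (L 9007)))))))))

def ph808 : PT := (N (O (O (N (O (O (N (L 3757) (L 3757)))) (L 6683)))) (L 5579))

def ph809 : PT := (N (L 7785) (N (L 12507) (O (O (N (N (O (O (N (L 7785) (L 7785)))) (L 7785)) (L 7785))))))

def ph810 : PT := (O (N (L 5275) (N (O (N (O (O (O (N (L 6795) (L 6795))))) (L 6795))) (L 6795))))

def ph811 : PT := (O (O (O (O (N (N (L 9007) (L 9007)) (O (O (N (L 9007) (L 9007)))))))))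

def ph812 : PT := (N (N (O (O (N (O (O (N ph806 (O (N (L 7951) (L 7951)))))) (N (O (O ph807)) (O (O ph808)))))) (O (O (O (O (N (O (O (N (L 8513) (L 8513)))) (O ph809))))))) (O (O (N (O (N (N (O ph810) (L 7637)) (O (O (N (L 8029) (L 8029)))))) (O (O (N (L 9007) (O ph811))))))))

def ph813 : PT := (N (O (O (N (O (O (N (L 7035) (L 7035)))) (L 7035)))) (O (N (O (O (N (O (O (N (L 7303) (L 7303)))) (L 7303)))) (N (L 1789) (L 7303)))))

def ph814 : PT := (O (O (N (O (O (N (O (O (N (L 9007) (L 9007)))) (L 9007)))) (L 8480))))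

def ph815 : PT := (N (O (O (N (L 6073) (L 6073)))) (O (N (O (O (N (L 2948) (L 2948)))) (O (O (O (N (N (L 6658) (L 6658)) (L 6658))))))))

def ph816 : PT := (O (N (N (O (O (N (O (O ph813)) (O (O (N (L 8273) (L 8086))))))) (O (N (O (O (N (O (O (N (L 8922) (L 8083)))) (O (N (O (O (N (L 1027) (L 1027)))) (L 2811)))))) (O (O (O (N (L 7449) (L 8999)))))))) (O (O (N (O (O (N ph814 (L 7810)))) (O (O (N ph815 (L 5554)))))))))

def ph817 : PT := (O (N (O (O (N (L 9051) (N (L 9051) (L 9051))))) (O (N (O (O (O (O (N (L 6379) (L 6379)))))) (N (L 6379) (L 6089))))))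

def ph818 : PT := (N (O (O (O (N (L 12052) (L 11264))))) (O (N (O (O (N (L 4888) (O (N (L 4888) (L 4414)))))) (N (L 11107) (O (O (N (L 11107) (L 11107))))))))

def ph819 : PT := (O (O (O (N (O (N (N (L 10788) (L 10788)) (L 10788))) (L 10788)))))

def ph820 : PT := (O (N (N (L 10339) (O (N (L 9255) (L 6614)))) (O (O (N (L 11084) (L 10312))))))

def ph821 : PT := (N (O (N (O (O (O (N (L 9272) (L 9272))))) (O (O (N (L 9272) (L 9272)))))) (O (O (N (L 5571) (L 8503)))))

def ph822 : PT := (N (N (O (O (N (L 11005) (L 11129)))) (O (O (O (O (N (L 5565) (O (N (L 5565) (N (L 5565) (L 4128)))))))))) (O (O (N (O (N (N (L 10863) (L 10863)) (L 11257))) (O (O (N (N (L 7166) (L 6292)) (L 7166))))))))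

def ph823 : PT := (N (O (O (N (O (O (N (O ph817) (N (O (N (L 9456) (O (O (N (L 9456) (L 9456)))))) (L 9147))))) (O (N (O (O ph818)) (N (O ph819) (O ph820))))))) (O (O (N (O (O (O (N (O (O (N (L 5168) (O (N (L 5168) (L 5168)))))) ph821)))) (O (O (N (O ph822) (O (O (N (N (L 9894) (L 8363)) (L 8838)))))))))))

def ph824 : PT := (N (O (O (N (L 7237) (N (L 7237) (O (O (N (N (L 7237) (L 7237)) (L 7237)))))))) (O (O (N (L 8388) (O (O (N (L 7549) (L 7549))))))))

def ph825 : PT := (N (O (O (O (N (O (O (N (L 2590) (L 1562)))) (L 2590))))) (O (O (N (L 2047) (O (O (N (N (L 2590) (L 2590)) (L 2590))))))))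

def ph826 : PT := (O (N (O (O (N (L 6758) (L 6758)))) (N (L 6462) (O (O (N (L 2191) (L 6057)))))))

def ph827 : PT := (O (O (N (O (N (N (O (O (N (L 4070) (L 4070)))) (L 4070)) (L 4070))) (L 4070))))

def ph828 : PT := (O (O (N (O (O (N (O (O ph824)) (N (O ph825) (O (O (N (L 2947) (O (O (N (L 4508) (L 5216))))))))))) (O (N (O (O (N (O (O (N (L 5538) (L 5538)))) ph826))) (N (O (O ph827)) (L 16007)))))))

def ph829 : PT := (O (O (N (O (O (N (O (O (N (L 5148) (L 5148)))) (L 5148)))) (O (N (L 3065) (N (L 3065) (O (O (N (L 3065) (L 3065))))))))))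

def ph830 : PT := (O (N (O (O (N (L 4648) (N (L 4648) (L 4648))))) (O (N (L 2007) (L 2985)))))

def ph831 : PT := (N (L 6890) (O (O (N (O (N (N (L 7502) (L 7502)) (L 7502))) (L 6922)))))

def ph832 : PT := (O (O (O (N (N (O (O (N ph829 (O (O (N (L 4791) (L 4791))))))) (O (N (O ph830) (L 2415)))) (O (O (N (O ph831) (O (O (N (N (L 7041) (L 7041)) (L 6556)))))))))))

def ph833 : PT := (N (O (O (N (O (O (N (L 7445) (L 7445)))) (N (L 6114) (L 6981))))) (O (N (L 4282) (N (L 4680) (O (O (N (N (L 4680) (L 4680)) (L 1628))))))))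

def ph834 : PT := (N (O (O (O (N (L 5861) (N (L 6993) (L 6993)))))) (O (O (N (L 6993) (O (O (N (L 5267) (L 6993))))))))

def ph835 : PT := (O (N (O (O (N (O (O (N (L 2826) (N (L 2826) (L 2826))))) (L 2708)))) (N (O (O (O (O (N (L 5198) (L 5590)))))) (O (O (N (L 4751) (O (O (N (L 5590) (L 5590))))))))))

def ph836 : PT := (O (O (N (O (O (N (O (O (N (L 8583) (L 8583)))) (L 8583)))) (N (L 7716) (O (O (N (L 5370) (L 6040))))))))

def ph837 : PT := (N (L 9872) (O (N (O (O (N (L 4832) (O (N (L 4832) (N (L 4832) (L 4180))))))) (O (O (O (N (N (L 6909) (L 6909)) (L 7748))))))))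

def ph838 : PT := (O (N (N (O (O (N (O (O ph833)) (N (O ph834) (O (O (N (L 9513) (O (O (N (L 9700) (L 8524))))))))))) (O (O (O (O (N (O (O (N (L 8865) (N (L 9997) (L 9209))))) ph835)))))) (O (O (N (O (N (N ph836 (L 8001)) (O (O (N (L 9664) (L 8417)))))) (O (O (O ph837))))))))

def ph839 : PT := (O (N (O (O (N (L 7624) (N (L 6785) (O (O (N (L 6785) (L 6785)))))))) (O (N (O (O (N (L 3136) (L 1059)))) (N (L 6065) (L 6065))))))

def ph840 : PT := (N (O (O (N (O (O (N (L 3518) (L 1059)))) (N (L 7579) (O (O (N (L 7579) (L 7579)))))))) (O (N (O (O (N (O (O (N (L 7800) (L 7800)))) (O (N (L 8456) (N (L 7800) (L 7800))))))) (N (L 8456) (L 8456)))))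

def ph841 : PT := (N (O (O (N (L 10171) (L 9715)))) (O (O (O (O (N (O (O (N (L 9340) (L 9340)))) (O (N (L 9340) (N (L 8612) (O (O (N (L 2762) (O (O (N (L 2504) (L 2504))))))))))))))))

def ph842 : PT := (O (O (O (O (N (N (O (O (N (L 9777) (L 9777)))) (L 9777)) (L 9777))))))

def ph843 : PT := (N (N (O (O (N (L 2119) (L 2377)))) (O (N (O (O (N (L 8636) (L 8636)))) (L 8102)))) (L 8398))

def ph844 : PT := (O (O (N (N (O (O (N (O ph839) (L 6757)))) (O (N (O (O ph840)) (O (O (O (O (N (L 5629) (L 4901))))))))) (O (O (N (O (N ph841 ph842)) (O (O ph843))))))))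

def ph845 : PT := (N (O (N (L 16007) (O (O (N (O ph812) (O ph816)))))) (O (O (N (N (O (O ph823)) (O (N ph828 ph832))) (O (O (N ph838 ph844)))))))

def ph846 : PT := (O (O (N (O (O (N (O (O (N (L 11168) (L 11168)))) (O (N (L 10483) (N (L 10483) (L 10483))))))) (N (O (N (L 8656) (L 8656))) (O (O (N (L 8656) (O (O (N (O (N (L 3336) (L 3917))) (L 8656)))))))))))

def ph847 : PT := (O (N (O (O (O (O (N (L 10790) (L 10790)))))) (N (O (O (O (O (N (L 4557) (L 4557)))))) (O (O (N (N (L 6415) (L 6415)) (L 6415)))))))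

def ph848 : PT := (O (O (N (O (N (N (L 10361) (L 10361)) (O (O (N (L 10361) (L 10361)))))) (O (O (N (N (L 7149) (L 7149)) (O (O (N (L 4237) (L 4237))))))))))

def ph849 : PT := (N (O (O (N (O (O (N (L 7347) (L 7347)))) (L 7761)))) (O (O (N (O (N (N (L 7482) (L 7482)) (L 4644))) (L 6500)))))

def ph850 : PT := (O (O (N (O (N (O (O (O (N (L 9157) (L 9157))))) (O (O (N (L 6278) (L 6278)))))) (L 8740))))

def ph851 : PT := (N (L 12011) (N (L 12507) (O (O (N (N (O (O (N (L 12507) (L 12507)))) (L 12507)) (L 12507))))))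

def ph852 : PT := (O (N (O (N (N (O (O (N (L 10304) (N (L 10304) (L 10304))))) (L 10304)) (O (O (N (L 5825) (L 10304)))))) (O (O (N (N (O (O (N (L 12329) (L 12329)))) (L 12329)) (L 12329))))))

def ph853 : PT := (N (L 12507) (O (N (O (O (N (O (O (N (L 12507) (L 12507)))) (L 12507)))) (L 12507))))

def ph854 : PT := (O (O (N (L 6417) (O (O (N (N (L 10484) (O (N (L 10484) (L 10484)))) (L 10484)))))))

def ph855 : PT := (O (N (O (O (N (O (O (N ph846 ph847))) (N (O (N (O (O (O (O (N (O (N (L 8754) (L 8754))) (L 8754)))))) ph848)) (O (O ph849)))))) (O (N (O (O (N (O ph850) (O ph851)))) (N (O (O (O ph852))) (O (O (N ph853 ph854))))))))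

def ph856 : PT := (N (O (O (N (O (O (N (L 8594) (O (N (L 8594) (L 8594)))))) (N (L 6753) (O (O (N (N (L 6753) (L 6753)) (L 6753)))))))) (O (N (O (O (N (O (O (N (L 10054) (L 10054)))) (L 10054)))) (L 10768))))

def ph857 : PT := (N (O (O (O (N (L 4958) (L 4958))))) (O (O (N (L 4377) (L 4399)))))

def ph858 : PT := (O (N (O (O (N (O (O (N (L 10908) (L 10908)))) (L 10908)))) (O (O (N (O (N (L 2962) (L 2962))) (L 7075))))))

def ph859 : PT := (N (O (O (N (L 8258) (L 9625)))) (O (N (O (O (N (O (O (N (L 4422) (L 4422)))) (L 4422)))) (O (O (O (N (L 4422) (O (O (N (O (N (N (L 2275) (L 3841)) (L 4422))) (L 4422)))))))))))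

def ph860 : PT := (O (O (N (O (O (N (O (O (N (L 10290) (L 10290)))) (L 10290)))) (L 9819))))

def ph861 : PT := (O (N (O (O (O (N (O (O ph856)) (N (O ph857) (O ph858)))))) (O (O (N (O (N (L 14257) (O (O (N (L 7257) (L 7257)))))) (O (O (N ph859 ph860))))))))

def ph862 : PT := (N (O (O (N (L 11230) (N (L 11230) (L 11230))))) (O (N (O (O (N (O (O (N (L 12325) (L 12325)))) (L 12325)))) (L 7257))))

def ph863 : PT := (N (O (O (N (O (O (N (L 9915) (L 9915)))) (L 10735)))) (O (O (O (O (N (O (O (N (L 10154) (L 10154)))) (L 10154)))))))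

def ph864 : PT := (O (O (N (O (N (N (O (O (N (L 8235) (L 8235)))) (L 8235)) (L 3955))) (L 7253))))

def ph865 : PT := (N (N (L 10490) (O (N (O (O (N (L 10490) (O (N (L 10490) (L 10490)))))) (L 10490)))) (O (O (N (O (N (N (L 4050) (L 4050)) (L 9563))) (O (O (N (N (L 9373) (L 9373)) (L 9373))))))))

def ph866 : PT := (O (O (N (O (O (N (O (O ph862)) (O (O (O (N (N (O (O (N (L 8915) (L 8915)))) (L 8915)) (L 7257)))))))) (O (O (N (O (N ph863 ph864)) (O (O ph865))))))))

def ph867 : PT := (O (N (O (O (N (O (O (N (L 10014) (L 10014)))) (L 10014)))) (N (O (N (O (O (O (N (L 8131) (L 8131))))) (L 7707))) (O (O (N (L 10823) (L 11240)))))))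

def ph868 : PT := (O (N (L 12507) (O (O (N (N (L 12507) (L 12507)) (O (O (N (L 12507) (L 12507)))))))))

def ph869 : PT := (O (N (O (N (N (O (O (N (L 12507) (N (L 12507) (L 12507))))) (L 12507)) (O (O (N (O (N (L 5724) (L 7243))) (L 7243)))))) (L 12507)))

def ph870 : PT := (O (O (N (O (N (N (O (O (N (L 5177) (L 5177)))) (L 5177)) (L 10247))) (O (O (N (N (L 12135) (L 12135)) (L 12135)))))))

def ph871 : PT := (N (L 11939) (O (O (N (L 12507) (O (O (N (L 6450) (L 12507))))))))

def ph872 : PT := (N (O (N (N (O (O (N (L 10478) (L 10478)))) (L 16007)) (L 10478))) (O (O (N (N (L 10902) (O (N (L 10902) (L 10902)))) (L 10902)))))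

def ph873 : PT := (O (N (O (N (N (O (O (N (L 7465) (N (L 7465) (L 7465))))) (L 7465)) (L 7465))) (O (O (N (N (L 8241) (L 8241)) (O (O (N (L 6040) (L 8241)))))))))

def ph874 : PT := (N (O (O (N (O (O (N (O ph867) (O ph868)))) (N (O (N (O (O (O (N (L 12507) (L 11777))))) (O ph869))) (O (O (N (L 12376) ph870))))))) (O (N (O (O (N (O (O (N (L 11382) (N (L 11122) (L 10382))))) (O (N (L 12507) ph871))))) (N (O (O (O (O ph872)))) (O (O (N (N (O (O (N (L 7584) (O (O (N (L 8810) (L 4970))))))) (O (O (O (O (O (N (N (L 10180) (L 10180)) (L 10180)))))))) (O ph873))))))))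

def ph875 : PT := (N (O (O (N (O (O (O (N (L 9496) (L 9496))))) (L 9496)))) (N (O (O (O (O (N (L 5049) (L 9496)))))) (L 8673)))

def ph876 : PT := (O (O (N (O (O (N (O (O (N (L 7975) (L 7975)))) (O (N (L 9201) (N (L 9201) (L 9201))))))) (N (O (N (L 3536) (L 3536))) (O (O (N (L 8784) (L 8784))))))))

def ph877 : PT := (O (O (O (O (N (N (O (O (N (L 11025) (L 11025)))) (O (N (L 11025) (N (L 11025) (L 11025))))) (O (O (N (L 11025) (L 11025)))))))))

def ph878 : PT := (O (O (N (O (O (N (L 10166) (O (N (L 10166) (L 10166)))))) (O (O (O (N (N (L 4129) (L 4129)) (L 3291))))))))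

def ph879 : PT := (O (O (N (O (N (N (O (O (N (L 7077) (L 7077)))) (L 7077)) (L 2450))) (O (O (N (N (L 6095) (L 6095)) (L 6095)))))))

def ph880 : PT := (N (O (O (N (O (O (N (L 9450) (N (L 9450) (L 9450))))) (L 9450)))) (N (L 7467) (O (O (N (L 9690) (O (O (N (L 9690) (L 9690)))))))))

def ph881 : PT := (N (O (O (N (O (O (N (O (O (N (O (O (N (L 7395) (L 6240)))) (N (L 7395) (L 3211))))) (O ph875)))) (N (O (N (O ph876) (O ph877))) (O (O (N ph878 ph879))))))) (O (O (O (O (N (O (O ph880)) (L 8801)))))))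

def ph882 : PT := (N (L 7133) (N (O (N (O (O (O (N (L 7133) (L 7133))))) (L 7133))) (O (O (N (L 7133) (L 1384))))))

def ph883 : PT := (O (N (O (O (N (O (O (N (L 9399) (L 9399)))) (L 9399)))) (O (O (N (O (O (O (N (L 6315) (L 6315))))) (L 1562))))))

def ph884 : PT := (N (L 9012) (O (O (O (N (N (O (O (N (L 9012) (L 9012)))) (L 9012)) (L 9012))))))

def ph885 : PT := (O (O (O (N (N (L 8727) (O (N (L 8727) (L 8727)))) (L 6312)))))

def ph886 : PT := (O (O (N (O (N (N (O (O ph882)) (L 8416)) (O (O (N (L 1742) (L 8026)))))) (O (O (N (N (O ph883) (O ph884)) (O (O ph885))))))))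

def ph887 : PT := (O (O (N (O (O (N (O (O (N (L 6912) (L 6912)))) (L 8138)))) (L 4756))))

def ph888 : PT := (O (N (O (O (N (L 10044) (O (N (L 10044) (L 10044)))))) (N (L 9088) (L 9088))))

def ph889 : PT := (O (O (O (N (L 8889) (N (O (N (L 8889) (L 8889))) (L 8889))))))

def ph890 : PT := (O (O (N (O (N (N (O (O (N (L 6014) (L 6014)))) (L 6014)) (L 3022))) (L 5032))))

def ph891 : PT := (N (L 7656) (N (O (O (O (O (N (L 4177) (L 4177)))))) (L 5229)))

def ph892 : PT := (N (O (O (N (O (O (N (L 5114) (O (N (L 5114) (L 5114)))))) (O (O (N (L 6340) (L 783))))))) (O (N (L 7699) (L 8327))))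

def ph893 : PT := (O (O (N (O (N (N (O (O (N (L 9124) (L 9124)))) (L 9124)) (L 9124))) (L 8707))))

def ph894 : PT := (N (N (O (O (N (O (O (N ph887 ph888))) (O (O (N ph889 ph890)))))) (O (N (O (O (N (O (O (N (L 6382) (N (O (N (L 6889) (L 6889))) (L 6149))))) (O ph891)))) (O (O (O (N ph892 ph893))))))) (O (O (N (L 14257) (O (O (N (N (O (O (N (L 8137) (L 8137)))) (L 7776)) (O (O (N (L 5429) (O (O (N (L 6233) (L 6233))))))))))))))

def ph895 : PT := (O (N (N (O (O (N (O ph855) (N ph861 ph866)))) (O (O (O (O ph874))))) (O (O (N (O (N ph881 ph886)) (O (O ph894)))))))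

def ph896 : PT := (N (O (O (N (O (O (N (L 7515) (L 7515)))) (N (L 5293) (O (O (N (L 8741) (L 8741)))))))) (O (N (O (O (O (O (N (L 8906) (L 8906)))))) (N (L 8906) (L 8906)))))

def ph897 : PT := (N (L 10347) (O (O (N (O (N (N (L 10347) (L 10347)) (L 3950))) (L 9365)))))

def ph898 : PT := (O (N (L 6910) (O (O (N (O (N (N (L 6910) (L 6910)) (L 6910))) (L 4445))))))

def ph899 : PT := (O (O (O (N (O (N (L 12000) (O (O (N (L 12000) (L 12000)))))) (O (O (N (L 10040) (L 10040))))))))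

def ph900 : PT := (O (N (L 9007) (N (L 9007) (O (O (N (N (L 9007) (L 9007)) (L 5886)))))))

def ph901 : PT := (O (O (N (O (N (L 10705) (L 10705))) (O (O (N (N (L 6975) (O (N (L 11129) (L 11129)))) (L 11129)))))))

def ph902 : PT := (N (N (L 11261) (O (N (L 10633) (L 10633)))) (O (O (N (O (N (N (L 7017) (L 7017)) (L 7017))) (O (O (N (N (L 7793) (L 7793)) (L 5300))))))))

def ph903 : PT := (O (O (N (O (O (N (O (O ph896)) (N (O ph897) (O ph898))))) (O (N (O (O (N ph899 ph900))) (N (O (O ph901)) (O (O ph902))))))))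

def ph904 : PT := (O (N (L 12507) (O (N (O (O (N (L 12507) (O (N (L 12507) (L 12507)))))) (L 12507)))))

def ph905 : PT := (O (N (O (O (O (N (L 9955) (L 9955))))) (O (O (N (O (N (N (L 9006) (L 9006)) (L 9006))) (L 4943))))))

def ph906 : PT := (N (O (O (N (O (O (N (L 10520) (O (N (L 10520) (L 10520)))))) (L 11340)))) (L 11340))

def ph907 : PT := (O (O (N (O (N (N (O (O (N (L 9581) (L 9581)))) (L 9581)) (L 3905))) (L 8599))))

def ph908 : PT := (N (L 9477) (O (O (N (L 7734) (O (O (N (L 3817) (L 8315))))))))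

def ph909 : PT := (O (O (N (O (O (O (N (O ph904) (N ph905 (L 10118)))))) (O (O (N (O (N ph906 ph907)) (O (O ph908))))))))

def ph910 : PT := (O (O (N (O (O (N (L 12507) (L 12507)))) (N (L 11553) (L 12507)))))

def ph911 : PT := (O (O (N (L 8753) (O (O (N (N (L 8753) (L 8753)) (L 5710)))))))

def ph912 : PT := (O (O (O (N (O (O (N (L 9013) (O (N (L 9013) (L 9013)))))) (L 9013)))))

def ph913 : PT := (N (O (O (N (L 8115) (L 8115)))) (O (O (N (O (N (N (L 7661) (L 7661)) (O (O (N (L 8437) (L 8437)))))) (O (O (N (L 8437) (L 5477))))))))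

def ph914 : PT := (O (N (O (O (O (O (O (N (L 10271) (L 10271))))))) (N (O (N (O (O (O (N (L 9061) (L 9061))))) (L 9061))) (O (O (N (O (O (N (L 9061) (L 9061)))) (L 2416)))))))

def ph915 : PT := (N (L 9943) (N (O (O (O (O (N (L 9943) (L 5235)))))) (L 9120)))

def ph916 : PT := (O (N (O (N (N (O (O (N (L 11199) (N (L 11199) (L 11199))))) (L 11199)) (L 11199))) (O (O (N (N (O (O (N (L 6144) (L 6144)))) (O (N (L 6144) (L 6144)))) (O (O (N (L 6144) (L 2846)))))))))

def ph917 : PT := (O (O (N (O (N (N (O (O (N (L 8839) (L 8839)))) (L 8839)) (L 4601))) (O (O (N (N (L 11866) (O (N (L 11866) (L 11866)))) (L 11866)))))))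

def ph918 : PT := (O (N (O (O (N (O (O (N ph910 ph911))) (N (O (N ph912 (O (O (N (O (N (L 8564) (L 8564))) (L 7089)))))) (O (O ph913)))))) (O (N (O (O (N (O ph914) (O ph915)))) (N (O (O (O ph916))) (O (O (N (O (O (O (N (O (O (N (L 10676) (L 10676)))) (L 10676))))) ph917))))))))

def ph919 : PT := (O (N (L 12507) (O (N (L 12507) (N (L 12507) (O (O (N (N (L 12507) (L 12507)) (L 12507)))))))))

def ph920 : PT := (N (O (O (N (O (O (N (L 3738) (O (N (L 3738) (L 3738)))))) (N (L 2007) (O (O (N (L 4964) (L 4964)))))))) (O (O (O (O (N (O (O (N (L 5776) (L 5776)))) (L 5776)))))))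

def ph921 : PT := (O (O (N (O (N (N (O (O (N (L 8059) (L 8059)))) (L 8059)) (L 8059))) (L 8059))))

def ph922 : PT := (O (O (N (N (O (O (N (O ph919) (O (O (N (O (O (O (N (L 12507) (L 12507))))) (L 7257))))))) (O (N (L 12507) (O (O (O (N (N (L 12507) (L 12507)) (L 12507)))))))) (O (O (N (O (N ph920 ph921)) (O (O (N (L 14257) (O (O (N (L 6819) (L 6819)))))))))))))

def ph923 : PT := (O (O (N (O (O (N (O (O (N (L 7368) (L 7368)))) (L 7368)))) (N (L 6453) (L 7240)))))

def ph924 : PT := (O (N (L 10225) (N (L 10969) (O (O (N (L 10969) (L 10969)))))))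

def ph925 : PT := (O (O (N (L 11072) (O (O (N (N (L 11889) (O (N (L 11889) (L 11889)))) (L 11889)))))))

def ph926 : PT := (N (O (O (N (L 12124) (L 12124)))) (O (O (N (O (N (N (L 6086) (L 5505)) (L 6086))) (O (O (N (L 5409) (L 4625))))))))

def ph927 : PT := (O (N (O (O (N (L 11617) (L 11617)))) (N (L 11384) (L 11384))))

def ph928 : PT := (N (L 12124) (N (L 11072) (O (O (N (N (O (O (N (L 9154) (L 9154)))) (L 9154)) (L 5326))))))

def ph929 : PT := (N (N (O (O (N (O (O (N ph923 ph924))) (N (O (N (O (O (O (N (L 11304) (N (L 11695) (L 11695)))))) ph925)) (O (O ph926)))))) (O (O (O (O (N (O ph927) (O ph928))))))) (O (O (N (O (N (N (O (O (N (L 7257) (L 7257)))) (L 7257)) (O (O (N (L 7257) (L 3627)))))) (L 16007)))))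

def ph930 : PT := (N (O (O (N (L 9450) (N (L 9957) (O (O (N (L 9957) (L 9957)))))))) (O (N (O (O (N (L 9191) (O (N (L 9191) (N (L 9191) (L 9191))))))) (N (L 9191) (L 6545)))))

def ph931 : PT := (N (O (O (O (N (L 8100) (N (O (N (L 8100) (L 8100))) (L 8100)))))) (O (O (N (O (N (N (L 5761) (L 5761)) (L 5761))) (L 3404)))))

def ph932 : PT := (O (O (N (O (O (N (L 7757) (O (N (L 7757) (N (L 7757) (L 7757))))))) (N (O (N (L 8912) (L 8912))) (L 3010)))))

def ph933 : PT := (O (N (O (O (N (O (O (N (L 12032) (N (L 12032) (L 12032))))) (L 12032)))) (N (O (O (O (O (N (L 9212) (L 5876)))))) (O (O (N (L 8389) (L 8389)))))))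

def ph934 : PT := (N (N (L 12507) (O (N (O (O (N (L 12507) (L 12507)))) (L 12507)))) (O (O (O (O (N (N (L 12507) (L 12507)) (L 12507)))))))

def ph935 : PT := (N (L 12507) (O (N (O (O (N (O (O (N (L 12507) (L 12507)))) (L 12507)))) (L 12477))))

def ph936 : PT := (O (O (N (O (N (L 8354) (L 8935))) (O (O (N (N (L 8258) (O (N (L 8258) (L 8258)))) (L 5332)))))))

def ph937 : PT := (O (N (N (O (O (N (O (O ph930)) (O (O ph931))))) (O (N (O (O (N ph932 ph933))) (O (O (O ph934)))))) (O (O (N (O (N (N (O (O (N (L 12435) (N (L 11719) (L 11719))))) (L 12507)) (O (O (O (O (N (L 10889) (O (O (N (L 10889) (L 6446))))))))))) (O (O (N ph935 ph936))))))))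

def ph938 : PT := (O (O (N (N (O (O (N ph903 ph909))) (O (N (O ph918) (O ph922)))) (O (O (N (O ph929) (O ph937)))))))

def ph939 : PT := (O (N (O (O (N (O (O (N (L 8832) (L 12101)))) (N (L 14416) (L 14985))))) (O (N (O (O (O (O (N (L 16007) (L 16007)))))) (N (L 16007) (L 16007))))))

def ph940 : PT := (O (N (O (O (O (N (L 13672) (L 14444))))) (O (O (N (L 12194) (O (O (N (N (O (O (N (L 10757) (L 12387)))) (L 12387)) (L 12387)))))))))

def ph941 : PT := (O (O (N (O (O (N (L 16007) (L 16007)))) (O (O (N (O (N (L 9709) (L 12654))) (O (O (N (L 16007) (L 16007))))))))))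

def ph942 : PT := (O (O (N (O (O (N (O (O (N (O (O (N (L 10839) (L 13438)))) (L 13438)))) (O (N (L 16007) (N (L 16007) (L 16007))))))) (N (L 16007) (O (O (N (L 16007) (L 16007))))))))

def ph943 : PT := (O (O (O (N (O (N (N (O (O (N (O (O (N (O (O (N (L 10943) (L 13322)))) (L 13720)))) (L 13999)))) (L 13999)) (L 13999))) (L 11826)))))

def ph944 : PT := (O (N (N (O (O (N (O (O (N (L 10757) (L 11259)))) (L 11259)))) (L 15068)) (O (O (N (L 15154) (L 15010))))))

def ph945 : PT := (N (N (O (O (N (O (O (N (L 16007) (L 16007)))) (L 16007)))) (O (O (O (O (N (O (O (N (L 9002) (L 10325)))) (O (N (L 10325) (L 10325))))))))) (O (O (N (O (N (N (L 12421) (L 11428)) (L 13265))) (O (O (N (N (O (O (N (L 9099) (L 10843)))) (L 13265)) (L 13265))))))))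

def ph946 : PT := (O (N (N (O (O (N (O (O (N (L 7878) (L 10106)))) (L 10106)))) (O (N (L 14898) (L 14898)))) (O (O (N (O (O (N (O (O (N (O (O (N (L 10639) (L 11710)))) (L 11710)))) (L 11710)))) (L 9537))))))

def ph947 : PT := (O (O (N (O (O (N (O (O (N (L 5913) (L 12422)))) (L 13551)))) (O (N (O (O (N (L 14257) (L 13890)))) (L 13551))))))

def ph948 : PT := (O (O (O (N (N (L 13886) (O (N (L 13886) (L 13886)))) (L 14257)))))

def ph949 : PT := (O (N (N (O (O (N (O (O (N (O (O (N (L 7312) (L 11293)))) (L 11293)))) (L 11293)))) (L 14844)) (O (O (N (O (N (N (O (O (N (O (O (N (O (O (N (L 10396) (L 9279)))) (L 10396)))) (L 10396)))) (L 10396)) (L 10396))) (O (O (O (N (L 11347) (L 12476))))))))))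

def ph950 : PT := (O (O (N (N (O (O (N (O (O (N (O (O (N (L 10135) (L 10135)))) (L 10135)))) (L 10135)))) (O (N (O (O (N (L 14293) (L 13504)))) (L 14293)))) (O (O (N (L 14019) (L 14722)))))))

def ph951 : PT := (N (O (O (N (O (O (N (O ph939) (N ph940 ph941)))) (O (N (O (O ph942)) (N (O ph943) (O ph944))))))) (N (O (N (O (O (O (N (O (O (O (O (N (L 10757) (L 10757)))))) (N (O (N (L 16007) (L 15486))) (L 15912)))))) (O (O (N (O ph945) (O ph946)))))) (O (O (N (O (O (N ph947 ph948))) (O (O (N ph949 ph950))))))))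

def ph952 : PT := (N (O (O (O (N (L 10844) (L 8750))))) (O (O (N (O (N (N (O (O (N (L 6235) (L 7408)))) (L 7408)) (O (O (N (L 7965) (L 7965)))))) (L 6921)))))

def ph953 : PT := (O (O (N (L 8672) (N (O (N (L 11726) (L 10960))) (L 11063)))))

def ph954 : PT := (O (N (O (O (N (L 12177) (O (N (L 12946) (L 12177)))))) (N (L 9884) (O (O (N (N (O (O (N (L 5507) (L 8986)))) (L 10613)) (L 10613)))))))

def ph955 : PT := (N (N (O (O (N (O (O (N (L 13382) (L 12610)))) (O (O (N (N (O (O (N (L 5304) (L 6010)))) (L 6010)) (L 10488))))))) (O (N (O (O (O (O (O (N (L 11647) (L 13382))))))) (L 12519)))) (O (O (N (O (N (N (L 10105) (L 9112)) (L 10706))) (O (O (N (N (O (O (N (L 5507) (L 8958)))) (L 10706)) (L 10706))))))))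

def ph956 : PT := (O (O (N (O (O (O (N (O ph952) (O (O (N (O (O (N (L 10427) (L 10427)))) (L 10427)))))))) (O (N (O (O (N ph953 ph954))) (N (L 12476) (O (O ph955))))))))

def ph957 : PT := (N (O (O (N (O (O (N (L 12363) (L 13544)))) (N (L 16007) (O (O (N (L 16007) (L 16007)))))))) (O (O (O (O (N (L 16007) (O (N (L 16007) (N (L 16007) (L 16007))))))))))

def ph958 : PT := (O (O (N (O (N (N (O (O (N (L 10749) (L 12421)))) (L 12421)) (L 12421))) (O (O (N (N (L 16007) (L 16007)) (L 15622)))))))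

def ph959 : PT := (N (N (O (O (N (L 11453) (L 13332)))) (O (N (O (O (N (L 14829) (O (N (L 14829) (L 14829)))))) (L 14829)))) (O (O (N (L 14829) (L 13968)))))

def ph960 : PT := (O (O (N (O (O (N (O (O (N (L 10307) (L 10307)))) (L 9738)))) (O (N (O (O (N (L 13651) (L 13651)))) (L 13157))))))

def ph961 : PT := (O (N (O (O (N (O (O (N (L 13128) (L 13669)))) (N (O (N (L 8738) (L 10696))) (O (O (N (L 13941) (L 13335)))))))) (O (O (O (O (N (L 14023) (O (N (L 14441) (L 14441))))))))))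

def ph962 : PT := (O (O (N (N (O (O (N (O (O (N (L 13987) (O (N (L 9021) (L 8672)))))) (L 13987)))) (O (N (L 13573) (L 14362)))) (L 13659))))

def ph963 : PT := (N (N (O (O (N (O (O (N (L 8242) (O (N (L 8242) (L 8242)))))) (N (O (N (N (L 13112) (L 12780)) (L 13112))) (L 13112))))) (O (O (O (O (N (L 13112) (L 12323))))))) (O (O (N (L 13427) (L 13872)))))

def ph964 : PT := (O (N (N (O (O (N (L 12542) (L 12542)))) (O (N (O (O (N (O (O (N (O (O (N (L 12542) (L 9456)))) (L 12542)))) (L 12542)))) (L 11624)))) (O (O (N (O (N (N (L 11221) (L 11221)) (L 11721))) (O (O (N (N (O (O (N (L 4693) (L 10933)))) (L 10933)) (L 10933)))))))))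

def ph965 : PT := (N (O (O (O (O (N (O (N ph957 ph958)) (O (O ph959))))))) (O (O (N (N (O (O (N ph960 (O (O (N (L 13778) (L 12850))))))) (O (N (O ph961) (O ph962)))) (O (O (N (O ph963) (O ph964))))))))

def ph966 : PT := (N (L 9099) (O (O (N (O (O (N (L 9099) (L 9099)))) (L 9099)))))

def ph967 : PT := (O (N (O (O (O (N (L 15019) (L 15019))))) (O (N (L 11405) (N (L 12174) (O (O (N (N (O (O (N (L 12174) (O (O (N (N (L 8023) (L 11842)) (L 12174))))))) (L 12174)) (L 12174)))))))))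

def ph968 : PT := (O (O (N (N (L 14393) (O (N (L 8069) (L 8638)))) (L 12417))))

def ph969 : PT := (N (O (O (N (L 12376) (L 11607)))) (N (O (N (L 10757) (O (O (N (O (N (L 14461) (L 13992))) (L 14461)))))) (L 13147)))

def ph970 : PT := (O (N (O (O (O (O (O (N (L 12469) (L 12887))))))) (O (O (N (O (N (N (O (O (N (L 13178) (N (L 11389) (L 13178))))) (L 13178)) (L 13178))) (O (O (N (N (L 11707) (L 12836)) (L 12751)))))))))

def ph971 : PT := (O (O (N (N (O (O (N (L 13902) (O (O (N (L 9051) (L 13101))))))) (O (N (L 13113) (L 13902)))) (L 13199))))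

def ph972 : PT := (N (O (O (N (L 13007) (O (N (O (O (N (L 9939) (L 13007)))) (L 13007)))))) (O (O (O (N (N (L 8690) (L 13007)) (L 13007))))))

def ph973 : PT := (N (O (N (N (O (O (N (L 14761) (N (O (N (L 11554) (L 14761))) (L 14761))))) (O (O (O (O (N (L 14761) (L 13972))))))) (L 14292))) (O (O (N (N (L 16007) (O (N (L 16007) (L 16007)))) (L 16007)))))

def ph974 : PT := (O (N (O (O (N (O (O (N (O (O (N (L 12251) (O (N (L 13023) (L 12796)))))) ph966))) (O (N (O ph967) (N (O (O (O (O (N (L 14393) (L 13532)))))) ph968)))))) (N (O (N (O (O (O ph969))) (O (O (N ph970 ph971))))) (O (O (N (O (O ph972)) (O (O ph973))))))))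

def ph975 : PT := (O (N (O (O (N (L 12696) (N (O (N (L 11027) (L 12895))) (L 12862))))) (O (N (O (O (N (O (O (N (L 8205) (N (O (N (L 7636) (O (O (N (L 5202) (L 7636)))))) (L 8205))))) (O (N (L 10243) (L 10243)))))) (N (L 13455) (L 12537))))))

def ph976 : PT := (N (O (O (N (O (O (N (O (O (N (L 10761) (N (L 7302) (L 7871))))) (L 10761)))) (N (O (N (L 10761) (L 10761))) (O (O (N (L 9975) (L 10761)))))))) (O (N (O (O (N (L 11188) (O (N (L 11364) (N (L 11188) (L 11188))))))) (N (L 10739) (O (O (N (N (O (O (N (L 11364) (L 7048)))) (L 11364)) (L 11364))))))))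

def ph977 : PT := (N (O (O (N (O (O (N (L 13336) (O (N (L 12564) (L 12564)))))) (N (O (N (O (O (O (N (L 12163) (L 8604))))) (L 14561))) (L 13335))))) (O (O (O (O (N (O (O (N (L 7809) (N (L 7240) (L 7809))))) (L 7809)))))))

def ph978 : PT := (O (O (N (O (N (N (L 10566) (L 10566)) (L 11559))) (O (O (N (N (O (O (N (L 9939) (N (L 9904) (L 9939))))) (O (N (L 12403) (L 12403)))) (L 12403)))))))

def ph979 : PT := (N (N (O (O (N (O (O (N (O (O (N (L 9399) (N (L 7875) (L 9399))))) (L 9399)))) (L 11758)))) (O (N (O (O (N (L 12171) (L 12171)))) (O (O (O (N (N (O (O (N (L 11737) (L 9370)))) (L 11737)) (L 11737)))))))) (O (O (O (O (O (N (N (L 15924) (L 15924)) (L 15924))))))))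

def ph980 : PT := (O (O (N (O (O (N (L 5992) (L 13041)))) (O (N (L 11919) (N (L 11919) (O (O (N (L 12619) (L 11919))))))))))

def ph981 : PT := (O (O (N (O (O (O (N (L 11378) (N (O (N (L 11378) (O (O (N (L 11378) (L 7549)))))) (L 11378)))))) (O (O (N (L 14122) (L 13973)))))))

def ph982 : PT := (O (N (O (O (N (L 11289) (N (O (N (L 10300) (L 5295))) (L 11289))))) (L 11289)))

def ph983 : PT := (O (O (N (L 12619) (O (O (N (O (N (N (L 8748) (L 12142)) (L 12142))) (L 13160)))))))

def ph984 : PT := (O (N (O (O (N (O (O (N (O (O (N (L 10165) (N (O (N (L 9596) (L 9228))) (L 10165))))) (L 14334)))) (N (L 15405) (L 14619))))) (L 15405)))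

def ph985 : PT := (O (N (N (O (O (N (L 12988) (O (O (N (L 11119) (O (O (N (L 10988) (L 6980)))))))))) (L 12600)) (O (O (N (L 13295) (L 12434))))))

def ph986 : PT := (N (O (N (N (O (O (N (O ph975) (L 11601)))) (O (O (O (O ph976))))) (O (O (N (O (N ph977 ph978)) (O (O ph979))))))) (O (O (N (N (O (O (N ph980 ph981))) (O (N (O ph982) (O ph983)))) (O (O (N (O ph984) (O ph985))))))))

def ph987 : PT := (O (O (N (O (O (N (L 9101) (N (L 8068) (O (O (N (L 8104) (L 8637)))))))) (L 8607))))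

def ph988 : PT := (N (L 13534) (O (O (N (O (O (N (L 14527) (L 14527)))) (L 14527)))))

def ph989 : PT := (O (N (O (O (N (L 11858) (N (O (N (N (O (O (N (L 11358) (L 9033)))) (L 11358)) (L 11358))) (O (O (N (L 11358) (L 10752)))))))) (O (N (O (O (N (O (O (N (L 8592) (N (L 8592) (L 4466))))) (L 8592)))) (N (L 11373) (O (O (N (N (L 10455) (L 10455)) (L 11373)))))))))

def ph990 : PT := (O (O (O (O (N (O (N (N (O (O (N (L 8918) (L 8129)))) (L 8918)) (L 8918))) (L 7789))))))

def ph991 : PT := (O (N (O (O (N (L 11259) (O (N (L 11259) (L 11259)))))) (O (O (N (O (O (O (N (L 10159) (N (L 10159) (L 7893)))))) (L 10159))))))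

def ph992 : PT := (N (O (O (N (O (O (N (L 8588) (L 3787)))) (O (N (L 11664) (L 11868)))))) (O (O (O (N (N (L 11660) (L 11660)) (L 12031))))))

def ph993 : PT := (N (O (N (N (L 11907) (L 11489)) (L 7872))) (O (O (N (L 12900) (L 12197)))))

def ph994 : PT := (O (N (O (O (N (O (O (N ph987 ph988))) (O (N (O ph989) (N ph990 (O (O (N (L 13390) (O (O (N (L 12687) (L 13390))))))))))))) (O (O (O (N (N (O ph991) (O ph992)) (O (O ph993))))))))

def ph995 : PT := (O (O (N (O (O (N (O (O (N (O (O (N (L 7454) (L 6528)))) (L 7454)))) (N (L 8900) (L 8900))))) (O (N (L 11723) (L 11723))))))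

def ph996 : PT := (N (O (N (O (O (O (N (L 11954) (L 7676))))) (O (O (N (L 11947) (L 11093)))))) (L 11082))

def ph997 : PT := (O (N (O (O (N (L 9546) (N (L 8977) (O (O (N (L 9546) (L 7142)))))))) (O (N (O (O (N (L 13805) (L 13805)))) (L 13805)))))

def ph998 : PT := (N (N (O (O (N (O (O (N (O (O (N (L 10261) (N (L 10261) (L 4851))))) (L 11416)))) (N (L 11416) (L 10630))))) (L 12389)) (O (O (N (L 7268) (L 8391)))))

def ph999 : PT := (N (O (O (N (L 4450) (L 11748)))) (O (O (N (L 11373) (L 10445)))))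

def ph1000 : PT := (O (O (N (L 10070) (O (N (O (O (N (O (O (N (L 7345) (L 6484)))) (L 7345)))) (L 6427))))))

def ph1001 : PT := (O (N (N (O (O (N (L 10972) (N (L 10972) (O (O (N (L 10972) (L 10571)))))))) (O (O (O (O (N (L 10972) (L 10183))))))) (O (O (O (O (N (N (L 14912) (L 14912)) (L 14912))))))))

def ph1002 : PT := (O (O (N (N (L 12429) (O (N (O (O (N (O (O (N (L 8013) (L 7152)))) (L 8013)))) (L 12429)))) (O (O (N (L 9821) (O (O (N (L 11325) (L 10321))))))))))

def ph1003 : PT := (O (N (O (N (N (O (O (N ph995 ph996))) (O (O (O ph997)))) (O (O (N (O ph998) (O (O (O (N (L 11990) (O (N (L 12029) (L 12112)))))))))))) (O (O (N (N (O (O ph999)) (O (N ph1000 (L 10909)))) (O (O (N ph1001 ph1002))))))))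

def ph1004 : PT := (O (N (O (O (N (O (O ph951)) (O (N ph956 ph965))))) (N (O (N (O (O ph974)) (O (O ph986)))) (O (O (N (O ph994) (O ph1003)))))))

def ph1005 : PT := (N (O (O (N (O (O (N (L 14182) (L 13687)))) (L 14182)))) (O (N (O (O (O (O (N (L 11169) (N (L 11169) (L 11169))))))) (N (L 12674) (O (O (N (N (L 12227) (L 12227)) (L 13066))))))))

def ph1006 : PT := (N (O (O (O (N (L 12573) (N (L 12573) (L 12573)))))) (O (O (N (O (N (N (L 13352) (O (O (O (O (N (L 9748) (L 12277))))))) (L 13352))) (O (O (N (N (L 11086) (L 12262)) (L 12185))))))))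

def ph1007 : PT := (O (N (O (O (N (O (O (N (L 8248) (L 11585)))) (L 12200)))) (O (O (N (L 12284) (O (O (N (N (L 12502) (L 11450)) (L 12502)))))))))

def ph1008 : PT := (N (N (O (O (N (L 11025) (L 11025)))) (O (N (L 11540) (L 11038)))) (O (O (N (O (N (N (L 8358) (L 8358)) (L 8358))) (O (O (N (N (L 6183) (L 5507)) (L 6183))))))))

def ph1009 : PT := (O (O (N (O (O (N (O (O ph1005)) (N (O ph1006) (O ph1007))))) (O (O (N (L 11172) (O (O ph1008))))))))

def ph1010 : PT := (O (N (O (O (O (O (O (N (L 14083) (L 14083))))))) (O (N (O (O (N (L 13299) (L 13299)))) (N (L 11109) (O (O (N (N (L 11109) (O (N (L 7046) (L 11109)))) (L 11109)))))))))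

def ph1011 : PT := (N (O (O (N (O (O (N (L 11741) (O (N (O (O (N (L 7931) (L 11741)))) (L 11741)))))) (L 11318)))) (O (O (O (O (N (O (O (N (L 12305) (L 12305)))) (L 12305)))))))

def ph1012 : PT := (O (O (N (O (N (N (L 11151) (O (O (O (O (N (L 10067) (L 10067))))))) (O (O (N (L 12885) (L 12885)))))) (O (O (N (N (L 12129) (L 12129)) (L 13228)))))))

def ph1013 : PT := (N (N (O (O (N (L 13872) (L 13005)))) (O (N (O (O (N (O (O (N (L 7582) (N (L 4647) (L 7582))))) (L 7584)))) (L 8199)))) (L 12663))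

def ph1014 : PT := (O (N (O (O (N (O (O (N (L 14795) (L 13663)))) (L 14007)))) (O (N (O (O (N (L 11426) (O (N (L 7302) (L 7725)))))) (N (L 11824) (L 10985))))))

def ph1015 : PT := (O (O (N (N (L 10032) (O (N (O (O (N (O (O (N (L 10032) (L 8137)))) (L 8948)))) (L 10032)))) (L 14645))))

def ph1016 : PT := (N (N (L 11926) (O (O (O (O (N (L 9717) (L 11270))))))) (O (O (N (O (N (L 14184) (L 14976))) (L 14068)))))

def ph1017 : PT := (O (N (N (O (O (N (L 8859) (L 8859)))) (O (N (L 8436) (L 8020)))) (O (O (N (L 12023) (O (O (N (N (L 9540) (O (N (O (O (N (O (O (N (L 8986) (L 5124)))) (L 8456)))) (L 9540)))) (L 9540)))))))))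

def ph1018 : PT := (N (O (N (O (O (O (N (O ph1010) (N (O (N (L 12321) (L 12813))) (O (O (N (L 7200) (O (O (N (L 10380) (L 10774)))))))))))) (O (O (N (O (N ph1011 ph1012)) (O (O ph1013))))))) (O (O (N (O (O (N (O ph1014) (O ph1015)))) (O (O (N (O ph1016) (O ph1017))))))))

def ph1019 : PT := (O (O (N (O (O (N (O (O (N (L 14468) (L 14954)))) (O (N (O (O (N (L 13352) (O (N (O (O (N (L 11455) (L 12954)))) (L 13352)))))) (L 13352)))))) (L 14505))))

def ph1020 : PT := (O (O (O (N (L 12848) (N (L 10437) (O (O (N (L 8950) (L 11010)))))))))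

def ph1021 : PT := (O (O (N (L 12384) (O (O (N (N (L 12856) (L 11804)) (L 12856)))))))

def ph1022 : PT := (N (O (O (N (O (O (N (L 14065) (O (N (O (O (N (L 9115) (L 8717)))) (L 9115)))))) (O (O (O (N (N (L 13226) (L 13226)) (L 14065)))))))) (O (O (N (O (N (N (L 11098) (L 9841)) (L 11661))) (O (O (N (N (L 9804) (O (N (L 6149) (L 9804)))) (L 11317))))))))

def ph1023 : PT := (O (N (O (O (O (O (O (N (L 13550) (L 14350))))))) (N (O (N (O (O (O (N (L 10856) (L 10856))))) (L 10856))) (O (O (N (O (O (N (L 9304) (L 11044)))) (L 11044)))))))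

def ph1024 : PT := (N (O (O (N (L 10998) (L 10600)))) (N (L 15097) (O (O (N (L 15097) (L 14839))))))

def ph1025 : PT := (O (N (L 14922) (O (O (N (N (L 15316) (O (N (O (O (N (L 13819) (O (N (L 9295) (L 12735)))))) (L 13819)))) (O (O (N (L 15316) (L 15316)))))))))

def ph1026 : PT := (N (O (O (N (O (O (N (L 9772) (O (N (O (O (N (L 9772) (L 8169)))) (L 9772)))))) (L 10492)))) (O (N (O (O (O (O (O (N (L 14287) (L 14287))))))) (O (O (O (N (N (L 11209) (O (N (L 7303) (L 11209)))) (L 11209))))))))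

def ph1027 : PT := (O (O (N (O (N (N (L 13627) (O (O (O (O (N (L 13627) (L 11341))))))) (L 13627))) (L 12451))))

def ph1028 : PT := (O (N (O (O (N (O (O (O ph1019))) (N (O (N ph1020 ph1021)) (O (O ph1022)))))) (O (N (O (O (N (O ph1023) (O ph1024)))) (N (O (O (O ph1025))) (O (O (N ph1026 ph1027))))))))

def ph1029 : PT := (O (O (N (O (O (N (O (O (N (L 16007) (L 16007)))) (L 15487)))) (N (L 13568) (O (O (N (L 10260) (L 14141))))))))

def ph1030 : PT := (O (N (O (N (N (O (O (N (L 15775) (L 16007)))) (L 16007)) (L 16007))) (L 15373)))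

def ph1031 : PT := (N (O (O (N (O (O (N (L 13421) (O (N (L 12289) (L 12289)))))) (L 12906)))) (O (N (O (O (N (L 12842) (O (N (L 6731) (L 13376)))))) (O (O (O (N (N (L 12537) (L 12537)) (L 12919))))))))

def ph1032 : PT := (O (O (N (O (O (N (O (O (N (L 13657) (L 12400)))) (L 12400)))) (O (O (N (N (L 10578) (O (N (O (O (N (L 10578) (O (N (L 9494) (L 9494)))))) (L 10578)))) (L 10578)))))))

def ph1033 : PT := (O (O (O (O (N (O (N (N ph1029 (L 11377)) (O ph1030))) (O (O (N ph1031 ph1032))))))))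

def ph1034 : PT := (O (N (O (O (N (O (O (N (L 13046) (L 11914)))) (L 12258)))) (O (N (O (O (N (L 12070) (O (N (L 5180) (L 11342)))))) (N (L 12070) (L 11231))))))

def ph1035 : PT := (O (N (O (O (O (N (L 7330) (L 9020))))) (O (O (N (O (N (N (L 10326) (L 9242)) (L 10326))) (L 9150))))))

def ph1036 : PT := (O (N (N (L 9439) (O (N (O (O (N (L 4954) (O (N (L 3180) (L 4954)))))) (L 5279)))) (O (O (N (L 8268) (O (O (N (N (L 8662) (L 6507)) (L 8662)))))))))

def ph1037 : PT := (N (O (O (N (O (O (N (L 12219) (O (N (L 11087) (L 11087)))))) (L 11431)))) (O (O (O (O (N (O (O (N (L 12485) (L 13019)))) (O (N (O (O (N (L 5465) (L 5067)))) (L 5465)))))))))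

def ph1038 : PT := (O (O (N (O (N (N (L 9338) (L 9338)) (L 10595))) (O (O (O (N (L 10332) (O (N (O (O (N (L 7623) (L 6539)))) (L 7623))))))))))

def ph1039 : PT := (N (N (O (O (N (O (O (N (L 8642) (O (N (O (O (N (L 7922) (L 5986)))) (L 7922)))))) (L 8642)))) (O (N (O (O (N (L 11068) (L 11068)))) (L 10765)))) (O (O (N (O (N (N (L 11998) (O (O (O (O (N (L 11998) (L 9517))))))) (L 11998))) (O (O (N (N (L 10822) (L 11998)) (L 10822))))))))

def ph1040 : PT := (O (O (N (N (O (O (N (O ph1034) (O ph1035)))) (O (N (O (O (O (O (O (N (L 9377) (N (L 9377) (L 9377)))))))) (O (O ph1036))))) (O (O (N (O (N ph1037 ph1038)) (O (O ph1039))))))))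

def ph1041 : PT := (N (O (O (N (O (O (N (L 7257) (L 7257)))) (L 10159)))) (O (N (L 9701) (L 9701))))

def ph1042 : PT := (O (N (O (O (N (O (O (N (L 5507) (L 5507)))) (L 8433)))) (L 7329)))

def ph1043 : PT := (O (N (L 9535) (N (L 14257) (O (O (N (N (L 9535) (L 9535)) (L 9535)))))))

def ph1044 : PT := (O (N (N (O (O (N (O (O ph1041)) (N (O (O (O (O (O (N (L 10757) (N (L 10757) (L 10757)))))))) (O ph1042))))) (O (O (O (O (N (L 10263) ph1043)))))) (O (O (N (O (N (N (O (O (N (L 7025) (N (L 8545) (L 8545))))) (L 9387)) (O (O (N (L 9779) (L 9779)))))) (O (O (N (L 10757) (O (O (O (O (O (N (L 10757) (L 10757)))))))))))))))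

def ph1045 : PT := (O (N (O (O (N (L 8785) (L 8785)))) (O (N (O (O (N (L 9053) (L 9053)))) (N (L 3539) (L 9053))))))

def ph1046 : PT := (N (O (O (N (O (O (N (L 10672) (L 10672)))) (L 9833)))) (O (N (O (O (N (O (O (N (L 2777) (L 2777)))) (L 2777)))) (L 4561))))

def ph1047 : PT := (N (O (O (N (O (O (N (L 10757) (L 10757)))) (L 10230)))) (L 9560))

def ph1048 : PT := (N (N (O (O (N (L 7823) (L 7823)))) (O (N (O (O (N (L 4698) (L 4698)))) (L 8408)))) (L 7304))

def ph1049 : PT := (O (O (N (N (O (O (N (O ph1045) (O (O (N (L 10023) (L 9836))))))) (O (N (O (O ph1046)) (O (O (O (N (N (L 10367) (L 9199)) (L 10749)))))))) (O (O (N (O (O ph1047)) (O (O ph1048))))))))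

def ph1050 : PT := (O (O (N (L 10801) (O (N (L 8129) (N (L 8129) (O (O (N (N (L 7839) (L 8129)) (L 8129))))))))))

def ph1051 : PT := (O (N (O (O (O (N (L 13802) (L 13014))))) (O (N (O (O (N (L 6638) (O (N (L 6638) (N (L 6638) (O (O (N (L 6164) (L 6638)))))))))) (N (L 12857) (O (O (N (L 12857) (L 12857)))))))))

def ph1052 : PT := (O (O (N (N (L 12089) (O (N (L 11005) (O (O (O (N (N (L 8364) (L 11232)) (L 11620)))))))) (O (O (N (L 12834) (L 12062)))))))

def ph1053 : PT := (N (O (O (N (L 6918) (O (N (L 6918) (L 6918)))))) (N (O (N (L 11022) (L 11022))) (O (O (N (O (O (N (L 10253) (L 7321)))) (L 10253))))))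

def ph1054 : PT := (O (N (N (O (O (N (L 12755) (L 12879)))) (O (O (O (O (N (L 7315) (O (N (L 7315) (N (L 7315) (O (O (N (L 5878) (L 7315))))))))))))) (O (O (N (O (N (N (L 12613) (L 12613)) (L 13007))) (O (O (N (N (L 8916) (L 8042)) (L 8916)))))))))

def ph1055 : PT := (O (N (O (O (N (O (O (N ph1050 (N (L 11206) (L 10897))))) (O (N (O ph1051) (N (O (O (O (O (N (L 12538) (L 12538)))))) ph1052)))))) (O (O (N (O (O (O ph1053))) (O (O (N ph1054 (O (O (N (N (L 11644) (L 10113)) (L 10588))))))))))))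

def ph1056 : PT := (O (N (O (O (N (L 8987) (N (L 8987) (O (O (N (L 8987) (L 8987)))))))) (O (O (N (L 10138) (L 9299))))))

def ph1057 : PT := (O (N (O (O (O (N (O (O (N (L 4340) (L 3312)))) (L 4340))))) (O (O (N (L 3797) (O (O (N (N (L 4340) (L 4340)) (L 4340)))))))))

def ph1058 : PT := (N (O (O (N (L 7288) (L 7288)))) (O (N (O (O (N (L 8508) (L 8508)))) (N (L 8212) (O (O (N (N (L 7807) (O (N (L 7807) (N (L 7807) (L 3941))))) (L 7807))))))))

def ph1059 : PT := (O (O (O (N (O (N (N (L 5820) (L 5820)) (L 5820))) (L 5820)))))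

def ph1060 : PT := (N (O (O (N (L 6898) (O (N (L 4815) (N (L 4815) (O (O (N (L 4815) (L 4815)))))))))) (L 6541))

def ph1061 : PT := (O (O (N (O (O (N (L 6398) (N (L 6398) (L 6398))))) (O (N (O (O (N (L 4735) (O (N (L 4735) (N (L 4735) (L 3757))))))) (L 4735))))))

def ph1062 : PT := (O (O (O (N (N (L 7562) (O (N (L 7562) (L 4165)))) (L 7562)))))

def ph1063 : PT := (N (O (O (N (O (O (N (O ph1056) (N ph1057 (O (O (N (L 4697) (O (O (N (L 6258) (L 6966))))))))))) (O (N (O (O ph1058)) (O (O ph1059))))))) (O (O (O (N (N (O (O ph1060)) (O (N ph1061 ph1062))) (O (O (N (O (N (N (L 9501) (L 8640)) (O (O (N (L 9252) (L 8672)))))) (O (O (N (L 8791) (L 8306))))))))))))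

def ph1064 : PT := (O (N (O (O (N (L 9195) (N (L 7864) (L 8731))))) (O (N (L 6032) (N (L 6430) (O (O (N (L 6430) (L 3378)))))))))

def ph1065 : PT := (O (N (O (O (O (N (L 7611) (L 8743))))) (O (O (N (L 8743) (O (O (N (N (L 8743) (L 7017)) (L 8743)))))))))

def ph1066 : PT := (O (O (N (L 11263) (O (O (N (L 11450) (O (O (N (L 11450) (L 10274))))))))))

def ph1067 : PT := (N (O (O (N (O (O (N (L 11747) (L 10615)))) (N (L 11747) (L 10959))))) (O (N (O (O (N (L 4576) (L 4458)))) (N (O (O (O (O (N (L 6948) (L 7340)))))) (O (O (N (N (L 6501) (L 6501)) (L 7340))))))))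

def ph1068 : PT := (N (O (O (N (O (O (N (L 10333) (L 10333)))) (N (O (N (L 9466) (L 10333))) (O (O (N (O (O (N (L 7790) (N (L 7790) (L 7120))))) (L 7790)))))))) (L 9751))

def ph1069 : PT := (O (O (N (L 11414) (O (O (N (N (L 10642) (L 10167)) (L 10642)))))))

def ph1070 : PT := (O (N (L 11622) (O (N (O (O (N (L 6582) (O (N (L 6582) (N (L 6582) (L 5930))))))) (O (O (O (N (N (L 8659) (L 8659)) (L 9498)))))))))

def ph1071 : PT := (O (O (N (O (O (N (L 9374) (N (L 8535) (L 8535))))) (O (N (O (O (N (L 4886) (O (N (L 4886) (N (L 4886) (L 2809))))))) (L 7815))))))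

def ph1072 : PT := (O (N (O (O (N (O (O (N (L 5268) (O (N (L 5268) (N (L 5268) (L 2809))))))) (L 9329)))) (O (N (O (O (N (L 9550) (O (N (L 10206) (L 9550)))))) (N (L 10206) (L 10206))))))

def ph1073 : PT := (N (N (O (O (N (L 11921) (L 11465)))) (O (O (O (O (N (L 11090) (O (N (L 11090) (N (L 10362) (O (O (N (L 4512) (L 4254))))))))))))) (O (O (O (O (N (N (L 11527) (L 11527)) (L 11527)))))))

def ph1074 : PT := (O (N (N (O (O (N (L 3869) (L 4127)))) (O (N (L 10386) (L 9852)))) (L 10148)))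

def ph1075 : PT := (N (O (N (N (O (O (N (O ph1064) (N ph1065 ph1066)))) (O (O (O (O ph1067))))) (O (O (N (O (N ph1068 ph1069)) (O (O ph1070))))))) (O (O (N (N (O (O (N ph1071 (L 8507)))) (O (N (O ph1072) (O (O (O (O (N (L 7379) (L 6651))))))))) (O (O (N (O ph1073) (O ph1074))))))))

def ph1076 : PT := (N (O (O (N (O (O (N ph1009 ph1018))) (O (N (O ph1028) (N ph1033 ph1040)))))) (N (O (O (O (O (N ph1044 ph1049))))) (O (O (N (N (O ph1055) (O ph1063)) (O (O ph1075)))))))

def ph1077 : PT := (N (O (O (N (O (O (N (L 12918) (O (N (L 12233) (L 12233)))))) (N (L 10406) (O (O (N (L 10406) (O (O (N (O (N (L 5086) (L 5667))) (L 10406))))))))))) (O (N (O (O (O (O (N (L 12540) (N (L 12540) (L 12540))))))) (N (L 6307) (O (O (N (N (L 8165) (L 8165)) (L 8165))))))))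

def ph1078 : PT := (N (L 10504) (O (O (N (O (N (N (L 12111) (L 12111)) (O (O (N (L 12111) (L 12111)))))) (O (O (N (N (L 8899) (L 8899)) (L 5987))))))))

def ph1079 : PT := (O (N (O (O (N (L 9097) (L 9511)))) (O (O (N (O (N (N (L 9232) (L 9232)) (L 6394))) (L 8250))))))

def ph1080 : PT := (O (N (L 13761) (N (L 14257) (O (O (N (N (L 14257) (L 14257)) (L 14257)))))))

def ph1081 : PT := (O (O (N (O (N (N (O (O (N (L 12054) (L 12054)))) (L 12054)) (O (O (N (L 7575) (L 12054)))))) (O (O (N (N (L 14079) (L 14079)) (L 14079)))))))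

def ph1082 : PT := (N (N (L 14257) (O (N (O (O (N (L 14257) (L 14257)))) (L 14257)))) (O (O (N (L 8167) (L 12234)))))

def ph1083 : PT := (O (O (N (O (O (N (O (O ph1077)) (N (O ph1078) (O ph1079))))) (O (N (O (O (N (O (O (O (N (O (N (L 10907) (L 8028))) (L 10490))))) ph1080))) (N (O (O ph1081)) (O (O ph1082))))))))

def ph1084 : PT := (O (N (O (O (N (L 10344) (L 8503)))) (O (N (O (O (N (L 11804) (L 11804)))) (L 12518)))))

def ph1085 : PT := (O (N (O (O (O (N (L 6708) (L 6708))))) (O (O (N (L 6127) (L 6149))))))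

def ph1086 : PT := (O (O (N (O (O (N (L 12658) (L 12658)))) (O (O (N (L 4712) (L 8825)))))))

def ph1087 : PT := (O (O (N (O (N (N (O (O (N (L 9007) (L 9007)))) (L 9007)) (L 9007))) (L 9007))))

def ph1088 : PT := (N (N (O (O (N (L 10008) (L 11375)))) (O (N (O (O (N (L 6172) (L 6172)))) (O (O (O (N (L 6172) (O (O (N (O (N (N (O (O (N (L 5591) (L 4025)))) (L 5591)) (L 6172))) (L 6172))))))))))) (O (O (N (O (O (N (L 12040) (L 12040)))) (L 11569)))))

def ph1089 : PT := (O (N (O (O (N (O (O (N (L 12980) (L 12980)))) (N (L 12980) (L 12980))))) (O (N (O (O (N (L 14075) (L 14075)))) (L 9007)))))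

def ph1090 : PT := (O (O (N (N (O (O (N (L 10665) (L 10665)))) (L 10665)) (O (O (N (L 9007) (L 10312)))))))

def ph1091 : PT := (N (N (O (O (N (O (O (N (L 11665) (L 11665)))) (L 12485)))) (O (O (O (O (N (L 11904) (L 11904))))))) (O (O (N (O (N (N (L 9985) (L 9985)) (L 5705))) (L 9003)))))

def ph1092 : PT := (O (N (N (L 12240) (O (N (L 12240) (L 12240)))) (O (O (N (O (N (L 5800) (L 11313))) (O (O (N (N (L 11123) (L 11123)) (L 11123)))))))))

def ph1093 : PT := (N (O (N (O (O (O (N (O ph1084) (N ph1085 ph1086))))) (O (O (N (O (N (L 16007) ph1087)) (O (O ph1088))))))) (O (O (N (O (O (N (O ph1089) (O ph1090)))) (O (O (N (O ph1091) (O ph1092))))))))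

def ph1094 : PT := (O (O (N (O (O (N (O (O (N (L 11764) (L 11764)))) (L 11764)))) (N (O (N (L 9881) (L 9457))) (O (O (N (L 12573) (L 12990))))))))

def ph1095 : PT := (O (O (N (L 14257) (O (O (N (N (L 14257) (L 14257)) (O (O (N (L 14257) (L 14257))))))))))

def ph1096 : PT := (O (O (N (O (N (L 14257) (O (O (N (O (N (L 7474) (L 8993))) (L 8993)))))) (L 14257))))

def ph1097 : PT := (N (L 14126) (O (O (N (O (N (L 6927) (L 11997))) (O (O (N (N (L 13885) (L 13885)) (L 13885))))))))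

def ph1098 : PT := (N (L 14257) (N (L 13689) (O (O (N (N (L 14257) (L 14257)) (O (O (N (L 8200) (L 14257)))))))))

def ph1099 : PT := (O (N (O (N (O (O (O (N (L 12228) (L 12228))))) (L 12228))) (O (O (N (N (L 12652) (O (N (L 12652) (L 12652)))) (L 12652))))))

def ph1100 : PT := (N (O (O (N (O (O (N (L 9334) (L 9334)))) (O (O (N (L 10560) (L 6720))))))) (O (O (O (O (O (N (N (L 11930) (L 11930)) (L 11930))))))))

def ph1101 : PT := (O (O (N (O (N (N (O (O (N (L 9215) (L 9215)))) (L 9215)) (L 9215))) (O (O (N (N (L 9991) (L 9991)) (O (O (N (O (N (L 7790) (L 9991))) (L 9991))))))))))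

def ph1102 : PT := (O (N (O (O (N (O (O (N ph1094 ph1095))) (N (O (N (O (O (O (N (O (O (N (L 14257) (L 14257)))) (L 13527))))) ph1096)) (O (O ph1097)))))) (O (N (O (O (N (O (O (N (L 13132) (N (L 12872) (L 12132))))) (O ph1098)))) (N (O (O (O ph1099))) (O (O (N ph1100 ph1101))))))))

def ph1103 : PT := (O (O (N (O (O (N (L 9145) (L 7990)))) (N (O (N (L 9145) (O (O (N (L 9145) (L 9145)))))) (L 4961)))))

def ph1104 : PT := (O (N (O (O (N (L 11246) (L 11246)))) (N (O (O (O (O (N (O (N (L 10822) (L 6799))) (L 11246)))))) (O (O (N (N (L 10423) (L 10423)) (L 10423)))))))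

def ph1105 : PT := (O (O (O (N (O (O (N (L 9725) (O (N (L 10951) (L 10951)))))) (N (L 5286) (O (O (N (L 10534) (L 10534)))))))))

def ph1106 : PT := (O (O (O (O (O (N (N (L 12775) (O (N (L 12775) (L 12775)))) (L 12775)))))))

def ph1107 : PT := (N (O (O (N (O (O (N (L 11916) (O (N (L 11916) (L 11916)))))) (O (O (O (N (L 5879) (L 5041)))))))) (O (O (N (O (N (L 8827) (L 4200))) (L 7845)))))

def ph1108 : PT := (O (N (O (O (N (L 11200) (L 11200)))) (N (L 9217) (L 11440))))

def ph1109 : PT := (O (N (L 8883) (N (O (N (O (O (O (N (L 8883) (L 8883))))) (L 8883))) (O (O (N (L 8883) (L 3134)))))))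

def ph1110 : PT := (N (O (N (N (O (O (N (L 7778) (L 7778)))) (L 7778)) (L 3492))) (L 9776))

def ph1111 : PT := (O (O (N (O (O (N (O (O (N (L 11149) (L 11149)))) (L 11149)))) (O (O (N (L 8065) (L 3312)))))))

def ph1112 : PT := (N (N (O (O (N (O (O (N ph1103 ph1104))) (N (O (N ph1105 ph1106)) (O (O ph1107)))))) (O (O (O (O (N (O ph1108) (L 10551))))))) (O (O (N (O (N (N (O ph1109) (L 10166)) (O (O ph1110)))) (O (O (N (N ph1111 (L 10762)) (O (O (O (O (O (N (L 10477) (L 8062))))))))))))))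

def ph1113 : PT := (N (O (O (N (O (O (N (L 8662) (L 9888)))) (N (L 6506) (O (O (N (L 6513) (L 6513)))))))) (O (N (O (O (N (L 11794) (L 11794)))) (L 10838))))

def ph1114 : PT := (N (O (O (O (N (L 10639) (L 10639))))) (O (O (N (O (N (N (L 7764) (L 7764)) (L 4772))) (L 6782)))))

def ph1115 : PT := (O (O (N (L 8132) (N (O (N (L 8639) (O (O (N (L 8639) (L 8639)))))) (L 7899)))))

def ph1116 : PT := (O (N (L 9406) (N (O (O (O (O (N (L 5927) (L 5927)))))) (L 6979))))

def ph1117 : PT := (N (N (O (O (N (L 6864) (O (O (N (L 8090) (O (O (N (L 2533) (L 8090)))))))))) (O (N (O (O (N (L 9449) (L 9449)))) (L 10077)))) (O (O (N (O (N (N (L 10874) (L 10874)) (L 10874))) (L 10457)))))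

def ph1118 : PT := (O (O (N (O (N (L 7983) (L 7179))) (O (O (N (N (L 7983) (L 7983)) (L 7983)))))))

def ph1119 : PT := (O (N (N (O (O (N (O (O ph1113)) (O (O ph1114))))) (O (N (O (O (N ph1115 ph1116))) (O (O (O ph1117)))))) (O (O (N (L 16007) (O (O (N (N (L 9887) (L 9526)) ph1118))))))))

def ph1120 : PT := (O (N (O (O (N (L 9265) (N (L 7043) (L 10491))))) (O (N (O (O (O (O (N (L 10656) (L 10656)))))) (N (L 10656) (L 10656))))))

def ph1121 : PT := (O (N (L 12097) (O (O (N (O (N (N (L 12097) (L 12097)) (L 5700))) (L 11115))))))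

def ph1122 : PT := (O (O (N (L 8660) (O (O (N (L 8660) (O (O (N (N (L 6195) (L 7983)) (L 8660))))))))))

def ph1123 : PT := (N (O (O (O (N (O (N (L 13750) (L 13750))) (O (O (N (N (L 11790) (L 11790)) (L 11790)))))))) (O (N (L 10757) (N (L 10757) (O (O (N (L 10757) (L 7636))))))))

def ph1124 : PT := (O (O (O (N (L 12455) (O (O (N (N (L 8725) (L 12879)) (L 12879))))))))

def ph1125 : PT := (O (N (N (L 13011) (L 12383)) (O (O (N (L 8767) (O (O (N (L 9543) (L 7050)))))))))

def ph1126 : PT := (N (O (N (O (O (O (N (L 11705) (L 11705))))) (O (O (N (O (N (L 10756) (L 10756))) (L 6693)))))) (L 11868))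

def ph1127 : PT := (N (N (O (O (N (L 12270) (L 13090)))) (O (O (O (O (N (L 13090) (L 13090))))))) (O (O (N (O (N (N (L 11331) (L 11331)) (L 5655))) (L 10349)))))

def ph1128 : PT := (O (N (N (L 11227) (L 11227)) (O (O (N (O (O (N (L 10065) (L 9484)))) (O (O (N (L 5567) (L 10065)))))))))

def ph1129 : PT := (N (O (O (N (O (O (N (O ph1120) (N ph1121 ph1122)))) (O (N (O (O ph1123)) (N (O ph1124) (O ph1125))))))) (O (O (N (O (O (O (N (O (O (N (L 14257) (O (N (L 14257) (L 14257)))))) ph1126)))) (O (O (N (O ph1127) (O ph1128))))))))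

def ph1130 : PT := (N (O (O (N (O (O (N (L 14257) (L 14257)))) (N (L 13303) (L 14257))))) (O (O (N (L 10503) (O (O (N (N (L 10503) (L 10503)) (L 7460))))))))

def ph1131 : PT := (N (O (O (O (N (L 10763) (L 10763))))) (O (O (N (O (N (N (L 10314) (L 10314)) (L 10314))) (O (O (N (L 8839) (L 8839))))))))

def ph1132 : PT := (O (N (L 9865) (O (O (N (O (N (N (L 9411) (L 9411)) (L 10187))) (O (O (N (L 10187) (L 7227)))))))))

def ph1133 : PT := (O (O (N (O (O (O (O (O (N (L 12021) (L 12021))))))) (N (O (N (L 10811) (L 10811))) (O (O (N (L 10811) (L 4166))))))))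

def ph1134 : PT := (O (N (L 11693) (N (O (O (O (O (N (L 11693) (L 6985)))))) (O (O (N (N (L 10870) (L 10870)) (L 10870)))))))

def ph1135 : PT := (O (O (N (O (N (N (O (O (N (L 12949) (L 12949)))) (L 12949)) (L 12949))) (O (O (N (N (L 7894) (O (N (L 7894) (L 7894)))) (O (O (N (L 7894) (L 4596))))))))))

def ph1136 : PT := (N (O (O (O (N (L 12426) (L 12426))))) (O (O (N (O (N (L 10589) (L 6351))) (O (O (N (N (L 13616) (L 13616)) (L 13616))))))))

def ph1137 : PT := (O (O (N (O (O (N (O (O ph1130)) (N (O ph1131) (O ph1132))))) (O (N (O (O (N ph1133 ph1134))) (N (O (O ph1135)) (O (O ph1136))))))))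

def ph1138 : PT := (O (N (L 14257) (O (N (O (O (N (L 14257) (L 14257)))) (L 14257)))))

def ph1139 : PT := (N (N (O (O (N (L 5488) (N (L 3757) (L 6714))))) (O (O (O (O (N (L 7526) (L 7526))))))) (O (O (N (O (N (N (L 9809) (L 9809)) (L 9809))) (L 9809)))))

def ph1140 : PT := (O (O (O (N (N (O (O (N (O (O (N (L 14257) (L 14257)))) (O (O (N (O (O (O (N (L 14257) (L 14257))))) (L 9007))))))) (O (N (O ph1138) (O (O (O (N (N (L 14257) (L 14257)) (L 14257)))))))) (O (O (N (O ph1139) (O (O (N (L 16007) (O (O (N (L 8569) (L 8569))))))))))))))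

def ph1141 : PT := (N (O (O (N (O (O (N (L 9118) (L 9118)))) (N (L 8203) (O (O (N (L 8990) (L 8990)))))))) (O (N (L 11975) (N (L 12719) (L 12719)))))

def ph1142 : PT := (N (O (O (O (N (L 13054) (L 13445))))) (O (O (N (L 12822) (O (O (N (N (L 13639) (L 13639)) (L 13639))))))))

def ph1143 : PT := (O (N (O (O (N (L 13874) (L 13874)))) (O (O (N (O (N (N (L 7836) (L 7255)) (L 7836))) (O (O (N (L 7159) (L 6375)))))))))

def ph1144 : PT := (O (N (L 13874) (N (O (O (O (O (N (L 12822) (L 12822)))))) (O (O (N (N (L 10904) (L 10904)) (L 7076)))))))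

def ph1145 : PT := (O (N (O (N (N (O (O (N (L 9007) (N (L 9007) (L 9007))))) (L 9007)) (L 9007))) (O (O (N (N (L 5377) (L 5377)) (L 5377))))))

def ph1146 : PT := (O (N (N (O (O (N (O (O ph1141)) (N (O ph1142) (O ph1143))))) (O (O (O (O (N (O (O (N (O (O (N (L 13367) (L 13367)))) (L 13134)))) ph1144)))))) (O (O (O (O (N (N (O (O (N (L 9007) (L 9007)))) (L 9007)) (O ph1145))))))))

def ph1147 : PT := (O (N (O (O (N (L 11200) (N (L 11707) (L 11707))))) (O (N (O (O (N (L 10941) (O (N (L 10941) (L 10941)))))) (N (L 10941) (O (O (N (L 10941) (L 8295)))))))))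

def ph1148 : PT := (O (N (O (O (O (N (L 9850) (N (O (N (L 9850) (L 9850))) (L 9850)))))) (O (O (N (L 7511) (L 5154))))))

def ph1149 : PT := (N (O (O (N (O (O (N (L 9507) (O (N (L 9507) (L 9507)))))) (N (L 10662) (L 4760))))) (O (N (O (O (N (O (O (N (L 13782) (L 13782)))) (L 13782)))) (N (O (O (O (O (N (L 10962) (O (O (N (L 10962) (L 7626))))))))) (L 10139)))))

def ph1150 : PT := (O (N (N (L 14257) (O (N (L 14257) (L 14257)))) (O (O (O (O (N (N (L 14257) (L 14257)) (L 14257))))))))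

def ph1151 : PT := (O (O (O (O (N (L 12639) (O (O (N (L 12639) (O (O (N (L 12639) (L 8196))))))))))))

def ph1152 : PT := (N (N (L 14257) (O (N (O (O (N (L 14257) (L 14257)))) (L 14227)))) (O (O (N (O (N (N (L 10104) (L 10104)) (L 10685))) (O (O (N (N (L 10008) (L 10008)) (L 7082))))))))

def ph1153 : PT := (O (O (N (N (O (O (N (O ph1147) (O ph1148)))) (O (N (O (O ph1149)) (O (O ph1150))))) (O (O (N (O (N (N (O (O (N (L 14185) (N (L 13469) (L 13469))))) (L 14257)) ph1151)) (O (O ph1152))))))))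

def ph1154 : PT := (N (O (N (N (O (O (N ph1083 ph1093))) (O (O (O ph1102)))) (O (O (N (O ph1112) (O ph1119)))))) (O (O (N (N (O (O ph1129)) (O (N ph1137 ph1140))) (O (O (N ph1146 ph1153)))))))

def ph1155 : PT := (O (O (N (O (O (N (O (O (N (L 10582) (L 9372)))) (L 10023)))) (L 10582))))

def ph1156 : PT := (N (O (N (O (O (O (N (L 8016) (L 8016))))) (O (O (N (O (N (N (L 6759) (L 6759)) (L 7603))) (L 5959)))))) (O (O (N (L 10590) (O (O (N (O (N (N (O (O (N (O (O (N (O (O (N (O (O (N (L 4053) (L 5366)))) (L 5366)))) (L 5366)))) (L 5366)))) (L 5366)) (L 6226))) (L 10965))))))))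

def ph1157 : PT := (O (O (O (N (O (O (N (L 12589) (L 12589)))) (N (L 12589) (O (O (N (N (L 12151) (L 12151)) (L 12589)))))))))

def ph1158 : PT := (O (O (O (O (N (O (N (N (O (O (N (O (O (N (O (O (N (O (O (N (L 5581) (L 5287)))) (L 6894)))) (L 7292)))) (L 7571)))) (L 7571)) (L 7571))) (L 6527))))))

def ph1159 : PT := (O (O (N (N (L 4831) (O (N (O (O (N (L 9429) (L 9429)))) (L 9429)))) (L 9429))))

def ph1160 : PT := (O (N (N (O (O (N (O (O (N (L 9439) (L 10752)))) (L 10752)))) (L 10752)) (O (O (N (O (N (N (L 5690) (L 5690)) (L 6534))) (O (O (N (N (L 4112) (L 6534)) (L 6534)))))))))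

def ph1161 : PT := (O (O (N (N (L 9628) (L 9628)) (O (O (N (L 4510) (L 3466)))))))

def ph1162 : PT := (N (O (N (N (O (O (N (L 9062) (L 9062)))) (L 9764)) (O (O (N (O (N (N (O (O (N (O (O (N (O (O (N (L 3802) (N (L 3802) (O (O (N (L 3094) (L 3291)))))))) (L 3802)))) (L 3802)))) (L 3802)) (L 3802))) (L 5882)))))) (O (O (N (N (L 3541) (O (N (L 7699) (L 7699)))) (L 8128)))))

def ph1163 : PT := (O (N (O (O (N (O (O (N ph1155 ph1156))) (O (N (O ph1157) (N ph1158 ph1159)))))) (N (O (N (O (O (O (O (N (L 9415) (L 9415)))))) (O (O (N ph1160 ph1161))))) (O (O (N (L 7663) (O (O ph1162))))))))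

def ph1164 : PT := (O (N (O (O (O (N (L 12594) (L 10500))))) (O (O (N (O (N (N (O (O (N (O (O (N (L 9158) (O (N (O (O (N (L 7985) (L 8908)))) (L 9158)))))) (L 9158)))) (L 9158)) (L 9715))) (L 8671))))))

def ph1165 : PT := (O (O (N (O (O (N (L 12177) (L 12177)))) (O (O (N (L 12177) (L 12177)))))))

def ph1166 : PT := (N (O (O (N (L 10422) (N (L 10422) (L 9759))))) (O (N (O (O (N (L 11642) (L 11642)))) (N (L 8580) (O (O (N (N (L 7682) (L 9309)) (L 9309))))))))

def ph1167 : PT := (O (N (N (O (O (N (O (O (N (L 12417) (L 12417)))) (O (O (N (L 5045) (L 9523))))))) (O (N (L 12417) (L 11925)))) (O (O (N (O (N (N (L 9140) (L 9140)) (L 9741))) (O (O (N (N (L 7993) (L 9741)) (L 9741)))))))))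

def ph1168 : PT := (N (N (O (O (N (L 14113) (N (L 12019) (L 13411))))) (L 13648)) (O (O (N (L 7137) (O (O (N (N (L 13069) (L 13069)) (L 13595))))))))

def ph1169 : PT := (O (N (N (O (O (N (L 8130) (L 8896)))) (O (N (L 14993) (L 14235)))) (O (O (N (O (O (N (L 13616) (L 13616)))) (L 13616))))))

def ph1170 : PT := (N (O (O (N (O (O (N (L 14314) (L 14314)))) (L 14314)))) (O (O (N (L 13714) (L 13740)))))

def ph1171 : PT := (O (O (N (O (O (N (O (O (N (L 8944) (L 10257)))) (N (L 6512) (L 9757))))) (O (O (O (O (N (L 10257) (L 10257)))))))))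

def ph1172 : PT := (O (O (O (N (N (O (O (N (O (O (N (L 9074) (L 4108)))) (L 9074)))) (L 9449)) (L 9449)))))

def ph1173 : PT := (O (N (N (O (O (N (L 2958) (L 7828)))) (L 7828)) (O (O (N (L 8612) (O (O (O (N (L 9435) (L 9435))))))))))

def ph1174 : PT := (O (O (N (L 11206) (O (O (N (O (N (N (L 8112) (L 8112)) (L 8713))) (L 6778)))))))

def ph1175 : PT := (N (O (O (N (O (O (O (N ph1164 ph1165)))) (O (N (O (O ph1166)) (N (L 11652) (O ph1167))))))) (N (O (O (O (O (N (O ph1168) (O ph1169)))))) (O (O (N (N (O (O ph1170)) (O (N ph1171 ph1172))) (O (O (N ph1173 ph1174))))))))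

def ph1176 : PT := (N (L 10294) (N (L 10849) (O (O (N (O (O (N (L 10849) (L 10849)))) (O (O (N (L 10849) (L 10849)))))))))

def ph1177 : PT := (N (O (O (O (O (N (O (N (N (L 10991) (L 9781)) (L 10991))) (L 10604)))))) (O (O (N (L 10546) (L 10390)))))

def ph1178 : PT := (O (N (O (O (N (L 6280) (L 6280)))) (N (O (N (L 4227) (O (O (N (L 7593) (L 7593)))))) (O (O (N (L 6885) (L 6885)))))))

def ph1179 : PT := (N (O (N (L 7012) (O (O (N (O (N (N (O (O (N (L 6310) (N (O (N (N (O (O (N (L 6310) (N (L 4918) (L 6310))))) (L 6310)) (L 6310))) (L 6310))))) (L 6310)) (L 6310))) (O (O (N (L 5968) (L 7012))))))))) (O (O (N (N (O (O (N (L 7034) (N (O (N (N (L 2515) (L 3723)) (L 6233))) (L 6233))))) (L 7034)) (L 7034)))))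

def ph1180 : PT := (O (N (O (O (N (L 11689) (O (N (L 11689) (L 11689)))))) (O (O (O (N (N (O (O (N (L 9964) (O (O (N (N (L 9448) (L 9520)) (L 9964))))))) (L 9964)) (L 9964)))))))

def ph1181 : PT := (O (N (O (N (N (O (O (N (L 7893) (N (O (N (N (L 5981) (L 7893)) (L 7893))) (L 7893))))) (L 7893)) (L 7893))) (O (O (N (N (L 10962) (L 10962)) (L 10962))))))

def ph1182 : PT := (O (O (N (O (O (N (O (O ph1176)) (O (N (O (O (N (L 10729) (L 7884)))) ph1177))))) (N (O (N (O (O ph1178)) (O (O ph1179)))) (O (O (N (O ph1180) (O ph1181))))))))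

def ph1183 : PT := (O (N (O (O (N (L 5546) (N (O (N (L 4586) (L 5546))) (L 4883))))) (O (N (L 5546) (L 5102)))))

def ph1184 : PT := (N (N (O (O (N (L 6605) (N (O (N (L 5432) (L 7918))) (L 7210))))) (O (O (O (O (N (L 9848) (L 9848))))))) (O (O (N (L 4828) (O (O (N (N (L 3208) (L 5672)) (L 5672))))))))

def ph1185 : PT := (O (N (N (O (O (N (L 9625) (L 8774)))) (O (N (L 6547) (L 5384)))) (L 9979)))

def ph1186 : PT := (N (O (O (N (O (O (N (L 7742) (L 7742)))) (L 7742)))) (O (O (N (L 5307) (L 8520)))))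

def ph1187 : PT := (O (O (N (O (O (N (L 7045) (N (O (N (L 7045) (L 7045))) (L 8218))))) (L 7460))))

def ph1188 : PT := (O (O (O (N (L 7648) (O (O (N (O (N (N (L 5027) (L 6071)) (L 6071))) (L 8218))))))))

def ph1189 : PT := (O (O (N (N (O (O (N (L 7662) (L 6424)))) (L 7318)) (L 10950))))

def ph1190 : PT := (O (N (O (N (N (O (O (N (O (O (N (L 6268) (O (N (L 6952) (L 6952)))))) (L 7164)))) (O (O (O ph1183)))) (O (O (N (O ph1184) (O ph1185)))))) (O (O (N (N (O (O ph1186)) (O (N ph1187 ph1188))) (O (O (N (O (O (N (O (O (N (L 10978) (L 10978)))) (L 10978)))) ph1189))))))))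

def ph1191 : PT := (O (O (N (O (O (N (L 6216) (L 5716)))) (O (N (L 6216) (L 6216))))))

def ph1192 : PT := (O (O (N (O (O (N (L 5537) (L 5537)))) (O (O (N (L 3665) (L 3665)))))))

def ph1193 : PT := (O (N (O (N (N (L 6406) (L 6406)) (L 2507))) (O (O (N (L 6406) (L 6406))))))

def ph1194 : PT := (O (O (N (O (O (N (O (O (N (L 9854) (L 8116)))) (O (N ph1191 (N (L 2507) (L 6979))))))) (O (O (O (N (N ph1192 (O (N (L 5537) (L 5537)))) (O ph1193))))))))

def ph1195 : PT := (N (O (O (N (O (O (N (L 8278) (L 8278)))) (L 8278)))) (N (O (N (L 5485) (L 5919))) (L 7024)))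

def ph1196 : PT := (O (O (N (O (O (N (L 8892) (N (L 8892) (L 8892))))) (L 8892))))

def ph1197 : PT := (N (O (N (L 3772) (L 9285))) (O (O (N (N (L 9095) (O (N (L 9095) (L 8302)))) (L 9095)))))

def ph1198 : PT := (O (O (N (O (N (N (O (O ph1195)) (O (O ph1196))) (O (O (N (O (N (N (L 6601) (L 7303)) (L 3023))) (L 6321)))))) (O (O (N (N (L 8797) (O (N (L 8681) (L 8681)))) (O (O ph1197))))))))

def ph1199 : PT := (O (O (N (O (O (N (O ph1163) (O ph1175)))) (N (O (N (O ph1182) (O ph1190))) (O (O (N ph1194 ph1198)))))))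

def ph1200 : PT := (O (N (O (O (N (O (O (N (L 12000) (L 12993)))) (L 12344)))) (O (N (L 12993) (L 12673)))))

def ph1201 : PT := (O (N (L 9898) (O (O (N (O (N (N (L 10686) (O (O (O (O (N (O (O (N (L 9707) (L 10375)))) (L 10686))))))) (L 10686))) (O (O (N (L 9587) (L 10686)))))))))

def ph1202 : PT := (O (O (N (O (O (N (O (O (N (O (O (N (L 5573) (L 7892)))) (L 9994)))) (L 9994)))) (O (O (N (O (N (N (L 10401) (L 9609)) (L 10401))) (L 9827)))))))

def ph1203 : PT := (O (N (N (L 12775) (O (N (L 13290) (L 12788)))) (O (O (N (L 10108) (O (O (N (N (L 7933) (O (N (O (O (N (L 7257) (L 7933)))) (L 7933)))) (L 7933)))))))))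

def ph1204 : PT := (O (O (N (O (O (O (O (O (N (L 10231) (L 10231))))))) (O (N (L 10103) (L 7257))))))

def ph1205 : PT := (N (N (O (O (N (L 9681) (L 9127)))) (L 9003)) (O (O (N (O (N (L 6167) (L 7901))) (O (O (N (N (L 8321) (L 8321)) (L 9420))))))))

def ph1206 : PT := (O (N (N (O (O (N (O (O (N (L 9742) (L 8942)))) (L 9169)))) (O (N (L 3684) (L 3684)))) (L 8950)))

def ph1207 : PT := (O (O (N (O (O (N (O (O (N (L 10592) (L 10592)))) (L 10592)))) (O (N (L 9647) (L 9109))))))

def ph1208 : PT := (O (O (O (N (N (L 5048) (O (N (L 5048) (L 5048)))) (L 11904)))))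

def ph1209 : PT := (O (N (N (L 7732) (O (O (O (O (N (L 7546) (L 8566))))))) (O (O (N (O (N (L 9672) (L 10464))) (O (O (O (N (L 10136) (L 10136))))))))))

def ph1210 : PT := (O (O (N (L 11388) (O (O (N (O (N (N (L 9472) (L 9472)) (L 10035))) (O (O (N (N (L 5732) (O (N (O (O (N (L 5178) (L 5732)))) (L 5732)))) (L 5732))))))))))

def ph1211 : PT := (N (O (O (N (O (O (N (O ph1200) (N ph1201 ph1202)))) (O (O (N (L 12922) (O ph1203))))))) (N (O (N (O (O (O (N ph1204 (N (L 9685) (L 9914)))))) (O (O (N (O ph1205) (O ph1206)))))) (O (O (N (O (O (N ph1207 ph1208))) (O (O (N ph1209 ph1210))))))))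

def ph1212 : PT := (N (O (O (O (N (L 7388) (N (L 4977) (O (O (N (O (O (N (O (O (N (L 5550) (O (N (O (O (N (L 5230) (L 5230)))) (L 5550)))))) (L 5550)))) (L 5550))))))))) (L 7396))

def ph1213 : PT := (O (N (O (O (N (O (O (N (L 12549) (L 12549)))) (L 12549)))) (O (O (N (O (N (N (L 6426) (L 6426)) (L 6989))) (O (O (N (L 5132) (L 6645)))))))))

def ph1214 : PT := (O (O (N (O (O (O (O (O (N (L 9296) (L 10096))))))) (N (L 6602) (L 6790)))))

def ph1215 : PT := (O (O (N (L 14166) (O (O (N (N (L 10492) (O (N (O (O (N (L 8359) (O (N (O (O (N (L 8359) (L 6689)))) (L 8359)))))) (L 8359)))) (L 10492)))))))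

def ph1216 : PT := (N (N (O (O (N (L 9919) (L 9269)))) (O (N (L 11252) (O (O (O (N (N (L 5749) (O (N (O (O (N (L 5749) (O (N (O (O (N (L 5749) (L 5429)))) (L 5749)))))) (L 5749)))) (L 5749)))))))) (L 8167))

def ph1217 : PT := (O (O (N (O (O (N (O (O (O (O (O (N (L 13205) (L 11993))))))) (N (O ph1212) (O ph1213))))) (O (N (O (O (N ph1214 (O (N (L 13144) (N (L 12186) (L 11762))))))) (N (O (O ph1215)) (O (O ph1216))))))))

def ph1218 : PT := (N (O (O (N (O (O (N (L 10171) (L 9371)))) (N (L 7452) (O (O (N (O (O (N (O (O (N (L 8025) (O (N (L 8025) (L 5228)))))) (L 8025)))) (L 8025)))))))) (L 6345))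

def ph1219 : PT := (O (O (N (O (N (N (O (O (N (L 10131) (L 10923)))) (L 10131)) (L 10923))) (L 10595))))

def ph1220 : PT := (N (N (O (O (N (O (O (N (L 8481) (L 8481)))) (L 7966)))) (O (N (L 8481) (L 7979)))) (O (O (N (O (O (N (L 8717) (L 8717)))) (L 5638)))))

def ph1221 : PT := (O (O (N (N (L 4930) (O (N (O (O (N (L 4930) (L 4930)))) (L 4930)))) (L 4930))))

def ph1222 : PT := (N (N (L 6811) (L 7804)) (O (O (N (L 5187) (O (O (O (N (L 4924) (L 2215)))))))))

def ph1223 : PT := (O (N (N (O (O (N (O (O (N (L 7736) (L 7736)))) (L 6524)))) (L 6785)) (L 5882)))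

def ph1224 : PT := (N (O (O (O (O (N (O (N ph1218 ph1219)) (O (O ph1220))))))) (O (O (N (N (O (O (N (L 6930) (O (O (N (L 9149) (L 4210))))))) (O (O (O ph1221)))) (O (O (N (O ph1222) (O ph1223))))))))

def ph1225 : PT := (O (O (N (L 8859) (O (N (O (O (N (L 7914) (L 7914)))) (L 7914))))))

def ph1226 : PT := (N (L 8866) (O (O (N (L 6490) (O (O (N (L 9493) (L 9493))))))))

def ph1227 : PT := (O (N (O (O (N (L 10721) (O (N (L 10721) (L 10721)))))) (N (O (N (O (O (O (N (L 10721) (L 10721))))) (L 10721))) (L 3522))))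

def ph1228 : PT := (N (O (N (N (L 7628) (O (O (O (O (N (L 7628) (L 7628))))))) (O (O (N (O (N (N (L 7628) (L 7628)) (L 7628))) (L 2657)))))) (L 7628))

def ph1229 : PT := (O (O (N (O (O (N (O (O (N (O (O (N (L 9589) (O (N (L 9589) (L 9589)))))) (L 9589)))) (O (N ph1225 ph1226))))) (O (O (N (O (O ph1227)) (O (O ph1228))))))))

def ph1230 : PT := (N (O (N (O (O (O (N (L 6995) (L 6995))))) (L 6995))) (L 3379))

def ph1231 : PT := (O (N (L 5563) (O (N (O (O (N (L 7550) (L 7550)))) (N (L 7550) (O (O (N (N (L 6082) (L 6082)) (L 6082)))))))))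

def ph1232 : PT := (O (N (O (O (N (O (O (N (O (O (N (O (O (N (L 7177) (L 7177)))) (L 7177)))) ph1230))) (O (N (O ph1231) (O (O (O (O (O (N (L 7570) (L 7570)))))))))))) (O (O (O (N (N (O (O (N (L 6625) (L 6625)))) (L 5507)) (O (O (N (O (N (L 4957) (L 4957))) (L 5972))))))))))

def ph1233 : PT := (O (O (N (L 5128) (O (N (L 5128) (N (L 5128) (O (O (N (L 5128) (L 5128))))))))))

def ph1234 : PT := (N (O (N (O (O (O (N (L 3269) (L 3269))))) (L 3269))) (O (O (N (L 6570) (L 5976)))))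

def ph1235 : PT := (O (N (L 6698) (O (N (O (O (N (L 7382) (O (N (L 7382) (L 7382)))))) (L 7382)))))

def ph1236 : PT := (N (N (O (O (N (L 4295) (N (O (N (L 4295) (L 4295))) (L 1059))))) (L 4295)) (O (O (N (L 8171) (L 8171)))))

def ph1237 : PT := (O (O (N (O (O (N (O (O (N (L 4559) (L 4559)))) (L 4559)))) (L 4559))))

def ph1238 : PT := (O (N (O (N (N (O (O (N ph1233 ph1234))) (O (O (O ph1235)))) (O (O (N (O ph1236) (O (O (O (N (L 9150) (L 9150)))))))))) (O (O (N (N (O (O (N (O (O (N (L 4559) (L 4559)))) (L 4559)))) (O (O ph1237))) (L 7046))))))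

def ph1239 : PT := (O (N (O (O (N (O (O ph1211)) (O (N ph1217 ph1224))))) (O (O (O (N (N ph1229 ph1232) (O ph1238)))))))

def ph1240 : PT := (O (N (O (O (N (O (O (N (L 14668) (L 13983)))) (N (L 12156) (O (O (N (L 12156) (O (O (N (O (N (N (L 6836) (L 6836)) (L 7417))) (L 12156))))))))))) (O (N (O (O (O (O (N (L 14290) (L 14290)))))) (N (O (O (O (O (N (L 8057) (L 10738)))))) (L 9915))))))

def ph1241 : PT := (O (N (O (O (O (O (N (O (N (L 12678) (L 12254))) (L 12678)))))) (O (O (N (O (N (L 13861) (L 13861))) (O (O (N (L 10649) (O (O (N (L 7737) (L 10649))))))))))))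

def ph1242 : PT := (O (O (N (O (O (N (L 10847) (L 11261)))) (O (O (N (O (N (L 10982) (O (O (N (L 8144) (L 10982)))))) (L 10000)))))))

def ph1243 : PT := (N (O (O (O (N (O (N (L 12657) (O (O (N (O (N (L 9778) (L 11546))) (L 12657)))))) (L 12240))))) (O (N (L 15511) (N (L 16007) (L 16007)))))

def ph1244 : PT := (O (O (O (N (O (N (N (L 13804) (L 13804)) (O (O (N (O (N (L 9325) (L 13522))) (L 13804)))))) (O (O (N (N (L 15829) (L 15829)) (L 15829))))))))

def ph1245 : PT := (O (N (N (L 16007) (O (N (L 16007) (L 16007)))) (O (O (N (O (N (N (L 9917) (L 14080)) (L 14661))) (L 13984))))))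

def ph1246 : PT := (O (O (N (O (O (N (L 12094) (N (L 10253) (L 13320))))) (O (N (L 13554) (L 14268))))))

def ph1247 : PT := (N (O (N (O (O (O (N (L 8458) (L 8458))))) (O (O (N (L 7877) (L 7899)))))) (O (O (N (O (O (N (L 14408) (L 14408)))) (O (O (N (L 6462) (L 10575))))))))

def ph1248 : PT := (O (O (O (N (O (N (N (L 10757) (L 10757)) (L 10757))) (L 10757)))))

def ph1249 : PT := (O (N (N (O (O (N (L 11758) (L 13125)))) (O (N (O (O (N (L 7922) (L 7922)))) (O (O (O (N (L 7922) (O (O (N (O (N (N (O (O (N (L 7341) (N (L 5775) (L 7341))))) (L 7341)) (L 7922))) (L 7922))))))))))) (O (O (N (L 13790) (L 13319))))))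

def ph1250 : PT := (O (O (N (O (O (N (L 14730) (L 14730)))) (O (N (L 15825) (N (L 10757) (L 13897)))))))

def ph1251 : PT := (O (O (O (N (N (O (O (N (L 12415) (L 12415)))) (L 12415)) (O (O (N (O (N (L 11783) (L 10757))) (L 12062))))))))

def ph1252 : PT := (O (N (N (O (O (N (L 13415) (L 14235)))) (L 13654)) (O (O (N (O (N (L 11735) (L 7455))) (L 10753))))))

def ph1253 : PT := (O (O (N (N (L 13990) (O (N (L 13990) (L 13990)))) (O (O (N (O (N (L 7550) (L 13063))) (L 12873)))))))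

def ph1254 : PT := (N (O (O (N (O (O (N (O ph1240) (N ph1241 ph1242)))) (O (N (O (O ph1243)) (N (O ph1244) (O ph1245))))))) (N (O (N (O (O (O (N ph1246 ph1247)))) (O (O (N (O ph1248) (O ph1249)))))) (O (O (N (O (O (N ph1250 ph1251))) (O (O (N ph1252 ph1253))))))))

def ph1255 : PT := (N (O (O (N (O (O (N (L 13514) (L 13514)))) (N (O (N (L 11631) (O (O (N (L 11207) (L 11631)))))) (O (O (N (L 14323) (L 14740)))))))) (O (O (N (L 16007) (O (O (N (L 16007) (L 16007))))))))

def ph1256 : PT := (N (O (O (O (N (L 16007) (L 15277))))) (O (O (N (O (N (L 16007) (O (O (N (O (N (N (L 10319) (L 9224)) (L 10743))) (L 10743)))))) (L 16007)))))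

def ph1257 : PT := (O (N (L 15876) (O (O (N (O (N (N (L 13747) (L 8677)) (L 13747))) (L 15635))))))

def ph1258 : PT := (O (N (L 16007) (N (L 15439) (O (O (N (L 16007) (O (O (N (O (N (L 9950) (L 16007))) (L 16007))))))))))

def ph1259 : PT := (O (O (N (O (N (O (O (O (N (L 13978) (L 13978))))) (L 13978))) (O (O (N (N (L 14402) (O (N (L 14402) (L 14402)))) (L 14402)))))))

def ph1260 : PT := (N (N (O (O (N (L 11084) (O (O (N (L 12310) (O (O (N (L 8470) (L 12310)))))))))) (L 13680)) (O (O (N (O (N (N (L 10965) (L 10965)) (L 10965))) (O (O (N (L 11741) (O (O (N (O (N (N (L 11741) (L 9540)) (L 11741))) (L 11741)))))))))))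

def ph1261 : PT := (O (O (N (O (O (N (O (O ph1255)) (N (O ph1256) (O ph1257))))) (O (N (O (O (N (O (O (N (L 14882) (N (L 14622) (L 13882))))) ph1258))) (N (O (O ph1259)) (O (O ph1260))))))))

def ph1262 : PT := (N (O (O (N (O (O (N (L 10895) (L 9740)))) (N (O (N (L 10895) (L 10895))) (O (O (N (L 7549) (L 6711)))))))) (O (N (O (O (N (L 12996) (L 12996)))) (N (O (O (O (O (N (O (N (L 12572) (O (O (N (L 8549) (L 12996)))))) (L 12996)))))) (L 12173)))))

def ph1263 : PT := (N (O (O (O (N (O (O (N (L 11475) (L 12701)))) (N (O (N (L 7460) (O (O (N (L 7036) (L 7460)))))) (L 12284)))))) (O (O (O (O (O (N (N (L 14525) (L 14525)) (L 14525))))))))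

def ph1264 : PT := (O (N (O (O (N (O (O (N (L 13666) (L 13666)))) (O (O (O (N (L 7629) (O (O (N (L 6791) (L 7629))))))))))) (O (O (N (O (N (L 10577) (O (O (N (L 5950) (L 10577)))))) (L 9595))))))

def ph1265 : PT := (O (O (N (O (O (N (O (O (N (L 12950) (L 12950)))) (L 12950)))) (N (O (N (L 11391) (L 10967))) (L 13190)))))

def ph1266 : PT := (O (O (N (L 10633) (N (O (N (L 10633) (L 10633))) (O (O (N (L 10633) (O (O (N (L 4884) (L 7593)))))))))))

def ph1267 : PT := (N (O (O (N (O (O (N (L 12899) (L 12899)))) (O (O (N (L 9815) (O (O (N (O (N (L 9391) (L 5062))) (L 9815)))))))))) (L 12512))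

def ph1268 : PT := (O (O (O (O (O (N (L 12227) (O (O (N (L 9812) (L 12227))))))))))

def ph1269 : PT := (O (N (N (O (O (N (O (O ph1262)) (N (O ph1263) (O ph1264))))) (O (O (O (O (N ph1265 (L 12301))))))) (O (O (N (O (N (N ph1266 (L 11916)) (O (O (N (O (N (L 9528) (L 5242))) (L 11526)))))) (O (O (N ph1267 ph1268))))))))

def ph1270 : PT := (O (N (O (O (N (O (O (N (L 10412) (L 11638)))) (N (L 8256) (L 8263))))) (O (N (O (O (N (L 13544) (L 13544)))) (L 12588)))))

def ph1271 : PT := (O (N (L 12389) (O (O (N (O (N (L 9514) (L 6522))) (L 8532))))))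

def ph1272 : PT := (N (O (O (N (L 9882) (N (L 10389) (L 9649))))) (O (N (L 11156) (N (L 7677) (L 8729)))))

def ph1273 : PT := (O (N (N (O (O (N (L 8614) (O (O (N (L 9840) (O (O (N (O (N (L 9416) (O (O (N (L 9416) (L 4283)))))) (L 9840)))))))))) (O (N (L 11199) (L 11827)))) (O (O (N (L 12624) (L 12207))))))

def ph1274 : PT := (N (N (L 11637) (O (N (O (O (N (L 11276) (L 11276)))) (L 12148)))) (O (O (N (O (N (L 9733) (O (O (N (L 8929) (L 9733)))))) (O (O (N (N (L 9733) (L 9733)) (L 9733))))))))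

def ph1275 : PT := (O (O (N (N (O (O (N (O ph1270) (O ph1271)))) (O (N (O (O ph1272)) (O (O ph1273))))) (O (O (O (O (O ph1274))))))))

def ph1276 : PT := (O (O (N (O (O (N (L 11015) (N (O (N (L 12241) (L 8793))) (L 12241))))) (O (N (L 12406) (L 12406))))))

def ph1277 : PT := (N (O (N (L 13847) (O (O (N (O (N (L 13847) (L 7450))) (L 12865)))))) (O (O (N (L 10410) (O (O (N (L 10410) (O (O (N (N (O (O (N (L 7945) (L 9733)))) (L 9733)) (L 10410)))))))))))

def ph1278 : PT := (O (N (O (O (O (N (O (N (N (L 15500) (L 14687)) (L 15500))) (L 13540))))) (O (N (L 12507) (N (L 12507) (O (O (N (L 12507) (O (O (N (L 12507) (L 9386))))))))))))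

def ph1279 : PT := (O (O (O (O (N (L 14205) (O (O (N (N (L 10475) (L 14629)) (L 14629)))))))))

def ph1280 : PT := (O (O (N (N (L 14761) (O (N (L 14133) (L 14761)))) (O (O (N (L 10517) (O (O (N (L 11293) (O (O (N (L 11293) (L 8800)))))))))))))

def ph1281 : PT := (N (O (O (N (O (O (N (L 16007) (L 16007)))) (O (N (L 16007) (L 16007)))))) (N (O (N (O (O (O (N (L 13455) (N (L 13455) (L 14035)))))) (O (O (N (L 12506) (L 8443)))))) (L 13618)))

def ph1282 : PT := (O (N (N (O (O (N (L 14020) (L 14840)))) (L 14840)) (O (O (N (O (N (L 13081) (O (O (N (L 12570) (L 7405)))))) (L 12099))))))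

def ph1283 : PT := (O (O (N (L 12977) (O (O (N (O (N (N (L 11815) (L 11234)) (L 11815))) (O (O (N (N (L 7317) (L 11138)) (L 11815))))))))))

def ph1284 : PT := (O (N (O (O (N (O (O (N ph1276 ph1277))) (O (N (O ph1278) (N ph1279 ph1280)))))) (O (O (N (O (O (O ph1281))) (O (O (N ph1282 ph1283))))))))

def ph1285 : PT := (O (N (O (O (N (L 16007) (N (L 15053) (L 16007))))) (O (O (N (L 12253) (O (O (N (N (L 12253) (L 12253)) (L 9210)))))))))

def ph1286 : PT := (O (N (O (O (O (N (L 12513) (L 12513))))) (O (O (N (L 12064) (O (O (N (N (L 10589) (L 10589)) (L 10589)))))))))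

def ph1287 : PT := (O (O (N (L 11615) (O (O (N (O (N (L 11161) (L 11937))) (O (O (N (L 11937) (O (O (N (L 11937) (L 8977)))))))))))))

def ph1288 : PT := (N (O (O (N (L 13771) (N (L 12561) (O (O (N (L 12561) (O (O (N (L 12561) (L 5916))))))))))) (O (N (L 13443) (N (O (O (O (O (N (L 13443) (O (O (N (L 8735) (L 13443))))))))) (L 12620)))))

def ph1289 : PT := (O (O (O (N (O (N (N (L 14699) (L 14699)) (L 14699))) (O (O (N (N (L 9644) (L 9644)) (O (O (N (L 9644) (O (O (N (L 6346) (L 9644))))))))))))))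

def ph1290 : PT := (O (N (L 14176) (O (O (N (O (N (L 12339) (O (O (N (L 12339) (L 8101)))))) (L 15366))))))

def ph1291 : PT := (N (O (O (N (O (O (N (L 16007) (L 16007)))) (L 16007)))) (O (O (N (O (O (O (N (L 16007) (N (L 16007) (L 16007)))))) (O (O (N (O (N (L 12534) (L 10757))) (L 12534))))))))

def ph1292 : PT := (O (O (O (N (N (L 16007) (O (N (L 16007) (L 16007)))) (L 16007)))))

def ph1293 : PT := (O (N (N (O (O (N (L 7238) (N (O (N (L 8464) (O (O (N (L 7243) (L 5507)))))) (L 8464))))) (L 9276)) (O (O (N (L 11559) (L 11559))))))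

def ph1294 : PT := (N (O (O (N (O (O (N (O ph1285) (N ph1286 ph1287)))) (O (N (O (O ph1288)) (N (O ph1289) (O ph1290))))))) (O (O (O (N (N (O (O ph1291)) (O (N (O (O (N (L 16007) (L 16007)))) ph1292))) (O (O (N ph1293 (O (O (O (O (O (N (L 10319) (L 10319)))))))))))))))

def ph1295 : PT := (O (N (O (O (N (L 10868) (N (L 9953) (L 10740))))) (O (N (L 13725) (N (L 14469) (L 14469))))))

def ph1296 : PT := (O (N (O (O (O (N (L 14804) (L 15195))))) (O (O (N (L 14572) (L 15389))))))

def ph1297 : PT := (O (O (N (O (O (N (L 15624) (L 15624)))) (O (O (N (O (N (N (L 9586) (L 9005)) (L 9586))) (O (O (N (L 8909) (O (O (N (L 8125) (L 8909)))))))))))))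

def ph1298 : PT := (N (O (O (N (L 15117) (L 14884)))) (O (N (L 15624) (N (L 14572) (O (O (N (L 12654) (L 8826))))))))

def ph1299 : PT := (O (O (N (O (N (N (O (O (N (L 10757) (L 10757)))) (L 10757)) (L 10757))) (O (O (N (N (L 7127) (L 7127)) (L 7127)))))))

def ph1300 : PT := (O (O (N (O (O (N (L 12950) (L 13457)))) (O (N (O (O (N (L 12691) (L 12691)))) (N (L 12691) (O (O (N (L 12691) (O (O (N (L 12691) (O (O (N (L 12014) (O (O (N (L 12691) (L 10045)))))))))))))))))))

def ph1301 : PT := (O (O (N (O (O (O (N (L 11600) (L 11600))))) (O (O (N (L 9261) (O (O (N (L 9685) (L 6904))))))))))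

def ph1302 : PT := (O (N (O (O (N (L 11257) (N (L 12412) (O (O (N (L 12412) (L 6510)))))))) (O (N (O (O (N (L 15532) (L 15532)))) (N (O (O (O (O (N (L 12712) (O (O (N (L 12712) (O (O (N (L 12712) (L 9376)))))))))))) (L 11889))))))

def ph1303 : PT := (O (O (N (N (L 16007) (O (N (L 16007) (L 16007)))) (L 16007))))

def ph1304 : PT := (N (N (O (O (N (L 15935) (L 15219)))) (L 16007)) (O (O (O (O (N (L 14389) (O (O (N (L 14389) (O (O (N (L 14389) (O (O (N (L 14389) (L 9946))))))))))))))))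

def ph1305 : PT := (O (N (N (L 16007) (O (N (L 16007) (L 15977)))) (O (O (N (O (N (L 11854) (L 12435))) (O (O (N (L 11758) (L 8832)))))))))

def ph1306 : PT := (N (O (N (N (O (O (N (O ph1295) (N ph1296 ph1297)))) (O (O (O (O ph1298))))) (O (O (O (O (N (N (L 10757) (L 10757)) ph1299))))))) (O (O (N (N (O (O (N ph1300 ph1301))) (O (N (O ph1302) (O ph1303)))) (O (O (N (O ph1304) (O ph1305))))))))

def ph1307 : PT := (O (N (O (N (N (O (O ph1254)) (O (O ph1261))) (O (O (N ph1269 ph1275))))) (O (O (N (N (O ph1284) (O ph1294)) (O (O ph1306)))))))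

def ph1308 : PT := (N (O (O (N (O (O (N (L 5030) (L 5030)))) (L 5030)))) (N (O (N (L 3424) (L 2051))) (O (O (N (L 6872) (O (O (N (L 6407) (L 6407)))))))))

def ph1309 : PT := (N (L 7037) (O (O (N (N (L 3656) (O (N (L 5597) (L 5597)))) (L 7037)))))

def ph1310 : PT := (N (O (N (N (O (O (N (L 7482) (L 7482)))) (L 7482)) (L 982))) (O (O (N (L 7081) (L 7081)))))

def ph1311 : PT := (O (N (O (N (L 5041) (L 5041))) (O (O (N (N (L 2147) (O (N (L 2147) (N (L 2147) (L 2147))))) (L 2576))))))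

def ph1312 : PT := (O (O (N (O (O (N (O (O ph1308)) (O (N (L 7037) ph1309))))) (N (O (N (L 7343) (O (O ph1310)))) (O (O (N (L 4447) (O ph1311))))))))

def ph1313 : PT := (N (O (N (L 10303) (L 10303))) (O (O (N (O (O (N (L 7194) (L 7194)))) (L 8343)))))

def ph1314 : PT := (O (N (L 4870) (O (N (O (O (N (L 6090) (L 6090)))) (L 3757)))))

def ph1315 : PT := (O (O (N (N (O (O (N (L 7310) (L 6795)))) (L 7310)) (O (O (N (L 4189) (O (O (N (N (L 4107) (L 4189)) (L 4189))))))))))

def ph1316 : PT := (O (O (N (N (L 3788) (O (N (L 9944) (L 9600)))) (O (O (N (O (N (N (L 9944) (L 9944)) (L 9944))) (L 9944)))))))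

def ph1317 : PT := (N (O (O (N (O (O (N (L 6871) (N (L 6871) (L 6871))))) (L 6871)))) (L 5383))

def ph1318 : PT := (N (O (N (N (O (O (N (L 4708) (L 5316)))) (L 4708)) (L 4708))) (O (O (N (N (L 6092) (O (N (L 6092) (L 6092)))) (O (O (N (L 3599) (L 3312))))))))

def ph1319 : PT := (O (N (O (O (N (O (O (O ph1313))) (O (N (O ph1314) (N (L 7310) ph1315)))))) (N (O (O (O (O (N (O (N (L 9520) (L 8887))) ph1316))))) (O (O (N (N (O (O (N (L 9200) (L 9560)))) (O ph1317)) (O (O ph1318))))))))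

def ph1320 : PT := (O (O (N (O (O (N (L 6593) (O (N (L 6593) (L 6593)))))) (L 4868))))

def ph1321 : PT := (O (O (N (O (N (N (O (O (N (L 7731) (L 7731)))) (L 7731)) (L 7731))) (L 8339))))

def ph1322 : PT := (O (O (O (N (O (O (N (O (O (N (L 5745) (N (L 6190) (O (O (N (L 6190) (L 6190)))))))) (O (N (L 4970) (N (L 5232) (O (O (N (L 5232) (L 5232)))))))))) (N (O (N (O (O (O (N (L 8189) (L 7469))))) (O (O (N (L 7821) (L 2272)))))) (O (O (N ph1320 ph1321))))))))

def ph1323 : PT := (O (N (N (O (O (N (L 7182) (L 7182)))) (O (O (O (O (N (L 7763) (L 7763))))))) (O (O (N (O (N (N (L 2087) (L 2087)) (L 2087))) (L 2087))))))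

def ph1324 : PT := (N (O (O (N (O (O (N (L 6549) (L 6549)))) (L 6549)))) (O (O (N (N (O (O (N (L 2632) (L 1838)))) (L 2288)) (L 7130)))))

def ph1325 : PT := (O (O (N (O (N (N (O (O (N (O (O (N (L 8018) (L 8702)))) (L 8914)))) (L 4521)) (O (O (N ph1323 (O (O (N (N (L 6427) (L 3349)) (L 6781))))))))) (O (O (N (L 7057) (O (O ph1324))))))))

def ph1326 : PT := (N (O (N (L 11459) (O (O (N (O (N (N (L 11457) (L 11457)) (L 11457))) (L 11457)))))) (O (O (N (L 7257) (L 7664)))))

def ph1327 : PT := (O (O (N (N (L 10462) (O (N (L 10977) (L 10977)))) (O (O (N (L 7934) (L 5196)))))))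

def ph1328 : PT := (N (O (O (N (L 8144) (O (N (O (O (N (L 8336) (L 8336)))) (L 6349)))))) (N (L 8390) (L 8390)))

def ph1329 : PT := (O (N (N (L 7680) (L 7680)) (O (O (N (O (N (N (L 7917) (L 7917)) (L 7917))) (L 8305))))))

def ph1330 : PT := (N (O (O (N (O (O (N (L 9087) (L 9087)))) (L 8142)))) (O (O (O (N (N (L 2865) (L 2865)) (L 9721))))))

def ph1331 : PT := (N (O (N (N (L 9296) (L 9296)) (O (O (N (O (N (N (L 8281) (L 8281)) (L 8281))) (L 8281)))))) (O (O (N (N (L 10004) (O (N (L 10004) (L 10004)))) (O (O (N (L 7852) (L 3549))))))))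

def ph1332 : PT := (O (N (O (O (N (O (O (N (O (O (N (L 12047) (L 11892)))) ph1326))) (O (O (N (L 10977) ph1327)))))) (N (O (N (O (O (O ph1328))) (O (O (N ph1329 (O (O (N (N (L 7005) (L 947)) (L 7005))))))))) (O (O (N (O (O ph1330)) (O (O ph1331))))))))

def ph1333 : PT := (O (O (O (O (N (O (O (N (L 12427) (L 12427)))) (N (L 12312) (L 12312)))))))

def ph1334 : PT := (O (N (O (O (O (N (O (O (N (L 6449) (L 6449)))) (N (L 3811) (L 3811)))))) (L 6449)))

def ph1335 : PT := (O (O (N (O (O (N (L 11217) (L 11217)))) (O (O (N (L 4572) (L 4228)))))))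

def ph1336 : PT := (N (O (O (N (L 7679) (L 4693)))) (O (N (O (O (N (L 10727) (L 10727)))) (L 9769))))

def ph1337 : PT := (O (O (O (N (O (N (N (L 12507) (L 12507)) (L 12507))) (O (O (N (N (L 8075) (L 5942)) (L 8075))))))))

def ph1338 : PT := (O (N (N (O (O (N (L 8040) (L 8040)))) (O (N (L 9373) (L 3870)))) (O (O (N (O (N (N (L 10836) (L 10836)) (L 10836))) (L 10836))))))

def ph1339 : PT := (N (N (O (O (N (L 8095) (L 5949)))) (O (O (O (O (N (L 8095) (L 8095))))))) (O (O (N (O (N (N (L 8847) (L 8847)) (L 8847))) (L 8847)))))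

def ph1340 : PT := (O (N (N (O (O (N (L 7204) (L 6689)))) (O (N (O (O (N (L 7204) (L 7204)))) (L 7204)))) (O (O (N (L 7204) (L 3562))))))

def ph1341 : PT := (N (O (O (N (O (O (N (O ph1333) (N ph1334 ph1335)))) (O (N (O (O ph1336)) (N (O ph1337) (O ph1338))))))) (N (O (O (O (O (N (O ph1339) (O ph1340)))))) (O (O (N (N (O (O (N (L 8577) (L 9261)))) (L 14257)) (O (O (N (O (N (N (L 6843) (L 7424)) (O (O (N (L 3186) (L 2187)))))) (O (O (N (N (L 7632) (L 7632)) (L 7632))))))))))))

def ph1342 : PT := (O (N (O (O (N (L 11339) (O (N (L 11339) (L 11339)))))) (L 11339)))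

def ph1343 : PT := (N (O (O (N (L 10609) (L 9664)))) (N (L 10616) (O (O (N (N (O (O (N (L 8823) (L 8823)))) (O (N (L 8240) (L 8240)))) (O (O (N (L 11243) (L 11243)))))))))

def ph1344 : PT := (O (O (N (O (O (N (L 12471) (O (N (L 12471) (L 12471)))))) (N (O (N (L 12471) (L 12471))) (L 5272)))))

def ph1345 : PT := (O (N (O (N (L 9378) (O (O (N (L 9378) (L 4407)))))) (L 9378)))

def ph1346 : PT := (N (O (O (N (O (O (N (L 8927) (L 8927)))) (L 8927)))) (N (L 8745) (O (O (N (L 5129) (O (O (N (L 9372) (L 9372)))))))))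

def ph1347 : PT := (O (O (N (L 7313) (O (N (L 9300) (N (L 9300) (O (O (N (L 7832) (L 7832))))))))))

def ph1348 : PT := (N (O (O (N (O (O (N (O ph1342) (O ph1343)))) (O (O (N (O ph1344) (O ph1345))))))) (O (N (O (O (N (O (O ph1346)) (O (N ph1347 (L 9320)))))) (O (O (O (N (N (O (O (N (O (O (N (L 8375) (L 8375)))) (L 8375)))) (L 7257)) (O (O (N (L 6707) (L 7722)))))))))))

def ph1349 : PT := (N (O (O (N (L 6878) (O (N (L 6878) (L 6878)))))) (N (L 5019) (O (O (N (L 8320) (L 7726))))))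

def ph1350 : PT := (O (N (N (O (O (N (L 6045) (N (L 6045) (L 2809))))) (L 6045)) (O (O (N (L 9921) (L 9921))))))

def ph1351 : PT := (O (O (N (O (N (N (O (O ph1349)) (O (O (O (O (N (L 8448) (O (N (L 9132) (L 9132))))))))) (O (O (N ph1350 (L 10900)))))) (O (O (N (N (O (O (N (O (O (N (L 6309) (L 6309)))) (L 6309)))) (O (O (O (O (N (O (O (N (L 6309) (L 6309)))) (L 6309))))))) (L 8796)))))))

def ph1352 : PT := (N (O (O (N (O (O (N ph1312 ph1319))) (N (O (N ph1322 ph1325)) (L 16007))))) (O (N (O (O (N (O ph1332) (O ph1341)))) (O (O (O (N ph1348 ph1351)))))))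

def ph1353 : PT := (O (O (N (O (O (N (O (O (N (L 9839) (L 9839)))) (N (L 6857) (O (O (N (L 6857) (O (O (N (L 2118) (L 6857))))))))))) (O (N (L 9871) (N (L 9807) (L 9871)))))))

def ph1354 : PT := (N (O (N (O (O (O (O (N (L 8991) (L 8991)))))) (O (O (N (L 9572) (L 4843)))))) (O (O (N (O (O (N (L 9894) (L 9894)))) (O (O (N (O (N (L 9894) (L 9894))) (L 9894))))))))

def ph1355 : PT := (O (O (N (N (L 12426) (O (N (L 12426) (L 11843)))) (L 8855))))

def ph1356 : PT := (N (O (O (N (L 11768) (L 11323)))) (N (O (N (L 11768) (L 11141))) (O (O (N (O (O (N (L 11768) (N (L 11768) (L 11768))))) (L 6445))))))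

def ph1357 : PT := (O (O (N (N (O (O (N (L 11295) (L 12039)))) (L 6639)) (O (O (N (L 12507) (L 12507)))))))

def ph1358 : PT := (N (O (N (N (O (O (N (L 9205) (N (L 9205) (L 9205))))) (L 8624)) (L 9205))) (O (O (N (L 8184) (O (O (N (L 7257) (L 7744))))))))

def ph1359 : PT := (O (N (O (O (N (O (O (N ph1353 ph1354))) (O (N (O (O (N (L 10470) (L 10449)))) (N (O (O (O (O (N (L 11075) (L 11075)))))) ph1355)))))) (N (O (N (O (O (O ph1356))) (O (O (N (O (O (O (O (N (L 12507) (L 12507)))))) ph1357))))) (O (O (N (O (O (N (L 12507) (L 12507)))) (O (O ph1358))))))))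

def ph1360 : PT := (O (N (O (O (N (L 12507) (N (O (N (L 12507) (L 12507))) (L 12507))))) (O (O (N (L 12507) (L 12507))))))

def ph1361 : PT := (N (O (O (N (L 8918) (N (L 8151) (O (O (N (N (L 8151) (L 8151)) (L 8151)))))))) (O (N (L 10020) (N (L 10020) (L 10020)))))

def ph1362 : PT := (O (O (O (N (O (N (N (L 11552) (L 11552)) (L 11552))) (O (O (N (N (L 11552) (L 11552)) (L 11552))))))))

def ph1363 : PT := (O (N (N (O (O (N (L 10220) (O (O (N (L 10220) (L 10220))))))) (L 10220)) (O (O (N (L 5270) (L 5270))))))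

def ph1364 : PT := (O (O (O (N (O (O (N (O ph1360) (N (O (N (L 12507) (O (O (N (L 12507) (L 12507)))))) (O (O (N (L 11785) (L 9841)))))))) (O (N (O (O ph1361)) (N (O ph1362) (O ph1363))))))))

def ph1365 : PT := (O (N (O (O (N (O (O (N (L 5353) (L 5353)))) (N (O (N (L 5353) (L 5353))) (L 2007))))) (O (N (O (O (N (L 10741) (L 10741)))) (N (L 10299) (L 10741))))))

def ph1366 : PT := (O (N (O (O (O (N (L 10390) (N (O (N (L 9951) (L 9951))) (L 10376)))))) (O (O (O (O (O (N (L 10390) (L 8426)))))))))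

def ph1367 : PT := (O (O (N (O (O (N (O (O (N (L 8044) (L 8044)))) (L 2007)))) (O (O (N (O (N (L 7700) (L 7700))) (L 7700)))))))

def ph1368 : PT := (N (O (O (N (L 8007) (N (O (N (L 8007) (L 8007))) (O (O (N (L 5929) (L 2007)))))))) (L 7075))

def ph1369 : PT := (N (N (O (O (N (L 6812) (O (O (N (L 6812) (L 6812))))))) (L 6778)) (L 5865))

def ph1370 : PT := (O (O (N (N (O (O (N (L 6033) (L 6033)))) (L 5148)) (L 6872))))

def ph1371 : PT := (N (O (N (N (O (O (N (O ph1365) (N ph1366 ph1367)))) (L 9858)) (O (O (N (O (N ph1368 (L 6992))) (O (O ph1369))))))) (O (O (N (N (L 8272) (O (N (O (O (N (L 3189) (O (N (L 3956) (L 1529)))))) (O ph1370)))) (L 16007)))))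

def ph1372 : PT := (N (O (O (N (O (O (N (L 9827) (N (L 9827) (L 9827))))) (O (N (L 9382) (L 9382)))))) (N (O (N (L 9827) (L 9200))) (L 4707)))

def ph1373 : PT := (N (O (O (O (O (N (L 12225) (L 12225)))))) (O (O (N (L 9579) (L 5590)))))

def ph1374 : PT := (O (O (N (O (O (N (O (O ph1372)) (O (N (O (O (N (O (O (O (N (L 9797) (L 8577))))) (L 6804)))) ph1373))))) (O (O (N (O (O (O (N (L 10913) (N (O (N (L 10193) (L 10193))) (L 10193)))))) (O (O (N (O (N (L 9155) (L 9155))) (O (O (N (L 6454) (L 5292)))))))))))))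

def ph1375 : PT := (N (O (N (L 11207) (O (O (N (L 11207) (L 11207)))))) (O (O (N (L 5720) (L 5414)))))

def ph1376 : PT := (O (N (O (O (N (L 8502) (L 6782)))) (O (N (L 12507) (N (L 10485) (L 11443))))))

def ph1377 : PT := (O (O (N (L 10079) (O (O (N (O (N (L 9851) (L 9851))) (L 9851)))))))

def ph1378 : PT := (O (O (N (N (O (O (N (L 7257) (N (L 7257) (L 7257))))) (L 7257)) (L 7257))))

def ph1379 : PT := (O (N (O (O (N (O (O (N (O (O (N (O (O (N (L 10467) (L 10292)))) (L 5730)))) ph1375))) (O (N (O ph1376) (N (O (O (O (O (N (L 10823) (L 3121)))))) ph1377)))))) (O (O (O (N (N (O (O (N (L 12507) (O (O (N (L 12507) (L 12507))))))) (L 11849)) (O (O ph1378))))))))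

def ph1380 : PT := (N (O (N (O (O (O (N (L 12507) (L 12507))))) (L 12507))) (O (O (N (O (O (N (L 12507) (L 12507)))) (L 6469)))))

def ph1381 : PT := (O (N (O (O (N (L 12507) (L 12507)))) (O (N (L 12507) (N (L 12507) (O (O (N (L 9537) (O (O (N (L 9279) (L 6386))))))))))))

def ph1382 : PT := (N (N (L 12507) (L 12507)) (O (O (N (O (N (N (L 12507) (L 12507)) (L 12507))) (L 8877)))))

def ph1383 : PT := (N (O (O (N (L 7674) (L 6908)))) (O (O (N (L 8654) (L 8654)))))

def ph1384 : PT := (O (O (N (O (O (N (O (O (N (L 7257) (L 7257)))) (L 7257)))) (O (N (L 12507) (N (L 11126) (L 11126)))))))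

def ph1385 : PT := (O (O (O (N (N (L 12507) (O (N (L 12507) (L 12507)))) (L 12507)))))

def ph1386 : PT := (O (O (N (N (L 11652) (L 11308)) (O (O (N (O (N (N (L 6652) (L 6652)) (L 6652))) (L 6652)))))))

def ph1387 : PT := (O (N (O (N (N (O (O (N (L 12507) ph1380))) (O (O (O ph1381)))) (O (O (O (O ph1382)))))) (O (O (N (N (O (O ph1383)) (O (N ph1384 ph1385))) (O (O (N (O (N (L 11748) (O (O (O (O (N (L 11696) (L 11696)))))))) ph1386))))))))

def ph1388 : PT := (O (O (N (O (N (N (O ph1359) (O ph1364)) (O (O ph1371)))) (O (O (N (N ph1374 ph1379) (O ph1387)))))))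

def phiT : PT := (N (N (N (N (O (O (N ph38 ph93))) (O (N (O ph161) (N ph196 ph236)))) (O (N (O (O ph313)) (N (O ph388) (O ph453))))) (O (N (O (O (N ph488 ph530))) (N (O (N ph569 ph610)) (O (O ph688)))))) (N (O (N (N (O (O ph764)) (O (N ph805 ph845))) (O (O (N ph895 ph938))))) (N (O (N (N (O ph1004) (O ph1076)) (O (O ph1154)))) (N (O (N (N ph1199 ph1239) (O ph1307))) (O (O (N ph1352 ph1388)))))))

end Pool.Agent.SqfBridge
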