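import Pool.Agent.SqfBridge.CertKeys
import Pool.Agent.SqfBridge.CertPhi

set_option autoImplicit false

namespace Pool.Agent.SqfBridge

theorem dfs2 : goN keyT 2 70 1 8 0 4 0 phiT phiT.step1 = true := by decide +kernel

end Pool.Agent.SqfBridge
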