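set_option autoImplicit false

namespace Pool.Agent.SqfBridge

/-- a tail: 19 letters (code `yl`), then the two-block word of `(t1,b1),(t0,b0)` from offset `o`,
then free blocks; `w` is its mass. -/
structure Leaf where
  yl : Nat
  t1 : Nat
  t0 : Nat
  b1 : Bool
  b0 : Bool
  o : Nat
  w : Nat

end Pool.Agent.SqfBridge
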