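import Pool.Agent.SqfBridge.Kern
import Pool.Agent.SqfBridge.LeafData

set_option autoImplicit false

noncomputable section

namespace Pool.Agent.SqfBridge

/-- code of a block. -/
def bc (t : Nat) (b : Bool) : Nat :=
  sel3 t (bt b (nat_lit 6595618340) (nat_lit 6602130980)) (bt b (nat_lit 26076399689) (nat_lit 26073438281))
    (bt b (nat_lit 36047458706) (nat_lit 36043907474))

/-- code of two blocks. -/
def d2 (t1 t0 : Nat) (b1 b0 : Bool) : Nat :=
  Nat.add (bc t1 b1) (Nat.mul (nat_lit 68719476736) (bc t0 b0))

/-- code of the fixed letters of a leaf. -/
def ycode (l : Leaf) : Nat :=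
  Nat.add l.yl (Nat.mul (nat_lit 274877906944)
    (Nat.div (d2 l.t1 l.t0 l.b1 l.b0) (Nat.pow (nat_lit 4) l.o)))

/-- no square among the `fuel` digits of `Z`. -/
def sqfN (fuel : Nat) : Nat → Bool :=
  Nat.rec (motive := fun _ => Nat → Bool) (fun _ => true)
    (fun f ih Z => bt (sqp Z (Nat.div (Nat.succ f) (nat_lit 2)) (nat_lit 4)) false
      (ih (Nat.div Z (nat_lit 4)))) fuel

/-- `e` does not occur at the first `fuel` positions (`q = 4 ^ length`). -/
def noFac (q e : Nat) (fuel : Nat) : Nat → Bool :=
  Nat.rec (motive := fun _ => Nat → Bool) (fun _ => true)
    (fun _ ih Z => bt (Nat.beq (Nat.mod Z q) e) false (ih (Nat.div Z (nat_lit 4)))) fuel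

/-- the first `fuel` digits are at most 2. -/
def digOK (fuel : Nat) : Nat → Bool :=
  Nat.rec (motive := fun _ => Nat → Bool) (fun _ => true)
    (fun _ ih Z => bt (Nat.ble (Nat.mod Z (nat_lit 4)) (nat_lit 2)) (ih (Nat.div Z (nat_lit 4))) false)
    fuel

def memL (x : Nat) (l : List Nat) : Bool :=
  List.rec (motive := fun _ => Bool) false (fun a _ ih => bt (Nat.beq x a) true ih) l

def A12L : List Nat :=
  [1185937,1185938,1186072,1197604,1197606,1197640,1204625,1204626,1204806,1204808,1591396,1591576,
   1591577,1591686,1610116,1610258,1610265,1611848,1611876,1644617,1644696,1646884,1646886,1646985,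
   1648146,1648164,2172002,2172441,2172452,2197784,2197793,2197892,2199940,2199945,2200162,2384161,
   2384164,2384456,2384481,2385028,2385030,2385048,2393240,2393670,2393673,2495000,2495001,2495046,
   2496792,2496801,2496806,2499681,2499684,2499718,4592153,4592198,4592225,4596868,4597266,4597273,
   4606025,4606050,4606340,4737304,4737414,4737417,4743750,4743752,4743777,4744289,4744290,4744344,
   4790418,4790424,4790561,4818054,4818065,4818502,4818505,4819224,4819225,4819233,6365577,6365585,
   6366306,6366308,6366745,6394249,6394392,6394465,6394466,6440466,6440520,6440521,6441033,6441060,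
   6447393,6447506,6578468,6578470,6578785,6587537,6587544,6587940,6587942,6592584,6592585,6592657,
   8685092,8685126,8688009,8688018,8689764,8689809,8689810,8791137,8791172,8791174,8791570,8799762,
   8799782,8800354,8800644,8800649,8984648,8984649,8984865,8984870,8986918,8987025,8987026,9012358,
   9012808,9012809,9536646,9536657,9536664,9537825,9537924,9537926,9540114,9540120,9540193,9572934,
   9572961,9572962,9574546,9574552,9574680,9574694,9593121,9593124,9593414,9980002,9980004,9980185,
   9987170,9987206,9987224,9998724,9998738,9998873]

def A19L : List Nat :=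
  [19430400289,19430400292,19430409798,19430409801,19432608326,19432608353,19621552422,19621577862,
   19622138438,19622138465,19736584801,19736598673,19739542662,19739542673,19739580696,19739580710,
   26073438281,26076390532,26076390930,26076399689,26078187913,26078188130,26380149137,26380149860,
   26382473361,26382473362,26382583334,26382584201,26408523921,26408523922,26408984969,26408986130,
   26945406500,26945406502,26945413521,26945413522,26946705697,26946705702,26982553746,26982553752,
   26982581830,26982581833,26984204361,26984210721,27003225670,27003228562,27003525409,27003525414,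
   35586085394,35586086984,35593274918,35593275785,35593459784,35593459785,35593462161,35593462162,
   36008497689,36008497734,36008642953,36008649826,36008649880,36010271113,36043826274,36043826713,
   36043907474,36047458706,39062103137,39062149409,39066931810,39067338850,39076308066,39076308505,
   39076333857,39076333956,39076631065,39076631110,39210853473,39210853510,39217891718,39217947206,
   40878089313,40878089350,40878097938,40878838290,40907449881,40907596360,40907596385,40907670662,
   40907670673,40907671833,40954775652,40954775833,40954831241,40954832402,40955384201,40955384418,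
   75237836306,75238574369,75238574468,75238576658,75239023714,75239023768,75315095076,75321607716,
   75321722978,75321723268,75465115172,75465115174,75465122193,75465122194,75465527826,75465529416,
   75470283153,75470283876,77615998084,77615998482,77617795465,77617795682,77617841682,77617842276,
   77721601158,77721601169,77721637474,77721639192,77721639206,77722044514,77730433304,77730433414,
   77730453604,77731341412,78486209688,78486311448,78488553752,78488553862,78939001220,78939186308,
   78946339206,78946394694,78958170649,78958170694,78958184546,78958184836,78958322786,78958322840,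
   104293615122,104293615716,104293753124,104293753126,104305562130,104305563720,104305598756,
   104305598758,104312751654,104312752521,104763384210,104765727876,104765728274,104766916708,
   104766916889,104766935442,105520596550,105520599442,105521485970,105521485976,105521504545,
   105521504548,105529893446,105529893448,105530333336,105530336804,105634095686,105634095688,
   105635939876,105635939878,105635944520,105635944521,107781626002,107781626008,107781654086,
   107781654089,107786822790,107786822808,107930214984,107930215009,107930327320,107930327334,
   107936817446,107936842886,108012902680,108012914248,108014101638,108014101656,142296553544,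
   142296553545,142296555921,142296555922,142297105553,142297105560,142344341577,142344347937,
   142344488081,142344488088,142373099672,142373103140,142373839137,142373839140,142373848646,
   142373848649,144033990756,144033990937,144034571812,144034599305,144034599522,144041084452,
   144175305097,144175306852,144175629896,144175629897,144185004562,144185006152,144189759889,
   144189760612,144189834824,144189834825,147204479256,147204490824,147208036936,147208036961,
   147208111238,147208111249,147241666840,147241666849,147243426401,147243440273,147658475800,
   147658475809,147665852562,147665852568,147665871137,147665871140,156248412548,156248597064,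
   156248597089,156248597636,156248709400,156248709414,156267727241,156269355401,156269384216,
   156269384289,156305232265,156305234020,156305335428,156305335826,156306524260,156306524441,
   156842952993,156842953092,156843402338,156843402392,156843413892,156843414041,156869362840,
   156869464600,156871566873,156871788825,157173703777,157173750049,157178499608,157178499681,
   163512357252,163512357401,163512391753,163515353161,163629799524,163630385441,163630385540,
   163630682649,163630682694,163630687332,163819102609,163819103332,163819324964,163819324966,
   163819329608,163819329609,163821536806,163821537673]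

/-- code (oldest first) of the context word of the key code `P`. -/
def kcode (P : Nat) : Nat :=
  Nat.add (Nat.mod (Nat.div P (nat_lit 16384)) (nat_lit 4))
  (Nat.add (Nat.mul (nat_lit 4) (Nat.mod (Nat.div P (nat_lit 4096)) (nat_lit 4)))
  (Nat.add (Nat.mul (nat_lit 16) (Nat.mod (Nat.div P (nat_lit 1024)) (nat_lit 4)))
  (Nat.add (Nat.mul (nat_lit 64) (Nat.mod (Nat.div P (nat_lit 256)) (nat_lit 4)))
  (Nat.add (Nat.mul (nat_lit 256) (Nat.mod (Nat.div P (nat_lit 64)) (nat_lit 4)))
  (Nat.add (Nat.mul (nat_lit 1024) (Nat.mod (Nat.div P (nat_lit 16)) (nat_lit 4)))
  (Nat.mul (nat_lit 4096) (Nat.mod (Nat.div P (nat_lit 4)) (nat_lit 4))))))))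

def leafChk (c kc : Nat) (l : Leaf) : Bool :=
  bt (Nat.ble (nat_lit 1) l.o)
  (bt (Nat.ble l.o (nat_lit 23))
  (bt (Nat.ble l.t1 (nat_lit 2))
  (bt (Nat.ble l.t0 (nat_lit 2))
  (bt (Nat.beq l.t1 l.t0) false
  (bt (digOK (nat_lit 19) l.yl)
  (bt (Nat.ble (Nat.succ l.yl) (nat_lit 274877906944))
  (bt (Nat.beq (Nat.mod l.yl (nat_lit 4)) c)
  (force (ycode l) (fun y => force (Nat.add kc (Nat.mul (nat_lit 65536) y)) (fun Z =>
    bt (memL (Nat.mod (Nat.div y (nat_lit 68719476736)) (nat_lit 16777216)) A12L) false
    (bt (memL (Nat.mod Z (nat_lit 274877906944)) A19L) false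
    (bt (noFac (nat_lit 262144) (Nat.add kc (Nat.mul (nat_lit 65536) c)) (nat_lit 24) y)
    (bt (noFac (Nat.pow (nat_lit 4) (Nat.sub (nat_lit 26) l.o)) (Nat.div Z (Nat.pow (nat_lit 4) (nat_lit 37)))
        (Nat.add (nat_lit 12) l.o) Z)
    (sqfN (Nat.sub (nat_lit 63) l.o) Z) false) false)))))
  false) false) false)) false) false) false) false

def allChk (c kc : Nat) (L : List Leaf) : Bool :=
  List.rec (motive := fun _ => Bool) true (fun a _ ih => bt (leafChk c kc a) ih false) L

/-- pairs (remaining code, mass) -/
def sumP (L : List (Nat × Nat)) : Nat :=
  List.rec (motive := fun _ => Nat) (nat_lit 0) (fun a _ ih => Nat.add a.2 ih) L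

def filt (d : Nat) (L : List (Nat × Nat)) : List (Nat × Nat) :=
  List.rec (motive := fun _ => List (Nat × Nat)) []
    (fun a _ ih => bt (Nat.beq (Nat.mod a.1 (nat_lit 4)) d)
      (List.cons (Nat.div a.1 (nat_lit 4), a.2) ih) ih) L

def Tri.mass (T : Tri) : Nat :=
  Tri.rec (motive := fun _ => Nat) (nat_lit 0) (fun m => m) (fun m _ _ _ _ _ _ => m) T

def Tri.child (T : Tri) (d : Nat) : Tri :=
  Tri.rec (motive := fun _ => Tri) .nil (fun m => .stop m) (fun _ a b c _ _ _ => sel3 d a b c) T

def Tri.flat (T : Tri) : Bool :=
  Tri.rec (motive := fun _ => Bool) true (fun _ => true) (fun _ _ _ _ _ _ _ => false) T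

def isNil (L : List (Nat × Nat)) : Bool :=
  List.rec (motive := fun _ => Bool) true (fun _ _ _ => false) L

/-- check of caps and masses: `caps` = caps for the current depth and below. -/
def chkT (caps : List Nat) : Tri → List (Nat × Nat) → Bool :=
  List.rec (motive := fun _ => Tri → List (Nat × Nat) → Bool)
    (fun T L => bt T.flat (Nat.ble (sumP L) T.mass) false)
    (fun cp _ ih T L => bt (isNil L) true
      (bt (Nat.ble (sumP L) cp) (bt (Nat.ble (sumP L) T.mass)
        (bt (ih (T.child (nat_lit 0)) (filt (nat_lit 0) L))
        (bt (ih (T.child (nat_lit 1)) (filt (nat_lit 1) L))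
          (ih (T.child (nat_lit 2)) (filt (nat_lit 2) L)) false) false) false) false)) caps

def capL : List Nat :=
  [10000,10000,10000,7000,5737,4703,3854,3159,2589,2122,1740,1426,1169,958,785,643,527,432,354,
    290,238,195,160,131,125,125,125,125,125,125,125]

def pairsOf (L : List Leaf) : List (Nat × Nat) :=
  List.rec (motive := fun _ => List (Nat × Nat)) []
    (fun a _ ih => List.cons (Nat.div (ycode a) (nat_lit 4), a.w) ih) L

/-- class codes: letters 10..31. -/
def clsOf (L : List Leaf) : List (Nat × Nat) :=
  List.rec (motive := fun _ => List (Nat × Nat)) []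
    (fun a _ ih => force (Nat.mod (Nat.div (ycode a) (nat_lit 1048576)) (nat_lit 17592186044416))
      (fun z => List.cons (z, a.w) ih)) L

def sumC (z : Nat) (L : List (Nat × Nat)) : Nat :=
  List.rec (motive := fun _ => Nat) (nat_lit 0)
    (fun a _ ih => bt (Nat.beq a.1 z) (Nat.add a.2 ih) ih) L

def clsChk (M : List (Nat × Nat)) (L : List (Nat × Nat)) : Bool :=
  List.rec (motive := fun _ => Bool) true
    (fun a _ ih => bt (Nat.ble (sumC a.1 M) (nat_lit 300)) ih false) L

def keyChk (P g : Nat) (T : Tri) (L : List Leaf) : Bool :=
  bt (Nat.ble g (nat_lit 99999))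
  (bt (allChk (Nat.sub (nat_lit 3) (Nat.mod P (nat_lit 4))) (kcode P) L)
  (bt (chkT capL T (pairsOf L))
  (bt ((fun M => clsChk M M) (clsOf L))
  (bt (Nat.ble (Nat.add g (nat_lit 1050)) (sumP (pairsOf L))) true false) false) false) false) false

end Pool.Agent.SqfBridge
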