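import Pool.Agent.SqfBridge.CertKeys
import Pool.Agent.SqfBridge.LeafKern

set_option autoImplicit false

namespace Pool.Agent.SqfBridge

def lv0 : List Leaf := [
  ⟨39076631110, 0, 2, false, false, 16, 102⟩, ⟨39076631110, 2, 0, false, true, 14, 51⟩,
  ⟨39076631110, 1, 0, false, true, 9, 51⟩, ⟨77731336774, 0, 1, false, true, 14, 51⟩,
  ⟨77731336774, 2, 1, false, true, 9, 51⟩, ⟨147205788230, 1, 0, true, false, 11, 102⟩,
  ⟨156869464646, 2, 1, false, false, 16, 102⟩, ⟨156869464646, 1, 2, false, true, 14, 102⟩,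
  ⟨19430511174, 1, 2, true, true, 8, 72⟩, ⟨19621250630, 2, 1, true, true, 11, 94⟩,
  ⟨105520596550, 1, 0, true, false, 5, 74⟩, ⟨105520596550, 0, 1, false, true, 7, 37⟩,
  ⟨105520596550, 0, 2, false, true, 7, 37⟩, ⟨144175302214, 0, 1, false, true, 1, 74⟩,
  ⟨144175302214, 1, 0, true, false, 11, 74⟩, ⟨27003225670, 2, 0, false, false, 7, 47⟩,
  ⟨27003225670, 2, 1, false, true, 7, 47⟩, ⟨144041084486, 2, 0, true, false, 5, 94⟩,
  ⟨75321607750, 0, 2, false, true, 15, 94⟩, ⟨75321607750, 0, 2, false, true, 7, 94⟩,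
  ⟨156869363270, 1, 2, false, true, 14, 47⟩, ⟨156869363270, 0, 2, false, true, 9, 47⟩,
  ⟨19430409798, 1, 2, true, true, 8, 61⟩, ⟨142373848646, 1, 0, false, false, 7, 47⟩,
  ⟨142373848646, 1, 2, false, true, 7, 47⟩, ⟨108014110278, 0, 2, true, true, 11, 94⟩,
  ⟨142344488518, 1, 0, false, false, 7, 47⟩, ⟨142344488518, 1, 2, false, true, 7, 47⟩,
  ⟨26380371526, 1, 2, false, true, 1, 74⟩, ⟨26380371526, 2, 1, true, true, 11, 74⟩,
  ⟨163819324998, 1, 0, false, false, 7, 47⟩, ⟨163819324998, 1, 2, false, true, 7, 47⟩,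
  ⟨26982581830, 2, 0, false, false, 7, 47⟩, ⟨26982581830, 2, 1, false, false, 7, 47⟩,
  ⟨39062177350, 2, 0, false, true, 14, 47⟩, ⟨39062177350, 1, 0, false, true, 9, 47⟩,
  ⟨147208111686, 1, 0, true, false, 11, 92⟩, ⟨78488634950, 2, 1, false, true, 9, 72⟩,
  ⟨78488634950, 2, 0, true, false, 8, 72⟩, ⟨147208111686, 0, 1, true, true, 8, 92⟩,
  ⟨156871788102, 2, 1, false, false, 16, 94⟩, ⟨19432834630, 1, 2, true, true, 8, 94⟩,
  ⟨19621578310, 2, 1, true, true, 11, 94⟩, ⟨105520924230, 1, 0, true, false, 5, 74⟩,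
  ⟨105520924230, 0, 1, false, true, 7, 37⟩, ⟨105520924230, 0, 2, false, true, 7, 37⟩,
  ⟨107936843334, 2, 0, true, false, 8, 94⟩, ⟨39217366598, 1, 2, true, true, 8, 94⟩,
  ⟨156842951814, 1, 2, false, true, 14, 44⟩, ⟨156842951814, 0, 2, false, true, 9, 44⟩,
  ⟨40878834822, 2, 0, false, true, 14, 44⟩, ⟨40878834822, 1, 0, false, false, 9, 44⟩,
  ⟨19739542662, 2, 1, true, false, 11, 84⟩, ⟨157178496134, 0, 2, false, true, 9, 66⟩,
  ⟨157178496134, 0, 1, true, true, 8, 66⟩, ⟨19739542662, 1, 2, true, true, 8, 84⟩,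
  ⟨107937367174, 0, 2, true, false, 11, 87⟩, ⟨39217890438, 1, 2, true, true, 8, 87⟩,
  ⟨78946337926, 1, 0, false, false, 16, 87⟩, ⟨78946337926, 0, 1, false, true, 14, 87⟩,
  ⟨147665814662, 0, 1, true, true, 8, 87⟩, ⟨26982581382, 2, 0, false, false, 7, 42⟩,
  ⟨26982581382, 2, 1, false, true, 7, 42⟩, ⟨147208111238, 1, 0, true, false, 11, 64⟩,
  ⟨78488634502, 2, 1, false, true, 9, 50⟩, ⟨78488634502, 2, 0, true, false, 8, 50⟩,
  ⟨147208111238, 0, 1, true, true, 8, 63⟩, ⟨156871787654, 2, 1, false, false, 16, 65⟩,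
  ⟨19432834182, 1, 2, true, true, 8, 65⟩, ⟨40907670662, 0, 2, false, false, 16, 65⟩,
  ⟨40907670662, 2, 0, false, true, 14, 25⟩, ⟨40907670662, 1, 0, false, false, 9, 25⟩,
  ⟨40907670662, 1, 2, true, true, 8, 50⟩, ⟨19621577862, 2, 1, true, true, 11, 83⟩,
  ⟨105520923782, 1, 0, true, false, 5, 64⟩, ⟨105520923782, 0, 1, false, true, 7, 32⟩,
  ⟨105520923782, 0, 2, false, true, 7, 32⟩, ⟨144175629446, 2, 1, true, true, 5, 83⟩,
  ⟨144175629446, 0, 1, false, true, 1, 64⟩, ⟨144175629446, 1, 0, true, true, 11, 64⟩,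
  ⟨107936842886, 2, 0, true, true, 8, 83⟩, ⟨39217366150, 1, 2, true, true, 8, 83⟩,
  ⟨104305598758, 2, 0, false, false, 1, 65⟩, ⟨104305598758, 0, 2, true, true, 11, 65⟩,
  ⟨144034046246, 2, 0, true, false, 5, 84⟩, ⟨75314569510, 0, 2, false, true, 15, 84⟩,
  ⟨163512394022, 1, 0, false, true, 15, 84⟩, ⟨108013363494, 0, 2, true, true, 11, 84⟩,
  ⟨26408984870, 1, 2, false, true, 1, 65⟩, ⟨26408984870, 2, 1, true, true, 11, 65⟩,
  ⟨107930214694, 0, 2, true, false, 11, 84⟩, ⟨107930214694, 2, 0, true, false, 8, 84⟩,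
  ⟨78939185446, 1, 0, false, false, 16, 84⟩, ⟨147658662182, 0, 1, true, true, 8, 84⟩,
  ⟨156869353766, 2, 1, false, false, 16, 84⟩, ⟨156869353766, 1, 2, false, true, 14, 42⟩,
  ⟨156869353766, 0, 2, false, true, 9, 42⟩, ⟨19430400294, 1, 2, true, true, 8, 48⟩,
  ⟨142373839142, 1, 0, false, false, 7, 42⟩, ⟨142373839142, 1, 2, false, true, 7, 42⟩,
  ⟨108014100774, 0, 2, true, true, 11, 84⟩, ⟨104293753126, 1, 0, true, false, 5, 84⟩,
  ⟨104293753126, 0, 2, true, true, 11, 84⟩, ⟨26984341798, 2, 0, false, false, 7, 42⟩,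
  ⟨26984341798, 2, 1, false, true, 7, 42⟩, ⟨157175537958, 0, 1, true, true, 8, 84⟩,
  ⟨19736584486, 1, 2, true, true, 8, 84⟩, ⟨142344347942, 1, 0, false, false, 7, 41⟩,
  ⟨142344347942, 1, 2, false, true, 7, 41⟩, ⟨163819184422, 1, 0, false, false, 7, 41⟩,
  ⟨163819184422, 1, 2, false, true, 7, 41⟩, ⟨104763384102, 1, 0, true, false, 5, 82⟩,
  ⟨36043907366, 2, 1, false, true, 15, 82⟩, ⟨36043907366, 2, 1, false, true, 7, 82⟩,
  ⟨104293622054, 1, 0, true, false, 5, 82⟩, ⟨104293622054, 2, 0, false, false, 1, 64⟩,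
  ⟨104293622054, 0, 2, true, true, 11, 64⟩, ⟨147243295014, 1, 0, true, false, 11, 82⟩,
  ⟨26984210726, 2, 0, false, false, 7, 41⟩, ⟨26984210726, 2, 1, false, true, 7, 41⟩,
  ⟨26982553894, 2, 0, false, false, 7, 35⟩, ⟨26982553894, 2, 1, false, true, 7, 35⟩,
  ⟨39062149414, 2, 0, false, true, 14, 35⟩, ⟨39062149414, 1, 0, false, true, 9, 35⟩,
  ⟨107781626150, 2, 0, true, false, 8, 70⟩, ⟨157173750054, 0, 2, false, true, 9, 55⟩,
  ⟨157173750054, 0, 1, true, true, 8, 55⟩, ⟨144175601958, 2, 0, true, false, 5, 70⟩,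
  ⟨144175601958, 0, 1, false, true, 1, 55⟩, ⟨144175601958, 1, 0, true, false, 11, 55⟩,
  ⟨107936815398, 2, 0, true, false, 8, 70⟩, ⟨39217338662, 1, 2, true, true, 8, 70⟩,
  ⟨104312936742, 2, 0, false, false, 1, 55⟩, ⟨104312936742, 0, 2, true, true, 11, 55⟩,
  ⟨78485002534, 2, 0, true, false, 8, 70⟩, ⟨147204479270, 0, 1, true, true, 8, 70⟩,
  ⟨142372641062, 1, 0, false, false, 7, 35⟩, ⟨142372641062, 1, 2, false, true, 7, 35⟩,
  ⟨108012902694, 0, 2, true, true, 11, 70⟩, ⟨26408524070, 1, 2, false, true, 1, 55⟩,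
  ⟨26408524070, 2, 1, true, true, 11, 55⟩, ⟨39066933542, 0, 2, false, false, 16, 67⟩,
  ⟨107786410278, 2, 0, true, false, 8, 67⟩, ⟨77721639206, 1, 0, false, false, 16, 67⟩,
  ⟨77721639206, 0, 1, false, true, 14, 26⟩, ⟨77721639206, 2, 1, false, true, 9, 26⟩,
  ⟨77721639206, 2, 0, true, true, 8, 52⟩, ⟨19739580710, 2, 1, true, false, 11, 67⟩,
  ⟨19739580710, 1, 2, true, true, 8, 67⟩, ⟨107930327334, 0, 2, true, false, 11, 70⟩,
  ⟨107930327334, 2, 0, true, false, 8, 70⟩, ⟨156248709414, 0, 2, false, true, 9, 55⟩,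
  ⟨156248709414, 0, 1, true, true, 8, 55⟩, ⟨147205789990, 1, 0, true, false, 11, 70⟩,
  ⟨78486313254, 2, 1, false, true, 9, 55⟩, ⟨78486313254, 2, 0, true, false, 8, 55⟩,
  ⟨156869466406, 2, 1, false, false, 16, 70⟩, ⟨19430512934, 1, 2, true, true, 8, 33⟩]

theorem kc0 : keyChk 4633 8950 tri0 lv0 = true := by decide +kernel

def lv1 : List Leaf := [
  ⟨104293767314, 1, 2, true, false, 5, 78⟩, ⟨104293767314, 2, 0, false, true, 1, 61⟩,
  ⟨104293767314, 0, 2, true, false, 11, 61⟩, ⟨19736598674, 1, 2, true, false, 8, 78⟩,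
  ⟨26380376210, 1, 2, false, false, 1, 61⟩, ⟨26380376210, 2, 1, true, true, 11, 61⟩,
  ⟨142344493202, 1, 2, false, false, 7, 39⟩, ⟨142344493202, 1, 0, false, true, 7, 39⟩,
  ⟨105530333330, 1, 2, true, false, 5, 78⟩, ⟨75465562258, 0, 2, false, false, 7, 39⟩,
  ⟨75465562258, 0, 1, false, true, 7, 39⟩, ⟨26073438354, 0, 2, true, false, 5, 78⟩,
  ⟨163512391826, 1, 0, false, true, 7, 78⟩, ⟨26408982674, 0, 2, true, false, 5, 78⟩,
  ⟨26408982674, 1, 2, false, false, 1, 61⟩, ⟨26408982674, 2, 1, true, true, 11, 61⟩,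
  ⟨108013361298, 0, 2, true, false, 11, 78⟩, ⟨142373099666, 2, 0, true, true, 5, 61⟩,
  ⟨142373099666, 1, 2, false, false, 7, 31⟩, ⟨142373099666, 1, 0, false, true, 7, 31⟩,
  ⟨36010271122, 2, 0, false, true, 7, 27⟩, ⟨36010271122, 2, 1, false, true, 7, 27⟩,
  ⟨156269355410, 1, 2, false, true, 14, 21⟩, ⟨156269355410, 0, 2, false, false, 9, 21⟩,
  ⟨156269355410, 0, 1, true, true, 8, 42⟩, ⟨144189759890, 2, 1, true, true, 5, 53⟩,
  ⟨144189759890, 0, 1, false, true, 1, 41⟩, ⟨144189759890, 1, 0, true, true, 11, 41⟩,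
  ⟨75470283154, 0, 2, false, false, 7, 27⟩, ⟨75470283154, 0, 1, false, true, 7, 27⟩,
  ⟨77617766802, 1, 0, false, false, 16, 54⟩, ⟨26380149138, 1, 2, false, false, 1, 42⟩,
  ⟨26380149138, 2, 1, true, true, 11, 42⟩, ⟨163819102610, 1, 2, false, false, 7, 54⟩,
  ⟨142344266130, 2, 0, true, true, 5, 42⟩, ⟨142344266130, 1, 2, false, false, 7, 42⟩,
  ⟨104763302290, 1, 2, true, false, 5, 54⟩, ⟨36043825554, 2, 1, false, true, 7, 54⟩,
  ⟨26984210834, 0, 2, true, false, 5, 47⟩, ⟨26984210834, 2, 0, false, true, 7, 24⟩,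
  ⟨26984210834, 2, 1, false, true, 7, 24⟩, ⟨104293622162, 1, 2, true, false, 5, 60⟩,
  ⟨104293622162, 2, 0, false, true, 1, 47⟩, ⟨104293622162, 0, 2, true, false, 11, 47⟩,
  ⟨163819184530, 1, 2, false, false, 7, 30⟩, ⟨163819184530, 1, 0, false, true, 7, 30⟩,
  ⟨142344348050, 2, 0, true, true, 5, 47⟩, ⟨142344348050, 1, 2, false, false, 7, 24⟩,
  ⟨142344348050, 1, 0, false, true, 7, 24⟩, ⟨104763384210, 1, 2, true, false, 5, 60⟩,
  ⟨36043907474, 2, 1, false, true, 15, 60⟩, ⟨36043907474, 2, 1, false, true, 7, 60⟩,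
  ⟨39217947026, 1, 0, false, true, 9, 49⟩, ⟨39217947026, 1, 2, true, false, 8, 49⟩,
  ⟨19622158738, 2, 1, true, true, 11, 62⟩, ⟨105529893266, 1, 2, true, false, 5, 62⟩,
  ⟨78485021074, 2, 0, true, true, 8, 62⟩, ⟨147204497810, 0, 1, true, true, 8, 62⟩,
  ⟨36047458706, 2, 1, false, true, 15, 58⟩, ⟨36047458706, 2, 1, false, true, 7, 58⟩,
  ⟨105530298770, 1, 2, true, false, 5, 56⟩, ⟨144185004434, 0, 1, false, true, 1, 44⟩,
  ⟨144185004434, 1, 0, true, true, 11, 44⟩, ⟨75465527698, 0, 2, false, false, 7, 28⟩,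
  ⟨75465527698, 0, 1, false, true, 7, 28⟩, ⟨26073403794, 0, 2, true, false, 5, 56⟩,
  ⟨163512357266, 1, 0, false, true, 15, 56⟩, ⟨163512357266, 1, 0, false, true, 7, 56⟩,
  ⟨77730451858, 1, 0, false, false, 16, 54⟩, ⟨77730451858, 0, 1, false, true, 14, 21⟩,
  ⟨77730451858, 2, 1, false, true, 9, 21⟩, ⟨77730451858, 2, 0, true, true, 8, 42⟩,
  ⟨163629797778, 1, 0, false, true, 15, 54⟩, ⟨163629797778, 1, 2, false, false, 7, 27⟩,
  ⟨163629797778, 1, 0, false, true, 7, 27⟩, ⟨26382471570, 1, 2, false, false, 1, 45⟩,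
  ⟨26382471570, 2, 1, true, true, 11, 45⟩, ⟨163821425042, 1, 2, false, false, 7, 29⟩,
  ⟨163821425042, 1, 0, false, true, 7, 29⟩, ⟨144041087378, 2, 0, true, false, 5, 58⟩,
  ⟨75321610642, 0, 2, false, true, 15, 58⟩, ⟨27003228562, 0, 2, true, false, 5, 45⟩,
  ⟨27003228562, 2, 0, false, true, 7, 23⟩, ⟨27003228562, 2, 1, false, false, 7, 23⟩,
  ⟨105520599442, 1, 2, true, false, 5, 58⟩, ⟨144175305106, 2, 0, true, false, 5, 58⟩,
  ⟨144175305106, 0, 1, false, true, 1, 45⟩, ⟨144175305106, 1, 0, true, true, 11, 45⟩,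
  ⟨108014110246, 0, 2, true, false, 11, 69⟩, ⟨78486210086, 2, 1, false, true, 9, 54⟩,
  ⟨78486210086, 2, 0, true, true, 8, 54⟩, ⟨19736593958, 1, 2, true, false, 8, 69⟩,
  ⟨157175547430, 0, 1, true, true, 8, 69⟩, ⟨26380371494, 1, 2, false, false, 1, 69⟩,
  ⟨163819324966, 1, 2, false, false, 7, 35⟩, ⟨163819324966, 1, 0, false, true, 7, 35⟩,
  ⟨142344488486, 2, 0, true, true, 5, 54⟩, ⟨142344488486, 1, 2, false, false, 7, 27⟩,
  ⟨142344488486, 1, 0, false, true, 7, 27⟩, ⟨27003225638, 0, 2, true, false, 5, 54⟩,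
  ⟨27003225638, 2, 0, false, true, 7, 27⟩, ⟨27003225638, 2, 1, false, true, 7, 27⟩,
  ⟨35593160230, 2, 0, false, true, 7, 35⟩, ⟨35593160230, 2, 1, false, true, 7, 35⟩,
  ⟨105520596518, 1, 2, true, false, 5, 69⟩, ⟨19621250598, 2, 1, true, true, 11, 69⟩,
  ⟨144175302182, 2, 0, true, false, 5, 69⟩, ⟨144175302182, 0, 1, false, true, 1, 54⟩,
  ⟨144175302182, 1, 0, true, true, 11, 54⟩, ⟨144189834790, 0, 1, false, true, 1, 54⟩,
  ⟨144189834790, 1, 0, true, true, 11, 54⟩, ⟨75470358054, 0, 2, false, false, 7, 35⟩,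
  ⟨75470358054, 0, 1, false, true, 7, 35⟩, ⟨105529886246, 1, 2, true, false, 5, 69⟩,
  ⟨144184591910, 0, 1, false, true, 1, 54⟩, ⟨144184591910, 1, 0, true, true, 11, 54⟩,
  ⟨75465115174, 0, 2, false, false, 7, 35⟩, ⟨75465115174, 0, 1, false, false, 7, 35⟩,
  ⟨108012914214, 0, 2, true, false, 11, 69⟩, ⟨147204490790, 0, 1, true, true, 8, 69⟩,
  ⟨26382583334, 0, 2, true, false, 5, 67⟩, ⟨26382583334, 1, 2, false, false, 1, 53⟩,
  ⟨26382583334, 2, 1, true, true, 11, 53⟩, ⟨163821536806, 1, 2, false, false, 7, 34⟩,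
  ⟨163821536806, 1, 0, false, true, 7, 34⟩, ⟨40878097958, 2, 0, false, true, 14, 27⟩,
  ⟨40878097958, 1, 0, false, true, 9, 26⟩, ⟨40878097958, 1, 2, true, false, 8, 53⟩,
  ⟨75237836326, 0, 2, false, false, 7, 34⟩, ⟨75237836326, 0, 1, false, true, 7, 34⟩,
  ⟨144041199142, 2, 0, true, false, 5, 68⟩, ⟨27003340326, 0, 2, true, false, 5, 53⟩,
  ⟨27003340326, 2, 0, false, true, 7, 26⟩, ⟨27003340326, 2, 1, false, true, 7, 26⟩,
  ⟨104312751654, 2, 0, false, true, 1, 53⟩, ⟨104312751654, 0, 2, true, false, 11, 53⟩,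
  ⟨35593274918, 2, 0, false, true, 7, 34⟩, ⟨35593274918, 2, 1, false, false, 7, 34⟩,
  ⟨39217947206, 1, 0, false, true, 9, 49⟩, ⟨39217947206, 1, 2, true, false, 8, 49⟩,
  ⟨78946394694, 0, 1, false, true, 14, 31⟩, ⟨78946394694, 2, 1, false, true, 9, 31⟩,
  ⟨147665871430, 0, 1, true, true, 8, 63⟩, ⟨19622158918, 2, 1, true, true, 11, 63⟩,
  ⟨78958322246, 1, 0, false, false, 16, 63⟩, ⟨156267733574, 1, 2, false, true, 14, 31⟩,
  ⟨156267733574, 0, 2, false, false, 9, 31⟩, ⟨40907596358, 2, 0, false, true, 14, 24⟩,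
  ⟨40907596358, 1, 0, false, true, 9, 24⟩, ⟨40907596358, 1, 2, true, false, 8, 49⟩,
  ⟨78488560198, 2, 1, false, true, 9, 49⟩, ⟨78488560198, 2, 0, true, true, 8, 49⟩,
  ⟨19734749766, 2, 1, true, false, 11, 63⟩, ⟨157173703238, 0, 2, false, true, 9, 49⟩,
  ⟨157173703238, 0, 1, true, true, 8, 49⟩, ⟨39062102598, 0, 2, false, false, 16, 63⟩,
  ⟨107781579334, 2, 0, true, true, 8, 63⟩, ⟨157178532422, 0, 2, false, true, 9, 49⟩,
  ⟨157178532422, 0, 1, true, true, 8, 49⟩, ⟨77721637446, 1, 0, false, false, 16, 63⟩,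
  ⟨77721637446, 0, 1, false, true, 14, 24⟩, ⟨77721637446, 2, 1, false, true, 9, 24⟩,
  ⟨77721637446, 2, 0, true, true, 8, 49⟩, ⟨107786408518, 2, 0, true, true, 8, 63⟩,
  ⟨78946374214, 1, 0, false, false, 16, 63⟩, ⟨78946374214, 2, 1, false, true, 9, 63⟩,
  ⟨147665850950, 0, 1, true, true, 8, 63⟩, ⟨105521484358, 1, 2, true, false, 5, 63⟩,
  ⟨156869464646, 1, 2, false, true, 14, 63⟩, ⟨19430511174, 1, 2, true, false, 8, 63⟩,
  ⟨78486311494, 2, 1, false, true, 9, 63⟩, ⟨77731336774, 0, 1, false, true, 14, 31⟩,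
  ⟨77731336774, 2, 1, false, true, 9, 31⟩, ⟨163630682694, 1, 0, false, true, 15, 63⟩,
  ⟨39076631110, 0, 2, false, false, 16, 63⟩, ⟨39076631110, 2, 0, false, true, 14, 31⟩,
  ⟨39076631110, 1, 0, false, true, 9, 31⟩, ⟨108014110278, 0, 2, true, false, 11, 56⟩,
  ⟨156869363270, 1, 2, false, true, 14, 28⟩, ⟨156869363270, 0, 2, false, true, 9, 28⟩,
  ⟨19430409798, 1, 2, true, false, 8, 56⟩, ⟨78486210118, 2, 1, false, true, 9, 44⟩,
  ⟨78486210118, 2, 0, true, true, 8, 44⟩, ⟨26380371526, 1, 2, false, false, 1, 44⟩,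
  ⟨26380371526, 2, 1, true, true, 11, 44⟩, ⟨163819324998, 1, 2, false, false, 7, 28⟩,
  ⟨163819324998, 1, 0, false, true, 7, 28⟩, ⟨142344488518, 2, 0, true, true, 5, 44⟩,
  ⟨142344488518, 1, 2, false, false, 7, 22⟩, ⟨142344488518, 1, 0, false, true, 7, 22⟩,
  ⟨144041084486, 2, 0, true, false, 5, 56⟩, ⟨75321607750, 0, 2, false, true, 15, 56⟩,
  ⟨75321607750, 0, 2, false, false, 7, 56⟩, ⟨27003225670, 0, 2, true, false, 5, 44⟩,
  ⟨27003225670, 2, 0, false, true, 7, 22⟩, ⟨27003225670, 2, 1, false, true, 7, 22⟩,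
  ⟨35593160262, 2, 0, false, true, 7, 28⟩, ⟨35593160262, 2, 1, false, true, 7, 28⟩,
  ⟨105520596550, 1, 2, true, false, 5, 56⟩, ⟨19621250630, 2, 1, true, true, 11, 56⟩,
  ⟨39217366598, 1, 2, true, false, 8, 56⟩, ⟨107936843334, 2, 0, true, true, 8, 56⟩,
  ⟨105520924230, 1, 2, true, false, 5, 56⟩, ⟨19621578310, 2, 1, true, true, 11, 56⟩,
  ⟨144175629894, 2, 0, true, false, 5, 56⟩, ⟨19432834630, 1, 2, true, false, 8, 56⟩,
  ⟨78488634950, 2, 1, false, true, 9, 44⟩, ⟨78488634950, 2, 0, true, true, 8, 44⟩,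
  ⟨147208111686, 0, 1, true, true, 8, 56⟩, ⟨26982581830, 0, 2, true, false, 5, 44⟩,
  ⟨26982581830, 2, 0, false, true, 7, 22⟩, ⟨26982581830, 2, 1, false, false, 7, 22⟩,
  ⟨39062177350, 0, 2, false, false, 16, 56⟩, ⟨39062177350, 2, 0, false, true, 14, 28⟩,
  ⟨39062177350, 1, 0, false, true, 9, 28⟩]

theorem kc1 : keyChk 35205 8950 tri1 lv1 = true := by decide +kernel

def lv2 : List Leaf := [
  ⟨36047440153, 2, 1, false, false, 7, 72⟩, ⟨39067339033, 0, 2, false, false, 16, 72⟩,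
  ⟨77722044697, 2, 0, true, true, 8, 72⟩, ⟨163629779225, 1, 0, false, true, 15, 72⟩,
  ⟨77730433305, 1, 0, false, false, 16, 72⟩, ⟨77730433305, 2, 0, true, true, 8, 72⟩,
  ⟨40954775833, 0, 2, false, false, 16, 72⟩, ⟨144033990937, 2, 1, true, false, 5, 72⟩,
  ⟨147208030489, 1, 0, true, false, 11, 72⟩, ⟨147208030489, 0, 1, true, false, 8, 72⟩,
  ⟨40907589913, 2, 0, false, true, 14, 28⟩, ⟨40907589913, 1, 0, false, true, 9, 28⟩,
  ⟨40907589913, 1, 2, true, true, 8, 56⟩, ⟨19432753433, 1, 2, true, true, 8, 72⟩,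
  ⟨78958315801, 1, 0, false, false, 16, 72⟩, ⟨78958315801, 0, 1, false, true, 14, 72⟩,
  ⟨156267727129, 0, 2, false, true, 9, 72⟩, ⟨36008642841, 2, 1, false, true, 15, 72⟩,
  ⟨40907671833, 2, 0, false, true, 14, 28⟩, ⟨40907671833, 1, 0, false, true, 9, 28⟩,
  ⟨40907671833, 1, 2, true, false, 8, 56⟩, ⟨156871788825, 2, 1, false, false, 16, 72⟩,
  ⟨19432835353, 1, 2, true, false, 8, 72⟩, ⟨39062178073, 0, 2, false, false, 16, 72⟩,
  ⟨39062178073, 2, 0, false, true, 14, 36⟩, ⟨39062178073, 1, 0, false, true, 9, 36⟩,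
  ⟨26982582553, 0, 1, true, false, 5, 56⟩, ⟨26982582553, 2, 1, false, false, 7, 28⟩,
  ⟨26982582553, 2, 0, false, true, 7, 28⟩, ⟨147665815833, 0, 1, true, false, 8, 72⟩,
  ⟨107937368345, 0, 2, true, false, 11, 72⟩, ⟨39217891609, 1, 0, false, true, 9, 56⟩,
  ⟨39217891609, 1, 2, true, true, 8, 56⟩, ⟨39076333849, 0, 2, false, false, 16, 38⟩,
  ⟨163630385433, 1, 0, false, true, 15, 39⟩, ⟨40955382041, 0, 2, false, false, 16, 72⟩,
  ⟨75315120409, 0, 2, false, true, 15, 72⟩, ⟨75315120409, 0, 2, false, true, 7, 72⟩,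
  ⟨147658475801, 0, 1, true, false, 8, 72⟩, ⟨156248410393, 2, 1, false, false, 16, 72⟩,
  ⟨156248410393, 0, 2, false, true, 9, 56⟩, ⟨156248410393, 0, 1, true, false, 8, 56⟩,
  ⟨156306543129, 2, 1, false, false, 16, 63⟩, ⟨36047458841, 2, 1, false, true, 15, 63⟩,
  ⟨40879297049, 2, 0, false, true, 14, 25⟩, ⟨40879297049, 1, 0, false, true, 9, 25⟩,
  ⟨40879297049, 1, 2, true, true, 8, 49⟩, ⟨75239035417, 0, 2, false, true, 15, 63⟩,
  ⟨75239035417, 0, 1, false, false, 7, 32⟩, ⟨75239035417, 0, 2, false, true, 7, 32⟩,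
  ⟨156843414041, 0, 2, false, true, 9, 63⟩, ⟨163629797913, 1, 0, false, true, 15, 60⟩,
  ⟨77730451993, 1, 0, false, false, 16, 60⟩, ⟨77730451993, 0, 1, false, true, 14, 47⟩,
  ⟨77730451993, 2, 0, true, true, 8, 47⟩, ⟨104305562137, 1, 0, true, true, 5, 58⟩,
  ⟨104305562137, 2, 0, false, true, 1, 45⟩, ⟨104305562137, 0, 2, true, true, 11, 45⟩,
  ⟨35586085401, 2, 1, false, false, 7, 29⟩, ⟨35586085401, 2, 0, false, true, 7, 29⟩,
  ⟨144185004569, 0, 1, false, false, 1, 60⟩, ⟨75465527833, 0, 1, false, false, 7, 30⟩,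
  ⟨75465527833, 0, 2, false, true, 7, 30⟩, ⟨26073403929, 0, 1, true, false, 5, 60⟩,
  ⟨163512357401, 1, 0, false, true, 15, 60⟩, ⟨163512357401, 1, 0, false, true, 7, 60⟩,
  ⟨39076631065, 0, 2, false, false, 16, 50⟩, ⟨39076631065, 2, 0, false, true, 14, 41⟩,
  ⟨39076631065, 1, 0, false, true, 9, 41⟩, ⟨163630682649, 1, 0, false, true, 15, 51⟩,
  ⟨107930325529, 0, 2, true, false, 11, 81⟩, ⟨39210848793, 1, 0, false, true, 9, 63⟩,
  ⟨39210848793, 1, 2, true, true, 8, 63⟩, ⟨147205788185, 1, 0, true, false, 11, 81⟩,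
  ⟨78486311449, 2, 0, true, true, 8, 81⟩, ⟨19430511129, 1, 2, true, true, 8, 81⟩,
  ⟨40907444761, 2, 0, false, true, 14, 32⟩, ⟨40907444761, 1, 0, false, true, 9, 32⟩,
  ⟨40907444761, 1, 2, true, true, 8, 63⟩, ⟨163515339289, 1, 0, false, true, 15, 81⟩,
  ⟨77615993369, 1, 0, false, false, 16, 80⟩, ⟨78958170649, 1, 0, false, false, 16, 80⟩,
  ⟨78958170649, 0, 1, false, true, 14, 80⟩, ⟨36008497689, 2, 1, false, true, 15, 80⟩,
  ⟨36008497689, 2, 1, false, false, 7, 40⟩, ⟨36008497689, 2, 0, false, true, 7, 40⟩,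
  ⟨39067346017, 0, 2, false, false, 16, 86⟩, ⟨77722051681, 1, 0, false, false, 16, 86⟩,
  ⟨77722051681, 0, 1, false, true, 14, 67⟩, ⟨77722051681, 2, 0, true, true, 8, 67⟩,
  ⟨144189760609, 2, 1, true, false, 5, 83⟩, ⟨144189760609, 0, 1, false, false, 1, 83⟩,
  ⟨75470283873, 0, 1, false, false, 7, 41⟩, ⟨75470283873, 0, 2, false, true, 7, 41⟩,
  ⟨156269356129, 2, 1, false, false, 16, 76⟩, ⟨156269356129, 0, 2, false, true, 9, 59⟩,
  ⟨156269356129, 0, 1, true, false, 8, 59⟩, ⟨36010271841, 2, 1, false, true, 15, 76⟩,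
  ⟨36010271841, 2, 1, false, false, 7, 38⟩, ⟨36010271841, 2, 0, false, true, 7, 38⟩,
  ⟨39076308065, 2, 0, false, true, 14, 41⟩, ⟨39076308065, 1, 0, false, true, 9, 41⟩,
  ⟨163630359649, 1, 0, false, true, 15, 51⟩, ⟨77731013729, 2, 0, true, true, 8, 83⟩,
  ⟨40955356257, 0, 2, false, false, 16, 83⟩, ⟨75315094625, 0, 2, false, true, 15, 83⟩,
  ⟨75315094625, 0, 2, false, true, 7, 83⟩, ⟨39076635745, 0, 2, false, false, 16, 51⟩,
  ⟨39076635745, 2, 0, false, true, 14, 41⟩, ⟨39076635745, 1, 0, false, true, 9, 41⟩,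
  ⟨163630687329, 1, 0, false, true, 15, 51⟩, ⟨77731341409, 0, 1, false, true, 14, 83⟩,
  ⟨147658777697, 0, 1, true, false, 8, 83⟩, ⟨107930330209, 0, 2, true, false, 11, 83⟩,
  ⟨39210853473, 1, 2, true, true, 8, 83⟩, ⟨156305335393, 2, 1, false, false, 16, 83⟩,
  ⟨26382574689, 0, 2, true, true, 5, 83⟩, ⟨163821528161, 1, 2, false, true, 7, 41⟩,
  ⟨163821528161, 1, 0, false, true, 7, 41⟩, ⟨40878089313, 0, 2, false, false, 16, 76⟩,
  ⟨40878089313, 2, 0, false, true, 14, 59⟩, ⟨40878089313, 1, 2, true, true, 8, 59⟩,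
  ⟨75237827681, 0, 2, false, true, 15, 76⟩, ⟨75237827681, 0, 1, false, false, 7, 38⟩,
  ⟨75237827681, 0, 2, false, true, 7, 38⟩, ⟨147205789985, 1, 0, true, false, 11, 86⟩,
  ⟨78486313249, 2, 0, true, true, 8, 86⟩, ⟨156869466401, 2, 1, false, false, 16, 86⟩,
  ⟨19430512929, 1, 2, true, true, 8, 86⟩, ⟨108012902689, 0, 2, true, true, 11, 86⟩,
  ⟨142372641057, 2, 1, true, false, 5, 86⟩, ⟨26408524065, 0, 1, true, false, 5, 86⟩,
  ⟨26408524065, 1, 2, false, true, 1, 86⟩, ⟨147204479265, 0, 1, true, false, 8, 86⟩,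
  ⟨78485002529, 2, 0, true, true, 8, 86⟩, ⟨147208112417, 1, 0, true, false, 11, 79⟩,
  ⟨147208112417, 0, 1, true, false, 8, 79⟩, ⟨78488635681, 2, 0, true, true, 8, 79⟩,
  ⟨40907671841, 2, 0, false, true, 14, 31⟩, ⟨40907671841, 1, 0, false, true, 9, 31⟩,
  ⟨40907671841, 1, 2, true, true, 8, 62⟩, ⟨156871788833, 2, 1, false, false, 16, 79⟩,
  ⟨19432835361, 1, 2, true, true, 8, 79⟩, ⟨39062178081, 0, 2, false, false, 16, 83⟩,
  ⟨39062178081, 2, 0, false, true, 14, 41⟩, ⟨39062178081, 1, 0, false, true, 9, 41⟩,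
  ⟨147665815841, 0, 1, true, false, 8, 83⟩, ⟨107937368353, 0, 2, true, false, 11, 83⟩,
  ⟨39217891617, 1, 0, false, true, 9, 83⟩, ⟨40878836001, 1, 0, false, true, 9, 83⟩,
  ⟨75238574369, 0, 2, false, true, 15, 83⟩, ⟨156842952993, 2, 1, false, false, 16, 83⟩,
  ⟨156842952993, 0, 2, false, true, 9, 83⟩, ⟨39076333857, 0, 2, false, false, 16, 53⟩,
  ⟨39076333857, 1, 0, false, true, 9, 83⟩, ⟨78938999073, 1, 0, false, false, 16, 83⟩,
  ⟨147658475809, 0, 1, true, false, 8, 83⟩, ⟨156248410401, 2, 1, false, false, 16, 83⟩,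
  ⟨156248410401, 0, 2, false, true, 9, 65⟩, ⟨156248410401, 0, 1, true, false, 8, 65⟩]

theorem kc2 : keyChk 25754 8950 tri2 lv2 = true := by decide +kernel

def lv3 : List Leaf := [
  ⟨27003225670, 0, 1, true, false, 5, 98⟩, ⟨27003225670, 2, 1, false, false, 7, 49⟩,
  ⟨27003225670, 2, 0, false, true, 7, 48⟩, ⟨35593160262, 2, 1, false, false, 7, 63⟩,
  ⟨35593160262, 2, 0, false, true, 7, 62⟩, ⟨144041084486, 2, 1, true, false, 5, 125⟩,
  ⟨75321607750, 0, 2, false, true, 7, 125⟩, ⟨144175302214, 1, 0, true, true, 11, 125⟩,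
  ⟨19621250630, 2, 1, true, false, 11, 125⟩, ⟨105520596550, 1, 2, true, true, 5, 98⟩,
  ⟨105520596550, 0, 1, false, false, 7, 49⟩, ⟨105520596550, 0, 2, false, true, 7, 48⟩,
  ⟨39076631110, 2, 0, false, true, 14, 63⟩, ⟨39076631110, 1, 0, false, true, 9, 62⟩,
  ⟨77731336774, 0, 1, false, true, 14, 63⟩, ⟨77731336774, 2, 1, false, false, 9, 62⟩,
  ⟨156869464646, 2, 1, false, false, 16, 125⟩, ⟨156869464646, 1, 2, false, true, 14, 125⟩,
  ⟨19430511174, 1, 2, true, true, 8, 125⟩, ⟨156871561798, 2, 1, false, false, 16, 123⟩,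
  ⟨19432608326, 1, 2, true, true, 8, 123⟩, ⟨78958170694, 1, 0, false, false, 16, 125⟩,
  ⟨78958170694, 0, 1, false, true, 14, 63⟩, ⟨78958170694, 2, 1, false, true, 9, 62⟩,
  ⟨36008497734, 2, 1, false, true, 15, 124⟩, ⟨36008497734, 2, 1, false, false, 7, 62⟩,
  ⟨36008497734, 2, 0, false, true, 7, 62⟩, ⟨105521484358, 1, 2, true, true, 5, 97⟩,
  ⟨105521484358, 0, 1, false, false, 7, 48⟩, ⟨105521484358, 0, 2, false, true, 7, 48⟩,
  ⟨78946374214, 1, 0, false, false, 16, 124⟩, ⟨78946374214, 0, 1, false, true, 14, 62⟩,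
  ⟨78946374214, 2, 1, false, true, 9, 62⟩, ⟨19739578950, 2, 1, true, false, 11, 119⟩,
  ⟨157178532422, 0, 1, true, false, 8, 119⟩, ⟨19739578950, 1, 2, true, true, 8, 119⟩,
  ⟨107786408518, 2, 0, true, true, 8, 119⟩, ⟨77721637446, 1, 0, false, false, 16, 119⟩,
  ⟨77721637446, 0, 1, false, true, 14, 46⟩, ⟨77721637446, 2, 1, false, false, 9, 46⟩,
  ⟨77721637446, 2, 0, true, true, 8, 92⟩, ⟨19622158918, 2, 1, true, false, 11, 125⟩,
  ⟨78946394694, 0, 1, false, true, 14, 63⟩, ⟨78946394694, 2, 1, false, true, 9, 62⟩,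
  ⟨39217947206, 1, 0, false, true, 9, 98⟩, ⟨39217947206, 1, 2, true, true, 8, 97⟩,
  ⟨26408542790, 0, 1, true, false, 5, 125⟩, ⟨26408542790, 1, 2, false, true, 1, 98⟩,
  ⟨26408542790, 2, 1, true, false, 11, 97⟩, ⟨147204497990, 0, 1, true, false, 8, 125⟩,
  ⟨78485021254, 2, 0, true, true, 8, 125⟩, ⟨144184599110, 1, 0, true, true, 11, 125⟩,
  ⟨75465122374, 0, 1, false, false, 7, 63⟩, ⟨75465122374, 0, 2, false, true, 7, 62⟩,
  ⟨105529893446, 1, 2, true, true, 5, 125⟩, ⟨78939186310, 1, 0, false, false, 16, 86⟩,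
  ⟨147658663046, 0, 1, true, false, 8, 86⟩, ⟨156248597638, 2, 1, false, false, 16, 86⟩,
  ⟨156248597638, 1, 2, false, true, 14, 67⟩, ⟨156248597638, 0, 1, true, false, 8, 67⟩,
  ⟨39210738822, 1, 0, false, true, 9, 67⟩, ⟨39210738822, 1, 2, true, true, 8, 67⟩,
  ⟨107930215558, 2, 0, true, true, 8, 86⟩, ⟨142373840006, 2, 1, true, false, 5, 76⟩,
  ⟨142373840006, 1, 2, false, true, 7, 38⟩, ⟨142373840006, 1, 0, false, true, 7, 38⟩,
  ⟨156869354630, 2, 1, false, false, 16, 97⟩, ⟨19430401158, 1, 2, true, true, 8, 97⟩,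
  ⟨156306531462, 2, 1, false, false, 16, 97⟩, ⟨36047447174, 2, 1, false, true, 15, 97⟩,
  ⟨36047447174, 2, 1, false, false, 7, 97⟩, ⟨75239023750, 0, 2, false, true, 15, 97⟩,
  ⟨75239023750, 0, 1, false, false, 7, 49⟩, ⟨75239023750, 0, 2, false, true, 7, 49⟩,
  ⟨156843402374, 2, 1, false, false, 16, 97⟩, ⟨39076635782, 2, 0, false, true, 14, 49⟩,
  ⟨39076635782, 1, 0, false, true, 9, 49⟩, ⟨77731341446, 0, 1, false, true, 14, 49⟩,
  ⟨77731341446, 2, 1, false, false, 9, 49⟩, ⟨147658777734, 0, 1, true, false, 8, 97⟩,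
  ⟨156248712326, 1, 2, false, true, 14, 76⟩, ⟨156248712326, 0, 1, true, false, 8, 76⟩,
  ⟨107930330246, 0, 2, true, false, 11, 97⟩, ⟨39210853510, 1, 2, true, true, 8, 97⟩,
  ⟨107930330246, 2, 0, true, true, 8, 97⟩, ⟨156871566470, 2, 1, false, false, 16, 74⟩,
  ⟨19432612998, 1, 2, true, true, 8, 74⟩, ⟨163515344006, 1, 0, false, true, 15, 97⟩,
  ⟨163515344006, 1, 0, false, true, 7, 97⟩, ⟨77615998086, 1, 0, false, false, 16, 97⟩,
  ⟨147208111238, 1, 0, true, false, 11, 84⟩, ⟨78488634502, 2, 1, false, true, 9, 65⟩,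
  ⟨147208111238, 0, 1, true, false, 8, 83⟩, ⟨78488634502, 2, 0, true, true, 8, 65⟩,
  ⟨156871787654, 2, 1, false, false, 16, 56⟩, ⟨19432834182, 1, 2, true, true, 8, 56⟩,
  ⟨26982581382, 0, 1, true, false, 5, 67⟩, ⟨26982581382, 2, 1, false, false, 7, 33⟩,
  ⟨26982581382, 2, 0, false, true, 7, 33⟩, ⟨147241665670, 1, 0, true, true, 11, 85⟩,
  ⟨144175629446, 2, 1, true, false, 5, 85⟩, ⟨144175629446, 1, 0, true, true, 11, 85⟩,
  ⟨19621577862, 2, 1, true, false, 11, 85⟩, ⟨105520923782, 1, 2, true, true, 5, 67⟩,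
  ⟨105520923782, 0, 1, false, false, 7, 33⟩, ⟨105520923782, 0, 2, false, true, 7, 33⟩,
  ⟨78946337926, 1, 0, false, false, 16, 84⟩, ⟨78946337926, 0, 1, false, true, 14, 84⟩,
  ⟨107937367174, 0, 2, true, false, 11, 84⟩, ⟨39217890438, 1, 0, false, true, 9, 66⟩,
  ⟨39217890438, 1, 2, true, true, 8, 66⟩, ⟨40878834822, 2, 0, false, true, 14, 84⟩,
  ⟨156842951814, 2, 1, false, false, 16, 84⟩, ⟨156842951814, 1, 2, false, true, 14, 84⟩,
  ⟨19739542662, 2, 1, true, false, 11, 84⟩, ⟨157178496134, 0, 1, true, false, 8, 84⟩,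
  ⟨19739542662, 1, 2, true, true, 8, 84⟩, ⟨77721601158, 2, 0, true, true, 8, 84⟩]

theorem kc3 : keyChk 25753 8647 tri3 lv3 = true := by decide +kernel

end Pool.Agent.SqfBridge
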