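import Pool.Agent.SqfBridge.CertKeys
import Pool.Agent.SqfBridge.LeafKern

set_option autoImplicit false

namespace Pool.Agent.SqfBridge

def lv4 : List Leaf := [
  ⟨19739580710, 2, 1, true, false, 11, 74⟩, ⟨19739580710, 1, 2, true, false, 8, 74⟩,
  ⟨77721639206, 1, 0, false, false, 16, 74⟩, ⟨77721639206, 0, 1, false, true, 14, 29⟩,
  ⟨77721639206, 2, 1, false, true, 9, 29⟩, ⟨77721639206, 2, 0, true, true, 8, 58⟩,
  ⟨39066933542, 0, 2, false, false, 16, 74⟩, ⟨107786410278, 2, 0, true, true, 8, 74⟩,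
  ⟨26408524070, 0, 2, true, false, 5, 77⟩, ⟨26408524070, 1, 2, false, false, 1, 60⟩,
  ⟨26408524070, 2, 1, true, true, 11, 60⟩, ⟨108012902694, 0, 2, true, false, 11, 77⟩,
  ⟨142372641062, 2, 0, true, true, 5, 60⟩, ⟨142372641062, 1, 2, false, false, 7, 30⟩,
  ⟨142372641062, 1, 0, false, true, 7, 30⟩, ⟨78485002534, 2, 0, true, true, 8, 77⟩,
  ⟨147204479270, 0, 1, true, true, 8, 77⟩, ⟨156869466406, 2, 1, false, false, 16, 77⟩,
  ⟨19430512934, 1, 2, true, false, 8, 77⟩, ⟨78486313254, 2, 1, false, true, 9, 60⟩,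
  ⟨78486313254, 2, 0, true, true, 8, 60⟩, ⟨107930327334, 0, 2, true, false, 11, 77⟩,
  ⟨39210850598, 1, 0, false, true, 9, 60⟩, ⟨39210850598, 1, 2, true, false, 8, 60⟩,
  ⟨107930327334, 2, 0, true, true, 8, 45⟩, ⟨156248709414, 0, 2, false, false, 9, 60⟩,
  ⟨156248709414, 0, 1, true, true, 8, 60⟩, ⟨39217338662, 1, 2, true, false, 8, 81⟩,
  ⟨107936815398, 2, 0, true, true, 8, 81⟩, ⟨144175601958, 2, 0, true, false, 5, 81⟩,
  ⟨144175601958, 0, 1, false, true, 1, 63⟩, ⟨144175601958, 1, 0, true, true, 11, 63⟩,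
  ⟨147241638182, 1, 0, true, true, 11, 81⟩, ⟨26982553894, 2, 0, false, true, 7, 41⟩,
  ⟨26982553894, 2, 1, false, true, 7, 41⟩, ⟨157173750054, 0, 2, false, true, 9, 63⟩,
  ⟨157173750054, 0, 1, true, true, 8, 63⟩, ⟨39062149414, 2, 0, false, true, 14, 41⟩,
  ⟨39062149414, 1, 0, false, true, 9, 41⟩, ⟨107781626150, 2, 0, true, true, 8, 81⟩,
  ⟨27003527462, 0, 2, true, false, 5, 60⟩, ⟨27003527462, 2, 0, false, true, 7, 30⟩,
  ⟨27003527462, 2, 1, false, true, 7, 30⟩, ⟨107936817446, 2, 0, true, false, 8, 77⟩,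
  ⟨19621552422, 2, 1, true, true, 11, 77⟩, ⟨144175604006, 2, 0, true, false, 5, 77⟩,
  ⟨144175604006, 0, 1, false, true, 1, 60⟩, ⟨144175604006, 1, 0, true, false, 11, 60⟩,
  ⟨26073440550, 0, 2, true, false, 5, 77⟩, ⟨26408984870, 0, 2, true, false, 5, 77⟩,
  ⟨26408984870, 1, 2, false, false, 1, 60⟩, ⟨26408984870, 2, 1, true, true, 11, 60⟩,
  ⟨108013363494, 0, 2, true, false, 11, 77⟩, ⟨142373101862, 2, 0, true, true, 5, 77⟩,
  ⟨144034046246, 2, 0, true, false, 5, 77⟩, ⟨75314569510, 0, 2, false, true, 15, 77⟩,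
  ⟨104305598758, 2, 0, false, true, 1, 60⟩, ⟨104305598758, 0, 2, true, false, 11, 60⟩,
  ⟨35586122022, 2, 0, false, true, 7, 39⟩, ⟨35586122022, 2, 1, false, true, 7, 39⟩,
  ⟨147243295014, 1, 0, true, true, 11, 74⟩, ⟨26984210726, 0, 2, true, false, 5, 58⟩,
  ⟨26984210726, 2, 0, false, true, 7, 29⟩, ⟨26984210726, 2, 1, false, true, 7, 29⟩,
  ⟨104293622054, 1, 2, true, false, 5, 74⟩, ⟨104293622054, 2, 0, false, true, 1, 58⟩,
  ⟨104293622054, 0, 2, true, false, 11, 58⟩, ⟨142344347942, 2, 0, true, true, 5, 58⟩,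
  ⟨142344347942, 1, 2, false, false, 7, 29⟩, ⟨142344347942, 1, 0, false, true, 7, 29⟩,
  ⟨104763384102, 1, 2, true, false, 5, 74⟩, ⟨36043907366, 2, 1, false, true, 15, 74⟩,
  ⟨36043907366, 2, 1, false, true, 7, 74⟩, ⟨156869353766, 2, 1, false, false, 16, 73⟩,
  ⟨156869353766, 1, 2, false, true, 14, 37⟩, ⟨156869353766, 0, 2, false, true, 9, 37⟩,
  ⟨19430400294, 1, 2, true, false, 8, 73⟩, ⟨107930214694, 0, 2, true, false, 11, 73⟩,
  ⟨39210737958, 1, 0, false, true, 9, 57⟩, ⟨39210737958, 1, 2, true, false, 8, 57⟩,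
  ⟨107930214694, 2, 0, true, true, 8, 40⟩, ⟨78939185446, 1, 0, false, false, 16, 73⟩,
  ⟨147658662182, 0, 1, true, true, 8, 73⟩, ⟨147243426086, 1, 0, true, true, 11, 73⟩,
  ⟨26984341798, 0, 2, true, false, 5, 57⟩, ⟨26984341798, 2, 0, false, true, 7, 29⟩,
  ⟨26984341798, 2, 1, false, true, 7, 29⟩, ⟨104293753126, 1, 2, true, false, 5, 73⟩,
  ⟨104293753126, 0, 2, true, false, 11, 73⟩, ⟨19736584486, 1, 2, true, false, 8, 73⟩,
  ⟨157175537958, 0, 1, true, true, 8, 73⟩, ⟨77731341446, 0, 1, false, true, 14, 44⟩,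
  ⟨77731341446, 2, 1, false, true, 9, 44⟩, ⟨39076635782, 0, 2, false, false, 16, 87⟩,
  ⟨39076635782, 1, 0, false, true, 9, 87⟩, ⟨107930330246, 0, 2, true, false, 11, 87⟩,
  ⟨39210853510, 1, 2, true, false, 8, 87⟩, ⟨107930330246, 2, 0, true, true, 8, 59⟩,
  ⟨147658777734, 0, 1, true, true, 8, 86⟩, ⟨156248712326, 1, 2, false, true, 14, 33⟩,
  ⟨156248712326, 0, 2, false, false, 9, 33⟩, ⟨156248712326, 0, 1, true, true, 8, 67⟩,
  ⟨77615998086, 1, 0, false, false, 16, 86⟩, ⟨163515344006, 1, 0, false, true, 7, 86⟩,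
  ⟨156871566470, 2, 1, false, false, 16, 86⟩, ⟨19432612998, 1, 2, true, false, 8, 86⟩,
  ⟨40907449478, 2, 0, false, true, 14, 33⟩, ⟨40907449478, 1, 0, false, true, 9, 33⟩,
  ⟨40907449478, 1, 2, true, false, 8, 67⟩, ⟨77722051718, 1, 0, false, false, 16, 77⟩,
  ⟨77722051718, 0, 1, false, true, 14, 30⟩, ⟨77722051718, 2, 1, false, true, 9, 30⟩,
  ⟨77722051718, 2, 0, true, true, 8, 60⟩, ⟨39067346054, 0, 2, false, false, 16, 77⟩,
  ⟨107786822790, 2, 0, true, true, 8, 77⟩, ⟨36047447174, 2, 1, false, true, 15, 77⟩,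
  ⟨36047447174, 2, 1, false, true, 7, 77⟩, ⟨156306531462, 2, 1, false, false, 16, 77⟩,
  ⟨156843402374, 2, 1, false, false, 16, 77⟩, ⟨75239023750, 0, 2, false, true, 15, 77⟩,
  ⟨75239023750, 0, 2, false, false, 7, 38⟩, ⟨75239023750, 0, 1, false, true, 7, 38⟩,
  ⟨142373840006, 2, 0, true, true, 5, 67⟩, ⟨142373840006, 1, 2, false, false, 7, 33⟩,
  ⟨142373840006, 1, 0, false, true, 7, 33⟩, ⟨39210738822, 1, 0, false, true, 9, 63⟩,
  ⟨39210738822, 1, 2, true, false, 8, 63⟩, ⟨107930215558, 2, 0, true, true, 8, 48⟩,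
  ⟨78939186310, 1, 0, false, false, 16, 81⟩, ⟨147658663046, 0, 1, true, true, 8, 81⟩,
  ⟨156248597638, 2, 1, false, false, 16, 81⟩, ⟨156248597638, 1, 2, false, true, 14, 31⟩,
  ⟨156248597638, 0, 2, false, false, 9, 31⟩, ⟨156248597638, 0, 1, true, true, 8, 63⟩,
  ⟨39217366150, 1, 2, true, false, 8, 69⟩, ⟨107936842886, 2, 0, true, true, 8, 69⟩,
  ⟨19621577862, 2, 1, true, true, 11, 69⟩, ⟨144175629446, 2, 0, true, false, 5, 69⟩,
  ⟨144175629446, 0, 1, false, true, 1, 53⟩, ⟨144175629446, 1, 0, true, true, 11, 53⟩,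
  ⟨156871787654, 2, 1, false, false, 16, 54⟩, ⟨19432834182, 1, 2, true, false, 8, 54⟩,
  ⟨40907670662, 0, 2, false, false, 16, 54⟩, ⟨40907670662, 2, 0, false, true, 14, 21⟩,
  ⟨40907670662, 1, 0, false, true, 9, 21⟩, ⟨40907670662, 1, 2, true, true, 8, 42⟩,
  ⟨147208111238, 1, 0, true, false, 11, 52⟩, ⟨78488634502, 2, 1, false, true, 9, 40⟩,
  ⟨78488634502, 2, 0, true, true, 8, 40⟩, ⟨147208111238, 0, 1, true, true, 8, 52⟩,
  ⟨147241665670, 1, 0, true, true, 11, 69⟩, ⟨26982581382, 0, 2, true, false, 5, 53⟩,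
  ⟨26982581382, 2, 0, false, true, 7, 26⟩, ⟨26982581382, 2, 1, false, true, 7, 26⟩,
  ⟨19739542662, 2, 1, true, false, 11, 65⟩, ⟨157178496134, 0, 2, false, true, 9, 51⟩,
  ⟨19739542662, 1, 2, true, false, 8, 65⟩, ⟨157178496134, 0, 1, true, true, 8, 51⟩,
  ⟨156842951814, 2, 1, false, false, 16, 67⟩, ⟨156842951814, 1, 2, false, true, 14, 33⟩,
  ⟨156842951814, 0, 2, false, true, 9, 33⟩, ⟨40878834822, 2, 0, false, true, 14, 33⟩,
  ⟨40878834822, 1, 0, false, true, 9, 33⟩, ⟨107937367174, 0, 2, true, false, 11, 67⟩,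
  ⟨39217890438, 1, 0, false, true, 9, 52⟩, ⟨39217890438, 1, 2, true, false, 8, 52⟩,
  ⟨78946337926, 1, 0, false, false, 16, 67⟩, ⟨78946337926, 0, 1, false, true, 14, 67⟩,
  ⟨147665814662, 0, 1, true, true, 8, 67⟩]

theorem kc4 : keyChk 35097 8950 tri4 lv4 = true := by decide +kernel

def lv5 : List Leaf := [
  ⟨156871788833, 2, 1, false, false, 16, 82⟩, ⟨19432835361, 1, 2, true, false, 8, 82⟩,
  ⟨40907671841, 0, 2, false, false, 16, 82⟩, ⟨40907671841, 2, 0, false, true, 14, 41⟩,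
  ⟨40907671841, 1, 0, false, true, 9, 41⟩, ⟨147208112417, 1, 0, true, false, 11, 79⟩,
  ⟨78488635681, 2, 1, false, true, 9, 62⟩, ⟨78488635681, 2, 0, true, true, 8, 62⟩,
  ⟨147208112417, 0, 1, true, true, 8, 79⟩, ⟨26982582561, 0, 2, true, false, 5, 76⟩,
  ⟨26982582561, 2, 0, false, true, 7, 38⟩, ⟨26982582561, 2, 1, false, true, 7, 38⟩,
  ⟨39062178081, 0, 2, false, false, 16, 97⟩, ⟨39062178081, 2, 0, false, true, 14, 49⟩,
  ⟨39062178081, 1, 0, false, true, 9, 49⟩, ⟨107781654817, 2, 0, true, true, 8, 97⟩,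
  ⟨163630385441, 1, 2, false, false, 7, 49⟩, ⟨163630385441, 1, 0, false, true, 7, 49⟩,
  ⟨39076333857, 0, 2, false, false, 16, 74⟩, ⟨39076333857, 1, 0, false, true, 9, 97⟩,
  ⟨78938999073, 1, 0, false, false, 16, 97⟩, ⟨147658475809, 0, 1, true, true, 8, 97⟩,
  ⟨156248410401, 2, 1, false, false, 16, 97⟩, ⟨156248410401, 1, 2, false, true, 14, 48⟩,
  ⟨156248410401, 0, 2, false, false, 9, 48⟩, ⟨156248410401, 0, 1, true, true, 8, 57⟩,
  ⟨107937368353, 0, 2, true, false, 11, 97⟩, ⟨39217891617, 1, 0, false, true, 9, 97⟩,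
  ⟨78946339105, 1, 0, false, false, 16, 97⟩, ⟨78946339105, 0, 1, false, true, 14, 97⟩,
  ⟨147665815841, 0, 1, true, true, 8, 97⟩, ⟨26408524065, 1, 2, false, false, 1, 85⟩,
  ⟨26408524065, 2, 1, true, true, 11, 85⟩, ⟨108012902689, 0, 2, true, false, 11, 108⟩,
  ⟨142372641057, 2, 0, true, true, 5, 108⟩, ⟨78485002529, 2, 0, true, true, 8, 108⟩,
  ⟨147204479265, 0, 1, true, true, 8, 108⟩, ⟨156869466401, 2, 1, false, false, 16, 108⟩,
  ⟨156869466401, 1, 2, false, true, 14, 108⟩, ⟨19430512929, 1, 2, true, false, 8, 108⟩,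
  ⟨147205789985, 1, 0, true, false, 11, 108⟩, ⟨77731338529, 0, 1, false, true, 14, 54⟩,
  ⟨77731338529, 2, 1, false, true, 9, 54⟩, ⟨39076632865, 0, 2, false, false, 16, 93⟩,
  ⟨39076632865, 2, 0, false, true, 14, 54⟩, ⟨39076632865, 1, 0, false, true, 9, 54⟩,
  ⟨107930327329, 0, 2, true, false, 11, 108⟩, ⟨39210850593, 1, 0, false, true, 9, 108⟩,
  ⟨156248709409, 1, 2, false, true, 14, 51⟩, ⟨156248709409, 0, 2, false, false, 9, 51⟩,
  ⟨156248709409, 0, 1, true, true, 8, 68⟩, ⟨78958322273, 0, 1, false, true, 14, 46⟩,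
  ⟨78958322273, 2, 1, false, true, 9, 46⟩, ⟨156267733601, 1, 2, false, true, 14, 46⟩,
  ⟨156267733601, 0, 2, false, false, 9, 46⟩, ⟨40907596385, 1, 0, false, true, 9, 92⟩,
  ⟨147208036961, 1, 0, true, false, 11, 89⟩, ⟨78488560225, 2, 1, false, true, 9, 70⟩,
  ⟨78488560225, 2, 0, true, true, 8, 70⟩, ⟨147208036961, 0, 1, true, true, 8, 89⟩,
  ⟨19734749793, 2, 1, true, false, 11, 91⟩, ⟨157173703265, 0, 2, false, true, 9, 71⟩,
  ⟨157173703265, 0, 1, true, true, 8, 71⟩, ⟨39062102625, 0, 2, false, false, 16, 91⟩,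
  ⟨39062102625, 2, 0, false, true, 14, 91⟩, ⟨107781579361, 2, 0, true, true, 8, 91⟩,
  ⟨108014101089, 0, 2, true, false, 11, 96⟩, ⟨142373839457, 2, 0, true, true, 5, 75⟩,
  ⟨142373839457, 1, 2, false, false, 7, 37⟩, ⟨142373839457, 1, 0, false, true, 7, 37⟩,
  ⟨147243426401, 1, 0, true, true, 11, 96⟩, ⟨26984342113, 0, 2, true, false, 5, 75⟩,
  ⟨26984342113, 2, 0, false, true, 7, 37⟩, ⟨26984342113, 2, 1, false, true, 7, 37⟩,
  ⟨104293753441, 1, 2, true, false, 5, 96⟩, ⟨104293753441, 2, 0, false, true, 1, 75⟩,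
  ⟨104293753441, 0, 2, true, false, 11, 75⟩, ⟨19736584801, 1, 2, true, false, 8, 96⟩,
  ⟨157175538273, 0, 1, true, true, 8, 96⟩, ⟨40955384417, 0, 2, false, false, 16, 82⟩,
  ⟨75315122785, 0, 2, false, true, 15, 82⟩, ⟨147658478177, 0, 1, true, true, 8, 82⟩,
  ⟨156248412769, 1, 2, false, true, 14, 41⟩, ⟨156248412769, 0, 2, false, false, 9, 41⟩,
  ⟨156248412769, 0, 1, true, true, 8, 42⟩, ⟨36010300001, 2, 1, false, true, 15, 76⟩,
  ⟨36010300001, 2, 0, false, true, 7, 38⟩, ⟨36010300001, 2, 1, false, true, 7, 38⟩,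
  ⟨156269384289, 2, 1, false, false, 16, 76⟩, ⟨156269384289, 1, 2, false, true, 14, 59⟩,
  ⟨156269384289, 0, 1, true, true, 8, 59⟩, ⟨77617795681, 1, 0, false, false, 16, 82⟩,
  ⟨26078188129, 0, 2, true, false, 5, 82⟩, ⟨19739546209, 2, 1, true, false, 11, 81⟩,
  ⟨19739546209, 1, 2, true, false, 8, 81⟩, ⟨157178499681, 0, 1, true, true, 8, 81⟩,
  ⟨77721604705, 0, 1, false, true, 14, 31⟩, ⟨77721604705, 2, 1, false, true, 9, 31⟩,
  ⟨77721604705, 2, 0, true, true, 8, 63⟩, ⟨107786375777, 2, 0, true, true, 8, 81⟩,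
  ⟨156842955361, 2, 1, false, false, 16, 81⟩, ⟨156842955361, 1, 2, false, true, 14, 40⟩,
  ⟨156842955361, 0, 2, false, true, 9, 40⟩, ⟨40878838369, 2, 0, false, true, 14, 40⟩,
  ⟨40878838369, 1, 0, false, true, 9, 40⟩, ⟨75238576737, 0, 2, false, true, 15, 81⟩,
  ⟨77731341409, 0, 1, false, true, 14, 49⟩, ⟨77731341409, 2, 1, false, true, 9, 49⟩,
  ⟨163630687329, 1, 0, false, true, 15, 98⟩, ⟨39076635745, 0, 2, false, false, 16, 76⟩,
  ⟨39076635745, 2, 0, false, true, 14, 49⟩, ⟨39076635745, 1, 0, false, true, 9, 49⟩,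
  ⟨107930330209, 0, 2, true, false, 11, 98⟩, ⟨107930330209, 2, 0, true, true, 8, 98⟩,
  ⟨147658777697, 0, 1, true, true, 8, 98⟩, ⟨156248712289, 1, 2, false, true, 14, 47⟩,
  ⟨156248712289, 0, 2, false, false, 9, 47⟩, ⟨156248712289, 0, 1, true, true, 8, 58⟩,
  ⟨163821528161, 1, 2, false, false, 7, 49⟩, ⟨163821528161, 1, 0, false, true, 7, 49⟩,
  ⟨104765727841, 1, 2, true, false, 5, 98⟩, ⟨156305335393, 2, 1, false, false, 16, 98⟩,
  ⟨40878089313, 0, 2, false, false, 16, 98⟩, ⟨40878089313, 2, 0, false, true, 14, 98⟩,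
  ⟨75237827681, 0, 2, false, true, 15, 98⟩, ⟨75237827681, 0, 2, false, false, 7, 49⟩,
  ⟨75237827681, 0, 1, false, true, 7, 49⟩, ⟨77722051681, 1, 0, false, false, 16, 98⟩,
  ⟨77722051681, 0, 1, false, true, 14, 38⟩, ⟨77722051681, 2, 1, false, true, 9, 38⟩,
  ⟨77722051681, 2, 0, true, true, 8, 76⟩, ⟨36047447137, 2, 1, false, true, 15, 98⟩,
  ⟨36047447137, 2, 1, false, true, 7, 98⟩, ⟨156306531425, 2, 1, false, false, 16, 98⟩,
  ⟨156843402337, 2, 1, false, false, 16, 98⟩, ⟨156843402337, 1, 2, false, true, 14, 49⟩,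
  ⟨156843402337, 0, 2, false, true, 9, 49⟩, ⟨75239023713, 0, 2, false, false, 7, 49⟩,
  ⟨75239023713, 0, 1, false, true, 7, 49⟩]

theorem kc5 : keyChk 35098 8950 tri5 lv5 = true := by decide +kernel

def lv6 : List Leaf := [
  ⟨19739580710, 2, 1, true, false, 11, 100⟩, ⟨157178534182, 0, 2, false, true, 9, 100⟩,
  ⟨19739580710, 1, 2, true, true, 8, 100⟩, ⟨39066933542, 0, 2, false, false, 16, 100⟩,
  ⟨107786410278, 2, 0, true, true, 8, 100⟩, ⟨77721639206, 1, 0, false, false, 16, 100⟩,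
  ⟨77721639206, 0, 1, false, true, 14, 50⟩, ⟨77721639206, 2, 1, false, false, 9, 50⟩,
  ⟨104305598758, 2, 0, false, true, 1, 87⟩, ⟨104305598758, 0, 2, true, true, 11, 87⟩,
  ⟨35586122022, 2, 1, false, false, 7, 56⟩, ⟨35586122022, 2, 0, false, true, 7, 56⟩,
  ⟨40954831142, 0, 2, false, false, 16, 112⟩, ⟨144034046246, 2, 1, true, false, 5, 112⟩,
  ⟨75314569510, 0, 2, false, true, 15, 112⟩, ⟨108013363494, 0, 2, true, true, 11, 112⟩,
  ⟨26408984870, 0, 1, true, false, 5, 112⟩, ⟨26408984870, 1, 2, false, true, 1, 87⟩,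
  ⟨26408984870, 2, 1, true, false, 11, 87⟩, ⟨27003527462, 0, 1, true, false, 5, 87⟩,
  ⟨27003527462, 2, 1, false, false, 7, 44⟩, ⟨27003527462, 2, 0, false, true, 7, 44⟩,
  ⟨104312938790, 2, 0, false, true, 1, 87⟩, ⟨104312938790, 0, 2, true, true, 11, 87⟩,
  ⟨144175604006, 2, 1, true, false, 5, 89⟩, ⟨144175604006, 0, 1, false, false, 1, 87⟩,
  ⟨144175604006, 1, 0, true, false, 11, 87⟩, ⟨19621552422, 2, 1, true, false, 11, 89⟩,
  ⟨107936817446, 2, 0, true, true, 8, 112⟩, ⟨27003340326, 0, 1, true, false, 5, 87⟩,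
  ⟨27003340326, 2, 1, false, false, 7, 44⟩, ⟨27003340326, 2, 0, false, true, 7, 44⟩,
  ⟨104312751654, 2, 0, false, true, 1, 87⟩, ⟨104312751654, 0, 2, true, true, 11, 87⟩,
  ⟨35593274918, 2, 1, false, false, 7, 56⟩, ⟨35593274918, 2, 0, false, true, 7, 56⟩,
  ⟨144041199142, 2, 1, true, false, 5, 112⟩, ⟨26382583334, 0, 2, true, true, 5, 112⟩,
  ⟨26382583334, 1, 2, false, true, 1, 87⟩, ⟨26382583334, 2, 1, true, false, 11, 87⟩,
  ⟨108012914214, 0, 2, true, true, 11, 112⟩, ⟨26408535590, 1, 2, false, true, 1, 87⟩,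
  ⟨26408535590, 2, 1, true, false, 11, 87⟩, ⟨147204490790, 0, 1, true, false, 8, 112⟩,
  ⟨144184591910, 0, 1, false, false, 1, 87⟩, ⟨144184591910, 1, 0, true, true, 11, 87⟩,
  ⟨75465115174, 0, 1, false, false, 7, 56⟩, ⟨75465115174, 0, 2, false, true, 7, 56⟩,
  ⟨105529886246, 1, 2, true, true, 5, 87⟩, ⟨105529886246, 0, 1, false, false, 7, 44⟩,
  ⟨105529886246, 0, 2, false, true, 7, 44⟩, ⟨144189834790, 0, 1, false, false, 1, 87⟩,
  ⟨144189834790, 1, 0, true, true, 11, 87⟩, ⟨75470358054, 0, 1, false, false, 7, 56⟩,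
  ⟨75470358054, 0, 2, false, true, 7, 56⟩, ⟨26078234150, 0, 1, true, false, 5, 111⟩,
  ⟨142344488486, 2, 1, true, false, 5, 111⟩, ⟨26380371494, 1, 2, false, true, 1, 111⟩,
  ⟨157175547430, 0, 1, true, false, 8, 111⟩, ⟨19736593958, 1, 2, true, true, 8, 111⟩,
  ⟨108014110246, 0, 2, true, true, 11, 111⟩, ⟨78486210086, 2, 1, false, true, 9, 86⟩,
  ⟨78486210086, 2, 0, true, true, 8, 86⟩, ⟨144175302182, 2, 1, true, false, 5, 88⟩,
  ⟨144175302182, 0, 1, false, false, 1, 86⟩, ⟨144175302182, 1, 0, true, true, 11, 86⟩,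
  ⟨19621250598, 2, 1, true, false, 11, 88⟩, ⟨105520596518, 1, 2, true, true, 5, 86⟩,
  ⟨105520596518, 0, 1, false, false, 7, 43⟩, ⟨105520596518, 0, 2, false, true, 7, 43⟩,
  ⟨147208111686, 1, 0, true, false, 11, 107⟩, ⟨78488634950, 2, 1, false, true, 9, 84⟩,
  ⟨147208111686, 0, 1, true, false, 8, 107⟩, ⟨78488634950, 2, 0, true, true, 8, 84⟩,
  ⟨39062177350, 0, 2, false, false, 16, 111⟩, ⟨39062177350, 2, 0, false, true, 14, 55⟩,
  ⟨39062177350, 1, 0, false, true, 9, 55⟩, ⟨26982581830, 0, 1, true, false, 5, 86⟩,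
  ⟨26982581830, 2, 1, false, false, 7, 43⟩, ⟨26982581830, 2, 0, false, true, 7, 43⟩,
  ⟨147241666118, 1, 0, true, true, 11, 111⟩, ⟨144175629894, 2, 1, true, false, 5, 88⟩,
  ⟨19621578310, 2, 1, true, false, 11, 88⟩, ⟨105520924230, 1, 2, true, true, 5, 86⟩,
  ⟨105520924230, 0, 1, false, false, 7, 43⟩, ⟨105520924230, 0, 2, false, true, 7, 43⟩,
  ⟨39217366598, 1, 2, true, true, 8, 111⟩, ⟨107936843334, 2, 0, true, true, 8, 111⟩,
  ⟨142344488518, 2, 1, true, false, 5, 111⟩, ⟨26380371526, 1, 2, false, true, 1, 86⟩,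
  ⟨26380371526, 2, 1, true, false, 11, 86⟩, ⟨108014110278, 0, 2, true, true, 11, 111⟩,
  ⟨78486210118, 2, 1, false, true, 9, 86⟩, ⟨78486210118, 2, 0, true, true, 8, 86⟩,
  ⟨156869363270, 1, 2, false, true, 14, 55⟩, ⟨156869363270, 0, 2, false, true, 9, 55⟩,
  ⟨19430409798, 1, 2, true, true, 8, 111⟩, ⟨39076631110, 0, 2, false, false, 16, 111⟩,
  ⟨39076631110, 2, 0, false, true, 14, 55⟩, ⟨39076631110, 1, 0, false, true, 9, 55⟩,
  ⟨163630682694, 1, 0, false, true, 15, 111⟩, ⟨147205788230, 1, 0, true, false, 11, 111⟩,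
  ⟨78486311494, 2, 1, false, true, 9, 111⟩, ⟨156869464646, 1, 2, false, true, 14, 111⟩,
  ⟨105521484358, 1, 2, true, true, 5, 86⟩, ⟨105521484358, 0, 1, false, false, 7, 43⟩,
  ⟨105521484358, 0, 2, false, true, 7, 43⟩, ⟨78946374214, 1, 0, false, false, 16, 111⟩,
  ⟨78946374214, 0, 1, false, true, 14, 55⟩, ⟨78946374214, 2, 1, false, true, 9, 55⟩,
  ⟨147665850950, 0, 1, true, false, 8, 111⟩, ⟨19739578950, 2, 1, true, false, 11, 96⟩,
  ⟨157178532422, 0, 2, false, true, 9, 75⟩, ⟨157178532422, 0, 1, true, false, 8, 75⟩,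
  ⟨19739578950, 1, 2, true, true, 8, 96⟩, ⟨107786408518, 2, 0, true, true, 8, 99⟩,
  ⟨77721637446, 1, 0, false, false, 16, 99⟩, ⟨77721637446, 0, 1, false, true, 14, 38⟩,
  ⟨77721637446, 2, 1, false, false, 9, 38⟩, ⟨77721637446, 2, 0, true, true, 8, 77⟩]

theorem kc6 : keyChk 25733 8950 tri6 lv6 = true := by decide +kernel

def lv7 : List Leaf := [
  ⟨105520599433, 1, 0, true, false, 5, 57⟩, ⟨105520599433, 0, 1, false, true, 7, 29⟩,
  ⟨105520599433, 0, 2, false, true, 7, 29⟩, ⟨144175305097, 2, 0, true, false, 5, 73⟩,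
  ⟨144175305097, 0, 1, false, true, 1, 57⟩, ⟨144175305097, 1, 0, true, false, 11, 57⟩,
  ⟨27003228553, 2, 0, false, false, 7, 37⟩, ⟨27003228553, 2, 1, false, true, 7, 37⟩,
  ⟨144041087369, 2, 0, true, false, 5, 73⟩, ⟨75321610633, 0, 2, false, true, 15, 73⟩,
  ⟨156248412553, 1, 2, false, true, 14, 37⟩, ⟨156248412553, 0, 2, false, true, 9, 37⟩,
  ⟨78939001225, 1, 0, false, false, 16, 73⟩, ⟨147658477961, 0, 1, true, true, 8, 73⟩,
  ⟨39076336009, 1, 0, false, true, 9, 73⟩, ⟨77617795465, 1, 0, false, false, 16, 73⟩,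
  ⟨144189788553, 2, 1, true, true, 5, 73⟩, ⟨75470311817, 0, 1, false, true, 7, 37⟩,
  ⟨75470311817, 0, 2, false, true, 7, 37⟩, ⟨156269384073, 2, 1, false, false, 16, 73⟩,
  ⟨36010299785, 2, 1, false, true, 15, 73⟩, ⟨36010299785, 2, 0, false, false, 7, 37⟩,
  ⟨36010299785, 2, 1, false, true, 7, 37⟩, ⟨26380149129, 2, 1, true, true, 11, 66⟩,
  ⟨163819102601, 1, 0, false, false, 7, 33⟩, ⟨163819102601, 1, 2, false, true, 7, 33⟩,
  ⟨104763302281, 1, 0, true, false, 5, 66⟩, ⟨36043825545, 2, 1, false, true, 15, 66⟩,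
  ⟨36043825545, 2, 1, false, true, 7, 66⟩, ⟨77617766793, 1, 0, false, false, 16, 63⟩,
  ⟨144189759881, 2, 1, true, true, 5, 61⟩, ⟨144189759881, 0, 1, false, true, 1, 48⟩,
  ⟨144189759881, 1, 0, true, false, 11, 48⟩, ⟨75470283145, 0, 1, false, true, 7, 31⟩,
  ⟨75470283145, 0, 2, false, true, 7, 31⟩, ⟨156269355401, 2, 1, false, false, 16, 63⟩,
  ⟨156269355401, 1, 2, false, true, 14, 25⟩, ⟨156269355401, 0, 2, false, true, 9, 25⟩,
  ⟨156269355401, 0, 1, true, true, 8, 49⟩, ⟨36010271113, 2, 0, false, true, 7, 32⟩,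
  ⟨36010271113, 2, 1, false, true, 7, 32⟩, ⟨104305598857, 2, 0, false, false, 1, 57⟩,
  ⟨104305598857, 0, 2, true, true, 11, 57⟩, ⟨144034046345, 2, 0, true, false, 5, 73⟩,
  ⟨75314569609, 0, 2, false, true, 15, 73⟩, ⟨40954831241, 0, 2, false, false, 16, 73⟩,
  ⟨142373101961, 2, 0, true, false, 5, 57⟩, ⟨142373101961, 1, 0, false, false, 7, 29⟩,
  ⟨142373101961, 1, 2, false, true, 7, 29⟩, ⟨108013363593, 0, 2, true, true, 11, 73⟩,
  ⟨26408984969, 1, 2, false, true, 1, 73⟩, ⟨147208030601, 1, 0, true, false, 11, 64⟩,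
  ⟨78488553865, 2, 0, true, false, 8, 64⟩, ⟨147208030601, 0, 1, true, true, 8, 64⟩,
  ⟨19432753545, 1, 2, true, true, 8, 64⟩, ⟨40907590025, 2, 0, false, true, 14, 25⟩,
  ⟨40907590025, 1, 0, false, false, 9, 25⟩, ⟨40907590025, 1, 2, true, true, 8, 50⟩,
  ⟨104305543561, 1, 0, true, false, 5, 64⟩, ⟨144033991049, 2, 0, true, false, 5, 64⟩,
  ⟨40954775945, 0, 2, false, false, 16, 64⟩, ⟨77730433417, 1, 0, false, false, 16, 64⟩,
  ⟨77730433417, 2, 0, true, false, 8, 64⟩, ⟨163629779337, 1, 0, false, true, 15, 64⟩,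
  ⟨163629779337, 1, 0, false, false, 7, 32⟩, ⟨163629779337, 1, 2, false, true, 7, 32⟩,
  ⟨107786815881, 2, 0, true, false, 8, 64⟩, ⟨77722044809, 2, 1, false, true, 9, 50⟩,
  ⟨77722044809, 2, 0, true, false, 8, 50⟩, ⟨163515353481, 1, 0, false, true, 15, 55⟩,
  ⟨163515353481, 1, 0, false, false, 7, 55⟩, ⟨156267596169, 1, 2, false, true, 14, 22⟩,
  ⟨156267596169, 0, 2, false, true, 9, 22⟩, ⟨156267596169, 0, 1, true, true, 8, 43⟩,
  ⟨36008511881, 2, 1, false, true, 15, 55⟩, ⟨36008511881, 2, 0, false, false, 7, 28⟩,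
  ⟨36008511881, 2, 1, false, true, 7, 28⟩, ⟨78958184841, 2, 1, false, true, 9, 55⟩,
  ⟨75237837193, 0, 1, false, true, 7, 28⟩, ⟨75237837193, 0, 2, false, true, 7, 28⟩,
  ⟨40878098825, 0, 2, false, false, 16, 55⟩, ⟨40878098825, 2, 0, false, true, 14, 22⟩,
  ⟨40878098825, 1, 0, false, false, 9, 22⟩, ⟨40878098825, 1, 2, true, true, 8, 43⟩,
  ⟨26382584201, 1, 2, false, true, 1, 42⟩, ⟨26382584201, 2, 1, true, true, 11, 42⟩,
  ⟨104312752521, 2, 0, false, false, 1, 42⟩, ⟨104312752521, 0, 2, true, true, 11, 42⟩,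
  ⟨35593275785, 2, 0, false, false, 7, 27⟩, ⟨35593275785, 2, 1, false, true, 7, 27⟩,
  ⟨144041200009, 2, 0, true, false, 5, 54⟩, ⟨75321723273, 0, 2, false, true, 7, 54⟩,
  ⟨107937368345, 0, 2, true, false, 11, 85⟩, ⟨39217891609, 1, 0, false, true, 9, 66⟩,
  ⟨39217891609, 1, 2, true, true, 8, 66⟩, ⟨78946339097, 1, 0, false, false, 16, 85⟩,
  ⟨147665815833, 0, 1, true, true, 8, 85⟩, ⟨156248410393, 2, 1, false, false, 16, 85⟩,
  ⟨156248410393, 1, 2, false, true, 14, 33⟩, ⟨156248410393, 0, 2, false, true, 9, 33⟩,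
  ⟨156248410393, 0, 1, true, true, 8, 66⟩, ⟨147658475801, 0, 1, true, true, 8, 85⟩,
  ⟨75315120409, 0, 2, false, true, 15, 85⟩, ⟨75315120409, 0, 2, false, true, 7, 85⟩,
  ⟨40955382041, 0, 2, false, false, 16, 85⟩, ⟨163630385433, 1, 0, false, true, 15, 85⟩,
  ⟨163630385433, 1, 0, false, false, 7, 42⟩, ⟨163630385433, 1, 2, false, true, 7, 42⟩,
  ⟨39062178073, 2, 0, false, true, 14, 42⟩, ⟨39062178073, 1, 0, false, true, 9, 42⟩,
  ⟨107781654809, 2, 0, true, false, 8, 85⟩, ⟨78488635673, 2, 1, false, true, 9, 66⟩,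
  ⟨78488635673, 2, 0, true, false, 8, 66⟩, ⟨156871788825, 2, 1, false, false, 16, 85⟩,
  ⟨19432835353, 1, 2, true, false, 8, 85⟩, ⟨40907671833, 0, 2, false, false, 16, 85⟩,
  ⟨40907671833, 2, 0, false, true, 14, 33⟩, ⟨40907671833, 1, 0, false, false, 9, 33⟩,
  ⟨40907671833, 1, 2, true, false, 8, 66⟩, ⟨163515339289, 1, 0, false, true, 15, 79⟩,
  ⟨163515339289, 1, 0, false, false, 7, 79⟩, ⟨36008497689, 2, 1, false, true, 15, 79⟩,
  ⟨36008497689, 2, 0, false, false, 7, 39⟩, ⟨36008497689, 2, 1, false, true, 7, 39⟩,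
  ⟨78958170649, 1, 0, false, false, 16, 79⟩, ⟨78958170649, 2, 1, false, true, 9, 79⟩,
  ⟨40907444761, 0, 2, false, false, 16, 79⟩, ⟨40907444761, 2, 0, false, true, 14, 31⟩,
  ⟨40907444761, 1, 0, false, false, 9, 31⟩, ⟨40907444761, 1, 2, true, true, 8, 62⟩,
  ⟨107930325529, 0, 2, true, false, 11, 77⟩, ⟨39210848793, 1, 0, false, true, 9, 60⟩,
  ⟨107930325529, 2, 0, true, false, 8, 77⟩, ⟨39210848793, 1, 2, true, true, 8, 60⟩,
  ⟨39076631065, 2, 0, false, true, 14, 39⟩, ⟨39076631065, 1, 0, false, true, 9, 39⟩,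
  ⟨163630682649, 1, 0, false, true, 15, 79⟩, ⟨147205788185, 1, 0, true, false, 11, 79⟩,
  ⟨78486311449, 2, 1, false, true, 9, 62⟩, ⟨78486311449, 2, 0, true, false, 8, 62⟩,
  ⟨156869464601, 1, 2, false, true, 14, 79⟩, ⟨19430511129, 1, 2, true, true, 8, 79⟩,
  ⟨75315095065, 0, 2, false, true, 15, 79⟩, ⟨75315095065, 0, 2, false, true, 7, 79⟩,
  ⟨39076308505, 2, 0, false, true, 14, 39⟩, ⟨39076308505, 1, 0, false, true, 9, 39⟩,
  ⟨26380150297, 1, 2, false, true, 1, 62⟩, ⟨26380150297, 2, 1, true, true, 11, 62⟩,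
  ⟨163819103769, 1, 0, false, false, 7, 39⟩, ⟨163819103769, 1, 2, false, true, 7, 39⟩,
  ⟨104763303449, 1, 0, true, false, 5, 79⟩, ⟨36043826713, 2, 1, false, true, 15, 79⟩,
  ⟨36043826713, 2, 1, false, true, 7, 79⟩, ⟨104305600025, 2, 0, false, false, 1, 62⟩,
  ⟨104305600025, 0, 2, true, true, 11, 62⟩, ⟨144034047513, 2, 0, true, false, 5, 79⟩,
  ⟨75314570777, 0, 2, false, true, 15, 79⟩, ⟨40954832409, 0, 2, false, false, 16, 79⟩,
  ⟨163512395289, 1, 0, false, true, 15, 79⟩, ⟨105530336793, 1, 0, true, false, 5, 62⟩,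
  ⟨105530336793, 0, 1, false, true, 7, 31⟩, ⟨105530336793, 0, 2, false, true, 7, 31⟩,
  ⟨163515344409, 1, 0, false, false, 7, 79⟩, ⟨78958175769, 1, 0, false, false, 16, 79⟩,
  ⟨78958175769, 2, 1, false, true, 9, 79⟩, ⟨156871566873, 2, 1, false, false, 16, 79⟩,
  ⟨19432613401, 1, 2, true, true, 8, 79⟩, ⟨75237828121, 0, 2, false, true, 15, 79⟩,
  ⟨75237828121, 0, 1, false, true, 7, 39⟩, ⟨75237828121, 0, 2, false, true, 7, 39⟩,
  ⟨40878089753, 0, 2, false, false, 16, 79⟩, ⟨40878089753, 1, 2, true, true, 8, 79⟩,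
  ⟨163821528601, 1, 0, false, false, 7, 39⟩, ⟨163821528601, 1, 2, false, true, 7, 39⟩,
  ⟨156305335833, 2, 1, false, false, 16, 79⟩, ⟨104765728281, 1, 0, true, false, 5, 79⟩]

theorem kc7 : keyChk 6218 8950 tri7 lv7 = true := by decide +kernel

end Pool.Agent.SqfBridge
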