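import Pool.Agent.SqfBridge.CertKeys
import Pool.Agent.SqfBridge.LeafKern

set_option autoImplicit false

namespace Pool.Agent.SqfBridge

def lv8 : List Leaf := [
  ⟨104293767314, 1, 2, true, false, 5, 125⟩, ⟨104293767314, 2, 0, false, true, 1, 98⟩,
  ⟨104293767314, 0, 2, true, false, 11, 97⟩, ⟨19736598674, 1, 2, true, false, 8, 125⟩,
  ⟨26380376210, 1, 2, false, false, 1, 98⟩, ⟨26380376210, 2, 1, true, true, 11, 97⟩,
  ⟨142344493202, 2, 0, true, true, 5, 98⟩, ⟨142344493202, 1, 2, false, false, 7, 49⟩,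
  ⟨142344493202, 1, 0, false, true, 7, 48⟩, ⟨104765626514, 1, 2, true, false, 5, 125⟩,
  ⟨36046149778, 2, 1, false, true, 15, 125⟩, ⟨156305234066, 2, 1, false, false, 16, 125⟩,
  ⟨144041089170, 2, 0, true, false, 5, 114⟩, ⟨75321612434, 0, 2, false, true, 15, 114⟩,
  ⟨105520601234, 1, 2, true, false, 5, 125⟩, ⟨19621255314, 2, 1, true, true, 11, 125⟩,
  ⟨144175306898, 2, 0, true, false, 5, 125⟩, ⟨144175306898, 0, 1, false, true, 1, 98⟩,
  ⟨144175306898, 1, 0, true, true, 11, 97⟩, ⟨39217947026, 1, 2, true, false, 8, 125⟩,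
  ⟨105521504658, 0, 2, false, false, 7, 63⟩, ⟨105521504658, 0, 1, false, true, 7, 62⟩,
  ⟨19622158738, 2, 1, true, true, 11, 125⟩, ⟨105529893266, 1, 2, true, false, 5, 98⟩,
  ⟨105529893266, 0, 2, false, false, 7, 49⟩, ⟨105529893266, 0, 1, false, true, 7, 48⟩,
  ⟨75465122194, 0, 2, false, false, 7, 63⟩, ⟨75465122194, 0, 1, false, true, 7, 62⟩,
  ⟨78485021074, 2, 0, true, true, 8, 125⟩, ⟨147204497810, 0, 1, true, true, 8, 125⟩,
  ⟨163821425042, 1, 2, false, false, 7, 63⟩, ⟨163821425042, 1, 0, false, true, 7, 62⟩,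
  ⟨104765624722, 1, 2, true, false, 5, 125⟩, ⟨36046147986, 2, 1, false, true, 15, 125⟩,
  ⟨144041087378, 2, 0, true, false, 5, 114⟩, ⟨75321610642, 0, 2, false, true, 15, 114⟩,
  ⟨27003228562, 0, 2, true, false, 5, 98⟩, ⟨27003228562, 2, 0, false, true, 7, 49⟩,
  ⟨27003228562, 2, 1, false, true, 7, 48⟩, ⟨105520599442, 1, 2, true, false, 5, 98⟩,
  ⟨105520599442, 0, 2, false, false, 7, 49⟩, ⟨105520599442, 0, 1, false, true, 7, 48⟩,
  ⟨144175305106, 2, 0, true, false, 5, 125⟩, ⟨144175305106, 0, 1, false, true, 1, 98⟩,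
  ⟨144175305106, 1, 0, true, true, 11, 97⟩, ⟨105530336786, 1, 2, true, false, 5, 82⟩,
  ⟨105530336786, 0, 2, false, false, 7, 41⟩, ⟨105530336786, 0, 1, false, true, 7, 41⟩,
  ⟨26073441810, 0, 2, true, false, 5, 105⟩, ⟨163512395282, 1, 0, false, true, 15, 105⟩,
  ⟨26408986130, 0, 2, true, false, 5, 105⟩, ⟨26408986130, 1, 2, false, false, 1, 82⟩,
  ⟨26408986130, 2, 1, true, true, 11, 82⟩, ⟨142373103122, 2, 0, true, true, 5, 82⟩,
  ⟨142373103122, 1, 2, false, false, 7, 41⟩, ⟨142373103122, 1, 0, false, true, 7, 41⟩,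
  ⟨40954832402, 0, 2, false, false, 16, 105⟩, ⟨144034047506, 2, 0, true, false, 5, 105⟩,
  ⟨75314570770, 0, 2, false, true, 15, 105⟩, ⟨104305600018, 2, 0, false, true, 1, 82⟩,
  ⟨104305600018, 0, 2, true, false, 11, 82⟩, ⟨35586123282, 2, 0, false, true, 7, 53⟩,
  ⟨35586123282, 2, 1, false, true, 7, 53⟩, ⟨75315095058, 0, 2, false, true, 15, 122⟩,
  ⟨75315095058, 0, 2, false, false, 7, 122⟩, ⟨77731014162, 0, 1, false, true, 14, 48⟩,
  ⟨77731014162, 2, 1, false, true, 9, 48⟩, ⟨77731014162, 2, 0, true, true, 8, 95⟩,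
  ⟨163630360082, 1, 0, false, true, 15, 122⟩, ⟨163630360082, 1, 2, false, false, 7, 61⟩,
  ⟨163630360082, 1, 0, false, true, 7, 61⟩, ⟨39076308498, 2, 0, false, true, 14, 61⟩,
  ⟨39076308498, 1, 0, false, true, 9, 61⟩, ⟨144189834770, 0, 1, false, true, 1, 73⟩,
  ⟨144189834770, 1, 0, true, true, 11, 73⟩, ⟨75470358034, 0, 2, false, false, 7, 47⟩,
  ⟨75470358034, 0, 1, false, true, 7, 47⟩, ⟨77617841682, 1, 0, false, false, 16, 93⟩,
  ⟨26078234130, 0, 2, true, false, 5, 93⟩, ⟨163517187602, 1, 0, false, true, 15, 93⟩,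
  ⟨147243288082, 1, 0, true, true, 11, 93⟩, ⟨26984203794, 0, 2, true, false, 5, 73⟩,
  ⟨26984203794, 2, 0, false, true, 7, 37⟩, ⟨26984203794, 2, 1, false, true, 7, 36⟩,
  ⟨105529886226, 1, 2, true, false, 5, 72⟩, ⟨105529886226, 0, 2, false, false, 7, 36⟩,
  ⟨105529886226, 0, 1, false, true, 7, 36⟩, ⟨144184591890, 0, 1, false, true, 1, 72⟩,
  ⟨144184591890, 1, 0, true, true, 11, 72⟩, ⟨75465115154, 0, 2, false, false, 7, 46⟩,
  ⟨75465115154, 0, 1, false, false, 7, 46⟩, ⟨26408535570, 0, 2, true, false, 5, 92⟩,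
  ⟨26408535570, 1, 2, false, false, 1, 72⟩, ⟨26408535570, 2, 1, true, true, 11, 72⟩,
  ⟨108012914194, 0, 2, true, false, 11, 92⟩, ⟨26382583314, 0, 2, true, false, 5, 92⟩,
  ⟨163821536786, 1, 2, false, false, 7, 46⟩, ⟨163821536786, 1, 0, false, true, 7, 46⟩,
  ⟨156305344018, 2, 1, false, false, 16, 92⟩, ⟨40878097938, 0, 2, false, false, 16, 92⟩,
  ⟨40878097938, 2, 0, false, true, 14, 36⟩, ⟨40878097938, 1, 0, false, true, 9, 36⟩,
  ⟨40878097938, 1, 2, true, false, 8, 72⟩, ⟨144041199122, 2, 0, true, false, 5, 56⟩,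
  ⟨75321722386, 0, 2, false, true, 15, 56⟩, ⟨75321722386, 0, 2, false, false, 7, 92⟩,
  ⟨27003340306, 0, 2, true, false, 5, 72⟩, ⟨27003340306, 2, 0, false, true, 7, 36⟩,
  ⟨27003340306, 2, 1, false, true, 7, 36⟩, ⟨104312751634, 0, 2, true, false, 11, 92⟩,
  ⟨35593274898, 2, 0, false, true, 7, 46⟩, ⟨35593274898, 2, 1, false, false, 7, 46⟩]

theorem kc8 : keyChk 34341 7919 tri8 lv8 = true := by decide +kernel

def lv9 : List Leaf := [
  ⟨144189835337, 0, 1, false, true, 1, 98⟩, ⟨144189835337, 1, 0, true, true, 11, 97⟩,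
  ⟨75470358601, 0, 2, false, false, 7, 63⟩, ⟨75470358601, 0, 1, false, true, 7, 62⟩,
  ⟨77617842249, 1, 0, false, false, 16, 125⟩, ⟨26078234697, 0, 2, true, false, 5, 125⟩,
  ⟨163517188169, 1, 0, false, true, 15, 125⟩, ⟨26984204361, 0, 1, true, true, 5, 98⟩,
  ⟨26984204361, 2, 0, false, true, 7, 49⟩, ⟨26984204361, 2, 1, false, true, 7, 48⟩,
  ⟨104293615689, 1, 2, true, false, 5, 125⟩, ⟨104293615689, 2, 0, false, true, 1, 98⟩,
  ⟨104293615689, 0, 2, true, false, 11, 97⟩, ⟨105530300489, 1, 2, true, false, 5, 98⟩,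
  ⟨105530300489, 0, 2, false, false, 7, 49⟩, ⟨105530300489, 0, 1, false, true, 7, 48⟩,
  ⟨144185006153, 0, 1, false, true, 1, 98⟩, ⟨144185006153, 1, 0, true, true, 11, 97⟩,
  ⟨75465529417, 0, 1, false, true, 7, 125⟩, ⟨26073405513, 0, 2, true, false, 5, 125⟩,
  ⟨163512358985, 1, 0, false, true, 7, 125⟩, ⟨40954796105, 0, 2, false, false, 16, 125⟩,
  ⟨77730453577, 0, 1, false, true, 14, 49⟩, ⟨77730453577, 2, 1, false, true, 9, 49⟩,
  ⟨77730453577, 2, 0, true, true, 8, 97⟩, ⟨163629799497, 1, 2, false, false, 7, 63⟩,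
  ⟨163629799497, 1, 0, false, true, 7, 62⟩, ⟨147243440201, 1, 0, true, true, 11, 125⟩,
  ⟨104293767241, 2, 0, false, true, 1, 98⟩, ⟨104293767241, 0, 2, true, false, 11, 97⟩,
  ⟨19736598601, 1, 2, true, false, 8, 125⟩, ⟨26380376137, 1, 2, false, false, 1, 98⟩,
  ⟨26380376137, 2, 1, true, true, 11, 97⟩, ⟨163819329609, 1, 2, false, false, 7, 63⟩,
  ⟨163819329609, 1, 0, false, true, 7, 62⟩, ⟨142344493129, 2, 0, true, true, 5, 98⟩,
  ⟨142344493129, 1, 2, false, false, 7, 49⟩, ⟨142344493129, 1, 0, false, true, 7, 48⟩,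
  ⟨27003525193, 0, 2, true, false, 5, 98⟩, ⟨27003525193, 2, 0, false, true, 7, 49⟩,
  ⟨27003525193, 2, 1, false, true, 7, 48⟩, ⟨104312936521, 2, 0, false, true, 1, 125⟩,
  ⟨107936815177, 2, 0, true, true, 8, 125⟩, ⟨36047458841, 2, 1, false, true, 15, 85⟩,
  ⟨156306543129, 2, 1, false, false, 16, 85⟩, ⟨156843414041, 1, 2, false, true, 14, 43⟩,
  ⟨156843414041, 0, 2, false, true, 9, 43⟩, ⟨40879297049, 2, 0, false, true, 14, 33⟩,
  ⟨40879297049, 1, 0, false, true, 9, 33⟩, ⟨40879297049, 1, 2, true, false, 8, 66⟩,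
  ⟨75239035417, 0, 2, false, true, 15, 85⟩, ⟨75239035417, 0, 2, false, false, 7, 43⟩,
  ⟨75239035417, 0, 1, false, true, 7, 43⟩, ⟨144185004569, 0, 1, false, true, 1, 66⟩,
  ⟨144185004569, 1, 0, true, true, 11, 66⟩, ⟨75465527833, 0, 2, false, false, 7, 43⟩,
  ⟨75465527833, 0, 1, false, true, 7, 43⟩, ⟨26073403929, 0, 2, true, false, 5, 56⟩,
  ⟨163512357401, 1, 0, false, true, 15, 85⟩, ⟨163512357401, 1, 0, false, true, 7, 85⟩,
  ⟨19739546137, 2, 1, true, false, 11, 85⟩, ⟨19739546137, 1, 2, true, false, 8, 85⟩,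
  ⟨77721604633, 0, 1, false, true, 14, 33⟩, ⟨77721604633, 2, 1, false, true, 9, 33⟩,
  ⟨77721604633, 2, 0, true, true, 8, 66⟩, ⟨107786375705, 2, 0, true, true, 8, 85⟩,
  ⟨156842955289, 2, 1, false, false, 16, 85⟩, ⟨156842955289, 1, 2, false, true, 14, 43⟩,
  ⟨156842955289, 0, 2, false, true, 9, 43⟩, ⟨40878838297, 2, 0, false, true, 14, 43⟩,
  ⟨40878838297, 1, 0, false, true, 9, 43⟩, ⟨75238576665, 0, 2, false, true, 15, 85⟩,
  ⟨156869464601, 1, 2, false, true, 14, 80⟩, ⟨19430511129, 1, 2, true, false, 8, 80⟩,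
  ⟨147205788185, 1, 0, true, false, 11, 80⟩, ⟨78486311449, 2, 1, false, true, 9, 62⟩,
  ⟨78486311449, 2, 0, true, true, 8, 62⟩, ⟨77731336729, 0, 1, false, true, 14, 40⟩,
  ⟨77731336729, 2, 1, false, true, 9, 40⟩, ⟨163630682649, 1, 0, false, true, 15, 80⟩,
  ⟨39076631065, 2, 0, false, true, 14, 40⟩, ⟨39076631065, 1, 0, false, true, 9, 40⟩,
  ⟨107930325529, 0, 2, true, false, 11, 80⟩, ⟨39210848793, 1, 0, false, true, 9, 80⟩,
  ⟨107930325529, 2, 0, true, true, 8, 80⟩, ⟨78958170649, 1, 0, false, false, 16, 80⟩,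
  ⟨78958170649, 0, 1, false, true, 14, 40⟩, ⟨78958170649, 2, 1, false, true, 9, 40⟩,
  ⟨36008497689, 2, 1, false, true, 15, 80⟩, ⟨77615993369, 1, 0, false, false, 16, 80⟩,
  ⟨163515339289, 1, 0, false, true, 15, 80⟩, ⟨163515339289, 1, 0, false, true, 7, 80⟩,
  ⟨40907444761, 2, 0, false, true, 14, 30⟩, ⟨40907444761, 1, 0, false, true, 9, 30⟩,
  ⟨40907444761, 1, 2, true, false, 8, 61⟩, ⟨163821528601, 1, 2, false, false, 7, 48⟩,
  ⟨163821528601, 1, 0, false, true, 7, 48⟩, ⟨104765728281, 1, 2, true, false, 5, 97⟩,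
  ⟨156305335833, 2, 1, false, false, 16, 97⟩, ⟨40878089753, 1, 2, true, false, 8, 97⟩,
  ⟨75237828121, 0, 2, false, true, 15, 97⟩, ⟨75237828121, 0, 2, false, false, 7, 48⟩,
  ⟨75237828121, 0, 1, false, true, 7, 48⟩, ⟨78958175769, 1, 0, false, false, 16, 97⟩,
  ⟨78958175769, 0, 1, false, true, 14, 48⟩, ⟨78958175769, 2, 1, false, true, 9, 48⟩,
  ⟨77615998489, 1, 0, false, false, 16, 97⟩, ⟨163515344409, 1, 0, false, true, 7, 97⟩,
  ⟨105530336793, 1, 2, true, false, 5, 75⟩, ⟨105530336793, 0, 2, false, false, 7, 37⟩,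
  ⟨105530336793, 0, 1, false, true, 7, 37⟩, ⟨26073441817, 0, 2, true, false, 5, 73⟩,
  ⟨163512395289, 1, 0, false, true, 15, 97⟩, ⟨144034047513, 2, 0, true, false, 5, 97⟩,
  ⟨75314570777, 0, 2, false, true, 15, 97⟩, ⟨104305600025, 2, 0, false, true, 1, 75⟩,
  ⟨104305600025, 0, 2, true, false, 11, 75⟩, ⟨77731014169, 0, 1, false, true, 14, 37⟩,
  ⟨77731014169, 2, 1, false, true, 9, 37⟩, ⟨77731014169, 2, 0, true, true, 8, 75⟩,
  ⟨163630360089, 1, 0, false, true, 15, 97⟩, ⟨163630360089, 1, 2, false, false, 7, 48⟩,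
  ⟨163630360089, 1, 0, false, true, 7, 48⟩, ⟨39076308505, 2, 0, false, true, 14, 48⟩,
  ⟨39076308505, 1, 0, false, true, 9, 48⟩, ⟨26380150297, 1, 2, false, false, 1, 75⟩,
  ⟨26380150297, 2, 1, true, true, 11, 75⟩, ⟨163819103769, 1, 2, false, false, 7, 48⟩,
  ⟨163819103769, 1, 0, false, true, 7, 48⟩, ⟨142344267289, 2, 0, true, true, 5, 75⟩,
  ⟨142344267289, 1, 2, false, false, 7, 37⟩, ⟨142344267289, 1, 0, false, true, 7, 37⟩,
  ⟨36043826713, 2, 1, false, true, 15, 97⟩]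

theorem kc9 : keyChk 34342 8512 tri9 lv9 = true := by decide +kernel

def lv10 : List Leaf := [
  ⟨144041200009, 2, 0, true, false, 5, 89⟩, ⟨75321723273, 0, 2, false, false, 7, 89⟩,
  ⟨104312752521, 2, 0, false, true, 1, 69⟩, ⟨104312752521, 0, 2, true, false, 11, 69⟩,
  ⟨35593275785, 2, 0, false, true, 7, 45⟩, ⟨35593275785, 2, 1, false, true, 7, 45⟩,
  ⟨78958184841, 0, 1, false, true, 14, 45⟩, ⟨78958184841, 2, 1, false, true, 9, 45⟩,
  ⟨36008511881, 2, 1, false, true, 15, 89⟩, ⟨36008511881, 2, 0, false, true, 7, 45⟩,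
  ⟨36008511881, 2, 1, false, true, 7, 45⟩, ⟨156267596169, 1, 2, false, true, 14, 35⟩,
  ⟨156267596169, 0, 2, false, false, 9, 35⟩, ⟨156267596169, 0, 1, true, true, 8, 69⟩,
  ⟨77616007561, 1, 0, false, false, 16, 89⟩, ⟨163515353481, 1, 0, false, true, 15, 89⟩,
  ⟨77722044809, 0, 1, false, true, 14, 45⟩, ⟨77722044809, 2, 1, false, true, 9, 45⟩,
  ⟨39067339145, 0, 2, false, false, 16, 89⟩, ⟨40954775945, 0, 2, false, false, 16, 89⟩,
  ⟨144033991049, 2, 0, true, false, 5, 89⟩, ⟨104305543561, 1, 0, true, true, 5, 89⟩,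
  ⟨35586066825, 2, 0, false, true, 7, 45⟩, ⟨35586066825, 2, 1, false, true, 7, 45⟩,
  ⟨77730433417, 1, 0, false, false, 16, 89⟩, ⟨77730433417, 0, 1, false, true, 14, 89⟩,
  ⟨163629779337, 1, 0, false, true, 15, 89⟩, ⟨26408984969, 0, 2, true, false, 5, 89⟩,
  ⟨26408984969, 1, 2, false, false, 1, 89⟩, ⟨108013363593, 0, 2, true, false, 11, 89⟩,
  ⟨142373101961, 2, 0, true, true, 5, 89⟩, ⟨40954831241, 0, 2, false, false, 16, 89⟩,
  ⟨144034046345, 2, 0, true, false, 5, 89⟩, ⟨75314569609, 0, 2, false, true, 15, 89⟩,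
  ⟨104305598857, 2, 0, false, true, 1, 69⟩, ⟨104305598857, 0, 2, true, false, 11, 69⟩,
  ⟨35586122121, 2, 0, false, true, 7, 45⟩, ⟨35586122121, 2, 1, false, true, 7, 45⟩,
  ⟨26382471561, 1, 2, false, false, 1, 69⟩, ⟨26382471561, 2, 1, true, true, 11, 69⟩,
  ⟨104765624713, 1, 2, true, false, 5, 89⟩, ⟨156305232265, 2, 1, false, false, 16, 89⟩,
  ⟨144041087369, 2, 0, true, false, 5, 89⟩, ⟨75321610633, 0, 2, false, true, 15, 89⟩,
  ⟨27003228553, 0, 2, true, false, 5, 69⟩, ⟨27003228553, 2, 0, false, true, 7, 35⟩,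
  ⟨27003228553, 2, 1, false, true, 7, 35⟩, ⟨105520599433, 1, 2, true, false, 5, 69⟩,
  ⟨105520599433, 0, 2, false, false, 7, 35⟩, ⟨105520599433, 0, 1, false, true, 7, 35⟩,
  ⟨144175305097, 2, 0, true, false, 5, 89⟩, ⟨144175305097, 0, 1, false, true, 1, 69⟩,
  ⟨144175305097, 1, 0, true, true, 11, 69⟩, ⟨39076336009, 2, 0, false, true, 14, 45⟩,
  ⟨39076336009, 1, 0, false, true, 9, 45⟩, ⟨78939001225, 1, 0, false, false, 16, 89⟩,
  ⟨147658477961, 0, 1, true, true, 8, 89⟩, ⟨156248412553, 1, 2, false, true, 14, 45⟩,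
  ⟨156248412553, 0, 2, false, false, 9, 45⟩, ⟨36010299785, 2, 1, false, true, 15, 89⟩,
  ⟨36010299785, 2, 0, false, true, 7, 89⟩, ⟨156269384073, 2, 1, false, false, 16, 89⟩,
  ⟨75470311817, 0, 2, false, false, 7, 45⟩, ⟨75470311817, 0, 1, false, true, 7, 45⟩,
  ⟨77617795465, 1, 0, false, false, 16, 89⟩, ⟨26078187913, 0, 2, true, false, 5, 89⟩,
  ⟨78958322273, 0, 1, false, true, 14, 35⟩, ⟨78958322273, 2, 1, false, true, 9, 35⟩,
  ⟨156267733601, 1, 2, false, true, 14, 35⟩, ⟨156267733601, 0, 2, false, false, 9, 35⟩,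
  ⟨40907596385, 1, 0, false, true, 9, 54⟩, ⟨40907596385, 1, 2, true, false, 8, 54⟩,
  ⟨147208036961, 1, 0, true, false, 11, 69⟩, ⟨78488560225, 2, 1, false, true, 9, 69⟩,
  ⟨147208036961, 0, 1, true, true, 8, 69⟩, ⟨39062102625, 0, 2, false, false, 16, 69⟩,
  ⟨39062102625, 2, 0, false, true, 14, 68⟩, ⟨108014101089, 0, 2, true, false, 11, 68⟩,
  ⟨142373839457, 2, 0, true, true, 5, 68⟩, ⟨107930215009, 0, 2, true, false, 11, 68⟩,
  ⟨39210738273, 1, 0, false, true, 9, 53⟩, ⟨39210738273, 1, 2, true, false, 8, 53⟩,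
  ⟨147658662497, 0, 1, true, true, 8, 68⟩, ⟨156248597089, 1, 2, false, true, 14, 26⟩,
  ⟨156248597089, 0, 2, false, false, 9, 26⟩, ⟨156248597089, 0, 1, true, true, 8, 53⟩,
  ⟨147243426401, 1, 0, true, true, 11, 68⟩, ⟨26984342113, 0, 2, true, false, 5, 53⟩,
  ⟨26984342113, 2, 0, false, true, 7, 26⟩, ⟨26984342113, 2, 1, false, true, 7, 26⟩,
  ⟨104293753441, 1, 2, true, false, 5, 68⟩, ⟨104293753441, 2, 0, false, true, 1, 53⟩,
  ⟨104293753441, 0, 2, true, false, 11, 53⟩, ⟨19736584801, 1, 2, true, false, 8, 68⟩,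
  ⟨36010300001, 2, 1, false, true, 15, 72⟩, ⟨36010300001, 2, 0, false, true, 7, 36⟩,
  ⟨36010300001, 2, 1, false, true, 7, 36⟩, ⟨156269384289, 1, 2, false, true, 14, 56⟩,
  ⟨156269384289, 0, 1, true, true, 8, 56⟩, ⟨77617795681, 1, 0, false, false, 16, 72⟩,
  ⟨26078188129, 0, 2, true, false, 5, 72⟩, ⟨19739546209, 2, 1, true, false, 11, 72⟩,
  ⟨19739546209, 1, 2, true, false, 8, 72⟩, ⟨77721604705, 0, 1, false, true, 14, 36⟩,
  ⟨77721604705, 2, 1, false, true, 9, 36⟩, ⟨156842955361, 1, 2, false, true, 14, 36⟩,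
  ⟨156842955361, 0, 2, false, true, 9, 36⟩, ⟨40878838369, 2, 0, false, true, 14, 36⟩,
  ⟨40878838369, 1, 0, false, true, 9, 36⟩, ⟨75238576737, 0, 2, false, true, 15, 72⟩,
  ⟨157178532449, 0, 2, false, true, 9, 72⟩, ⟨19739578977, 1, 2, true, false, 8, 72⟩,
  ⟨77721637473, 1, 0, false, false, 16, 72⟩, ⟨77721637473, 0, 1, false, true, 14, 36⟩,
  ⟨77721637473, 2, 1, false, true, 9, 36⟩, ⟨39066931809, 0, 2, false, false, 16, 72⟩,
  ⟨78946374241, 1, 0, false, false, 16, 72⟩, ⟨78946374241, 0, 1, false, true, 14, 36⟩,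
  ⟨78946374241, 2, 1, false, true, 9, 36⟩, ⟨147665850977, 0, 1, true, true, 8, 72⟩,
  ⟨105521484385, 1, 2, true, false, 5, 56⟩, ⟨105521484385, 0, 2, false, false, 7, 28⟩,
  ⟨105521484385, 0, 1, false, true, 7, 28⟩, ⟨163630687329, 1, 0, false, true, 15, 66⟩,
  ⟨39076635745, 0, 2, false, false, 16, 66⟩, ⟨39076635745, 2, 0, false, true, 14, 33⟩,
  ⟨39076635745, 1, 0, false, true, 9, 33⟩, ⟨107930330209, 0, 2, true, false, 11, 66⟩,
  ⟨39210853473, 1, 2, true, false, 8, 66⟩, ⟨147658777697, 0, 1, true, true, 8, 66⟩,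
  ⟨156248712289, 1, 2, false, true, 14, 25⟩, ⟨156248712289, 0, 2, false, false, 9, 25⟩,
  ⟨156248712289, 0, 1, true, true, 8, 51⟩, ⟨26382574689, 0, 2, true, false, 5, 66⟩,
  ⟨104765727841, 1, 2, true, false, 5, 66⟩, ⟨40878089313, 0, 2, false, false, 16, 66⟩,
  ⟨40878089313, 2, 0, false, true, 14, 51⟩, ⟨40878089313, 1, 2, true, false, 8, 51⟩,
  ⟨75237827681, 0, 2, false, true, 15, 66⟩, ⟨40955356257, 0, 2, false, false, 16, 66⟩,
  ⟨75315094625, 0, 2, false, true, 15, 66⟩, ⟨75315094625, 0, 2, false, false, 7, 66⟩,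
  ⟨163630359649, 1, 0, false, true, 15, 66⟩, ⟨39076308065, 2, 0, false, true, 14, 33⟩,
  ⟨39076308065, 1, 0, false, true, 9, 33⟩, ⟨36010271841, 2, 1, false, true, 15, 66⟩,
  ⟨36010271841, 2, 0, false, true, 7, 33⟩, ⟨36010271841, 2, 1, false, true, 7, 33⟩,
  ⟨156269356129, 1, 2, false, true, 14, 25⟩, ⟨156269356129, 0, 2, false, false, 9, 25⟩,
  ⟨156269356129, 0, 1, true, true, 8, 51⟩, ⟨144189760609, 0, 1, false, true, 1, 51⟩,
  ⟨144189760609, 1, 0, true, true, 11, 51⟩, ⟨75470283873, 0, 2, false, false, 7, 33⟩,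
  ⟨75470283873, 0, 1, false, true, 7, 33⟩, ⟨78958322785, 1, 0, false, false, 16, 66⟩,
  ⟨78958322785, 0, 1, false, true, 14, 33⟩, ⟨78958322785, 2, 1, false, true, 9, 33⟩,
  ⟨36008649825, 2, 1, false, true, 15, 66⟩, ⟨156267734113, 1, 2, false, true, 14, 33⟩,
  ⟨156267734113, 0, 2, false, false, 9, 33⟩, ⟨147208037473, 1, 0, true, false, 11, 66⟩,
  ⟨78488560737, 2, 1, false, true, 9, 66⟩, ⟨147208037473, 0, 1, true, true, 8, 66⟩,
  ⟨77722051681, 1, 0, false, false, 16, 66⟩, ⟨77722051681, 0, 1, false, true, 14, 66⟩,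
  ⟨39067346017, 0, 2, false, false, 16, 66⟩, ⟨156843402337, 1, 2, false, true, 14, 33⟩,
  ⟨156843402337, 0, 2, false, true, 9, 33⟩, ⟨75239023713, 0, 2, false, true, 15, 66⟩,
  ⟨75239023713, 0, 2, false, false, 7, 33⟩, ⟨75239023713, 0, 1, false, true, 7, 33⟩]

theorem kc10 : keyChk 34378 8950 tri10 lv10 = true := by decide +kernel

def lv11 : List Leaf := [
  ⟨35586123289, 2, 1, false, false, 7, 45⟩, ⟨35586123289, 2, 0, false, true, 7, 45⟩,
  ⟨40954832409, 0, 2, false, false, 16, 89⟩, ⟨144034047513, 2, 1, true, false, 5, 89⟩,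
  ⟨75314570777, 0, 2, false, true, 15, 89⟩, ⟨105530336793, 1, 2, true, true, 5, 70⟩,
  ⟨105530336793, 0, 1, false, false, 7, 35⟩, ⟨105530336793, 0, 2, false, true, 7, 35⟩,
  ⟨26073441817, 0, 1, true, false, 5, 89⟩, ⟨163512395289, 1, 0, false, true, 15, 89⟩,
  ⟨39076308505, 2, 0, false, true, 14, 45⟩, ⟨39076308505, 1, 0, false, true, 9, 45⟩,
  ⟨163630360089, 1, 0, false, true, 15, 89⟩, ⟨163630360089, 1, 2, false, true, 7, 45⟩,
  ⟨163630360089, 1, 0, false, true, 7, 45⟩, ⟨77731014169, 0, 1, false, true, 14, 35⟩,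
  ⟨77731014169, 2, 1, false, false, 9, 35⟩, ⟨77731014169, 2, 0, true, true, 8, 70⟩,
  ⟨75315095065, 0, 2, false, true, 15, 89⟩, ⟨75315095065, 0, 2, false, true, 7, 89⟩,
  ⟨19432613401, 1, 2, true, true, 8, 89⟩, ⟨163515344409, 1, 0, false, true, 7, 89⟩,
  ⟨77615998489, 1, 0, false, false, 16, 89⟩, ⟨78958175769, 1, 0, false, false, 16, 89⟩,
  ⟨104765728281, 1, 2, true, false, 5, 89⟩, ⟨26382575129, 0, 2, true, true, 5, 89⟩,
  ⟨163821528601, 1, 2, false, true, 7, 45⟩, ⟨163821528601, 1, 0, false, true, 7, 45⟩,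
  ⟨40878089753, 0, 2, false, false, 16, 89⟩, ⟨40878089753, 1, 2, true, true, 8, 89⟩,
  ⟨75237828121, 0, 2, false, true, 15, 89⟩, ⟨75237828121, 0, 1, false, false, 7, 45⟩,
  ⟨75237828121, 0, 2, false, true, 7, 45⟩, ⟨40878838297, 2, 0, false, true, 14, 45⟩,
  ⟨40878838297, 1, 0, false, true, 9, 45⟩, ⟨156842955289, 1, 2, false, true, 14, 45⟩,
  ⟨156842955289, 0, 2, false, true, 9, 45⟩, ⟨19739546137, 2, 1, true, false, 11, 89⟩,
  ⟨157178499609, 0, 1, true, false, 8, 89⟩, ⟨107786375705, 2, 0, true, true, 8, 89⟩,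
  ⟨77721604633, 0, 1, false, true, 14, 35⟩, ⟨77721604633, 2, 1, false, false, 9, 35⟩,
  ⟨77721604633, 2, 0, true, true, 8, 70⟩, ⟨36047458841, 2, 1, false, true, 15, 82⟩,
  ⟨36047458841, 2, 1, false, false, 7, 82⟩, ⟨40879297049, 2, 0, false, true, 14, 32⟩,
  ⟨40879297049, 1, 0, false, true, 9, 32⟩, ⟨40879297049, 1, 2, true, true, 8, 64⟩,
  ⟨156843414041, 1, 2, false, true, 14, 41⟩, ⟨156843414041, 0, 2, false, true, 9, 41⟩,
  ⟨163629797913, 1, 0, false, true, 15, 82⟩, ⟨163629797913, 1, 2, false, true, 7, 41⟩,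
  ⟨163629797913, 1, 0, false, true, 7, 41⟩, ⟨77730451993, 0, 1, false, true, 14, 32⟩,
  ⟨77730451993, 2, 1, false, false, 9, 32⟩, ⟨77730451993, 2, 0, true, true, 8, 64⟩,
  ⟨104305562137, 1, 0, true, true, 5, 82⟩, ⟨35586085401, 2, 1, false, false, 7, 41⟩,
  ⟨35586085401, 2, 0, false, true, 7, 41⟩, ⟨144185004569, 0, 1, false, false, 1, 82⟩,
  ⟨75465527833, 0, 1, false, false, 7, 41⟩, ⟨75465527833, 0, 2, false, true, 7, 41⟩,
  ⟨26073403929, 0, 1, true, false, 5, 82⟩, ⟨163512357401, 1, 0, false, true, 15, 82⟩,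
  ⟨163512357401, 1, 0, false, true, 7, 82⟩, ⟨142344493129, 2, 1, true, false, 5, 70⟩,
  ⟨142344493129, 1, 2, false, true, 7, 35⟩, ⟨142344493129, 1, 0, false, true, 7, 35⟩,
  ⟨26380376137, 1, 2, false, true, 1, 70⟩, ⟨26380376137, 2, 1, true, false, 11, 70⟩,
  ⟨163819329609, 1, 2, false, false, 7, 45⟩, ⟨163819329609, 1, 0, false, true, 7, 45⟩,
  ⟨104293767241, 2, 0, false, true, 1, 70⟩, ⟨104293767241, 0, 2, true, true, 11, 70⟩,
  ⟨163629799497, 1, 2, false, true, 7, 45⟩, ⟨163629799497, 1, 0, false, true, 7, 45⟩,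
  ⟨77730453577, 0, 1, false, true, 14, 35⟩, ⟨77730453577, 2, 1, false, false, 9, 35⟩,
  ⟨77730453577, 2, 0, true, true, 8, 70⟩, ⟨35586086985, 2, 1, false, false, 7, 45⟩,
  ⟨35586086985, 2, 0, false, true, 7, 45⟩, ⟨40954796105, 0, 2, false, false, 16, 89⟩,
  ⟨144185006153, 0, 1, false, false, 1, 89⟩, ⟨75465529417, 0, 1, false, false, 7, 89⟩,
  ⟨105530300489, 1, 2, true, true, 5, 70⟩, ⟨105530300489, 0, 1, false, false, 7, 35⟩,
  ⟨105530300489, 0, 2, false, true, 7, 35⟩, ⟨26073405513, 0, 1, true, false, 5, 89⟩,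
  ⟨163512358985, 1, 0, false, true, 7, 89⟩, ⟨163515353161, 1, 0, false, true, 15, 70⟩,
  ⟨163515353161, 1, 0, false, true, 7, 69⟩, ⟨156267595849, 1, 2, false, true, 14, 27⟩,
  ⟨156267595849, 0, 2, false, true, 9, 27⟩, ⟨156267595849, 0, 1, true, false, 8, 54⟩,
  ⟨36008511561, 2, 1, false, true, 15, 69⟩, ⟨36008511561, 2, 1, false, false, 7, 34⟩,
  ⟨36008511561, 2, 0, false, true, 7, 34⟩, ⟨27003340873, 0, 1, true, false, 5, 54⟩,
  ⟨27003340873, 2, 1, false, false, 7, 27⟩, ⟨27003340873, 2, 0, false, true, 7, 27⟩,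
  ⟨35593275465, 2, 1, false, false, 7, 34⟩, ⟨35593275465, 2, 0, false, true, 7, 34⟩,
  ⟨144041199689, 2, 1, true, false, 5, 69⟩, ⟨75321722953, 0, 2, false, true, 15, 69⟩,
  ⟨75321722953, 0, 2, false, true, 7, 69⟩, ⟨40878098505, 0, 2, false, false, 16, 64⟩,
  ⟨40878098505, 2, 0, false, true, 14, 25⟩, ⟨40878098505, 1, 0, false, true, 9, 25⟩,
  ⟨40878098505, 1, 2, true, true, 8, 50⟩, ⟨75237836873, 0, 2, false, true, 15, 64⟩,
  ⟨75237836873, 0, 1, false, false, 7, 32⟩, ⟨75237836873, 0, 2, false, true, 7, 32⟩,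
  ⟨144189835337, 0, 1, false, false, 1, 76⟩, ⟨75470358601, 0, 1, false, false, 7, 38⟩,
  ⟨75470358601, 0, 2, false, true, 7, 38⟩, ⟨163517188169, 1, 0, false, true, 15, 76⟩,
  ⟨77617842249, 1, 0, false, false, 16, 76⟩, ⟨104763377737, 1, 2, true, false, 5, 76⟩,
  ⟨36043901001, 2, 1, false, true, 15, 76⟩, ⟨26984204361, 0, 1, true, false, 5, 59⟩,
  ⟨26984204361, 2, 1, false, false, 7, 29⟩, ⟨26984204361, 2, 0, false, true, 7, 29⟩,
  ⟨104293615689, 1, 2, true, false, 5, 76⟩, ⟨104293615689, 2, 0, false, true, 1, 59⟩,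
  ⟨104293615689, 0, 2, true, true, 11, 59⟩, ⟨163515353481, 1, 0, false, true, 15, 78⟩,
  ⟨163515353481, 1, 0, false, true, 7, 78⟩, ⟨77616007561, 1, 0, false, false, 16, 78⟩,
  ⟨156267596169, 1, 2, false, true, 14, 30⟩, ⟨156267596169, 0, 2, false, true, 9, 30⟩,
  ⟨156267596169, 0, 1, true, false, 8, 61⟩, ⟨36008511881, 2, 1, false, true, 15, 78⟩,
  ⟨36008511881, 2, 1, false, false, 7, 39⟩, ⟨36008511881, 2, 0, false, true, 7, 39⟩,
  ⟨35593275785, 2, 1, false, false, 7, 39⟩, ⟨35593275785, 2, 0, false, true, 7, 39⟩,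
  ⟨144041200009, 2, 1, true, false, 5, 78⟩, ⟨75321723273, 0, 2, false, true, 7, 78⟩,
  ⟨26382584201, 0, 2, true, true, 5, 78⟩, ⟨26382584201, 1, 2, false, true, 1, 61⟩,
  ⟨26382584201, 2, 1, true, false, 11, 61⟩, ⟨40878098825, 0, 2, false, false, 16, 78⟩,
  ⟨40878098825, 2, 0, false, true, 14, 30⟩, ⟨40878098825, 1, 0, false, true, 9, 30⟩,
  ⟨40878098825, 1, 2, true, true, 8, 61⟩, ⟨75237837193, 0, 1, false, false, 7, 39⟩,
  ⟨75237837193, 0, 2, false, true, 7, 39⟩, ⟨39067339145, 0, 2, false, false, 16, 88⟩,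
  ⟨107786815881, 2, 0, true, true, 8, 88⟩, ⟨77722044809, 0, 1, false, true, 14, 34⟩,
  ⟨77722044809, 2, 1, false, false, 9, 34⟩, ⟨77722044809, 2, 0, true, true, 8, 69⟩,
  ⟨35586122121, 2, 1, false, false, 7, 44⟩, ⟨35586122121, 2, 0, false, true, 7, 44⟩,
  ⟨40954831241, 0, 2, false, false, 16, 88⟩, ⟨75314569609, 0, 2, false, true, 15, 88⟩,
  ⟨108013363593, 0, 2, true, true, 11, 88⟩, ⟨142373101961, 2, 1, true, false, 5, 69⟩,
  ⟨142373101961, 1, 2, false, true, 7, 34⟩, ⟨142373101961, 1, 0, false, true, 7, 34⟩,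
  ⟨26408984969, 0, 1, true, false, 5, 88⟩, ⟨26408984969, 1, 2, false, true, 1, 88⟩,
  ⟨27003527561, 0, 1, true, false, 5, 69⟩, ⟨27003527561, 2, 1, false, false, 7, 34⟩,
  ⟨27003527561, 2, 0, false, true, 7, 34⟩, ⟨35593462153, 2, 1, false, false, 7, 44⟩,
  ⟨35593462153, 2, 0, false, false, 7, 44⟩, ⟨144175604105, 2, 1, true, false, 5, 88⟩,
  ⟨144175604105, 0, 1, false, false, 1, 88⟩, ⟨19621552521, 2, 1, true, false, 11, 88⟩]

theorem kc11 : keyChk 24870 8950 tri11 lv11 = true := by decide +kernel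

end Pool.Agent.SqfBridge
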