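import Pool.Agent.SqfBridge.CertKeys
import Pool.Agent.SqfBridge.LeafKern

set_option autoImplicit false

namespace Pool.Agent.SqfBridge

def lv12 : List Leaf := [
  ⟨39062149409, 1, 0, false, true, 9, 83⟩, ⟨107781626145, 2, 0, true, false, 8, 83⟩,
  ⟨157173750049, 0, 2, false, true, 9, 65⟩, ⟨157173750049, 0, 1, true, false, 8, 65⟩,
  ⟨144175601953, 0, 1, false, true, 1, 65⟩, ⟨144175601953, 1, 0, true, false, 11, 65⟩,
  ⟨107936815393, 2, 0, true, false, 8, 83⟩, ⟨39217338657, 1, 2, true, true, 8, 83⟩,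
  ⟨78485002529, 2, 0, true, false, 8, 83⟩, ⟨147204479265, 0, 1, true, true, 8, 83⟩,
  ⟨108012902689, 0, 2, true, true, 11, 83⟩, ⟨26408524065, 0, 1, true, false, 5, 83⟩,
  ⟨26408524065, 1, 2, false, true, 1, 65⟩, ⟨26408524065, 2, 1, true, true, 11, 65⟩,
  ⟨39210850593, 1, 0, false, true, 9, 65⟩, ⟨39210850593, 1, 2, true, true, 8, 65⟩,
  ⟨156248709409, 1, 2, false, true, 14, 33⟩, ⟨156248709409, 0, 2, false, true, 9, 33⟩,
  ⟨156248709409, 0, 1, true, true, 8, 65⟩, ⟨39076632865, 0, 2, false, false, 16, 83⟩,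
  ⟨39076632865, 1, 0, false, true, 9, 83⟩, ⟨77731338529, 0, 1, false, true, 14, 42⟩,
  ⟨77731338529, 2, 1, false, true, 9, 42⟩, ⟨78486313249, 2, 1, false, true, 9, 65⟩,
  ⟨78486313249, 2, 0, true, false, 8, 65⟩, ⟨156869466401, 1, 2, false, true, 14, 83⟩,
  ⟨19430512929, 1, 2, true, true, 8, 83⟩, ⟨75315094625, 0, 2, false, true, 15, 79⟩,
  ⟨75315094625, 0, 2, false, true, 7, 79⟩, ⟨39076308065, 1, 0, false, true, 9, 79⟩,
  ⟨77731013729, 2, 1, false, true, 9, 62⟩, ⟨77731013729, 2, 0, true, false, 8, 62⟩,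
  ⟨163630359649, 1, 0, false, false, 7, 40⟩, ⟨163630359649, 1, 2, false, true, 7, 40⟩,
  ⟨144189760609, 0, 1, false, true, 1, 62⟩, ⟨144189760609, 1, 0, true, false, 11, 62⟩,
  ⟨75470283873, 0, 1, false, true, 7, 40⟩, ⟨75470283873, 0, 2, false, true, 7, 40⟩,
  ⟨156269356129, 1, 2, false, true, 14, 31⟩, ⟨156269356129, 0, 2, false, true, 9, 31⟩,
  ⟨156269356129, 0, 1, true, true, 8, 62⟩, ⟨36010271841, 2, 1, false, true, 15, 78⟩,
  ⟨36010271841, 2, 0, false, false, 7, 39⟩, ⟨36010271841, 2, 1, false, true, 7, 39⟩,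
  ⟨75237827681, 0, 2, false, true, 15, 78⟩, ⟨75237827681, 0, 1, false, true, 7, 39⟩,
  ⟨75237827681, 0, 2, false, true, 7, 39⟩, ⟨40878089313, 0, 2, false, false, 16, 78⟩,
  ⟨40878089313, 1, 2, true, true, 8, 78⟩, ⟨26382574689, 0, 2, true, true, 5, 78⟩,
  ⟨104765727841, 1, 0, true, false, 5, 78⟩, ⟨39062103137, 0, 2, false, false, 16, 78⟩,
  ⟨157173703777, 0, 2, false, true, 9, 61⟩, ⟨157173703777, 0, 1, true, true, 8, 61⟩,
  ⟨156267734113, 1, 2, false, true, 14, 39⟩, ⟨156267734113, 0, 2, false, true, 9, 39⟩,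
  ⟨36008649825, 2, 1, false, true, 15, 78⟩, ⟨78488560737, 2, 1, false, true, 9, 61⟩,
  ⟨78488560737, 2, 0, true, false, 8, 61⟩, ⟨147208037473, 0, 1, true, true, 8, 78⟩,
  ⟨156843402337, 1, 2, false, true, 14, 39⟩, ⟨156843402337, 0, 2, false, true, 9, 39⟩,
  ⟨75239023713, 0, 1, false, true, 7, 39⟩, ⟨75239023713, 0, 2, false, true, 7, 39⟩,
  ⟨36047447137, 2, 1, false, true, 15, 78⟩, ⟨36047447137, 2, 1, false, true, 7, 78⟩,
  ⟨39067346017, 0, 2, false, false, 16, 78⟩, ⟨77722051681, 1, 0, false, false, 16, 78⟩,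
  ⟨77722051681, 0, 1, false, true, 14, 30⟩, ⟨77722051681, 2, 1, false, true, 9, 30⟩,
  ⟨77722051681, 2, 0, true, false, 8, 61⟩, ⟨107930215009, 0, 2, true, false, 11, 79⟩,
  ⟨39210738273, 1, 0, false, true, 9, 61⟩, ⟨107930215009, 2, 0, true, false, 8, 79⟩,
  ⟨39210738273, 1, 2, true, true, 8, 61⟩, ⟨156248597089, 1, 2, false, true, 14, 31⟩,
  ⟨156248597089, 0, 2, false, true, 9, 31⟩, ⟨156248597089, 0, 1, true, true, 8, 63⟩,
  ⟨104293753441, 1, 0, true, false, 5, 81⟩, ⟨104293753441, 2, 0, false, false, 1, 63⟩,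
  ⟨104293753441, 0, 2, true, true, 11, 63⟩, ⟨26984342113, 0, 1, true, true, 5, 63⟩,
  ⟨26984342113, 2, 0, false, false, 7, 31⟩, ⟨26984342113, 2, 1, false, true, 7, 31⟩,
  ⟨157175538273, 0, 1, true, true, 8, 81⟩, ⟨19736584801, 1, 2, true, true, 8, 81⟩,
  ⟨39062102625, 0, 2, false, false, 16, 81⟩, ⟨107781579361, 2, 0, true, false, 8, 81⟩,
  ⟨19734749793, 2, 1, true, false, 11, 81⟩, ⟨157173703265, 0, 2, false, true, 9, 63⟩,
  ⟨157173703265, 0, 1, true, true, 8, 63⟩, ⟨156267733601, 1, 2, false, true, 14, 40⟩,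
  ⟨156267733601, 0, 2, false, true, 9, 40⟩, ⟨78488560225, 2, 1, false, true, 9, 63⟩,
  ⟨78488560225, 2, 0, true, false, 8, 63⟩, ⟨147208036961, 0, 1, true, true, 8, 81⟩,
  ⟨40907596385, 1, 0, false, false, 9, 63⟩, ⟨40907596385, 1, 2, true, true, 8, 63⟩,
  ⟨156267727129, 1, 2, false, true, 14, 41⟩, ⟨156267727129, 0, 2, false, true, 9, 41⟩,
  ⟨36008642841, 2, 1, false, true, 15, 82⟩, ⟨147208030489, 0, 1, true, true, 8, 82⟩,
  ⟨19432753433, 1, 2, true, true, 8, 82⟩, ⟨40907589913, 1, 0, false, false, 9, 64⟩,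
  ⟨40907589913, 1, 2, true, true, 8, 64⟩, ⟨77730433305, 1, 0, false, false, 16, 82⟩,
  ⟨77730433305, 2, 0, true, false, 8, 82⟩, ⟨163629779225, 1, 0, false, false, 7, 41⟩,
  ⟨163629779225, 1, 2, false, true, 7, 41⟩, ⟨36047440153, 2, 1, false, true, 7, 82⟩,
  ⟨39067339033, 0, 2, false, false, 16, 82⟩, ⟨107786815769, 2, 0, true, false, 8, 82⟩,
  ⟨77722044697, 2, 1, false, true, 9, 64⟩, ⟨77722044697, 2, 0, true, false, 8, 64⟩,
  ⟨107937368345, 0, 2, true, false, 11, 82⟩, ⟨39217891609, 1, 0, false, true, 9, 64⟩,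
  ⟨39217891609, 1, 2, true, true, 8, 64⟩, ⟨78946339097, 1, 0, false, false, 16, 82⟩,
  ⟨78946339097, 0, 1, false, true, 14, 82⟩, ⟨147665815833, 0, 1, true, true, 8, 82⟩,
  ⟨156248410393, 1, 2, false, true, 14, 32⟩, ⟨156248410393, 0, 2, false, true, 9, 32⟩,
  ⟨156248410393, 0, 1, true, true, 8, 64⟩, ⟨147658475801, 0, 1, true, true, 8, 82⟩,
  ⟨75315120409, 0, 2, false, true, 15, 82⟩, ⟨75315120409, 0, 2, false, true, 7, 82⟩,
  ⟨39076333849, 0, 2, false, false, 16, 82⟩, ⟨163630385433, 1, 0, false, false, 7, 41⟩,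
  ⟨163630385433, 1, 2, false, true, 7, 41⟩, ⟨77615993369, 1, 0, false, false, 16, 82⟩,
  ⟨163515339289, 1, 0, false, false, 7, 82⟩, ⟨36008497689, 2, 1, false, true, 15, 82⟩,
  ⟨36008497689, 2, 0, false, false, 7, 41⟩, ⟨36008497689, 2, 1, false, true, 7, 41⟩,
  ⟨40907444761, 0, 2, false, false, 16, 82⟩, ⟨40907444761, 1, 0, false, false, 9, 64⟩,
  ⟨40907444761, 1, 2, true, true, 8, 64⟩, ⟨107930325529, 0, 2, true, false, 11, 79⟩,
  ⟨39210848793, 1, 0, false, true, 9, 62⟩, ⟨107930325529, 2, 0, true, false, 8, 79⟩,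
  ⟨39210848793, 1, 2, true, true, 8, 62⟩, ⟨39076631065, 0, 2, false, false, 16, 82⟩,
  ⟨39076631065, 1, 0, false, true, 9, 82⟩, ⟨78486311449, 2, 1, false, true, 9, 64⟩,
  ⟨78486311449, 2, 0, true, false, 8, 64⟩, ⟨19430511129, 1, 2, true, true, 8, 82⟩,
  ⟨77615998489, 1, 0, false, false, 16, 82⟩, ⟨163515344409, 1, 0, false, false, 7, 82⟩,
  ⟨19432613401, 1, 2, true, true, 8, 82⟩, ⟨75237828121, 0, 1, false, true, 7, 41⟩,
  ⟨75237828121, 0, 2, false, true, 7, 41⟩, ⟨40878089753, 0, 2, false, false, 16, 82⟩,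
  ⟨40878089753, 1, 2, true, true, 8, 82⟩, ⟨26382575129, 0, 2, true, true, 5, 82⟩,
  ⟨104765728281, 1, 0, true, false, 5, 82⟩]

theorem kc12 : keyChk 6298 8950 tri12 lv12 = true := by decide +kernel

def lv13 : List Leaf := [
  ⟨156842952993, 1, 2, false, true, 14, 45⟩, ⟨156842952993, 0, 2, false, true, 9, 45⟩,
  ⟨75238574369, 0, 2, false, true, 15, 89⟩, ⟨40878836001, 1, 0, false, false, 9, 89⟩,
  ⟨107937368353, 0, 2, true, false, 11, 89⟩, ⟨39217891617, 1, 0, false, true, 9, 89⟩,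
  ⟨78946339105, 1, 0, false, false, 16, 89⟩, ⟨78946339105, 0, 1, false, true, 14, 89⟩,
  ⟨147665815841, 0, 1, true, true, 8, 89⟩, ⟨156248410401, 2, 1, false, false, 16, 89⟩,
  ⟨156248410401, 1, 2, false, true, 14, 35⟩, ⟨156248410401, 0, 2, false, true, 9, 35⟩,
  ⟨156248410401, 0, 1, true, true, 8, 69⟩, ⟨78938999073, 1, 0, false, false, 16, 89⟩,
  ⟨147658475809, 0, 1, true, true, 8, 89⟩, ⟨39076333857, 1, 0, false, true, 9, 89⟩,
  ⟨163630385441, 1, 0, false, false, 7, 45⟩, ⟨163630385441, 1, 2, false, true, 7, 45⟩,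
  ⟨26982582561, 2, 0, false, false, 7, 45⟩, ⟨26982582561, 2, 1, false, true, 7, 45⟩,
  ⟨39062178081, 0, 2, false, false, 16, 59⟩, ⟨39062178081, 2, 0, false, true, 14, 45⟩,
  ⟨39062178081, 1, 0, false, true, 9, 45⟩, ⟨107781654817, 2, 0, true, false, 8, 88⟩,
  ⟨147208112417, 1, 0, true, false, 11, 56⟩, ⟨147208112417, 0, 1, true, true, 8, 56⟩,
  ⟨156871788833, 2, 1, false, false, 16, 88⟩, ⟨19432835361, 1, 2, true, true, 8, 88⟩,
  ⟨40907671841, 0, 2, false, false, 16, 88⟩, ⟨40907671841, 2, 0, false, true, 14, 34⟩,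
  ⟨40907671841, 1, 0, false, false, 9, 34⟩, ⟨40907671841, 1, 2, true, true, 8, 68⟩,
  ⟨144175601953, 2, 0, true, false, 5, 102⟩, ⟨144175601953, 0, 1, false, true, 1, 80⟩,
  ⟨144175601953, 1, 0, true, false, 11, 80⟩, ⟨107936815393, 2, 0, true, false, 8, 102⟩,
  ⟨39217338657, 1, 2, true, true, 8, 102⟩, ⟨104312936737, 2, 0, false, false, 1, 80⟩,
  ⟨104312936737, 0, 2, true, true, 11, 80⟩, ⟨35593460001, 2, 0, false, false, 7, 51⟩,
  ⟨35593460001, 2, 1, false, true, 7, 51⟩, ⟨78485002529, 2, 0, true, false, 8, 102⟩,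
  ⟨147204479265, 0, 1, true, true, 8, 102⟩, ⟨142372641057, 2, 0, true, false, 5, 102⟩,
  ⟨108012902689, 0, 2, true, true, 11, 102⟩, ⟨26408524065, 0, 1, true, false, 5, 102⟩,
  ⟨26408524065, 1, 2, false, true, 1, 80⟩, ⟨26408524065, 2, 1, true, true, 11, 80⟩,
  ⟨107930327329, 0, 2, true, false, 11, 100⟩, ⟨39210850593, 1, 0, false, true, 9, 78⟩,
  ⟨39210850593, 1, 2, true, true, 8, 78⟩, ⟨156248709409, 1, 2, false, true, 14, 39⟩,
  ⟨156248709409, 0, 2, false, true, 9, 39⟩, ⟨156248709409, 0, 1, true, true, 8, 78⟩,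
  ⟨39076632865, 2, 0, false, true, 14, 50⟩, ⟨39076632865, 1, 0, false, true, 9, 50⟩,
  ⟨77731338529, 0, 1, false, true, 14, 50⟩, ⟨77731338529, 2, 1, false, true, 9, 50⟩,
  ⟨147205789985, 1, 0, true, false, 11, 100⟩, ⟨78486313249, 2, 1, false, true, 9, 78⟩,
  ⟨78486313249, 2, 0, true, false, 8, 78⟩, ⟨156869466401, 2, 1, false, false, 16, 100⟩,
  ⟨156869466401, 1, 2, false, true, 14, 100⟩, ⟨19430512929, 1, 2, true, true, 8, 100⟩,
  ⟨39062103137, 0, 2, false, false, 16, 119⟩, ⟨39062103137, 2, 0, false, true, 14, 125⟩,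
  ⟨157173703777, 0, 2, false, true, 9, 98⟩, ⟨157173703777, 0, 1, true, true, 8, 97⟩,
  ⟨156267734113, 1, 2, false, true, 14, 63⟩, ⟨156267734113, 0, 2, false, true, 9, 62⟩,
  ⟨78958322785, 1, 0, false, false, 16, 125⟩, ⟨78958322785, 2, 1, false, true, 9, 125⟩,
  ⟨147208037473, 1, 0, true, false, 11, 121⟩, ⟨147208037473, 0, 1, true, true, 8, 121⟩,
  ⟨156843402337, 2, 1, false, false, 16, 125⟩, ⟨156843402337, 1, 2, false, true, 14, 63⟩,
  ⟨156843402337, 0, 2, false, true, 9, 62⟩, ⟨75239023713, 0, 1, false, true, 7, 63⟩,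
  ⟨75239023713, 0, 2, false, true, 7, 62⟩, ⟨156306531425, 2, 1, false, false, 16, 125⟩,
  ⟨36047447137, 2, 1, false, true, 7, 124⟩, ⟨39067346017, 0, 2, false, false, 16, 124⟩,
  ⟨77722051681, 1, 0, false, false, 16, 124⟩, ⟨77722051681, 2, 1, false, true, 9, 97⟩,
  ⟨77722051681, 2, 0, true, false, 8, 97⟩, ⟨107930215009, 0, 2, true, false, 11, 102⟩,
  ⟨39210738273, 1, 0, false, true, 9, 79⟩, ⟨107930215009, 2, 0, true, false, 8, 102⟩,
  ⟨39210738273, 1, 2, true, true, 8, 79⟩, ⟨156248597089, 2, 1, false, false, 16, 105⟩,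
  ⟨156248597089, 1, 2, false, true, 14, 41⟩, ⟨156248597089, 0, 2, false, true, 9, 41⟩,
  ⟨156248597089, 0, 1, true, true, 8, 82⟩, ⟨142373839457, 2, 0, true, false, 5, 82⟩,
  ⟨142373839457, 1, 0, false, false, 7, 41⟩, ⟨142373839457, 1, 2, false, true, 7, 41⟩,
  ⟨108014101089, 0, 2, true, true, 11, 105⟩, ⟨104293753441, 2, 0, false, false, 1, 82⟩,
  ⟨104293753441, 0, 2, true, true, 11, 82⟩, ⟨147243426401, 1, 0, true, false, 11, 105⟩,
  ⟨26984342113, 2, 0, false, false, 7, 53⟩, ⟨26984342113, 2, 1, false, true, 7, 53⟩,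
  ⟨157175538273, 0, 1, true, true, 8, 105⟩, ⟨19736584801, 1, 2, true, true, 8, 105⟩,
  ⟨39062102625, 0, 2, false, false, 16, 84⟩, ⟨39062102625, 2, 0, false, true, 14, 105⟩,
  ⟨107781579361, 2, 0, true, false, 8, 105⟩, ⟨19734749793, 2, 1, true, false, 11, 105⟩,
  ⟨157173703265, 0, 2, false, true, 9, 82⟩, ⟨157173703265, 0, 1, true, true, 8, 82⟩,
  ⟨156267733601, 1, 2, false, true, 14, 52⟩, ⟨156267733601, 0, 2, false, true, 9, 52⟩,
  ⟨78958322273, 2, 1, false, true, 9, 105⟩, ⟨147208036961, 1, 0, true, false, 11, 84⟩,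
  ⟨147208036961, 0, 1, true, true, 8, 84⟩, ⟨40907596385, 1, 0, false, false, 9, 82⟩,
  ⟨40907596385, 1, 2, true, true, 8, 82⟩]

theorem kc13 : keyChk 6426 8364 tri13 lv13 = true := by decide +kernel

def lv14 : List Leaf := [
  ⟨19621250630, 2, 1, true, true, 11, 71⟩, ⟨105520596550, 1, 0, true, false, 5, 80⟩,
  ⟨105520596550, 0, 1, false, true, 7, 40⟩, ⟨105520596550, 0, 2, false, true, 7, 40⟩,
  ⟨144175302214, 0, 1, false, true, 1, 80⟩, ⟨144175302214, 1, 0, true, false, 11, 80⟩,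
  ⟨35593160262, 2, 0, false, false, 7, 52⟩, ⟨35593160262, 2, 1, false, true, 7, 52⟩,
  ⟨27003225670, 0, 1, true, true, 5, 103⟩, ⟨144041084486, 2, 0, true, false, 5, 103⟩,
  ⟨75321607750, 0, 2, false, true, 7, 103⟩, ⟨78486210118, 2, 1, false, true, 9, 80⟩,
  ⟨78486210118, 2, 0, true, false, 8, 80⟩, ⟨156869363270, 1, 2, false, true, 14, 52⟩,
  ⟨156869363270, 0, 2, false, true, 9, 52⟩, ⟨19430409798, 1, 2, true, true, 8, 103⟩,
  ⟨142373848646, 1, 0, false, false, 7, 52⟩, ⟨142373848646, 1, 2, false, true, 7, 52⟩,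
  ⟨142344488518, 2, 0, true, false, 5, 80⟩, ⟨142344488518, 1, 0, false, false, 7, 40⟩,
  ⟨142344488518, 1, 2, false, true, 7, 40⟩, ⟨147241666118, 1, 0, true, false, 11, 103⟩,
  ⟨26982581830, 0, 1, true, true, 5, 103⟩, ⟨39062177350, 2, 0, false, true, 14, 52⟩,
  ⟨39062177350, 1, 0, false, true, 9, 52⟩, ⟨78488634950, 2, 1, false, true, 9, 80⟩,
  ⟨78488634950, 2, 0, true, false, 8, 80⟩, ⟨156871788102, 2, 1, false, false, 16, 103⟩,
  ⟨19432834630, 1, 2, true, true, 8, 103⟩, ⟨19621578310, 2, 1, true, true, 11, 71⟩,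
  ⟨105520924230, 1, 0, true, false, 5, 80⟩, ⟨105520924230, 0, 1, false, true, 7, 40⟩,
  ⟨105520924230, 0, 2, false, true, 7, 40⟩, ⟨107936843334, 2, 0, true, false, 8, 103⟩,
  ⟨39217366598, 1, 2, true, true, 8, 103⟩, ⟨156842951814, 2, 1, false, false, 16, 71⟩,
  ⟨156842951814, 1, 2, false, true, 14, 36⟩, ⟨156842951814, 0, 2, false, true, 9, 36⟩,
  ⟨40878834822, 2, 0, false, true, 14, 36⟩, ⟨40878834822, 1, 0, false, false, 9, 36⟩,
  ⟨19739542662, 2, 1, true, false, 11, 69⟩, ⟨157178496134, 0, 2, false, true, 9, 54⟩,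
  ⟨157178496134, 0, 1, true, true, 8, 54⟩, ⟨19739542662, 1, 2, true, true, 8, 69⟩,
  ⟨39217890438, 1, 0, false, true, 9, 55⟩, ⟨39217890438, 1, 2, true, true, 8, 55⟩,
  ⟨78946337926, 0, 1, false, true, 14, 71⟩, ⟨147665814662, 0, 1, true, true, 8, 71⟩,
  ⟨147241665670, 1, 0, true, false, 11, 67⟩, ⟨26982581382, 0, 1, true, true, 5, 67⟩,
  ⟨78488634502, 2, 1, false, true, 9, 52⟩, ⟨78488634502, 2, 0, true, false, 8, 52⟩,
  ⟨156871787654, 2, 1, false, false, 16, 67⟩, ⟨19432834182, 1, 2, true, true, 8, 67⟩,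
  ⟨40907670662, 0, 2, false, false, 16, 67⟩, ⟨40907670662, 2, 0, false, true, 14, 26⟩,
  ⟨40907670662, 1, 0, false, false, 9, 26⟩, ⟨40907670662, 1, 2, true, true, 8, 52⟩,
  ⟨19621577862, 2, 1, true, true, 11, 29⟩, ⟨105520923782, 1, 0, true, false, 5, 52⟩,
  ⟨105520923782, 0, 1, false, true, 7, 26⟩, ⟨105520923782, 0, 2, false, true, 7, 26⟩,
  ⟨144175629446, 2, 0, true, false, 5, 67⟩, ⟨144175629446, 0, 1, false, true, 1, 52⟩,
  ⟨144175629446, 1, 0, true, true, 11, 52⟩, ⟨107936842886, 2, 0, true, true, 8, 67⟩,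
  ⟨39217366150, 1, 2, true, true, 8, 67⟩, ⟨163515344006, 1, 0, false, true, 15, 82⟩,
  ⟨163515344006, 1, 0, false, false, 7, 82⟩, ⟨156871566470, 2, 1, false, false, 16, 82⟩,
  ⟨19432612998, 1, 2, true, true, 8, 82⟩, ⟨40907449478, 2, 0, false, true, 14, 32⟩,
  ⟨40907449478, 1, 0, false, false, 9, 32⟩, ⟨40907449478, 1, 2, true, true, 8, 64⟩,
  ⟨107930330246, 2, 0, true, false, 8, 81⟩, ⟨39210853510, 1, 2, true, true, 8, 81⟩,
  ⟨156248712326, 1, 2, false, true, 14, 31⟩, ⟨156248712326, 0, 2, false, true, 9, 31⟩,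
  ⟨156248712326, 0, 1, true, true, 8, 63⟩, ⟨147658777734, 0, 1, true, true, 8, 81⟩,
  ⟨39076635782, 0, 2, false, false, 16, 81⟩, ⟨77731341446, 0, 1, false, true, 14, 40⟩,
  ⟨77731341446, 2, 1, false, true, 9, 40⟩, ⟨163630687366, 1, 0, false, true, 15, 81⟩,
  ⟨39210738822, 1, 0, false, true, 9, 63⟩, ⟨107930215558, 2, 0, true, false, 8, 81⟩,
  ⟨39210738822, 1, 2, true, true, 8, 63⟩, ⟨156248597638, 2, 1, false, false, 16, 81⟩,
  ⟨156248597638, 1, 2, false, true, 14, 31⟩, ⟨156248597638, 0, 2, false, true, 9, 31⟩,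
  ⟨156248597638, 0, 1, true, true, 8, 63⟩, ⟨147658663046, 0, 1, true, true, 8, 81⟩,
  ⟨156843402374, 2, 1, false, false, 16, 81⟩, ⟨75239023750, 0, 1, false, true, 7, 40⟩,
  ⟨75239023750, 0, 2, false, true, 7, 40⟩, ⟨36047447174, 2, 1, false, true, 15, 81⟩,
  ⟨36047447174, 2, 1, false, true, 7, 81⟩, ⟨39067346054, 0, 2, false, false, 16, 81⟩,
  ⟨107786822790, 2, 0, true, false, 8, 81⟩, ⟨77722051718, 0, 1, false, true, 14, 31⟩,
  ⟨77722051718, 2, 1, false, true, 9, 31⟩, ⟨77722051718, 2, 0, true, false, 8, 63⟩,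
  ⟨19621552422, 2, 1, true, true, 11, 53⟩, ⟨144175604006, 2, 0, true, false, 5, 89⟩,
  ⟨144175604006, 0, 1, false, true, 1, 69⟩, ⟨144175604006, 1, 0, true, false, 11, 69⟩,
  ⟨107936817446, 2, 0, true, false, 8, 89⟩, ⟨27003527462, 0, 1, true, true, 5, 89⟩,
  ⟨104305598758, 2, 0, false, false, 1, 69⟩, ⟨104305598758, 0, 2, true, true, 11, 69⟩,
  ⟨35586122022, 2, 0, false, false, 7, 44⟩, ⟨35586122022, 2, 1, false, true, 7, 44⟩,
  ⟨26073440550, 0, 1, true, false, 5, 89⟩, ⟨163512394022, 1, 0, false, true, 15, 89⟩,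
  ⟨142373101862, 2, 0, true, false, 5, 89⟩, ⟨26408984870, 0, 1, true, false, 5, 89⟩,
  ⟨26408984870, 1, 2, false, true, 1, 69⟩, ⟨26408984870, 2, 1, true, true, 11, 69⟩,
  ⟨39210737958, 1, 0, false, true, 9, 69⟩, ⟨107930214694, 2, 0, true, false, 8, 89⟩,
  ⟨39210737958, 1, 2, true, true, 8, 69⟩, ⟨147658662182, 0, 1, true, true, 8, 89⟩,
  ⟨156869353766, 2, 1, false, false, 16, 89⟩, ⟨156869353766, 1, 2, false, true, 14, 44⟩,
  ⟨156869353766, 0, 2, false, true, 9, 44⟩, ⟨19430400294, 1, 2, true, true, 8, 89⟩,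
  ⟨104293753126, 1, 0, true, false, 5, 89⟩, ⟨104293753126, 0, 2, true, true, 11, 89⟩,
  ⟨147243426086, 1, 0, true, false, 11, 89⟩, ⟨26984341798, 0, 1, true, true, 5, 89⟩,
  ⟨157175537958, 0, 1, true, true, 8, 89⟩, ⟨19736584486, 1, 2, true, true, 8, 89⟩,
  ⟨142344347942, 2, 0, true, false, 5, 64⟩, ⟨142344347942, 1, 0, false, false, 7, 32⟩,
  ⟨142344347942, 1, 2, false, true, 7, 32⟩, ⟨163819184422, 1, 0, false, false, 7, 41⟩,
  ⟨163819184422, 1, 2, false, true, 7, 41⟩, ⟨104763384102, 1, 0, true, false, 5, 82⟩,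
  ⟨36043907366, 2, 1, false, true, 15, 82⟩, ⟨36043907366, 2, 1, false, true, 7, 82⟩,
  ⟨104293622054, 1, 0, true, false, 5, 82⟩, ⟨104293622054, 2, 0, false, false, 1, 64⟩,
  ⟨104293622054, 0, 2, true, true, 11, 64⟩, ⟨147243295014, 1, 0, true, false, 11, 82⟩,
  ⟨26984210726, 0, 1, true, true, 5, 82⟩, ⟨147241638182, 1, 0, true, false, 11, 102⟩,
  ⟨39062149414, 2, 0, false, true, 14, 51⟩, ⟨39062149414, 1, 0, false, true, 9, 51⟩,
  ⟨107781626150, 2, 0, true, false, 8, 102⟩, ⟨157173750054, 0, 2, false, true, 9, 79⟩,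
  ⟨157173750054, 0, 1, true, true, 8, 79⟩]

theorem kc14 : keyChk 6425 8950 tri14 lv14 = true := by decide +kernel

def lv15 : List Leaf := [
  ⟨77731341446, 0, 1, false, true, 14, 63⟩, ⟨77731341446, 2, 1, false, true, 9, 62⟩,
  ⟨163630687366, 1, 0, false, true, 15, 125⟩, ⟨39076635782, 0, 2, false, false, 16, 125⟩,
  ⟨39076635782, 2, 0, false, true, 14, 63⟩, ⟨39076635782, 1, 0, false, true, 9, 62⟩,
  ⟨107930330246, 0, 2, true, false, 11, 125⟩, ⟨39210853510, 1, 2, true, false, 8, 125⟩,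
  ⟨107930330246, 2, 0, true, true, 8, 125⟩, ⟨156248712326, 1, 2, false, true, 14, 49⟩,
  ⟨156248712326, 0, 2, false, false, 9, 49⟩, ⟨156248712326, 0, 1, true, true, 8, 97⟩,
  ⟨163515344006, 1, 0, false, true, 7, 125⟩, ⟨156871566470, 2, 1, false, false, 16, 113⟩,
  ⟨19432612998, 1, 2, true, false, 8, 113⟩, ⟨40907449478, 2, 0, false, true, 14, 49⟩,
  ⟨40907449478, 1, 0, false, true, 9, 49⟩, ⟨40907449478, 1, 2, true, false, 8, 97⟩,
  ⟨156871787654, 2, 1, false, false, 16, 74⟩, ⟨19432834182, 1, 2, true, false, 8, 74⟩,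
  ⟨40907670662, 0, 2, false, false, 16, 107⟩, ⟨40907670662, 2, 0, false, true, 14, 41⟩,
  ⟨40907670662, 1, 0, false, true, 9, 41⟩, ⟨40907670662, 1, 2, true, true, 8, 82⟩,
  ⟨147208111238, 1, 0, true, false, 11, 103⟩, ⟨78488634502, 2, 1, false, true, 9, 80⟩,
  ⟨78488634502, 2, 0, true, true, 8, 80⟩, ⟨147208111238, 0, 1, true, true, 8, 103⟩,
  ⟨147241665670, 1, 0, true, true, 11, 125⟩, ⟨26982581382, 0, 2, true, false, 5, 98⟩,
  ⟨26982581382, 2, 0, false, true, 7, 49⟩, ⟨26982581382, 2, 1, false, true, 7, 48⟩,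
  ⟨19739542662, 2, 1, true, false, 11, 122⟩, ⟨157178496134, 0, 2, false, true, 9, 95⟩,
  ⟨19739542662, 1, 2, true, false, 8, 121⟩, ⟨157178496134, 0, 1, true, true, 8, 94⟩,
  ⟨77721601158, 2, 0, true, true, 8, 125⟩, ⟨156842951814, 2, 1, false, false, 16, 125⟩,
  ⟨156842951814, 1, 2, false, true, 14, 63⟩, ⟨156842951814, 0, 2, false, true, 9, 62⟩,
  ⟨107937367174, 0, 2, true, false, 11, 125⟩, ⟨39217890438, 1, 0, false, true, 9, 98⟩,
  ⟨39217890438, 1, 2, true, false, 8, 97⟩, ⟨78946337926, 0, 1, false, true, 14, 125⟩,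
  ⟨147665814662, 0, 1, true, true, 8, 125⟩, ⟨39217947206, 1, 0, false, true, 9, 98⟩,
  ⟨39217947206, 1, 2, true, false, 8, 97⟩, ⟨78946394694, 0, 1, false, true, 14, 63⟩,
  ⟨78946394694, 2, 1, false, true, 9, 62⟩, ⟨147665871430, 0, 1, true, true, 8, 125⟩,
  ⟨19622158918, 2, 1, true, true, 11, 125⟩, ⟨105529893446, 1, 2, true, false, 5, 125⟩,
  ⟨144184599110, 0, 1, false, true, 1, 98⟩, ⟨144184599110, 1, 0, true, true, 11, 97⟩,
  ⟨78485021254, 2, 0, true, true, 8, 125⟩, ⟨147204497990, 0, 1, true, true, 8, 125⟩,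
  ⟨77731336774, 0, 1, false, true, 14, 63⟩, ⟨77731336774, 2, 1, false, true, 9, 62⟩,
  ⟨163630682694, 1, 0, false, true, 15, 125⟩, ⟨39076631110, 0, 2, false, false, 16, 125⟩,
  ⟨39076631110, 2, 0, false, true, 14, 63⟩, ⟨39076631110, 1, 0, false, true, 9, 62⟩,
  ⟨108014110278, 0, 2, true, false, 11, 120⟩, ⟨142373848646, 1, 2, false, false, 7, 60⟩,
  ⟨142373848646, 1, 0, false, true, 7, 60⟩, ⟨156869363270, 1, 2, false, true, 14, 60⟩,
  ⟨156869363270, 0, 2, false, true, 9, 60⟩, ⟨19430409798, 1, 2, true, false, 8, 120⟩,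
  ⟨78486210118, 2, 1, false, true, 9, 94⟩, ⟨78486210118, 2, 0, true, true, 8, 94⟩,
  ⟨26380371526, 1, 2, false, false, 1, 94⟩, ⟨26380371526, 2, 1, true, true, 11, 94⟩,
  ⟨163819324998, 1, 2, false, false, 7, 60⟩, ⟨163819324998, 1, 0, false, true, 7, 60⟩,
  ⟨142344488518, 2, 0, true, true, 5, 94⟩, ⟨142344488518, 1, 2, false, false, 7, 47⟩,
  ⟨142344488518, 1, 0, false, true, 7, 47⟩, ⟨27003225670, 0, 2, true, false, 5, 94⟩,
  ⟨27003225670, 2, 0, false, true, 7, 47⟩, ⟨27003225670, 2, 1, false, true, 7, 46⟩,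
  ⟨35593160262, 2, 0, false, true, 7, 59⟩, ⟨35593160262, 2, 1, false, true, 7, 59⟩,
  ⟨105520596550, 1, 2, true, false, 5, 119⟩, ⟨19621250630, 2, 1, true, true, 11, 119⟩,
  ⟨144175302214, 0, 1, false, true, 1, 93⟩, ⟨144175302214, 1, 0, true, true, 11, 93⟩,
  ⟨39217366598, 1, 2, true, false, 8, 119⟩, ⟨107936843334, 2, 0, true, true, 8, 119⟩,
  ⟨156871788102, 2, 1, false, false, 16, 98⟩, ⟨19432834630, 1, 2, true, false, 8, 98⟩,
  ⟨147208111686, 1, 0, true, false, 11, 115⟩, ⟨78488634950, 2, 1, false, true, 9, 90⟩,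
  ⟨78488634950, 2, 0, true, true, 8, 90⟩, ⟨147208111686, 0, 1, true, true, 8, 115⟩,
  ⟨147241666118, 1, 0, true, true, 11, 119⟩, ⟨26982581830, 0, 2, true, false, 5, 93⟩,
  ⟨26982581830, 2, 0, false, true, 7, 46⟩, ⟨26982581830, 2, 1, false, false, 7, 46⟩,
  ⟨39062177350, 2, 0, false, true, 14, 59⟩, ⟨39062177350, 1, 0, false, true, 9, 59⟩]

theorem kc15 : keyChk 33945 7847 tri15 lv15 = true := by decide +kernel

end Pool.Agent.SqfBridge
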