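import Pool.Agent.SqfBridge.CertKeys
import Pool.Agent.SqfBridge.LeafKern

set_option autoImplicit false

namespace Pool.Agent.SqfBridge

def lv16 : List Leaf := [
  ⟨156306543129, 2, 1, false, false, 16, 81⟩, ⟨156843414041, 1, 2, false, true, 14, 41⟩,
  ⟨156843414041, 0, 2, false, true, 9, 41⟩, ⟨40879297049, 2, 0, false, true, 14, 41⟩,
  ⟨40879297049, 1, 0, false, true, 9, 41⟩, ⟨75239035417, 0, 2, false, true, 15, 81⟩,
  ⟨75239035417, 0, 2, false, false, 7, 41⟩, ⟨75239035417, 0, 1, false, true, 7, 41⟩,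
  ⟨144185004569, 0, 1, false, true, 1, 63⟩, ⟨144185004569, 1, 0, true, true, 11, 63⟩,
  ⟨75465527833, 0, 2, false, false, 7, 41⟩, ⟨75465527833, 0, 1, false, true, 7, 41⟩,
  ⟨26073403929, 0, 2, true, false, 5, 81⟩, ⟨163512357401, 1, 0, false, true, 15, 81⟩,
  ⟨104305562137, 2, 0, false, true, 1, 63⟩, ⟨104305562137, 0, 2, true, false, 11, 63⟩,
  ⟨35586085401, 2, 0, false, true, 7, 41⟩, ⟨35586085401, 2, 1, false, true, 7, 41⟩,
  ⟨77730451993, 1, 0, false, false, 16, 81⟩, ⟨77730451993, 0, 1, false, true, 14, 41⟩,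
  ⟨77730451993, 2, 1, false, true, 9, 41⟩, ⟨163629797913, 1, 0, false, true, 15, 81⟩,
  ⟨163629797913, 1, 2, false, false, 7, 41⟩, ⟨163629797913, 1, 0, false, true, 7, 41⟩,
  ⟨156869464601, 1, 2, false, true, 14, 93⟩, ⟨147205788185, 1, 0, true, false, 11, 93⟩,
  ⟨78486311449, 2, 1, false, true, 9, 93⟩, ⟨78958170649, 1, 0, false, false, 16, 93⟩,
  ⟨78958170649, 0, 1, false, true, 14, 47⟩, ⟨78958170649, 2, 1, false, true, 9, 47⟩,
  ⟨36008497689, 2, 0, false, true, 7, 47⟩, ⟨36008497689, 2, 1, false, true, 7, 47⟩,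
  ⟨77615993369, 1, 0, false, false, 16, 93⟩, ⟨163515339289, 1, 0, false, true, 15, 93⟩,
  ⟨40907444761, 0, 2, false, false, 16, 93⟩, ⟨40907444761, 2, 0, false, true, 14, 47⟩,
  ⟨40907444761, 1, 0, false, true, 9, 47⟩, ⟨75315095065, 0, 2, false, true, 15, 93⟩,
  ⟨75315095065, 0, 2, false, false, 7, 93⟩, ⟨77731014169, 0, 1, false, true, 14, 47⟩,
  ⟨77731014169, 2, 1, false, true, 9, 47⟩, ⟨163630360089, 1, 0, false, true, 15, 93⟩,
  ⟨163630360089, 1, 2, false, false, 7, 47⟩, ⟨163630360089, 1, 0, false, true, 7, 47⟩,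
  ⟨39076308505, 2, 0, false, true, 14, 47⟩, ⟨39076308505, 1, 0, false, true, 9, 47⟩,
  ⟨26380150297, 1, 2, false, false, 1, 73⟩, ⟨26380150297, 2, 1, true, true, 11, 73⟩,
  ⟨163819103769, 1, 2, false, false, 7, 47⟩, ⟨163819103769, 1, 0, false, true, 7, 47⟩,
  ⟨142344267289, 2, 0, true, true, 5, 73⟩, ⟨142344267289, 1, 2, false, false, 7, 37⟩,
  ⟨142344267289, 1, 0, false, true, 7, 37⟩, ⟨104763303449, 1, 2, true, false, 5, 93⟩,
  ⟨36043826713, 2, 1, false, true, 7, 93⟩, ⟨40955382041, 0, 2, false, false, 16, 91⟩,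
  ⟨75315120409, 0, 2, false, true, 15, 91⟩, ⟨75315120409, 0, 2, false, false, 7, 91⟩,
  ⟨163630385433, 1, 0, false, true, 15, 91⟩, ⟨163630385433, 1, 2, false, false, 7, 46⟩,
  ⟨163630385433, 1, 0, false, true, 7, 46⟩, ⟨39076333849, 0, 2, false, false, 16, 91⟩,
  ⟨147658475801, 0, 1, true, true, 8, 91⟩, ⟨156248410393, 2, 1, false, false, 16, 91⟩,
  ⟨156248410393, 1, 2, false, true, 14, 36⟩, ⟨156248410393, 0, 2, false, false, 9, 36⟩,
  ⟨156248410393, 0, 1, true, true, 8, 71⟩, ⟨107937368345, 0, 2, true, false, 11, 93⟩,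
  ⟨39217891609, 1, 0, false, true, 9, 93⟩, ⟨78946339097, 1, 0, false, false, 16, 93⟩,
  ⟨78946339097, 0, 1, false, true, 14, 93⟩, ⟨147665815833, 0, 1, true, true, 8, 93⟩,
  ⟨78958315801, 1, 0, false, false, 16, 93⟩, ⟨78958315801, 0, 1, false, true, 14, 47⟩,
  ⟨78958315801, 2, 1, false, true, 9, 47⟩, ⟨156267727129, 1, 2, false, true, 14, 47⟩,
  ⟨156267727129, 0, 2, false, false, 9, 47⟩, ⟨40907589913, 2, 0, false, true, 14, 47⟩,
  ⟨40907589913, 1, 0, false, true, 9, 47⟩, ⟨147208030489, 1, 0, true, false, 11, 93⟩,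
  ⟨147208030489, 0, 1, true, true, 8, 93⟩, ⟨77722044697, 2, 1, false, true, 9, 93⟩,
  ⟨39067339033, 0, 2, false, false, 16, 93⟩, ⟨107786815769, 2, 0, true, true, 8, 93⟩,
  ⟨40954775833, 0, 2, false, false, 16, 93⟩, ⟨144033990937, 2, 0, true, false, 5, 93⟩,
  ⟨77730433305, 1, 0, false, false, 16, 93⟩, ⟨163629779225, 1, 0, false, true, 15, 93⟩,
  ⟨163629779225, 1, 2, false, false, 7, 47⟩, ⟨163629779225, 1, 0, false, true, 7, 47⟩,
  ⟨156871788833, 2, 1, false, false, 16, 79⟩, ⟨40907671841, 0, 2, false, false, 16, 79⟩,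
  ⟨40907671841, 2, 0, false, true, 14, 40⟩, ⟨40907671841, 1, 0, false, true, 9, 39⟩,
  ⟨147208112417, 1, 0, true, false, 11, 78⟩, ⟨78488635681, 2, 1, false, true, 9, 78⟩,
  ⟨147208112417, 0, 1, true, true, 8, 78⟩, ⟨39062178081, 0, 2, false, false, 16, 78⟩,
  ⟨39062178081, 2, 0, false, true, 14, 39⟩, ⟨39062178081, 1, 0, false, true, 9, 39⟩,
  ⟨107781654817, 2, 0, true, true, 8, 78⟩, ⟨163630385441, 1, 2, false, false, 7, 39⟩,
  ⟨163630385441, 1, 0, false, true, 7, 39⟩, ⟨39076333857, 0, 2, false, false, 16, 78⟩,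
  ⟨39076333857, 1, 0, false, true, 9, 78⟩, ⟨147658475809, 0, 1, true, true, 8, 78⟩,
  ⟨156248410401, 2, 1, false, false, 16, 78⟩, ⟨156248410401, 1, 2, false, true, 14, 30⟩,
  ⟨156248410401, 0, 2, false, false, 9, 30⟩, ⟨156248410401, 0, 1, true, true, 8, 61⟩,
  ⟨156842952993, 2, 1, false, false, 16, 78⟩, ⟨156842952993, 1, 2, false, true, 14, 39⟩,
  ⟨156842952993, 0, 2, false, true, 9, 39⟩, ⟨40878836001, 1, 0, false, true, 9, 78⟩,
  ⟨75238574369, 0, 2, false, true, 15, 78⟩, ⟨107937368353, 0, 2, true, false, 11, 78⟩,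
  ⟨39217891617, 1, 0, false, true, 9, 78⟩, ⟨78946339105, 1, 0, false, false, 16, 78⟩,
  ⟨78946339105, 0, 1, false, true, 14, 78⟩, ⟨147665815841, 0, 1, true, true, 8, 78⟩,
  ⟨26408524065, 0, 2, true, false, 5, 93⟩, ⟨26408524065, 1, 2, false, false, 1, 72⟩,
  ⟨26408524065, 2, 1, true, true, 11, 72⟩, ⟨147204479265, 0, 1, true, true, 8, 93⟩,
  ⟨156869466401, 2, 1, false, false, 16, 93⟩, ⟨156869466401, 1, 2, false, true, 14, 93⟩,
  ⟨147205789985, 1, 0, true, false, 11, 93⟩, ⟨78486313249, 2, 1, false, true, 9, 93⟩,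
  ⟨77731338529, 0, 1, false, true, 14, 46⟩, ⟨77731338529, 2, 1, false, true, 9, 46⟩,
  ⟨39076632865, 0, 2, false, false, 16, 93⟩, ⟨39076632865, 2, 0, false, true, 14, 46⟩,
  ⟨39076632865, 1, 0, false, true, 9, 46⟩, ⟨156248709409, 1, 2, false, true, 14, 36⟩,
  ⟨156248709409, 0, 2, false, false, 9, 36⟩, ⟨156248709409, 0, 1, true, true, 8, 72⟩,
  ⟨27003525409, 0, 2, true, false, 5, 93⟩, ⟨104312936737, 2, 0, false, true, 1, 72⟩,
  ⟨104312936737, 0, 2, true, false, 11, 72⟩, ⟨35593460001, 2, 0, false, true, 7, 46⟩,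
  ⟨35593460001, 2, 1, false, true, 7, 46⟩, ⟨107936815393, 2, 0, true, true, 8, 93⟩,
  ⟨144175601953, 2, 0, true, false, 5, 93⟩, ⟨144175601953, 0, 1, false, true, 1, 72⟩,
  ⟨144175601953, 1, 0, true, true, 11, 72⟩, ⟨147241638177, 1, 0, true, true, 11, 93⟩,
  ⟨39062149409, 2, 0, false, true, 14, 46⟩, ⟨39062149409, 1, 0, false, true, 9, 46⟩,
  ⟨107781626145, 2, 0, true, true, 8, 93⟩]

theorem kc16 : keyChk 33946 8950 tri16 lv16 = true := by decide +kernel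

def lv17 : List Leaf := [
  ⟨156306524441, 2, 1, false, false, 16, 84⟩, ⟨36047440153, 2, 1, false, false, 7, 84⟩,
  ⟨39067339033, 0, 2, false, false, 16, 51⟩, ⟨107786815769, 2, 0, true, true, 8, 51⟩,
  ⟨163629779225, 1, 0, false, true, 15, 84⟩, ⟨163629779225, 1, 2, false, true, 7, 42⟩,
  ⟨163629779225, 1, 0, false, true, 7, 42⟩, ⟨77730433305, 2, 0, true, true, 8, 84⟩,
  ⟨40954775833, 0, 2, false, false, 16, 84⟩, ⟨40907589913, 1, 2, true, true, 8, 84⟩,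
  ⟨19432753433, 1, 2, true, true, 8, 84⟩, ⟨78958315801, 0, 1, false, true, 14, 42⟩,
  ⟨78958315801, 2, 1, false, true, 9, 42⟩, ⟨156267727129, 1, 2, false, true, 14, 54⟩,
  ⟨78946339097, 0, 1, false, true, 14, 84⟩, ⟨39217891609, 1, 2, true, true, 8, 84⟩,
  ⟨104305600025, 2, 0, false, true, 1, 84⟩, ⟨35586123289, 2, 1, false, false, 7, 42⟩,
  ⟨35586123289, 2, 0, false, true, 7, 42⟩, ⟨40954832409, 0, 2, false, false, 16, 84⟩,
  ⟨75314570777, 0, 2, false, true, 15, 84⟩, ⟨105530336793, 1, 2, true, true, 5, 66⟩,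
  ⟨105530336793, 0, 1, false, false, 7, 33⟩, ⟨105530336793, 0, 2, false, true, 7, 33⟩,
  ⟨26073441817, 0, 1, true, false, 5, 84⟩, ⟨163512395289, 1, 0, false, true, 15, 84⟩,
  ⟨104763303449, 1, 2, true, false, 5, 84⟩, ⟨36043826713, 2, 1, false, true, 15, 84⟩,
  ⟨36043826713, 2, 1, false, false, 7, 84⟩, ⟨142344267289, 2, 1, true, false, 5, 66⟩,
  ⟨142344267289, 1, 2, false, true, 7, 33⟩, ⟨142344267289, 1, 0, false, true, 7, 33⟩,
  ⟨163819103769, 1, 2, false, true, 7, 42⟩, ⟨163819103769, 1, 0, false, true, 7, 42⟩,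
  ⟨77731014169, 0, 1, false, true, 14, 33⟩, ⟨77731014169, 2, 1, false, false, 9, 33⟩,
  ⟨77731014169, 2, 0, true, true, 8, 66⟩, ⟨75315095065, 0, 2, false, true, 15, 84⟩,
  ⟨75315095065, 0, 2, false, true, 7, 84⟩, ⟨163515353481, 1, 0, false, true, 15, 84⟩,
  ⟨163515353481, 1, 0, false, true, 7, 84⟩, ⟨78958184841, 0, 1, false, true, 14, 42⟩,
  ⟨78958184841, 2, 1, false, true, 9, 42⟩, ⟨156267596169, 1, 2, false, true, 14, 42⟩,
  ⟨156267596169, 0, 1, true, false, 8, 84⟩, ⟨104312752521, 2, 0, false, true, 1, 84⟩,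
  ⟨35593275785, 2, 1, false, false, 7, 42⟩, ⟨35593275785, 2, 0, false, true, 7, 42⟩,
  ⟨75321723273, 0, 2, false, true, 7, 84⟩, ⟨26382584201, 0, 2, true, true, 5, 84⟩,
  ⟨40878098825, 0, 2, false, false, 16, 84⟩, ⟨40878098825, 1, 2, true, true, 8, 84⟩,
  ⟨75237837193, 0, 1, false, false, 7, 42⟩, ⟨75237837193, 0, 2, false, true, 7, 42⟩,
  ⟨39067339145, 0, 2, false, false, 16, 51⟩, ⟨107786815881, 2, 0, true, true, 8, 51⟩,
  ⟨163629779337, 1, 0, false, true, 15, 84⟩, ⟨163629779337, 1, 2, false, true, 7, 42⟩,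
  ⟨163629779337, 1, 0, false, true, 7, 42⟩, ⟨77730433417, 0, 1, false, true, 14, 66⟩,
  ⟨77730433417, 2, 0, true, true, 8, 66⟩, ⟨104305543561, 1, 0, true, true, 5, 84⟩,
  ⟨35586066825, 2, 1, false, false, 7, 42⟩, ⟨35586066825, 2, 0, false, true, 7, 42⟩,
  ⟨40954775945, 0, 2, false, false, 16, 84⟩, ⟨147208030601, 1, 0, true, false, 11, 84⟩,
  ⟨78488553865, 2, 0, true, true, 8, 84⟩, ⟨40907590025, 1, 2, true, true, 8, 84⟩,
  ⟨19432753545, 1, 2, true, true, 8, 84⟩, ⟨156267727241, 1, 2, false, true, 14, 54⟩,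
  ⟨144189788553, 2, 1, true, false, 5, 84⟩, ⟨75470311817, 0, 1, false, false, 7, 42⟩,
  ⟨75470311817, 0, 2, false, true, 7, 42⟩, ⟨26078187913, 0, 1, true, false, 5, 84⟩,
  ⟨156269384073, 2, 1, false, false, 16, 84⟩, ⟨156248412553, 1, 2, false, true, 14, 84⟩,
  ⟨27003228553, 0, 1, true, false, 5, 66⟩, ⟨27003228553, 2, 1, false, false, 7, 33⟩,
  ⟨27003228553, 2, 0, false, true, 7, 33⟩, ⟨75321610633, 0, 2, false, true, 15, 84⟩,
  ⟨144175305097, 2, 1, true, false, 5, 84⟩, ⟨144175305097, 1, 0, true, true, 11, 84⟩,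
  ⟨105520599433, 1, 2, true, true, 5, 66⟩, ⟨105520599433, 0, 1, false, false, 7, 33⟩,
  ⟨105520599433, 0, 2, false, true, 7, 32⟩, ⟨156305232265, 2, 1, false, false, 16, 83⟩,
  ⟨104765624713, 1, 2, true, false, 5, 83⟩, ⟨36046147977, 2, 1, false, true, 15, 83⟩,
  ⟨163821425033, 1, 2, false, true, 7, 41⟩, ⟨163821425033, 1, 0, false, true, 7, 41⟩,
  ⟨75238576737, 0, 2, false, true, 15, 83⟩, ⟨156842955361, 2, 1, false, false, 16, 83⟩,
  ⟨156842955361, 1, 2, false, true, 14, 83⟩, ⟨19739546209, 2, 1, true, false, 11, 83⟩,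
  ⟨157178499681, 0, 1, true, false, 8, 83⟩, ⟨19739546209, 1, 2, true, true, 8, 83⟩,
  ⟨107786375777, 2, 0, true, true, 8, 50⟩, ⟨26078188129, 0, 1, true, false, 5, 83⟩,
  ⟨156269384289, 2, 1, false, false, 16, 83⟩, ⟨156269384289, 1, 2, false, true, 14, 65⟩,
  ⟨156269384289, 0, 1, true, false, 8, 65⟩, ⟨40955384417, 0, 2, false, false, 16, 83⟩,
  ⟨75315122785, 0, 2, false, true, 15, 83⟩, ⟨75315122785, 0, 2, false, true, 7, 83⟩,
  ⟨156248412769, 1, 2, false, true, 14, 65⟩, ⟨156248412769, 0, 1, true, false, 8, 65⟩,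
  ⟨105521484385, 1, 2, true, true, 5, 65⟩, ⟨105521484385, 0, 1, false, false, 7, 32⟩,
  ⟨105521484385, 0, 2, false, true, 7, 32⟩, ⟨78946374241, 0, 1, false, true, 14, 41⟩,
  ⟨78946374241, 2, 1, false, true, 9, 41⟩, ⟨157178532449, 0, 1, true, false, 8, 83⟩,
  ⟨19739578977, 1, 2, true, true, 8, 83⟩, ⟨39066931809, 0, 2, false, false, 16, 50⟩,
  ⟨107786408545, 2, 0, true, true, 8, 50⟩, ⟨156306531425, 2, 1, false, false, 16, 81⟩,
  ⟨36047447137, 2, 1, false, true, 15, 81⟩, ⟨36047447137, 2, 1, false, false, 7, 81⟩,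
  ⟨75239023713, 0, 2, false, true, 15, 81⟩, ⟨75239023713, 0, 1, false, false, 7, 40⟩,
  ⟨75239023713, 0, 2, false, true, 7, 40⟩, ⟨156843402337, 2, 1, false, false, 16, 81⟩,
  ⟨156843402337, 1, 2, false, true, 14, 81⟩, ⟨39067346017, 0, 2, false, false, 16, 47⟩,
  ⟨147208037473, 1, 0, true, false, 11, 81⟩, ⟨78488560737, 2, 1, false, true, 9, 63⟩,
  ⟨78488560737, 2, 0, true, true, 8, 63⟩, ⟨78958322785, 0, 1, false, true, 14, 40⟩,
  ⟨78958322785, 2, 1, false, true, 9, 40⟩, ⟨156267734113, 1, 2, false, true, 14, 50⟩,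
  ⟨157173703777, 0, 1, true, false, 8, 81⟩, ⟨144189760609, 2, 1, true, false, 5, 81⟩,
  ⟨144189760609, 1, 0, true, true, 11, 81⟩, ⟨75470283873, 0, 1, false, false, 7, 40⟩,
  ⟨75470283873, 0, 2, false, true, 7, 40⟩, ⟨156269356129, 2, 1, false, false, 16, 81⟩,
  ⟨156269356129, 1, 2, false, true, 14, 63⟩, ⟨156269356129, 0, 1, true, false, 8, 63⟩,
  ⟨163630359649, 1, 0, false, true, 15, 81⟩, ⟨163630359649, 1, 2, false, true, 7, 40⟩,
  ⟨163630359649, 1, 0, false, true, 7, 40⟩, ⟨77731013729, 2, 1, false, false, 9, 63⟩,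
  ⟨77731013729, 2, 0, true, true, 8, 63⟩, ⟨40955356257, 0, 2, false, false, 16, 81⟩,
  ⟨75315094625, 0, 2, false, true, 15, 81⟩, ⟨75315094625, 0, 2, false, true, 7, 81⟩,
  ⟨39076635745, 0, 2, false, false, 16, 81⟩, ⟨163630687329, 1, 0, false, true, 15, 81⟩,
  ⟨77731341409, 0, 1, false, true, 14, 40⟩, ⟨77731341409, 2, 1, false, false, 9, 40⟩,
  ⟨156248712289, 1, 2, false, true, 14, 63⟩, ⟨156248712289, 0, 1, true, false, 8, 63⟩,
  ⟨39210853473, 1, 2, true, true, 8, 81⟩, ⟨107930330209, 2, 0, true, true, 8, 81⟩]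

theorem kc17 : keyChk 25162 8950 tri17 lv17 = true := by decide +kernel

def lv18 : List Leaf := [
  ⟨104763377737, 1, 0, true, false, 5, 75⟩, ⟨36043901001, 2, 1, false, true, 15, 75⟩,
  ⟨104293615689, 1, 0, true, false, 5, 75⟩, ⟨26984204361, 0, 1, true, true, 5, 59⟩,
  ⟨26984204361, 2, 0, false, false, 7, 30⟩, ⟨26984204361, 2, 1, false, true, 7, 30⟩,
  ⟨77617842249, 1, 0, false, false, 16, 75⟩, ⟨163517188169, 1, 0, false, true, 15, 75⟩,
  ⟨144189835337, 0, 1, false, true, 1, 59⟩, ⟨144189835337, 1, 0, true, false, 11, 59⟩,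
  ⟨75470358601, 0, 1, false, true, 7, 38⟩, ⟨75470358601, 0, 2, false, true, 7, 38⟩,
  ⟨163515353161, 1, 0, false, true, 15, 73⟩, ⟨156267595849, 1, 2, false, true, 14, 29⟩,
  ⟨156267595849, 0, 2, false, true, 9, 29⟩, ⟨156267595849, 0, 1, true, true, 8, 57⟩,
  ⟨36008511561, 2, 1, false, true, 15, 73⟩, ⟨36008511561, 2, 0, false, false, 7, 37⟩,
  ⟨36008511561, 2, 1, false, true, 7, 37⟩, ⟨78958184521, 0, 1, false, true, 14, 37⟩,
  ⟨78958184521, 2, 1, false, true, 9, 37⟩, ⟨40878098505, 0, 2, false, false, 16, 73⟩,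
  ⟨40878098505, 2, 0, false, true, 14, 57⟩, ⟨40878098505, 1, 2, true, true, 8, 57⟩,
  ⟨104312752201, 2, 0, false, false, 1, 50⟩, ⟨104312752201, 0, 2, true, true, 11, 50⟩,
  ⟨35593275465, 2, 0, false, false, 7, 32⟩, ⟨35593275465, 2, 1, false, true, 7, 32⟩,
  ⟨27003340873, 0, 1, true, true, 5, 50⟩, ⟨27003340873, 2, 0, false, false, 7, 25⟩,
  ⟨27003340873, 2, 1, false, true, 7, 25⟩, ⟨144041199689, 2, 0, true, false, 5, 64⟩,
  ⟨75321722953, 0, 2, false, true, 15, 64⟩, ⟨75321722953, 0, 2, false, true, 7, 64⟩,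
  ⟨142344493129, 2, 0, true, false, 5, 65⟩, ⟨142344493129, 1, 2, false, true, 7, 65⟩,
  ⟨26380376137, 2, 1, true, true, 11, 83⟩, ⟨163819329609, 1, 2, false, false, 7, 83⟩,
  ⟨147243440201, 1, 0, true, false, 11, 83⟩, ⟨19736598601, 1, 2, true, true, 8, 83⟩,
  ⟨104305563721, 2, 0, false, false, 1, 65⟩, ⟨104305563721, 0, 2, true, true, 11, 65⟩,
  ⟨35586086985, 2, 0, false, false, 7, 42⟩, ⟨35586086985, 2, 1, false, true, 7, 42⟩,
  ⟨40954796105, 0, 2, false, false, 16, 83⟩, ⟨77730453577, 2, 0, true, false, 8, 83⟩,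
  ⟨163629799497, 1, 2, false, true, 7, 83⟩, ⟨105530300489, 1, 0, true, false, 5, 65⟩,
  ⟨105530300489, 0, 1, false, true, 7, 33⟩, ⟨105530300489, 0, 2, false, true, 7, 33⟩,
  ⟨144185006153, 0, 1, false, true, 1, 65⟩, ⟨144185006153, 1, 0, true, false, 11, 65⟩,
  ⟨75465529417, 0, 1, false, true, 7, 83⟩, ⟨19621552521, 2, 1, true, true, 11, 83⟩,
  ⟨144175604105, 2, 0, true, false, 5, 83⟩, ⟨144175604105, 0, 1, false, true, 1, 65⟩,
  ⟨144175604105, 1, 0, true, false, 11, 65⟩, ⟨104312938889, 2, 0, false, false, 1, 65⟩,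
  ⟨104312938889, 0, 2, true, true, 11, 65⟩, ⟨35593462153, 2, 0, false, false, 7, 42⟩,
  ⟨35593462153, 2, 1, false, true, 7, 42⟩, ⟨27003527561, 0, 1, true, true, 5, 65⟩,
  ⟨27003527561, 2, 0, false, false, 7, 33⟩, ⟨27003527561, 2, 1, false, true, 7, 33⟩,
  ⟨104305598857, 2, 0, false, false, 1, 65⟩, ⟨104305598857, 0, 2, true, false, 11, 65⟩,
  ⟨35586122121, 2, 0, false, false, 7, 42⟩, ⟨35586122121, 2, 1, false, true, 7, 42⟩,
  ⟨75314569609, 0, 2, false, true, 15, 83⟩, ⟨40954831241, 0, 2, false, false, 16, 83⟩,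
  ⟨142373101961, 2, 0, true, false, 5, 65⟩, ⟨142373101961, 1, 2, false, true, 7, 65⟩,
  ⟨108013363593, 0, 2, true, true, 11, 83⟩, ⟨26408984969, 0, 1, true, false, 5, 83⟩,
  ⟨104305543561, 1, 0, true, false, 5, 83⟩, ⟨35586066825, 2, 0, false, false, 7, 42⟩,
  ⟨35586066825, 2, 1, false, true, 7, 42⟩, ⟨77730433417, 1, 0, false, false, 16, 83⟩,
  ⟨77730433417, 2, 0, true, false, 8, 83⟩, ⟨163629779337, 1, 0, false, true, 15, 83⟩,
  ⟨163629779337, 1, 2, false, true, 7, 83⟩, ⟨39067339145, 0, 2, false, false, 16, 83⟩,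
  ⟨107786815881, 2, 0, true, false, 8, 83⟩, ⟨77722044809, 2, 0, true, false, 8, 83⟩,
  ⟨77616007561, 1, 0, false, false, 16, 79⟩, ⟨163515353481, 1, 0, false, true, 15, 79⟩,
  ⟨156267596169, 1, 2, false, true, 14, 31⟩, ⟨156267596169, 0, 2, false, true, 9, 31⟩,
  ⟨156267596169, 0, 1, true, true, 8, 62⟩, ⟨36008511881, 2, 1, false, true, 15, 79⟩,
  ⟨36008511881, 2, 0, false, false, 7, 40⟩, ⟨36008511881, 2, 1, false, true, 7, 40⟩,
  ⟨40878098825, 0, 2, false, false, 16, 79⟩, ⟨40878098825, 2, 0, false, true, 14, 62⟩,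
  ⟨40878098825, 1, 2, true, true, 8, 62⟩, ⟨26382584201, 0, 2, true, true, 5, 79⟩,
  ⟨26382584201, 2, 1, true, true, 11, 79⟩, ⟨104312752521, 2, 0, false, false, 1, 62⟩,
  ⟨104312752521, 0, 2, true, false, 11, 62⟩, ⟨35593275785, 2, 0, false, false, 7, 40⟩,
  ⟨35593275785, 2, 1, false, true, 7, 39⟩, ⟨144041200009, 2, 0, true, false, 5, 78⟩,
  ⟨75321723273, 0, 2, false, true, 7, 78⟩, ⟨107930325529, 0, 2, true, false, 11, 66⟩,
  ⟨107930325529, 2, 0, true, false, 8, 66⟩, ⟨39210848793, 1, 2, true, true, 8, 66⟩,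
  ⟨39076631065, 0, 2, false, false, 16, 66⟩, ⟨39076631065, 2, 0, false, true, 14, 66⟩,
  ⟨163630682649, 1, 0, false, true, 15, 66⟩, ⟨147205788185, 1, 0, true, false, 11, 66⟩,
  ⟨78486311449, 2, 1, false, true, 9, 51⟩, ⟨78486311449, 2, 0, true, false, 8, 51⟩,
  ⟨156869464601, 1, 2, false, true, 14, 66⟩, ⟨104305562137, 1, 0, true, false, 5, 51⟩,
  ⟨104305562137, 2, 0, false, false, 1, 39⟩, ⟨104305562137, 0, 2, true, true, 11, 39⟩,
  ⟨35586085401, 2, 0, false, false, 7, 25⟩, ⟨35586085401, 2, 1, false, true, 7, 25⟩,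
  ⟨77730451993, 2, 0, true, false, 8, 52⟩, ⟨163629797913, 1, 0, false, true, 15, 52⟩,
  ⟨163629797913, 1, 2, false, true, 7, 52⟩, ⟨163512357401, 1, 0, false, true, 15, 52⟩,
  ⟨144185004569, 0, 1, false, true, 1, 41⟩, ⟨144185004569, 1, 0, true, false, 11, 41⟩,
  ⟨75465527833, 0, 1, false, true, 7, 26⟩, ⟨75465527833, 0, 2, false, true, 7, 26⟩,
  ⟨156843414041, 1, 2, false, true, 14, 26⟩, ⟨156843414041, 0, 2, false, true, 9, 26⟩,
  ⟨75239035417, 0, 2, false, true, 15, 52⟩, ⟨75239035417, 0, 1, false, true, 7, 26⟩,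
  ⟨75239035417, 0, 2, false, true, 7, 26⟩, ⟨40879297049, 2, 0, false, true, 14, 41⟩,
  ⟨40879297049, 1, 2, true, true, 8, 41⟩, ⟨156306543129, 2, 1, false, false, 16, 52⟩,
  ⟨36047458841, 2, 1, false, true, 15, 52⟩, ⟨36047458841, 2, 1, false, true, 7, 52⟩,
  ⟨156842955289, 2, 1, false, false, 16, 66⟩, ⟨156842955289, 1, 2, false, true, 14, 33⟩,
  ⟨156842955289, 0, 2, false, true, 9, 33⟩, ⟨40878838297, 2, 0, false, true, 14, 66⟩,
  ⟨107786375705, 2, 0, true, false, 8, 66⟩, ⟨77721604633, 2, 0, true, false, 8, 66⟩,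
  ⟨19739546137, 2, 1, true, false, 11, 66⟩, ⟨157178499609, 0, 1, true, true, 8, 66⟩,
  ⟨19739546137, 1, 2, true, true, 8, 66⟩, ⟨75315095065, 0, 2, false, true, 15, 57⟩,
  ⟨75315095065, 0, 2, false, true, 7, 57⟩, ⟨39076308505, 2, 0, false, true, 14, 57⟩,
  ⟨77731014169, 2, 0, true, false, 8, 57⟩, ⟨163630360089, 1, 0, false, true, 15, 57⟩,
  ⟨163630360089, 1, 2, false, true, 7, 57⟩, ⟨142344267289, 2, 0, true, false, 5, 45⟩,
  ⟨142344267289, 1, 2, false, true, 7, 45⟩, ⟨26380150297, 2, 1, true, true, 11, 57⟩,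
  ⟨163819103769, 1, 2, false, true, 7, 57⟩, ⟨36043826713, 2, 1, false, true, 15, 57⟩,
  ⟨36043826713, 2, 1, false, true, 7, 57⟩, ⟨104305600025, 2, 0, false, false, 1, 45⟩,
  ⟨104305600025, 0, 2, true, true, 11, 45⟩, ⟨35586123289, 2, 0, false, false, 7, 28⟩,
  ⟨35586123289, 2, 1, false, true, 7, 28⟩, ⟨144034047513, 2, 0, true, false, 5, 57⟩,
  ⟨75314570777, 0, 2, false, true, 15, 57⟩, ⟨40954832409, 0, 2, false, false, 16, 57⟩,
  ⟨163512395289, 1, 0, false, true, 15, 57⟩, ⟨105530336793, 1, 0, true, false, 5, 45⟩,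
  ⟨105530336793, 0, 1, false, true, 7, 22⟩, ⟨105530336793, 0, 2, false, true, 7, 22⟩,
  ⟨77615998489, 1, 0, false, false, 16, 57⟩, ⟨78958175769, 1, 0, false, false, 16, 57⟩,
  ⟨78958175769, 0, 1, false, true, 14, 28⟩, ⟨78958175769, 2, 1, false, true, 9, 28⟩,
  ⟨156871566873, 2, 1, false, false, 16, 57⟩, ⟨40878089753, 0, 2, false, false, 16, 57⟩,
  ⟨40878089753, 1, 2, true, true, 8, 57⟩, ⟨26382575129, 0, 2, true, true, 5, 57⟩,
  ⟨163821528601, 1, 2, false, true, 7, 57⟩, ⟨156305335833, 2, 1, false, false, 16, 57⟩,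
  ⟨104765728281, 1, 0, true, false, 5, 57⟩]

theorem kc18 : keyChk 8486 8950 tri18 lv18 = true := by decide +kernel

def lv19 : List Leaf := [
  ⟨156306524441, 2, 1, false, false, 16, 66⟩, ⟨36047440153, 2, 1, false, false, 7, 66⟩,
  ⟨39067339033, 0, 2, false, false, 16, 66⟩, ⟨107786815769, 2, 0, true, true, 8, 66⟩,
  ⟨77722044697, 2, 1, false, false, 9, 51⟩, ⟨77722044697, 2, 0, true, true, 8, 51⟩,
  ⟨163629779225, 1, 0, false, true, 15, 66⟩, ⟨163629779225, 1, 2, false, true, 7, 33⟩,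
  ⟨163629779225, 1, 0, false, true, 7, 33⟩, ⟨40954775833, 0, 2, false, false, 16, 66⟩,
  ⟨144033990937, 2, 1, true, false, 5, 66⟩, ⟨40907589913, 2, 0, false, true, 14, 26⟩,
  ⟨40907589913, 1, 0, false, true, 9, 26⟩, ⟨40907589913, 1, 2, true, true, 8, 51⟩,
  ⟨19432753433, 1, 2, true, true, 8, 66⟩, ⟨78958315801, 1, 0, false, false, 16, 66⟩,
  ⟨78958315801, 0, 1, false, true, 14, 33⟩, ⟨78958315801, 2, 1, false, true, 9, 33⟩,
  ⟨156267727129, 1, 2, false, true, 14, 33⟩, ⟨156267727129, 0, 2, false, true, 9, 33⟩,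
  ⟨36008642841, 2, 1, false, true, 15, 66⟩, ⟨78488635673, 2, 1, false, true, 9, 51⟩,
  ⟨78488635673, 2, 0, true, true, 8, 51⟩, ⟨40907671833, 0, 2, false, false, 16, 66⟩,
  ⟨40907671833, 2, 0, false, true, 14, 26⟩, ⟨40907671833, 1, 0, false, true, 9, 26⟩,
  ⟨40907671833, 1, 2, true, false, 8, 51⟩, ⟨156871788825, 2, 1, false, false, 16, 66⟩,
  ⟨19432835353, 1, 2, true, false, 8, 66⟩, ⟨39062178073, 0, 2, false, false, 16, 66⟩,
  ⟨39062178073, 2, 0, false, true, 14, 33⟩, ⟨39062178073, 1, 0, false, true, 9, 33⟩,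
  ⟨107781654809, 2, 0, true, true, 8, 66⟩, ⟨26982582553, 0, 1, true, false, 5, 51⟩,
  ⟨26982582553, 2, 1, false, false, 7, 51⟩, ⟨78946339097, 1, 0, false, false, 16, 66⟩,
  ⟨78946339097, 0, 1, false, true, 14, 66⟩, ⟨147665815833, 0, 1, true, false, 8, 66⟩,
  ⟨163630385433, 1, 0, false, true, 15, 66⟩, ⟨163630385433, 1, 2, false, true, 7, 33⟩,
  ⟨163630385433, 1, 0, false, true, 7, 33⟩, ⟨40955382041, 0, 2, false, false, 16, 66⟩,
  ⟨75315120409, 0, 2, false, true, 7, 66⟩, ⟨147658475801, 0, 1, true, false, 8, 66⟩,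
  ⟨156248410393, 2, 1, false, false, 16, 66⟩, ⟨156248410393, 1, 2, false, true, 14, 33⟩,
  ⟨156248410393, 0, 2, false, true, 9, 33⟩, ⟨163515353481, 1, 0, false, true, 15, 57⟩,
  ⟨163515353481, 1, 0, false, true, 7, 57⟩, ⟨77616007561, 1, 0, false, false, 16, 57⟩,
  ⟨78958184841, 0, 1, false, true, 14, 29⟩, ⟨78958184841, 2, 1, false, true, 9, 29⟩,
  ⟨156267596169, 1, 2, false, true, 14, 29⟩, ⟨156267596169, 0, 2, false, true, 9, 29⟩,
  ⟨36008511881, 2, 1, false, true, 15, 57⟩, ⟨36008511881, 2, 1, false, false, 7, 57⟩,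
  ⟨104312752521, 2, 0, false, true, 1, 45⟩, ⟨104312752521, 0, 2, true, true, 11, 45⟩,
  ⟨35593275785, 2, 1, false, false, 7, 57⟩, ⟨144041200009, 2, 0, true, false, 5, 57⟩,
  ⟨75321723273, 0, 2, false, true, 7, 57⟩, ⟨26382584201, 0, 2, true, true, 5, 57⟩,
  ⟨26382584201, 1, 2, false, true, 1, 45⟩, ⟨26382584201, 2, 1, true, false, 11, 45⟩,
  ⟨40878098825, 0, 2, false, false, 16, 57⟩, ⟨40878098825, 2, 0, false, true, 14, 23⟩,
  ⟨40878098825, 1, 0, false, true, 9, 23⟩, ⟨40878098825, 1, 2, true, true, 8, 45⟩,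
  ⟨75237837193, 0, 1, false, false, 7, 29⟩, ⟨75237837193, 0, 2, false, true, 7, 29⟩,
  ⟨39067339145, 0, 2, false, false, 16, 72⟩, ⟨107786815881, 2, 0, true, true, 8, 72⟩,
  ⟨77722044809, 0, 1, false, true, 14, 29⟩, ⟨77722044809, 2, 1, false, false, 9, 29⟩,
  ⟨77722044809, 2, 0, true, true, 8, 57⟩, ⟨163629779337, 1, 0, false, true, 15, 72⟩,
  ⟨163629779337, 1, 2, false, true, 7, 36⟩, ⟨163629779337, 1, 0, false, true, 7, 36⟩,
  ⟨104305543561, 1, 0, true, true, 5, 72⟩, ⟨35586066825, 2, 1, false, false, 7, 72⟩,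
  ⟨40954775945, 0, 2, false, false, 16, 72⟩, ⟨144033991049, 2, 1, true, false, 5, 71⟩,
  ⟨144189788553, 2, 1, true, false, 5, 71⟩, ⟨75470311817, 0, 1, false, false, 7, 35⟩,
  ⟨75470311817, 0, 2, false, true, 7, 35⟩, ⟨26078187913, 0, 1, true, false, 5, 71⟩,
  ⟨77617795465, 1, 0, false, false, 16, 71⟩, ⟨156269384073, 2, 1, false, false, 16, 71⟩,
  ⟨36010299785, 2, 1, false, true, 15, 71⟩, ⟨27003228553, 0, 1, true, false, 5, 56⟩,
  ⟨27003228553, 2, 1, false, false, 7, 56⟩, ⟨144041087369, 2, 1, true, false, 5, 71⟩,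
  ⟨144175305097, 0, 1, false, false, 1, 56⟩, ⟨144175305097, 1, 0, true, true, 11, 56⟩,
  ⟨105520599433, 1, 2, true, true, 5, 56⟩, ⟨105520599433, 0, 1, false, false, 7, 28⟩,
  ⟨105520599433, 0, 2, false, true, 7, 28⟩, ⟨156305232265, 2, 1, false, false, 16, 71⟩,
  ⟨104765624713, 1, 2, true, false, 5, 71⟩, ⟨36046147977, 2, 1, false, true, 15, 71⟩,
  ⟨26382471561, 1, 2, false, true, 1, 56⟩, ⟨26382471561, 2, 1, true, false, 11, 56⟩,
  ⟨163821425033, 1, 2, false, true, 7, 35⟩, ⟨163821425033, 1, 0, false, true, 7, 35⟩,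
  ⟨104305598857, 2, 0, false, true, 1, 56⟩, ⟨104305598857, 0, 2, true, true, 11, 56⟩,
  ⟨35586122121, 2, 1, false, false, 7, 71⟩, ⟨40954831241, 0, 2, false, false, 16, 71⟩,
  ⟨144034046345, 2, 1, true, false, 5, 71⟩, ⟨108013363593, 0, 2, true, true, 11, 71⟩,
  ⟨142373101961, 2, 1, true, false, 5, 56⟩, ⟨142373101961, 1, 2, false, true, 7, 28⟩,
  ⟨142373101961, 1, 0, false, true, 7, 28⟩, ⟨26408984969, 0, 1, true, false, 5, 71⟩,
  ⟨26408984969, 1, 2, false, true, 1, 71⟩, ⟨105521484385, 1, 2, true, true, 5, 60⟩,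
  ⟨105521484385, 0, 1, false, false, 7, 30⟩, ⟨105521484385, 0, 2, false, true, 7, 30⟩,
  ⟨78946374241, 1, 0, false, false, 16, 78⟩, ⟨78946374241, 0, 1, false, true, 14, 39⟩,
  ⟨78946374241, 2, 1, false, true, 9, 39⟩, ⟨147665850977, 0, 1, true, false, 8, 78⟩,
  ⟨157178532449, 0, 2, false, true, 9, 53⟩, ⟨157178532449, 0, 1, true, false, 8, 53⟩,
  ⟨19739578977, 1, 2, true, true, 8, 68⟩, ⟨39066931809, 0, 2, false, false, 16, 68⟩,
  ⟨107786408545, 2, 0, true, true, 8, 68⟩, ⟨77721637473, 1, 0, false, false, 16, 68⟩,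
  ⟨77721637473, 0, 1, false, true, 14, 26⟩, ⟨77721637473, 2, 1, false, false, 9, 26⟩,
  ⟨77721637473, 2, 0, true, true, 8, 53⟩, ⟨157175538273, 0, 1, true, false, 8, 78⟩,
  ⟨19736584801, 1, 2, true, true, 8, 78⟩, ⟨147658662497, 0, 1, true, false, 8, 78⟩,
  ⟨156248597089, 1, 2, false, true, 14, 39⟩, ⟨156248597089, 0, 2, false, true, 9, 39⟩,
  ⟨107930215009, 0, 2, true, false, 11, 75⟩, ⟨39210738273, 1, 0, false, true, 9, 59⟩,
  ⟨39210738273, 1, 2, true, true, 8, 59⟩, ⟨107930215009, 2, 0, true, true, 8, 75⟩,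
  ⟨108014101089, 0, 2, true, true, 11, 78⟩, ⟨142373839457, 2, 1, true, false, 5, 60⟩,
  ⟨142373839457, 1, 2, false, true, 7, 30⟩, ⟨142373839457, 1, 0, false, true, 7, 30⟩,
  ⟨147208036961, 1, 0, true, false, 11, 75⟩, ⟨78488560225, 2, 1, false, true, 9, 59⟩,
  ⟨147208036961, 0, 1, true, false, 8, 75⟩, ⟨78488560225, 2, 0, true, true, 8, 59⟩,
  ⟨40907596385, 1, 0, false, true, 9, 60⟩, ⟨40907596385, 1, 2, true, true, 8, 60⟩,
  ⟨78958322273, 0, 1, false, true, 14, 39⟩, ⟨78958322273, 2, 1, false, true, 9, 39⟩,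
  ⟨156267733601, 1, 2, false, true, 14, 39⟩, ⟨156267733601, 0, 2, false, true, 9, 39⟩,
  ⟨39062102625, 0, 2, false, false, 16, 78⟩, ⟨39062102625, 2, 0, false, true, 14, 78⟩,
  ⟨107781579361, 2, 0, true, true, 8, 78⟩, ⟨36047447137, 2, 1, false, true, 15, 78⟩,
  ⟨36047447137, 2, 1, false, false, 7, 78⟩, ⟨75239023713, 0, 1, false, false, 7, 39⟩,
  ⟨75239023713, 0, 2, false, true, 7, 39⟩, ⟨156843402337, 1, 2, false, true, 14, 39⟩,
  ⟨156843402337, 0, 2, false, true, 9, 39⟩, ⟨39067346017, 0, 2, false, false, 16, 78⟩,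
  ⟨77722051681, 1, 0, false, false, 16, 78⟩, ⟨77722051681, 0, 1, false, true, 14, 60⟩,
  ⟨77722051681, 2, 0, true, true, 8, 60⟩, ⟨144189760609, 2, 1, true, false, 5, 75⟩,
  ⟨144189760609, 0, 1, false, false, 1, 59⟩, ⟨144189760609, 1, 0, true, true, 11, 59⟩,
  ⟨75470283873, 0, 1, false, false, 7, 37⟩, ⟨75470283873, 0, 2, false, true, 7, 37⟩,
  ⟨156269356129, 1, 2, false, true, 14, 39⟩, ⟨156269356129, 0, 2, false, true, 9, 39⟩,
  ⟨36010271841, 2, 1, false, true, 15, 78⟩, ⟨36010271841, 2, 1, false, false, 7, 78⟩,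
  ⟨39076308065, 2, 0, false, true, 14, 39⟩, ⟨39076308065, 1, 0, false, true, 9, 39⟩,
  ⟨163630359649, 1, 0, false, true, 15, 78⟩, ⟨163630359649, 1, 2, false, true, 7, 39⟩,
  ⟨163630359649, 1, 0, false, true, 7, 39⟩, ⟨77731013729, 2, 1, false, false, 9, 60⟩,
  ⟨77731013729, 2, 0, true, true, 8, 60⟩, ⟨40955356257, 0, 2, false, false, 16, 78⟩,
  ⟨75315094625, 0, 2, false, true, 7, 78⟩]

theorem kc19 : keyChk 17994 8950 tri19 lv19 = true := by decide +kernel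

end Pool.Agent.SqfBridge
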