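import Pool.Agent.SqfBridge.CertKeys
import Pool.Agent.SqfBridge.LeafKern

set_option autoImplicit false

namespace Pool.Agent.SqfBridge

def lv20 : List Leaf := [
  ⟨26380376210, 1, 2, false, false, 1, 97⟩, ⟨26380376210, 2, 1, true, true, 11, 97⟩,
  ⟨142344493202, 1, 2, false, false, 7, 63⟩, ⟨142344493202, 1, 0, false, true, 7, 62⟩,
  ⟨147241638034, 1, 0, true, true, 11, 125⟩, ⟨26982553746, 2, 0, false, true, 7, 63⟩,
  ⟨26982553746, 2, 1, false, true, 7, 62⟩, ⟨39062149266, 2, 0, false, true, 14, 63⟩,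
  ⟨39062149266, 1, 0, false, true, 9, 62⟩, ⟨75465562258, 0, 2, false, false, 7, 63⟩,
  ⟨75465562258, 0, 1, false, true, 7, 62⟩, ⟨26073438354, 0, 2, true, false, 5, 125⟩,
  ⟨163512391826, 1, 0, false, true, 15, 125⟩, ⟨26408982674, 0, 2, true, false, 5, 125⟩,
  ⟨26408982674, 1, 2, false, false, 1, 97⟩, ⟨26408982674, 2, 1, true, true, 11, 97⟩,
  ⟨108013361298, 0, 2, true, false, 11, 105⟩, ⟨142373099666, 1, 2, false, false, 7, 63⟩,
  ⟨142373099666, 1, 0, false, true, 7, 62⟩, ⟨26382575122, 0, 2, true, false, 5, 125⟩,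
  ⟨104765728274, 1, 2, true, false, 5, 125⟩, ⟨75237828114, 0, 2, false, true, 15, 125⟩,
  ⟨75237828114, 0, 2, false, false, 7, 63⟩, ⟨75237828114, 0, 1, false, true, 7, 62⟩,
  ⟨78958175762, 0, 1, false, true, 14, 63⟩, ⟨78958175762, 2, 1, false, true, 9, 62⟩,
  ⟨19432613394, 1, 2, true, false, 8, 125⟩, ⟨40907449874, 2, 0, false, true, 14, 63⟩,
  ⟨40907449874, 1, 0, false, true, 9, 62⟩, ⟨40954832402, 0, 2, false, false, 16, 125⟩,
  ⟨75314570770, 0, 2, false, true, 15, 125⟩, ⟨104305600018, 2, 0, false, true, 1, 97⟩,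
  ⟨104305600018, 0, 2, true, false, 11, 97⟩, ⟨35586123282, 2, 0, false, true, 7, 63⟩,
  ⟨35586123282, 2, 1, false, true, 7, 62⟩, ⟨75315095058, 0, 2, false, true, 15, 125⟩,
  ⟨75315095058, 0, 2, false, false, 7, 125⟩, ⟨77731014162, 0, 1, false, true, 14, 63⟩,
  ⟨77731014162, 2, 1, false, true, 9, 62⟩, ⟨163630360082, 1, 0, false, true, 15, 125⟩,
  ⟨39076308498, 2, 0, false, true, 14, 63⟩, ⟨39076308498, 1, 0, false, true, 9, 62⟩,
  ⟨75470358034, 0, 2, false, false, 7, 54⟩, ⟨75470358034, 0, 1, false, true, 7, 54⟩,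
  ⟨77617841682, 1, 0, false, false, 16, 107⟩, ⟨26078234130, 0, 2, true, false, 5, 107⟩,
  ⟨163517187602, 1, 0, false, true, 15, 107⟩, ⟨147243288082, 1, 0, true, true, 11, 107⟩,
  ⟨26984203794, 0, 2, true, false, 5, 84⟩, ⟨26984203794, 2, 0, false, true, 7, 42⟩,
  ⟨26984203794, 2, 1, false, true, 7, 42⟩, ⟨104293615122, 1, 2, true, false, 5, 107⟩,
  ⟨104293615122, 2, 0, false, true, 1, 107⟩, ⟨105529886226, 1, 2, true, false, 5, 84⟩,
  ⟨105529886226, 0, 2, false, false, 7, 41⟩, ⟨105529886226, 0, 1, false, true, 7, 41⟩,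
  ⟨144184591890, 0, 1, false, true, 1, 83⟩, ⟨144184591890, 1, 0, true, true, 11, 83⟩,
  ⟨75465115154, 0, 2, false, false, 7, 53⟩, ⟨75465115154, 0, 1, false, false, 7, 53⟩,
  ⟨26408535570, 0, 2, true, false, 5, 106⟩, ⟨26408535570, 1, 2, false, false, 1, 83⟩,
  ⟨26408535570, 2, 1, true, true, 11, 83⟩, ⟨108012914194, 0, 2, true, false, 11, 76⟩,
  ⟨26382583314, 0, 2, true, false, 5, 106⟩, ⟨26382583314, 1, 2, false, false, 1, 83⟩,
  ⟨26382583314, 2, 1, true, true, 11, 83⟩, ⟨75321722386, 0, 2, false, true, 15, 106⟩,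
  ⟨75321722386, 0, 2, false, false, 7, 106⟩, ⟨27003340306, 0, 2, true, false, 5, 83⟩,
  ⟨27003340306, 2, 0, false, true, 7, 41⟩, ⟨27003340306, 2, 1, false, true, 7, 41⟩,
  ⟨104312751634, 0, 2, true, false, 11, 106⟩, ⟨35593274898, 2, 0, false, true, 7, 53⟩,
  ⟨35593274898, 2, 1, false, false, 7, 53⟩, ⟨108014110246, 0, 2, true, false, 11, 124⟩,
  ⟨142373848614, 1, 2, false, false, 7, 62⟩, ⟨142373848614, 1, 0, false, true, 7, 62⟩,
  ⟨78486210086, 2, 1, false, true, 9, 124⟩, ⟨19736593958, 1, 2, true, false, 8, 124⟩,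
  ⟨26380371494, 1, 2, false, false, 1, 124⟩, ⟨142344488486, 1, 2, false, false, 7, 62⟩,
  ⟨142344488486, 1, 0, false, true, 7, 62⟩, ⟨75321607718, 0, 2, false, true, 15, 124⟩,
  ⟨75321607718, 0, 2, false, false, 7, 124⟩, ⟨27003225638, 0, 2, true, false, 5, 96⟩,
  ⟨27003225638, 2, 0, false, true, 7, 48⟩, ⟨27003225638, 2, 1, false, true, 7, 48⟩,
  ⟨35593160230, 2, 0, false, true, 7, 62⟩, ⟨35593160230, 2, 1, false, true, 7, 62⟩,
  ⟨105520596518, 1, 2, true, false, 5, 96⟩, ⟨105520596518, 0, 2, false, false, 7, 48⟩,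
  ⟨105520596518, 0, 1, false, true, 7, 48⟩, ⟨19621250598, 2, 1, true, true, 11, 124⟩,
  ⟨144175302182, 1, 0, true, true, 11, 124⟩, ⟨75470358054, 0, 2, false, false, 7, 62⟩,
  ⟨75470358054, 0, 1, false, true, 7, 62⟩, ⟨77617841702, 1, 0, false, false, 16, 124⟩,
  ⟨26078234150, 0, 2, true, false, 5, 124⟩, ⟨105529886246, 1, 2, true, false, 5, 96⟩,
  ⟨105529886246, 0, 2, false, false, 7, 48⟩, ⟨105529886246, 0, 1, false, true, 7, 48⟩,
  ⟨144184591910, 0, 1, false, true, 1, 96⟩, ⟨144184591910, 1, 0, true, true, 11, 96⟩,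
  ⟨75465115174, 0, 2, false, false, 7, 62⟩, ⟨75465115174, 0, 1, false, false, 7, 62⟩,
  ⟨26408535590, 1, 2, false, false, 1, 96⟩, ⟨26408535590, 2, 1, true, true, 11, 96⟩,
  ⟨108012914214, 0, 2, true, false, 11, 104⟩, ⟨147204490790, 0, 1, true, true, 8, 124⟩,
  ⟨27003527462, 0, 2, true, false, 5, 96⟩, ⟨27003527462, 2, 0, false, true, 7, 48⟩,
  ⟨27003527462, 2, 1, false, true, 7, 48⟩, ⟨104312938790, 2, 0, false, true, 1, 96⟩,
  ⟨104312938790, 0, 2, true, false, 11, 96⟩, ⟨19621552422, 2, 1, true, true, 11, 124⟩,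
  ⟨144175604006, 0, 1, false, true, 1, 96⟩, ⟨144175604006, 1, 0, true, false, 11, 96⟩]

theorem kc20 : keyChk 39013 8950 tri20 lv20 = true := by decide +kernel

def lv21 : List Leaf := [
  ⟨36008642953, 2, 1, false, true, 15, 117⟩, ⟨156267727241, 0, 2, false, false, 9, 117⟩,
  ⟨19432753545, 1, 2, true, false, 8, 117⟩, ⟨40907590025, 2, 0, false, true, 14, 46⟩,
  ⟨40907590025, 1, 0, false, true, 9, 46⟩, ⟨40907590025, 1, 2, true, false, 8, 92⟩,
  ⟨78488553865, 2, 0, true, true, 8, 117⟩, ⟨147208030601, 0, 1, true, true, 8, 117⟩,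
  ⟨77722044809, 0, 1, false, true, 14, 46⟩, ⟨77722044809, 2, 1, false, true, 9, 46⟩,
  ⟨77722044809, 2, 0, true, true, 8, 92⟩, ⟨39067339145, 0, 2, false, false, 16, 117⟩,
  ⟨107786815881, 2, 0, true, true, 8, 117⟩, ⟨144033991049, 2, 0, true, false, 5, 117⟩,
  ⟨35586066825, 2, 0, false, true, 7, 59⟩, ⟨35586066825, 2, 1, false, true, 7, 59⟩,
  ⟨77730433417, 1, 0, false, false, 16, 108⟩, ⟨77730433417, 0, 1, false, true, 14, 85⟩,
  ⟨77730433417, 2, 0, true, true, 8, 85⟩, ⟨163629779337, 1, 0, false, true, 15, 108⟩,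
  ⟨163629779337, 1, 2, false, false, 7, 54⟩, ⟨163629779337, 1, 0, false, true, 7, 54⟩,
  ⟨104312938889, 2, 0, false, true, 1, 77⟩, ⟨104312938889, 0, 2, true, false, 11, 77⟩,
  ⟨35593462153, 2, 0, false, false, 7, 50⟩, ⟨35593462153, 2, 1, false, true, 7, 50⟩,
  ⟨19621552521, 2, 1, true, true, 11, 99⟩, ⟨144175604105, 2, 0, true, false, 5, 99⟩,
  ⟨144175604105, 0, 1, false, true, 1, 77⟩, ⟨144175604105, 1, 0, true, true, 11, 77⟩,
  ⟨26408984969, 0, 2, true, false, 5, 99⟩, ⟨26408984969, 1, 2, false, false, 1, 99⟩,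
  ⟨142373101961, 2, 0, true, true, 5, 77⟩, ⟨142373101961, 1, 2, false, false, 7, 39⟩,
  ⟨142373101961, 1, 0, false, true, 7, 39⟩, ⟨40954831241, 0, 2, false, false, 16, 99⟩,
  ⟨104305598857, 2, 0, false, true, 1, 77⟩, ⟨104305598857, 0, 2, true, false, 11, 77⟩,
  ⟨35586122121, 2, 0, false, true, 7, 50⟩, ⟨35586122121, 2, 1, false, true, 7, 50⟩,
  ⟨36010271113, 2, 0, false, true, 7, 45⟩, ⟨36010271113, 2, 1, false, true, 7, 45⟩,
  ⟨156269355401, 2, 1, false, false, 16, 89⟩, ⟨156269355401, 0, 2, false, false, 9, 69⟩,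
  ⟨156269355401, 0, 1, true, true, 8, 69⟩, ⟨144189759881, 2, 1, true, true, 5, 89⟩,
  ⟨144189759881, 0, 1, false, true, 1, 69⟩, ⟨144189759881, 1, 0, true, true, 11, 69⟩,
  ⟨77617766793, 1, 0, false, false, 16, 89⟩, ⟨26380149129, 2, 1, true, true, 11, 89⟩,
  ⟨163819102601, 1, 2, false, false, 7, 45⟩, ⟨163819102601, 1, 0, false, false, 7, 45⟩,
  ⟨142344266121, 2, 0, true, true, 5, 69⟩, ⟨142344266121, 1, 2, false, false, 7, 35⟩,
  ⟨142344266121, 1, 0, false, true, 7, 35⟩, ⟨36043825545, 2, 1, false, true, 15, 89⟩,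
  ⟨36043825545, 2, 1, false, true, 7, 89⟩, ⟨75315122569, 0, 2, false, false, 7, 117⟩,
  ⟨39076336009, 2, 0, false, true, 14, 59⟩, ⟨39076336009, 1, 0, false, true, 9, 59⟩,
  ⟨147658477961, 0, 1, true, true, 8, 117⟩, ⟨156248412553, 0, 2, false, false, 9, 117⟩,
  ⟨36010299785, 2, 1, false, true, 15, 117⟩, ⟨36010299785, 2, 0, false, true, 7, 59⟩,
  ⟨36010299785, 2, 1, false, true, 7, 59⟩, ⟨156269384073, 2, 1, false, false, 16, 117⟩,
  ⟨144189788553, 2, 1, true, true, 5, 117⟩, ⟨77617795465, 1, 0, false, false, 16, 117⟩,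
  ⟨26078187913, 0, 2, true, false, 5, 117⟩, ⟨144189835337, 0, 1, false, true, 1, 66⟩,
  ⟨144189835337, 1, 0, true, true, 11, 66⟩, ⟨77617842249, 1, 0, false, false, 16, 85⟩,
  ⟨26078234697, 0, 2, true, false, 5, 85⟩, ⟨163517188169, 1, 0, false, true, 15, 85⟩,
  ⟨26984204361, 2, 0, false, true, 7, 43⟩, ⟨26984204361, 2, 1, false, true, 7, 43⟩,
  ⟨104293615689, 2, 0, false, true, 1, 66⟩, ⟨104293615689, 0, 2, true, false, 11, 65⟩,
  ⟨142344341577, 1, 2, false, false, 7, 42⟩, ⟨142344341577, 1, 0, false, true, 7, 42⟩,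
  ⟨36043901001, 2, 1, false, true, 15, 84⟩, ⟨40878098505, 0, 2, false, false, 16, 75⟩,
  ⟨40878098505, 2, 0, false, true, 14, 29⟩, ⟨40878098505, 1, 0, false, true, 9, 29⟩,
  ⟨40878098505, 1, 2, true, false, 8, 58⟩, ⟨75237836873, 0, 2, false, true, 15, 75⟩,
  ⟨75237836873, 0, 2, false, false, 7, 37⟩, ⟨75237836873, 0, 1, false, true, 7, 37⟩,
  ⟨144041199689, 2, 0, true, false, 5, 81⟩, ⟨75321722953, 0, 2, false, true, 15, 81⟩,
  ⟨75321722953, 0, 2, false, false, 7, 81⟩, ⟨104312752201, 2, 0, false, true, 1, 63⟩,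
  ⟨104312752201, 0, 2, true, false, 11, 63⟩, ⟨35593275465, 2, 0, false, true, 7, 40⟩,
  ⟨35593275465, 2, 1, false, true, 7, 40⟩, ⟨78958184521, 0, 1, false, true, 14, 40⟩,
  ⟨78958184521, 2, 1, false, true, 9, 40⟩, ⟨36008511561, 2, 1, false, true, 15, 81⟩,
  ⟨36008511561, 2, 0, false, true, 7, 40⟩, ⟨36008511561, 2, 1, false, true, 7, 40⟩,
  ⟨156267595849, 0, 2, false, false, 9, 63⟩, ⟨156267595849, 0, 1, true, true, 8, 63⟩,
  ⟨105530300489, 0, 2, false, false, 7, 46⟩, ⟨105530300489, 0, 1, false, true, 7, 46⟩,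
  ⟨144185006153, 0, 1, false, true, 1, 73⟩, ⟨144185006153, 1, 0, true, true, 11, 73⟩,
  ⟨26073405513, 0, 2, true, false, 5, 93⟩, ⟨163512358985, 1, 0, false, true, 7, 93⟩,
  ⟨40954796105, 0, 2, false, false, 16, 93⟩, ⟨104305563721, 2, 0, false, true, 1, 73⟩,
  ⟨104305563721, 0, 2, true, false, 11, 73⟩, ⟨35586086985, 2, 0, false, true, 7, 46⟩,
  ⟨35586086985, 2, 1, false, true, 7, 46⟩, ⟨77730453577, 2, 1, false, true, 9, 73⟩,
  ⟨77730453577, 2, 0, true, true, 8, 73⟩, ⟨163629799497, 1, 2, false, false, 7, 46⟩,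
  ⟨163629799497, 1, 0, false, true, 7, 46⟩, ⟨147243440201, 1, 0, true, true, 11, 93⟩,
  ⟨104293767241, 2, 0, false, true, 1, 73⟩, ⟨104293767241, 0, 2, true, false, 11, 73⟩,
  ⟨19736598601, 1, 2, true, false, 8, 93⟩, ⟨104312936521, 2, 0, false, true, 1, 93⟩,
  ⟨35593459785, 2, 0, false, true, 7, 46⟩, ⟨35593459785, 2, 1, false, true, 7, 46⟩,
  ⟨39217338441, 1, 2, true, false, 8, 93⟩, ⟨107936815177, 2, 0, true, true, 8, 93⟩,
  ⟨105530333257, 0, 2, false, false, 7, 46⟩, ⟨105530333257, 0, 1, false, true, 7, 46⟩,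
  ⟨75465562185, 0, 2, false, false, 7, 46⟩, ⟨75465562185, 0, 1, false, true, 7, 46⟩,
  ⟨26073438281, 0, 2, true, false, 5, 93⟩, ⟨163512391753, 1, 0, false, true, 15, 93⟩,
  ⟨163512391753, 1, 0, false, true, 7, 93⟩, ⟨26408982601, 0, 2, true, false, 5, 93⟩,
  ⟨26408982601, 1, 2, false, false, 1, 73⟩, ⟨26408982601, 2, 1, true, true, 11, 73⟩,
  ⟨142373099593, 2, 0, true, true, 5, 73⟩, ⟨142373099593, 1, 2, false, false, 7, 36⟩,
  ⟨142373099593, 1, 0, false, true, 7, 36⟩]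

theorem kc21 : keyChk 39014 8950 tri21 lv21 = true := by decide +kernel

def lv22 : List Leaf := [
  ⟨26382584201, 0, 2, true, false, 5, 91⟩, ⟨26382584201, 1, 2, false, false, 1, 71⟩,
  ⟨26382584201, 2, 1, true, true, 11, 71⟩, ⟨40878098825, 2, 0, false, true, 14, 36⟩,
  ⟨40878098825, 1, 0, false, true, 9, 36⟩, ⟨40878098825, 1, 2, true, false, 8, 71⟩,
  ⟨75237837193, 0, 2, false, false, 7, 46⟩, ⟨75237837193, 0, 1, false, true, 7, 46⟩,
  ⟨144041200009, 2, 0, true, false, 5, 91⟩, ⟨75321723273, 0, 2, false, false, 7, 91⟩,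
  ⟨104312752521, 2, 0, false, true, 1, 71⟩, ⟨104312752521, 0, 2, true, false, 11, 71⟩,
  ⟨78958184841, 0, 1, false, true, 14, 46⟩, ⟨78958184841, 2, 1, false, true, 9, 46⟩,
  ⟨36008511881, 2, 0, false, true, 7, 46⟩, ⟨36008511881, 2, 1, false, true, 7, 46⟩,
  ⟨156267596169, 1, 2, false, true, 14, 36⟩, ⟨156267596169, 0, 2, false, false, 9, 36⟩,
  ⟨156267596169, 0, 1, true, true, 8, 71⟩, ⟨77616007561, 1, 0, false, false, 16, 91⟩,
  ⟨163515353481, 1, 0, false, true, 15, 91⟩, ⟨163515353481, 1, 0, false, true, 7, 91⟩,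
  ⟨77722044809, 0, 1, false, true, 14, 39⟩, ⟨77722044809, 2, 1, false, true, 9, 39⟩,
  ⟨77722044809, 2, 0, true, true, 8, 78⟩, ⟨39067339145, 0, 2, false, false, 16, 99⟩,
  ⟨107786815881, 2, 0, true, true, 8, 99⟩, ⟨144033991049, 2, 0, true, false, 5, 99⟩,
  ⟨104305543561, 1, 0, true, true, 5, 99⟩, ⟨35586066825, 2, 0, false, true, 7, 50⟩,
  ⟨35586066825, 2, 1, false, true, 7, 50⟩, ⟨77730433417, 1, 0, false, false, 16, 92⟩,
  ⟨77730433417, 0, 1, false, true, 14, 72⟩, ⟨77730433417, 2, 0, true, true, 8, 72⟩,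
  ⟨163629779337, 1, 0, false, true, 15, 92⟩, ⟨163629779337, 1, 2, false, false, 7, 46⟩,
  ⟨163629779337, 1, 0, false, true, 7, 46⟩, ⟨36010271113, 2, 0, false, true, 7, 45⟩,
  ⟨36010271113, 2, 1, false, true, 7, 45⟩, ⟨156269355401, 2, 1, false, false, 16, 90⟩,
  ⟨156269355401, 1, 2, false, true, 14, 35⟩, ⟨156269355401, 0, 2, false, false, 9, 35⟩,
  ⟨156269355401, 0, 1, true, true, 8, 70⟩, ⟨144189759881, 2, 1, true, true, 5, 88⟩,
  ⟨144189759881, 0, 1, false, true, 1, 68⟩, ⟨144189759881, 1, 0, true, true, 11, 68⟩,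
  ⟨75470283145, 0, 2, false, false, 7, 44⟩, ⟨75470283145, 0, 1, false, true, 7, 44⟩,
  ⟨26380149129, 2, 1, true, true, 11, 90⟩, ⟨163819102601, 1, 2, false, false, 7, 45⟩,
  ⟨163819102601, 1, 0, false, false, 7, 45⟩, ⟨142344266121, 2, 0, true, true, 5, 70⟩,
  ⟨142344266121, 1, 2, false, false, 7, 35⟩, ⟨142344266121, 1, 0, false, true, 7, 35⟩,
  ⟨104763302281, 1, 2, true, false, 5, 90⟩, ⟨36043825545, 2, 1, false, true, 7, 90⟩,
  ⟨39076336009, 1, 0, false, true, 9, 99⟩, ⟨78939001225, 1, 0, false, false, 16, 99⟩,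
  ⟨147658477961, 0, 1, true, true, 8, 99⟩, ⟨156248412553, 1, 2, false, true, 14, 50⟩,
  ⟨156248412553, 0, 2, false, false, 9, 50⟩, ⟨36010299785, 2, 0, false, true, 7, 50⟩,
  ⟨36010299785, 2, 1, false, true, 7, 50⟩, ⟨156269384073, 2, 1, false, false, 16, 99⟩,
  ⟨144189788553, 2, 1, true, true, 5, 99⟩, ⟨75470311817, 0, 2, false, false, 7, 50⟩,
  ⟨75470311817, 0, 1, false, true, 7, 50⟩, ⟨26078187913, 0, 2, true, false, 5, 99⟩,
  ⟨156869464601, 1, 2, false, true, 14, 87⟩, ⟨19430511129, 1, 2, true, false, 8, 86⟩,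
  ⟨147205788185, 1, 0, true, false, 11, 86⟩, ⟨78486311449, 2, 1, false, true, 9, 67⟩,
  ⟨78486311449, 2, 0, true, true, 8, 67⟩, ⟨163630682649, 1, 0, false, true, 15, 86⟩,
  ⟨39076631065, 0, 2, false, false, 16, 86⟩, ⟨39076631065, 2, 0, false, true, 14, 43⟩,
  ⟨39076631065, 1, 0, false, true, 9, 43⟩, ⟨78958170649, 1, 0, false, false, 16, 86⟩,
  ⟨78958170649, 0, 1, false, true, 14, 43⟩, ⟨78958170649, 2, 1, false, true, 9, 43⟩,
  ⟨36008497689, 2, 0, false, true, 7, 43⟩, ⟨36008497689, 2, 1, false, true, 7, 43⟩,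
  ⟨77615993369, 1, 0, false, false, 16, 86⟩, ⟨163515339289, 1, 0, false, true, 15, 86⟩,
  ⟨163515339289, 1, 0, false, true, 7, 86⟩, ⟨40907444761, 2, 0, false, true, 14, 33⟩,
  ⟨40907444761, 1, 0, false, true, 9, 33⟩, ⟨40907444761, 1, 2, true, false, 8, 67⟩,
  ⟨26382575129, 0, 2, true, false, 5, 80⟩, ⟨163821528601, 1, 2, false, false, 7, 40⟩,
  ⟨163821528601, 1, 0, false, true, 7, 40⟩, ⟨104765728281, 1, 2, true, false, 5, 80⟩,
  ⟨156305335833, 2, 1, false, false, 16, 80⟩, ⟨40878089753, 1, 2, true, false, 8, 80⟩,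
  ⟨75237828121, 0, 2, false, true, 15, 80⟩, ⟨75237828121, 0, 2, false, false, 7, 40⟩,
  ⟨75237828121, 0, 1, false, true, 7, 40⟩, ⟨78958175769, 1, 0, false, false, 16, 80⟩,
  ⟨78958175769, 0, 1, false, true, 14, 40⟩, ⟨78958175769, 2, 1, false, true, 9, 40⟩,
  ⟨77615998489, 1, 0, false, false, 16, 80⟩, ⟨163515344409, 1, 0, false, true, 7, 80⟩,
  ⟨156871566873, 2, 1, false, false, 16, 80⟩, ⟨19432613401, 1, 2, true, true, 8, 80⟩,
  ⟨105530336793, 1, 2, true, false, 5, 62⟩, ⟨105530336793, 0, 2, false, false, 7, 31⟩,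
  ⟨105530336793, 0, 1, false, true, 7, 31⟩, ⟨26073441817, 0, 2, true, false, 5, 80⟩,
  ⟨163512395289, 1, 0, false, true, 15, 80⟩, ⟨144034047513, 2, 0, true, false, 5, 80⟩,
  ⟨75314570777, 0, 2, false, true, 15, 80⟩, ⟨104305600025, 2, 0, false, true, 1, 62⟩,
  ⟨104305600025, 0, 2, true, false, 11, 62⟩, ⟨35586123289, 2, 0, false, true, 7, 40⟩,
  ⟨35586123289, 2, 1, false, true, 7, 40⟩, ⟨26380150297, 1, 2, false, false, 1, 62⟩,
  ⟨26380150297, 2, 1, true, true, 11, 62⟩, ⟨163819103769, 1, 2, false, false, 7, 40⟩,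
  ⟨163819103769, 1, 0, false, true, 7, 40⟩, ⟨142344267289, 2, 0, true, true, 5, 62⟩,
  ⟨142344267289, 1, 2, false, false, 7, 31⟩, ⟨142344267289, 1, 0, false, true, 7, 31⟩,
  ⟨104763303449, 1, 2, true, false, 5, 80⟩, ⟨36043826713, 2, 1, false, true, 7, 80⟩,
  ⟨156871788825, 2, 1, false, false, 16, 80⟩, ⟨19432835353, 1, 2, true, false, 8, 80⟩,
  ⟨40907671833, 2, 0, false, true, 14, 31⟩, ⟨40907671833, 1, 0, false, true, 9, 31⟩,
  ⟨40907671833, 1, 2, true, false, 8, 62⟩, ⟨78488635673, 2, 1, false, true, 9, 62⟩,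
  ⟨78488635673, 2, 0, true, true, 8, 62⟩, ⟨39062178073, 0, 2, false, false, 16, 80⟩,
  ⟨39062178073, 2, 0, false, true, 14, 40⟩, ⟨39062178073, 1, 0, false, true, 9, 40⟩,
  ⟨107781654809, 2, 0, true, true, 8, 80⟩, ⟨75315120409, 0, 2, false, true, 15, 80⟩,
  ⟨75315120409, 0, 2, false, false, 7, 80⟩, ⟨163630385433, 1, 0, false, true, 15, 80⟩,
  ⟨163630385433, 1, 2, false, false, 7, 40⟩, ⟨163630385433, 1, 0, false, true, 7, 40⟩,
  ⟨39076333849, 0, 2, false, false, 16, 80⟩, ⟨147658475801, 0, 1, true, true, 8, 80⟩,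
  ⟨156248410393, 2, 1, false, false, 16, 80⟩, ⟨156248410393, 1, 2, false, true, 14, 31⟩,
  ⟨156248410393, 0, 2, false, false, 9, 31⟩, ⟨156248410393, 0, 1, true, true, 8, 62⟩,
  ⟨107937368345, 0, 2, true, false, 11, 80⟩, ⟨39217891609, 1, 0, false, true, 9, 62⟩,
  ⟨39217891609, 1, 2, true, false, 8, 62⟩, ⟨78946339097, 1, 0, false, false, 16, 80⟩,
  ⟨78946339097, 0, 1, false, true, 14, 80⟩, ⟨147665815833, 0, 1, true, true, 8, 80⟩,
  ⟨78958315801, 1, 0, false, false, 16, 86⟩, ⟨78958315801, 0, 1, false, true, 14, 43⟩,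
  ⟨78958315801, 2, 1, false, true, 9, 43⟩, ⟨156267727129, 1, 2, false, true, 14, 43⟩,
  ⟨156267727129, 0, 2, false, false, 9, 43⟩]

theorem kc22 : keyChk 38986 8950 tri22 lv22 = true := by decide +kernel

def lv23 : List Leaf := [
  ⟨104305600025, 2, 0, false, true, 1, 64⟩, ⟨104305600025, 0, 2, true, true, 11, 64⟩,
  ⟨35586123289, 2, 1, false, false, 7, 41⟩, ⟨35586123289, 2, 0, false, true, 7, 41⟩,
  ⟨144034047513, 2, 1, true, false, 5, 82⟩, ⟨105530336793, 1, 2, true, true, 5, 64⟩,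
  ⟨105530336793, 0, 1, false, false, 7, 32⟩, ⟨105530336793, 0, 2, false, true, 7, 32⟩,
  ⟨26073441817, 0, 1, true, false, 5, 52⟩, ⟨163512395289, 1, 0, false, true, 15, 82⟩,
  ⟨36043826713, 2, 1, false, true, 15, 82⟩, ⟨36043826713, 2, 1, false, true, 7, 82⟩,
  ⟨142344267289, 2, 1, true, false, 5, 64⟩, ⟨142344267289, 1, 2, false, true, 7, 32⟩,
  ⟨142344267289, 1, 0, false, true, 7, 32⟩, ⟨26380150297, 1, 2, false, true, 1, 64⟩,
  ⟨26380150297, 2, 1, true, false, 11, 64⟩, ⟨163819103769, 1, 2, false, true, 7, 41⟩,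
  ⟨163819103769, 1, 0, false, true, 7, 41⟩, ⟨39076308505, 2, 0, false, true, 14, 41⟩,
  ⟨39076308505, 1, 0, false, true, 9, 41⟩, ⟨163630360089, 1, 0, false, true, 15, 82⟩,
  ⟨163630360089, 1, 2, false, true, 7, 41⟩, ⟨163630360089, 1, 0, false, true, 7, 41⟩,
  ⟨77731014169, 0, 1, false, true, 14, 32⟩, ⟨77731014169, 2, 1, false, false, 9, 32⟩,
  ⟨77731014169, 2, 0, true, true, 8, 64⟩, ⟨75315095065, 0, 2, false, true, 15, 82⟩,
  ⟨75315095065, 0, 2, false, true, 7, 82⟩, ⟨163515344409, 1, 0, false, true, 7, 82⟩,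
  ⟨77615998489, 1, 0, false, false, 16, 82⟩, ⟨78958175769, 1, 0, false, false, 16, 82⟩,
  ⟨78958175769, 0, 1, false, true, 14, 41⟩, ⟨78958175769, 2, 1, false, true, 9, 41⟩,
  ⟨156305335833, 2, 1, false, false, 16, 82⟩, ⟨104765728281, 1, 2, true, false, 5, 82⟩,
  ⟨26382575129, 0, 2, true, true, 5, 82⟩, ⟨163821528601, 1, 2, false, true, 7, 41⟩,
  ⟨163821528601, 1, 0, false, true, 7, 41⟩, ⟨40878089753, 1, 2, true, true, 8, 82⟩,
  ⟨75237828121, 0, 2, false, true, 15, 82⟩, ⟨75237828121, 0, 1, false, false, 7, 41⟩,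
  ⟨75237828121, 0, 2, false, true, 7, 41⟩, ⟨40878838297, 2, 0, false, true, 14, 39⟩,
  ⟨40878838297, 1, 0, false, true, 9, 39⟩, ⟨75238576665, 0, 2, false, true, 15, 77⟩,
  ⟨156842955289, 2, 1, false, false, 16, 77⟩, ⟨156842955289, 1, 2, false, true, 14, 39⟩,
  ⟨156842955289, 0, 2, false, true, 9, 39⟩, ⟨19739546137, 2, 1, true, false, 11, 77⟩,
  ⟨157178499609, 0, 1, true, false, 8, 77⟩, ⟨19739546137, 1, 2, true, true, 8, 77⟩,
  ⟨77721604633, 0, 1, false, true, 14, 30⟩, ⟨77721604633, 2, 1, false, false, 9, 30⟩,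
  ⟨77721604633, 2, 0, true, true, 8, 60⟩, ⟨156306543129, 2, 1, false, false, 16, 67⟩,
  ⟨36047458841, 2, 1, false, true, 15, 67⟩, ⟨36047458841, 2, 1, false, false, 7, 67⟩,
  ⟨40879297049, 2, 0, false, true, 14, 26⟩, ⟨40879297049, 1, 0, false, true, 9, 26⟩,
  ⟨40879297049, 1, 2, true, true, 8, 52⟩, ⟨75239035417, 0, 2, false, true, 15, 67⟩,
  ⟨75239035417, 0, 1, false, false, 7, 34⟩, ⟨75239035417, 0, 2, false, true, 7, 34⟩,
  ⟨156843414041, 1, 2, false, true, 14, 34⟩, ⟨156843414041, 0, 2, false, true, 9, 34⟩,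
  ⟨104305562137, 1, 0, true, true, 5, 65⟩, ⟨104305562137, 2, 0, false, true, 1, 51⟩,
  ⟨104305562137, 0, 2, true, true, 11, 51⟩, ⟨35586085401, 2, 1, false, false, 7, 33⟩,
  ⟨35586085401, 2, 0, false, true, 7, 33⟩, ⟨144185004569, 0, 1, false, false, 1, 52⟩,
  ⟨144185004569, 1, 0, true, true, 11, 52⟩, ⟨75465527833, 0, 1, false, false, 7, 34⟩,
  ⟨75465527833, 0, 2, false, true, 7, 34⟩, ⟨26073403929, 0, 1, true, false, 5, 34⟩,
  ⟨163512357401, 1, 0, false, true, 15, 67⟩, ⟨163512357401, 1, 0, false, true, 7, 67⟩,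
  ⟨39076631065, 2, 0, false, true, 14, 34⟩, ⟨39076631065, 1, 0, false, true, 9, 34⟩,
  ⟨163630682649, 1, 0, false, true, 15, 67⟩, ⟨77731336729, 0, 1, false, true, 14, 34⟩,
  ⟨77731336729, 2, 1, false, false, 9, 34⟩, ⟨107930325529, 0, 2, true, false, 11, 65⟩,
  ⟨39210848793, 1, 0, false, true, 9, 51⟩, ⟨39210848793, 1, 2, true, true, 8, 51⟩,
  ⟨107930325529, 2, 0, true, true, 8, 65⟩, ⟨147205788185, 1, 0, true, false, 11, 67⟩,
  ⟨78486311449, 2, 1, false, true, 9, 51⟩, ⟨78486311449, 2, 0, true, true, 8, 51⟩,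
  ⟨156869464601, 1, 2, false, true, 14, 66⟩, ⟨19430511129, 1, 2, true, true, 8, 66⟩,
  ⟨40907444761, 2, 0, false, true, 14, 25⟩, ⟨40907444761, 1, 0, false, true, 9, 25⟩,
  ⟨40907444761, 1, 2, true, true, 8, 51⟩, ⟨163515339289, 1, 0, false, true, 15, 66⟩,
  ⟨163515339289, 1, 0, false, true, 7, 66⟩, ⟨77615993369, 1, 0, false, false, 16, 66⟩,
  ⟨78958170649, 1, 0, false, false, 16, 66⟩, ⟨78958170649, 0, 1, false, true, 14, 33⟩,
  ⟨78958170649, 2, 1, false, true, 9, 33⟩, ⟨36008497689, 2, 1, false, true, 15, 66⟩,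
  ⟨36008497689, 2, 1, false, false, 7, 33⟩, ⟨36008497689, 2, 0, false, true, 7, 33⟩,
  ⟨142344493129, 2, 1, true, false, 5, 66⟩, ⟨142344493129, 1, 2, false, true, 7, 33⟩,
  ⟨142344493129, 1, 0, false, true, 7, 33⟩, ⟨26380376137, 1, 2, false, true, 1, 66⟩,
  ⟨26380376137, 2, 1, true, false, 11, 66⟩, ⟨163819329609, 1, 2, false, false, 7, 42⟩,
  ⟨163819329609, 1, 0, false, true, 7, 42⟩, ⟨19736598601, 1, 2, true, true, 8, 85⟩,
  ⟨147243440201, 1, 0, true, true, 11, 85⟩, ⟨104293767241, 2, 0, false, true, 1, 66⟩,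
  ⟨104293767241, 0, 2, true, true, 11, 66⟩, ⟨163629799497, 1, 2, false, true, 7, 42⟩,
  ⟨163629799497, 1, 0, false, true, 7, 42⟩, ⟨77730453577, 0, 1, false, true, 14, 33⟩,
  ⟨77730453577, 2, 1, false, false, 9, 33⟩, ⟨77730453577, 2, 0, true, true, 8, 66⟩,
  ⟨40954796105, 0, 2, false, false, 16, 85⟩, ⟨144185006153, 0, 1, false, false, 1, 66⟩,
  ⟨144185006153, 1, 0, true, true, 11, 66⟩, ⟨75465529417, 0, 1, false, false, 7, 85⟩,
  ⟨105530300489, 1, 2, true, true, 5, 66⟩, ⟨105530300489, 0, 1, false, false, 7, 33⟩,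
  ⟨105530300489, 0, 2, false, true, 7, 33⟩, ⟨26073405513, 0, 1, true, false, 5, 57⟩,
  ⟨163512358985, 1, 0, false, true, 7, 85⟩, ⟨108013361225, 0, 2, true, true, 11, 78⟩,
  ⟨142373099593, 2, 1, true, false, 5, 61⟩, ⟨142373099593, 1, 2, false, true, 7, 30⟩,
  ⟨142373099593, 1, 0, false, true, 7, 30⟩, ⟨26408982601, 0, 1, true, false, 5, 78⟩,
  ⟨26408982601, 1, 2, false, true, 1, 61⟩, ⟨26408982601, 2, 1, true, false, 11, 61⟩,
  ⟨75465562185, 0, 1, false, false, 7, 39⟩, ⟨75465562185, 0, 2, false, true, 7, 39⟩,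
  ⟨105530333257, 1, 2, true, true, 5, 61⟩, ⟨105530333257, 0, 1, false, false, 7, 30⟩,
  ⟨105530333257, 0, 2, false, true, 7, 30⟩, ⟨26073438281, 0, 2, true, true, 5, 45⟩,
  ⟨163512391753, 1, 0, false, true, 15, 78⟩, ⟨163512391753, 1, 0, false, true, 7, 78⟩,
  ⟨27003525193, 0, 1, true, false, 5, 85⟩, ⟨104312936521, 2, 0, false, true, 1, 85⟩,
  ⟨35593459785, 2, 1, false, false, 7, 42⟩, ⟨35593459785, 2, 0, false, true, 7, 42⟩,
  ⟨39217338441, 1, 2, true, true, 8, 85⟩, ⟨107936815177, 2, 0, true, true, 8, 85⟩,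
  ⟨163515353161, 1, 0, false, true, 15, 64⟩, ⟨163515353161, 1, 0, false, true, 7, 64⟩,
  ⟨78958184521, 0, 1, false, true, 14, 32⟩, ⟨78958184521, 2, 1, false, true, 9, 32⟩,
  ⟨36008511561, 2, 1, false, true, 15, 64⟩, ⟨36008511561, 2, 1, false, false, 7, 32⟩,
  ⟨36008511561, 2, 0, false, true, 7, 32⟩, ⟨27003340873, 0, 1, true, false, 5, 62⟩,
  ⟨104312752201, 2, 0, false, true, 1, 48⟩, ⟨104312752201, 0, 2, true, true, 11, 48⟩,
  ⟨35593275465, 2, 1, false, false, 7, 31⟩, ⟨35593275465, 2, 0, false, true, 7, 31⟩,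
  ⟨144041199689, 2, 1, true, false, 5, 62⟩, ⟨75321722953, 0, 2, false, true, 15, 62⟩,
  ⟨75321722953, 0, 2, false, true, 7, 62⟩, ⟨40878098505, 0, 2, false, false, 16, 60⟩,
  ⟨40878098505, 2, 0, false, true, 14, 23⟩, ⟨40878098505, 1, 0, false, true, 9, 23⟩,
  ⟨40878098505, 1, 2, true, true, 8, 46⟩, ⟨75237836873, 0, 2, false, true, 15, 60⟩,
  ⟨75237836873, 0, 1, false, false, 7, 30⟩, ⟨75237836873, 0, 2, false, true, 7, 30⟩,
  ⟨144189835337, 0, 1, false, false, 1, 56⟩, ⟨144189835337, 1, 0, true, true, 11, 56⟩,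
  ⟨75470358601, 0, 1, false, false, 7, 36⟩, ⟨75470358601, 0, 2, false, true, 7, 36⟩,
  ⟨26078234697, 0, 1, true, false, 5, 72⟩, ⟨163517188169, 1, 0, false, true, 15, 72⟩,
  ⟨77617842249, 1, 0, false, false, 16, 72⟩, ⟨104763377737, 1, 2, true, false, 5, 72⟩,
  ⟨36043901001, 2, 1, false, true, 15, 72⟩, ⟨26984204361, 0, 1, true, false, 5, 72⟩,
  ⟨104293615689, 1, 2, true, false, 5, 72⟩, ⟨104293615689, 2, 0, false, true, 1, 56⟩,
  ⟨104293615689, 0, 2, true, true, 11, 56⟩]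

theorem kc23 : keyChk 17958 8950 tri23 lv23 = true := by decide +kernel

end Pool.Agent.SqfBridge
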