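import Pool.Agent.SqfBridge.CertKeys
import Pool.Agent.SqfBridge.LeafKern

set_option autoImplicit false

namespace Pool.Agent.SqfBridge

def lv24 : List Leaf := [
  ⟨27003228562, 0, 1, true, false, 5, 63⟩, ⟨27003228562, 2, 1, false, false, 7, 32⟩,
  ⟨27003228562, 2, 0, false, true, 7, 32⟩, ⟨144041087378, 2, 1, true, false, 5, 81⟩,
  ⟨75321610642, 0, 2, false, true, 15, 81⟩, ⟨144175305106, 2, 1, true, false, 5, 81⟩,
  ⟨144175305106, 0, 1, false, false, 1, 63⟩, ⟨144175305106, 1, 0, true, true, 11, 63⟩,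
  ⟨105520599442, 1, 2, true, true, 5, 63⟩, ⟨105520599442, 0, 1, false, false, 7, 32⟩,
  ⟨105520599442, 0, 2, false, true, 7, 32⟩, ⟨104765624722, 1, 2, true, false, 5, 81⟩,
  ⟨36046147986, 2, 1, false, true, 15, 81⟩, ⟨26382471570, 1, 2, false, true, 1, 63⟩,
  ⟨26382471570, 2, 1, true, false, 11, 63⟩, ⟨163821425042, 1, 2, false, true, 7, 41⟩,
  ⟨163821425042, 1, 0, false, true, 7, 41⟩, ⟨36047458706, 2, 1, false, true, 15, 87⟩,
  ⟨36047458706, 2, 1, false, false, 7, 87⟩, ⟨40879296914, 2, 0, false, true, 14, 34⟩,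
  ⟨40879296914, 1, 0, false, true, 9, 34⟩, ⟨40879296914, 1, 2, true, true, 8, 68⟩,
  ⟨75239035282, 0, 2, false, true, 15, 87⟩, ⟨75239035282, 0, 1, false, false, 7, 44⟩,
  ⟨75239035282, 0, 2, false, true, 7, 44⟩, ⟨156843413906, 1, 2, false, true, 14, 44⟩,
  ⟨156843413906, 0, 2, false, true, 9, 44⟩, ⟨163629797778, 1, 0, false, true, 15, 87⟩,
  ⟨163629797778, 1, 2, false, true, 7, 44⟩, ⟨163629797778, 1, 0, false, true, 7, 44⟩,
  ⟨77730451858, 0, 1, false, true, 14, 34⟩, ⟨77730451858, 2, 1, false, false, 9, 34⟩,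
  ⟨77730451858, 2, 0, true, true, 8, 68⟩, ⟨19622158738, 2, 1, true, false, 11, 90⟩,
  ⟨105521504658, 0, 1, false, false, 7, 45⟩, ⟨105521504658, 0, 2, false, true, 7, 45⟩,
  ⟨39217947026, 1, 0, false, true, 9, 70⟩, ⟨39217947026, 1, 2, true, true, 8, 70⟩,
  ⟨78485021074, 2, 0, true, true, 8, 90⟩, ⟨75465122194, 0, 1, false, false, 7, 45⟩,
  ⟨75465122194, 0, 2, false, true, 7, 45⟩, ⟨105529893266, 1, 2, true, true, 5, 70⟩,
  ⟨105529893266, 0, 1, false, false, 7, 35⟩, ⟨105529893266, 0, 2, false, true, 7, 35⟩,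
  ⟨104763384210, 1, 2, true, false, 5, 83⟩, ⟨36043907474, 2, 1, false, true, 15, 83⟩,
  ⟨36043907474, 2, 1, false, false, 7, 83⟩, ⟨142344348050, 2, 1, true, false, 5, 65⟩,
  ⟨142344348050, 1, 2, false, true, 7, 33⟩, ⟨142344348050, 1, 0, false, true, 7, 33⟩,
  ⟨163819184530, 1, 2, false, true, 7, 42⟩, ⟨163819184530, 1, 0, false, true, 7, 42⟩,
  ⟨26984210834, 0, 1, true, false, 5, 65⟩, ⟨26984210834, 2, 1, false, false, 7, 33⟩,
  ⟨26984210834, 2, 0, false, true, 7, 33⟩, ⟨147243295122, 1, 0, true, true, 11, 83⟩,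
  ⟨104293622162, 1, 2, true, false, 5, 83⟩, ⟨104293622162, 2, 0, false, true, 1, 83⟩,
  ⟨142344493202, 2, 1, true, false, 5, 70⟩, ⟨142344493202, 1, 2, false, true, 7, 35⟩,
  ⟨142344493202, 1, 0, false, true, 7, 35⟩, ⟨19736598674, 1, 2, true, true, 8, 90⟩,
  ⟨104293767314, 1, 2, true, false, 5, 90⟩, ⟨104293767314, 2, 0, false, true, 1, 90⟩,
  ⟨144041089170, 2, 1, true, false, 5, 90⟩, ⟨75321612434, 0, 2, false, true, 15, 90⟩,
  ⟨144175306898, 2, 1, true, false, 5, 90⟩, ⟨144175306898, 0, 1, false, false, 1, 70⟩,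
  ⟨144175306898, 1, 0, true, true, 11, 70⟩, ⟨19621255314, 2, 1, true, false, 11, 90⟩,
  ⟨105520601234, 1, 2, true, true, 5, 90⟩, ⟨156305234066, 2, 1, false, false, 16, 90⟩,
  ⟨104765626514, 1, 2, true, false, 5, 90⟩, ⟨36046149778, 2, 1, false, true, 15, 90⟩,
  ⟨26382473362, 1, 2, false, true, 1, 70⟩, ⟨26382473362, 2, 1, true, false, 11, 70⟩,
  ⟨142373099666, 2, 1, true, false, 5, 68⟩, ⟨142373099666, 1, 2, false, true, 7, 34⟩,
  ⟨142373099666, 1, 0, false, true, 7, 34⟩, ⟨26408982674, 0, 1, true, false, 5, 87⟩,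
  ⟨26408982674, 1, 2, false, true, 1, 67⟩, ⟨26408982674, 2, 1, true, false, 11, 67⟩,
  ⟨75465562258, 0, 1, false, false, 7, 43⟩, ⟨75465562258, 0, 2, false, true, 7, 43⟩,
  ⟨105530333330, 1, 2, true, true, 5, 67⟩, ⟨105530333330, 0, 1, false, false, 7, 33⟩,
  ⟨105530333330, 0, 2, false, true, 7, 33⟩, ⟨26073438354, 0, 1, true, false, 5, 86⟩,
  ⟨163512391826, 1, 0, false, true, 15, 86⟩, ⟨163512391826, 1, 0, false, true, 7, 86⟩,
  ⟨157173749906, 0, 2, false, true, 9, 69⟩, ⟨157173749906, 0, 1, true, false, 8, 69⟩,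
  ⟨107781626002, 2, 0, true, true, 8, 89⟩, ⟨26982553746, 2, 1, false, false, 7, 44⟩,
  ⟨26982553746, 2, 0, false, true, 7, 44⟩, ⟨147241638034, 1, 0, true, true, 11, 89⟩,
  ⟨104305600018, 2, 0, false, true, 1, 104⟩, ⟨35586123282, 2, 1, false, false, 7, 52⟩,
  ⟨35586123282, 2, 0, false, true, 7, 52⟩, ⟨40954832402, 0, 2, false, false, 16, 104⟩,
  ⟨75314570770, 0, 2, false, true, 15, 104⟩, ⟨142373103122, 2, 1, true, false, 5, 81⟩,
  ⟨142373103122, 1, 2, false, true, 7, 40⟩, ⟨142373103122, 1, 0, false, true, 7, 40⟩,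
  ⟨26408986130, 0, 1, true, false, 5, 104⟩, ⟨26408986130, 1, 2, false, true, 1, 81⟩,
  ⟨26408986130, 2, 1, true, false, 11, 81⟩, ⟨105530336786, 1, 2, true, true, 5, 81⟩,
  ⟨105530336786, 0, 1, false, false, 7, 40⟩, ⟨105530336786, 0, 2, false, true, 7, 40⟩,
  ⟨26073441810, 0, 1, true, false, 5, 104⟩, ⟨163512395282, 1, 0, false, true, 15, 104⟩,
  ⟨163630360082, 1, 0, false, true, 15, 106⟩, ⟨163630360082, 1, 2, false, true, 7, 53⟩,
  ⟨163630360082, 1, 0, false, true, 7, 53⟩, ⟨77731014162, 0, 1, false, true, 14, 41⟩,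
  ⟨77731014162, 2, 1, false, false, 9, 41⟩, ⟨77731014162, 2, 0, true, true, 8, 83⟩,
  ⟨75315095058, 0, 2, false, true, 15, 106⟩, ⟨75315095058, 0, 2, false, true, 7, 106⟩,
  ⟨27003340306, 0, 1, true, false, 5, 71⟩, ⟨27003340306, 2, 1, false, false, 7, 35⟩,
  ⟨27003340306, 2, 0, false, true, 7, 35⟩, ⟨35593274898, 2, 1, false, false, 7, 45⟩,
  ⟨35593274898, 2, 0, false, true, 7, 45⟩, ⟨144041199122, 2, 1, true, false, 5, 91⟩,
  ⟨75321722386, 0, 2, false, true, 15, 91⟩, ⟨75321722386, 0, 2, false, true, 7, 91⟩,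
  ⟨156305344018, 2, 1, false, false, 16, 91⟩, ⟨26382583314, 0, 2, true, true, 5, 91⟩,
  ⟨26382583314, 2, 1, true, false, 11, 91⟩, ⟨163821536786, 1, 2, false, true, 7, 45⟩,
  ⟨163821536786, 1, 0, false, true, 7, 45⟩, ⟨40878097938, 0, 2, false, false, 16, 91⟩,
  ⟨40878097938, 2, 0, false, true, 14, 35⟩, ⟨40878097938, 1, 0, false, true, 9, 35⟩,
  ⟨40878097938, 1, 2, true, true, 8, 71⟩, ⟨26408535570, 0, 1, true, false, 5, 97⟩,
  ⟨26408535570, 1, 2, false, true, 1, 76⟩, ⟨26408535570, 2, 1, true, false, 11, 76⟩,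
  ⟨144184591890, 0, 1, false, false, 1, 76⟩, ⟨144184591890, 1, 0, true, true, 11, 76⟩,
  ⟨75465115154, 0, 1, false, false, 7, 48⟩, ⟨75465115154, 0, 2, false, true, 7, 48⟩,
  ⟨105529886226, 1, 2, true, true, 5, 76⟩, ⟨105529886226, 0, 1, false, false, 7, 38⟩,
  ⟨105529886226, 0, 2, false, true, 7, 38⟩, ⟨144189834770, 0, 1, false, false, 1, 76⟩,
  ⟨144189834770, 1, 0, true, true, 11, 76⟩, ⟨75470358034, 0, 1, false, false, 7, 48⟩,
  ⟨75470358034, 0, 2, false, true, 7, 48⟩, ⟨26078234130, 0, 1, true, false, 5, 97⟩,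
  ⟨163517187602, 1, 0, false, true, 15, 97⟩]

theorem kc24 : keyChk 17957 8950 tri24 lv24 = true := by decide +kernel

def lv25 : List Leaf := [
  ⟨26408524070, 0, 2, true, false, 5, 73⟩, ⟨26408524070, 1, 2, false, false, 1, 57⟩,
  ⟨26408524070, 2, 1, true, true, 11, 57⟩, ⟨108012902694, 0, 2, true, false, 11, 73⟩,
  ⟨142372641062, 2, 0, true, true, 5, 57⟩, ⟨142372641062, 1, 2, false, false, 7, 29⟩,
  ⟨142372641062, 1, 0, false, true, 7, 29⟩, ⟨78485002534, 2, 0, true, true, 8, 73⟩,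
  ⟨19430512934, 1, 2, true, false, 8, 42⟩, ⟨147205789990, 1, 0, true, false, 11, 73⟩,
  ⟨78486313254, 2, 1, false, true, 9, 57⟩, ⟨78486313254, 2, 0, true, true, 8, 57⟩,
  ⟨107930327334, 0, 2, true, false, 11, 71⟩, ⟨39210850598, 1, 0, false, true, 9, 55⟩,
  ⟨39210850598, 1, 2, true, false, 8, 55⟩, ⟨107930327334, 2, 0, true, true, 8, 71⟩,
  ⟨156248709414, 0, 2, false, false, 9, 73⟩, ⟨104312936742, 2, 0, false, true, 1, 57⟩,
  ⟨104312936742, 0, 2, true, false, 11, 57⟩, ⟨35593460006, 2, 0, false, true, 7, 37⟩,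
  ⟨35593460006, 2, 1, false, true, 7, 37⟩, ⟨107936815398, 2, 0, true, true, 8, 73⟩,
  ⟨144175601958, 0, 1, false, true, 1, 57⟩, ⟨144175601958, 1, 0, true, true, 11, 57⟩,
  ⟨147241638182, 1, 0, true, true, 11, 73⟩, ⟨26982553894, 2, 0, false, true, 7, 37⟩,
  ⟨26982553894, 2, 1, false, true, 7, 37⟩, ⟨157173750054, 0, 2, false, true, 9, 73⟩,
  ⟨39062149414, 1, 0, false, true, 9, 73⟩, ⟨107781626150, 2, 0, true, true, 8, 73⟩,
  ⟨26073440550, 0, 2, true, false, 5, 70⟩, ⟨163512394022, 1, 0, false, true, 15, 70⟩,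
  ⟨26408984870, 0, 2, true, false, 5, 70⟩, ⟨26408984870, 1, 2, false, false, 1, 55⟩,
  ⟨26408984870, 2, 1, true, true, 11, 55⟩, ⟨108013363494, 0, 2, true, false, 11, 70⟩,
  ⟨142373101862, 2, 0, true, true, 5, 70⟩, ⟨75314569510, 0, 2, false, true, 15, 70⟩,
  ⟨104305598758, 2, 0, false, true, 1, 55⟩, ⟨104305598758, 0, 2, true, false, 11, 55⟩,
  ⟨35586122022, 2, 0, false, true, 7, 35⟩, ⟨35586122022, 2, 1, false, true, 7, 35⟩,
  ⟨26984210726, 0, 2, true, false, 5, 55⟩, ⟨26984210726, 2, 0, false, true, 7, 28⟩,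
  ⟨26984210726, 2, 1, false, true, 7, 28⟩, ⟨104293622054, 1, 2, true, false, 5, 70⟩,
  ⟨104293622054, 2, 0, false, true, 1, 55⟩, ⟨104293622054, 0, 2, true, false, 11, 55⟩,
  ⟨163819184422, 1, 2, false, false, 7, 35⟩, ⟨163819184422, 1, 0, false, true, 7, 35⟩,
  ⟨142344347942, 2, 0, true, true, 5, 55⟩, ⟨142344347942, 1, 2, false, false, 7, 28⟩,
  ⟨142344347942, 1, 0, false, true, 7, 28⟩, ⟨104763384102, 1, 2, true, false, 5, 70⟩,
  ⟨36043907366, 2, 1, false, true, 15, 70⟩, ⟨108014100774, 0, 2, true, false, 11, 70⟩,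
  ⟨142373839142, 2, 0, true, true, 5, 55⟩, ⟨142373839142, 1, 2, false, false, 7, 28⟩,
  ⟨142373839142, 1, 0, false, true, 7, 28⟩, ⟨156869353766, 1, 2, false, true, 14, 35⟩,
  ⟨156869353766, 0, 2, false, true, 9, 35⟩, ⟨19430400294, 1, 2, true, false, 8, 38⟩,
  ⟨107930214694, 0, 2, true, false, 11, 67⟩, ⟨39210737958, 1, 0, false, true, 9, 52⟩,
  ⟨39210737958, 1, 2, true, false, 8, 52⟩, ⟨107930214694, 2, 0, true, true, 8, 67⟩,
  ⟨78939185446, 1, 0, false, false, 16, 69⟩, ⟨26984341798, 0, 2, true, false, 5, 54⟩,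
  ⟨26984341798, 2, 0, false, true, 7, 27⟩, ⟨26984341798, 2, 1, false, true, 7, 27⟩,
  ⟨104293753126, 1, 2, true, false, 5, 69⟩, ⟨104293753126, 0, 2, true, false, 11, 69⟩,
  ⟨19736584486, 1, 2, true, false, 8, 69⟩, ⟨77722051718, 1, 0, false, false, 16, 84⟩,
  ⟨77722051718, 0, 1, false, true, 14, 32⟩, ⟨77722051718, 2, 1, false, true, 9, 32⟩,
  ⟨77722051718, 2, 0, true, true, 8, 65⟩, ⟨39067346054, 0, 2, false, false, 16, 84⟩,
  ⟨107786822790, 2, 0, true, true, 8, 84⟩, ⟨36047447174, 2, 1, false, true, 15, 84⟩,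
  ⟨156306531462, 2, 1, false, false, 16, 84⟩, ⟨156843402374, 2, 1, false, false, 16, 84⟩,
  ⟨75239023750, 0, 2, false, true, 15, 84⟩, ⟨75239023750, 0, 2, false, false, 7, 42⟩,
  ⟨75239023750, 0, 1, false, true, 7, 42⟩, ⟨142373840006, 2, 0, true, true, 5, 67⟩,
  ⟨142373840006, 1, 2, false, false, 7, 33⟩, ⟨142373840006, 1, 0, false, true, 7, 33⟩,
  ⟨19430401158, 1, 2, true, false, 8, 58⟩, ⟨39210738822, 1, 0, false, true, 9, 67⟩,
  ⟨39210738822, 1, 2, true, false, 8, 67⟩, ⟨107930215558, 2, 0, true, true, 8, 86⟩,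
  ⟨78939186310, 1, 0, false, false, 16, 86⟩, ⟨156248597638, 2, 1, false, false, 16, 86⟩,
  ⟨156248597638, 1, 2, false, true, 14, 43⟩, ⟨156248597638, 0, 2, false, false, 9, 43⟩,
  ⟨19739542662, 2, 1, true, false, 11, 86⟩, ⟨157178496134, 0, 2, false, true, 9, 86⟩,
  ⟨19739542662, 1, 2, true, false, 8, 86⟩, ⟨156842951814, 2, 1, false, false, 16, 86⟩,
  ⟨156842951814, 1, 2, false, true, 14, 43⟩, ⟨156842951814, 0, 2, false, true, 9, 43⟩,
  ⟨40878834822, 1, 0, false, true, 9, 86⟩, ⟨107937367174, 0, 2, true, false, 11, 86⟩,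
  ⟨78946337926, 1, 0, false, false, 16, 86⟩, ⟨78946337926, 0, 1, false, true, 14, 86⟩,
  ⟨19739578950, 2, 1, true, false, 11, 74⟩, ⟨157178532422, 0, 2, false, true, 9, 74⟩,
  ⟨19739578950, 1, 2, true, false, 8, 74⟩, ⟨77721637446, 1, 0, false, false, 16, 74⟩,
  ⟨77721637446, 0, 1, false, true, 14, 28⟩, ⟨77721637446, 2, 1, false, true, 9, 28⟩,
  ⟨77721637446, 2, 0, true, true, 8, 57⟩, ⟨107786408518, 2, 0, true, true, 8, 74⟩,
  ⟨78946374214, 1, 0, false, false, 16, 77⟩, ⟨78946374214, 0, 1, false, true, 14, 38⟩,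
  ⟨78946374214, 2, 1, false, true, 9, 38⟩, ⟨105521484358, 1, 2, true, false, 5, 60⟩,
  ⟨105521484358, 0, 2, false, false, 7, 30⟩, ⟨105521484358, 0, 1, false, true, 7, 30⟩,
  ⟨156869464646, 1, 2, false, true, 14, 77⟩, ⟨19430511174, 1, 2, true, false, 8, 46⟩,
  ⟨147205788230, 1, 0, true, false, 11, 77⟩, ⟨77731336774, 0, 1, false, true, 14, 38⟩,
  ⟨77731336774, 2, 1, false, true, 9, 38⟩, ⟨163630682694, 1, 0, false, true, 15, 77⟩,
  ⟨39076631110, 0, 2, false, false, 16, 77⟩, ⟨39076631110, 1, 0, false, true, 9, 77⟩,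
  ⟨78958170694, 1, 0, false, false, 16, 77⟩, ⟨78958170694, 0, 1, false, true, 14, 38⟩,
  ⟨78958170694, 2, 1, false, true, 9, 38⟩, ⟨36008497734, 2, 1, false, true, 15, 77⟩,
  ⟨19432608326, 1, 2, true, false, 8, 77⟩, ⟨40907444806, 0, 2, false, false, 16, 77⟩,
  ⟨40907444806, 1, 0, false, true, 9, 60⟩, ⟨40907444806, 1, 2, true, false, 8, 60⟩,
  ⟨26380371526, 1, 2, false, false, 1, 67⟩, ⟨26380371526, 2, 1, true, true, 11, 67⟩,
  ⟨163819324998, 1, 2, false, false, 7, 43⟩, ⟨163819324998, 1, 0, false, true, 7, 43⟩,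
  ⟨142344488518, 2, 0, true, true, 5, 67⟩, ⟨142344488518, 1, 2, false, false, 7, 33⟩,
  ⟨142344488518, 1, 0, false, true, 7, 33⟩, ⟨75321607750, 0, 2, false, true, 15, 86⟩,
  ⟨75321607750, 0, 2, false, false, 7, 86⟩, ⟨27003225670, 0, 2, true, false, 5, 67⟩,
  ⟨27003225670, 2, 0, false, true, 7, 33⟩, ⟨27003225670, 2, 1, false, true, 7, 33⟩,
  ⟨35593160262, 2, 0, false, true, 7, 43⟩, ⟨35593160262, 2, 1, false, true, 7, 43⟩,
  ⟨105520596550, 1, 2, true, false, 5, 67⟩, ⟨105520596550, 0, 2, false, false, 7, 33⟩,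
  ⟨105520596550, 0, 1, false, true, 7, 33⟩, ⟨19621250630, 2, 1, true, true, 11, 86⟩,
  ⟨144175302214, 0, 1, false, true, 1, 67⟩, ⟨144175302214, 1, 0, true, true, 11, 67⟩,
  ⟨107936843334, 2, 0, true, true, 8, 86⟩, ⟨105520924230, 1, 2, true, false, 5, 67⟩,
  ⟨105520924230, 0, 2, false, false, 7, 33⟩, ⟨105520924230, 0, 1, false, true, 7, 33⟩,
  ⟨19621578310, 2, 1, true, true, 11, 86⟩, ⟨19432834630, 1, 2, true, false, 8, 86⟩,
  ⟨147208111686, 1, 0, true, false, 11, 86⟩, ⟨78488634950, 2, 1, false, true, 9, 67⟩,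
  ⟨78488634950, 2, 0, true, true, 8, 67⟩, ⟨147241666118, 1, 0, true, true, 11, 86⟩,
  ⟨26982581830, 0, 2, true, false, 5, 67⟩, ⟨26982581830, 2, 0, false, true, 7, 33⟩,
  ⟨26982581830, 2, 1, false, false, 7, 33⟩, ⟨39062177350, 1, 0, false, true, 9, 86⟩]

theorem kc25 : keyChk 37401 8950 tri25 lv25 = true := by decide +kernel

def lv26 : List Leaf := [
  ⟨147208111686, 1, 0, true, false, 11, 79⟩, ⟨78488634950, 2, 1, false, true, 9, 61⟩,
  ⟨147208111686, 0, 1, true, false, 8, 79⟩, ⟨78488634950, 2, 0, true, true, 8, 61⟩,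
  ⟨156871788102, 2, 1, false, false, 16, 81⟩, ⟨19432834630, 1, 2, true, true, 8, 81⟩,
  ⟨144175629894, 2, 1, true, false, 5, 81⟩, ⟨105520924230, 1, 2, true, true, 5, 63⟩,
  ⟨105520924230, 0, 1, false, false, 7, 32⟩, ⟨105520924230, 0, 2, false, true, 7, 32⟩,
  ⟨39217366598, 1, 2, true, true, 8, 81⟩, ⟨107936843334, 2, 0, true, true, 8, 81⟩,
  ⟨142344488518, 2, 1, true, false, 5, 63⟩, ⟨142344488518, 1, 2, false, true, 7, 32⟩,
  ⟨142344488518, 1, 0, false, true, 7, 32⟩, ⟨26380371526, 1, 2, false, true, 1, 81⟩,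
  ⟨163819324998, 1, 2, false, true, 7, 41⟩, ⟨163819324998, 1, 0, false, true, 7, 41⟩,
  ⟨108014110278, 0, 2, true, true, 11, 81⟩, ⟨142373848646, 1, 2, false, true, 7, 41⟩,
  ⟨142373848646, 1, 0, false, true, 7, 41⟩, ⟨78486210118, 2, 1, false, true, 9, 63⟩,
  ⟨78486210118, 2, 0, true, true, 8, 63⟩, ⟨156869363270, 1, 2, false, true, 14, 41⟩,
  ⟨156869363270, 0, 2, false, true, 9, 41⟩, ⟨19430409798, 1, 2, true, true, 8, 81⟩,
  ⟨39076631110, 0, 2, false, false, 16, 81⟩, ⟨39076631110, 2, 0, false, true, 14, 41⟩,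
  ⟨39076631110, 1, 0, false, true, 9, 41⟩, ⟨163630682694, 1, 0, false, true, 15, 81⟩,
  ⟨77731336774, 0, 1, false, true, 14, 41⟩, ⟨77731336774, 2, 1, false, false, 9, 41⟩,
  ⟨147205788230, 1, 0, true, false, 11, 81⟩, ⟨78486311494, 2, 1, false, true, 9, 81⟩,
  ⟨156869464646, 2, 1, false, false, 16, 81⟩, ⟨156869464646, 1, 2, false, true, 14, 81⟩,
  ⟨19430511174, 1, 2, true, true, 8, 81⟩, ⟨105521484358, 1, 2, true, true, 5, 63⟩,
  ⟨105521484358, 0, 1, false, false, 7, 32⟩, ⟨105521484358, 0, 2, false, true, 7, 32⟩,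
  ⟨78946374214, 1, 0, false, false, 16, 81⟩, ⟨147665850950, 0, 1, true, false, 8, 81⟩,
  ⟨157178532422, 0, 2, false, true, 9, 63⟩, ⟨157178532422, 0, 1, true, false, 8, 63⟩,
  ⟨19739578950, 1, 2, true, true, 8, 81⟩, ⟨107786408518, 2, 0, true, true, 8, 81⟩,
  ⟨77721637446, 1, 0, false, false, 16, 81⟩, ⟨77721637446, 0, 1, false, true, 14, 32⟩,
  ⟨77721637446, 2, 1, false, false, 9, 32⟩, ⟨77721637446, 2, 0, true, true, 8, 63⟩,
  ⟨147665871430, 0, 1, true, false, 8, 81⟩, ⟨39217947206, 1, 0, false, true, 9, 63⟩,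
  ⟨39217947206, 1, 2, true, true, 8, 63⟩, ⟨26408542790, 0, 1, true, false, 5, 80⟩,
  ⟨26408542790, 1, 2, false, true, 1, 80⟩, ⟨144184599110, 0, 1, false, false, 1, 80⟩,
  ⟨75465122374, 0, 1, false, false, 7, 40⟩, ⟨75465122374, 0, 2, false, true, 7, 40⟩,
  ⟨105529893446, 1, 2, true, true, 5, 80⟩, ⟨147208036934, 1, 0, true, false, 11, 80⟩,
  ⟨78488560198, 2, 1, false, true, 9, 62⟩, ⟨78488560198, 2, 0, true, true, 8, 62⟩,
  ⟨40907596358, 2, 0, false, true, 14, 31⟩, ⟨40907596358, 1, 0, false, true, 9, 31⟩,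
  ⟨40907596358, 1, 2, true, true, 8, 62⟩, ⟨78958322246, 1, 0, false, false, 16, 80⟩,
  ⟨78958322246, 0, 1, false, true, 14, 40⟩, ⟨78958322246, 2, 1, false, true, 9, 40⟩,
  ⟨156267733574, 1, 2, false, true, 14, 40⟩, ⟨156267733574, 0, 2, false, true, 9, 40⟩,
  ⟨157173703238, 0, 2, false, true, 9, 62⟩, ⟨157173703238, 0, 1, true, false, 8, 62⟩,
  ⟨39062102598, 0, 2, false, false, 16, 80⟩, ⟨107781579334, 2, 0, true, true, 8, 80⟩,
  ⟨36047458706, 2, 1, false, false, 7, 70⟩, ⟨40879296914, 2, 0, false, true, 14, 27⟩,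
  ⟨40879296914, 1, 0, false, true, 9, 27⟩, ⟨40879296914, 1, 2, true, true, 8, 54⟩,
  ⟨75239035282, 0, 2, false, true, 15, 70⟩, ⟨75239035282, 0, 1, false, false, 7, 35⟩,
  ⟨75239035282, 0, 2, false, true, 7, 35⟩, ⟨156843413906, 1, 2, false, true, 14, 35⟩,
  ⟨156843413906, 0, 2, false, true, 9, 35⟩, ⟨163629797778, 1, 0, false, true, 15, 64⟩,
  ⟨163629797778, 1, 2, false, true, 7, 32⟩, ⟨163629797778, 1, 0, false, true, 7, 32⟩,
  ⟨77730451858, 1, 0, false, false, 16, 64⟩, ⟨77730451858, 0, 1, false, true, 14, 25⟩,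
  ⟨77730451858, 2, 1, false, false, 9, 25⟩, ⟨77730451858, 2, 0, true, true, 8, 50⟩,
  ⟨144185004434, 0, 1, false, false, 1, 67⟩, ⟨75465527698, 0, 1, false, false, 7, 33⟩,
  ⟨75465527698, 0, 2, false, true, 7, 33⟩, ⟨105530298770, 1, 2, true, true, 5, 52⟩,
  ⟨105530298770, 0, 1, false, false, 7, 26⟩, ⟨105530298770, 0, 2, false, true, 7, 26⟩,
  ⟨26073403794, 0, 1, true, false, 5, 67⟩, ⟨163512357266, 1, 0, false, true, 15, 67⟩,
  ⟨163512357266, 1, 0, false, true, 7, 67⟩, ⟨105521504658, 0, 1, false, false, 7, 40⟩,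
  ⟨105521504658, 0, 2, false, true, 7, 40⟩, ⟨39217947026, 1, 0, false, true, 9, 63⟩,
  ⟨39217947026, 1, 2, true, true, 8, 63⟩, ⟨104763384210, 1, 2, true, false, 5, 78⟩,
  ⟨36043907474, 2, 1, false, false, 7, 78⟩, ⟨142344348050, 2, 1, true, false, 5, 61⟩,
  ⟨142344348050, 1, 2, false, true, 7, 30⟩, ⟨142344348050, 1, 0, false, true, 7, 30⟩,
  ⟨163819184530, 1, 2, false, true, 7, 39⟩, ⟨163819184530, 1, 0, false, true, 7, 39⟩,
  ⟨26984210834, 0, 1, true, false, 5, 61⟩, ⟨26984210834, 2, 1, false, false, 7, 30⟩,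
  ⟨26984210834, 2, 0, false, true, 7, 30⟩, ⟨147243295122, 1, 0, true, true, 11, 78⟩,
  ⟨104293622162, 1, 2, true, false, 5, 78⟩, ⟨104293622162, 2, 0, false, true, 1, 61⟩,
  ⟨104293622162, 0, 2, true, true, 11, 61⟩, ⟨144189759890, 2, 1, true, false, 5, 81⟩,
  ⟨144189759890, 0, 1, false, false, 1, 81⟩, ⟨75470283154, 0, 1, false, false, 7, 40⟩,
  ⟨75470283154, 0, 2, false, true, 7, 40⟩, ⟨156269355410, 1, 2, false, true, 14, 31⟩,
  ⟨156269355410, 0, 2, false, true, 9, 31⟩, ⟨156269355410, 0, 1, true, false, 8, 63⟩,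
  ⟨36010271122, 2, 1, false, false, 7, 40⟩, ⟨36010271122, 2, 0, false, true, 7, 40⟩,
  ⟨104763302290, 1, 2, true, false, 5, 81⟩, ⟨36043825554, 2, 1, false, false, 7, 81⟩,
  ⟨142344266130, 2, 1, true, false, 5, 63⟩, ⟨142344266130, 1, 2, false, true, 7, 63⟩,
  ⟨26380149138, 1, 2, false, true, 1, 81⟩, ⟨163819102610, 1, 2, false, true, 7, 81⟩,
  ⟨142344493202, 1, 2, false, true, 7, 40⟩, ⟨142344493202, 1, 0, false, true, 7, 40⟩,
  ⟨26380376210, 1, 2, false, true, 1, 80⟩, ⟨147243440274, 1, 0, true, true, 11, 80⟩,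
  ⟨104293767314, 1, 2, true, false, 5, 80⟩, ⟨104293767314, 2, 0, false, true, 1, 62⟩,
  ⟨104293767314, 0, 2, true, true, 11, 62⟩, ⟨144041089170, 2, 1, true, false, 5, 80⟩,
  ⟨75321612434, 0, 2, false, true, 15, 80⟩, ⟨144175306898, 2, 1, true, false, 5, 80⟩,
  ⟨144175306898, 0, 1, false, false, 1, 80⟩, ⟨105520601234, 1, 2, true, true, 5, 80⟩,
  ⟨108013361298, 0, 2, true, true, 11, 80⟩, ⟨26408982674, 0, 1, true, false, 5, 80⟩,
  ⟨26408982674, 1, 2, false, true, 1, 80⟩, ⟨75465562258, 0, 1, false, false, 7, 40⟩,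
  ⟨75465562258, 0, 2, false, true, 7, 40⟩, ⟨105530333330, 1, 2, true, true, 5, 62⟩,
  ⟨105530333330, 0, 1, false, false, 7, 31⟩, ⟨105530333330, 0, 2, false, true, 7, 31⟩,
  ⟨26073438354, 0, 1, true, false, 5, 80⟩, ⟨163512391826, 1, 0, false, true, 7, 80⟩,
  ⟨157173749906, 0, 2, false, true, 9, 62⟩, ⟨157173749906, 0, 1, true, false, 8, 62⟩,
  ⟨39062149266, 1, 0, false, true, 9, 80⟩, ⟨107781626002, 2, 0, true, true, 8, 80⟩,
  ⟨26982553746, 2, 1, false, false, 7, 40⟩, ⟨26982553746, 2, 0, false, true, 7, 40⟩,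
  ⟨147241638034, 1, 0, true, false, 11, 80⟩, ⟨105521485970, 1, 2, true, true, 5, 62⟩,
  ⟨105521485970, 0, 1, false, false, 7, 31⟩, ⟨105521485970, 0, 2, false, true, 7, 31⟩,
  ⟨78946375826, 1, 0, false, false, 16, 80⟩, ⟨147665852562, 0, 1, true, false, 8, 80⟩,
  ⟨108012902546, 0, 2, true, true, 11, 80⟩, ⟨26408523922, 0, 1, true, false, 5, 80⟩,
  ⟨147204479122, 0, 1, true, false, 8, 80⟩, ⟨78485002386, 2, 0, true, true, 8, 80⟩]

theorem kc26 : keyChk 18821 8950 tri26 lv26 = true := by decide +kernel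

def lv27 : List Leaf := [
  ⟨105529886226, 1, 0, true, false, 5, 86⟩, ⟨105529886226, 0, 1, false, true, 7, 43⟩,
  ⟨105529886226, 0, 2, false, true, 7, 43⟩, ⟨144184591890, 0, 1, false, true, 1, 86⟩,
  ⟨144184591890, 1, 0, true, false, 11, 86⟩, ⟨75465115154, 0, 1, false, false, 7, 55⟩,
  ⟨75465115154, 0, 2, false, true, 7, 55⟩, ⟨108012914194, 0, 2, true, true, 11, 88⟩,
  ⟨26408535570, 0, 1, true, false, 5, 110⟩, ⟨26408535570, 2, 1, true, true, 11, 88⟩,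
  ⟨75315095058, 0, 2, false, true, 7, 110⟩, ⟨39076308498, 2, 0, false, true, 14, 55⟩,
  ⟨39076308498, 1, 0, false, true, 9, 55⟩, ⟨77731014162, 0, 1, false, true, 14, 86⟩,
  ⟨77731014162, 2, 0, true, false, 8, 86⟩, ⟨163630360082, 1, 0, false, true, 15, 110⟩,
  ⟨163630360082, 1, 0, false, false, 7, 55⟩, ⟨163630360082, 1, 2, false, true, 7, 55⟩,
  ⟨163515344402, 1, 0, false, false, 7, 110⟩, ⟨78958175762, 0, 1, false, true, 14, 110⟩,
  ⟨75237828114, 0, 1, false, true, 7, 55⟩, ⟨75237828114, 0, 2, false, true, 7, 55⟩,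
  ⟨26382575122, 0, 2, true, true, 5, 110⟩, ⟨163821528594, 1, 0, false, false, 7, 55⟩,
  ⟨163821528594, 1, 2, false, true, 7, 55⟩, ⟨104765728274, 1, 0, true, false, 5, 110⟩,
  ⟨147241638034, 1, 0, true, false, 11, 110⟩, ⟨39062149266, 2, 0, false, true, 14, 55⟩,
  ⟨39062149266, 1, 0, false, true, 9, 55⟩, ⟨157173749906, 0, 2, false, true, 9, 86⟩,
  ⟨157173749906, 0, 1, true, true, 8, 86⟩, ⟨142344493202, 2, 0, true, false, 5, 86⟩,
  ⟨142344493202, 1, 0, false, false, 7, 43⟩, ⟨142344493202, 1, 2, false, true, 7, 43⟩,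
  ⟨26380376210, 2, 1, true, true, 11, 110⟩, ⟨104293767314, 1, 0, true, false, 5, 110⟩,
  ⟨104293767314, 0, 2, true, true, 11, 110⟩, ⟨19736598674, 1, 2, true, true, 8, 110⟩,
  ⟨26382471570, 2, 1, true, true, 11, 110⟩, ⟨163821425042, 1, 0, false, false, 7, 55⟩,
  ⟨163821425042, 1, 2, false, true, 7, 55⟩, ⟨104765624722, 1, 0, true, false, 5, 110⟩,
  ⟨36046147986, 2, 1, false, true, 15, 110⟩, ⟨105520599442, 1, 2, true, true, 5, 86⟩,
  ⟨105520599442, 0, 1, false, true, 7, 43⟩, ⟨105520599442, 0, 2, false, true, 7, 43⟩,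
  ⟨27003228562, 0, 1, true, true, 5, 88⟩, ⟨144041087378, 2, 0, true, false, 5, 110⟩,
  ⟨26073403794, 0, 1, true, false, 5, 110⟩, ⟨163512357266, 1, 0, false, true, 15, 110⟩,
  ⟨163512357266, 1, 0, false, false, 7, 110⟩, ⟨105530298770, 1, 0, true, false, 5, 86⟩,
  ⟨105530298770, 0, 1, false, true, 7, 43⟩, ⟨105530298770, 0, 2, false, true, 7, 43⟩,
  ⟨144185004434, 0, 1, false, true, 1, 86⟩, ⟨144185004434, 1, 0, true, false, 11, 86⟩,
  ⟨156843413906, 1, 2, false, true, 14, 55⟩, ⟨156843413906, 0, 2, false, true, 9, 55⟩,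
  ⟨75239035282, 0, 1, false, true, 7, 55⟩, ⟨75239035282, 0, 2, false, true, 7, 55⟩,
  ⟨40879296914, 2, 0, false, true, 14, 43⟩, ⟨40879296914, 1, 0, false, false, 9, 42⟩,
  ⟨40879296914, 1, 2, true, true, 8, 85⟩, ⟨36047458706, 2, 1, false, true, 15, 109⟩,
  ⟨19621552422, 2, 1, true, true, 11, 109⟩, ⟨107936817446, 2, 0, true, false, 8, 109⟩,
  ⟨104312938790, 0, 2, true, true, 11, 109⟩, ⟨27003527462, 0, 1, true, true, 5, 87⟩,
  ⟨147241638182, 1, 0, true, false, 11, 109⟩, ⟨39062149414, 2, 0, false, true, 14, 54⟩,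
  ⟨39062149414, 1, 0, false, true, 9, 54⟩, ⟨157173750054, 0, 2, false, true, 9, 85⟩,
  ⟨157173750054, 0, 1, true, true, 8, 85⟩, ⟨107936815398, 2, 0, true, false, 8, 109⟩,
  ⟨39217338662, 1, 2, true, true, 8, 109⟩, ⟨104312936742, 0, 2, true, true, 11, 109⟩,
  ⟨78485002534, 2, 0, true, false, 8, 109⟩, ⟨147204479270, 0, 1, true, true, 8, 109⟩,
  ⟨142372641062, 2, 0, true, false, 5, 85⟩, ⟨142372641062, 1, 0, false, false, 7, 42⟩,
  ⟨142372641062, 1, 2, false, true, 7, 42⟩, ⟨108012902694, 0, 2, true, true, 11, 87⟩,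
  ⟨26408524070, 0, 1, true, false, 5, 109⟩, ⟨26408524070, 2, 1, true, true, 11, 87⟩,
  ⟨39066933542, 0, 2, false, false, 16, 104⟩, ⟨77721639206, 1, 0, false, false, 16, 104⟩,
  ⟨77721639206, 0, 1, false, true, 14, 81⟩, ⟨77721639206, 2, 0, true, true, 8, 81⟩,
  ⟨19739580710, 2, 1, true, false, 11, 104⟩, ⟨157178534182, 0, 2, false, true, 9, 104⟩,
  ⟨19739580710, 1, 2, true, true, 8, 104⟩, ⟨105529886246, 1, 0, true, false, 5, 85⟩,
  ⟨105529886246, 0, 1, false, true, 7, 42⟩, ⟨105529886246, 0, 2, false, true, 7, 42⟩,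
  ⟨144184591910, 0, 1, false, true, 1, 85⟩, ⟨144184591910, 1, 0, true, false, 11, 85⟩,
  ⟨75465115174, 0, 1, false, false, 7, 54⟩, ⟨75465115174, 0, 2, false, true, 7, 54⟩,
  ⟨147204490790, 0, 1, true, true, 8, 109⟩, ⟨108012914214, 0, 2, true, true, 11, 87⟩,
  ⟨26408535590, 2, 1, true, true, 11, 87⟩, ⟨77617841702, 1, 0, false, false, 16, 109⟩,
  ⟨26078234150, 0, 1, true, false, 5, 109⟩, ⟨144189834790, 0, 1, false, true, 1, 85⟩,
  ⟨144189834790, 1, 0, true, false, 11, 85⟩, ⟨75470358054, 0, 1, false, true, 7, 54⟩,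
  ⟨75470358054, 0, 2, false, true, 7, 54⟩, ⟨19621250598, 2, 1, true, true, 11, 109⟩,
  ⟨105520596518, 1, 0, true, false, 5, 85⟩, ⟨105520596518, 0, 1, false, true, 7, 42⟩,
  ⟨105520596518, 0, 2, false, true, 7, 42⟩, ⟨27003225638, 0, 1, true, true, 5, 87⟩,
  ⟨75321607718, 0, 2, false, true, 7, 109⟩, ⟨78486210086, 2, 0, true, false, 8, 109⟩,
  ⟨142373848614, 1, 0, false, false, 7, 54⟩, ⟨142373848614, 1, 2, false, true, 7, 54⟩,
  ⟨108014110246, 0, 2, true, true, 11, 109⟩, ⟨142344488486, 2, 0, true, false, 5, 85⟩,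
  ⟨142344488486, 1, 0, false, false, 7, 42⟩, ⟨142344488486, 1, 2, false, true, 7, 42⟩,
  ⟨163819324966, 1, 0, false, false, 7, 54⟩, ⟨163819324966, 1, 2, false, true, 7, 54⟩,
  ⟨157175547430, 0, 1, true, true, 8, 109⟩, ⟨19736593958, 1, 2, true, true, 8, 109⟩]

theorem kc27 : keyChk 9317 8950 tri27 lv27 = true := by decide +kernel

end Pool.Agent.SqfBridge
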