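import Pool.Agent.SqfBridge.CertKeys
import Pool.Agent.SqfBridge.LeafKern

set_option autoImplicit false

namespace Pool.Agent.SqfBridge

def lv28 : List Leaf := [
  ⟨107786408518, 2, 0, true, false, 8, 75⟩, ⟨77721637446, 1, 0, false, false, 16, 75⟩,
  ⟨19739578950, 2, 1, true, false, 11, 73⟩, ⟨157178532422, 0, 2, false, true, 9, 57⟩,
  ⟨157178532422, 0, 1, true, true, 8, 57⟩, ⟨19739578950, 1, 2, true, true, 8, 73⟩,
  ⟨105521484358, 1, 0, true, false, 5, 59⟩, ⟨105521484358, 0, 1, false, true, 7, 30⟩,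
  ⟨105521484358, 0, 2, false, true, 7, 30⟩, ⟨78946374214, 1, 0, false, false, 16, 75⟩,
  ⟨78946374214, 0, 1, false, true, 14, 38⟩, ⟨78946374214, 2, 1, false, true, 9, 38⟩,
  ⟨147665850950, 0, 1, true, true, 8, 75⟩, ⟨39076631110, 0, 2, false, false, 16, 75⟩,
  ⟨39076631110, 2, 0, false, true, 14, 75⟩, ⟨77731336774, 0, 1, false, true, 14, 38⟩,
  ⟨77731336774, 2, 1, false, true, 9, 38⟩, ⟨163630682694, 1, 0, false, true, 15, 75⟩,
  ⟨147205788230, 1, 0, true, false, 11, 75⟩, ⟨78486311494, 2, 1, false, true, 9, 75⟩,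
  ⟨156869464646, 2, 1, false, false, 16, 75⟩, ⟨156869464646, 1, 2, false, true, 14, 75⟩,
  ⟨156267733574, 1, 2, false, true, 14, 38⟩, ⟨156267733574, 0, 2, false, true, 9, 38⟩,
  ⟨78958322246, 1, 0, false, false, 16, 75⟩, ⟨78958322246, 0, 1, false, true, 14, 38⟩,
  ⟨78958322246, 2, 1, false, true, 9, 38⟩, ⟨147208036934, 1, 0, true, false, 11, 75⟩,
  ⟨78488560198, 2, 1, false, true, 9, 59⟩, ⟨78488560198, 2, 0, true, false, 8, 59⟩,
  ⟨40907596358, 2, 0, false, true, 14, 59⟩, ⟨40907596358, 1, 2, true, true, 8, 59⟩,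
  ⟨105529893446, 1, 0, true, false, 5, 75⟩, ⟨144184599110, 1, 0, true, false, 11, 75⟩,
  ⟨75465122374, 0, 1, false, true, 7, 38⟩, ⟨75465122374, 0, 2, false, true, 7, 38⟩,
  ⟨78485021254, 2, 0, true, false, 8, 75⟩, ⟨26408542790, 0, 1, true, false, 5, 75⟩,
  ⟨26408542790, 2, 1, true, true, 11, 75⟩, ⟨19622158918, 2, 1, true, true, 11, 75⟩,
  ⟨39217947206, 1, 2, true, true, 8, 75⟩, ⟨78946394694, 0, 1, false, true, 14, 38⟩,
  ⟨78946394694, 2, 1, false, true, 9, 38⟩, ⟨147665871430, 0, 1, true, true, 8, 75⟩,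
  ⟨35593160262, 2, 0, false, false, 7, 35⟩, ⟨35593160262, 2, 1, false, true, 7, 35⟩,
  ⟨27003225670, 0, 1, true, true, 5, 54⟩, ⟨27003225670, 2, 0, false, false, 7, 27⟩,
  ⟨27003225670, 2, 1, false, true, 7, 27⟩, ⟨144041084486, 2, 0, true, false, 5, 69⟩,
  ⟨75321607750, 0, 2, false, true, 15, 69⟩, ⟨75321607750, 0, 2, false, true, 7, 69⟩,
  ⟨78486210118, 2, 1, false, true, 9, 54⟩, ⟨78486210118, 2, 0, true, false, 8, 54⟩,
  ⟨156869363270, 1, 2, false, true, 14, 35⟩, ⟨156869363270, 0, 2, false, true, 9, 35⟩,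
  ⟨142373848646, 1, 0, false, false, 7, 35⟩, ⟨142373848646, 1, 2, false, true, 7, 35⟩,
  ⟨108014110278, 0, 2, true, true, 11, 69⟩, ⟨142344488518, 2, 0, true, false, 5, 54⟩,
  ⟨142344488518, 1, 0, false, false, 7, 27⟩, ⟨142344488518, 1, 2, false, true, 7, 27⟩,
  ⟨26380371526, 2, 1, true, true, 11, 69⟩, ⟨163819324998, 1, 0, false, false, 7, 35⟩,
  ⟨163819324998, 1, 2, false, true, 7, 35⟩, ⟨147241666118, 1, 0, true, false, 11, 62⟩,
  ⟨26982581830, 0, 1, true, true, 5, 48⟩, ⟨26982581830, 2, 0, false, false, 7, 24⟩,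
  ⟨26982581830, 2, 1, false, false, 7, 24⟩, ⟨39062177350, 0, 2, false, false, 16, 62⟩,
  ⟨39062177350, 2, 0, false, true, 14, 62⟩, ⟨147208111686, 1, 0, true, false, 11, 60⟩,
  ⟨78488634950, 2, 1, false, true, 9, 47⟩, ⟨78488634950, 2, 0, true, false, 8, 47⟩,
  ⟨147208111686, 0, 1, true, true, 8, 60⟩, ⟨156871788102, 2, 1, false, false, 16, 62⟩,
  ⟨19432834630, 1, 2, true, true, 8, 61⟩, ⟨19621578310, 2, 1, true, true, 11, 61⟩,
  ⟨105520924230, 1, 0, true, false, 5, 47⟩, ⟨105520924230, 0, 1, false, true, 7, 23⟩,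
  ⟨105520924230, 0, 2, false, true, 7, 23⟩, ⟨144175629894, 2, 0, true, false, 5, 61⟩,
  ⟨107936843334, 2, 0, true, false, 8, 61⟩, ⟨39217366598, 1, 2, true, true, 8, 61⟩,
  ⟨19621552422, 2, 1, true, true, 11, 93⟩, ⟨144175604006, 2, 0, true, false, 5, 93⟩,
  ⟨144175604006, 1, 0, true, false, 11, 93⟩, ⟨107936817446, 2, 0, true, false, 8, 93⟩,
  ⟨104312938790, 2, 0, false, false, 1, 73⟩, ⟨104312938790, 0, 2, true, true, 11, 73⟩,
  ⟨27003527462, 0, 1, true, true, 5, 73⟩, ⟨27003527462, 2, 0, false, false, 7, 36⟩,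
  ⟨27003527462, 2, 1, false, true, 7, 36⟩, ⟨104305598758, 2, 0, false, false, 1, 73⟩,
  ⟨104305598758, 0, 2, true, true, 11, 73⟩, ⟨35586122022, 2, 0, false, false, 7, 46⟩,
  ⟨35586122022, 2, 1, false, true, 7, 46⟩, ⟨144034046246, 2, 0, true, false, 5, 93⟩,
  ⟨75314569510, 0, 2, false, true, 15, 93⟩, ⟨40954831142, 0, 2, false, false, 16, 93⟩,
  ⟨26073440550, 0, 1, true, false, 5, 93⟩, ⟨163512394022, 1, 0, false, true, 15, 93⟩,
  ⟨108013363494, 0, 2, true, true, 11, 93⟩, ⟨26408984870, 0, 1, true, false, 5, 93⟩,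
  ⟨26408984870, 2, 1, true, true, 11, 93⟩, ⟨147241638182, 1, 0, true, false, 11, 78⟩,
  ⟨26982553894, 2, 0, false, false, 7, 39⟩, ⟨26982553894, 2, 1, false, true, 7, 39⟩,
  ⟨39062149414, 2, 0, false, true, 14, 78⟩, ⟨107781626150, 2, 0, true, false, 8, 78⟩,
  ⟨157173750054, 0, 2, false, true, 9, 61⟩, ⟨157173750054, 0, 1, true, true, 8, 61⟩,
  ⟨144175601958, 2, 0, true, false, 5, 78⟩, ⟨144175601958, 1, 0, true, false, 11, 78⟩,
  ⟨107936815398, 2, 0, true, false, 8, 78⟩, ⟨39217338662, 1, 2, true, true, 8, 78⟩,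
  ⟨104312936742, 2, 0, false, false, 1, 61⟩, ⟨104312936742, 0, 2, true, true, 11, 61⟩,
  ⟨35593460006, 2, 0, false, false, 7, 39⟩, ⟨35593460006, 2, 1, false, true, 7, 39⟩,
  ⟨78485002534, 2, 0, true, false, 8, 78⟩, ⟨147204479270, 0, 1, true, true, 8, 78⟩,
  ⟨26408524070, 0, 1, true, false, 5, 78⟩, ⟨26408524070, 2, 1, true, true, 11, 78⟩,
  ⟨39066933542, 0, 2, false, false, 16, 78⟩, ⟨107786410278, 2, 0, true, false, 8, 78⟩,
  ⟨77721639206, 1, 0, false, false, 16, 78⟩, ⟨19739580710, 2, 1, true, false, 11, 78⟩,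
  ⟨157178534182, 0, 2, false, true, 9, 78⟩, ⟨19739580710, 1, 2, true, true, 8, 78⟩,
  ⟨107930327334, 0, 2, true, false, 11, 78⟩, ⟨107930327334, 2, 0, true, false, 8, 78⟩,
  ⟨39210850598, 1, 2, true, true, 8, 78⟩, ⟨156248709414, 1, 2, false, true, 14, 30⟩,
  ⟨156248709414, 0, 2, false, true, 9, 30⟩, ⟨156248709414, 0, 1, true, true, 8, 61⟩,
  ⟨147205789990, 1, 0, true, false, 11, 78⟩, ⟨78486313254, 2, 1, false, true, 9, 61⟩,
  ⟨78486313254, 2, 0, true, false, 8, 61⟩, ⟨156869466406, 2, 1, false, false, 16, 78⟩,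
  ⟨156869466406, 1, 2, false, true, 14, 78⟩, ⟨26078234150, 0, 1, true, false, 5, 97⟩,
  ⟨144189834790, 1, 0, true, true, 11, 97⟩, ⟨75470358054, 0, 1, false, true, 7, 48⟩,
  ⟨75470358054, 0, 2, false, true, 7, 48⟩, ⟨75237836326, 0, 1, false, true, 7, 48⟩,
  ⟨75237836326, 0, 2, false, true, 7, 48⟩, ⟨40878097958, 2, 0, false, true, 14, 97⟩,
  ⟨26382583334, 0, 2, true, true, 5, 97⟩, ⟨26382583334, 2, 1, true, true, 11, 97⟩,
  ⟨163821536806, 1, 0, false, false, 7, 48⟩, ⟨163821536806, 1, 2, false, true, 7, 48⟩,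
  ⟨156305344038, 2, 1, false, false, 16, 97⟩, ⟨104312751654, 2, 0, false, false, 1, 76⟩,
  ⟨104312751654, 0, 2, true, true, 11, 76⟩, ⟨35593274918, 2, 0, false, false, 7, 48⟩,
  ⟨35593274918, 2, 1, false, false, 7, 48⟩, ⟨27003340326, 0, 1, true, true, 5, 76⟩,
  ⟨27003340326, 2, 0, false, false, 7, 38⟩, ⟨27003340326, 2, 1, false, true, 7, 38⟩,
  ⟨144041199142, 2, 0, true, false, 5, 97⟩]

theorem kc28 : keyChk 9349 8950 tri28 lv28 = true := by decide +kernel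

def lv29 : List Leaf := [
  ⟨40878838369, 2, 0, false, true, 14, 48⟩, ⟨40878838369, 1, 0, false, true, 9, 48⟩,
  ⟨75238576737, 0, 2, false, true, 15, 96⟩, ⟨156842955361, 2, 1, false, false, 16, 96⟩,
  ⟨156842955361, 1, 2, false, true, 14, 48⟩, ⟨156842955361, 0, 2, false, true, 9, 48⟩,
  ⟨19739546209, 2, 1, true, false, 11, 96⟩, ⟨157178499681, 0, 1, true, false, 8, 96⟩,
  ⟨107786375777, 2, 0, true, true, 8, 96⟩, ⟨77721604705, 2, 1, false, false, 9, 75⟩,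
  ⟨77721604705, 2, 0, true, true, 8, 75⟩, ⟨77617795681, 1, 0, false, false, 16, 96⟩,
  ⟨156269384289, 2, 1, false, false, 16, 88⟩, ⟨156269384289, 1, 2, false, true, 14, 69⟩,
  ⟨156269384289, 0, 1, true, false, 8, 69⟩, ⟨36010300001, 2, 1, false, true, 15, 88⟩,
  ⟨36010300001, 2, 1, false, false, 7, 44⟩, ⟨36010300001, 2, 0, false, true, 7, 44⟩,
  ⟨40955384417, 0, 2, false, false, 16, 96⟩, ⟨75315122785, 0, 2, false, true, 15, 96⟩,
  ⟨75315122785, 0, 2, false, true, 7, 96⟩, ⟨147658478177, 0, 1, true, false, 8, 96⟩,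
  ⟨156248412769, 1, 2, false, true, 14, 38⟩, ⟨156248412769, 0, 2, false, true, 9, 38⟩,
  ⟨156248412769, 0, 1, true, false, 8, 75⟩, ⟨157175538273, 0, 1, true, false, 8, 84⟩,
  ⟨26984342113, 0, 1, true, false, 5, 66⟩, ⟨26984342113, 2, 1, false, false, 7, 33⟩,
  ⟨26984342113, 2, 0, false, true, 7, 33⟩, ⟨147243426401, 1, 0, true, true, 11, 84⟩,
  ⟨104293753441, 1, 2, true, false, 5, 84⟩, ⟨104293753441, 2, 0, false, true, 1, 66⟩,
  ⟨104293753441, 0, 2, true, true, 11, 66⟩, ⟨156248597089, 2, 1, false, false, 16, 84⟩,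
  ⟨156248597089, 1, 2, false, true, 14, 33⟩, ⟨156248597089, 0, 2, false, true, 9, 33⟩,
  ⟨156248597089, 0, 1, true, true, 8, 66⟩, ⟨107930215009, 0, 2, true, false, 11, 82⟩,
  ⟨39210738273, 1, 0, false, true, 9, 64⟩, ⟨39210738273, 1, 2, true, true, 8, 64⟩,
  ⟨107930215009, 2, 0, true, true, 8, 82⟩, ⟨108014101089, 0, 2, true, true, 11, 84⟩,
  ⟨142373839457, 2, 1, true, false, 5, 66⟩, ⟨142373839457, 1, 2, false, true, 7, 33⟩,
  ⟨142373839457, 1, 0, false, true, 7, 33⟩, ⟨147208036961, 1, 0, true, false, 11, 85⟩,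
  ⟨78488560225, 2, 1, false, true, 9, 67⟩, ⟨147208036961, 0, 1, true, false, 8, 85⟩,
  ⟨78488560225, 2, 0, true, true, 8, 67⟩, ⟨40907596385, 1, 0, false, true, 9, 69⟩,
  ⟨40907596385, 1, 2, true, true, 8, 69⟩, ⟨78958322273, 2, 1, false, true, 9, 88⟩,
  ⟨156267733601, 1, 2, false, true, 14, 44⟩, ⟨156267733601, 0, 2, false, true, 9, 43⟩,
  ⟨19734749793, 2, 1, true, false, 11, 87⟩, ⟨157173703265, 0, 2, false, true, 9, 68⟩,
  ⟨157173703265, 0, 1, true, false, 8, 68⟩, ⟨39062102625, 2, 0, false, true, 14, 87⟩,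
  ⟨107781579361, 2, 0, true, true, 8, 87⟩, ⟨156306531425, 2, 1, false, false, 16, 99⟩,
  ⟨36047447137, 2, 1, false, true, 15, 99⟩, ⟨36047447137, 2, 1, false, false, 7, 99⟩,
  ⟨156843402337, 2, 1, false, false, 16, 99⟩, ⟨156843402337, 1, 2, false, true, 14, 49⟩,
  ⟨156843402337, 0, 2, false, true, 9, 49⟩, ⟨39067346017, 0, 2, false, false, 16, 99⟩,
  ⟨77722051681, 1, 0, false, false, 16, 99⟩, ⟨77722051681, 2, 1, false, false, 9, 77⟩,
  ⟨77722051681, 2, 0, true, true, 8, 77⟩, ⟨147208037473, 1, 0, true, false, 11, 96⟩,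
  ⟨78488560737, 2, 1, false, true, 9, 75⟩, ⟨147208037473, 0, 1, true, false, 8, 96⟩,
  ⟨78488560737, 2, 0, true, true, 8, 75⟩, ⟨78958322785, 1, 0, false, false, 16, 99⟩,
  ⟨78958322785, 2, 1, false, true, 9, 99⟩, ⟨156267734113, 1, 2, false, true, 14, 49⟩,
  ⟨156267734113, 0, 2, false, true, 9, 49⟩, ⟨36008649825, 2, 1, false, true, 15, 99⟩,
  ⟨157173703777, 0, 2, false, true, 9, 77⟩, ⟨157173703777, 0, 1, true, true, 8, 77⟩,
  ⟨39062103137, 2, 0, false, true, 14, 99⟩, ⟨157173750049, 0, 2, false, true, 9, 61⟩,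
  ⟨157173750049, 0, 1, true, false, 8, 61⟩, ⟨39062149409, 2, 0, false, true, 14, 39⟩,
  ⟨39062149409, 1, 0, false, true, 9, 39⟩, ⟨107781626145, 2, 0, true, true, 8, 78⟩,
  ⟨27003525409, 0, 1, true, false, 5, 78⟩, ⟨104312936737, 2, 0, false, true, 1, 61⟩,
  ⟨104312936737, 0, 2, true, true, 11, 61⟩, ⟨35593460001, 2, 1, false, false, 7, 39⟩,
  ⟨35593460001, 2, 0, false, true, 7, 39⟩, ⟨144175601953, 2, 1, true, false, 5, 78⟩,
  ⟨144175601953, 0, 1, false, false, 1, 61⟩, ⟨144175601953, 1, 0, true, true, 11, 61⟩,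
  ⟨39217338657, 1, 2, true, true, 8, 78⟩, ⟨107936815393, 2, 0, true, true, 8, 78⟩,
  ⟨39076632865, 0, 2, false, false, 16, 76⟩, ⟨39076632865, 2, 0, false, true, 14, 38⟩,
  ⟨39076632865, 1, 0, false, true, 9, 38⟩, ⟨77731338529, 2, 1, false, false, 9, 76⟩,
  ⟨156248709409, 1, 2, false, true, 14, 29⟩, ⟨156248709409, 0, 2, false, true, 9, 29⟩,
  ⟨156248709409, 0, 1, true, false, 8, 59⟩, ⟨107930327329, 0, 2, true, false, 11, 76⟩,
  ⟨39210850593, 1, 0, false, true, 9, 59⟩, ⟨39210850593, 1, 2, true, true, 8, 59⟩,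
  ⟨147205789985, 1, 0, true, false, 11, 76⟩, ⟨78486313249, 2, 1, false, true, 9, 59⟩,
  ⟨78486313249, 2, 0, true, true, 8, 59⟩, ⟨156869466401, 2, 1, false, false, 16, 76⟩,
  ⟨156869466401, 1, 2, false, true, 14, 76⟩, ⟨108012902689, 0, 2, true, true, 11, 78⟩,
  ⟨142372641057, 2, 1, true, false, 5, 78⟩, ⟨26408524065, 0, 1, true, false, 5, 78⟩,
  ⟨26408524065, 1, 2, false, true, 1, 61⟩, ⟨26408524065, 2, 1, true, false, 11, 61⟩,
  ⟨147204479265, 0, 1, true, false, 8, 78⟩, ⟨147208112417, 1, 0, true, false, 11, 68⟩,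
  ⟨78488635681, 2, 1, false, true, 9, 53⟩, ⟨147208112417, 0, 1, true, false, 8, 68⟩,
  ⟨78488635681, 2, 0, true, true, 8, 53⟩, ⟨40907671841, 0, 2, false, false, 16, 70⟩,
  ⟨40907671841, 2, 0, false, true, 14, 27⟩, ⟨40907671841, 1, 0, false, true, 9, 27⟩,
  ⟨40907671841, 1, 2, true, true, 8, 54⟩, ⟨156871788833, 2, 1, false, false, 16, 70⟩,
  ⟨39062178081, 2, 0, false, true, 14, 39⟩, ⟨39062178081, 1, 0, false, true, 9, 39⟩,
  ⟨107781654817, 2, 0, true, true, 8, 78⟩, ⟨26982582561, 0, 1, true, false, 5, 61⟩,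
  ⟨26982582561, 2, 1, false, false, 7, 30⟩, ⟨26982582561, 2, 0, false, true, 7, 30⟩,
  ⟨78946339105, 1, 0, false, false, 16, 78⟩, ⟨147665815841, 0, 1, true, false, 8, 78⟩,
  ⟨107937368353, 0, 2, true, false, 11, 78⟩, ⟨39217891617, 1, 0, false, true, 9, 78⟩,
  ⟨40878836001, 1, 0, false, true, 9, 78⟩, ⟨75238574369, 0, 2, false, true, 15, 78⟩,
  ⟨39076333857, 0, 2, false, false, 16, 78⟩, ⟨39076333857, 1, 0, false, true, 9, 78⟩,
  ⟨163630385441, 1, 2, false, true, 7, 39⟩, ⟨163630385441, 1, 0, false, true, 7, 39⟩,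
  ⟨78938999073, 1, 0, false, false, 16, 78⟩, ⟨147658475809, 0, 1, true, false, 8, 78⟩,
  ⟨156248410401, 2, 1, false, false, 16, 78⟩, ⟨156248410401, 1, 2, false, true, 14, 30⟩,
  ⟨156248410401, 0, 2, false, true, 9, 30⟩, ⟨156248410401, 0, 1, true, false, 8, 61⟩]

theorem kc29 : keyChk 18714 8950 tri29 lv29 = true := by decide +kernel

def lv30 : List Leaf := [
  ⟨157173750054, 0, 2, false, true, 9, 73⟩, ⟨157173750054, 0, 1, true, false, 8, 73⟩,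
  ⟨107781626150, 2, 0, true, true, 8, 94⟩, ⟨26982553894, 2, 1, false, false, 7, 47⟩,
  ⟨26982553894, 2, 0, false, true, 7, 47⟩, ⟨144175601958, 2, 1, true, false, 5, 94⟩,
  ⟨144175601958, 0, 1, false, false, 1, 94⟩, ⟨39217338662, 1, 2, true, true, 8, 94⟩,
  ⟨107936815398, 2, 0, true, true, 8, 94⟩, ⟨156248709414, 0, 2, false, true, 9, 73⟩,
  ⟨156248709414, 0, 1, true, false, 8, 73⟩, ⟨107930327334, 0, 2, true, false, 11, 68⟩,
  ⟨39210850598, 1, 0, false, true, 9, 69⟩, ⟨39210850598, 1, 2, true, true, 8, 46⟩,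
  ⟨107930327334, 2, 0, true, true, 8, 49⟩, ⟨78486313254, 2, 1, false, true, 9, 73⟩,
  ⟨78486313254, 2, 0, true, true, 8, 73⟩, ⟨156869466406, 2, 1, false, false, 16, 94⟩,
  ⟨19430512934, 1, 2, true, true, 8, 94⟩, ⟨19739580710, 2, 1, true, false, 11, 90⟩,
  ⟨19739580710, 1, 2, true, true, 8, 90⟩, ⟨39066933542, 0, 2, false, false, 16, 90⟩,
  ⟨107786410278, 2, 0, true, true, 8, 90⟩, ⟨77721639206, 1, 0, false, false, 16, 90⟩,
  ⟨77721639206, 0, 1, false, true, 14, 35⟩, ⟨77721639206, 2, 1, false, false, 9, 35⟩,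
  ⟨77721639206, 2, 0, true, true, 8, 70⟩, ⟨108012902694, 0, 2, true, false, 11, 94⟩,
  ⟨142372641062, 2, 1, true, false, 5, 73⟩, ⟨142372641062, 1, 2, false, true, 7, 37⟩,
  ⟨142372641062, 1, 0, false, true, 7, 37⟩, ⟨26408524070, 0, 1, true, false, 5, 94⟩,
  ⟨26408524070, 1, 2, false, true, 1, 73⟩, ⟨26408524070, 2, 1, true, false, 11, 73⟩,
  ⟨78485002534, 2, 0, true, true, 8, 94⟩, ⟨104763384102, 1, 2, true, false, 5, 102⟩,
  ⟨36043907366, 2, 1, false, true, 15, 102⟩, ⟨36043907366, 2, 1, false, false, 7, 102⟩,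
  ⟨142344347942, 2, 1, true, false, 5, 80⟩, ⟨142344347942, 1, 2, false, true, 7, 40⟩,
  ⟨142344347942, 1, 0, false, true, 7, 40⟩, ⟨163819184422, 1, 2, false, true, 7, 51⟩,
  ⟨163819184422, 1, 0, false, true, 7, 51⟩, ⟨26984210726, 0, 1, true, false, 5, 80⟩,
  ⟨26984210726, 2, 1, false, false, 7, 40⟩, ⟨26984210726, 2, 0, false, true, 7, 40⟩,
  ⟨104293622054, 1, 2, true, false, 5, 102⟩, ⟨104293622054, 2, 0, false, true, 1, 102⟩,
  ⟨157175537958, 0, 1, true, false, 8, 102⟩, ⟨19736584486, 1, 2, true, true, 8, 102⟩,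
  ⟨26984341798, 0, 1, true, false, 5, 80⟩, ⟨26984341798, 2, 1, false, false, 7, 40⟩,
  ⟨26984341798, 2, 0, false, true, 7, 40⟩, ⟨104293753126, 1, 2, true, false, 5, 102⟩,
  ⟨78939185446, 1, 0, false, false, 16, 102⟩, ⟨147658662182, 0, 1, true, false, 8, 79⟩,
  ⟨107930214694, 0, 2, true, false, 11, 82⟩, ⟨39210737958, 1, 0, false, true, 9, 83⟩,
  ⟨39210737958, 1, 2, true, true, 8, 56⟩, ⟨107930214694, 2, 0, true, true, 8, 61⟩,
  ⟨104305598758, 2, 0, false, true, 1, 102⟩, ⟨35586122022, 2, 1, false, false, 7, 51⟩,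
  ⟨35586122022, 2, 0, false, true, 7, 51⟩, ⟨144034046246, 2, 1, true, false, 5, 102⟩,
  ⟨75314569510, 0, 2, false, true, 15, 102⟩, ⟨108013363494, 0, 2, true, true, 11, 102⟩,
  ⟨142373101862, 2, 1, true, false, 5, 102⟩, ⟨26408984870, 0, 1, true, false, 5, 102⟩,
  ⟨26408984870, 1, 2, false, true, 1, 80⟩, ⟨26408984870, 2, 1, true, false, 11, 80⟩,
  ⟨26073440550, 0, 1, true, false, 5, 102⟩, ⟨163512394022, 1, 0, false, true, 15, 102⟩,
  ⟨78939186310, 1, 0, false, false, 16, 111⟩, ⟨147658663046, 0, 1, true, false, 8, 91⟩,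
  ⟨156248597638, 1, 2, false, true, 14, 43⟩, ⟨156248597638, 0, 2, false, true, 9, 43⟩,
  ⟨156248597638, 0, 1, true, false, 8, 86⟩, ⟨39210738822, 1, 0, false, true, 9, 95⟩,
  ⟨39210738822, 1, 2, true, true, 8, 67⟩, ⟨107930215558, 2, 0, true, true, 8, 72⟩,
  ⟨142373840006, 2, 1, true, false, 5, 86⟩, ⟨142373840006, 1, 2, false, true, 7, 43⟩,
  ⟨142373840006, 1, 0, false, true, 7, 43⟩, ⟨156306531462, 2, 1, false, false, 16, 98⟩,
  ⟨36047447174, 2, 1, false, true, 15, 98⟩, ⟨36047447174, 2, 1, false, false, 7, 98⟩,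
  ⟨75239023750, 0, 2, false, true, 15, 98⟩, ⟨75239023750, 0, 1, false, false, 7, 49⟩,
  ⟨75239023750, 0, 2, false, true, 7, 49⟩, ⟨156843402374, 2, 1, false, false, 16, 98⟩,
  ⟨39067346054, 0, 2, false, false, 16, 98⟩, ⟨107786822790, 2, 0, true, true, 8, 98⟩,
  ⟨77722051718, 1, 0, false, false, 16, 98⟩, ⟨77722051718, 0, 1, false, true, 14, 38⟩,
  ⟨77722051718, 2, 1, false, false, 9, 38⟩, ⟨77722051718, 2, 0, true, true, 8, 77⟩,
  ⟨39076635782, 0, 2, false, false, 16, 111⟩, ⟨39076635782, 1, 0, false, true, 9, 111⟩,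
  ⟨163630687366, 1, 0, false, true, 15, 111⟩, ⟨77731341446, 0, 1, false, true, 14, 55⟩,
  ⟨77731341446, 2, 1, false, false, 9, 55⟩, ⟨147658777734, 0, 1, true, false, 8, 89⟩,
  ⟨156248712326, 1, 2, false, true, 14, 43⟩, ⟨156248712326, 0, 2, false, true, 9, 43⟩,
  ⟨156248712326, 0, 1, true, false, 8, 86⟩, ⟨107930330246, 0, 2, true, false, 11, 97⟩,
  ⟨39210853510, 1, 2, true, true, 8, 84⟩, ⟨107930330246, 2, 0, true, true, 8, 71⟩,
  ⟨40907449478, 2, 0, false, true, 14, 43⟩, ⟨40907449478, 1, 0, false, true, 9, 43⟩,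
  ⟨40907449478, 1, 2, true, true, 8, 86⟩, ⟨156871566470, 2, 1, false, false, 16, 111⟩,
  ⟨19432612998, 1, 2, true, true, 8, 111⟩, ⟨163515344006, 1, 0, false, true, 15, 111⟩,
  ⟨163515344006, 1, 0, false, true, 7, 111⟩, ⟨77615998086, 1, 0, false, false, 16, 111⟩,
  ⟨78946337926, 1, 0, false, false, 16, 114⟩, ⟨78946337926, 0, 1, false, true, 14, 114⟩,
  ⟨147665814662, 0, 1, true, false, 8, 114⟩, ⟨107937367174, 0, 2, true, false, 11, 114⟩,
  ⟨39217890438, 1, 0, false, true, 9, 89⟩, ⟨39217890438, 1, 2, true, true, 8, 89⟩,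
  ⟨40878834822, 2, 0, false, true, 14, 57⟩, ⟨40878834822, 1, 0, false, true, 9, 57⟩,
  ⟨156842951814, 2, 1, false, false, 16, 114⟩, ⟨156842951814, 1, 2, false, true, 14, 57⟩,
  ⟨156842951814, 0, 2, false, true, 9, 57⟩]

theorem kc30 : keyChk 18713 8950 tri30 lv30 = true := by decide +kernel

def lv31 : List Leaf := [
  ⟨163629799497, 1, 2, false, true, 7, 56⟩, ⟨163629799497, 1, 0, false, true, 7, 56⟩,
  ⟨77730453577, 2, 1, false, false, 9, 87⟩, ⟨77730453577, 2, 0, true, true, 8, 87⟩,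
  ⟨104305563721, 2, 0, false, true, 1, 87⟩, ⟨104305563721, 0, 2, true, true, 11, 87⟩,
  ⟨35586086985, 2, 1, false, false, 7, 56⟩, ⟨35586086985, 2, 0, false, true, 7, 56⟩,
  ⟨40954796105, 0, 2, false, false, 16, 112⟩, ⟨144185006153, 0, 1, false, false, 1, 87⟩,
  ⟨144185006153, 1, 0, true, true, 11, 87⟩, ⟨105530300489, 1, 2, true, true, 5, 87⟩,
  ⟨105530300489, 0, 1, false, false, 7, 44⟩, ⟨105530300489, 0, 2, false, true, 7, 44⟩,
  ⟨26073405513, 0, 1, true, false, 5, 112⟩, ⟨163512358985, 1, 0, false, true, 7, 112⟩,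
  ⟨108013361225, 0, 2, true, true, 11, 108⟩, ⟨142373099593, 2, 1, true, false, 5, 85⟩,
  ⟨142373099593, 1, 2, false, true, 7, 43⟩, ⟨142373099593, 1, 0, false, true, 7, 43⟩,
  ⟨26408982601, 0, 1, true, false, 5, 108⟩, ⟨26408982601, 1, 2, false, true, 1, 85⟩,
  ⟨26408982601, 2, 1, true, false, 11, 85⟩, ⟨105530333257, 1, 2, true, true, 5, 85⟩,
  ⟨105530333257, 0, 1, false, false, 7, 43⟩, ⟨105530333257, 0, 2, false, true, 7, 43⟩,
  ⟨26073438281, 0, 2, true, true, 5, 108⟩, ⟨163512391753, 1, 0, false, true, 15, 108⟩,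
  ⟨163512391753, 1, 0, false, true, 7, 108⟩, ⟨27003340873, 0, 1, true, false, 5, 87⟩,
  ⟨27003340873, 2, 1, false, false, 7, 44⟩, ⟨27003340873, 2, 0, false, true, 7, 44⟩,
  ⟨104312752201, 2, 0, false, true, 1, 87⟩, ⟨104312752201, 0, 2, true, true, 11, 87⟩,
  ⟨35593275465, 2, 1, false, false, 7, 56⟩, ⟨35593275465, 2, 0, false, true, 7, 56⟩,
  ⟨144041199689, 2, 1, true, false, 5, 112⟩, ⟨75321722953, 0, 2, false, true, 7, 112⟩,
  ⟨40878098505, 0, 2, false, false, 16, 112⟩, ⟨40878098505, 2, 0, false, true, 14, 44⟩,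
  ⟨40878098505, 1, 0, false, true, 9, 44⟩, ⟨40878098505, 1, 2, true, true, 8, 87⟩,
  ⟨75237836873, 0, 1, false, false, 7, 56⟩, ⟨75237836873, 0, 2, false, true, 7, 56⟩,
  ⟨144189835337, 0, 1, false, false, 1, 87⟩, ⟨144189835337, 1, 0, true, true, 11, 87⟩,
  ⟨75470358601, 0, 1, false, false, 7, 56⟩, ⟨75470358601, 0, 2, false, true, 7, 56⟩,
  ⟨26078234697, 0, 1, true, false, 5, 112⟩, ⟨163517188169, 1, 0, false, true, 15, 112⟩,
  ⟨104763377737, 1, 2, true, false, 5, 112⟩, ⟨36043901001, 2, 1, false, true, 15, 112⟩,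
  ⟨142344341577, 1, 2, false, true, 7, 56⟩, ⟨142344341577, 1, 0, false, true, 7, 56⟩,
  ⟨104293615689, 1, 2, true, false, 5, 112⟩, ⟨104293615689, 2, 0, false, true, 1, 87⟩,
  ⟨104293615689, 0, 2, true, true, 11, 87⟩, ⟨39067339145, 0, 2, false, false, 16, 119⟩,
  ⟨107786815881, 2, 0, true, true, 8, 119⟩, ⟨77722044809, 0, 1, false, true, 14, 47⟩,
  ⟨77722044809, 2, 1, false, false, 9, 47⟩, ⟨77722044809, 2, 0, true, true, 8, 93⟩,
  ⟨163629779337, 1, 0, false, true, 15, 119⟩, ⟨163629779337, 1, 2, false, true, 7, 60⟩,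
  ⟨163629779337, 1, 0, false, true, 7, 60⟩, ⟨77730433417, 0, 1, false, true, 14, 93⟩,
  ⟨77730433417, 2, 0, true, true, 8, 93⟩, ⟨104305543561, 1, 0, true, true, 5, 119⟩,
  ⟨35586066825, 2, 1, false, false, 7, 60⟩, ⟨35586066825, 2, 0, false, true, 7, 59⟩,
  ⟨144033991049, 2, 1, true, false, 5, 118⟩, ⟨40907590025, 2, 0, false, true, 14, 46⟩,
  ⟨40907590025, 1, 0, false, true, 9, 46⟩, ⟨40907590025, 1, 2, true, true, 8, 92⟩,
  ⟨19432753545, 1, 2, true, true, 8, 118⟩, ⟨78958315913, 1, 0, false, false, 16, 118⟩,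
  ⟨156267727241, 1, 2, false, true, 14, 59⟩, ⟨156267727241, 0, 2, false, true, 9, 59⟩,
  ⟨36008642953, 2, 1, false, true, 15, 118⟩, ⟨144189788553, 2, 1, true, false, 5, 118⟩,
  ⟨75470311817, 0, 1, false, false, 7, 59⟩, ⟨75470311817, 0, 2, false, true, 7, 59⟩,
  ⟨26078187913, 0, 1, true, false, 5, 118⟩, ⟨156269384073, 2, 1, false, false, 16, 118⟩,
  ⟨36010299785, 2, 1, false, true, 15, 118⟩, ⟨36010299785, 2, 1, false, false, 7, 59⟩,
  ⟨36010299785, 2, 0, false, true, 7, 59⟩, ⟨75315122569, 0, 2, false, true, 7, 118⟩,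
  ⟨78939001225, 1, 0, false, false, 16, 118⟩, ⟨147658477961, 0, 1, true, false, 8, 118⟩,
  ⟨156248412553, 1, 2, false, true, 14, 59⟩, ⟨156248412553, 0, 2, false, true, 9, 59⟩,
  ⟨108013363593, 0, 2, true, true, 11, 103⟩, ⟨142373101961, 2, 1, true, false, 5, 80⟩,
  ⟨142373101961, 1, 2, false, true, 7, 40⟩, ⟨142373101961, 1, 0, false, true, 7, 40⟩,
  ⟨26408984969, 0, 1, true, false, 5, 103⟩, ⟨26408984969, 1, 2, false, true, 1, 103⟩,
  ⟨27003527561, 0, 1, true, false, 5, 80⟩, ⟨27003527561, 2, 1, false, false, 7, 40⟩,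
  ⟨27003527561, 2, 0, false, true, 7, 40⟩, ⟨104312938889, 2, 0, false, true, 1, 80⟩,
  ⟨104312938889, 0, 2, true, true, 11, 80⟩, ⟨35593462153, 2, 1, false, false, 7, 51⟩,
  ⟨35593462153, 2, 0, false, false, 7, 51⟩, ⟨144175604105, 2, 1, true, false, 5, 103⟩,
  ⟨144175604105, 0, 1, false, false, 1, 80⟩, ⟨144175604105, 1, 0, true, true, 11, 80⟩,
  ⟨19621552521, 2, 1, true, false, 11, 103⟩, ⟨144189759881, 2, 1, true, false, 5, 86⟩,
  ⟨144189759881, 0, 1, false, false, 1, 67⟩, ⟨144189759881, 1, 0, true, true, 11, 67⟩,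
  ⟨75470283145, 0, 1, false, false, 7, 43⟩, ⟨75470283145, 0, 2, false, true, 7, 43⟩,
  ⟨156269355401, 2, 1, false, false, 16, 89⟩, ⟨156269355401, 1, 2, false, true, 14, 34⟩,
  ⟨156269355401, 0, 2, false, true, 9, 34⟩, ⟨156269355401, 0, 1, true, false, 8, 69⟩,
  ⟨36010271113, 2, 1, false, false, 7, 44⟩, ⟨36010271113, 2, 0, false, true, 7, 44⟩,
  ⟨104763302281, 1, 2, true, false, 5, 85⟩, ⟨36043825545, 2, 1, false, true, 15, 85⟩,
  ⟨36043825545, 2, 1, false, false, 7, 85⟩, ⟨142344266121, 2, 1, true, false, 5, 66⟩,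
  ⟨142344266121, 1, 2, false, true, 7, 33⟩, ⟨142344266121, 1, 0, false, true, 7, 33⟩,
  ⟨26380149129, 2, 1, true, false, 11, 85⟩, ⟨163819102601, 1, 2, false, true, 7, 42⟩,
  ⟨163819102601, 1, 0, false, false, 7, 42⟩]

theorem kc31 : keyChk 18534 8950 tri31 lv31 = true := by decide +kernel

end Pool.Agent.SqfBridge
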