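import Pool.Agent.SqfBridge.CertKeys
import Pool.Agent.SqfBridge.LeafKern

set_option autoImplicit false

namespace Pool.Agent.SqfBridge

def lv32 : List Leaf := [
  ⟨157173750054, 0, 2, false, true, 9, 68⟩, ⟨157173750054, 0, 1, true, false, 8, 68⟩,
  ⟨39062149414, 2, 0, false, true, 14, 44⟩, ⟨39062149414, 1, 0, false, true, 9, 44⟩,
  ⟨107781626150, 2, 0, true, true, 8, 87⟩, ⟨26982553894, 2, 1, false, false, 7, 44⟩,
  ⟨26982553894, 2, 0, false, true, 7, 44⟩, ⟨147241638182, 1, 0, true, true, 11, 87⟩,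
  ⟨104312936742, 2, 0, false, true, 1, 68⟩, ⟨104312936742, 0, 2, true, true, 11, 68⟩,
  ⟨35593460006, 2, 1, false, false, 7, 44⟩, ⟨35593460006, 2, 0, false, true, 7, 44⟩,
  ⟨144175601958, 2, 1, true, false, 5, 87⟩, ⟨144175601958, 0, 1, false, false, 1, 68⟩,
  ⟨144175601958, 1, 0, true, true, 11, 68⟩, ⟨39217338662, 1, 2, true, true, 8, 87⟩,
  ⟨157178534182, 0, 2, false, true, 9, 87⟩, ⟨19739580710, 1, 2, true, true, 8, 87⟩,
  ⟨77721639206, 1, 0, false, false, 16, 87⟩, ⟨77721639206, 0, 1, false, true, 14, 34⟩,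
  ⟨77721639206, 2, 1, false, false, 9, 34⟩, ⟨77721639206, 2, 0, true, true, 8, 68⟩,
  ⟨108012902694, 0, 2, true, true, 11, 87⟩, ⟨142372641062, 2, 1, true, false, 5, 87⟩,
  ⟨26408524070, 0, 1, true, false, 5, 87⟩, ⟨26408524070, 1, 2, false, true, 1, 51⟩,
  ⟨147204479270, 0, 1, true, false, 8, 87⟩, ⟨78485002534, 2, 0, true, true, 8, 87⟩,
  ⟨157175537958, 0, 1, true, false, 8, 85⟩, ⟨26984341798, 0, 1, true, false, 5, 67⟩,
  ⟨26984341798, 2, 1, false, false, 7, 34⟩, ⟨26984341798, 2, 0, false, true, 7, 34⟩,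
  ⟨147243426086, 1, 0, true, true, 11, 85⟩, ⟨104293753126, 1, 2, true, false, 5, 85⟩,
  ⟨104293753126, 0, 2, true, true, 11, 85⟩, ⟨78939185446, 1, 0, false, false, 16, 85⟩,
  ⟨147658662182, 0, 1, true, false, 8, 85⟩, ⟨107930214694, 0, 2, true, false, 11, 85⟩,
  ⟨39210737958, 1, 0, false, true, 9, 67⟩, ⟨39210737958, 1, 2, true, true, 8, 67⟩,
  ⟨108014100774, 0, 2, true, true, 11, 85⟩, ⟨142373839142, 2, 1, true, false, 5, 85⟩,
  ⟨156869353766, 2, 1, false, false, 16, 85⟩, ⟨19430400294, 1, 2, true, true, 8, 85⟩,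
  ⟨104305598758, 2, 0, false, true, 1, 68⟩, ⟨104305598758, 0, 2, true, true, 11, 68⟩,
  ⟨35586122022, 2, 1, false, false, 7, 44⟩, ⟨35586122022, 2, 0, false, true, 7, 44⟩,
  ⟨144034046246, 2, 1, true, false, 5, 87⟩, ⟨75314569510, 0, 2, false, true, 15, 87⟩,
  ⟨27003527462, 0, 1, true, false, 5, 68⟩, ⟨27003527462, 2, 1, false, false, 7, 34⟩,
  ⟨27003527462, 2, 0, false, true, 7, 34⟩, ⟨104312938790, 2, 0, false, true, 1, 68⟩,
  ⟨104312938790, 0, 2, true, true, 11, 68⟩, ⟨144175604006, 2, 1, true, false, 5, 87⟩,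
  ⟨144175604006, 0, 1, false, false, 1, 68⟩, ⟨144175604006, 1, 0, true, false, 11, 68⟩,
  ⟨108012914214, 0, 2, true, true, 11, 87⟩, ⟨26408535590, 1, 2, false, true, 1, 51⟩,
  ⟨147204490790, 0, 1, true, false, 8, 87⟩, ⟨75465115174, 0, 1, false, false, 7, 44⟩,
  ⟨75465115174, 0, 2, false, true, 7, 44⟩, ⟨105529886246, 1, 2, true, true, 5, 68⟩,
  ⟨105529886246, 0, 1, false, false, 7, 34⟩, ⟨105529886246, 0, 2, false, true, 7, 34⟩,
  ⟨144189834790, 0, 1, false, false, 1, 67⟩, ⟨144189834790, 1, 0, true, true, 11, 67⟩,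
  ⟨75470358054, 0, 1, false, false, 7, 43⟩, ⟨75470358054, 0, 2, false, true, 7, 43⟩,
  ⟨26078234150, 0, 1, true, false, 5, 86⟩, ⟨77617841702, 1, 0, false, false, 16, 86⟩,
  ⟨142344488486, 2, 1, true, false, 5, 86⟩, ⟨26380371494, 1, 2, false, true, 1, 86⟩,
  ⟨163819324966, 1, 2, false, true, 7, 43⟩, ⟨163819324966, 1, 0, false, true, 7, 43⟩,
  ⟨108014110246, 0, 2, true, true, 11, 86⟩, ⟨78486210086, 2, 1, false, true, 9, 67⟩,
  ⟨78486210086, 2, 0, true, true, 8, 67⟩, ⟨27003225638, 0, 1, true, false, 5, 67⟩,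
  ⟨27003225638, 2, 1, false, false, 7, 33⟩, ⟨27003225638, 2, 0, false, true, 7, 33⟩,
  ⟨35593160230, 2, 1, false, false, 7, 43⟩, ⟨35593160230, 2, 0, false, true, 7, 43⟩,
  ⟨75321607718, 0, 2, false, true, 15, 86⟩, ⟨75321607718, 0, 2, false, true, 7, 86⟩,
  ⟨144175302182, 2, 1, true, false, 5, 86⟩, ⟨144175302182, 1, 0, true, true, 11, 86⟩,
  ⟨105520596518, 1, 2, true, true, 5, 67⟩, ⟨105520596518, 0, 1, false, false, 7, 33⟩,
  ⟨105520596518, 0, 2, false, true, 7, 33⟩, ⟨104305600018, 2, 0, false, true, 1, 77⟩,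
  ⟨104305600018, 0, 2, true, true, 11, 77⟩, ⟨35586123282, 2, 1, false, false, 7, 49⟩,
  ⟨35586123282, 2, 0, false, true, 7, 49⟩, ⟨144034047506, 2, 1, true, false, 5, 99⟩,
  ⟨75314570770, 0, 2, false, true, 15, 99⟩, ⟨142373103122, 2, 1, true, false, 5, 99⟩,
  ⟨26408986130, 0, 1, true, false, 5, 99⟩, ⟨26408986130, 1, 2, false, true, 1, 66⟩,
  ⟨105530336786, 1, 2, true, true, 5, 77⟩, ⟨105530336786, 0, 1, false, false, 7, 38⟩,
  ⟨105530336786, 0, 2, false, true, 7, 38⟩, ⟨39076308498, 2, 0, false, true, 14, 49⟩,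
  ⟨39076308498, 1, 0, false, true, 9, 49⟩, ⟨75315095058, 0, 2, false, true, 15, 99⟩,
  ⟨75315095058, 0, 2, false, true, 7, 99⟩, ⟨40907449874, 2, 0, false, true, 14, 49⟩,
  ⟨40907449874, 1, 0, false, true, 9, 49⟩, ⟨19432613394, 1, 2, true, true, 8, 99⟩,
  ⟨163515344402, 1, 0, false, true, 7, 99⟩, ⟨78958175762, 0, 1, false, true, 14, 49⟩,
  ⟨78958175762, 2, 1, false, true, 9, 49⟩, ⟨26382575122, 0, 2, true, true, 5, 99⟩,
  ⟨163821528594, 1, 2, false, true, 7, 49⟩, ⟨163821528594, 1, 0, false, true, 7, 49⟩,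
  ⟨75237828114, 0, 2, false, true, 15, 99⟩, ⟨75237828114, 0, 1, false, false, 7, 49⟩,
  ⟨75237828114, 0, 2, false, true, 7, 49⟩, ⟨27003340306, 0, 1, true, false, 5, 62⟩,
  ⟨27003340306, 2, 1, false, false, 7, 31⟩, ⟨27003340306, 2, 0, false, true, 7, 31⟩,
  ⟨104312751634, 0, 2, true, true, 11, 80⟩, ⟨35593274898, 2, 1, false, false, 7, 40⟩,
  ⟨35593274898, 2, 0, false, true, 7, 40⟩, ⟨144041199122, 2, 1, true, false, 5, 80⟩,
  ⟨75321722386, 0, 2, false, true, 15, 80⟩, ⟨75321722386, 0, 2, false, true, 7, 80⟩,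
  ⟨26382583314, 0, 2, true, true, 5, 83⟩, ⟨26382583314, 1, 2, false, true, 1, 83⟩,
  ⟨163821536786, 1, 2, false, true, 7, 41⟩, ⟨163821536786, 1, 0, false, true, 7, 41⟩,
  ⟨108012914194, 0, 2, true, true, 11, 83⟩, ⟨26408535570, 0, 1, true, false, 5, 83⟩,
  ⟨26408535570, 1, 2, false, true, 1, 46⟩, ⟨75465115154, 0, 1, false, false, 7, 41⟩,
  ⟨75465115154, 0, 2, false, true, 7, 41⟩, ⟨105529886226, 1, 2, true, true, 5, 65⟩,
  ⟨105529886226, 0, 1, false, false, 7, 32⟩, ⟨105529886226, 0, 2, false, true, 7, 32⟩,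
  ⟨144189834770, 0, 1, false, false, 1, 65⟩, ⟨144189834770, 1, 0, true, true, 11, 65⟩,
  ⟨75470358034, 0, 1, false, false, 7, 41⟩, ⟨75470358034, 0, 2, false, true, 7, 41⟩,
  ⟨26078234130, 0, 1, true, false, 5, 83⟩, ⟨163517187602, 1, 0, false, true, 15, 83⟩,
  ⟨77617841682, 1, 0, false, false, 16, 83⟩, ⟨26984203794, 0, 1, true, false, 5, 65⟩,
  ⟨26984203794, 2, 1, false, false, 7, 32⟩, ⟨26984203794, 2, 0, false, true, 7, 32⟩,
  ⟨147243288082, 1, 0, true, true, 11, 83⟩, ⟨104293615122, 1, 2, true, false, 5, 83⟩,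
  ⟨104293615122, 2, 0, false, true, 1, 83⟩]

theorem kc32 : keyChk 18533 8950 tri32 lv32 = true := by decide +kernel

def lv33 : List Leaf := [
  ⟨147243440274, 1, 0, true, true, 11, 94⟩, ⟨104293767314, 2, 0, false, true, 1, 73⟩,
  ⟨104293767314, 0, 2, true, false, 11, 73⟩, ⟨26380376210, 1, 2, false, false, 1, 51⟩,
  ⟨26380376210, 2, 1, true, true, 11, 94⟩, ⟨36046149778, 2, 1, false, true, 15, 94⟩,
  ⟨156305234066, 2, 1, false, false, 16, 94⟩, ⟨144041089170, 2, 0, true, false, 5, 94⟩,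
  ⟨75321612434, 0, 2, false, true, 15, 94⟩, ⟨144175306898, 2, 0, true, false, 5, 94⟩,
  ⟨144175306898, 0, 1, false, true, 1, 73⟩, ⟨144175306898, 1, 0, true, true, 11, 73⟩,
  ⟨78946375826, 1, 0, false, false, 16, 94⟩, ⟨78946375826, 2, 1, false, true, 9, 94⟩,
  ⟨147665852562, 0, 1, true, true, 8, 94⟩, ⟨105521485970, 0, 2, false, false, 7, 47⟩,
  ⟨105521485970, 0, 1, false, true, 7, 47⟩, ⟨26408523922, 2, 1, true, true, 11, 94⟩,
  ⟨108012902546, 0, 2, true, false, 11, 94⟩, ⟨142372640914, 2, 0, true, true, 5, 73⟩,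
  ⟨142372640914, 1, 2, false, false, 7, 37⟩, ⟨142372640914, 1, 0, false, true, 7, 37⟩,
  ⟨147204479122, 0, 1, true, true, 8, 94⟩, ⟨105530333330, 0, 2, false, false, 7, 47⟩,
  ⟨105530333330, 0, 1, false, true, 7, 47⟩, ⟨163512391826, 1, 0, false, true, 7, 94⟩,
  ⟨26408982674, 1, 2, false, false, 1, 73⟩, ⟨26408982674, 2, 1, true, true, 11, 73⟩,
  ⟨108013361298, 0, 2, true, false, 11, 94⟩, ⟨142373099666, 2, 0, true, true, 5, 73⟩,
  ⟨142373099666, 1, 2, false, false, 7, 37⟩, ⟨142373099666, 1, 0, false, true, 7, 37⟩,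
  ⟨36010271122, 2, 0, false, true, 7, 47⟩, ⟨36010271122, 2, 1, false, true, 7, 47⟩,
  ⟨156269355410, 1, 2, false, true, 14, 37⟩, ⟨156269355410, 0, 2, false, false, 9, 37⟩,
  ⟨156269355410, 0, 1, true, true, 8, 73⟩, ⟨144189759890, 2, 1, true, true, 5, 94⟩,
  ⟨144189759890, 0, 1, false, true, 1, 73⟩, ⟨144189759890, 1, 0, true, true, 11, 73⟩,
  ⟨77617766802, 1, 0, false, false, 16, 94⟩, ⟨26380149138, 1, 2, false, false, 1, 51⟩,
  ⟨26380149138, 2, 1, true, true, 11, 94⟩, ⟨163819102610, 1, 2, false, false, 7, 94⟩,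
  ⟨36043825554, 2, 1, false, true, 7, 94⟩, ⟨147243295122, 1, 0, true, true, 11, 94⟩,
  ⟨26984210834, 2, 0, false, true, 7, 47⟩, ⟨26984210834, 2, 1, false, true, 7, 47⟩,
  ⟨104293622162, 2, 0, false, true, 1, 73⟩, ⟨104293622162, 0, 2, true, false, 11, 73⟩,
  ⟨163819184530, 1, 2, false, false, 7, 47⟩, ⟨163819184530, 1, 0, false, true, 7, 47⟩,
  ⟨36043907474, 2, 1, false, true, 15, 94⟩, ⟨36043907474, 2, 1, false, true, 7, 94⟩,
  ⟨39217947026, 1, 0, false, true, 9, 94⟩, ⟨105521504658, 0, 2, false, false, 7, 47⟩,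
  ⟨105521504658, 0, 1, false, true, 7, 47⟩, ⟨105529893266, 0, 2, false, false, 7, 47⟩,
  ⟨105529893266, 0, 1, false, true, 7, 47⟩, ⟨147204497810, 0, 1, true, true, 8, 94⟩,
  ⟨36047458706, 2, 1, false, true, 15, 94⟩, ⟨36047458706, 2, 1, false, true, 7, 94⟩,
  ⟨156843413906, 1, 2, false, true, 14, 47⟩, ⟨156843413906, 0, 2, false, true, 9, 47⟩,
  ⟨40879296914, 2, 0, false, true, 14, 46⟩, ⟨40879296914, 1, 0, false, true, 9, 46⟩,
  ⟨75239035282, 0, 2, false, true, 15, 93⟩, ⟨105530298770, 0, 2, false, false, 7, 46⟩,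
  ⟨105530298770, 0, 1, false, true, 7, 46⟩, ⟨144185004434, 0, 1, false, true, 1, 72⟩,
  ⟨144185004434, 1, 0, true, true, 11, 72⟩, ⟨163512357266, 1, 0, false, true, 15, 93⟩,
  ⟨163512357266, 1, 0, false, true, 7, 93⟩, ⟨77730451858, 1, 0, false, false, 16, 86⟩,
  ⟨77730451858, 2, 1, false, true, 9, 67⟩, ⟨77730451858, 2, 0, true, true, 8, 67⟩,
  ⟨163629797778, 1, 0, false, true, 15, 86⟩, ⟨163629797778, 1, 2, false, false, 7, 43⟩,
  ⟨163629797778, 1, 0, false, true, 7, 43⟩, ⟨108014110246, 0, 2, true, false, 11, 98⟩,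
  ⟨142373848614, 1, 2, false, false, 7, 49⟩, ⟨142373848614, 1, 0, false, true, 7, 49⟩,
  ⟨157175547430, 0, 1, true, true, 8, 98⟩, ⟨26380371494, 1, 2, false, false, 1, 72⟩,
  ⟨163819324966, 1, 2, false, false, 7, 49⟩, ⟨163819324966, 1, 0, false, true, 7, 49⟩,
  ⟨27003225638, 2, 0, false, true, 7, 49⟩, ⟨27003225638, 2, 1, false, true, 7, 49⟩,
  ⟨35593160230, 2, 0, false, true, 7, 49⟩, ⟨35593160230, 2, 1, false, true, 7, 49⟩,
  ⟨105520596518, 0, 2, false, false, 7, 49⟩, ⟨105520596518, 0, 1, false, true, 7, 49⟩,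
  ⟨144175302182, 2, 0, true, false, 5, 98⟩, ⟨144175302182, 0, 1, false, true, 1, 77⟩,
  ⟨144175302182, 1, 0, true, true, 11, 77⟩, ⟨144189834790, 0, 1, false, true, 1, 77⟩,
  ⟨144189834790, 1, 0, true, true, 11, 77⟩, ⟨26382583334, 1, 2, false, false, 1, 77⟩,
  ⟨26382583334, 2, 1, true, true, 11, 77⟩, ⟨163821536806, 1, 2, false, false, 7, 49⟩,
  ⟨163821536806, 1, 0, false, true, 7, 49⟩, ⟨156305344038, 2, 1, false, false, 16, 98⟩,
  ⟨40878097958, 2, 0, false, true, 14, 49⟩, ⟨40878097958, 1, 0, false, true, 9, 49⟩,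
  ⟨144041199142, 2, 0, true, false, 5, 98⟩, ⟨27003340326, 2, 0, false, true, 7, 49⟩,
  ⟨27003340326, 2, 1, false, true, 7, 49⟩, ⟨104312751654, 2, 0, false, true, 1, 77⟩,
  ⟨104312751654, 0, 2, true, false, 11, 77⟩, ⟨35593274918, 2, 0, false, true, 7, 49⟩,
  ⟨35593274918, 2, 1, false, false, 7, 49⟩, ⟨19739580710, 2, 1, true, false, 11, 98⟩,
  ⟨157178534182, 0, 2, false, true, 9, 98⟩, ⟨77721639206, 1, 0, false, false, 16, 98⟩,
  ⟨77721639206, 2, 1, false, true, 9, 77⟩, ⟨77721639206, 2, 0, true, true, 8, 77⟩,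
  ⟨107786410278, 2, 0, true, true, 8, 98⟩, ⟨26408524070, 1, 2, false, false, 1, 77⟩,
  ⟨26408524070, 2, 1, true, true, 11, 77⟩, ⟨142372641062, 2, 0, true, true, 5, 77⟩,
  ⟨142372641062, 1, 2, false, false, 7, 38⟩, ⟨142372641062, 1, 0, false, true, 7, 38⟩,
  ⟨147204479270, 0, 1, true, true, 8, 98⟩, ⟨108014110278, 0, 2, true, false, 11, 98⟩,
  ⟨142373848646, 1, 2, false, false, 7, 49⟩, ⟨142373848646, 1, 0, false, true, 7, 49⟩,
  ⟨156869363270, 1, 2, false, true, 14, 49⟩, ⟨156869363270, 0, 2, false, true, 9, 49⟩,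
  ⟨26380371526, 1, 2, false, false, 1, 56⟩, ⟨26380371526, 2, 1, true, true, 11, 97⟩,
  ⟨163819324998, 1, 2, false, false, 7, 49⟩, ⟨163819324998, 1, 0, false, true, 7, 49⟩,
  ⟨107936843334, 2, 0, true, true, 8, 98⟩, ⟨105520924230, 0, 2, false, false, 7, 49⟩,
  ⟨105520924230, 0, 1, false, true, 7, 49⟩, ⟨144175629894, 2, 0, true, false, 5, 98⟩,
  ⟨156871788102, 2, 1, false, false, 16, 98⟩, ⟨147208111686, 1, 0, true, false, 11, 98⟩,
  ⟨147208111686, 0, 1, true, true, 8, 98⟩, ⟨147241666118, 1, 0, true, true, 11, 98⟩,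
  ⟨26982581830, 2, 0, false, true, 7, 49⟩, ⟨26982581830, 2, 1, false, false, 7, 49⟩,
  ⟨39062177350, 2, 0, false, true, 14, 49⟩, ⟨39062177350, 1, 0, false, true, 9, 49⟩]

theorem kc33 : keyChk 37253 8950 tri33 lv33 = true := by decide +kernel

def lv34 : List Leaf := [
  ⟨104763377737, 1, 0, true, false, 5, 114⟩, ⟨36043901001, 2, 1, false, true, 15, 114⟩,
  ⟨104293615689, 1, 0, true, false, 5, 114⟩, ⟨104293615689, 0, 2, true, true, 11, 114⟩,
  ⟨26984204361, 0, 1, true, true, 5, 89⟩, ⟨26984204361, 2, 0, false, false, 7, 45⟩,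
  ⟨26984204361, 2, 1, false, true, 7, 45⟩, ⟨77617842249, 1, 0, false, false, 16, 114⟩,
  ⟨26078234697, 0, 1, true, false, 5, 114⟩, ⟨144189835337, 0, 1, false, true, 1, 89⟩,
  ⟨144189835337, 1, 0, true, false, 11, 89⟩, ⟨75470358601, 0, 2, false, true, 7, 114⟩,
  ⟨107936815177, 2, 0, true, false, 8, 114⟩, ⟨39217338441, 1, 2, true, true, 8, 114⟩,
  ⟨35593459785, 2, 0, false, false, 7, 57⟩, ⟨35593459785, 2, 1, false, true, 7, 57⟩,
  ⟨27003525193, 0, 1, true, true, 5, 89⟩, ⟨27003525193, 2, 0, false, false, 7, 45⟩,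
  ⟨27003525193, 2, 1, false, true, 7, 45⟩, ⟨142344493129, 2, 0, true, false, 5, 89⟩,
  ⟨142344493129, 1, 0, false, false, 7, 45⟩, ⟨142344493129, 1, 2, false, true, 7, 45⟩,
  ⟨26380376137, 1, 2, false, true, 1, 89⟩, ⟨26380376137, 2, 1, true, true, 11, 89⟩,
  ⟨163819329609, 1, 0, false, false, 7, 57⟩, ⟨163819329609, 1, 2, false, false, 7, 57⟩,
  ⟨104293767241, 0, 2, true, true, 11, 114⟩, ⟨147243440201, 1, 0, true, false, 11, 114⟩,
  ⟨19736598601, 1, 2, true, true, 8, 114⟩, ⟨26073405513, 0, 1, true, false, 5, 114⟩,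
  ⟨163512358985, 1, 0, false, false, 7, 114⟩, ⟨105530300489, 1, 0, true, false, 5, 89⟩,
  ⟨105530300489, 0, 2, false, true, 7, 88⟩, ⟨144185006153, 0, 1, false, true, 1, 88⟩,
  ⟨144185006153, 1, 0, true, false, 11, 88⟩, ⟨156267727241, 1, 2, false, true, 14, 48⟩,
  ⟨156267727241, 0, 2, false, true, 9, 48⟩, ⟨36008642953, 2, 1, false, true, 15, 72⟩,
  ⟨78958315913, 1, 0, false, false, 16, 96⟩, ⟨147208030601, 1, 0, true, false, 11, 96⟩,
  ⟨78488553865, 2, 0, true, false, 8, 96⟩, ⟨147208030601, 0, 1, true, true, 8, 96⟩,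
  ⟨19432753545, 1, 2, true, true, 8, 96⟩, ⟨40907590025, 2, 0, false, true, 14, 48⟩,
  ⟨40907590025, 1, 0, false, false, 9, 48⟩, ⟨104305543561, 1, 0, true, false, 5, 96⟩,
  ⟨35586066825, 2, 0, false, false, 7, 48⟩, ⟨35586066825, 2, 1, false, true, 7, 48⟩,
  ⟨144033991049, 2, 0, true, false, 5, 96⟩, ⟨77730433417, 1, 0, false, false, 16, 96⟩,
  ⟨77730433417, 0, 1, false, true, 14, 74⟩, ⟨77730433417, 2, 0, true, false, 8, 74⟩,
  ⟨163629779337, 1, 0, false, false, 7, 48⟩, ⟨163629779337, 1, 2, false, true, 7, 48⟩,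
  ⟨77722044809, 0, 1, false, true, 14, 37⟩, ⟨77722044809, 2, 1, false, true, 9, 37⟩,
  ⟨77722044809, 2, 0, true, false, 8, 74⟩, ⟨77616007561, 1, 0, false, false, 16, 96⟩,
  ⟨163515353481, 1, 0, false, false, 7, 96⟩, ⟨156267596169, 1, 2, false, true, 14, 37⟩,
  ⟨156267596169, 0, 2, false, true, 9, 37⟩, ⟨156267596169, 0, 1, true, true, 8, 74⟩,
  ⟨36008511881, 2, 1, false, true, 15, 71⟩, ⟨36008511881, 2, 0, false, false, 7, 48⟩,
  ⟨36008511881, 2, 1, false, true, 7, 48⟩, ⟨75237837193, 0, 2, false, true, 7, 96⟩,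
  ⟨40878098825, 0, 2, false, false, 16, 96⟩, ⟨40878098825, 2, 0, false, true, 14, 48⟩,
  ⟨40878098825, 1, 0, false, false, 9, 48⟩, ⟨26382584201, 0, 2, true, true, 5, 96⟩,
  ⟨26382584201, 1, 2, false, true, 1, 74⟩, ⟨26382584201, 2, 1, true, true, 11, 74⟩,
  ⟨104312752521, 0, 2, true, false, 11, 96⟩, ⟨35593275785, 2, 0, false, false, 7, 48⟩,
  ⟨35593275785, 2, 1, false, true, 7, 48⟩, ⟨144041200009, 2, 0, true, false, 5, 96⟩,
  ⟨77615993369, 1, 0, false, false, 16, 113⟩, ⟨163515339289, 1, 0, false, false, 7, 113⟩,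
  ⟨36008497689, 2, 1, false, true, 15, 101⟩, ⟨36008497689, 2, 0, false, false, 7, 56⟩,
  ⟨36008497689, 2, 1, false, true, 7, 56⟩, ⟨78958170649, 1, 0, false, false, 16, 113⟩,
  ⟨78958170649, 0, 1, false, true, 14, 56⟩, ⟨78958170649, 2, 1, false, true, 9, 56⟩,
  ⟨40907444761, 2, 0, false, true, 14, 56⟩, ⟨40907444761, 1, 0, false, false, 9, 56⟩,
  ⟨107930325529, 0, 2, true, false, 11, 109⟩, ⟨39210848793, 1, 0, false, true, 9, 85⟩,
  ⟨107930325529, 2, 0, true, false, 8, 109⟩, ⟨39210848793, 1, 2, true, true, 8, 85⟩,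
  ⟨39076631065, 2, 0, false, true, 14, 56⟩, ⟨39076631065, 1, 0, false, true, 9, 56⟩,
  ⟨77731336729, 0, 1, false, true, 14, 56⟩, ⟨77731336729, 2, 1, false, true, 9, 56⟩,
  ⟨156869464601, 1, 2, false, true, 14, 113⟩, ⟨19430511129, 1, 2, true, true, 8, 113⟩,
  ⟨156842955289, 2, 1, false, false, 16, 110⟩, ⟨156842955289, 1, 2, false, true, 14, 55⟩,
  ⟨156842955289, 0, 2, false, true, 9, 55⟩, ⟨75238576665, 0, 2, false, true, 15, 110⟩,
  ⟨40878838297, 2, 0, false, true, 14, 55⟩, ⟨40878838297, 1, 0, false, false, 9, 55⟩,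
  ⟨107786375705, 2, 0, true, false, 8, 110⟩, ⟨77721604633, 0, 1, false, true, 14, 43⟩,
  ⟨77721604633, 2, 1, false, true, 9, 43⟩, ⟨77721604633, 2, 0, true, false, 8, 86⟩,
  ⟨19739546137, 2, 1, true, false, 11, 110⟩, ⟨157178499609, 0, 1, true, true, 8, 110⟩,
  ⟨19739546137, 1, 2, true, true, 8, 110⟩, ⟨104305600025, 0, 2, true, true, 11, 113⟩,
  ⟨35586123289, 2, 0, false, false, 7, 56⟩, ⟨35586123289, 2, 1, false, true, 7, 56⟩,
  ⟨144034047513, 2, 0, true, false, 5, 113⟩, ⟨75314570777, 0, 2, false, true, 15, 113⟩,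
  ⟨26073441817, 0, 1, true, false, 5, 113⟩, ⟨105530336793, 1, 0, true, false, 5, 88⟩,
  ⟨105530336793, 0, 2, false, true, 7, 88⟩, ⟨75237828121, 0, 2, false, true, 15, 113⟩,
  ⟨75237828121, 0, 2, false, true, 7, 113⟩, ⟨26382575129, 0, 2, true, true, 5, 113⟩,
  ⟨163821528601, 1, 0, false, false, 7, 56⟩, ⟨163821528601, 1, 2, false, true, 7, 56⟩,
  ⟨156305335833, 2, 1, false, false, 16, 113⟩, ⟨104765728281, 1, 0, true, false, 5, 113⟩]

theorem kc34 : keyChk 9766 8950 tri34 lv34 = true := by decide +kernel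

def lv35 : List Leaf := [
  ⟨105529886226, 1, 0, true, false, 5, 48⟩, ⟨105529886226, 0, 1, false, true, 7, 48⟩,
  ⟨144184591890, 1, 0, true, false, 11, 96⟩, ⟨75465115154, 0, 1, false, false, 7, 63⟩,
  ⟨108012914194, 0, 2, true, true, 11, 96⟩, ⟨26408535570, 0, 1, true, false, 5, 66⟩,
  ⟨104293615122, 1, 0, true, false, 5, 96⟩, ⟨147243288082, 1, 0, true, false, 11, 96⟩,
  ⟨26984203794, 0, 1, true, true, 5, 75⟩, ⟨26984203794, 2, 0, false, false, 7, 38⟩,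
  ⟨26984203794, 2, 1, false, true, 7, 38⟩, ⟨77617841682, 1, 0, false, false, 16, 96⟩,
  ⟨26078234130, 0, 1, true, false, 5, 96⟩, ⟨163517187602, 1, 0, false, true, 15, 96⟩,
  ⟨144189834770, 1, 0, true, false, 11, 96⟩, ⟨75470358034, 0, 1, false, true, 7, 96⟩,
  ⟨40878097938, 0, 2, false, false, 16, 96⟩, ⟨40878097938, 1, 2, true, true, 8, 96⟩,
  ⟨26382583314, 0, 2, true, true, 5, 96⟩, ⟨26382583314, 2, 1, true, true, 11, 96⟩,
  ⟨163821536786, 1, 0, false, false, 7, 48⟩, ⟨163821536786, 1, 2, false, true, 7, 48⟩,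
  ⟨156305344018, 2, 1, false, false, 16, 96⟩, ⟨104312751634, 0, 2, true, true, 11, 96⟩,
  ⟨35593274898, 2, 0, false, false, 7, 48⟩, ⟨35593274898, 2, 1, false, false, 7, 48⟩,
  ⟨27003340306, 0, 1, true, true, 5, 75⟩, ⟨27003340306, 2, 0, false, false, 7, 38⟩,
  ⟨27003340306, 2, 1, false, true, 7, 38⟩, ⟨75321722386, 0, 2, false, true, 15, 63⟩,
  ⟨75315095058, 0, 2, false, true, 15, 107⟩, ⟨39076308498, 2, 0, false, true, 14, 54⟩,
  ⟨39076308498, 1, 0, false, true, 9, 54⟩, ⟨77731014162, 0, 1, false, true, 14, 42⟩,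
  ⟨77731014162, 2, 1, false, true, 9, 42⟩, ⟨77731014162, 2, 0, true, false, 8, 83⟩,
  ⟨163630360082, 1, 0, false, true, 15, 107⟩, ⟨163630360082, 1, 0, false, false, 7, 54⟩,
  ⟨163630360082, 1, 2, false, true, 7, 54⟩, ⟨104305600018, 2, 0, false, false, 1, 83⟩,
  ⟨104305600018, 0, 2, true, true, 11, 83⟩, ⟨35586123282, 2, 0, false, false, 7, 54⟩,
  ⟨35586123282, 2, 1, false, true, 7, 54⟩, ⟨144034047506, 2, 0, true, false, 5, 107⟩,
  ⟨75314570770, 0, 2, false, true, 15, 106⟩, ⟨40954832402, 0, 2, false, false, 16, 106⟩,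
  ⟨26073441810, 0, 1, true, false, 5, 106⟩, ⟨163512395282, 1, 0, false, true, 15, 106⟩,
  ⟨105530336786, 1, 0, true, false, 5, 61⟩, ⟨105530336786, 0, 1, false, true, 7, 61⟩,
  ⟨142373103122, 2, 0, true, false, 5, 82⟩, ⟨142373103122, 1, 0, false, false, 7, 41⟩,
  ⟨142373103122, 1, 2, false, true, 7, 41⟩, ⟨26408986130, 0, 1, true, false, 5, 85⟩,
  ⟨163515344402, 1, 0, false, false, 7, 106⟩, ⟨78958175762, 0, 1, false, true, 14, 53⟩,
  ⟨78958175762, 2, 1, false, true, 9, 53⟩, ⟨156871566866, 2, 1, false, false, 16, 106⟩,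
  ⟨19432613394, 1, 2, true, true, 8, 106⟩, ⟨147241638034, 1, 0, true, false, 11, 116⟩,
  ⟨26982553746, 2, 0, false, false, 7, 58⟩, ⟨26982553746, 2, 1, false, true, 7, 58⟩,
  ⟨39062149266, 2, 0, false, true, 14, 58⟩, ⟨39062149266, 1, 0, false, true, 9, 58⟩,
  ⟨107781626002, 2, 0, true, false, 8, 116⟩, ⟨157173749906, 0, 1, true, true, 8, 116⟩,
  ⟨26073438354, 0, 1, true, false, 5, 116⟩, ⟨163512391826, 1, 0, false, true, 15, 116⟩,
  ⟨163512391826, 1, 0, false, false, 7, 116⟩, ⟨105530333330, 1, 0, true, false, 5, 76⟩,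
  ⟨105530333330, 0, 1, false, true, 7, 76⟩, ⟨75465562258, 0, 1, false, true, 7, 101⟩,
  ⟨142373099666, 2, 0, true, false, 5, 91⟩, ⟨142373099666, 1, 0, false, false, 7, 45⟩,
  ⟨142373099666, 1, 2, false, true, 7, 45⟩, ⟨108013361298, 0, 2, true, true, 11, 116⟩,
  ⟨26408982674, 0, 1, true, false, 5, 106⟩, ⟨26382473362, 1, 2, false, true, 1, 91⟩,
  ⟨26382473362, 2, 1, true, true, 11, 91⟩, ⟨156305234066, 2, 1, false, false, 16, 116⟩,
  ⟨104765626514, 1, 0, true, false, 5, 116⟩, ⟨36046149778, 2, 1, false, true, 15, 116⟩,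
  ⟨19621255314, 2, 1, true, true, 11, 116⟩, ⟨105520601234, 1, 0, true, false, 5, 116⟩,
  ⟨144175306898, 2, 0, true, false, 5, 116⟩, ⟨144175306898, 1, 0, true, false, 11, 116⟩,
  ⟨75321612434, 0, 2, false, true, 15, 101⟩, ⟨142344493202, 2, 0, true, false, 5, 91⟩,
  ⟨142344493202, 1, 0, false, false, 7, 45⟩, ⟨142344493202, 1, 2, false, true, 7, 45⟩,
  ⟨26380376210, 1, 2, false, true, 1, 91⟩, ⟨26380376210, 2, 1, true, true, 11, 91⟩,
  ⟨104293767314, 1, 0, true, false, 5, 116⟩, ⟨104293767314, 2, 0, false, false, 1, 91⟩,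
  ⟨104293767314, 0, 2, true, true, 11, 91⟩, ⟨19736598674, 1, 2, true, true, 8, 116⟩,
  ⟨26382471570, 1, 2, false, true, 1, 91⟩, ⟨26382471570, 2, 1, true, true, 11, 91⟩,
  ⟨163821425042, 1, 0, false, false, 7, 58⟩, ⟨163821425042, 1, 2, false, true, 7, 58⟩,
  ⟨104765624722, 1, 0, true, false, 5, 116⟩, ⟨36046147986, 2, 1, false, true, 15, 116⟩,
  ⟨105520599442, 1, 2, true, true, 5, 91⟩, ⟨105520599442, 0, 1, false, true, 7, 91⟩,
  ⟨144175305106, 2, 0, true, false, 5, 116⟩, ⟨144175305106, 1, 0, true, false, 11, 116⟩,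
  ⟨27003228562, 0, 1, true, true, 5, 91⟩, ⟨27003228562, 2, 0, false, false, 7, 45⟩,
  ⟨27003228562, 2, 1, false, true, 7, 45⟩, ⟨75321610642, 0, 2, false, true, 15, 101⟩,
  ⟨105529893266, 1, 0, true, false, 5, 76⟩, ⟨105529893266, 0, 1, false, true, 7, 76⟩,
  ⟨75465122194, 0, 1, false, true, 7, 101⟩, ⟨78485021074, 2, 0, true, false, 8, 116⟩,
  ⟨147204497810, 0, 1, true, true, 8, 116⟩, ⟨19622158738, 2, 1, true, true, 11, 116⟩,
  ⟨105521504658, 0, 1, false, true, 7, 116⟩, ⟨39217947026, 1, 0, false, true, 9, 91⟩,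
  ⟨39217947026, 1, 2, true, true, 8, 91⟩]

theorem kc35 : keyChk 9765 8950 tri35 lv35 = true := by decide +kernel

end Pool.Agent.SqfBridge
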