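import Pool.Agent.SqfBridge.KeySem
import Pool.Agent.SqfBridge.CertLeaf0
import Pool.Agent.SqfBridge.CertLeaf1
import Pool.Agent.SqfBridge.CertLeaf2
import Pool.Agent.SqfBridge.CertLeaf3
import Pool.Agent.SqfBridge.CertLeaf4
import Pool.Agent.SqfBridge.CertLeaf5
import Pool.Agent.SqfBridge.CertLeaf6
import Pool.Agent.SqfBridge.CertLeaf7
import Pool.Agent.SqfBridge.CertLeaf8

set_option autoImplicit false

namespace Pool.Agent.SqfBridge

theorem keys_eq : keyT.keys = [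
  ⟨8, 9349, 8950, tri28⟩,
  ⟨8, 25733, 8950, tri6⟩,
  ⟨8, 37253, 8950, tri33⟩,
  ⟨8, 18821, 8950, tri26⟩,
  ⟨8, 35205, 8950, tri1⟩,
  ⟨8, 17957, 8950, tri24⟩,
  ⟨8, 34341, 7919, tri8⟩,
  ⟨8, 9765, 8950, tri35⟩,
  ⟨8, 9317, 8950, tri27⟩,
  ⟨8, 18533, 8950, tri32⟩,
  ⟨8, 39013, 8950, tri20⟩,
  ⟨8, 18713, 8950, tri30⟩,
  ⟨8, 35097, 8950, tri4⟩,
  ⟨8, 6425, 8950, tri14⟩,
  ⟨8, 4633, 8950, tri0⟩,
  ⟨8, 37401, 8950, tri25⟩,
  ⟨8, 33945, 7847, tri15⟩,
  ⟨8, 25753, 8647, tri3⟩,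
  ⟨8, 8486, 8950, tri18⟩,
  ⟨8, 24870, 8950, tri11⟩,
  ⟨8, 17958, 8950, tri23⟩,
  ⟨8, 34342, 8512, tri9⟩,
  ⟨8, 9766, 8950, tri34⟩,
  ⟨8, 18534, 8950, tri31⟩,
  ⟨8, 39014, 8950, tri21⟩,
  ⟨8, 6218, 8950, tri7⟩,
  ⟨8, 38986, 8950, tri22⟩,
  ⟨8, 25162, 8950, tri17⟩,
  ⟨8, 17994, 8950, tri19⟩,
  ⟨8, 34378, 8950, tri10⟩,
  ⟨8, 18714, 8950, tri29⟩,
  ⟨8, 35098, 8950, tri5⟩,
  ⟨8, 6426, 8364, tri13⟩,
  ⟨8, 33946, 8950, tri16⟩,
  ⟨8, 25754, 8950, tri2⟩,
  ⟨8, 6298, 8950, tri12⟩] := rfl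

theorem kg28 : KeyGood ⟨8, 9349, 8950, tri28⟩ :=
  keyChk_sound (by decide +kernel) (by decide +kernel) kc28

theorem kg6 : KeyGood ⟨8, 25733, 8950, tri6⟩ :=
  keyChk_sound (by decide +kernel) (by decide +kernel) kc6

theorem kg33 : KeyGood ⟨8, 37253, 8950, tri33⟩ :=
  keyChk_sound (by decide +kernel) (by decide +kernel) kc33

theorem kg26 : KeyGood ⟨8, 18821, 8950, tri26⟩ :=
  keyChk_sound (by decide +kernel) (by decide +kernel) kc26

theorem kg1 : KeyGood ⟨8, 35205, 8950, tri1⟩ :=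
  keyChk_sound (by decide +kernel) (by decide +kernel) kc1

theorem kg24 : KeyGood ⟨8, 17957, 8950, tri24⟩ :=
  keyChk_sound (by decide +kernel) (by decide +kernel) kc24

theorem kg8 : KeyGood ⟨8, 34341, 7919, tri8⟩ :=
  keyChk_sound (by decide +kernel) (by decide +kernel) kc8

theorem kg35 : KeyGood ⟨8, 9765, 8950, tri35⟩ :=
  keyChk_sound (by decide +kernel) (by decide +kernel) kc35

theorem kg27 : KeyGood ⟨8, 9317, 8950, tri27⟩ :=
  keyChk_sound (by decide +kernel) (by decide +kernel) kc27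

theorem kg32 : KeyGood ⟨8, 18533, 8950, tri32⟩ :=
  keyChk_sound (by decide +kernel) (by decide +kernel) kc32

theorem kg20 : KeyGood ⟨8, 39013, 8950, tri20⟩ :=
  keyChk_sound (by decide +kernel) (by decide +kernel) kc20

theorem kg30 : KeyGood ⟨8, 18713, 8950, tri30⟩ :=
  keyChk_sound (by decide +kernel) (by decide +kernel) kc30

theorem kg4 : KeyGood ⟨8, 35097, 8950, tri4⟩ :=
  keyChk_sound (by decide +kernel) (by decide +kernel) kc4

theorem kg14 : KeyGood ⟨8, 6425, 8950, tri14⟩ :=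
  keyChk_sound (by decide +kernel) (by decide +kernel) kc14

theorem kg0 : KeyGood ⟨8, 4633, 8950, tri0⟩ :=
  keyChk_sound (by decide +kernel) (by decide +kernel) kc0

theorem kg25 : KeyGood ⟨8, 37401, 8950, tri25⟩ :=
  keyChk_sound (by decide +kernel) (by decide +kernel) kc25

theorem kg15 : KeyGood ⟨8, 33945, 7847, tri15⟩ :=
  keyChk_sound (by decide +kernel) (by decide +kernel) kc15

theorem kg3 : KeyGood ⟨8, 25753, 8647, tri3⟩ :=
  keyChk_sound (by decide +kernel) (by decide +kernel) kc3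

theorem kg18 : KeyGood ⟨8, 8486, 8950, tri18⟩ :=
  keyChk_sound (by decide +kernel) (by decide +kernel) kc18

theorem kg11 : KeyGood ⟨8, 24870, 8950, tri11⟩ :=
  keyChk_sound (by decide +kernel) (by decide +kernel) kc11

theorem kg23 : KeyGood ⟨8, 17958, 8950, tri23⟩ :=
  keyChk_sound (by decide +kernel) (by decide +kernel) kc23

theorem kg9 : KeyGood ⟨8, 34342, 8512, tri9⟩ :=
  keyChk_sound (by decide +kernel) (by decide +kernel) kc9

theorem kg34 : KeyGood ⟨8, 9766, 8950, tri34⟩ :=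
  keyChk_sound (by decide +kernel) (by decide +kernel) kc34

theorem kg31 : KeyGood ⟨8, 18534, 8950, tri31⟩ :=
  keyChk_sound (by decide +kernel) (by decide +kernel) kc31

theorem kg21 : KeyGood ⟨8, 39014, 8950, tri21⟩ :=
  keyChk_sound (by decide +kernel) (by decide +kernel) kc21

theorem kg7 : KeyGood ⟨8, 6218, 8950, tri7⟩ :=
  keyChk_sound (by decide +kernel) (by decide +kernel) kc7

theorem kg22 : KeyGood ⟨8, 38986, 8950, tri22⟩ :=
  keyChk_sound (by decide +kernel) (by decide +kernel) kc22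

theorem kg17 : KeyGood ⟨8, 25162, 8950, tri17⟩ :=
  keyChk_sound (by decide +kernel) (by decide +kernel) kc17

theorem kg19 : KeyGood ⟨8, 17994, 8950, tri19⟩ :=
  keyChk_sound (by decide +kernel) (by decide +kernel) kc19

theorem kg10 : KeyGood ⟨8, 34378, 8950, tri10⟩ :=
  keyChk_sound (by decide +kernel) (by decide +kernel) kc10

theorem kg29 : KeyGood ⟨8, 18714, 8950, tri29⟩ :=
  keyChk_sound (by decide +kernel) (by decide +kernel) kc29

theorem kg5 : KeyGood ⟨8, 35098, 8950, tri5⟩ :=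
  keyChk_sound (by decide +kernel) (by decide +kernel) kc5

theorem kg13 : KeyGood ⟨8, 6426, 8364, tri13⟩ :=
  keyChk_sound (by decide +kernel) (by decide +kernel) kc13

theorem kg16 : KeyGood ⟨8, 33946, 8950, tri16⟩ :=
  keyChk_sound (by decide +kernel) (by decide +kernel) kc16

theorem kg2 : KeyGood ⟨8, 25754, 8950, tri2⟩ :=
  keyChk_sound (by decide +kernel) (by decide +kernel) kc2

theorem kg12 : KeyGood ⟨8, 6298, 8950, tri12⟩ :=
  keyChk_sound (by decide +kernel) (by decide +kernel) kc12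

theorem keys_good : ∀ e ∈ keyT.keys, KeyGood e := by
  rw [keys_eq]
  intro e he
  simp only [List.mem_cons, List.not_mem_nil, or_false] at he
  rcases he with rfl | rfl | rfl | rfl | rfl | rfl | rfl | rfl | rfl | rfl | rfl | rfl | rfl | rfl | rfl | rfl | rfl | rfl | rfl | rfl | rfl | rfl | rfl | rfl | rfl | rfl | rfl | rfl | rfl | rfl | rfl | rfl | rfl | rfl | rfl | rfl
  · exact kg28
  · exact kg6
  · exact kg33
  · exact kg26
  · exact kg1
  · exact kg24
  · exact kg8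
  · exact kg35
  · exact kg27
  · exact kg32
  · exact kg20
  · exact kg30
  · exact kg4
  · exact kg14
  · exact kg0
  · exact kg25
  · exact kg15
  · exact kg3
  · exact kg18
  · exact kg11
  · exact kg23
  · exact kg9
  · exact kg34
  · exact kg31
  · exact kg21
  · exact kg7
  · exact kg22
  · exact kg17
  · exact kg19
  · exact kg10
  · exact kg29
  · exact kg5
  · exact kg13
  · exact kg16
  · exact kg2
  · exact kg12

end Pool.Agent.SqfBridge
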