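import Pool.Agent.SqfBridge.Words
import Pool.Agent.SqfBridge.Keys
import Pool.Agent.SqfBridge.CertDfs1
import Pool.Agent.SqfBridge.CertDfs2

set_option autoImplicit false

namespace Pool.Agent.SqfBridge

theorem shift_sf {W : ℕ → Fin 3} (hW : SF W) (a : Fin 3) : SF (fun k => W k - a) := by
  intro i p hp hs
  refine hW i p hp (fun j hj => ?_)
  have := hs j hj
  exact sub_left_injective this

theorem shift_run (W : ℕ → Fin 3) (a : Fin 3) (N p r : ℕ) :
    Run (fun k => W k - a) N p r ↔ Run W N p r := by
  unfold Run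
  constructor
  · rintro ⟨h1, h2⟩
    exact ⟨h1, fun i hi1 hi2 => sub_left_injective (h2 i hi1 hi2)⟩
  · rintro ⟨h1, h2⟩
    refine ⟨h1, fun i hi1 hi2 => ?_⟩
    show W i - a = W (i + p) - a
    rw [h2 i hi1 hi2]

theorem shift_arm (W : ℕ → Fin 3) (a : Fin 3) (N p : ℕ) :
    arm (fun k => W k - a) N p = arm W N p := by
  unfold arm
  congr 1
  funext r
  exact propext (shift_run W a N p r)

theorem shift_inv (W : ℕ → Fin 3) (a : Fin 3) (N : ℕ) :
    InvSum (fun k => W k - a) N = InvSum W N := by
  unfold InvSum
  apply Finset.sum_congr rfl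
  intro p _
  rw [shift_arm]
  have : Ev (fun k => W k - a) N p ↔ Ev W N p := by
    unfold Ev
    rw [shift_arm]
    constructor
    · rintro ⟨h1, h2, h3, h4⟩
      refine ⟨h1, h2, fun hc => h3 ?_, h4⟩
      show W (N - p) - a = W N - a
      rw [hc]
    · rintro ⟨h1, h2, h3, h4⟩
      exact ⟨h1, h2, fun hc => h3 (sub_left_injective hc), h4⟩
  by_cases h : Ev W N p
  · rw [if_pos (this.mpr h), if_pos h]
  · rw [if_neg (fun hc => h (this.mp hc)), if_neg h]

theorem shift_bit (W : ℕ → Fin 3) (a : Fin 3) (N k : ℕ) :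
    bitS (fun k => W k - a) N k = bitS W N k := by
  unfold bitS
  rw [sub_sub_sub_cancel_right]

theorem InvSum_nonneg (W : ℕ → Fin 3) (N : ℕ) : 0 ≤ InvSum W N := by
  unfold InvSum
  apply Finset.sum_nonneg
  intro p _
  split_ifs
  · exact wq_nonneg _
  · exact le_refl _

/-- escape is impossible at `N`. -/
def Fail (W : ℕ → Fin 3) (N : ℕ) : Prop :=
  ∀ (y : List (Fin 3)) (t0 : Fin 3) (β : List Bool), ∃ tb : List (Fin 3 × Bool),
    Sqf (t0 :: tb.map Prod.fst) ∧ β <+: tb.map Prod.snd ∧
    ¬ Sqf ((List.range N).map W ++ y ++ G tb)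

theorem bad_of_fail {W : ℕ → Fin 3} {N : ℕ} (a : Fin 3) (hfail : Fail W N) (ℓ : Leaf)
    (ho2 : ℓ.o ≤ 23) : Bad (fun k => W k - a) N [ℓ] := by
  intro ℓ' hℓ' β
  have hℓ : ℓ' = ℓ := by simpa using hℓ'
  subst hℓ
  clear hℓ'
  let y : List (Fin 3) := (List.range (55 - ℓ'.o)).map
    (fun k => tail ℓ' (fun _ => 0) (fun _ => false) k + a)
  obtain ⟨tb, h1, h2, h3⟩ := hfail y (toF ℓ'.t0 + a) β
  let m := tb.length
  let lastL : Fin 3 := if m = 0 then toF ℓ'.t0 else (tb.getD (m - 1) (0, false)).1 - a
  let t : ℕ → Fin 3 := fun i => if i < m then (tb.getD i (0, false)).1 - a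
    else if (i - m) % 2 = 0 then lastL + 1 else lastL
  let b : ℕ → Bool := fun i => (tb.getD i (0, false)).2
  let s : ℕ → Fin 3 := fcons (toF ℓ'.t0) t
  have hs0 : s 0 = toF ℓ'.t0 := rfl
  have hs1 : ∀ i, s (i + 1) = t i := fun i => rfl
  have htlt : ∀ i, i < m → t i = (tb.getD i (0, false)).1 - a := by
    intro i hi
    simp only [t]
    rw [if_pos hi]
  have hlist : ∀ k < m + 1, (((toF ℓ'.t0 + a) :: tb.map Prod.fst)).getD k 0 = s k + a := by
    intro k hk
    cases k with
    | zero => rw [List.getD_cons_zero, hs0]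
    | succ k =>
      rw [List.getD_cons_succ, hs1, htlt k (by omega), sub_add_cancel]
      have hk' : k < tb.length := by show k < m; omega
      rw [List.getD_eq_getElem _ _ (by rw [List.length_map]; exact hk'),
        List.getD_eq_getElem _ _ hk', List.getElem_map]
  have hsf : SFto s (m + 1) := by
    rw [sqf_iff_SFto (f := fun k => s k + a) (n := m + 1) (by simp [m]) hlist] at h1
    exact (SFto_shift a).mp h1
  have hsm : s m = lastL := by
    simp only [lastL]
    by_cases hm : m = 0
    · rw [if_pos hm, hm, hs0]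
    · rw [if_neg hm]
      obtain ⟨q, hq⟩ : ∃ q, m = q + 1 := ⟨m - 1, by omega⟩
      rw [hq, hs1, htlt q (by omega), Nat.add_sub_cancel]
  have ht_even : ∀ i, m ≤ i → (i - m) % 2 = 0 → t i = lastL + 1 := by
    intro i hi h
    simp only [t]
    rw [if_neg (by omega), if_pos h]
  have ht_odd : ∀ i, m ≤ i → (i - m) % 2 = 1 → t i = lastL := by
    intro i hi h
    simp only [t]
    rw [if_neg (by omega), if_neg (by omega)]
  have hne : lastL ≠ lastL + 1 := by
    generalize lastL = z
    revert z
    decide
  have hadj : AdjT ℓ' t := by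
    intro i
    show s i ≠ s (i + 1)
    rcases Nat.lt_or_ge i m with h | h
    · intro hc
      refine hsf i 1 (by norm_num) (by omega) (fun j hj => ?_)
      have : j = 0 := by omega
      subst this
      exact hc
    · rcases Nat.eq_or_lt_of_le h with h | h
      · rw [← h, hsm, hs1, ht_even m (le_refl _) (by simp)]
        exact hne
      · obtain ⟨q, rfl⟩ : ∃ q, i = q + 1 := ⟨i - 1, by omega⟩
        rw [hs1, hs1]
        have hcase : (q - m) % 2 = 0 ∨ (q - m) % 2 = 1 := by omega
        rcases hcase with h5 | h5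
        · rw [ht_even q (by omega) h5, ht_odd (q + 1) (by omega) (by omega)]
          exact hne.symm
        · rw [ht_odd q (by omega) h5, ht_even (q + 1) (by omega) (by omega)]
          exact hne
  refine ⟨t, b, m, hadj, hsf, ?_, ?_⟩
  · intro i hi
    obtain ⟨r, hr⟩ := h2
    have hlen : i < (tb.map Prod.snd).length := by rw [← hr, List.length_append]; omega
    have hi' : i < tb.length := by rwa [List.length_map] at hlen
    have e1 : (tb.map Prod.snd)[i] = β[i] := by
      simp only [← hr]
      rw [List.getElem_append_left hi]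
    have e2 : (tb.map Prod.snd)[i] = b i := by
      rw [List.getElem_map]
      show _ = (tb.getD i (0, false)).2
      rw [List.getD_eq_getElem _ _ hi']
    rw [← e1, e2]
  · intro hc
    apply h3
    have hyl : y.length = 55 - ℓ'.o := by simp [y]
    rw [sqf_iff_SFto (f := fun k => app N (fun k => W k - a) (tail ℓ' t b) k + a)
      (n := N + (55 - ℓ'.o) + 18 * m)]
    · exact (SFto_shift a).mpr hc
    · rw [List.length_append, List.length_append, List.length_map, List.length_range, hyl, G_length]
    · intro k hk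
      show _ = app N (fun k => W k - a) (tail ℓ' t b) k + a
      unfold app
      rcases Nat.lt_or_ge k N with h4 | h4
      · rw [if_pos h4, sub_add_cancel]
        rw [List.append_assoc, List.getD_append _ _ _ _ (by simpa using h4),
          List.getD_eq_getElem _ _ (by simpa using h4), List.getElem_map, List.getElem_range]
      · rw [if_neg (by omega)]
        rcases Nat.lt_or_ge k (N + (55 - ℓ'.o)) with h5 | h5
        · rw [List.getD_append _ _ _ _ (by
            rw [List.length_append, List.length_map, List.length_range, hyl]; exact h5)]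
          rw [List.getD_append_right _ _ _ _ (by simpa using h4)]
          rw [List.length_map, List.length_range]
          have h6 : k - N < 55 - ℓ'.o := by omega
          rw [List.getD_eq_getElem _ _ (by rw [hyl]; exact h6)]
          simp only [y]
          rw [List.getElem_map, List.getElem_range]
          congr 1
          -- the fixed letters
          unfold tail
          by_cases h7 : k - N < 19
          · rw [if_pos h7, if_pos h7]
          · rw [if_neg h7, if_neg h7]
            have hq : (ℓ'.o + (k - N - 19)) / 18 < 2 := by omega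
            apply Gf_congr
            · unfold Leaf.st
              interval_cases hh : (ℓ'.o + (k - N - 19)) / 18 <;> rfl
            · unfold Leaf.sb
              interval_cases hh : (ℓ'.o + (k - N - 19)) / 18 <;> rfl
        · rw [List.getD_append_right _ _ _ _ (by
            rw [List.length_append, List.length_map, List.length_range, hyl]; exact h5)]
          rw [List.length_append, List.length_map, List.length_range, hyl]
          obtain ⟨k', hk'⟩ : ∃ k', k = N + (55 - ℓ'.o) + k' := ⟨k - (N + (55 - ℓ'.o)), by omega⟩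
          have e1 : k - (N + (55 - ℓ'.o)) = k' := by omega
          rw [e1, G_getD _ _ (by show k' < 18 * m; omega), tail_ge (by omega)]
          have e2 : ℓ'.o + (k - N - 19) = 18 * 2 + k' := by omega
          rw [e2]
          unfold Gf
          have e3 : (18 * 2 + k') / 18 = k' / 18 + 2 := by omega
          have e4 : (18 * 2 + k') % 18 = k' % 18 := by omega
          rw [e3, e4]
          have e5 : ℓ'.st t (k' / 18 + 2) = t (k' / 18) := rfl
          have e6 : ℓ'.sb b (k' / 18 + 2) = b (k' / 18) := rfl
          rw [e5, e6, htlt _ (by omega)]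
          rw [← blk_shift _ _ _ _ (Nat.mod_lt _ (by norm_num)), sub_add_cancel]

theorem step_ineq {W : ℕ → Fin 3} (hW : SF W) {N : ℕ} (hN : 71 ≤ N) (hfail : Fail W N) :
    (phiT.ev (bitS W N) : ℚ) + 1750 ≤ phiT.ev (bitS W (N + 1)) + InvSum W N := by
  let W' : ℕ → Fin 3 := fun k => W k - W (N - 1)
  have hW' : SF W' := shift_sf hW _
  have h0 : W' (N - 1) = 0 := sub_self _
  have hg0 : gv W' (N - 1) = 0 := by unfold gv; rw [h0]; rfl
  have hbits : bitS W' N = bitS W N := by
    funext k
    exact shift_bit W (W (N - 1)) N k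
  have hinv : InvSum W' N = InvSum W N := shift_inv W _ N
  have hbad : ∀ ℓ, LeafOK (fun j => W' (N - 8 + j)) (toF (3 - gv W' N)) ℓ → Bad W' N [ℓ] := by
    intro ℓ hℓ
    exact bad_of_fail (W (N - 1)) hfail ℓ hℓ.ho2
  have hne : W' N ≠ 0 := by
    intro hc
    refine hW' (N - 1) 1 (by norm_num) (fun j hj => ?_)
    have : j = 0 := by omega
    subst this
    have e : N - 1 + 1 + 0 = N := by omega
    rw [e, Nat.add_zero, h0, hc]
  have hX : code (fun i => gv W' (N - 1 + i)) (1 + 1) = 4 * gv W' N := by
    have e1 : code (fun i => gv W' (N - 1 + i)) (1 + 1)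
        = (0 + gv W' (N - 1 + 0) * 4 ^ 0) + gv W' (N - 1 + 1) * 4 ^ 1 := rfl
    have e2 : N - 1 + 1 = N := by omega
    rw [e1, Nat.add_zero, hg0, e2]
    ring
  have hY : code (fun k => gv W' (N - 1 - k)) 1 = 0 := by
    have e1 : code (fun k => gv W' (N - 1 - k)) 1 = 0 + gv W' (N - 1 - 0) * 4 ^ 0 := rfl
    rw [e1, Nat.sub_zero, hg0]
    norm_num
  have hfin : ∀ (d : ℕ) (B : PT), gv W' N = d → goN keyT d 70 1 (4 * d) 0 4 0 phiT B = true →
      B.ev (bitS W N) = phiT.ev (bitS W (N + 1)) →
      (phiT.ev (bitS W N) : ℚ) + 1750 ≤ phiT.ev (bitS W (N + 1)) + InvSum W N := by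
    intro d B hd hgo hB
    have hs := goN_sound hW' keyT N (phiT.ev (bitS W N)) (phiT.ev (bitS W (N + 1))) 70 1 phiT B
      (le_refl _) (by omega)
      (by
        have e : (fun k => bitS W' N (k + (1 - 1))) = bitS W N := by
          rw [← hbits]; rfl
        rw [e])
      (by
        have e : (fun k => bitS W' N (k + (1 - 1))) = bitS W N := by
          rw [← hbits]; rfl
        rw [e]; exact hB)
      (by
        rw [hX, hY, hg0, hd]
        exact hgo)
    have hI := InvSum_nonneg W N
    rcases hs with h1 | ⟨n', h1, h2, h3⟩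
    · have : ((phiT.ev (bitS W N) + 1750 : ℕ) : ℚ) ≤ (phiT.ev (bitS W (N + 1)) : ℚ) := by
        exact_mod_cast h1
      push_cast at this
      linarith
    · have h4 := test_sound hW' keyT keys_good h1 h2 h0 _ hbad h3
      rw [hinv] at h4
      have h5 : phiT.ev (bitS W N) + 1750 ≤ phiT.ev (bitS W (N + 1))
          + (phiT.ev (bitS W N) + 1750 - phiT.ev (bitS W (N + 1))) := by omega
      have h6 : ((phiT.ev (bitS W N) + 1750 : ℕ) : ℚ) ≤ ((phiT.ev (bitS W (N + 1))
          + (phiT.ev (bitS W N) + 1750 - phiT.ev (bitS W (N + 1))) : ℕ) : ℚ) := by exact_mod_cast h5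
      rw [Nat.cast_add, Nat.cast_add] at h6
      push_cast at h6 h4 ⊢
      linarith
  have hgN : gv W' N = 1 ∨ gv W' N = 2 := by
    unfold gv
    revert hne
    generalize W' N = x
    revert x
    decide
  -- the shifted stream
  have hstream : ∀ k, bitS W (N + 1) (k + 1) = bitS W N k := by
    intro k
    unfold bitS
    have e1 : N + 1 - 1 - (k + 1) = N - 1 - k := by omega
    have e2 : N + 1 - 2 - (k + 1) = N - 2 - k := by omega
    rw [e1, e2]
  have hfirst : bitS W (N + 1) 0 = decide (W' N = 2) := by
    unfold bitS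
    have e1 : N + 1 - 1 - 0 = N := by omega
    have e2 : N + 1 - 2 - 0 = N - 1 := by omega
    rw [e1, e2]
  have hstep := PT.ev_step phiT (bitS W (N + 1))
  have e : (fun k => bitS W (N + 1) (k + 1)) = bitS W N := by
    funext k; exact hstream k
  rw [e] at hstep
  rcases hgN with h | h
  · refine hfin 1 phiT.step0 h dfs1 ?_
    have hb : bitS W (N + 1) 0 = false := by
      rw [hfirst]
      unfold gv at h
      revert h
      generalize W' N = x
      revert x
      decide
    rw [hstep, hb]
    rfl
  · refine hfin 2 phiT.step1 h dfs2 ?_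
    have hb : bitS W (N + 1) 0 = true := by
      rw [hfirst]
      unfold gv at h
      revert h
      generalize W' N = x
      revert x
      decide
    rw [hstep, hb]
    rfl

theorem escape : EscapeStmt := by
  intro W hW n₀
  by_contra hcon
  push Not at hcon
  obtain ⟨B, hB⟩ := PT.ev_bdd phiT
  refine contradiction_of_potential W hW (fun N => (phiT.ev (bitS W N) : ℚ)) B
    (fun N => ⟨by positivity, by exact_mod_cast hB _⟩) (n₀ + 71) (fun N hN => ?_)
  refine step_ineq hW (by omega) ?_
  intro y t0 β
  obtain ⟨tb, h1, h2, h3⟩ := hcon N (by omega) y t0 β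
  exact ⟨tb, h1, h2, h3⟩

end Pool.Agent.SqfBridge
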