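import Pool.Agent.SqfBridge.Kern

set_option autoImplicit false

namespace Pool.Agent.SqfBridge

def tri0 : Tri := (.node 10000 .nil (.node 10000 (.node 5368 .nil (.node 3263 .nil .nil (.node 3263 (.node 684 .nil (.node 684 (.node 684 .nil .nil (.node 684 .nil (.node 684 .nil .nil (.node 684 (.stop 684) .nil .nil)) .nil)) .nil .nil) .nil) (.node 2579 (.node 2579 .nil .nil (.node 2579 (.node 1445 .nil (.node 1445 (.node 766 .nil .nil (.stop 766)) .nil (.node 679 (.stop 343) (.stop 336) .nil)) .nil) (.node 1134 .nil .nil (.node 1134 (.node 1134 .nil (.stop 704) (.stop 430)) .nil .nil)) .nil)) .nil .nil) .nil)) (.node 2105 (.node 2105 .nil (.node 2105 (.node 2105 .nil .nil (.node 2105 .nil (.node 2105 (.node 911 .nil (.node 911 .nil .nil (.stop 911)) .nil) .nil (.node 1194 (.node 1194 .nil (.stop 606) (.stop 588)) .nil .nil)) .nil)) .nil .nil) .nil) .nil .nil)) .nil (.node 4632 (.node 4632 .nil (.node 4632 (.node 2520 .nil .nil (.node 2520 (.node 596 .nil (.node 596 .nil .nil (.node 596 .nil (.node 596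 (.stop 596) .nil .nil) .nil)) .nil) (.node 1924 (.node 1140 .nil (.node 1140 .nil .nil (.node 1140 (.stop 720) (.stop 420) .nil)) .nil) .nil (.node 784 (.node 784 .nil .nil (.node 784 .nil (.stop 784) .nil)) .nil .nil)) .nil)) .nil (.node 2112 .nil (.node 2112 (.node 2112 .nil (.node 750 .nil .nil (.node 750 (.node 750 .nil (.stop 320) (.stop 430)) .nil .nil)) (.node 1362 (.node 829 .nil (.node 829 (.stop 390) .nil (.stop 439)) .nil) (.node 533 .nil .nil (.node 533 (.stop 533) .nil .nil)) .nil)) .nil .nil) .nil)) .nil) .nil .nil)) .nil)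

def tri1 : Tri := (.node 10000 (.node 4123 .nil (.node 4123 .nil .nil (.node 4123 (.node 1191 .nil .nil (.node 1191 .nil (.node 1191 (.node 713 .nil (.node 713 .nil .nil (.node 713 .nil (.node 713 (.stop 713) .nil .nil) .nil)) .nil) .nil (.node 478 (.node 478 .nil (.node 478 .nil .nil (.node 478 .nil (.stop 478) .nil)) .nil) .nil .nil)) .nil)) (.node 2932 (.node 2932 .nil (.node 1291 .nil .nil (.node 1291 (.node 1291 .nil (.node 561 (.node 561 .nil .nil (.stop 561)) .nil .nil) (.node 730 .nil (.node 730 (.stop 614) .nil (.stop 116)) .nil)) .nil .nil)) (.node 1641 (.node 711 .nil (.node 711 (.node 711 .nil .nil (.node 711 .nil (.stop 711) .nil)) .nil .nil) .nil) (.node 930 .nil .nil (.node 930 (.node 930 .nil (.node 346 (.stop 186) .nil (.stop 160)) (.node 584 .nil (.stop 584) .nil)) .nil .nil)) .nil)) .nil .nil) .nil)) .nil) (.node 5877 (.node 3497 .nil (.node 3497 .nil .nil (.node 3497 (.node 1905 .nil (.node 1012 (.node 1012 .nil .nil (.node 1012 (.node 573 .nil (.node 573 .nil .nil (.stop 573))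 .nil) (.node 439 .nil .nil (.node 439 (.stop 439) .nil .nil)) .nil)) .nil .nil) (.node 893 .nil (.node 893 (.node 607 .nil .nil (.node 607 (.node 607 .nil (.stop 607) .nil) .nil .nil)) .nil (.node 286 (.node 286 .nil (.node 286 .nil .nil (.stop 286)) .nil) .nil .nil)) .nil)) (.node 1592 (.node 1592 .nil .nil (.node 1592 (.node 912 .nil (.node 912 (.node 424 .nil .nil (.stop 424)) .nil (.node 488 (.stop 256) (.stop 232) .nil)) .nil) (.node 680 .nil .nil (.node 680 (.node 680 .nil (.stop 400) (.stop 280)) .nil .nil)) .nil)) .nil .nil) .nil)) .nil) .nil (.node 2380 (.node 2380 .nil .nil (.node 2380 .nil (.node 2380 (.node 2380 .nil (.node 1325 .nil .nil (.node 1325 (.node 563 .nil (.node 385 (.stop 385) .nil .nil) (.node 178 .nil (.stop 178) .nil)) (.node 762 (.node 762 .nil .nil (.stop 762)) .nil .nil) .nil)) (.node 1055 (.node 1055 .nil (.node 1055 (.node 493 .nil .nil (.stop 493)) .nil (.node 562 (.stop 177) (.stop 385) .nil)) .nil) .nil .nil)) .nil .nil) .nil)) .nil .nil)) .nil)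

def tri2 : Tri := (.node 10000 (.node 5115 .nil .nil (.node 5115 (.node 2640 .nil (.node 2640 .nil .nil (.node 2640 (.node 1780 .nil .nil (.node 1780 .nil (.node 1780 (.node 1096 .nil (.node 581 .nil .nil (.stop 581)) (.node 515 (.stop 515) .nil .nil)) .nil (.node 684 (.node 684 .nil (.stop 684) .nil) .nil .nil)) .nil)) (.node 860 (.node 860 .nil .nil (.node 860 (.node 516 .nil (.node 516 (.stop 516) .nil .nil) .nil) (.node 344 .nil .nil (.node 344 (.stop 344) .nil .nil)) .nil)) .nil .nil) .nil)) .nil) (.node 2475 (.node 2475 .nil (.node 2475 .nil .nil (.node 2475 (.node 2169 .nil (.node 1059 (.node 1059 .nil .nil (.node 1059 (.stop 465) (.stop 594) .nil)) .nil .nil) (.node 1110 .nil (.node 1110 (.node 594 .nil .nil (.stop 594)) .nil (.node 516 (.stop 516) .nil .nil)) .nil)) (.node 306 (.node 306 .nil .nil (.node 306 .nil (.node 306 .nil .nil (.stop 306)) .nil)) .nil .nil) .nil)) .nil) .nil .nil) .nil)) .nil (.node 4885 .nil (.node 4885 (.node 4885 .nil (.node 2509 .nil .nil (.node 2509 (.node 2509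 .nil (.node 1192 (.node 1192 .nil .nil (.node 1192 (.node 616 .nil (.stop 616) .nil) (.node 576 (.stop 360) .nil (.stop 216)) .nil)) .nil .nil) (.node 1317 .nil (.node 1317 (.node 805 .nil (.node 256 .nil .nil (.stop 256)) (.node 549 (.stop 549) .nil .nil)) .nil (.node 512 (.node 512 .nil (.stop 512) .nil) .nil .nil)) .nil)) .nil .nil)) (.node 2376 (.node 2376 .nil (.node 2376 (.node 1241 .nil .nil (.node 1241 .nil (.node 1241 (.node 608 .nil (.stop 608) .nil) .nil (.node 633 (.stop 633) .nil .nil)) .nil)) .nil (.node 1135 (.node 1135 .nil .nil (.node 1135 .nil (.node 1135 (.stop 720) .nil (.stop 415)) .nil)) .nil .nil)) .nil) .nil .nil)) .nil .nil) .nil))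

def tri3 : Tri := (.node 9697 .nil (.node 9697 (.node 9697 .nil (.node 4994 .nil .nil (.node 4994 (.node 3979 .nil (.node 2589 (.node 2589 .nil .nil (.node 2589 (.node 1220 .nil (.node 1220 .nil .nil (.stop 1220)) .nil) (.node 1369 (.node 744 .nil (.stop 744) .nil) .nil (.node 625 (.stop 625) .nil .nil)) .nil)) .nil .nil) (.node 1390 .nil (.node 1390 .nil .nil (.node 1390 (.node 1390 .nil (.node 1390 (.stop 945) .nil (.stop 445)) .nil) .nil .nil)) .nil)) (.node 1015 (.node 1015 .nil .nil (.node 1015 (.node 1015 .nil (.node 1015 (.node 1015 .nil .nil (.stop 1015)) .nil .nil) .nil) .nil .nil)) .nil .nil) .nil)) (.node 4703 (.node 4703 .nil (.node 4703 (.node 1987 .nil .nil (.node 1987 .nil (.node 1987 (.node 972 .nil (.node 972 .nil .nil (.stop 972)) .nil) .nil (.node 1015 (.node 1015 .nil (.stop 627) (.stop 388)) .nil .nil)) .nil)) .nil (.node 2716 (.node 1175 .nil .nil (.node 1175 .nil (.node 1175 (.node 439 .nil (.stop 439) .nil) .nil (.node 736 (.stop 736) .nil .nil)) .nil)) (.node 1541 (.node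 1541 .nil (.node 958 .nil .nil (.node 958 (.stop 958) .nil .nil)) (.node 583 .nil (.node 583 .nil .nil (.stop 583)) .nil)) .nil .nil) .nil)) .nil) .nil .nil)) .nil .nil) .nil)

def tri4 : Tri := (.node 10000 .nil (.node 10000 (.node 4467 .nil .nil (.node 4467 (.node 4467 .nil (.node 4467 (.node 1789 .nil .nil (.node 1789 .nil (.node 1789 (.node 803 .nil (.node 803 .nil .nil (.stop 803)) .nil) .nil (.node 986 (.node 986 .nil (.stop 604) (.stop 382)) .nil .nil)) .nil)) .nil (.node 2678 (.node 1191 .nil .nil (.node 1191 .nil (.node 1191 (.node 477 .nil (.stop 477) .nil) .nil (.node 714 (.stop 714) .nil .nil)) .nil)) (.node 1487 (.node 1487 .nil (.node 675 .nil .nil (.node 675 (.stop 675) .nil .nil)) (.node 812 .nil (.node 812 .nil .nil (.stop 812)) .nil)) .nil .nil) .nil)) .nil) .nil .nil)) .nil (.node 5533 (.node 5533 .nil (.node 5533 (.node 3042 .nil .nil (.node 3042 (.node 1251 .nil (.node 1251 .nil .nil (.node 1251 (.node 471 .nil .nil (.stop 471)) (.node 780 (.stop 780) .nil .nil) .nil)) .nil) (.node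 1791 (.node 1073 .nil (.node 1073 .nil .nil (.node 1073 (.stop 593) (.stop 480) .nil)) .nil) .nil (.node 718 (.node 718 .nil .nil (.node 718 .nil (.stop 718) .nil)) .nil .nil)) .nil)) .nil (.node 2491 .nil (.node 2491 (.node 2491 .nil (.node 821 .nil .nil (.node 821 (.node 821 .nil (.stop 452) (.stop 369)) .nil .nil)) (.node 1670 (.node 1034 .nil (.node 1034 (.stop 548) .nil (.stop 486)) .nil) (.node 636 .nil .nil (.node 636 (.stop 636) .nil .nil)) .nil)) .nil .nil) .nil)) .nil) .nil .nil)) .nil)

def tri5 : Tri := (.node 10000 (.node 10000 .nil .nil (.node 10000 (.node 3981 .nil (.node 3981 .nil .nil (.node 3981 (.node 2252 .nil .nil (.node 2252 .nil (.node 2252 (.node 1198 .nil (.node 485 .nil .nil (.stop 485)) (.node 713 (.stop 713) .nil .nil)) .nil (.node 1054 (.node 1054 .nil (.stop 1054) .nil) .nil .nil)) .nil)) (.node 1729 (.node 1729 .nil .nil (.node 1729 (.node 602 .nil (.node 602 (.stop 602) .nil .nil) .nil) (.node 1127 .nil .nil (.node 1127 (.stop 1127) .nil .nil)) .nil)) .nil .nil) .nil))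 .nil) (.node 6019 (.node 2340 .nil (.node 2340 .nil .nil (.node 2340 (.node 1502 .nil .nil (.node 1502 .nil (.node 1502 (.node 686 .nil .nil (.stop 686)) .nil (.node 816 (.stop 816) .nil .nil)) .nil)) (.node 838 (.node 838 .nil .nil (.node 838 .nil (.node 838 .nil .nil (.stop 838)) .nil)) .nil .nil) .nil)) .nil) .nil (.node 3679 (.node 3679 .nil (.node 1651 .nil .nil (.node 1651 .nil (.node 1651 (.node 1651 .nil (.node 771 .nil .nil (.stop 771)) (.node 880 (.stop 370) (.stop 510) .nil)) .nil .nil) .nil)) (.node 2028 .nil (.node 2028 (.node 2028 .nil (.node 928 .nil .nil (.node 928 (.stop 245) (.stop 683) .nil)) (.node 1100 (.node 1100 .nil (.stop 1100) .nil) .nil .nil)) .nil .nil) .nil)) .nil .nil)) .nil)) .nil .nil)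

def tri6 : Tri := (.node 10000 .nil (.node 10000 (.node 4105 .nil (.node 4105 .nil .nil (.node 4105 (.node 1862 .nil (.node 1862 (.node 1862 .nil .nil (.node 1862 (.node 1197 .nil (.node 1197 .nil .nil (.stop 1197)) .nil) (.node 665 .nil .nil (.node 665 (.stop 665) .nil .nil)) .nil)) .nil .nil) .nil) (.node 2243 (.node 2243 .nil .nil (.node 2243 (.node 787 .nil (.node 787 .nil .nil (.node 787 (.stop 504) (.stop 283) .nil)) .nil) (.node 1456 .nil .nil (.node 1456 (.node 1456 .nil (.stop 886) (.stop 570)) .nil .nil)) .nil)) .nil .nil) .nil)) .nil) .nil (.node 5895 (.node 5895 .nil (.node 2533 (.node 1833 .nil .nil (.node 1833 (.node 1833 .nil (.node 1833 .nil .nil (.node 1833 (.node 813 .nil .nil (.stop 813)) (.node 1020 (.stop 1020) .nil .nil) .nil)) .nil) .nil .nil)) .nil (.node 700 .nil (.node 700 (.node 700 .nil .nil (.node 700 (.node 700 .nil (.node 700 .nil .nil (.stop 700)) .nil) .nil .nil)) .nil .nil) .nil)) (.node 3362 .nil (.node 3362 (.node 3362 .nil (.node 2115 .nil .nil (.node 2115 (.node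 1256 .nil (.node 859 (.stop 859) .nil .nil) (.node 397 .nil (.stop 397) .nil)) (.node 859 (.node 859 .nil .nil (.stop 859)) .nil .nil) .nil)) (.node 1247 (.node 1247 .nil (.node 1247 (.node 520 .nil .nil (.stop 520)) .nil (.node 727 (.stop 283) (.stop 444) .nil)) .nil) .nil .nil)) .nil .nil) .nil)) .nil .nil)) .nil)

def tri7 : Tri := (.node 10000 .nil .nil (.node 10000 (.node 4546 .nil .nil (.node 4546 .nil (.node 4546 (.node 2687 .nil (.node 1255 .nil .nil (.node 1255 (.node 522 .nil (.node 522 (.node 522 .nil .nil (.stop 522)) .nil .nil) .nil) (.node 733 (.node 733 .nil .nil (.node 733 (.stop 293) (.stop 440) .nil)) .nil .nil) .nil)) (.node 1432 (.node 1432 .nil (.node 1432 (.node 838 .nil .nil (.node 838 .nil (.stop 838) .nil)) .nil (.node 594 .nil (.node 594 (.stop 594) .nil .nil) .nil)) .nil) .nil .nil)) .nil (.node 1859 (.node 1859 .nil (.node 1859 (.node 968 .nil .nil (.node 968 (.node 356 .nil (.stop 356) .nil) (.node 612 (.stop 448) .nil (.stop 164)) .nil)) .nil (.node 891 .nil (.node 891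 (.node 891 .nil (.stop 363) (.stop 528)) .nil .nil) .nil)) .nil) .nil .nil)) .nil)) (.node 5454 (.node 5454 .nil (.node 1801 .nil .nil (.node 1801 (.node 1801 .nil .nil (.node 1801 .nil (.node 1801 (.node 1113 .nil (.node 387 .nil .nil (.stop 387)) (.node 726 (.stop 726) .nil .nil)) .nil (.node 688 (.node 688 .nil (.stop 688) .nil) .nil .nil)) .nil)) .nil .nil)) (.node 3653 (.node 1468 .nil (.node 1468 (.node 1468 .nil .nil (.node 1468 .nil (.node 1468 (.node 676 .nil (.stop 676) .nil) .nil (.node 792 (.stop 792) .nil .nil)) .nil)) .nil .nil) .nil) (.node 2185 .nil .nil (.node 2185 (.node 2185 .nil (.node 1239 (.node 675 .nil .nil (.node 675 (.stop 236) (.stop 439) .nil)) .nil (.node 564 .nil (.node 564 (.stop 564) .nil .nil) .nil)) (.node 946 .nil (.node 946 (.node 946 .nil (.stop 395) (.stop 551)) .nil .nil) .nil)) .nil .nil)) .nil)) .nil .nil) .nil))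

def tri8 : Tri := (.node 8969 (.node 8969 .nil (.node 8969 (.node 4703 .nil .nil (.node 4703 .nil (.node 4703 (.node 2510 .nil (.node 2510 .nil .nil (.node 2510 (.node 1466 .nil (.node 708 (.stop 708) .nil .nil) (.node 758 .nil (.stop 758) .nil)) (.node 1044 (.node 1044 .nil .nil (.stop 1044)) .nil .nil) .nil)) .nil) .nil (.node 2193 (.node 2193 .nil (.node 2193 (.node 801 .nil .nil (.node 801 (.stop 801) .nil .nil)) .nil (.node 1392 .nil (.node 1392 (.stop 1392) .nil .nil) .nil)) .nil) .nil .nil)) .nil)) .nil (.node 4266 (.node 2008 .nil .nil (.node 2008 .nil (.node 2008 .nil .nil (.node 2008 (.node 2008 .nil (.node 2008 (.node 1173 .nil .nil (.stop 1173)) .nil (.node 835 .nil (.stop 835) .nil)) .nil) .nil .nil)) .nil)) (.node 2258 (.node 2258 .nil (.node 1313 .nil .nil (.node 1313 (.node 1313 .nil (.node 1313 (.node 1313 .nil .nil (.stop 1313)) .nil .nil) .nil) .nil .nil)) (.node 945 .nil (.node 945 .nil .nil (.node 945 (.node 945 .nil (.node 945 (.stop 570) .nil (.stop 375)) .nil) .nil .nil))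 .nil)) .nil .nil) .nil)) .nil) .nil .nil)

def tri9 : Tri := (.node 9562 .nil .nil (.node 9562 (.node 3825 .nil (.node 3825 (.node 3825 .nil .nil (.node 3825 (.node 1210 .nil (.node 1210 .nil .nil (.node 1210 (.node 1210 .nil .nil (.node 1210 .nil (.stop 1210) .nil)) .nil .nil)) .nil) (.node 2615 (.node 445 .nil (.node 445 .nil .nil (.node 445 (.node 445 .nil .nil (.stop 445)) .nil .nil)) .nil) .nil (.node 2170 (.node 2170 .nil (.node 960 .nil .nil (.node 960 .nil (.stop 960) .nil)) (.node 1210 .nil (.node 1210 (.stop 1210) .nil .nil) .nil)) .nil .nil)) .nil)) .nil .nil) .nil) (.node 5737 (.node 5737 .nil .nil (.node 5737 (.node 3177 .nil (.node 3177 (.node 1445 .nil .nil (.node 1445 .nil (.node 1445 (.node 601 .nil (.stop 601) .nil) .nil (.node 844 (.stop 844) .nil .nil)) .nil)) .nil (.node 1732 (.node 1003 .nil .nil (.node 1003 .nil (.node 1003 (.stop 444) .nil (.stop 559)) .nil)) (.node 729 (.node 729 .nil (.node 729 .nil .nil (.stop 729)) .nil) .nil .nil) .nil)) .nil) (.node 2560 .nil .nil (.node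 2560 (.node 2560 .nil (.node 1593 (.node 930 .nil .nil (.node 930 (.stop 438) (.stop 492) .nil)) .nil (.node 663 .nil (.node 663 (.stop 663) .nil .nil) .nil)) (.node 967 .nil (.node 967 (.node 967 .nil (.stop 387) (.stop 580)) .nil .nil) .nil)) .nil .nil)) .nil)) .nil .nil) .nil))

def tri10 : Tri := (.node 10000 (.node 5462 .nil .nil (.node 5462 .nil (.node 5462 (.node 2452 .nil (.node 2452 .nil .nil (.node 2452 (.node 1594 .nil (.node 731 (.node 731 .nil .nil (.node 731 (.stop 330) (.stop 401) .nil)) .nil .nil) (.node 863 .nil (.node 863 (.node 366 .nil .nil (.stop 366)) .nil (.node 497 (.stop 497) .nil .nil)) .nil)) (.node 858 (.node 858 .nil .nil (.node 858 (.node 462 .nil (.stop 462) .nil) (.node 396 .nil .nil (.stop 396)) .nil)) .nil .nil) .nil)) .nil) .nil (.node 3010 (.node 3010 .nil (.node 1520 (.node 688 .nil .nil (.node 688 (.node 688 .nil (.node 688 .nil .nil (.stop 688)) .nil) .nil .nil)) .nil (.node 832 .nil (.node 832 (.node 832 .nil (.node 432 .nil .nil (.stop 432)) (.node 400 .nil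 (.stop 400) .nil)) .nil .nil) .nil)) (.node 1490 .nil (.node 1490 (.node 1490 .nil (.node 898 .nil .nil (.node 898 (.stop 483) (.stop 415) .nil)) (.node 592 (.node 592 .nil (.stop 592) .nil) .nil .nil)) .nil .nil) .nil)) .nil .nil)) .nil)) .nil (.node 4538 (.node 4538 .nil .nil (.node 4538 .nil (.node 4538 (.node 2743 .nil (.node 1892 .nil .nil (.node 1892 (.node 999 .nil (.node 999 (.node 999 .nil .nil (.stop 999)) .nil .nil) .nil) (.node 893 (.node 893 .nil .nil (.node 893 (.stop 358) (.stop 535) .nil)) .nil .nil) .nil)) (.node 851 (.node 851 .nil (.node 851 .nil .nil (.node 851 .nil (.node 851 (.stop 851) .nil .nil) .nil)) .nil) .nil .nil)) .nil (.node 1795 (.node 1795 .nil (.node 1795 (.node 803 .nil .nil (.node 803 .nil (.node 803 (.stop 624) .nil (.stop 179)) .nil)) .nil (.node 992 .nil (.node 992 (.node 992 .nil (.stop 586) (.stop 406)) .nil .nil) .nil)) .nil) .nil .nil)) .nil)) .nil .nil))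

def tri11 : Tri := (.node 10000 .nil .nil (.node 10000 (.node 5930 .nil (.node 3241 (.node 3241 .nil .nil (.node 3241 (.node 1826 .nil (.node 1826 .nil .nil (.node 1826 (.node 767 .nil .nil (.node 767 .nil (.stop 767) .nil)) (.node 1059 (.node 1059 .nil (.stop 384) (.stop 675)) .nil .nil) .nil)) .nil) (.node 1415 .nil .nil (.node 1415 (.node 1415 .nil (.node 510 .nil .nil (.node 510 .nil (.stop 510) .nil)) (.node 905 .nil (.node 905 (.stop 905) .nil .nil) .nil)) .nil .nil)) .nil)) .nil .nil) (.node 2689 .nil (.node 2689 (.node 1154 .nil .nil (.node 1154 (.node 1154 .nil (.node 1154 .nil .nil (.node 1154 (.node 489 .nil .nil (.stop 489)) (.node 665 (.stop 665) .nil .nil) .nil)) .nil) .nil .nil)) .nil (.node 1535 (.node 1535 .nil (.node 1535 (.node 313 .nil .nil (.node 313 .nil (.node 313 .nil .nil (.stop 313)) .nil)) .nil (.node 1222 .nil (.node 1222 (.node 1222 .nil (.stop 511) (.stop 711)) .nil .nil) .nil)) .nil) .nil .nil)) .nil)) (.node 4070 (.node 4070 .nil .nil (.node 4070 (.node 1827 .nil (.node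 1827 .nil .nil (.node 1827 (.node 1240 .nil .nil (.node 1240 .nil (.node 1240 (.stop 866) .nil (.stop 374)) .nil)) (.node 587 (.node 587 .nil (.node 587 .nil .nil (.stop 587)) .nil) .nil .nil) .nil)) .nil) (.node 2243 .nil .nil (.node 2243 (.node 2243 .nil (.node 1262 (.node 587 .nil .nil (.node 587 (.stop 587) .nil .nil)) .nil (.node 675 .nil (.node 675 (.stop 675) .nil .nil) .nil)) (.node 981 .nil (.node 981 (.node 981 .nil (.stop 356) (.stop 625)) .nil .nil) .nil)) .nil .nil)) .nil)) .nil .nil) .nil))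

def tri12 : Tri := (.node 10000 (.node 6080 .nil .nil (.node 6080 (.node 1861 .nil (.node 1861 .nil .nil (.node 1861 .nil (.node 1861 (.node 1861 .nil (.node 592 .nil .nil (.node 592 (.node 592 .nil (.stop 296) (.stop 296)) .nil .nil)) (.node 1269 (.node 462 .nil (.node 462 (.stop 462) .nil .nil) .nil) (.node 807 .nil .nil (.node 807 (.stop 807) .nil .nil)) .nil)) .nil .nil) .nil)) .nil) (.node 4219 (.node 2538 .nil (.node 2538 .nil .nil (.node 2538 (.node 1393 .nil (.node 925 (.node 925 .nil .nil (.node 925 (.stop 441) (.stop 484) .nil)) .nil .nil) (.node 468 .nil (.node 468 (.node 468 .nil .nil (.stop 468)) .nil .nil) .nil)) (.node 1145 (.node 1145 .nil .nil (.node 1145 (.node 556 .nil (.stop 556) .nil) (.node 589 .nil .nil (.stop 589)) .nil)) .nil .nil) .nil)) .nil) .nil (.node 1681 (.node 1681 .nil .nil (.node 1681 .nil (.node 1681 (.node 1681 .nil (.node 899 .nil .nil (.node 899 (.stop 405) (.stop 494) .nil)) (.node 782 (.node 782 .nil (.stop 782) .nil) .nil .nil)) .nil .nil) .nil)) .nil .nil))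 .nil)) .nil (.node 3920 .nil (.node 3920 (.node 3920 .nil (.node 2070 .nil .nil (.node 2070 (.node 2070 .nil (.node 1076 (.node 1076 .nil .nil (.node 1076 (.node 456 .nil (.stop 456) .nil) (.node 620 (.stop 246) .nil (.stop 374)) .nil)) .nil .nil) (.node 994 .nil (.node 994 (.node 994 .nil (.node 456 .nil .nil (.stop 456)) (.node 538 (.stop 538) .nil .nil)) .nil .nil) .nil)) .nil .nil)) (.node 1850 (.node 1194 .nil (.node 1194 (.node 1194 .nil .nil (.node 1194 .nil (.node 1194 (.node 538 .nil (.stop 538) .nil) .nil (.node 656 (.stop 656) .nil .nil)) .nil)) .nil .nil) .nil) (.node 656 .nil .nil (.node 656 (.node 656 .nil .nil (.node 656 .nil (.node 656 (.node 656 .nil (.stop 246) (.stop 410)) .nil .nil) .nil)) .nil .nil)) .nil)) .nil .nil) .nil))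

def tri13 : Tri := (.node 9414 (.node 9414 .nil .nil (.node 9414 (.node 4703 .nil (.node 4703 .nil .nil (.node 4703 (.node 2137 .nil .nil (.node 2137 .nil (.node 2137 (.node 1298 .nil (.node 713 .nil .nil (.stop 713)) (.node 585 (.stop 585) .nil .nil)) .nil (.node 839 (.node 839 .nil (.stop 839) .nil) .nil .nil)) .nil)) (.node 2566 (.node 2566 .nil (.node 728 .nil .nil (.node 728 (.node 728 .nil .nil (.stop 728)) .nil .nil)) (.node 1838 (.node 670 .nil (.node 670 (.stop 670) .nil .nil) .nil) (.node 1168 .nil .nil (.node 1168 (.stop 1168) .nil .nil)) .nil)) .nil .nil) .nil)) .nil) (.node 4711 (.node 2122 .nil (.node 2122 .nil .nil (.node 2122 .nil (.node 2122 (.node 2122 .nil .nil (.node 2122 (.node 1056 .nil (.stop 1056) .nil) (.node 1066 .nil .nil (.stop 1066)) .nil)) .nil .nil) .nil)) .nil) .nil (.node 2589 (.node 2589 .nil .nil (.node 2589 .nil (.node 2589 (.node 2589 .nil (.node 1485 .nil .nil (.node 1485 (.stop 900) (.stop 585) .nil)) (.node 1104 (.node 1104 .nil (.stop 1104) .nil) .nil .nil))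 .nil .nil) .nil)) .nil .nil)) .nil)) .nil .nil)

def tri14 : Tri := (.node 10000 .nil (.node 10000 (.node 6412 .nil (.node 2548 .nil .nil (.node 2548 .nil (.node 2548 (.node 2548 .nil .nil (.node 2548 (.node 1435 .nil (.node 1435 (.node 804 .nil .nil (.stop 804)) .nil (.node 631 (.stop 471) (.stop 160) .nil)) .nil) (.node 1113 .nil .nil (.node 1113 (.node 1113 .nil (.stop 676) (.stop 437)) .nil .nil)) .nil)) .nil .nil) .nil)) (.node 3864 (.node 3864 .nil (.node 3864 (.node 1694 .nil .nil (.node 1694 .nil (.node 1694 (.node 713 .nil (.node 713 .nil .nil (.stop 713)) .nil) .nil (.node 981 (.node 981 .nil (.stop 543) (.stop 438)) .nil .nil)) .nil)) .nil (.node 2170 (.node 1066 .nil .nil (.node 1066 .nil (.node 1066 (.node 456 .nil (.stop 456) .nil) .nil (.node 610 (.stop 610) .nil .nil)) .nil)) (.node 1104 (.node 1104 .nil (.node 494 .nil .nil (.node 494 (.stop 494) .nil .nil)) (.node 610 .nil (.node 610 .nil .nil (.stop 610)) .nil)) .nil .nil) .nil)) .nil) .nil .nil)) .nil (.node 3588 (.node 3588 .nil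 (.node 3588 (.node 3124 .nil .nil (.node 3124 (.node 1178 .nil (.node 1178 .nil .nil (.node 1178 (.node 458 .nil .nil (.stop 458)) (.node 720 (.stop 720) .nil .nil) .nil)) .nil) (.node 1946 (.node 1116 .nil (.node 1116 .nil .nil (.node 1116 (.stop 582) (.stop 534) .nil)) .nil) .nil (.node 830 (.node 830 .nil .nil (.node 830 .nil (.stop 830) .nil)) .nil .nil)) .nil)) .nil (.node 464 .nil (.node 464 (.node 464 .nil (.node 464 .nil .nil (.node 464 (.node 464 .nil (.stop 464) .nil) .nil .nil)) .nil) .nil .nil) .nil)) .nil) .nil .nil)) .nil)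

def tri15 : Tri := (.node 8897 .nil (.node 8897 (.node 8897 .nil (.node 4799 .nil .nil (.node 4799 (.node 1640 .nil (.node 500 (.node 500 .nil .nil (.node 500 .nil (.node 500 .nil .nil (.node 500 (.stop 500) .nil .nil)) .nil)) .nil .nil) (.node 1140 .nil (.node 1140 .nil .nil (.node 1140 (.node 1140 .nil (.node 1140 (.stop 570) .nil (.stop 570)) .nil) .nil .nil)) .nil)) (.node 3159 (.node 3159 .nil .nil (.node 3159 (.node 1893 .nil (.node 1893 (.node 729 .nil .nil (.stop 729)) .nil (.node 1164 (.stop 668) (.stop 496) .nil)) .nil) (.node 1266 .nil .nil (.node 1266 (.node 1266 .nil (.stop 1028) (.stop 238)) .nil .nil)) .nil)) .nil .nil) .nil)) (.node 4098 (.node 4098 .nil (.node 4098 (.node 2482 .nil .nil (.node 2482 .nil (.node 2482 (.node 1377 .nil (.node 1377 .nil .nil (.stop 1377)) .nil) .nil (.node 1105 (.node 1105 .nil (.stop 1105) .nil) .nil .nil)) .nil)) .nil (.node 1616 (.node 1616 .nil .nil (.node 1616 .nil (.node 1616 (.node 546 .nil (.stop 546) .nil) .nil (.node 1070 (.stop 1070) .nil .nil))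 .nil)) .nil .nil)) .nil) .nil .nil)) .nil .nil) .nil)

def tri16 : Tri := (.node 10000 (.node 3978 .nil .nil (.node 3978 (.node 3978 .nil (.node 3978 .nil .nil (.node 3978 (.node 1918 .nil .nil (.node 1918 .nil (.node 1918 (.node 1213 .nil (.node 702 .nil .nil (.stop 702)) (.node 511 (.stop 511) .nil .nil)) .nil (.node 705 (.node 705 .nil (.stop 705) .nil) .nil .nil)) .nil)) (.node 2060 (.node 2060 .nil (.node 937 .nil .nil (.node 937 (.node 937 .nil (.stop 278) (.stop 659)) .nil .nil)) (.node 1123 (.node 330 .nil (.node 330 (.stop 330) .nil .nil) .nil) (.node 793 .nil .nil (.node 793 (.stop 793) .nil .nil)) .nil)) .nil .nil) .nil)) .nil) .nil .nil)) .nil (.node 6022 .nil (.node 6022 (.node 6022 .nil (.node 2643 .nil .nil (.node 2643 (.node 2643 .nil (.node 1306 (.node 1306 .nil .nil (.node 1306 (.node 561 .nil (.stop 561) .nil) (.node 745 (.stop 466) .nil (.stop 279)) .nil)) .nil .nil) (.node 1337 .nil (.node 1337 (.node 1337 .nil (.node 465 .nil .nil (.stop 465)) (.node 872 (.stop 872) .nil .nil))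 .nil .nil) .nil)) .nil .nil)) (.node 3379 (.node 2245 .nil (.node 2245 (.node 933 .nil .nil (.node 933 .nil (.node 933 (.node 654 .nil (.stop 654) .nil) .nil (.node 279 (.stop 279) .nil .nil)) .nil)) .nil (.node 1312 (.node 1312 .nil .nil (.node 1312 .nil (.node 1312 (.stop 904) .nil (.stop 408)) .nil)) .nil .nil)) .nil) (.node 1134 .nil .nil (.node 1134 (.node 1134 .nil (.node 1134 (.node 1134 .nil .nil (.node 1134 (.stop 561) (.stop 573) .nil)) .nil .nil) .nil) .nil .nil)) .nil)) .nil .nil) .nil))

def tri17 : Tri := (.node 10000 (.node 4240 .nil .nil (.node 4240 .nil (.node 4240 (.node 2540 .nil (.node 2540 .nil .nil (.node 2540 (.node 1509 .nil (.node 979 (.node 979 .nil .nil (.node 979 (.stop 530) (.stop 449) .nil)) .nil .nil) (.node 530 .nil (.node 530 .nil .nil (.node 530 (.stop 530) .nil .nil)) .nil)) (.node 1031 (.node 1031 .nil .nil (.node 1031 (.node 418 .nil (.stop 418) .nil) (.node 613 .nil .nil (.stop 613)) .nil)) .nil .nil) .nil)) .nil) .nil (.node 1700 (.node 1700 .nil (.node 1700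 (.node 477 .nil .nil (.node 477 (.node 477 .nil (.node 477 .nil .nil (.stop 477)) .nil) .nil .nil)) .nil (.node 1223 .nil (.node 1223 (.node 1223 .nil (.node 548 .nil .nil (.stop 548)) (.node 675 (.stop 379) (.stop 296) .nil)) .nil .nil) .nil)) .nil) .nil .nil)) .nil)) .nil (.node 5760 (.node 3276 .nil .nil (.node 3276 .nil (.node 3276 (.node 1266 .nil (.node 1266 .nil .nil (.node 1266 (.node 846 .nil (.node 846 (.node 846 .nil .nil (.stop 846)) .nil .nil) .nil) (.node 420 (.node 420 .nil .nil (.node 420 (.stop 84) (.stop 336) .nil)) .nil .nil) .nil)) .nil) .nil (.node 2010 (.node 2010 .nil (.node 2010 (.node 1044 .nil .nil (.node 1044 (.node 390 .nil (.stop 390) .nil) (.node 654 (.stop 552) .nil (.stop 102)) .nil)) .nil (.node 966 .nil (.node 966 (.node 966 .nil (.stop 378) (.stop 588)) .nil .nil) .nil)) .nil) .nil .nil)) .nil)) (.node 2484 (.node 2484 .nil (.node 1080 .nil .nil (.node 1080 (.node 1080 .nil (.node 912 (.node 912 .nil .nil (.node 912 (.node 306 .nil (.stop 306) .nil) (.node 606 (.stop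 336) .nil (.stop 270)) .nil)) .nil .nil) (.node 168 .nil (.node 168 (.node 168 .nil (.node 168 .nil .nil (.stop 168)) .nil) .nil .nil) .nil)) .nil .nil)) (.node 1404 .nil (.node 1404 .nil .nil (.node 1404 (.node 1404 .nil (.node 1404 (.node 768 .nil .nil (.node 768 (.stop 300) (.stop 468) .nil)) .nil (.node 636 .nil (.node 636 (.stop 636) .nil .nil) .nil)) .nil) .nil .nil)) .nil)) .nil .nil) .nil))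

def tri18 : Tri := (.node 10000 .nil .nil (.node 10000 (.node 6235 .nil (.node 3009 (.node 3009 .nil .nil (.node 3009 (.node 1740 .nil (.node 1740 .nil .nil (.node 1740 (.node 688 .nil .nil (.node 688 .nil (.stop 688) .nil)) (.node 1052 (.node 1052 .nil (.stop 409) (.stop 643)) .nil .nil) .nil)) .nil) (.node 1269 .nil .nil (.node 1269 (.node 1269 .nil (.node 462 .nil .nil (.node 462 .nil (.stop 462) .nil)) (.node 807 .nil (.node 807 (.stop 807) .nil .nil) .nil)) .nil .nil)) .nil)) .nil .nil) (.node 3226 .nil (.node 3226 (.node 1317 .nil .nil (.node 1317 (.node 1317 .nil (.node 1317 .nil .nil (.node 1317 (.node 641 .nil .nil (.stop 641)) (.node 676 (.stop 676) .nil .nil) .nil)) .nil) .nil .nil)) .nil (.node 1909 (.node 1909 .nil (.node 1909 (.node 748 .nil .nil (.node 748 .nil (.node 748 (.stop 499) .nil (.stop 249)) .nil)) .nil (.node 1161 .nil (.node 1161 (.node 1161 .nil (.stop 441) (.stop 720)) .nil .nil) .nil)) .nil) .nil .nil)) .nil)) (.node 3765 (.node 3765 .nil .nil (.node 3765 (.node 2073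 .nil (.node 2073 (.node 630 .nil .nil (.node 630 .nil (.node 630 .nil .nil (.node 630 (.stop 630) .nil .nil)) .nil)) .nil (.node 1443 (.node 915 .nil .nil (.node 915 .nil (.node 915 (.stop 521) .nil (.stop 394)) .nil)) (.node 528 (.node 528 .nil (.node 528 .nil .nil (.stop 528)) .nil) .nil .nil) .nil)) .nil) (.node 1692 .nil .nil (.node 1692 (.node 1692 .nil (.node 1123 (.node 660 .nil .nil (.node 660 (.stop 342) (.stop 318) .nil)) .nil (.node 463 .nil (.node 463 (.stop 463) .nil .nil) .nil)) (.node 569 .nil (.node 569 (.node 569 .nil (.stop 227) (.stop 342)) .nil .nil) .nil)) .nil .nil)) .nil)) .nil .nil) .nil))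

def tri19 : Tri := (.node 10000 (.node 3992 .nil .nil (.node 3992 .nil (.node 3992 (.node 1599 .nil (.node 1599 .nil .nil (.node 1599 (.node 1011 .nil (.node 1011 (.node 1011 .nil .nil (.node 1011 (.stop 510) (.stop 501) .nil)) .nil .nil) .nil) (.node 588 (.node 588 .nil .nil (.node 588 .nil (.node 588 .nil .nil (.stop 588)) .nil)) .nil .nil) .nil)) .nil) .nil (.node 2393 (.node 2393 .nil (.node 837 (.node 837 .nil .nil (.node 837 (.node 837 .nil (.node 837 .nil .nil (.stop 837)) .nil) .nil .nil)) .nil .nil) (.node 1556 .nil (.node 1556 (.node 1556 .nil (.node 778 .nil .nil (.node 778 (.stop 622) (.stop 156) .nil)) (.node 778 (.node 778 .nil (.stop 778) .nil) .nil .nil)) .nil .nil) .nil)) .nil .nil)) .nil)) .nil (.node 6008 (.node 3582 .nil .nil (.node 3582 .nil (.node 3582 (.node 1877 .nil (.node 1227 .nil .nil (.node 1227 (.node 802 .nil (.node 802 (.node 802 .nil .nil (.stop 802)) .nil .nil) .nil) (.node 425 (.node 425 .nil .nil (.node 425 .nil (.stop 425) .nil)) .nil .nil) .nil)) (.node 650 (.node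 650 .nil (.node 650 .nil .nil (.node 650 .nil (.node 650 (.stop 650) .nil .nil) .nil)) .nil) .nil .nil)) .nil (.node 1705 (.node 1705 .nil (.node 1705 (.node 690 .nil .nil (.node 690 .nil (.node 690 (.stop 431) .nil (.stop 259)) .nil)) .nil (.node 1015 .nil (.node 1015 (.node 1015 .nil (.stop 401) (.stop 614)) .nil .nil) .nil)) .nil) .nil .nil)) .nil)) (.node 2426 (.node 2426 .nil (.node 2426 .nil .nil (.node 2426 (.node 2426 .nil (.node 1063 (.node 1063 .nil .nil (.node 1063 (.node 433 .nil (.stop 433) .nil) (.node 630 (.stop 264) .nil (.stop 366)) .nil)) .nil .nil) (.node 1363 .nil (.node 1363 (.node 660 .nil (.node 198 .nil .nil (.stop 198)) (.node 462 (.stop 462) .nil .nil)) .nil (.node 703 (.node 703 .nil (.stop 703) .nil) .nil .nil)) .nil)) .nil .nil)) .nil) .nil .nil) .nil))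

def tri20 : Tri := (.node 10000 (.node 6252 .nil (.node 6252 (.node 4634 .nil .nil (.node 4634 .nil (.node 4634 (.node 2565 .nil (.node 2565 .nil .nil (.node 2565 (.node 1704 .nil (.node 786 (.stop 786) .nil .nil) (.node 918 .nil (.stop 918) .nil)) (.node 861 (.node 861 .nil .nil (.stop 861)) .nil .nil) .nil)) .nil) .nil (.node 2069 (.node 2069 .nil (.node 1194 (.node 625 .nil .nil (.node 625 (.stop 625) .nil .nil)) .nil (.node 569 .nil (.node 569 (.stop 569) .nil .nil) .nil)) (.node 875 .nil (.node 875 (.node 875 .nil (.stop 375) (.stop 500)) .nil .nil) .nil)) .nil .nil)) .nil)) .nil (.node 1618 (.node 1618 .nil .nil (.node 1618 .nil (.node 1618 (.node 1299 .nil (.node 1299 .nil .nil (.node 1299 (.node 375 .nil (.stop 375) .nil) (.node 924 (.stop 924) .nil .nil) .nil)) .nil) .nil (.node 319 (.node 319 .nil (.node 319 .nil .nil (.node 319 .nil (.stop 319) .nil)) .nil) .nil .nil)) .nil)) .nil .nil)) .nil) (.node 3748 .nil .nil (.node 3748 (.node 3748 .nil (.node 700 (.node 700 .nil .nil (.node 700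 (.node 700 .nil (.node 700 .nil .nil (.node 700 (.node 700 .nil .nil (.stop 700)) .nil .nil)) .nil) .nil .nil)) .nil .nil) (.node 3048 .nil (.node 3048 (.node 3048 .nil (.node 1300 .nil .nil (.node 1300 (.node 1300 .nil (.node 928 (.stop 928) .nil .nil) (.node 372 .nil (.stop 372) .nil)) .nil .nil)) (.node 1748 (.node 1748 .nil (.node 1748 (.node 1004 .nil .nil (.stop 1004)) .nil (.node 744 (.stop 372) (.stop 372) .nil)) .nil) .nil .nil)) .nil .nil) .nil)) .nil .nil)) .nil)

def tri21 : Tri := (.node 10000 .nil .nil (.node 10000 (.node 10000 .nil (.node 4471 (.node 4471 .nil .nil (.node 4471 (.node 1928 .nil (.node 1928 .nil .nil (.node 1928 (.node 772 .nil .nil (.node 772 .nil (.stop 772) .nil)) (.node 1156 (.node 1156 .nil (.stop 367) (.stop 789)) .nil .nil) .nil)) .nil) (.node 2543 (.node 1218 .nil (.node 1218 .nil .nil (.node 1218 (.node 371 .nil .nil (.stop 371)) (.node 847 (.stop 847) .nil .nil) .nil)) .nil) .nil (.node 1325 (.node 1325 .nil (.node 332 .nil .nil (.node 332 .nil (.stop 332) .nil))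 (.node 993 .nil (.node 993 (.stop 993) .nil .nil) .nil)) .nil .nil)) .nil)) .nil .nil) (.node 5529 .nil (.node 5529 (.node 3613 .nil (.node 1172 .nil .nil (.node 1172 .nil (.node 1172 (.node 1172 .nil .nil (.node 1172 (.stop 469) (.stop 703) .nil)) .nil .nil) .nil)) (.node 2441 (.node 2441 .nil (.node 2441 (.node 1129 .nil .nil (.node 1129 .nil (.stop 1129) .nil)) .nil (.node 1312 (.node 606 .nil .nil (.stop 606)) (.node 706 (.stop 706) .nil .nil) .nil)) .nil) .nil .nil)) .nil (.node 1916 (.node 1916 .nil (.node 1916 (.node 1916 .nil .nil (.node 1916 (.node 769 .nil (.stop 769) .nil) (.node 1147 (.stop 729) .nil (.stop 418)) .nil)) .nil .nil) .nil) .nil .nil)) .nil)) .nil .nil))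

def tri22 : Tri := (.node 10000 .nil .nil (.node 10000 (.node 4490 .nil .nil (.node 4490 .nil (.node 4490 (.node 2026 .nil (.node 894 .nil .nil (.node 894 .nil (.node 894 (.node 894 .nil .nil (.node 894 (.stop 397) (.stop 497) .nil)) .nil .nil) .nil)) (.node 1132 (.node 1132 .nil (.node 1132 (.node 1132 .nil .nil (.node 1132 .nil (.stop 1132) .nil)) .nil .nil) .nil) .nil .nil)) .nil (.node 2464 (.node 2464 .nil (.node 2464 (.node 1072 .nil .nil (.node 1072 .nil (.node 1072 (.stop 718) .nil (.stop 354)) .nil)) .nil (.node 1392 .nil (.node 1392 (.node 1392 .nil (.stop 600) (.stop 792)) .nil .nil) .nil)) .nil) .nil .nil)) .nil)) (.node 5510 (.node 5510 .nil (.node 2034 .nil .nil (.node 2034 (.node 2034 .nil (.node 258 (.node 258 .nil .nil (.node 258 (.node 258 .nil (.stop 258) .nil) .nil .nil)) .nil .nil) (.node 1776 .nil (.node 1776 (.node 1128 .nil (.node 444 .nil .nil (.stop 444)) (.node 684 (.stop 684) .nil .nil)) .nil (.node 648 (.node 648 .nil (.stop 648) .nil) .nil .nil)) .nil)) .nil .nil)) (.node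 3476 (.node 1300 .nil (.node 1300 (.node 1300 .nil .nil (.node 1300 .nil (.node 1300 (.node 649 .nil (.stop 649) .nil) .nil (.node 651 (.stop 651) .nil .nil)) .nil)) .nil .nil) .nil) (.node 2176 .nil .nil (.node 2176 (.node 2176 .nil (.node 1136 (.node 488 .nil .nil (.node 488 .nil (.stop 488) .nil)) .nil (.node 648 .nil (.node 648 (.stop 648) .nil .nil) .nil)) (.node 1040 .nil (.node 1040 (.node 1040 .nil (.stop 480) (.stop 560)) .nil .nil) .nil)) .nil .nil)) .nil)) .nil .nil) .nil))

def tri23 : Tri := (.node 10000 .nil .nil (.node 10000 (.node 4463 .nil (.node 4463 (.node 4463 .nil .nil (.node 4463 (.node 1798 .nil (.node 1798 .nil .nil (.node 1798 (.node 800 .nil .nil (.node 800 .nil (.stop 800) .nil)) (.node 998 (.node 998 .nil (.stop 320) (.stop 678)) .nil .nil) .nil)) .nil) (.node 2665 (.node 1223 .nil (.node 1223 .nil .nil (.node 1223 (.node 424 .nil .nil (.stop 424)) (.node 799 (.stop 799) .nil .nil) .nil)) .nil) .nil (.node 1442 (.node 1442 .nil (.node 650 .nil .nil (.node 650 .nil (.stop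 650) .nil)) (.node 792 .nil (.node 792 (.stop 792) .nil .nil) .nil)) .nil .nil)) .nil)) .nil .nil) .nil) (.node 5537 (.node 5537 .nil .nil (.node 5537 (.node 3041 .nil (.node 3041 (.node 1299 .nil .nil (.node 1299 .nil (.node 1299 (.node 563 .nil (.stop 563) .nil) .nil (.node 736 (.stop 736) .nil .nil)) .nil)) .nil (.node 1742 (.node 1081 .nil .nil (.node 1081 .nil (.node 1081 (.stop 573) .nil (.stop 508)) .nil)) (.node 661 (.node 661 .nil (.node 661 .nil .nil (.stop 661)) .nil) .nil .nil) .nil)) .nil) (.node 2496 .nil .nil (.node 2496 (.node 2496 .nil (.node 1594 (.node 1040 .nil .nil (.node 1040 (.stop 538) (.stop 502) .nil)) .nil (.node 554 .nil (.node 554 (.stop 554) .nil .nil) .nil)) (.node 902 .nil (.node 902 (.node 902 .nil (.stop 328) (.stop 574)) .nil .nil) .nil)) .nil .nil)) .nil)) .nil .nil) .nil))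

def tri24 : Tri := (.node 10000 (.node 10000 .nil (.node 10000 (.node 3991 .nil .nil (.node 3991 .nil (.node 3991 (.node 2190 .nil (.node 2190 .nil .nil (.node 2190 (.node 1091 .nil (.node 649 (.stop 649) .nil .nil) (.node 442 .nil (.stop 442) .nil)) (.node 1099 (.node 1099 .nil .nil (.stop 1099)) .nil .nil) .nil)) .nil) .nil (.node 1801 (.node 1801 .nil (.node 1801 (.node 589 .nil .nil (.node 589 (.stop 589) .nil .nil)) .nil (.node 1212 .nil (.node 1212 (.stop 1212) .nil .nil) .nil)) .nil) .nil .nil)) .nil)) .nil (.node 6009 (.node 2648 .nil .nil (.node 2648 .nil (.node 2648 (.node 1238 .nil (.node 1238 .nil .nil (.node 1238 (.node 404 .nil (.stop 404) .nil) (.node 834 (.stop 834) .nil .nil) .nil)) .nil) .nil (.node 1410 (.node 1410 .nil (.node 1410 (.node 1000 .nil .nil (.stop 1000)) .nil (.node 410 .nil (.stop 410) .nil)) .nil) .nil .nil)) .nil)) (.node 3361 (.node 3361 .nil (.node 1877 .nil .nil (.node 1877 (.node 1877 .nil (.node 993 (.node 993 .nil .nil (.stop 993)) .nil .nil) (.node 884 .nil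 (.node 884 (.stop 311) .nil (.stop 573)) .nil)) .nil .nil)) (.node 1484 .nil (.node 1484 .nil .nil (.node 1484 (.node 1484 .nil (.node 640 (.stop 320) .nil (.stop 320)) (.node 844 .nil (.stop 844) .nil)) .nil .nil)) .nil)) .nil .nil) .nil)) .nil) .nil .nil)

def tri25 : Tri := (.node 10000 .nil (.node 10000 (.node 6024 .nil (.node 3780 .nil .nil (.node 3780 (.node 1767 .nil (.node 1767 (.node 1767 .nil .nil (.node 1767 (.node 756 .nil (.node 756 .nil .nil (.stop 756)) .nil) (.node 1011 (.node 504 .nil (.stop 504) .nil) .nil (.node 507 (.stop 507) .nil .nil)) .nil)) .nil .nil) .nil) (.node 2013 (.node 2013 .nil .nil (.node 2013 (.node 1097 .nil (.node 1097 (.node 744 .nil .nil (.stop 744)) .nil (.node 353 .nil (.stop 353) .nil)) .nil) (.node 916 .nil .nil (.node 916 (.node 916 .nil (.stop 611) (.stop 305)) .nil .nil)) .nil)) .nil .nil) .nil)) (.node 2244 (.node 2244 .nil (.node 2244 (.node 774 .nil .nil (.node 774 .nil (.node 774 (.node 774 .nil (.node 774 .nil .nil (.stop 774)) .nil) .nil .nil) .nil))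 .nil (.node 1470 .nil (.node 1470 (.node 1470 .nil (.node 669 .nil .nil (.node 669 (.stop 669) .nil .nil)) (.node 801 .nil (.node 801 .nil .nil (.stop 801)) .nil)) .nil .nil) .nil)) .nil) .nil .nil)) .nil (.node 3976 (.node 3976 .nil (.node 3976 (.node 2233 .nil .nil (.node 2233 (.node 710 .nil (.node 710 .nil .nil (.node 710 .nil (.node 710 (.stop 710) .nil .nil) .nil)) .nil) (.node 1523 (.node 911 .nil (.node 911 .nil .nil (.node 911 (.stop 596) (.stop 315) .nil)) .nil) .nil (.node 612 (.node 612 .nil .nil (.node 612 .nil (.stop 612) .nil)) .nil .nil)) .nil)) .nil (.node 1743 .nil (.node 1743 (.node 1743 .nil (.node 741 .nil .nil (.node 741 (.node 741 .nil (.stop 366) (.stop 375)) .nil .nil)) (.node 1002 (.node 448 .nil (.node 448 (.stop 448) .nil .nil) .nil) (.node 554 .nil .nil (.node 554 (.stop 554) .nil .nil)) .nil)) .nil .nil) .nil)) .nil) .nil .nil)) .nil)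

def tri26 : Tri := (.node 10000 (.node 5471 .nil (.node 5471 .nil .nil (.node 5471 (.node 2496 .nil .nil (.node 2496 .nil (.node 2496 (.node 1652 .nil (.node 1048 .nil .nil (.node 1048 (.node 444 .nil (.stop 444) .nil) (.node 604 (.stop 604) .nil .nil) .nil)) (.node 604 (.node 604 .nil (.node 604 (.stop 320) .nil (.stop 284)) .nil) .nil .nil)) .nil (.node 844 (.node 844 .nil (.node 844 (.node 400 .nil .nil (.stop 400)) .nil (.node 444 .nil (.stop 444) .nil)) .nil) .nil .nil)) .nil)) (.node 2975 (.node 2975 .nil (.node 1118 .nil .nil (.node 1118 (.node 1118 .nil .nil (.node 1118 .nil (.node 1118 (.stop 730) .nil (.stop 388)) .nil)) .nil .nil)) (.node 1857 (.node 897 .nil (.node 897 (.node 897 .nil .nil (.node 897 .nil (.stop 897) .nil)) .nil .nil) .nil) (.node 960 .nil .nil (.node 960 (.node 960 .nil (.node 206 .nil .nil (.stop 206)) (.node 754 .nil (.stop 754) .nil)) .nil .nil)) .nil)) .nil .nil) .nil)) .nil) (.node 4529 (.node 4529 .nil (.node 4529 .nil .nil (.node 4529 (.node 2975 .nil (.node 1516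 (.node 1516 .nil .nil (.node 1516 (.node 785 .nil (.node 785 .nil .nil (.stop 785)) .nil) (.node 731 .nil .nil (.node 731 (.stop 731) .nil .nil)) .nil)) .nil .nil) (.node 1459 .nil (.node 1459 (.node 852 .nil .nil (.node 852 (.node 852 .nil (.stop 852) .nil) .nil .nil)) .nil (.node 607 (.node 607 .nil (.node 607 (.stop 400) .nil (.stop 207)) .nil) .nil .nil)) .nil)) (.node 1554 (.node 1554 .nil .nil (.node 1554 (.node 742 .nil (.node 742 .nil .nil (.node 742 (.stop 452) (.stop 290) .nil)) .nil) (.node 812 .nil .nil (.node 812 (.node 812 .nil (.stop 442) (.stop 370)) .nil .nil)) .nil)) .nil .nil) .nil)) .nil) .nil .nil) .nil)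

def tri27 : Tri := (.node 10000 (.node 4999 .nil (.node 4999 (.node 2012 .nil .nil (.node 2012 .nil (.node 2012 (.node 740 .nil (.node 740 .nil .nil (.node 740 (.node 740 .nil (.node 740 (.stop 740) .nil .nil) .nil) .nil .nil)) .nil) .nil (.node 1272 (.node 1272 .nil (.node 612 (.node 612 .nil .nil (.node 612 (.stop 612) .nil .nil)) .nil .nil) (.node 660 .nil (.node 660 (.node 660 .nil (.stop 220) (.stop 440)) .nil .nil) .nil)) .nil .nil)) .nil)) .nil (.node 2987 (.node 1004 .nil .nil (.node 1004 .nil (.node 1004 (.node 392 .nil (.node 392 .nil .nil (.node 392 (.node 392 .nil (.stop 392) .nil) .nil .nil)) .nil) .nil (.node 612 (.node 612 .nil (.node 612 .nil .nil (.node 612 .nil (.stop 612) .nil)) .nil) .nil .nil)) .nil)) (.node 1983 (.node 1983 .nil (.node 1983 .nil .nil (.node 1983 (.node 1983 .nil (.node 810 (.node 810 .nil .nil (.stop 810)) .nil .nil) (.node 1173 .nil (.node 1173 (.stop 674) .nil (.stop 499)) .nil)) .nil .nil)) .nil) .nil .nil) .nil)) .nil) (.node 5001 .nil .nil (.node 5001 (.node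 5001 .nil (.node 2480 (.node 414 .nil .nil (.node 414 (.node 414 .nil (.node 414 .nil .nil (.node 414 (.node 414 .nil .nil (.stop 414)) .nil .nil)) .nil) .nil .nil)) .nil (.node 2066 .nil (.node 2066 (.node 2066 .nil (.node 714 .nil .nil (.node 714 (.node 714 .nil (.stop 387) (.stop 327)) .nil .nil)) (.node 1352 (.node 1352 .nil (.node 1352 (.stop 670) .nil (.stop 682)) .nil) .nil .nil)) .nil .nil) .nil)) (.node 2521 .nil (.node 2521 (.node 2521 .nil (.node 1226 .nil .nil (.node 1226 (.node 1226 .nil (.node 730 (.stop 730) .nil .nil) (.node 496 .nil (.stop 496) .nil)) .nil .nil)) (.node 1295 (.node 1295 .nil (.node 1295 (.node 474 .nil .nil (.stop 474)) .nil (.node 821 (.stop 326) (.stop 495) .nil)) .nil) .nil .nil)) .nil .nil) .nil)) .nil .nil)) .nil)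

def tri28 : Tri := (.node 10000 .nil (.node 10000 (.node 4551 .nil (.node 4551 .nil .nil (.node 4551 (.node 2646 .nil (.node 1356 (.node 1356 .nil .nil (.node 1356 (.node 755 .nil (.node 755 .nil .nil (.stop 755)) .nil) (.node 601 .nil .nil (.node 601 (.stop 601) .nil .nil)) .nil)) .nil .nil) (.node 1290 .nil (.node 1290 (.node 538 .nil .nil (.node 538 (.node 538 .nil (.stop 538) .nil) .nil .nil)) .nil (.node 752 (.node 752 .nil (.node 752 (.stop 451) .nil (.stop 301)) .nil) .nil .nil)) .nil)) (.node 1905 (.node 1905 .nil .nil (.node 1905 (.node 949 .nil (.node 949 (.node 385 .nil .nil (.stop 385)) .nil (.node 564 (.stop 317) (.stop 247) .nil)) .nil) (.node 956 .nil .nil (.node 956 (.node 956 .nil (.stop 619) (.stop 337)) .nil .nil)) .nil)) .nil .nil) .nil)) .nil) .nil (.node 5449 (.node 5449 .nil (.node 4082 (.node 1645 .nil .nil (.node 1645 (.node 1645 .nil (.node 1645 .nil .nil (.node 1645 (.node 663 .nil .nil (.stop 663)) (.node 982 (.stop 982) .nil .nil) .nil)) .nil) .nil .nil)) .nil (.node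 2437 .nil (.node 2437 (.node 2437 .nil (.node 946 .nil .nil (.node 946 (.node 946 .nil (.stop 434) (.stop 512)) .nil .nil)) (.node 1491 (.node 780 .nil (.node 780 (.stop 312) .nil (.stop 468)) .nil) (.node 711 .nil .nil (.node 711 (.stop 711) .nil .nil)) .nil)) .nil .nil) .nil)) (.node 1367 .nil (.node 1367 (.node 1367 .nil (.node 1367 .nil .nil (.node 1367 (.node 290 .nil .nil (.node 290 .nil (.stop 290) .nil)) (.node 1077 (.node 1077 .nil .nil (.stop 1077)) .nil .nil) .nil)) .nil) .nil .nil) .nil)) .nil .nil)) .nil)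

def tri29 : Tri := (.node 10000 (.node 10000 .nil .nil (.node 10000 (.node 4055 .nil (.node 4055 .nil .nil (.node 4055 (.node 1824 .nil .nil (.node 1824 .nil (.node 1824 (.node 1057 .nil (.node 468 .nil .nil (.stop 468)) (.node 589 (.stop 589) .nil .nil)) .nil (.node 767 (.node 767 .nil (.stop 767) .nil) .nil .nil)) .nil)) (.node 2231 (.node 2231 .nil (.node 912 .nil .nil (.node 912 (.node 912 .nil (.stop 278) (.stop 634)) .nil .nil)) (.node 1319 (.node 434 .nil (.node 434 (.stop 434) .nil .nil) .nil) (.node 885 .nil .nil (.node 885 (.stop 885) .nil .nil)) .nil)) .nil .nil) .nil)) .nil) (.node 5945 (.node 1836 .nil (.node 1836 .nil .nil (.node 1836 .nil (.node 1836 (.node 1836 .nil .nil (.node 1836 (.node 990 .nil (.stop 990) .nil) (.node 846 .nil .nil (.stop 846)) .nil)) .nil .nil) .nil)) .nil) .nil (.node 4109 (.node 4109 .nil (.node 1855 .nil .nil (.node 1855 .nil (.node 1855 (.node 1855 .nil (.node 822 .nil .nil (.stop 822)) (.node 1033 (.stop 535) (.stop 498) .nil)) .nil .nil) .nil)) (.node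 2254 .nil (.node 2254 (.node 2254 .nil (.node 1240 .nil .nil (.node 1240 (.stop 724) (.stop 516) .nil)) (.node 1014 (.node 1014 .nil (.stop 1014) .nil) .nil .nil)) .nil .nil) .nil)) .nil .nil)) .nil)) .nil .nil)

def tri30 : Tri := (.node 10000 .nil (.node 10000 (.node 4474 .nil .nil (.node 4474 (.node 4474 .nil (.node 4474 (.node 976 .nil .nil (.node 976 .nil (.node 976 (.node 976 .nil (.node 976 .nil .nil (.stop 976)) .nil) .nil .nil) .nil)) .nil (.node 3498 (.node 1683 .nil .nil (.node 1683 .nil (.node 1683 (.node 727 .nil (.stop 727) .nil) .nil (.node 956 (.stop 956) .nil .nil)) .nil)) (.node 1815 (.node 1815 .nil (.node 780 .nil .nil (.node 780 (.stop 780) .nil .nil)) (.node 1035 .nil (.node 1035 .nil .nil (.stop 1035)) .nil)) .nil .nil) .nil)) .nil) .nil .nil)) .nil (.node 5526 (.node 5526 .nil (.node 5526 (.node 2939 .nil .nil (.node 2939 (.node 1078 .nil (.node 1078 .nil .nil (.node 1078 .nil (.node 1078 (.stop 1078) .nil .nil) .nil)) .nil) (.node 1861 (.node 929 .nil (.node 929 .nil .nil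 (.node 929 (.stop 463) (.stop 466) .nil)) .nil) .nil (.node 932 (.node 932 .nil .nil (.node 932 .nil (.stop 932) .nil)) .nil .nil)) .nil)) .nil (.node 2587 .nil (.node 2587 (.node 2587 .nil (.node 710 .nil .nil (.node 710 (.node 710 .nil (.stop 334) (.stop 376)) .nil .nil)) (.node 1877 (.node 1165 .nil (.node 1165 (.stop 575) .nil (.stop 590)) .nil) (.node 712 .nil .nil (.node 712 (.stop 712) .nil .nil)) .nil)) .nil .nil) .nil)) .nil) .nil .nil)) .nil)

def tri31 : Tri := (.node 10000 .nil .nil (.node 10000 (.node 10000 .nil (.node 4525 (.node 4525 .nil .nil (.node 4525 (.node 2216 .nil (.node 2216 .nil .nil (.node 2216 (.node 1132 .nil .nil (.node 1132 .nil (.stop 1132) .nil)) (.node 1084 (.node 1084 .nil .nil (.stop 1084)) .nil .nil) .nil)) .nil) (.node 2309 (.node 1052 .nil (.node 1052 .nil .nil (.node 1052 .nil (.node 1052 (.stop 1052) .nil .nil) .nil)) .nil) .nil (.node 1257 (.node 1257 .nil .nil (.node 1257 .nil (.node 1257 (.stop 1257) .nil .nil) .nil)) .nil .nil)) .nil)) .nil .nil) (.node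 5475 .nil (.node 5475 (.node 3613 .nil (.node 1180 .nil .nil (.node 1180 .nil (.node 1180 (.node 1180 .nil .nil (.node 1180 (.stop 472) (.stop 708) .nil)) .nil .nil) .nil)) (.node 2433 (.node 2433 .nil (.node 2433 (.node 1176 .nil .nil (.node 1176 .nil (.stop 1176) .nil)) .nil (.node 1257 (.node 788 .nil .nil (.stop 788)) (.node 469 (.stop 469) .nil .nil) .nil)) .nil) .nil .nil)) .nil (.node 1862 (.node 1862 .nil (.node 1862 (.node 1862 .nil .nil (.node 1862 (.node 656 .nil (.stop 656) .nil) (.node 1206 (.stop 781) .nil (.stop 425)) .nil)) .nil .nil) .nil) .nil .nil)) .nil)) .nil .nil))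

def tri32 : Tri := (.node 10000 (.node 3985 .nil (.node 3985 (.node 3985 .nil .nil (.node 3985 .nil (.node 3985 (.node 2034 .nil (.node 2034 .nil .nil (.node 2034 (.node 1262 .nil (.node 423 (.stop 423) .nil .nil) (.node 839 .nil (.stop 839) .nil)) (.node 772 (.node 772 .nil .nil (.stop 772)) .nil .nil) .nil)) .nil) .nil (.node 1951 (.node 1951 .nil (.node 1163 (.node 296 .nil .nil (.node 296 (.stop 296) .nil .nil)) .nil (.node 867 .nil (.node 867 (.stop 867) .nil .nil) .nil)) (.node 788 .nil (.node 788 (.node 788 .nil (.stop 394) (.stop 394)) .nil .nil) .nil)) .nil .nil)) .nil)) .nil .nil) .nil) (.node 6015 .nil .nil (.node 6015 (.node 6015 .nil (.node 4000 (.node 2097 .nil .nil (.node 2097 (.node 893 .nil (.node 893 .nil .nil (.node 893 (.node 495 .nil .nil (.stop 495)) (.node 398 (.stop 398) .nil .nil) .nil)) .nil) (.node 1204 (.node 1204 .nil (.node 1204 .nil .nil (.node 1204 (.stop 729) (.stop 475) .nil)) .nil) .nil .nil) .nil)) .nil (.node 1903 .nil (.node 1903 (.node 1903 .nil (.node 1020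 .nil .nil (.node 1020 (.node 1020 .nil (.stop 486) (.stop 534)) .nil .nil)) (.node 883 (.node 883 .nil (.node 883 (.stop 486) .nil (.stop 397)) .nil) .nil .nil)) .nil .nil) .nil)) (.node 2015 .nil (.node 2015 (.node 2015 .nil (.node 841 .nil .nil (.node 841 (.node 841 .nil (.node 449 (.stop 449) .nil .nil) (.node 392 .nil (.stop 392) .nil)) .nil .nil)) (.node 1174 (.node 1174 .nil (.node 1174 (.node 696 .nil .nil (.stop 696)) .nil (.node 478 (.stop 220) (.stop 258) .nil)) .nil) .nil .nil)) .nil .nil) .nil)) .nil .nil)) .nil)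

def tri33 : Tri := (.node 10000 (.node 5562 .nil (.node 5562 .nil .nil (.node 5562 (.node 2381 .nil .nil (.node 2381 .nil (.node 2381 (.node 1380 .nil (.node 575 .nil .nil (.node 575 .nil (.node 575 (.stop 575) .nil .nil) .nil)) (.node 805 (.node 805 .nil (.node 805 (.stop 429) .nil (.stop 376)) .nil) .nil .nil)) .nil (.node 1001 (.node 1001 .nil (.node 1001 (.node 616 .nil .nil (.stop 616)) .nil (.node 385 .nil (.stop 385) .nil)) .nil) .nil .nil)) .nil)) (.node 3181 (.node 3181 .nil (.node 1281 .nil .nil (.node 1281 (.node 1281 .nil .nil (.node 1281 .nil (.node 1281 (.stop 814) .nil (.stop 467)) .nil)) .nil .nil)) (.node 1900 (.node 908 .nil (.node 908 (.node 908 .nil .nil (.node 908 .nil (.stop 908) .nil)) .nil .nil) .nil) (.node 992 .nil .nil (.node 992 (.node 992 .nil (.node 376 (.stop 188) .nil (.stop 188)) (.node 616 .nil (.stop 616) .nil)) .nil .nil)) .nil)) .nil .nil) .nil)) .nil) (.node 4438 (.node 1427 .nil (.node 1427 .nil .nil (.node 1427 .nil (.node 1427 (.node 1427 .nil .nil (.node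 1427 (.node 545 .nil (.node 545 .nil .nil (.node 545 (.stop 294) (.stop 251) .nil)) .nil) (.node 882 .nil .nil (.node 882 (.node 882 .nil (.stop 588) (.stop 294)) .nil .nil)) .nil)) .nil .nil) .nil)) .nil) .nil (.node 3011 (.node 3011 .nil (.node 951 .nil .nil (.node 951 .nil (.node 951 (.node 951 .nil .nil (.node 951 (.node 951 .nil (.node 951 (.stop 405) .nil (.stop 546)) .nil) .nil .nil)) .nil .nil) .nil)) (.node 2060 .nil (.node 2060 (.node 2060 .nil (.node 1050 .nil .nil (.node 1050 (.node 154 .nil .nil (.node 154 .nil (.stop 154) .nil)) (.node 896 (.node 896 .nil .nil (.stop 896)) .nil .nil) .nil)) (.node 1010 (.node 1010 .nil (.node 1010 (.node 546 .nil .nil (.stop 546)) .nil (.node 464 (.stop 196) (.stop 268) .nil)) .nil) .nil .nil)) .nil .nil) .nil)) .nil .nil)) .nil)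

def tri34 : Tri := (.node 10000 .nil .nil (.node 10000 (.node 5917 .nil (.node 3070 (.node 3070 .nil .nil (.node 3070 (.node 1155 .nil (.node 1155 .nil .nil (.node 1155 (.node 1155 .nil .nil (.node 1155 .nil (.stop 1155) .nil)) .nil .nil)) .nil) (.node 1915 (.node 521 .nil (.node 521 .nil .nil (.node 521 (.node 521 .nil .nil (.stop 521)) .nil .nil)) .nil) .nil (.node 1394 (.node 1394 .nil (.node 813 .nil .nil (.node 813 .nil (.stop 813) .nil)) (.node 581 .nil (.node 581 (.stop 581) .nil .nil) .nil)) .nil .nil)) .nil)) .nil .nil) (.node 2847 .nil (.node 2847 .nil .nil (.node 2847 (.node 2847 .nil (.node 2847 (.node 1520 .nil .nil (.node 1520 (.node 744 .nil (.stop 744) .nil) (.node 776 (.stop 628) .nil (.stop 148)) .nil)) .nil (.node 1327 .nil (.node 1327 (.node 1327 .nil (.stop 507) (.stop 820)) .nil .nil) .nil)) .nil) .nil .nil)) .nil)) (.node 4083 (.node 4083 .nil .nil (.node 4083 (.node 2666 .nil (.node 2666 (.node 1614 .nil .nil (.node 1614 .nil (.node 1614 (.node 776 .nil (.stop 776) .nil) .nil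 (.node 838 (.stop 838) .nil .nil)) .nil)) .nil (.node 1052 .nil (.node 1052 (.node 1052 .nil (.node 1052 .nil .nil (.stop 1052)) .nil) .nil .nil) .nil)) .nil) (.node 1417 .nil .nil (.node 1417 (.node 1417 .nil (.node 740 .nil .nil (.node 740 .nil (.node 740 (.stop 740) .nil .nil) .nil)) (.node 677 .nil (.node 677 (.node 677 .nil .nil (.stop 677)) .nil .nil) .nil)) .nil .nil)) .nil)) .nil .nil) .nil))

def tri35 : Tri := (.node 10000 (.node 10000 .nil (.node 10000 (.node 4419 .nil .nil (.node 4419 .nil (.node 4419 (.node 2222 .nil (.node 2222 .nil .nil (.node 2222 (.node 1240 .nil (.node 417 (.stop 417) .nil .nil) (.node 823 .nil (.stop 823) .nil)) (.node 982 (.node 982 .nil .nil (.stop 982)) .nil .nil) .nil)) .nil) .nil (.node 2197 (.node 2197 .nil (.node 1773 (.node 597 .nil .nil (.node 597 (.stop 597) .nil .nil)) .nil (.node 1176 .nil (.node 1176 (.stop 1176) .nil .nil) .nil)) (.node 424 .nil (.node 424 (.node 424 .nil (.stop 424) .nil) .nil .nil) .nil)) .nil .nil)) .nil)) .nil (.node 5581 (.node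 3456 .nil .nil (.node 3456 .nil (.node 3456 (.node 1584 .nil (.node 1584 .nil .nil (.node 1584 (.node 580 .nil (.stop 580) .nil) (.node 1004 (.stop 1004) .nil .nil) .nil)) .nil) .nil (.node 1872 (.node 1872 .nil (.node 1872 (.node 1095 .nil .nil (.stop 1095)) .nil (.node 777 .nil (.stop 777) .nil)) .nil) .nil .nil)) .nil)) (.node 2125 (.node 2125 .nil (.node 1226 .nil .nil (.node 1226 (.node 1226 .nil (.node 1226 (.node 1226 .nil .nil (.stop 1226)) .nil .nil) .nil) .nil .nil)) (.node 899 .nil (.node 899 .nil .nil (.node 899 (.node 899 .nil (.node 899 (.stop 485) .nil (.stop 414)) .nil) .nil .nil)) .nil)) .nil .nil) .nil)) .nil) .nil .nil)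

def keyT : KT := (.node .none (.node .none (.node (.node .none .none (.node (.node .none (.node .none .none (.node (.key 8950 tri28) (.key 8950 tri6) .none)) .none) (.node (.node .none (.node .none .none (.key 8950 tri33)) .none) .none (.node (.node .none (.key 8950 tri26) (.key 8950 tri1)) .none .none)) .none)) .none (.node (.node .none .none (.node .none (.node (.node .none (.key 8950 tri24) (.key 7919 tri8)) .none (.node (.key 8950 tri35) .none .none)) .none)) (.node (.node .none (.node .none .none (.node (.key 8950 tri27) .none .none)) (.node (.node .none (.key 8950 tri32) .none) (.node .none .none (.key 8950 tri20)) .none)) .none .none) .none)) (.node .none (.node (.node .none (.node .none .none (.node (.node .none (.key 8950 tri30) (.key 8950 tri4)) (.node (.key 8950 tri14) .none .none) .none)) (.node (.node .none (.node (.key 8950 tri0) .none (.key 8950 tri25)) .none) .none .none)) .none (.node (.node .none (.node (.node .none .none (.key 7847 tri15)) .none (.node .none (.key 8647 tri3) .none))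 .none) .none .none)) .none)) (.node .none (.node .none .none (.node (.node .none (.node (.node .none .none (.node (.key 8950 tri18) (.key 8950 tri11) .none)) .none .none) (.node .none (.node (.node .none (.key 8950 tri23) (.key 8512 tri9)) .none (.node (.key 8950 tri34) .none .none)) .none)) (.node (.node .none .none (.node (.node .none (.key 8950 tri31) .none) (.node .none .none (.key 8950 tri21)) .none)) .none .none) .none)) (.node (.node .none (.node (.node .none .none (.node .none (.node (.key 8950 tri7) .none (.key 8950 tri22)) .none)) .none (.node (.node .none .none (.node .none (.key 8950 tri17) .none)) (.node (.node .none (.key 8950 tri19) (.key 8950 tri10)) .none .none) .none)) .none) (.node (.node .none (.node .none .none (.node (.node .none (.key 8950 tri29) (.key 8950 tri5)) (.node (.key 8364 tri13) .none .none) .none)) .none) .none (.node (.node .none (.node (.node .none .none (.key 8950 tri16)) .none (.node .none (.key 8950 tri2) .none)) (.node .none (.node (.key 8950 tri12) .none .none)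 .none)) .none .none)) .none)))

end Pool.Agent.SqfBridge
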