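import Pool.Agent.SqfBridge.Tail

set_option autoImplicit false

namespace Pool.Agent.SqfBridge

/-- `p` is a near-square at `N` matched by some admissible tail of `ℓ`. -/
def Near (W : ℕ → Fin 3) (N : ℕ) (ℓ : Leaf) (t : ℕ → Fin 3) (b : ℕ → Bool) (p : ℕ) : Prop :=
  ∀ j < p - arm W N p, tail ℓ t b j = W (N - p + j)

/-- long killing near-square. -/
def LK (W : ℕ → Fin 3) (N : ℕ) (κ : ℕ → Fin 3) (c : Fin 3) (p : ℕ) : Prop :=
  0 < p ∧ p ≤ N ∧ 30 ≤ p - arm W N p ∧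
    ∃ (ℓ : Leaf) (t : ℕ → Fin 3) (b : ℕ → Bool), LeafOK κ c ℓ ∧ AdjT ℓ t ∧ Near W N ℓ t b p

theorem chain1 {W : ℕ → Fin 3} {N : ℕ} {κ : ℕ → Fin 3} {c : Fin 3} {p q : ℕ}
    (h1 : LK W N κ c p) (h2 : LK W N κ c q) (hpq : p < q) : p ≤ arm W N q + 29 := by
  by_contra hc
  push Not at hc
  obtain ⟨hp, hpN, hm, ℓ, t, b, hℓ, ha, hn⟩ := h1
  obtain ⟨hq, hqN, hm', ℓ', t', b', hℓ', ha', hn'⟩ := h2
  have ho1 := hℓ'.ho1
  refine hℓ.c3 t b (ℓ'.st t') (ℓ'.sb b') (ℓ'.o + (q - p) - 1) (st_adj hℓ' ha' _) (fun j hj => ?_)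
  have e1 := hn (18 + j) (by omega)
  have e2 := hn' (q - p + 18 + j) (by omega)
  rw [tail_ge (by omega)] at e2
  have e3 : ℓ'.o + (q - p + 18 + j - 19) = ℓ'.o + (q - p) - 1 + j := by omega
  have e4 : N - q + (q - p + 18 + j) = N - p + (18 + j) := by omega
  rw [e3, e4] at e2
  rw [e2, e1]

theorem chain2 {W : ℕ → Fin 3} {N : ℕ} {κ : ℕ → Fin 3} {c : Fin 3} {p q : ℕ}
    (hN : 8 ≤ N) (hκ : ∀ j < 8, κ j = W (N - 8 + j))
    (h1 : LK W N κ c p) (h2 : LK W N κ c q) (hpq : p < q) :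
    p + min (arm W N p) 8 + 1 ≤ q := by
  by_contra hc
  push Not at hc
  obtain ⟨hp, hpN, hm, -⟩ := h1
  obtain ⟨hq, hqN, hm', ℓ', t', b', hℓ', ha', hn'⟩ := h2
  have ho2 := hℓ'.ho2
  have hrun := run_arm hpN (W := W)
  refine hℓ'.c1 t' b' (8 - (q - p)) (q - p) (by omega) (by omega) (fun j hj => ?_)
  have e1 := hn' j (by omega)
  have e2 := hrun.2 (N - q + j) (by omega) (by omega)
  have e3 : N - q + j + p = N - 8 + (8 - (q - p) + j) := by omega
  have e4 := hκ (8 - (q - p) + j) (by omega)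
  unfold app
  rw [if_pos (by omega), if_neg (by omega), e4, ← e3, ← e2, ← e1]
  congr 1
  omega

/-- at most six exceptional near-squares. -/
theorem exceptional {W : ℕ → Fin 3} {N : ℕ} {κ : ℕ → Fin 3} {c : Fin 3}
    (hN : 8 ≤ N) (hκ : ∀ j < 8, κ j = W (N - 8 + j)) (S : Finset ℕ)
    (hS : ∀ p ∈ S, LK W N κ c p ∧ 32 ≤ p + arm W N p ∧ arm W N p < 29) : S.card ≤ 6 := by
  by_contra hc
  push Not at hc
  obtain ⟨S', hS', hcard⟩ := Finset.exists_subset_card_eq (show 7 ≤ S.card by omega)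
  let f := S'.orderEmbOfFin hcard
  have hf : ∀ i, f i ∈ S := fun i => hS' (Finset.orderEmbOfFin_mem S' hcard i)
  have hlt : ∀ i j : Fin 7, i < j → f i < f j := fun i j h => (f.strictMono h)
  have hs : ∀ i j : Fin 7, i < j →
      f i ≤ arm W N (f j) + 29 ∧ f i + min (arm W N (f i)) 8 + 1 ≤ f j := by
    intro i j h
    exact ⟨chain1 (hS _ (hf i)).1 (hS _ (hf j)).1 (hlt i j h),
      chain2 hN hκ (hS _ (hf i)).1 (hS _ (hf j)).1 (hlt i j h)⟩
  have hg : ∀ i, 30 ≤ f i - arm W N (f i) ∧ 32 ≤ f i + arm W N (f i) ∧ arm W N (f i) < 29 := by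
    intro i
    obtain ⟨h1, h2, h3⟩ := hS _ (hf i)
    exact ⟨h1.2.2.1, h2, h3⟩
  have g0 := hg 0
  have g1 := hg 1
  have g2 := hg 2
  have g3 := hg 3
  have g4 := hg 4
  have g5 := hg 5
  have g6 := hg 6
  have s0 := hs 0 1 (by decide)
  have s1 := hs 1 2 (by decide)
  have s2 := hs 2 3 (by decide)
  have s3 := hs 3 4 (by decide)
  have s4 := hs 4 5 (by decide)
  have s5 := hs 5 6 (by decide)
  omega

/-- type-B square at `N` for the tail `x = tail ℓ t b`. -/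
def TB (W : ℕ → Fin 3) (N : ℕ) (x : ℕ → Fin 3) (p j0 : ℕ) : Prop :=
  1 ≤ j0 ∧ j0 + 8 < p ∧ p ≤ N + j0 ∧ (∀ k, j0 ≤ k → k < p → W (N + k - p) = x k) ∧
    (∀ k < j0, x (p + k) = x k)

theorem tb_bounds {W : ℕ → Fin 3} {N : ℕ} {κ : ℕ → Fin 3} {c : Fin 3}
    (hN : 8 ≤ N) (hκ : ∀ j < 8, κ j = W (N - 8 + j)) {ℓ : Leaf} (hℓ : LeafOK κ c ℓ)
    {t : ℕ → Fin 3} {b : ℕ → Bool} (ha : AdjT ℓ t) {p j0 : ℕ} (h : TB W N (tail ℓ t b) p j0) :
    32 ≤ p ∧ j0 ≤ 10 := by
  obtain ⟨h1, h2, h3, h4, h5⟩ := h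
  have hx0 : tail ℓ t b 0 = c := by
    unfold tail; rw [if_pos (by omega)]; exact hℓ.h0
  have hkap : ∀ j < 8, tail ℓ t b (p - 8 + j) = κ j := by
    intro j hj
    rw [← h4 (p - 8 + j) (by omega) (by omega), hκ j hj]
    congr 1
    omega
  have hp : 32 ≤ p := by
    by_contra hc
    push Not at hc
    refine hℓ.c5 t b (p - 8) (by omega) ⟨hkap, ?_⟩
    have := h5 0 (by omega)
    rw [hx0] at this
    rw [← this]
    congr 1
    omega
  refine ⟨hp, ?_⟩
  by_contra hc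
  push Not at hc
  have ho1 := hℓ.ho1
  refine hℓ.c6 t b (ℓ.st t) (ℓ.sb b) (ℓ.o + (p - 8 - 19)) (st_adj hℓ ha _) ⟨?_, ?_⟩
  · intro j hj
    rw [← hkap j hj, tail_ge (by omega)]
    congr 1
    omega
  · intro j hj
    rw [← h5 j (by omega), tail_ge (by omega)]
    congr 1
    omega

theorem tb_unique_lt {W : ℕ → Fin 3} {N : ℕ} {κ : ℕ → Fin 3} {c : Fin 3}
    (hN : 8 ≤ N) (hκ : ∀ j < 8, κ j = W (N - 8 + j)) {ℓ ℓ' : Leaf} (hℓ : LeafOK κ c ℓ)
    (hℓ' : LeafOK κ c ℓ')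
    {t t' : ℕ → Fin 3} {b b' : ℕ → Bool} (ha : AdjT ℓ t) (ha' : AdjT ℓ' t') {p j0 p' j0' : ℕ}
    (h : TB W N (tail ℓ t b) p j0) (h' : TB W N (tail ℓ' t' b') p' j0') (hlt : p < p') : False := by
  have hb := tb_bounds hN hκ hℓ ha h
  have hb' := tb_bounds hN hκ hℓ' ha' h'
  obtain ⟨h1, h2, h3, h4, h5⟩ := h
  obtain ⟨h1', h2', h3', h4', h5'⟩ := h'
  have ho1 := hℓ'.ho1
  refine hℓ.c3 t b (ℓ'.st t') (ℓ'.sb b') (ℓ'.o + (p' - p) - 1) (st_adj hℓ' ha' _) (fun j hj => ?_)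
  have e1 := h4 (18 + j) (by omega) (by omega)
  have e2 := h4' (p' - p + 18 + j) (by omega) (by omega)
  rw [tail_ge (by omega)] at e2
  have e3 : ℓ'.o + (p' - p + 18 + j - 19) = ℓ'.o + (p' - p) - 1 + j := by omega
  have e4 : N + (p' - p + 18 + j) - p' = N + (18 + j) - p := by omega
  rw [e3, e4] at e2
  rw [← e2, e1]

/-- two tails killed by type-B squares agree on `[10,32)`. -/
theorem tb_agree {W : ℕ → Fin 3} {N : ℕ} {κ : ℕ → Fin 3} {c : Fin 3}
    (hN : 8 ≤ N) (hκ : ∀ j < 8, κ j = W (N - 8 + j)) {ℓ ℓ' : Leaf} (hℓ : LeafOK κ c ℓ)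
    (hℓ' : LeafOK κ c ℓ')
    {t t' : ℕ → Fin 3} {b b' : ℕ → Bool} (ha : AdjT ℓ t) (ha' : AdjT ℓ' t') {p j0 p' j0' : ℕ}
    (h : TB W N (tail ℓ t b) p j0) (h' : TB W N (tail ℓ' t' b') p' j0') :
    ∀ k, 10 ≤ k → k < 32 → tail ℓ t b k = tail ℓ' t' b' k := by
  have hpp : p = p' := by
    rcases Nat.lt_trichotomy p p' with hlt | heq | hgt
    · exact (tb_unique_lt hN hκ hℓ hℓ' ha ha' h h' hlt).elim
    · exact heq
    · exact (tb_unique_lt hN hκ hℓ' hℓ ha' ha h' h hgt).elim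
  subst hpp
  have hb := tb_bounds hN hκ hℓ ha h
  have hb' := tb_bounds hN hκ hℓ' ha' h'
  intro k hk1 hk2
  rw [← h.2.2.2.1 k (by omega) (by omega), ← h'.2.2.2.1 k (by omega) (by omega)]

/-- Kraft-type lemma. -/
theorem kraft (n : ℕ) (F : List (List Bool)) (hF : ∀ β ∈ F, β.length ≤ n)
    (hs : (F.map fun β => 2 ^ (n - β.length)).sum < 2 ^ n) :
    ∃ b : List Bool, b.length = n ∧ ∀ β ∈ F, ¬ β <+: b := by
  induction n generalizing F with
  | zero =>
    refine ⟨[], rfl, ?_⟩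
    intro β hβ
    exfalso
    have h1 : (F.map fun β => 2 ^ (0 - β.length)).sum = F.length := by
      have : (F.map fun β => 2 ^ (0 - β.length)) = F.map (fun _ => 1) := by
        apply List.map_congr_left; intro β _; simp
      rw [this]; simp
    rw [h1, pow_zero] at hs
    have : 0 < F.length := List.length_pos_of_mem hβ
    omega
  | succ n ih =>
    -- no empty word
    have hne : ∀ β ∈ F, β ≠ [] := by
      intro β hβ he
      subst he
      have : 2 ^ (n + 1) ≤ (F.map fun β => 2 ^ (n + 1 - β.length)).sum := by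
        have hm : 2 ^ (n + 1 - ([] : List Bool).length) ∈ (F.map fun β => 2 ^ (n + 1 - β.length)) :=
          List.mem_map.mpr ⟨[], hβ, rfl⟩
        have := List.single_le_sum (l := F.map fun β => 2 ^ (n + 1 - β.length))
          (fun _ _ => Nat.zero_le _) _ hm
        simpa using this
      omega
    let Fx : Bool → List (List Bool) := fun x => (F.filter (fun β => β.head? == some x)).map List.tail
    have hsplit : (F.map fun β => 2 ^ (n + 1 - β.length)).sum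
        = ((Fx false).map fun β => 2 ^ (n - β.length)).sum
          + ((Fx true).map fun β => 2 ^ (n - β.length)).sum := by
      clear hs ih
      induction F with
      | nil => simp [Fx]
      | cons β F ihF =>
        have h1 := ihF (fun γ hγ => hF γ (List.mem_cons_of_mem _ hγ))
          (fun γ hγ => hne γ (List.mem_cons_of_mem _ hγ))
        have h2 := hne β (by simp)
        cases β with
        | nil => exact (h2 rfl).elim
        | cons x β' =>
          cases x with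
          | false => simp [Fx, h1]; ring
          | true => simp [Fx, h1]; ring
    have hlen : ∀ x, ∀ β ∈ Fx x, β.length ≤ n := by
      intro x β hβ
      simp only [Fx, List.mem_map, List.mem_filter] at hβ
      obtain ⟨γ, ⟨hγ, _⟩, rfl⟩ := hβ
      have := hF γ hγ
      simp
      omega
    have hx : ∃ x, ((Fx x).map fun β => 2 ^ (n - β.length)).sum < 2 ^ n := by
      by_contra hcon
      push Not at hcon
      have a := hcon false
      have b := hcon true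
      rw [hsplit, pow_succ] at hs
      omega
    obtain ⟨x, hx⟩ := hx
    obtain ⟨b, hb1, hb2⟩ := ih (Fx x) (hlen x) hx
    refine ⟨x :: b, by simp [hb1], ?_⟩
    intro β hβ hpre
    cases β with
    | nil => exact hne _ hβ rfl
    | cons y β' =>
      rw [List.cons_prefix_cons] at hpre
      obtain ⟨rfl, hpre⟩ := hpre
      refine hb2 β' ?_ hpre
      simp only [Fx, List.mem_map, List.mem_filter]
      exact ⟨y :: β', ⟨hβ, by simp⟩, rfl⟩

end Pool.Agent.SqfBridge
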