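import Mathlib

set_option autoImplicit false

namespace Pool.Agent.SqfBridge

/-- `f` has a square of period `p` starting at `i`. -/
def SqAt (f : ℕ → Fin 3) (i p : ℕ) : Prop := ∀ j < p, f (i + j) = f (i + p + j)

/-- `f` has no square inside `[0,n)`. -/
def SFto (f : ℕ → Fin 3) (n : ℕ) : Prop := ∀ i p, 0 < p → i + 2 * p ≤ n → ¬ SqAt f i p

/-- the infinite word `f` is squarefree. -/
def SF (f : ℕ → Fin 3) : Prop := ∀ i p, 0 < p → ¬ SqAt f i p

/-- a finite word is squarefree (the form used in the frozen statement). -/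
def Sqf (l : List (Fin 3)) : Prop :=
  ∀ a u b : List (Fin 3), u ≠ [] → l ≠ a ++ u ++ u ++ b

/-- the word `l` followed by the infinite word `f`. -/
def cat (l : List (Fin 3)) (f : ℕ → Fin 3) : ℕ → Fin 3 :=
  fun k => if k < l.length then l.getD k 0 else f (k - l.length)

/-- the base block `012021020102120210`. -/
def Ub : List (Fin 3) := [0,1,2,0,2,1,0,2,0,1,0,2,1,2,0,2,1,0]

/-- the two blocks for each letter: the base block or its reversal, shifted by the letter. -/
def blk (a : Fin 3) (b : Bool) : List (Fin 3) := (if b then Ub.reverse else Ub).map (· + a)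

/-- image of a word of (letter, variant) pairs. -/
def G (tb : List (Fin 3 × Bool)) : List (Fin 3) := tb.flatMap fun x => blk x.1 x.2

/-- image of an infinite word. -/
def Gf (t : ℕ → Fin 3) (b : ℕ → Bool) (k : ℕ) : Fin 3 :=
  (blk (t (k / 18)) (b (k / 18))).getD (k % 18) 0

/-- the escape statement. -/
def EscapeStmt : Prop := ∀ (W : ℕ → Fin 3), SF W → ∀ n₀ : ℕ,
  ∃ N, n₀ ≤ N ∧ ∃ (y : List (Fin 3)) (t0 : Fin 3) (β : List Bool),
    ∀ (tb : List (Fin 3 × Bool)), Sqf (t0 :: tb.map Prod.fst) → β <+: tb.map Prod.snd →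
      Sqf ((List.range N).map W ++ y ++ G tb)

end Pool.Agent.SqfBridge
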