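import Mathlib

set_option autoImplicit false

namespace Pool.Agent.SqfBridge

/-- base-4 code of the first `n` values. -/
def code (g : ℕ → ℕ) : ℕ → ℕ
  | 0 => 0
  | n + 1 => code g n + g n * 4 ^ n

theorem code_lt {g : ℕ → ℕ} (hg : ∀ i, g i < 4) (n : ℕ) : code g n < 4 ^ n := by
  induction n with
  | zero => simp [code]
  | succ n ih =>
    rw [code, pow_succ]
    have := hg n
    nlinarith [Nat.pow_pos (n := n) (show 0 < 4 by norm_num)]

theorem code_cons (g : ℕ → ℕ) (n : ℕ) :
    code g (n + 1) = g 0 + 4 * code (fun i => g (i + 1)) n := by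
  induction n with
  | zero => simp [code]
  | succ n ih =>
    rw [code, ih, code, pow_succ]
    ring

theorem code_congr {g h : ℕ → ℕ} {n : ℕ} (hgh : ∀ i < n, g i = h i) : code g n = code h n := by
  induction n with
  | zero => rfl
  | succ n ih =>
    rw [code, code, ih (fun i hi => hgh i (by omega)), hgh n (by omega)]

theorem code_div_four {g : ℕ → ℕ} (hg : ∀ i, g i < 4) (n : ℕ) :
    code g (n + 1) / 4 = code (fun i => g (i + 1)) n := by
  rw [code_cons]
  have := hg 0
  omega

theorem code_mod_four {g : ℕ → ℕ} (hg : ∀ i, g i < 4) (n : ℕ) :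
    code g (n + 1) % 4 = g 0 := by
  rw [code_cons]
  have := hg 0
  omega

theorem code_zero_div (g : ℕ → ℕ) : code g 0 / 4 = 0 := by simp [code]

theorem code_div {g : ℕ → ℕ} (hg : ∀ i, g i < 4) (k n : ℕ) :
    code g (n + k) / 4 ^ k = code (fun i => g (i + k)) n := by
  induction k generalizing n with
  | zero => simp
  | succ k ih =>
    rw [pow_succ, ← Nat.div_div_eq_div_mul]
    have : n + (k + 1) = (n + 1) + k := by ring
    rw [this, ih (n + 1), code_div_four (fun i => hg _)]
    apply code_congr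
    intro i _
    congr 1
    ring

theorem code_mod {g : ℕ → ℕ} (hg : ∀ i, g i < 4) (k n : ℕ) :
    code g (n + k) % 4 ^ k = code g k := by
  induction n with
  | zero => rw [Nat.zero_add, Nat.mod_eq_of_lt (code_lt hg k)]
  | succ n ih =>
    have : n + 1 + k = (n + k) + 1 := by ring
    rw [this, code, Nat.add_mod]
    have h2 : g (n + k) * 4 ^ (n + k) % 4 ^ k = 0 := by
      apply Nat.mod_eq_zero_of_dvd
      apply Dvd.dvd.mul_left
      exact pow_dvd_pow 4 (by omega)
    rw [h2, Nat.add_zero, Nat.mod_mod, ih]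

theorem code_dig {g : ℕ → ℕ} (hg : ∀ i, g i < 4) {k n : ℕ} (h : k < n) :
    code g n / 4 ^ k % 4 = g k := by
  obtain ⟨m, rfl⟩ : ∃ m, n = (m + 1) + k := ⟨n - 1 - k, by omega⟩
  rw [code_div hg, code_mod_four (fun i => hg _)]
  simp

theorem code_inj {g h : ℕ → ℕ} (hg : ∀ i, g i < 4) (hh : ∀ i, h i < 4) {n : ℕ}
    (he : code g n = code h n) : ∀ i < n, g i = h i := by
  intro i hi
  rw [← code_dig hg hi, ← code_dig hh hi, he]

/-- square at the low end of a code. -/
theorem code_square {g : ℕ → ℕ} (hg : ∀ i, g i < 4) {n p : ℕ} (hp : 2 * p ≤ n)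
    (h : code g n % 4 ^ p = code g n / 4 ^ p % 4 ^ p) : ∀ i < p, g i = g (i + p) := by
  obtain ⟨m, rfl⟩ : ∃ m, n = m + p + p := ⟨n - p - p, by omega⟩
  rw [code_mod hg, code_div hg, code_mod (fun i => hg _)] at h
  exact code_inj hg (fun i => hg _) h

end Pool.Agent.SqfBridge
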