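set_option autoImplicit false

noncomputable section

namespace Pool.Agent.SqfBridge

/-- trie of masses (children by letter 0,1,2). -/
inductive Tri
  | nil
  | stop (m : Nat)
  | node (m : Nat) (a b c : Tri)

/-- select by a base-4 digit 0,1,other. -/
def sel3 {α : Type} (x : Nat) (a b c : α) : α :=
  Nat.rec (motive := fun _ => α) a (fun y _ => Nat.rec (motive := fun _ => α) b (fun _ _ => c) y) x

/-- mass below the node reached by reading the `k` lowest base-4 digits of `V`. -/
def Tri.walk (T : Tri) : Nat → Nat → Nat :=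
  Tri.rec (motive := fun _ => Nat → Nat → Nat)
    (fun _ _ => nat_lit 0)
    (fun m _ _ => m)
    (fun m _ _ _ iha ihb ihc V k =>
      Nat.rec (motive := fun _ => Nat) m
        (fun k' _ => sel3 (Nat.mod V (nat_lit 4)) (iha (Nat.div V (nat_lit 4)) k')
          (ihb (Nat.div V (nat_lit 4)) k') (ihc (Nat.div V (nat_lit 4)) k')) k) T

/-- key tree. -/
inductive KT
  | none
  | key (g : Nat) (T : Tri)
  | node (a b c : KT)

def KT.get {α : Type} (K : KT) (Y : Nat) (k0 : α) (k1 : Nat → Tri → α) : α :=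
  KT.rec (motive := fun _ => Nat → α)
    (fun _ => k0)
    (fun g T _ => k1 g T)
    (fun _ _ _ iha ihb ihc V => sel3 (Nat.mod V (nat_lit 4)) (iha (Nat.div V (nat_lit 4)))
      (ihb (Nat.div V (nat_lit 4))) (ihc (Nat.div V (nat_lit 4)))) K Y

/-- potential trie. -/
inductive PT
  | L (v : Nat)
  | O (t : PT)
  | N (a b : PT)

def PT.step0 (A : PT) : PT :=
  PT.rec (motive := fun _ => PT) (fun v => .L v) (fun t _ => t) (fun a _ _ _ => a) A

def PT.step1 (A : PT) : PT :=
  PT.rec (motive := fun _ => PT) (fun v => .L v) (fun t _ => t) (fun _ b _ _ => b) A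

/-- if then else on Bool through the recursor -/
def bt {α : Type} (c : Bool) (a b : α) : α := Bool.rec (motive := fun _ => α) b a c

/-- number of equal low base-4 digits, at most `fuel`. -/
def armN (fuel : Nat) : Nat → Nat → Nat :=
  Nat.rec (motive := fun _ => Nat → Nat → Nat) (fun _ _ => nat_lit 0)
    (fun _ ih A B => bt (Nat.beq (Nat.mod A (nat_lit 4)) (Nat.mod B (nat_lit 4)))
      (Nat.succ (ih (Nat.div A (nat_lit 4)) (Nat.div B (nat_lit 4)))) (nat_lit 0)) fuel

def lossC (T : Tri) (f p V a : Nat) : Nat :=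
  bt (Nat.ble (Nat.succ f) a) (bt (Nat.ble p (nat_lit 25)) (nat_lit 1000000) (nat_lit 0))
    (bt (Nat.ble (Nat.add p a) (nat_lit 8)) (nat_lit 0)
      (T.walk (Nat.div V (nat_lit 4)) (Nat.sub (Nat.sub p (nat_lit 1)) a)))

/-- loss loop: `fuel = n - p`. -/
def lossN (T : Tri) (c Y : Nat) (fuel : Nat) : Nat → Nat → Nat → Nat :=
  Nat.rec (motive := fun _ => Nat → Nat → Nat → Nat) (fun _ _ _ => nat_lit 0)
    (fun f ih p V R =>
      bt (Nat.beq (Nat.mod V (nat_lit 4)) c)
        (Nat.add (lossC T f p V (armN (Nat.succ f) Y R))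
          (ih (Nat.succ p) (Nat.add (Nat.mul (nat_lit 4) V) (Nat.mod R (nat_lit 4))) (Nat.div R (nat_lit 4))))
        (ih (Nat.succ p) (Nat.add (Nat.mul (nat_lit 4) V) (Nat.mod R (nat_lit 4))) (Nat.div R (nat_lit 4))))
      fuel

/-- square of period `p0 ≤ p < p0 + fuel` at the low end; `q = 4 ^ p0`. -/
def sqp (X : Nat) (fuel : Nat) : Nat → Bool :=
  Nat.rec (motive := fun _ => Nat → Bool) (fun _ => false)
    (fun _ ih q => bt (Nat.beq (Nat.mod X q) (Nat.mod (Nat.div X q) q)) true
      (ih (Nat.mul (nat_lit 4) q))) fuel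

def testN (K : KT) (n d Y need : Nat) : Bool :=
  K.get (Nat.add d Y) false (fun g T =>
    Nat.ble (Nat.add need (lossN T (Nat.sub (nat_lit 3) d) Y (Nat.sub n (nat_lit 1)) (nat_lit 1)
      (nat_lit 0) (Nat.div Y (nat_lit 4)))) g)

def leafOr (A : PT) (k : Nat → Bool) : Bool :=
  PT.rec (motive := fun _ => Bool) (fun v => k v) (fun _ _ => false) (fun _ _ _ _ => false) A

def force {α : Type} (x : Nat) (k : Nat → α) : α :=
  Nat.rec (motive := fun _ => α) (k (nat_lit 0)) (fun y _ => k (Nat.succ y)) x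

/-- `n` letters `u` (recent first code `Y`, `pw = 4^n`), `X` = oldest-first code of `u` followed by `d`;
`f` the oldest letter. -/
def goN (K : KT) (d : Nat) (fuel : Nat) : Nat → Nat → Nat → Nat → Nat → PT → PT → Bool :=
  Nat.rec (motive := fun _ => Nat → Nat → Nat → Nat → Nat → PT → PT → Bool)
    (fun _ _ _ _ _ _ _ => false)
    (fun _ ih n X Y pw f A B =>
      bt (leafOr A (fun v1 => leafOr B (fun v2 =>
          bt (Nat.ble (Nat.add v1 (nat_lit 1750)) v2) true
          (bt (Nat.ble (nat_lit 32) n) (testN K n d Y (Nat.sub (Nat.add v1 (nat_lit 1750)) v2)) false))))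
        true
        (bt (force (Nat.mod (Nat.add f (nat_lit 2)) (nat_lit 3)) (fun a =>
              force (Nat.add (Nat.mul (nat_lit 4) X) a) (fun X' =>
              bt (sqp X' (Nat.div (Nat.add n (nat_lit 2)) (nat_lit 2)) (nat_lit 4)) true
              (ih (Nat.succ n) X' (Nat.add Y (Nat.mul a pw)) (Nat.mul (nat_lit 4) pw) a
                A.step0 B.step0))))
          (force (Nat.mod (Nat.add f (nat_lit 1)) (nat_lit 3)) (fun a =>
              force (Nat.add (Nat.mul (nat_lit 4) X) a) (fun X' =>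
              bt (sqp X' (Nat.div (Nat.add n (nat_lit 2)) (nat_lit 2)) (nat_lit 4)) true
              (ih (Nat.succ n) X' (Nat.add Y (Nat.mul a pw)) (Nat.mul (nat_lit 4) pw) a
                A.step1 B.step1))))
          false)) fuel

end Pool.Agent.SqfBridge
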