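import Pool.Agent.SqfBridge.Sep

set_option autoImplicit false

namespace Pool.Agent.SqfBridge

/-- integer caps for small gaps. -/
def capN (m : ℕ) : ℕ :=
  ([0,10000,10000,10000,7000,5737,4703,3854,3159,2589,2122,1740,1426,1169,958,785,643,527,432,354,
    290,238,195,160,131] : List ℕ).getD m 125

/-- weight of a near-square of gap `m`. -/
def wq (m : ℕ) : ℚ := if m < 30 then (capN m : ℚ) else 125 / 2 ^ ((m - 43) / 18)

def Cond (p a : ℕ) : Prop := (p - a < 30 ∧ 26 ≤ p ∧ 32 ≤ p + a) ∨ (30 ≤ p - a ∧ 29 ≤ a)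

instance (p a : ℕ) : Decidable (Cond p a) := by unfold Cond; infer_instance

/-- event: near-square (position `N`, period `p`) charged to the global budget. -/
def Ev (W : ℕ → Fin 3) (N p : ℕ) : Prop :=
  0 < p ∧ p ≤ N ∧ W (N - p) ≠ W N ∧ Cond p (arm W N p)

instance (W : ℕ → Fin 3) (N p : ℕ) : Decidable (Ev W N p) := by unfold Ev; infer_instance

def InvSum (W : ℕ → Fin 3) (N : ℕ) : ℚ :=
  ∑ p ∈ Finset.range (N + 1), if Ev W N p then wq (p - arm W N p) else 0

def loG : ℕ → ℕ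
  | 0 => 1
  | 1 => 15
  | 2 => 23
  | 3 => 27
  | n + 4 => 30 + 18 * n

def hiG : ℕ → ℕ
  | 0 => 14
  | 1 => 22
  | 2 => 26
  | 3 => 29
  | n + 4 => 47 + 18 * n

def sG : ℕ → ℕ
  | 0 => 13
  | 1 => 5
  | 2 => 3
  | 3 => 2
  | _ + 4 => 13

def rhoG : ℕ → ℕ → ℚ
  | 0, 0 => 10000 / 24
  | 0, 1 => 10000 / 37
  | 0, j + 2 => 10000 / 52 / 2 ^ j
  | 1, 0 => 785 / 12
  | 1, j + 1 => 785 / 10 / 2 ^ j
  | 2, j => 160 / 3 / 2 ^ j
  | 3, j => 125 / 2 / 2 ^ j
  | n + 4, j => wq (30 + 18 * n) / 13 / 2 ^ j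

def RG : ℕ → ℚ
  | 0 => 10000 / 24 + 10000 / 37 + 10000 / 26
  | 1 => 785 / 12 + 785 / 5
  | 2 => 320 / 3
  | 3 => 125
  | n + 4 => 2 * wq (30 + 18 * n) / 13

theorem wq_nonneg (m : ℕ) : 0 ≤ wq m := by
  unfold wq; split_ifs <;> positivity

theorem wq_large (n : ℕ) {m : ℕ} (h : 30 + 18 * n ≤ m) : wq m ≤ wq (30 + 18 * n) := by
  unfold wq
  rw [if_neg (by omega), if_neg (by omega)]
  apply div_le_div_of_nonneg_left (by norm_num) (by positivity)
  apply pow_le_pow_right₀ (by norm_num)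
  apply Nat.div_le_div_right
  omega

theorem geo_le (k : ℕ) : ∑ j ∈ Finset.range k, (1 : ℚ) / 2 ^ j ≤ 2 := by
  have h : ∀ k : ℕ, ∑ j ∈ Finset.range k, (1 : ℚ) / 2 ^ j = 2 - 2 / 2 ^ k := by
    intro k
    induction k with
    | zero => norm_num
    | succ n ih =>
      rw [Finset.sum_range_succ, ih, pow_succ]
      field_simp
      ring
  rw [h]
  have : (0 : ℚ) < 2 / 2 ^ k := by positivity
  linarith

theorem geo_mul_le (k : ℕ) (c : ℚ) (hc : 0 ≤ c) :
    ∑ j ∈ Finset.range k, c / 2 ^ j ≤ 2 * c := by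
  have : ∑ j ∈ Finset.range k, c / 2 ^ j = c * ∑ j ∈ Finset.range k, (1 : ℚ) / 2 ^ j := by
    rw [Finset.mul_sum]; apply Finset.sum_congr rfl; intro j _; ring
  rw [this]
  have := geo_le k
  nlinarith

theorem rho_sum (g k : ℕ) : ∑ j ∈ Finset.range k, rhoG g j ≤ RG g := by
  match g with
  | 0 =>
    match k with
    | 0 => simp [RG]; norm_num
    | 1 => simp [RG, rhoG]; norm_num
    | k + 2 =>
      rw [Finset.sum_range_succ', Finset.sum_range_succ']
      have := geo_mul_le k (10000 / 52) (by norm_num)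
      simp only [rhoG, RG]
      linarith
  | 1 =>
    match k with
    | 0 => simp [RG]; norm_num
    | k + 1 =>
      rw [Finset.sum_range_succ']
      have := geo_mul_le k (785 / 10) (by norm_num)
      simp only [rhoG, RG]
      linarith
  | 2 =>
    have := geo_mul_le k (160 / 3) (by norm_num)
    simp only [rhoG, RG]
    linarith
  | 3 =>
    have := geo_mul_le k (125 / 2) (by norm_num)
    simp only [rhoG, RG]
    linarith
  | n + 4 =>
    have := geo_mul_le k (wq (30 + 18 * n) / 13) (by have := wq_nonneg (30 + 18 * n); positivity)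
    simp only [rhoG, RG]
    linarith

theorem rho_nonneg (g j : ℕ) : 0 ≤ rhoG g j := by
  match g, j with
  | 0, 0 => norm_num [rhoG]
  | 0, 1 => norm_num [rhoG]
  | 0, j + 2 => simp only [rhoG]; positivity
  | 1, 0 => norm_num [rhoG]
  | 1, j + 1 => simp only [rhoG]; positivity
  | 2, j => simp only [rhoG]; positivity
  | 3, j => simp only [rhoG]; positivity
  | n + 4, j => simp only [rhoG]; have := wq_nonneg (30 + 18 * n); positivity

theorem wq_le_lo (g m : ℕ) (h1 : loG g ≤ m) (h2 : m ≤ hiG g) : wq m ≤ wq (loG g) := by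
  match g with
  | 0 =>
    simp only [loG, hiG] at *
    interval_cases m <;> norm_num [wq, capN]
  | 1 =>
    simp only [loG, hiG] at *
    interval_cases m <;> norm_num [wq, capN]
  | 2 =>
    simp only [loG, hiG] at *
    interval_cases m <;> norm_num [wq, capN]
  | 3 =>
    simp only [loG, hiG] at *
    interval_cases m <;> norm_num [wq, capN]
  | n + 4 => exact wq_large n h1

theorem rho_spec (g j m : ℕ) (h1 : loG g ≤ m) (h2 : m ≤ hiG g) :
    wq m ≤ rhoG g j * ((2 ^ j * sG g + hiG g - m : ℕ) : ℚ) := by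
  match g, j with
  | 0, 0 =>
    simp only [loG, hiG, sG] at *
    interval_cases m <;> norm_num [wq, capN, rhoG]
  | 0, 1 =>
    simp only [loG, hiG, sG] at *
    interval_cases m <;> norm_num [wq, capN, rhoG]
  | 1, 0 =>
    simp only [loG, hiG, sG] at *
    interval_cases m <;> norm_num [wq, capN, rhoG]
  | 0, j + 2 =>
    have h3 := wq_le_lo 0 m h1 h2
    have h4 : ((2 ^ (j + 2) * sG 0 : ℕ) : ℚ) ≤ ((2 ^ (j + 2) * sG 0 + hiG 0 - m : ℕ) : ℚ) := by
      exact_mod_cast (by omega)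
    have h5 : wq (loG 0) = rhoG 0 (j + 2) * ((2 ^ (j + 2) * sG 0 : ℕ) : ℚ) := by
      simp only [loG, rhoG, sG]
      push_cast
      norm_num [wq, capN]
      rw [pow_add]; field_simp; norm_num
    calc wq m ≤ _ := h3
      _ = _ := h5
      _ ≤ _ := mul_le_mul_of_nonneg_left h4 (rho_nonneg _ _)
  | 1, j + 1 =>
    have h3 := wq_le_lo 1 m h1 h2
    have h4 : ((2 ^ (j + 1) * sG 1 : ℕ) : ℚ) ≤ ((2 ^ (j + 1) * sG 1 + hiG 1 - m : ℕ) : ℚ) := by
      exact_mod_cast (by omega)
    have h5 : wq (loG 1) = rhoG 1 (j + 1) * ((2 ^ (j + 1) * sG 1 : ℕ) : ℚ) := by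
      simp only [loG, rhoG, sG]
      push_cast
      norm_num [wq, capN]
      rw [pow_add]; field_simp; norm_num
    calc wq m ≤ _ := h3
      _ = _ := h5
      _ ≤ _ := mul_le_mul_of_nonneg_left h4 (rho_nonneg _ _)
  | 2, j =>
    have h3 := wq_le_lo 2 m h1 h2
    have h4 : ((2 ^ j * sG 2 : ℕ) : ℚ) ≤ ((2 ^ j * sG 2 + hiG 2 - m : ℕ) : ℚ) := by
      exact_mod_cast (by omega)
    have h5 : wq (loG 2) = rhoG 2 j * ((2 ^ j * sG 2 : ℕ) : ℚ) := by
      simp only [loG, rhoG, sG]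
      push_cast
      norm_num [wq, capN]
      field_simp
    calc wq m ≤ _ := h3
      _ = _ := h5
      _ ≤ _ := mul_le_mul_of_nonneg_left h4 (rho_nonneg _ _)
  | 3, j =>
    have h3 := wq_le_lo 3 m h1 h2
    have h4 : ((2 ^ j * sG 3 : ℕ) : ℚ) ≤ ((2 ^ j * sG 3 + hiG 3 - m : ℕ) : ℚ) := by
      exact_mod_cast (by omega)
    have h5 : wq (loG 3) = rhoG 3 j * ((2 ^ j * sG 3 : ℕ) : ℚ) := by
      simp only [loG, rhoG, sG]
      push_cast
      norm_num [wq, capN]
      field_simp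
    calc wq m ≤ _ := h3
      _ = _ := h5
      _ ≤ _ := mul_le_mul_of_nonneg_left h4 (rho_nonneg _ _)
  | n + 4, j =>
    have h3 := wq_le_lo (n + 4) m h1 h2
    have h4 : ((2 ^ j * sG (n + 4) : ℕ) : ℚ) ≤ ((2 ^ j * sG (n + 4) + hiG (n + 4) - m : ℕ) : ℚ) := by
      exact_mod_cast (by omega)
    have h5 : wq (loG (n + 4)) = rhoG (n + 4) j * ((2 ^ j * sG (n + 4) : ℕ) : ℚ) := by
      simp only [loG, rhoG, sG]
      push_cast
      field_simp
    calc wq m ≤ _ := h3
      _ = _ := h5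
      _ ≤ _ := mul_le_mul_of_nonneg_left h4 (rho_nonneg _ _)

/-- every charged event lies in a group. -/
theorem exists_group (p a : ℕ) (hap : a < p) (h : Cond p a) :
    ∃ g, g < 4 + p ∧ loG g ≤ p - a ∧ p - a ≤ hiG g ∧ hiG g + sG g ≤ p + 1 := by
  rcases h with ⟨h1, h2, h3⟩ | ⟨h1, h2⟩
  · rcases Nat.lt_or_ge (p - a) 15 with h4 | h4
    · exact ⟨0, by omega, by simp only [loG]; omega, by simp only [hiG]; omega,
        by simp only [hiG, sG]; omega⟩
    · rcases Nat.lt_or_ge (p - a) 23 with h5 | h5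
      · exact ⟨1, by omega, by simp only [loG]; omega, by simp only [hiG]; omega,
          by simp only [hiG, sG]; omega⟩
      · rcases Nat.lt_or_ge (p - a) 27 with h6 | h6
        · exact ⟨2, by omega, by simp only [loG]; omega, by simp only [hiG]; omega,
            by simp only [hiG, sG]; omega⟩
        · exact ⟨3, by omega, by simp only [loG]; omega, by simp only [hiG]; omega,
            by simp only [hiG, sG]; omega⟩
  · refine ⟨(p - a - 30) / 18 + 4, ?_, ?_, ?_, ?_⟩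
    · omega
    · simp only [loG]; omega
    · simp only [hiG]; omega
    · simp only [hiG, sG]; omega

theorem sG_pos (g : ℕ) : 0 < sG g := by
  match g with
  | 0 => norm_num [sG]
  | 1 => norm_num [sG]
  | 2 => norm_num [sG]
  | 3 => norm_num [sG]
  | n + 4 => norm_num [sG]

theorem hiG_pos (g : ℕ) : 0 < hiG g := by
  match g with
  | 0 => norm_num [hiG]
  | 1 => norm_num [hiG]
  | 2 => norm_num [hiG]
  | 3 => norm_num [hiG]
  | n + 4 => simp only [hiG]; omega

/-- cell membership. -/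
def InCell (W : ℕ → Fin 3) (g j : ℕ) (e : ℕ × ℕ) : Prop :=
  loG g ≤ e.2 - arm W e.1 e.2 ∧ e.2 - arm W e.1 e.2 ≤ hiG g ∧
    2 ^ j * sG g + hiG g ≤ e.2 + 1 ∧ e.2 + 1 < 2 ^ (j + 1) * sG g + hiG g

instance (W : ℕ → Fin 3) (g j : ℕ) (e : ℕ × ℕ) : Decidable (InCell W g j e) := by
  unfold InCell; infer_instance

theorem exists_cell (W : ℕ → Fin 3) (hW : SF W) (k N p : ℕ) (hN : N < 2 ^ k) (h : Ev W N p) :
    ∃ g, g < 4 + 2 ^ k ∧ ∃ j, j < k ∧ InCell W g j (N, p) := by
  obtain ⟨hp, hpN, -, hc⟩ := h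
  obtain ⟨g, hg, h1, h2, h3⟩ := exists_group p (arm W N p) (arm_lt hW hp hpN) hc
  have hs := sG_pos g
  have hh := hiG_pos g
  refine ⟨g, by omega, Nat.log 2 ((p + 1 - hiG g) / sG g), ?_, h1, h2, ?_, ?_⟩
  · have h4 : (p + 1 - hiG g) / sG g ≠ 0 := by
      have : 1 ≤ (p + 1 - hiG g) / sG g := by
        rw [Nat.le_div_iff_mul_le hs]; omega
      omega
    rw [← Nat.pow_lt_pow_iff_right (a := 2) (by norm_num)]
    calc 2 ^ Nat.log 2 ((p + 1 - hiG g) / sG g) ≤ (p + 1 - hiG g) / sG g :=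
          Nat.pow_log_le_self 2 h4
      _ ≤ p + 1 - hiG g := Nat.div_le_self _ _
      _ < 2 ^ k := by omega
  · have h4 : (p + 1 - hiG g) / sG g ≠ 0 := by
      have : 1 ≤ (p + 1 - hiG g) / sG g := by
        rw [Nat.le_div_iff_mul_le hs]; omega
      omega
    have h5 := Nat.pow_log_le_self 2 h4
    rw [Nat.le_div_iff_mul_le hs] at h5
    show 2 ^ _ * sG g + hiG g ≤ p + 1
    omega
  · have h5 := Nat.lt_pow_succ_log_self (b := 2) (by norm_num) ((p + 1 - hiG g) / sG g)
    rw [Nat.div_lt_iff_lt_mul hs, Nat.succ_eq_add_one] at h5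
    show p + 1 < 2 ^ (_ + 1) * sG g + hiG g
    omega

/-- separation inside a cell. -/
theorem cell_sep (W : ℕ → Fin 3) (hW : SF W) (g j : ℕ) (e e' : ℕ × ℕ)
    (h1 : Ev W e.1 e.2) (h2 : Ev W e'.1 e'.2) (c1 : InCell W g j e) (c2 : InCell W g j e')
    (hne : e ≠ e') (hC : e.1 - e.2 ≤ e'.1 - e'.2) :
    e.1 - e.2 + (2 ^ j * sG g + hiG g - (e'.2 - arm W e'.1 e'.2)) ≤ e'.1 - e'.2 := by
  obtain ⟨N, p⟩ := e
  obtain ⟨N', q⟩ := e'
  simp only at *
  obtain ⟨hp, hpN, hne1, -⟩ := h1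
  obtain ⟨hq, hqN, hne2, -⟩ := h2
  obtain ⟨l1, u1, s1, t1⟩ := c1
  obtain ⟨l2, u2, s2, t2⟩ := c2
  simp only at *
  have r1 := run_arm hpN (W := W)
  have r2 := run_arm hqN (W := W)
  have a1 := arm_lt hW hp hpN
  have a2 := arm_lt hW hq hqN
  have hpow : 2 ^ (j + 1) * sG g = 2 * (2 ^ j * sG g) := by ring
  have hN1 : N - p + p = N := by omega
  have hN2 : N' - q + q = N' := by omega
  have hdist : p ≠ q ∨ N - p ≠ N' - q := by
    by_contra hcon
    push Not at hcon
    apply hne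
    obtain ⟨e1, e2⟩ := hcon
    ext <;> simp <;> omega
  rcases Nat.le_total p q with hpq | hpq
  · have := sep_left hW (C := N - p) (p := p) (a := arm W N p) (C' := N' - q) (q := q)
      (b := arm W N' q) (fun i hi h => r1.2 i hi (by omega)) (by have := r1.1; omega)
      (fun i hi h => r2.2 i hi (by omega)) (by have := r2.1; omega) a2
      (by rw [hN1]; exact hne1) hpq (by omega) hC hdist
    omega
  · have := sep_right hW (C := N' - q) (p := q) (a := arm W N' q) (C' := N - p) (q := p)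
      (b := arm W N p) (fun i hi h => r2.2 i hi (by omega)) (by have := r2.1; omega)
      (fun i hi h => r1.2 i hi (by omega)) (by have := r1.1; omega) a1
      (by rw [hN1]; exact hne1) hpq (by omega) (by omega) hC
      (by rcases hdist with h | h
          · left; exact fun h' => h h'.symm
          · right; exact fun h' => h h'.symm)
    omega

/-- all events with position below `2^k`. -/
def evs (W : ℕ → Fin 3) (k : ℕ) : Finset (ℕ × ℕ) :=
  ((Finset.range (2 ^ k)) ×ˢ (Finset.range (2 ^ k))).filter fun e => Ev W e.1 e.2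

theorem invSum_total (W : ℕ → Fin 3) (k : ℕ) :
    ∑ N ∈ Finset.range (2 ^ k), InvSum W N = ∑ e ∈ evs W k, wq (e.2 - arm W e.1 e.2) := by
  unfold evs
  rw [Finset.sum_filter, Finset.sum_product]
  apply Finset.sum_congr rfl
  intro N hN
  rw [Finset.mem_range] at hN
  unfold InvSum
  have hsub : Finset.range (N + 1) ⊆ Finset.range (2 ^ k) := by
    intro x hx
    rw [Finset.mem_range] at *
    omega
  apply Finset.sum_subset hsub
  intro x _ hx2
  rw [Finset.mem_range] at hx2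
  rw [if_neg]
  intro h
  have := h.2.1
  omega

theorem cell_bound (W : ℕ → Fin 3) (hW : SF W) (k g j : ℕ) :
    ∑ e ∈ (evs W k).filter (fun e => InCell W g j e), wq (e.2 - arm W e.1 e.2)
      ≤ rhoG g j * (2 ^ k : ℕ) + wq (loG g) := by
  have hmem : ∀ e ∈ (evs W k).filter (fun e => InCell W g j e),
      e.1 < 2 ^ k ∧ Ev W e.1 e.2 ∧ InCell W g j e := by
    intro e he
    rw [Finset.mem_filter] at he
    unfold evs at he
    rw [Finset.mem_filter, Finset.mem_product, Finset.mem_range] at he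
    exact ⟨he.1.1.1, he.1.2, he.2⟩
  apply count_sep ((evs W k).filter (fun e => InCell W g j e)) (fun e => e.1 - e.2)
    (fun e => 2 ^ j * sG g + hiG g - (e.2 - arm W e.1 e.2))
    (fun e => wq (e.2 - arm W e.1 e.2)) (rhoG g j) (wq (loG g)) (rho_nonneg g j) (wq_nonneg _)
  · intro e he e' he' hne hC
    obtain ⟨_, a1, b1⟩ := hmem e he
    obtain ⟨_, a2, b2⟩ := hmem e' he'
    exact cell_sep W hW g j e e' a1 a2 b1 b2 hne hC
  · intro e he
    obtain ⟨_, _, b1⟩ := hmem e he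
    have := b1.2.1
    have h3 : 0 < 2 ^ j * sG g := Nat.mul_pos (by positivity) (sG_pos g)
    show 1 ≤ 2 ^ j * sG g + hiG g - (e.2 - arm W e.1 e.2)
    omega
  · intro e he
    obtain ⟨_, _, b1⟩ := hmem e he
    exact rho_spec g j _ b1.1 b1.2.1
  · intro e he
    obtain ⟨_, _, b1⟩ := hmem e he
    exact wq_le_lo g _ b1.1 b1.2.1
  · intro e he
    obtain ⟨h1, _, _⟩ := hmem e he
    omega

theorem wq_group_sum (T : ℕ) : ∑ n ∈ Finset.range T, wq (30 + 18 * n) ≤ 375 := by
  have h1 : ∀ n : ℕ, wq (30 + 18 * (n + 1)) = 125 / 2 ^ n := by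
    intro n
    unfold wq
    rw [if_neg (by omega)]
    have : (30 + 18 * (n + 1) - 43) / 18 = n := by omega
    rw [this]
  match T with
  | 0 => simp
  | T + 1 =>
    rw [Finset.sum_range_succ']
    have h2 : wq (30 + 18 * 0) = 125 := by norm_num [wq]
    rw [h2]
    simp_rw [h1]
    have := geo_mul_le T 125 (by norm_num)
    linarith

theorem total_bound (W : ℕ → Fin 3) (hW : SF W) (k : ℕ) :
    ∑ N ∈ Finset.range (2 ^ k), InvSum W N ≤ 1584 * (2 ^ k : ℕ) + 11445 * k := by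
  rw [invSum_total]
  have step1 : ∑ e ∈ evs W k, wq (e.2 - arm W e.1 e.2)
      ≤ ∑ g ∈ Finset.range (4 + 2 ^ k), ∑ j ∈ Finset.range k,
        ∑ e ∈ (evs W k).filter (fun e => InCell W g j e), wq (e.2 - arm W e.1 e.2) := by
    have h1 : ∀ e ∈ evs W k, wq (e.2 - arm W e.1 e.2)
        ≤ ∑ g ∈ Finset.range (4 + 2 ^ k), ∑ j ∈ Finset.range k,
          if InCell W g j e then wq (e.2 - arm W e.1 e.2) else 0 := by
      intro e he
      unfold evs at he
      rw [Finset.mem_filter, Finset.mem_product, Finset.mem_range] at he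
      obtain ⟨g, hg, j, hj, hc⟩ := exists_cell W hW k e.1 e.2 he.1.1 he.2
      have hnn : ∀ g' j' : ℕ, (0 : ℚ) ≤ if InCell W g' j' e then wq (e.2 - arm W e.1 e.2) else 0 := by
        intro g' j'
        split_ifs
        · exact wq_nonneg _
        · exact le_refl _
      calc wq (e.2 - arm W e.1 e.2) = if InCell W g j e then wq (e.2 - arm W e.1 e.2) else 0 := by
            rw [if_pos hc]
        _ ≤ ∑ j' ∈ Finset.range k, if InCell W g j' e then wq (e.2 - arm W e.1 e.2) else 0 :=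
            Finset.single_le_sum (f := fun j' => if InCell W g j' e then wq (e.2 - arm W e.1 e.2) else 0)
              (fun j' _ => hnn g j') (Finset.mem_range.mpr hj)
        _ ≤ _ := Finset.single_le_sum
              (f := fun g' => ∑ j' ∈ Finset.range k, if InCell W g' j' e then wq (e.2 - arm W e.1 e.2) else 0)
              (fun g' _ => Finset.sum_nonneg (fun j' _ => hnn g' j')) (Finset.mem_range.mpr hg)
    refine (Finset.sum_le_sum h1).trans (le_of_eq ?_)
    rw [Finset.sum_comm]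
    apply Finset.sum_congr rfl
    intro g _
    rw [Finset.sum_comm]
    apply Finset.sum_congr rfl
    intro j _
    rw [Finset.sum_filter]
  have step2 : ∑ g ∈ Finset.range (4 + 2 ^ k), ∑ j ∈ Finset.range k,
        ∑ e ∈ (evs W k).filter (fun e => InCell W g j e), wq (e.2 - arm W e.1 e.2)
      ≤ ∑ g ∈ Finset.range (4 + 2 ^ k), (RG g * (2 ^ k : ℕ) + k * wq (loG g)) := by
    apply Finset.sum_le_sum
    intro g _
    calc ∑ j ∈ Finset.range k,
        ∑ e ∈ (evs W k).filter (fun e => InCell W g j e), wq (e.2 - arm W e.1 e.2)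
        ≤ ∑ j ∈ Finset.range k, (rhoG g j * (2 ^ k : ℕ) + wq (loG g)) :=
          Finset.sum_le_sum (fun j _ => cell_bound W hW k g j)
      _ = (∑ j ∈ Finset.range k, rhoG g j) * (2 ^ k : ℕ) + k * wq (loG g) := by
          rw [Finset.sum_add_distrib, Finset.sum_mul, Finset.sum_const, Finset.card_range,
            nsmul_eq_mul]
      _ ≤ RG g * (2 ^ k : ℕ) + k * wq (loG g) := by
          have := rho_sum g k
          have h2 : (0 : ℚ) ≤ ((2 ^ k : ℕ) : ℚ) := by positivity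
          nlinarith [mul_le_mul_of_nonneg_right this h2]
  have hRG : ∑ g ∈ Finset.range (4 + 2 ^ k), RG g ≤ 1584 := by
    rw [Finset.sum_range_add]
    have h4 : ∑ g ∈ Finset.range 4, RG g
        = 10000 / 24 + 10000 / 37 + 10000 / 26 + (785 / 12 + 785 / 5) + 320 / 3 + 125 := by
      simp only [Finset.sum_range_succ, Finset.sum_range_zero, RG]
      ring
    have h5 : ∑ x ∈ Finset.range (2 ^ k), RG (4 + x)
        = 2 / 13 * ∑ n ∈ Finset.range (2 ^ k), wq (30 + 18 * n) := by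
      rw [Finset.mul_sum]
      apply Finset.sum_congr rfl
      intro x _
      rw [Nat.add_comm 4 x]
      simp only [RG]
      ring
    rw [h4, h5]
    have := wq_group_sum (2 ^ k)
    linarith
  have hlo : ∑ g ∈ Finset.range (4 + 2 ^ k), wq (loG g) ≤ 11445 := by
    rw [Finset.sum_range_add]
    have h4 : ∑ g ∈ Finset.range 4, wq (loG g) = 11070 := by
      simp only [Finset.sum_range_succ, Finset.sum_range_zero, loG]
      norm_num [wq, capN]
    have h5 : ∑ x ∈ Finset.range (2 ^ k), wq (loG (4 + x))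
        = ∑ n ∈ Finset.range (2 ^ k), wq (30 + 18 * n) := by
      apply Finset.sum_congr rfl
      intro x _
      rw [Nat.add_comm 4 x]
      simp only [loG]
    rw [h4, h5]
    have := wq_group_sum (2 ^ k)
    linarith
  have step3 : ∑ g ∈ Finset.range (4 + 2 ^ k), (RG g * (2 ^ k : ℕ) + k * wq (loG g))
      = (∑ g ∈ Finset.range (4 + 2 ^ k), RG g) * (2 ^ k : ℕ)
        + k * ∑ g ∈ Finset.range (4 + 2 ^ k), wq (loG g) := by
    rw [Finset.sum_add_distrib, Finset.sum_mul, Finset.mul_sum]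
  rw [step3] at step2
  have h6 : (0 : ℚ) ≤ ((2 ^ k : ℕ) : ℚ) := by positivity
  have h7 : (0 : ℚ) ≤ (k : ℚ) := by positivity
  calc _ ≤ _ := step1
    _ ≤ _ := step2
    _ ≤ _ := by
      have a1 := mul_le_mul_of_nonneg_right hRG h6
      have a2 := mul_le_mul_of_nonneg_left hlo h7
      linarith

/-- a bounded potential that increases at rate 1750 up to the charged events is impossible. -/
theorem contradiction_of_potential (W : ℕ → Fin 3) (hW : SF W) (φ : ℕ → ℚ) (B : ℚ)
    (hφ : ∀ N, 0 ≤ φ N ∧ φ N ≤ B) (n₁ : ℕ)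
    (h : ∀ N, n₁ ≤ N → φ N + 1750 ≤ φ (N + 1) + InvSum W N) : False := by
  have hnn : ∀ N, 0 ≤ InvSum W N := by
    intro N
    unfold InvSum
    apply Finset.sum_nonneg
    intro p _
    split_ifs
    · exact wq_nonneg _
    · exact le_refl _
  have key : ∀ M : ℕ, φ n₁ + 1750 * (M : ℚ)
      ≤ φ (n₁ + M) + ∑ N ∈ Finset.range (n₁ + M), InvSum W N := by
    intro M
    induction M with
    | zero =>
      have : 0 ≤ ∑ N ∈ Finset.range (n₁ + 0), InvSum W N := Finset.sum_nonneg (fun N _ => hnn N)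
      simp only [Nat.cast_zero, mul_zero, add_zero] at *
      linarith
    | succ M ih =>
      have := h (n₁ + M) (by omega)
      rw [← Nat.add_assoc, Finset.sum_range_succ]
      push_cast
      linarith
  -- take n₁ + M = 2^k
  have key2 : ∀ k : ℕ, n₁ ≤ 2 ^ k → 1750 * ((2 : ℚ) ^ k - n₁) ≤ B + 1584 * 2 ^ k + 11445 * k := by
    intro k hk
    have h1 := key (2 ^ k - n₁)
    have h2 : n₁ + (2 ^ k - n₁) = 2 ^ k := by omega
    rw [h2] at h1
    have h3 := total_bound W hW k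
    have h4 := hφ n₁
    have h5 := hφ (2 ^ k)
    have h6 : ((2 ^ k - n₁ : ℕ) : ℚ) = (2 : ℚ) ^ k - n₁ := by
      rw [Nat.cast_sub hk]; push_cast; ring
    rw [h6] at h1
    push_cast at h3
    linarith
  -- 166 * 2^k ≤ B + 1750 n₁ + 11445 k
  obtain ⟨B', hB'⟩ := exists_nat_gt (B + 1750 * n₁)
  have key3 : ∀ k : ℕ, n₁ ≤ 2 ^ k → 166 * 2 ^ k ≤ B' + 11445 * k := by
    intro k hk
    have := key2 k hk
    have h1 : (166 : ℚ) * 2 ^ k ≤ B' + 11445 * k := by linarith
    exact_mod_cast h1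
  have hk : ∀ k : ℕ, k < 2 ^ k := fun k => Nat.lt_two_pow_self
  -- choose k = 2 * (B' + n₁ + 20)
  have h1 := key3 (2 * (B' + n₁ + 20)) (by
    have := hk (2 * (B' + n₁ + 20))
    omega)
  have h2 := hk (B' + n₁ + 20)
  have h3 : 2 ^ (2 * (B' + n₁ + 20)) = 2 ^ (B' + n₁ + 20) * 2 ^ (B' + n₁ + 20) := by
    rw [two_mul, pow_add]
  rw [h3] at h1
  have h4 : 2 ^ 20 ≤ 2 ^ (B' + n₁ + 20) := Nat.pow_le_pow_right (by norm_num) (by omega)
  have h5 : 2 ^ 20 * (B' + n₁ + 20) ≤ 2 ^ (B' + n₁ + 20) * 2 ^ (B' + n₁ + 20) :=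
    Nat.mul_le_mul h4 h2.le
  norm_num at h5
  omega

end Pool.Agent.SqfBridge
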