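import Pool.Agent.SqfBridge.Chain
import Pool.Agent.SqfBridge.Total

set_option autoImplicit false

namespace Pool.Agent.SqfBridge

open Classical in
/-- mass of the leaves with property `P`. -/
noncomputable def mass (L : List Leaf) (P : Leaf → Prop) : ℕ :=
  (L.map (fun ℓ => if P ℓ then ℓ.w else 0)).sum

/-- weighted sum over leaves. -/
def msum (L : List Leaf) (f : Leaf → ℚ) : ℚ := (L.map f).sum

theorem msum_add (L : List Leaf) (f g : Leaf → ℚ) :
    msum L (fun ℓ => f ℓ + g ℓ) = msum L f + msum L g := by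
  unfold msum
  induction L with
  | nil => simp
  | cons a l ih => simp only [List.map_cons, List.sum_cons, ih]; ring

theorem msum_le (L : List Leaf) (f g : Leaf → ℚ) (h : ∀ ℓ ∈ L, f ℓ ≤ g ℓ) :
    msum L f ≤ msum L g := by
  unfold msum
  induction L with
  | nil => simp
  | cons a l ih =>
    simp only [List.map_cons, List.sum_cons]
    have := h a (by simp)
    have := ih (fun ℓ hℓ => h ℓ (by simp [hℓ]))
    linarith

theorem msum_finset {ι : Type} (L : List Leaf) (S : Finset ι) (f : ι → Leaf → ℚ) :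
    msum L (fun ℓ => ∑ p ∈ S, f p ℓ) = ∑ p ∈ S, msum L (f p) := by
  unfold msum
  induction L with
  | nil => simp
  | cons a l ih =>
    simp only [List.map_cons, List.sum_cons, ih, Finset.sum_add_distrib]

open Classical in
theorem msum_mass (L : List Leaf) (P : Leaf → Prop) (a : ℚ) :
    msum L (fun ℓ => if P ℓ then (ℓ.w : ℚ) * a else 0) = (mass L P : ℚ) * a := by
  unfold msum mass
  induction L with
  | nil => simp
  | cons b l ih =>
    simp only [List.map_cons, List.sum_cons, ih]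
    push_cast
    split_ifs <;> ring

open Classical in
theorem msum_mass' (L : List Leaf) (P : Leaf → Prop) :
    msum L (fun ℓ => if P ℓ then (ℓ.w : ℚ) else 0) = (mass L P : ℚ) := by
  have := msum_mass L P 1
  simpa using this

open Classical in
theorem mass_mono (L : List Leaf) (P Q : Leaf → Prop) (h : ∀ ℓ ∈ L, P ℓ → Q ℓ) :
    mass L P ≤ mass L Q := by
  unfold mass
  induction L with
  | nil => simp
  | cons a l ih =>
    simp only [List.map_cons, List.sum_cons]
    have h1 := ih (fun ℓ hℓ => h ℓ (by simp [hℓ]))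
    have h2 := h a (by simp)
    split_ifs with h3 h4
    · omega
    · exact (h4 (h2 h3)).elim
    · omega
    · omega

/-- fixed letters of a leaf. -/
def yb (ℓ : Leaf) (k : ℕ) : Fin 3 := tail ℓ (fun _ => 0) (fun _ => false) k

theorem Gf_congr {t t' : ℕ → Fin 3} {b b' : ℕ → Bool} {k : ℕ} (h1 : t (k / 18) = t' (k / 18))
    (h2 : b (k / 18) = b' (k / 18)) : Gf t b k = Gf t' b' k := by
  unfold Gf; rw [h1, h2]

theorem tail_eq_yb {ℓ : Leaf} (ho : ℓ.o ≤ 23) (t : ℕ → Fin 3) (b : ℕ → Bool) {k : ℕ} (hk : k < 32) :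
    tail ℓ t b k = yb ℓ k := by
  unfold yb tail
  by_cases h : k < 19
  · rw [if_pos h, if_pos h]
  · rw [if_neg h, if_neg h]
    have hq : (ℓ.o + (k - 19)) / 18 < 2 := by omega
    apply Gf_congr
    · unfold Leaf.st
      interval_cases hh : (ℓ.o + (k - 19)) / 18 <;> rfl
    · unfold Leaf.sb
      interval_cases hh : (ℓ.o + (k - 19)) / 18 <;> rfl

/-- leaf data for one key. -/
structure KeyOK (κ : ℕ → Fin 3) (c : Fin 3) (L : List Leaf) : Prop where
  ok : ∀ ℓ ∈ L, LeafOK κ c ℓ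
  cap : ∀ k, 1 ≤ k → k ≤ 32 → ∀ v : ℕ → Fin 3, mass L (fun ℓ => ∀ j < k, yb ℓ j = v j) ≤ capN k
  cls : ∀ v : ℕ → Fin 3, mass L (fun ℓ => ∀ j, 10 ≤ j → j < 32 → yb ℓ j = v j) ≤ 300

/-- leaf compatible with near-square `p`. -/
def Pre (W : ℕ → Fin 3) (N p : ℕ) (ℓ : Leaf) : Prop :=
  ∀ j < min (p - arm W N p) 32, yb ℓ j = W (N - p + j)

def VisP (W : ℕ → Fin 3) (N : ℕ) (c : Fin 3) (n p : ℕ) : Prop :=
  0 < p ∧ W (N - p) = c ∧ 9 ≤ p + arm W N p ∧ p + arm W N p < n

theorem blk_zero (a : Fin 3) (b : Bool) : (blk a b).getD 0 0 = a := by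
  revert a b; decide

theorem blk_six (a : Fin 3) (b b' : Bool) (h : (blk a b).getD 6 0 = (blk a b').getD 6 0) :
    b = b' := by
  revert a b b'; decide

theorem bits_unique {ℓ : Leaf} (ho1 : 1 ≤ ℓ.o) (ho2 : ℓ.o ≤ 23) {t t' : ℕ → Fin 3}
    {b b' : ℕ → Bool} {m : ℕ} (h : ∀ j < m, tail ℓ t b j = tail ℓ t' b' j) :
    ∀ i < (m - 43) / 18, b i = b' i := by
  intro i hi
  have h0 := h (55 - ℓ.o + 18 * i) (by omega)
  have h6 := h (61 - ℓ.o + 18 * i) (by omega)
  rw [tail_ge (by omega), tail_ge (by omega)] at h0 h6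
  have e0 : ℓ.o + (55 - ℓ.o + 18 * i - 19) = 18 * (i + 2) := by omega
  have e6 : ℓ.o + (61 - ℓ.o + 18 * i - 19) = 18 * (i + 2) + 6 := by omega
  rw [e0] at h0
  rw [e6] at h6
  unfold Gf at h0 h6
  have d0 : 18 * (i + 2) / 18 = i + 2 := by omega
  have d6 : (18 * (i + 2) + 6) / 18 = i + 2 := by omega
  have m0 : 18 * (i + 2) % 18 = 0 := by omega
  have m6 : (18 * (i + 2) + 6) % 18 = 6 := by omega
  rw [d0, m0, blk_zero, blk_zero] at h0
  rw [d6, m6] at h6
  have s1 : ℓ.sb b (i + 2) = b i := rfl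
  have s2 : ℓ.sb b' (i + 2) = b' i := rfl
  rw [h0, s1, s2] at h6
  exact blk_six _ _ _ h6

/-- the tails of the family cannot be continued at `N`. -/
def Bad (W : ℕ → Fin 3) (N : ℕ) (L : List Leaf) : Prop :=
  ∀ ℓ ∈ L, ∀ β : List Bool, ∃ (t : ℕ → Fin 3) (b : ℕ → Bool) (m : ℕ), AdjT ℓ t ∧
    SFto (fcons (toF ℓ.t0) t) (m + 1) ∧ (∀ i (h : i < β.length), b i = β[i]) ∧
    ¬ SFto (app N W (tail ℓ t b)) (N + (55 - ℓ.o) + 18 * m)

open Classical in
theorem leaf_ineq {W : ℕ → Fin 3} (hW : SF W) {N n : ℕ} {κ : ℕ → Fin 3} {c : Fin 3}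
    {L : List Leaf} (hn : 32 ≤ n) (hnN : n ≤ N) (hκ : ∀ j < 8, κ j = W (N - 8 + j))
    (hL : KeyOK κ c L) (hcW : c ≠ W N)
    (hinv : ∀ p, 0 < p → p < n → W (N - p) = c → n ≤ p + arm W N p → 26 ≤ p)
    (hbad : Bad W N L) (ℓ : Leaf) (hℓ : ℓ ∈ L) :
    (∃ p ∈ Finset.range n, VisP W N c n p ∧ Pre W N p ℓ) ∨
    (∃ t b p j0, AdjT ℓ t ∧ TB W N (tail ℓ t b) p j0) ∨
    (∃ p ∈ Finset.range (N + 1), (LK W N κ c p ∧ 32 ≤ p + arm W N p ∧ arm W N p < 29) ∧
      Pre W N p ℓ) ∨
    (∃ p ∈ Finset.range (N + 1), (Ev W N p ∧ p - arm W N p < 30) ∧ Pre W N p ℓ) ∨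
    (1 : ℚ) ≤ ∑ p ∈ (Finset.range (N + 1)).filter (fun p => Ev W N p ∧ ¬ p - arm W N p < 30),
      if Pre W N p ℓ then 1 / 2 ^ ((p - arm W N p - 43) / 18) else 0 := by
  by_contra hcon
  push Not at hcon
  obtain ⟨hA1, hA2, hA3, hA4, hA5⟩ := hcon
  have hok := hL.ok ℓ hℓ
  have ho1 := hok.ho1
  have ho2 := hok.ho2
  -- the killing long periods
  let P : ℕ → Prop := fun p => Ev W N p ∧ ¬ p - arm W N p < 30 ∧
    ∃ t b, AdjT ℓ t ∧ Near W N ℓ t b p
  let S : Finset ℕ := (Finset.range (N + 1)).filter P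
  have hwit : ∀ p, ∃ b : ℕ → Bool, P p → ∃ t, AdjT ℓ t ∧ Near W N ℓ t b p := by
    intro p
    by_cases h : P p
    · obtain ⟨_, _, t, b, h1, h2⟩ := id h
      exact ⟨b, fun _ => ⟨t, h1, h2⟩⟩
    · exact ⟨fun _ => false, fun h' => (h h').elim⟩
  choose bp hbp using hwit
  let r : ℕ → ℕ := fun p => (p - arm W N p - 43) / 18
  let word : ℕ → List Bool := fun p => (List.range (r p)).map (bp p)
  let F : List (List Bool) := S.toList.map word
  have hSle : (∑ p ∈ S, (1 : ℚ) / 2 ^ (r p)) < 1 := by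
    refine lt_of_le_of_lt ?_ hA5
    rw [← Finset.sum_filter]
    apply Finset.sum_le_sum_of_subset_of_nonneg
    · intro p hp
      simp only [S, Finset.mem_filter] at hp ⊢
      obtain ⟨hp1, hp2, hp3, t, b, hp4, hp5⟩ := hp
      refine ⟨⟨hp1, hp2, by omega⟩, ?_⟩
      intro j hj
      rw [← tail_eq_yb ho2 t b (by omega)]
      exact hp5 j (by omega)
    · intro p _ _
      positivity
  have hrN : ∀ p ∈ S, r p ≤ N := by
    intro p hp
    simp only [S, Finset.mem_filter, Finset.mem_range] at hp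
    simp only [r]
    omega
  have hkr := kraft N F
    (by
      intro β hβ
      simp only [F, List.mem_map, Finset.mem_toList] at hβ
      obtain ⟨p, hp, rfl⟩ := hβ
      simp only [word, List.length_map, List.length_range]
      exact hrN p hp)
    (by
      have e1 : (F.map fun β => 2 ^ (N - β.length)).sum = ∑ p ∈ S, 2 ^ (N - r p) := by
        simp only [F, List.map_map]
        rw [← Finset.sum_map_toList]
        congr 1
        apply List.map_congr_left
        intro p _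
        simp [word]
      rw [e1]
      have e2 : ((∑ p ∈ S, 2 ^ (N - r p) : ℕ) : ℚ) = 2 ^ N * ∑ p ∈ S, (1 : ℚ) / 2 ^ (r p) := by
        push_cast
        rw [Finset.mul_sum]
        apply Finset.sum_congr rfl
        intro p hp
        rw [mul_one_div, eq_div_iff (by positivity), ← pow_add]
        congr 1
        have := hrN p hp
        omega
      have e3 : ((∑ p ∈ S, 2 ^ (N - r p) : ℕ) : ℚ) < ((2 ^ N : ℕ) : ℚ) := by
        rw [e2]
        push_cast
        have : (0 : ℚ) < 2 ^ N := by positivity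
        nlinarith
      exact_mod_cast e3)
  obtain ⟨β, hβl, hβ⟩ := hkr
  obtain ⟨t, b, m, ha, hsf, hb, hns⟩ := hbad ℓ hℓ β
  apply hns
  intro i p hp hlen hsq
  have hcl := classify hW (N := N) (by omega) (x := tail ℓ t b) hκ (M := 55 - ℓ.o + 18 * m)
    (by
      have := tail_sf hok t b m ha hsf
      have e : 8 + (55 - ℓ.o + 18 * m) = 63 - ℓ.o + 18 * m := by omega
      rw [e]; exact this)
    hp (by omega) hsq
  rcases hcl with ⟨hpN, h9, hx⟩ | ⟨j0, hj⟩
  · -- near-square
    have hlt := arm_lt hW hp hpN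
    have hc : W (N - p) = c := by
      have := hx 0 (by omega)
      rw [Nat.add_zero] at this
      rw [← this]
      unfold tail
      rw [if_pos (by omega)]
      exact hok.h0
    have hpre : Pre W N p ℓ := by
      intro j hj
      rw [← tail_eq_yb ho2 t b (by omega)]
      exact hx j (by omega)
    have hnv : ¬ (p ∈ Finset.range n ∧ VisP W N c n p) := fun h => hA1 p h.1 h.2 hpre
    have hinvis : n ≤ p + arm W N p := by
      by_contra hlt2
      push Not at hlt2
      exact hnv ⟨Finset.mem_range.mpr (by omega), hp, hc, h9, hlt2⟩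
    have h26 : 26 ≤ p := by
      rcases Nat.lt_or_ge p n with h | h
      · exact hinv p hp h hc hinvis
      · omega
    have hne : W (N - p) ≠ W N := by rw [hc]; exact hcW
    rcases Nat.lt_or_ge (p - arm W N p) 30 with h30 | h30
    · exact hA4 p (Finset.mem_range.mpr (by omega))
        ⟨⟨hp, hpN, hne, Or.inl ⟨h30, h26, by omega⟩⟩, h30⟩ hpre
    · rcases Nat.lt_or_ge (arm W N p) 29 with h29 | h29
      · exact hA3 p (Finset.mem_range.mpr (by omega))
          ⟨⟨hp, hpN, h30, ℓ, t, b, hok, ha, hx⟩, by omega, h29⟩ hpre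
      · -- long near-square: contradiction through the bits
        have hPp : P p := ⟨⟨hp, hpN, hne, Or.inr ⟨h30, h29⟩⟩, by omega, t, b, ha, hx⟩
        have hpS : p ∈ S := by
          simp only [S, Finset.mem_filter, Finset.mem_range]
          exact ⟨by omega, hPp⟩
        obtain ⟨t', ha', hn'⟩ := hbp p hPp
        have hu := bits_unique ho1 ho2 (t := t) (t' := t') (b := b) (b' := bp p)
          (m := p - arm W N p) (fun j hj => by rw [hx j hj]; exact (hn' j hj).symm)
        refine hβ (word p) ?_ ?_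
        · simp only [F, List.mem_map, Finset.mem_toList]
          exact ⟨p, hpS, rfl⟩
        · rw [List.prefix_iff_eq_take]
          apply List.ext_getElem
          · simp [word, hβl, hrN p hpS]
          · intro i h1 h2
            simp only [word, List.getElem_map, List.getElem_range, List.getElem_take]
            simp only [word, List.length_map, List.length_range] at h1
            rw [← hb i (by rw [hβl]; have := hrN p hpS; omega)]
            exact (hu i h1).symm
  · exact hA2 t b p j0 ha hj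

open Classical in
theorem key_ineq {W : ℕ → Fin 3} (hW : SF W) {N n : ℕ} {κ : ℕ → Fin 3} {c : Fin 3}
    {L : List Leaf} (hn : 32 ≤ n) (hnN : n ≤ N) (hκ : ∀ j < 8, κ j = W (N - 8 + j))
    (hL : KeyOK κ c L) (hcW : c ≠ W N)
    (hinv : ∀ p, 0 < p → p < n → W (N - p) = c → n ≤ p + arm W N p → 26 ≤ p)
    (hbad : Bad W N L) (loss : ℕ)
    (hvis : ∑ p ∈ (Finset.range n).filter (fun p => VisP W N c n p), mass L (Pre W N p) ≤ loss) :
    ((L.map (fun ℓ => ℓ.w)).sum : ℚ) ≤ loss + 1050 + InvSum W N := by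
  let Ex : Finset ℕ := (Finset.range (N + 1)).filter
    (fun p => LK W N κ c p ∧ 32 ≤ p + arm W N p ∧ arm W N p < 29)
  let I1 : Finset ℕ := (Finset.range (N + 1)).filter (fun p => Ev W N p ∧ p - arm W N p < 30)
  let I2 : Finset ℕ := (Finset.range (N + 1)).filter (fun p => Ev W N p ∧ ¬ p - arm W N p < 30)
  let Vs : Finset ℕ := (Finset.range n).filter (fun p => VisP W N c n p)
  let TBp : Leaf → Prop := fun ℓ => ∃ t b p j0, AdjT ℓ t ∧ TB W N (tail ℓ t b) p j0
  have hsum : ((L.map (fun ℓ => ℓ.w)).sum : ℚ) = msum L (fun ℓ => (ℓ.w : ℚ)) := by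
    unfold msum
    induction L with
    | nil => simp
    | cons a l ih => simp
  rw [hsum]
  have hpt : ∀ ℓ ∈ L, (ℓ.w : ℚ) ≤
      (∑ p ∈ Vs, if Pre W N p ℓ then (ℓ.w : ℚ) else 0) +
      ((if TBp ℓ then (ℓ.w : ℚ) else 0) +
      ((∑ p ∈ Ex, if Pre W N p ℓ then (ℓ.w : ℚ) else 0) +
      ((∑ p ∈ I1, if Pre W N p ℓ then (ℓ.w : ℚ) else 0) +
      (∑ p ∈ I2, if Pre W N p ℓ then (ℓ.w : ℚ) * (1 / 2 ^ ((p - arm W N p - 43) / 18)) else 0)))) := by
    intro ℓ hℓ
    have hw : (0 : ℚ) ≤ (ℓ.w : ℚ) := by positivity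
    have n1 : ∀ S : Finset ℕ, 0 ≤ ∑ p ∈ S, if Pre W N p ℓ then (ℓ.w : ℚ) else 0 := by
      intro S
      apply Finset.sum_nonneg
      intro p _
      split_ifs <;> simp
    have n2 : (0 : ℚ) ≤ if TBp ℓ then (ℓ.w : ℚ) else 0 := by split_ifs <;> simp
    have n3 : 0 ≤ ∑ p ∈ I2, if Pre W N p ℓ then (ℓ.w : ℚ) * (1 / 2 ^ ((p - arm W N p - 43) / 18)) else 0 := by
      apply Finset.sum_nonneg
      intro p _
      split_ifs
      · positivity
      · exact le_refl _
    have s1 : ∀ (S : Finset ℕ) (p : ℕ), p ∈ S → Pre W N p ℓ →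
        (ℓ.w : ℚ) ≤ ∑ p ∈ S, if Pre W N p ℓ then (ℓ.w : ℚ) else 0 := by
      intro S p hp hpre
      have := Finset.single_le_sum (f := fun p => if Pre W N p ℓ then (ℓ.w : ℚ) else 0)
        (s := S) (fun q _ => by split_ifs <;> simp) hp
      simp only [if_pos hpre] at this
      exact this
    rcases leaf_ineq hW hn hnN hκ hL hcW hinv hbad ℓ hℓ with
      ⟨p, hp1, hp2, hp3⟩ | h | ⟨p, hp1, hp2, hp3⟩ | ⟨p, hp1, hp2, hp3⟩ | h
    · have := s1 Vs p (by simp only [Vs, Finset.mem_filter]; exact ⟨hp1, hp2⟩) hp3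
      have := n1 Ex
      have := n1 I1
      linarith
    · have : (if TBp ℓ then (ℓ.w : ℚ) else 0) = ℓ.w := if_pos h
      have := n1 Ex
      have := n1 I1
      have := n1 Vs
      linarith
    · have := s1 Ex p (by simp only [Ex, Finset.mem_filter]; exact ⟨hp1, hp2⟩) hp3
      have := n1 Vs
      have := n1 I1
      linarith
    · have := s1 I1 p (by simp only [I1, Finset.mem_filter]; exact ⟨hp1, hp2⟩) hp3
      have := n1 Vs
      have := n1 Ex
      linarith
    · have e : ∑ p ∈ I2, (if Pre W N p ℓ then (ℓ.w : ℚ) * (1 / 2 ^ ((p - arm W N p - 43) / 18)) else 0)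
          = ℓ.w * ∑ p ∈ I2, (if Pre W N p ℓ then 1 / 2 ^ ((p - arm W N p - 43) / 18) else 0) := by
        rw [Finset.mul_sum]
        apply Finset.sum_congr rfl
        intro p _
        split_ifs <;> ring
      rw [e]
      have := n1 Vs
      have := n1 Ex
      have := n1 I1
      nlinarith
  refine (msum_le L _ _ hpt).trans ?_
  rw [msum_add, msum_add, msum_add, msum_add, msum_finset, msum_finset, msum_finset, msum_finset]
  simp_rw [msum_mass', msum_mass]
  -- bounds
  have b1 : ∑ p ∈ Vs, (mass L (Pre W N p) : ℚ) ≤ loss := by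
    have : ((∑ p ∈ Vs, mass L (Pre W N p) : ℕ) : ℚ) ≤ loss := by exact_mod_cast hvis
    push_cast at this
    exact this
  have b2 : (mass L TBp : ℚ) ≤ 300 := by
    by_cases hex : ∃ ℓ0 ∈ L, TBp ℓ0
    · obtain ⟨ℓ0, hℓ0, t0, b0, p0, j0, ha0, h0⟩ := hex
      have h1 : mass L TBp ≤ mass L (fun ℓ => ∀ j, 10 ≤ j → j < 32 → yb ℓ j = yb ℓ0 j) := by
        apply mass_mono
        intro ℓ hℓ htb j hj1 hj2
        obtain ⟨t, b, p, j1, ha, h⟩ := htb
        have := tb_agree (by omega) hκ (hL.ok ℓ hℓ) (hL.ok ℓ0 hℓ0) ha ha0 h h0 j hj1 hj2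
        rw [tail_eq_yb (hL.ok ℓ hℓ).ho2 t b hj2, tail_eq_yb (hL.ok ℓ0 hℓ0).ho2 t0 b0 hj2] at this
        exact this
      have h2 := hL.cls (yb ℓ0)
      exact_mod_cast h1.trans h2
    · have : mass L TBp = 0 := by
        unfold mass
        apply List.sum_eq_zero
        intro x hx
        rw [List.mem_map] at hx
        obtain ⟨ℓ, hℓ, rfl⟩ := hx
        rw [if_neg (fun h => hex ⟨ℓ, hℓ, h⟩)]
      rw [this]; norm_num
  have hmassPre : ∀ p, 0 < p → p ≤ N → mass L (Pre W N p) ≤ capN (min (p - arm W N p) 32) := by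
    intro p hp hpN
    have := arm_lt hW hp hpN
    exact hL.cap (min (p - arm W N p) 32) (by omega) (by omega) (fun j => W (N - p + j))
  have b3 : ∑ p ∈ Ex, (mass L (Pre W N p) : ℚ) ≤ 750 := by
    have hcard : Ex.card ≤ 6 := by
      apply exceptional (W := W) (N := N) (κ := κ) (c := c) (by omega) hκ Ex
      intro p hp
      simp only [Ex, Finset.mem_filter] at hp
      exact hp.2
    have h1 : ∀ p ∈ Ex, (mass L (Pre W N p) : ℚ) ≤ 125 := by
      intro p hp
      simp only [Ex, Finset.mem_filter] at hp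
      have h2 := hmassPre p hp.2.1.1 hp.2.1.2.1
      have h3 : capN (min (p - arm W N p) 32) = 125 := by
        have := hp.2.1.2.2.1
        have h4 : 30 ≤ min (p - arm W N p) 32 := by omega
        unfold capN
        rw [List.getD_eq_default]
        simp
        omega
      rw [h3] at h2
      exact_mod_cast h2
    calc ∑ p ∈ Ex, (mass L (Pre W N p) : ℚ) ≤ ∑ p ∈ Ex, (125 : ℚ) := Finset.sum_le_sum h1
      _ = Ex.card * 125 := by rw [Finset.sum_const, nsmul_eq_mul]
      _ ≤ 750 := by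
        have : (Ex.card : ℚ) ≤ 6 := by exact_mod_cast hcard
        linarith
  have b4 : ∑ p ∈ I1, (mass L (Pre W N p) : ℚ) ≤ ∑ p ∈ I1, wq (p - arm W N p) := by
    apply Finset.sum_le_sum
    intro p hp
    simp only [I1, Finset.mem_filter] at hp
    have h2 := hmassPre p hp.2.1.1 hp.2.1.2.1
    have h3 : min (p - arm W N p) 32 = p - arm W N p := by omega
    rw [h3] at h2
    unfold wq
    rw [if_pos hp.2.2]
    exact_mod_cast h2
  have b5 : ∑ p ∈ I2, (mass L (Pre W N p) : ℚ) * (1 / 2 ^ ((p - arm W N p - 43) / 18))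
      ≤ ∑ p ∈ I2, wq (p - arm W N p) := by
    apply Finset.sum_le_sum
    intro p hp
    simp only [I2, Finset.mem_filter] at hp
    have h2 := hmassPre p hp.2.1.1 hp.2.1.2.1
    have h3 : capN (min (p - arm W N p) 32) = 125 := by
      have h4 : 30 ≤ min (p - arm W N p) 32 := by omega
      unfold capN
      rw [List.getD_eq_default]
      simp
      omega
    rw [h3] at h2
    unfold wq
    rw [if_neg hp.2.2]
    have h5 : (mass L (Pre W N p) : ℚ) ≤ 125 := by exact_mod_cast h2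
    have h6 : (0 : ℚ) < 1 / 2 ^ ((p - arm W N p - 43) / 18) := by positivity
    calc (mass L (Pre W N p) : ℚ) * (1 / 2 ^ ((p - arm W N p - 43) / 18))
        ≤ 125 * (1 / 2 ^ ((p - arm W N p - 43) / 18)) := by nlinarith
      _ = 125 / 2 ^ ((p - arm W N p - 43) / 18) := by ring
  have b6 : ∑ p ∈ I1, wq (p - arm W N p) + ∑ p ∈ I2, wq (p - arm W N p) = InvSum W N := by
    unfold InvSum
    rw [← Finset.sum_filter]
    rw [← Finset.sum_filter_add_sum_filter_not ((Finset.range (N + 1)).filter (fun p => Ev W N p))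
      (fun p => p - arm W N p < 30)]
    rw [Finset.filter_filter, Finset.filter_filter]
  linarith

end Pool.Agent.SqfBridge
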