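import Pool.Agent.SqfBridge.Kern
import Pool.Agent.SqfBridge.Digits
import Pool.Agent.SqfBridge.KeyIneq

set_option autoImplicit false

namespace Pool.Agent.SqfBridge

@[simp] theorem bt_true {α : Type} (a b : α) : bt true a b = a := rfl
@[simp] theorem bt_false {α : Type} (a b : α) : bt false a b = b := rfl

theorem bt_eq {α : Type} (c : Bool) (a b : α) : bt c a b = if c = true then a else b := by
  cases c <;> rfl

theorem force_eq {α : Type} (x : ℕ) (k : ℕ → α) : force x k = k x := by
  cases x <;> rfl

@[simp] theorem sel3_0 {α : Type} (a b c : α) : sel3 0 a b c = a := rfl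
@[simp] theorem sel3_1 {α : Type} (a b c : α) : sel3 1 a b c = b := rfl
@[simp] theorem sel3_2 {α : Type} (a b c : α) (n : ℕ) : sel3 (n + 2) a b c = c := rfl

/-! potentials -/

/-- value of the potential trie along a bit stream. -/
noncomputable def PT.ev (A : PT) : (ℕ → Bool) → ℕ :=
  PT.rec (motive := fun _ => (ℕ → Bool) → ℕ) (fun v _ => v) (fun _ ih s => ih (fun k => s (k + 1)))
    (fun _ _ iha ihb s => if s 0 = true then ihb (fun k => s (k + 1)) else iha (fun k => s (k + 1))) A

theorem PT.ev_step (A : PT) (s : ℕ → Bool) :
    A.ev s = (if s 0 = true then A.step1 else A.step0).ev (fun k => s (k + 1)) := by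
  cases A with
  | L v => split_ifs <;> rfl
  | O t => split_ifs <;> rfl
  | N a b =>
    show (if s 0 = true then b.ev (fun k => s (k + 1)) else a.ev (fun k => s (k + 1))) = _
    split_ifs <;> rfl

theorem PT.ev_bdd (A : PT) : ∃ B : ℕ, ∀ s, A.ev s ≤ B := by
  induction A with
  | L v => exact ⟨v, fun s => le_refl _⟩
  | O t ih =>
    obtain ⟨B, hB⟩ := ih
    exact ⟨B, fun s => hB _⟩
  | N a b iha ihb =>
    obtain ⟨B1, h1⟩ := iha
    obtain ⟨B2, h2⟩ := ihb
    refine ⟨max B1 B2, fun s => ?_⟩
    show (if s 0 = true then b.ev (fun k => s (k + 1)) else a.ev (fun k => s (k + 1))) ≤ _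
    split_ifs
    · exact (h2 _).trans (le_max_right _ _)
    · exact (h1 _).trans (le_max_left _ _)

/-- difference bit stream at `N`. -/
def bitS (W : ℕ → Fin 3) (N : ℕ) (k : ℕ) : Bool := decide (W (N - 1 - k) - W (N - 2 - k) = 2)

/-- relative letters. -/
def gv (W : ℕ → Fin 3) (k : ℕ) : ℕ := (W k).val

theorem gv_lt (W : ℕ → Fin 3) (k : ℕ) : gv W k < 4 := by
  unfold gv; omega

theorem gv_lt3 (W : ℕ → Fin 3) (k : ℕ) : gv W k < 3 := by
  unfold gv; omega

theorem sqp_zero (X q : ℕ) : sqp X 0 q = false := rfl

theorem sqp_succ (X f q : ℕ) : sqp X (f + 1) q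
    = bt (Nat.beq (X % q) (X / q % q)) true (sqp X f (4 * q)) := rfl

theorem sqp_sound (X f p0 : ℕ) (h : sqp X f (4 ^ p0) = true) :
    ∃ p, p0 ≤ p ∧ p < p0 + f ∧ X % 4 ^ p = X / 4 ^ p % 4 ^ p := by
  induction f generalizing p0 with
  | zero => rw [sqp_zero] at h; exact absurd h (by decide)
  | succ f ih =>
    rw [sqp_succ, bt_eq] at h
    split_ifs at h with h1
    · exact ⟨p0, le_refl _, by omega, Nat.eq_of_beq_eq_true h1⟩
    · have e : 4 * 4 ^ p0 = 4 ^ (p0 + 1) := by rw [pow_succ]; ring
      rw [e] at h
      obtain ⟨p, h2, h3, h4⟩ := ih (p0 + 1) h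
      exact ⟨p, by omega, by omega, h4⟩

theorem goN_zero (K : KT) (d n X Y pw f : ℕ) (A B : PT) : goN K d 0 n X Y pw f A B = false := rfl

theorem goN_succ (K : KT) (d fuel n X Y pw f : ℕ) (A B : PT) :
    goN K d (fuel + 1) n X Y pw f A B =
      bt (leafOr A (fun v1 => leafOr B (fun v2 =>
          bt (Nat.ble (v1 + 1750) v2) true
          (bt (Nat.ble 32 n) (testN K n d Y (v1 + 1750 - v2)) false))))
        true
        (bt (bt (sqp (4 * X + (f + 2) % 3) ((n + 2) / 2) 4) true
              (goN K d fuel (n + 1) (4 * X + (f + 2) % 3) (Y + (f + 2) % 3 * pw) (4 * pw) ((f + 2) % 3)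
                A.step0 B.step0))
          (bt (sqp (4 * X + (f + 1) % 3) ((n + 2) / 2) 4) true
              (goN K d fuel (n + 1) (4 * X + (f + 1) % 3) (Y + (f + 1) % 3 * pw) (4 * pw) ((f + 1) % 3)
                A.step1 B.step1))
          false) := by
  have h : goN K d (fuel + 1) n X Y pw f A B =
      bt (leafOr A (fun v1 => leafOr B (fun v2 =>
          bt (Nat.ble (v1 + 1750) v2) true
          (bt (Nat.ble 32 n) (testN K n d Y (v1 + 1750 - v2)) false))))
        true
        (bt (force ((f + 2) % 3) (fun a =>
              force (4 * X + a) (fun X' =>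
              bt (sqp X' ((n + 2) / 2) 4) true
              (goN K d fuel (n + 1) X' (Y + a * pw) (4 * pw) a A.step0 B.step0))))
          (force ((f + 1) % 3) (fun a =>
              force (4 * X + a) (fun X' =>
              bt (sqp X' ((n + 2) / 2) 4) true
              (goN K d fuel (n + 1) X' (Y + a * pw) (4 * pw) a A.step1 B.step1))))
          false) := rfl
  rw [h]
  simp only [force_eq]

theorem leafOr_true {A : PT} {k : ℕ → Bool} (h : leafOr A k = true) : ∃ v, A = .L v ∧ k v = true := by
  cases A with
  | L v => exact ⟨v, rfl, h⟩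
  | O t =>
    have e : leafOr (.O t) k = false := rfl
    rw [e] at h; exact absurd h (by decide)
  | N a b =>
    have e : leafOr (.N a b) k = false := rfl
    rw [e] at h; exact absurd h (by decide)

/-- soundness of the depth-first search. -/
theorem goN_sound {W : ℕ → Fin 3} (hW : SF W) (K : KT) (N : ℕ) (φ0 φ1 : ℕ) :
    ∀ (fuel n : ℕ) (A B : PT), 1 ≤ n → n + fuel ≤ N →
      A.ev (fun k => bitS W N (k + (n - 1))) = φ0 → B.ev (fun k => bitS W N (k + (n - 1))) = φ1 →
      goN K (gv W N) fuel n (code (fun i => gv W (N - n + i)) (n + 1))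
        (code (fun k => gv W (N - 1 - k)) n) (4 ^ n) (gv W (N - n)) A B = true →
      φ0 + 1750 ≤ φ1 ∨ ∃ n', 32 ≤ n' ∧ n' ≤ N ∧
        testN K n' (gv W N) (code (fun k => gv W (N - 1 - k)) n') (φ0 + 1750 - φ1) = true := by
  intro fuel
  induction fuel with
  | zero => intro n A B _ _ _ _ h; rw [goN_zero] at h; exact absurd h (by decide)
  | succ fuel ih =>
    intro n A B hn hN hA hB h
    rw [goN_succ, bt_eq] at h
    split_ifs at h with h1
    · obtain ⟨v1, rfl, h2⟩ := leafOr_true h1
      obtain ⟨v2, rfl, h3⟩ := leafOr_true h2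
      have e1 : φ0 = v1 := hA.symm
      have e2 : φ1 = v2 := hB.symm
      subst e1
      subst e2
      rw [bt_eq] at h3
      split_ifs at h3 with h4
      · left; exact Nat.le_of_ble_eq_true h4
      · rw [bt_eq] at h3
        split_ifs at h3 with h5
        right
        exact ⟨n, Nat.le_of_ble_eq_true h5, by omega, h3⟩
    · -- extend to the left by the actual letter
      rw [bt_eq] at h
      split_ifs at h with h2
      -- h2 : first branch true, h : second branch true
      have hadj : W (N - n) ≠ W (N - (n + 1)) := by
        intro he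
        refine hW (N - (n + 1)) 1 (by norm_num) (fun j hj => ?_)
        have : j = 0 := by omega
        subst this
        have e : N - (n + 1) + 1 + 0 = N - n := by omega
        rw [e, Nat.add_zero]
        exact he.symm
      have hbit : bitS W N (n - 1) = decide (W (N - n) - W (N - (n + 1)) = 2) := by
        unfold bitS
        have e1 : N - 1 - (n - 1) = N - n := by omega
        have e2 : N - 2 - (n - 1) = N - (n + 1) := by omega
        rw [e1, e2]
      have hX : ∀ a, a = gv W (N - (n + 1)) →
          4 * code (fun i => gv W (N - n + i)) (n + 1) + a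
            = code (fun i => gv W (N - (n + 1) + i)) (n + 1 + 1) := by
        intro a ha
        rw [code_cons (fun i => gv W (N - (n + 1) + i)) (n + 1)]
        have : code (fun i => gv W (N - (n + 1) + (i + 1))) (n + 1)
            = code (fun i => gv W (N - n + i)) (n + 1) := by
          apply code_congr
          intro i _
          show gv W (N - (n + 1) + (i + 1)) = gv W (N - n + i)
          congr 1
          omega
        rw [this, ha]
        simp only [Nat.add_zero]
        ring
      have hY : ∀ a, a = gv W (N - (n + 1)) →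
          code (fun k => gv W (N - 1 - k)) n + a * 4 ^ n
            = code (fun k => gv W (N - 1 - k)) (n + 1) := by
        intro a ha
        rw [code, ha]
        congr 3
        omega
      have hnosq : sqp (code (fun i => gv W (N - (n + 1) + i)) (n + 1 + 1)) ((n + 2) / 2) 4
          = false := by
        by_contra hc
        rw [Bool.not_eq_false] at hc
        have e4 : (4 : ℕ) = 4 ^ 1 := by norm_num
        obtain ⟨p, hp1, hp2, hp3⟩ := sqp_sound (code (fun i => gv W (N - (n + 1) + i)) (n + 1 + 1))
          ((n + 2) / 2) 1 (by rw [← e4]; exact hc)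
        have hsq := code_square (g := fun i => gv W (N - (n + 1) + i)) (fun i => gv_lt W _)
          (n := n + 1 + 1) (p := p) (by omega) hp3
        refine hW (N - (n + 1)) p (by omega) (fun j hj => ?_)
        have := hsq j hj
        simp only [gv] at this
        have := Fin.ext this
        rw [this]
        congr 1
        omega
      have hA' := hA
      have hB' := hB
      rw [PT.ev_step] at hA' hB'
      simp only [Nat.zero_add] at hA' hB'
      have hshift : (fun k => bitS W N (k + 1 + (n - 1))) = (fun k => bitS W N (k + (n + 1 - 1))) := by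
        funext k
        congr 1
        omega
      rw [hshift] at hA' hB'
      have hpow : 4 * 4 ^ n = 4 ^ (n + 1) := by rw [pow_succ]; ring
      by_cases hb : W (N - n) - W (N - (n + 1)) = 2
      · -- second branch
        have ha : (gv W (N - n) + 1) % 3 = gv W (N - (n + 1)) := by
          unfold gv
          revert hb hadj
          generalize W (N - n) = x
          generalize W (N - (n + 1)) = y
          revert x y
          decide
        rw [hbit, if_pos (by simp [hb])] at hA' hB'
        rw [hX _ ha, hY _ ha, hnosq, bt_false, hpow, ha] at h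
        exact ih (n + 1) A.step1 B.step1 (by omega) (by omega) hA' hB' h
      · have ha : (gv W (N - n) + 2) % 3 = gv W (N - (n + 1)) := by
          unfold gv
          revert hb hadj
          generalize W (N - n) = x
          generalize W (N - (n + 1)) = y
          revert x y
          decide
        rw [hbit, if_neg (by simp [hb])] at hA' hB'
        rw [hX _ ha, hY _ ha, hnosq, bt_false, hpow, ha] at h2
        exact ih (n + 1) A.step0 B.step0 (by omega) (by omega) hA' hB' h2

end Pool.Agent.SqfBridge
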