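import Pool.Agent.SqfBridge.LeafSem

set_option autoImplicit false

namespace Pool.Agent.SqfBridge

/-- mass of the pairs whose first `m` digits agree with those of `V`. -/
def mP (L : List (ℕ × ℕ)) (V m : ℕ) : ℕ :=
  (L.map (fun a => if ∀ j < m, a.1 / 4 ^ j % 4 = V / 4 ^ j % 4 then a.2 else 0)).sum

theorem sumP_cons (a : ℕ × ℕ) (L : List (ℕ × ℕ)) : sumP (a :: L) = a.2 + sumP L := rfl

theorem filt_cons (d : ℕ) (a : ℕ × ℕ) (L : List (ℕ × ℕ)) :
    filt d (a :: L) = bt (Nat.beq (a.1 % 4) d) ((a.1 / 4, a.2) :: filt d L) (filt d L) := rfl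

theorem mP_zero (L : List (ℕ × ℕ)) (V : ℕ) : mP L V 0 = sumP L := by
  unfold mP
  induction L with
  | nil => rfl
  | cons a l ih =>
    rw [sumP_cons, List.map_cons, List.sum_cons, ih]
    simp

theorem mP_succ (L : List (ℕ × ℕ)) (V m : ℕ) :
    mP L V (m + 1) = mP (filt (V % 4) L) (V / 4) m := by
  unfold mP
  induction L with
  | nil => rfl
  | cons a l ih =>
    rw [filt_cons, bt_eq, List.map_cons, List.sum_cons, ih]
    by_cases h : a.1 % 4 = V % 4
    · rw [if_pos (show Nat.beq (a.1 % 4) (V % 4) = true by rw [h]; exact Nat.beq_refl _),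
        List.map_cons, List.sum_cons]
      congr 1
      have : (∀ j < m + 1, a.1 / 4 ^ j % 4 = V / 4 ^ j % 4) ↔
          (∀ j < m, a.1 / 4 / 4 ^ j % 4 = V / 4 / 4 ^ j % 4) := by
        constructor
        · intro h2 j hj
          rw [← dig_succ, ← dig_succ]
          exact h2 (j + 1) (by omega)
        · intro h2 j hj
          cases j with
          | zero => simpa using h
          | succ j =>
            rw [dig_succ, dig_succ]
            exact h2 j (by omega)
      by_cases h3 : ∀ j < m, a.1 / 4 / 4 ^ j % 4 = V / 4 / 4 ^ j % 4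
      · rw [if_pos (this.mpr h3), if_pos h3]
      · rw [if_neg (fun hc => h3 (this.mp hc)), if_neg h3]
    · rw [if_neg (show ¬ Nat.beq (a.1 % 4) (V % 4) = true from fun hc =>
        h (Nat.eq_of_beq_eq_true hc)), if_neg, Nat.zero_add]
      intro hc
      exact h (by simpa using hc 0 (by omega))

theorem chkT_nil (T : Tri) (L : List (ℕ × ℕ)) :
    chkT [] T L = bt T.flat (Nat.ble (sumP L) T.mass) false := rfl

theorem chkT_cons (cp : ℕ) (caps : List ℕ) (T : Tri) (L : List (ℕ × ℕ)) :
    chkT (cp :: caps) T L = bt (isNil L) true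
      (bt (Nat.ble (sumP L) cp) (bt (Nat.ble (sumP L) T.mass)
        (bt (chkT caps (T.child 0) (filt 0 L))
        (bt (chkT caps (T.child 1) (filt 1 L))
          (chkT caps (T.child 2) (filt 2 L)) false) false) false) false) := rfl

theorem isNil_true {L : List (ℕ × ℕ)} (h : isNil L = true) : L = [] := by
  cases L with
  | nil => rfl
  | cons a l =>
    have e : isNil (a :: l) = false := rfl
    rw [e] at h
    exact absurd h (by decide)

theorem mP_nil (V m : ℕ) : mP [] V m = 0 := rfl

theorem filt_nil (d : ℕ) : filt d [] = [] := rfl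

theorem walk_zero (T : Tri) (V : ℕ) : T.walk V 0 = T.mass := by
  cases T <;> rfl

theorem walk_succ (T : Tri) (V k d : ℕ) (hd : V % 4 = d) :
    T.walk V (k + 1) = (T.child d).walk (V / 4) k := by
  cases T with
  | nil => rfl
  | stop m => rfl
  | node m a b c =>
    have h1 : (Tri.node m a b c).walk V (k + 1)
      = sel3 (V % 4) (a.walk (V / 4) k) (b.walk (V / 4) k) (c.walk (V / 4) k) := rfl
    have h2 : (Tri.node m a b c).child d = sel3 d a b c := rfl
    rw [h1, h2, hd]
    have hcase : d = 0 ∨ d = 1 ∨ ∃ e, d = e + 2 := by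
      rcases d with _ | _ | e
      · left; rfl
      · right; left; rfl
      · right; right; exact ⟨e, rfl⟩
    rcases hcase with h | h | ⟨e, h⟩
    · rw [h, sel3_0, sel3_0]
    · rw [h, sel3_1, sel3_1]
    · rw [h, sel3_2, sel3_2]

theorem walk_flat (T : Tri) (V k : ℕ) (h : T.flat = true) : T.walk V k = T.mass := by
  cases T with
  | nil => rfl
  | stop m => rfl
  | node m a b c =>
    have e : (Tri.node m a b c).flat = false := rfl
    rw [e] at h
    exact absurd h (by decide)

theorem chkT_walk (caps : List ℕ) : ∀ (T : Tri) (L : List (ℕ × ℕ)), chkT caps T L = true →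
    ∀ V k, (∀ j < min k caps.length, V / 4 ^ j % 4 < 3) →
      mP L V (min k caps.length) ≤ T.walk V k := by
  induction caps with
  | nil =>
    intro T L h V k _
    rw [chkT_nil] at h
    obtain ⟨h1, h2⟩ := bt_and h
    rw [List.length_nil, Nat.min_zero, mP_zero, walk_flat T V k h1]
    exact Nat.le_of_ble_eq_true h2
  | cons cp caps ih =>
    intro T L h V k hV
    rw [chkT_cons] at h
    rcases bt_or h with h0 | h
    · rw [isNil_true h0, mP_nil]
      exact Nat.zero_le _
    · obtain ⟨h1, h⟩ := bt_and h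
      obtain ⟨h2, h⟩ := bt_and h
      obtain ⟨h3, h⟩ := bt_and h
      obtain ⟨h4, h5⟩ := bt_and h
      cases k with
      | zero =>
        rw [Nat.zero_min, mP_zero, walk_zero]
        exact Nat.le_of_ble_eq_true h2
      | succ k =>
        have e : min (k + 1) (cp :: caps).length = min k caps.length + 1 := by
          simp only [List.length_cons]; omega
        rw [e] at hV ⊢
        rw [mP_succ]
        have h0 := hV 0 (by omega)
        rw [pow_zero, Nat.div_one] at h0
        rw [walk_succ T V k (V % 4) rfl]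
        have hV' : ∀ j < min k caps.length, V / 4 / 4 ^ j % 4 < 3 := by
          intro j hj
          rw [← dig_succ]
          exact hV (j + 1) (by omega)
        have hcase : V % 4 = 0 ∨ V % 4 = 1 ∨ V % 4 = 2 := by omega
        rcases hcase with h6 | h6 | h6
        · rw [h6]; exact ih _ _ h3 _ _ hV'
        · rw [h6]; exact ih _ _ h4 _ _ hV'
        · rw [h6]; exact ih _ _ h5 _ _ hV'

theorem chkT_cap (caps : List ℕ) : ∀ (T : Tri) (L : List (ℕ × ℕ)), chkT caps T L = true →
    ∀ V k, k < caps.length → (∀ j < k, V / 4 ^ j % 4 < 3) → mP L V k ≤ caps.getD k 0 := by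
  induction caps with
  | nil => intro T L _ V k hk; simp at hk
  | cons cp caps ih =>
    intro T L h V k hk hV
    rw [chkT_cons] at h
    rcases bt_or h with h0 | h
    · rw [isNil_true h0, mP_nil]
      exact Nat.zero_le _
    · obtain ⟨h1, h⟩ := bt_and h
      obtain ⟨h2, h⟩ := bt_and h
      obtain ⟨h3, h⟩ := bt_and h
      obtain ⟨h4, h5⟩ := bt_and h
      cases k with
      | zero =>
        rw [mP_zero, List.getD_cons_zero]
        exact Nat.le_of_ble_eq_true h1
      | succ k =>
        rw [mP_succ, List.getD_cons_succ]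
        have h0 := hV 0 (by omega)
        rw [pow_zero, Nat.div_one] at h0
        have hV' : ∀ j < k, V / 4 / 4 ^ j % 4 < 3 := by
          intro j hj
          rw [← dig_succ]
          exact hV (j + 1) (by omega)
        have hk' : k < caps.length := by simp only [List.length_cons] at hk; omega
        have hcase : V % 4 = 0 ∨ V % 4 = 1 ∨ V % 4 = 2 := by omega
        rcases hcase with h6 | h6 | h6
        · rw [h6]; exact ih _ _ h3 _ _ hk' hV'
        · rw [h6]; exact ih _ _ h4 _ _ hk' hV'
        · rw [h6]; exact ih _ _ h5 _ _ hk' hV'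

/-! leaves as pairs -/

theorem pairsOf_cons (a : Leaf) (L : List Leaf) :
    pairsOf (a :: L) = (ycode a / 4, a.w) :: pairsOf L := rfl

theorem clsOf_cons (a : Leaf) (L : List Leaf) :
    clsOf (a :: L) = (ycode a / 1048576 % 17592186044416, a.w) :: clsOf L := by
  have h : clsOf (a :: L) = force (ycode a / 1048576 % 17592186044416)
      (fun z => List.cons (z, a.w) (clsOf L)) := rfl
  rw [h, force_eq]

theorem sumP_pairs (L : List Leaf) : sumP (pairsOf L) = (L.map (fun ℓ => ℓ.w)).sum := by
  induction L with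
  | nil => rfl
  | cons a l ih => rw [pairsOf_cons, sumP_cons, ih, List.map_cons, List.sum_cons]

/-- the code of a leaf describes the fixed letters -/
def CodeOK (ℓ : Leaf) : Prop := ∀ k < 32, ycode ℓ / 4 ^ k % 4 = (yb ℓ k).val

theorem codeOK_of {ℓ : Leaf} (ho : ℓ.o ≤ 23) (h : ∀ t b, ycode ℓ = code (tv ℓ t b) (55 - ℓ.o)) :
    CodeOK ℓ := by
  intro k hk
  rw [h (fun _ => 0) (fun _ => false), code_dig (tv_lt _ _ _) (by omega)]
  rfl

open Classical in
theorem mass_eq_mP (L : List Leaf) (hL : ∀ ℓ ∈ L, CodeOK ℓ) (V m : ℕ) (hm : m ≤ 31) :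
    mass L (fun ℓ => ∀ j < m, (yb ℓ (j + 1)).val = V / 4 ^ j % 4) = mP (pairsOf L) V m := by
  unfold mass mP
  induction L with
  | nil => rfl
  | cons a l ih =>
    rw [pairsOf_cons, List.map_cons, List.sum_cons, List.map_cons, List.sum_cons,
      ih (fun ℓ hℓ => hL ℓ (List.mem_cons_of_mem _ hℓ))]
    congr 1
    have ha := hL a (by simp)
    have hiff : (∀ j < m, (yb a (j + 1)).val = V / 4 ^ j % 4) ↔
        (∀ j < m, ycode a / 4 / 4 ^ j % 4 = V / 4 ^ j % 4) := by
      constructor
      · intro h j hj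
        rw [← dig_succ, ha (j + 1) (by omega)]
        exact h j hj
      · intro h j hj
        rw [← ha (j + 1) (by omega), dig_succ]
        exact h j hj
    by_cases h : ∀ j < m, (yb a (j + 1)).val = V / 4 ^ j % 4
    · rw [if_pos h, if_pos (hiff.mp h)]
    · rw [if_neg h, if_neg (fun hc => h (hiff.mpr hc))]

theorem allChk_cons (c kc : ℕ) (a : Leaf) (L : List Leaf) :
    allChk c kc (a :: L) = bt (leafChk c kc a) (allChk c kc L) false := rfl

theorem allChk_mem {c kc : ℕ} {L : List Leaf} (h : allChk c kc L = true) :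
    ∀ ℓ ∈ L, leafChk c kc ℓ = true := by
  induction L with
  | nil => intro ℓ hℓ; simp at hℓ
  | cons a l ih =>
    intro ℓ hℓ
    rw [allChk_cons] at h
    obtain ⟨h1, h2⟩ := bt_and h
    rcases List.mem_cons.mp hℓ with h3 | h3
    · rw [h3]; exact h1
    · exact ih h2 ℓ h3

theorem sumC_cons (z : ℕ) (a : ℕ × ℕ) (L : List (ℕ × ℕ)) :
    sumC z (a :: L) = bt (Nat.beq a.1 z) (a.2 + sumC z L) (sumC z L) := rfl

theorem clsChk_cons (M : List (ℕ × ℕ)) (a : ℕ × ℕ) (L : List (ℕ × ℕ)) :
    clsChk M (a :: L) = bt (Nat.ble (sumC a.1 M) 300) (clsChk M L) false := rfl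

theorem clsChk_mem {M L : List (ℕ × ℕ)} (h : clsChk M L = true) :
    ∀ a ∈ L, sumC a.1 M ≤ 300 := by
  induction L with
  | nil => intro a ha; simp at ha
  | cons b l ih =>
    intro a ha
    rw [clsChk_cons] at h
    obtain ⟨h1, h2⟩ := bt_and h
    rcases List.mem_cons.mp ha with h3 | h3
    · rw [h3]; exact Nat.le_of_ble_eq_true h1
    · exact ih h2 a h3

/-- class code -/
noncomputable def zc (ℓ : Leaf) : ℕ := ycode ℓ / 1048576 % 17592186044416

theorem clsOf_mem {L : List Leaf} {ℓ : Leaf} (h : ℓ ∈ L) : (zc ℓ, ℓ.w) ∈ clsOf L := by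
  induction L with
  | nil => simp at h
  | cons a l ih =>
    rw [clsOf_cons]
    rcases List.mem_cons.mp h with h3 | h3
    · rw [h3]; exact List.mem_cons_self
    · exact List.mem_cons_of_mem _ (ih h3)

open Classical in
theorem mass_le_sumC (L : List Leaf) (z : ℕ) (P : Leaf → Prop) (h : ∀ ℓ ∈ L, P ℓ → zc ℓ = z) :
    mass L P ≤ sumC z (clsOf L) := by
  unfold mass
  induction L with
  | nil => simp
  | cons a l ih =>
    rw [clsOf_cons, sumC_cons, bt_eq, List.map_cons, List.sum_cons]
    have ih' := ih (fun ℓ hℓ => h ℓ (List.mem_cons_of_mem _ hℓ))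
    by_cases hP : P a
    · have hz := h a (by simp) hP
      rw [if_pos hP, if_pos (show Nat.beq (ycode a / 1048576 % 17592186044416) z = true by
        have : ycode a / 1048576 % 17592186044416 = z := hz
        rw [this]; exact Nat.beq_refl _)]
      exact Nat.add_le_add_left ih' _
    · rw [if_neg hP]
      split_ifs
      · show 0 + _ ≤ a.w + _
        omega
      · omega

theorem capL_eq : ∀ k : Fin 31, capL.getD k.val 0 = capN (k.val + 1) := by
  decide

theorem keyChk_eq (P g : ℕ) (T : Tri) (L : List Leaf) : keyChk P g T L =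
  bt (Nat.ble g 99999)
  (bt (allChk (3 - P % 4) (kcode P) L)
  (bt (chkT capL T (pairsOf L))
  (bt (clsChk (clsOf L) (clsOf L))
  (bt (Nat.ble (g + 1050) (sumP (pairsOf L))) true false) false) false) false) false := rfl

open Classical in
theorem keyChk_sound {P g : ℕ} {T : Tri} {L : List Leaf}
    (hkc : kcode P = code (fun j => (kapF P j).val) 8) (hc : (cF P).val = 3 - P % 4)
    (h : keyChk P g T L = true) : KeyGood ⟨8, P, g, T⟩ := by
  rw [keyChk_eq] at h
  obtain ⟨h1, h⟩ := bt_and h
  obtain ⟨h2, h⟩ := bt_and h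
  obtain ⟨h3, h⟩ := bt_and h
  obtain ⟨h4, h⟩ := bt_and h
  obtain ⟨h5, _⟩ := bt_and h
  have hleaf : ∀ ℓ ∈ L, LeafOK (kapF P) (cF P) ℓ ∧ ∀ t b, ycode ℓ = code (tv ℓ t b) (55 - ℓ.o) :=
    fun ℓ hℓ => leafChk_sound hkc hc (allChk_mem h2 ℓ hℓ)
  have hcode : ∀ ℓ ∈ L, CodeOK ℓ := fun ℓ hℓ => codeOK_of (hleaf ℓ hℓ).1.ho2 (hleaf ℓ hℓ).2
  have hlen : capL.length = 31 := rfl
  refine ⟨rfl, ?_, L, ⟨fun ℓ hℓ => (hleaf ℓ hℓ).1, ?_, ?_⟩, ?_, ?_⟩
  · have := Nat.le_of_ble_eq_true h1
    show g < 100000
    omega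
  · -- caps
    have hcap31 : ∀ k, 1 ≤ k → k ≤ 31 → ∀ v : ℕ → Fin 3,
        mass L (fun ℓ => ∀ j < k, yb ℓ j = v j) ≤ capN k := by
      intro k hk1 hk2 v
      have hdig : ∀ j < 31, code (fun j => (v (j + 1)).val) 31 / 4 ^ j % 4 = (v (j + 1)).val := by
        intro j hj
        exact code_dig (g := fun j => (v (j + 1)).val) (fun i => by omega) hj
      have e1 : mass L (fun ℓ => ∀ j < k, yb ℓ j = v j) ≤
          mass L (fun ℓ => ∀ j < k - 1, (yb ℓ (j + 1)).val
            = code (fun j => (v (j + 1)).val) 31 / 4 ^ j % 4) := by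
        apply mass_mono
        intro ℓ _ hl j hj
        rw [hl (j + 1) (by omega), hdig j (by omega)]
      refine e1.trans ?_
      rw [mass_eq_mP L hcode _ _ (by omega)]
      have e2 := chkT_cap capL T (pairsOf L) h3 (code (fun j => (v (j + 1)).val) 31) (k - 1)
        (by rw [hlen]; omega) (by
          intro j hj
          rw [hdig j (by omega)]
          exact (v (j + 1)).isLt)
      refine e2.trans ?_
      have e3 := capL_eq ⟨k - 1, by omega⟩
      have e4 : k - 1 + 1 = k := by omega
      simp only [e4] at e3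
      rw [e3]
    intro k hk1 hk2 v
    rcases Nat.lt_or_ge k 32 with hk | hk
    · exact hcap31 k hk1 (by omega) v
    · have hk32 : k = 32 := by omega
      subst hk32
      have e1 : mass L (fun ℓ => ∀ j < 32, yb ℓ j = v j) ≤ mass L (fun ℓ => ∀ j < 31, yb ℓ j = v j) :=
        mass_mono _ _ _ (fun ℓ _ hl j hj => hl j (by omega))
      have e2 := hcap31 31 (by norm_num) (by norm_num) v
      have e3 : capN 31 = capN 32 := by decide
      rw [← e3]
      exact e1.trans e2
  · -- classes
    intro v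
    by_cases hex : ∃ ℓ0 ∈ L, ∀ j, 10 ≤ j → j < 32 → yb ℓ0 j = v j
    · obtain ⟨ℓ0, hℓ0, h0⟩ := hex
      have hz : ∀ ℓ ∈ L, (∀ j, 10 ≤ j → j < 32 → yb ℓ j = v j) → zc ℓ = zc ℓ0 := by
        intro ℓ hℓ hl
        unfold zc
        have e1 : (1048576 : ℕ) = 4 ^ 10 := by norm_num
        have e2 : (17592186044416 : ℕ) = 4 ^ 22 := by norm_num
        have ho := (hleaf ℓ hℓ).1.ho2
        have ho0 := (hleaf ℓ0 hℓ0).1.ho2
        rw [e1, e2, (hleaf ℓ hℓ).2 (fun _ => 0) (fun _ => false),
          (hleaf ℓ0 hℓ0).2 (fun _ => 0) (fun _ => false),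
          code_window (tv_lt _ _ _) (by omega), code_window (tv_lt _ _ _) (by omega)]
        apply code_congr
        intro j hj
        show (yb ℓ (10 + j)).val = (yb ℓ0 (10 + j)).val
        rw [hl _ (by omega) (by omega), h0 _ (by omega) (by omega)]
      exact (mass_le_sumC L (zc ℓ0) _ hz).trans (clsChk_mem h4 _ (clsOf_mem hℓ0))
    · have : mass L (fun ℓ => ∀ j, 10 ≤ j → j < 32 → yb ℓ j = v j) = 0 := by
        unfold mass
        apply List.sum_eq_zero
        intro x hx
        rw [List.mem_map] at hx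
        obtain ⟨ℓ, hℓ, rfl⟩ := hx
        rw [if_neg (fun hc => hex ⟨ℓ, hℓ, hc⟩)]
      rw [this]
      exact Nat.zero_le _
  · -- walks
    intro V k
    by_cases hV : ∀ j < min k 31, V / 4 ^ j % 4 < 3
    · have e1 := chkT_walk capL T (pairsOf L) h3 V k (by rw [hlen]; exact hV)
      rw [hlen] at e1
      rw [mass_eq_mP L hcode _ _ (by omega)]
      exact e1
    · push Not at hV
      obtain ⟨j, hj1, hj2⟩ := hV
      have : mass L (fun ℓ => ∀ j < min k 31, (yb ℓ (j + 1)).val = V / 4 ^ j % 4) = 0 := by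
        unfold mass
        apply List.sum_eq_zero
        intro x hx
        rw [List.mem_map] at hx
        obtain ⟨ℓ, hℓ, rfl⟩ := hx
        rw [if_neg]
        intro hc
        have h6 := hc j hj1
        have h7 := (yb ℓ (j + 1)).isLt
        omega
      rw [this]
      exact Nat.zero_le _
  · have := Nat.le_of_ble_eq_true h5
    rw [sumP_pairs] at this
    exact this

end Pool.Agent.SqfBridge
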