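import Pool.Agent.SqfBridge.Subst

set_option autoImplicit false

namespace Pool.Agent.SqfBridge

/-- factors of squarefree words are squarefree. -/
theorem Sqf.mid {a l b : List (Fin 3)} (h : Sqf (a ++ l ++ b)) : Sqf l := by
  intro c u d hu hl
  apply h (a ++ c) u (d ++ b) hu
  rw [hl]
  simp only [List.append_assoc]

theorem Sqf.left {l b : List (Fin 3)} (h : Sqf (l ++ b)) : Sqf l := by
  apply Sqf.mid (a := []) (b := b)
  simpa using h

theorem Sqf.rev {l : List (Fin 3)} (h : Sqf l) : Sqf l.reverse := by
  intro a u b hu hl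
  apply h b.reverse u.reverse a.reverse (by simpa using hu)
  have := congrArg List.reverse hl
  rw [List.reverse_reverse] at this
  rw [this]
  simp only [List.reverse_append, List.append_assoc]

theorem sqf_rev_iff {l : List (Fin 3)} : Sqf l.reverse ↔ Sqf l :=
  ⟨fun h => by simpa using h.rev, fun h => h.rev⟩

/-- right-extendable words. -/
def Ext (l : List (Fin 3)) : Prop := {x : List (Fin 3) | Sqf (l ++ x)}.Infinite

theorem Ext.sqf {l : List (Fin 3)} (h : Ext l) : Sqf l := by
  obtain ⟨x, hx⟩ := h.nonempty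
  exact Sqf.left hx

theorem Ext.step {l : List (Fin 3)} (h : Ext l) : ∃ a, Ext (l ++ [a]) := by
  by_contra hc
  push Not at hc
  apply h
  have hfin : ∀ a : Fin 3, ({x : List (Fin 3) | Sqf (l ++ [a] ++ x)}).Finite := by
    intro a
    have := hc a
    unfold Ext at this
    exact Set.not_infinite.mp this
  refine Set.Finite.subset (s := {[]} ∪ ⋃ a : Fin 3, (fun x => a :: x) '' {x | Sqf (l ++ [a] ++ x)})
    ?_ ?_
  · apply Set.Finite.union (Set.finite_singleton _)
    exact Set.finite_iUnion (fun a => (hfin a).image _)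
  · intro x hx
    cases x with
    | nil => left; rfl
    | cons a x =>
      right
      rw [Set.mem_iUnion]
      refine ⟨a, x, ?_, rfl⟩
      show Sqf (l ++ [a] ++ x)
      have : Sqf (l ++ a :: x) := hx
      simpa using this

noncomputable def extSeq (l : List (Fin 3)) (h : Ext l) : ℕ → {m : List (Fin 3) // Ext m}
  | 0 => ⟨l, h⟩
  | n + 1 => ⟨(extSeq l h n).1 ++ [(extSeq l h n).2.step.choose],
      (extSeq l h n).2.step.choose_spec⟩

theorem extSeq_length (l : List (Fin 3)) (h : Ext l) (n : ℕ) :
    (extSeq l h n).1.length = l.length + n := by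
  induction n with
  | zero => rfl
  | succ n ih =>
    show ((extSeq l h n).1 ++ [(extSeq l h n).2.step.choose]).length = _
    rw [List.length_append, ih, List.length_singleton]
    omega

theorem extSeq_getD (l : List (Fin 3)) (h : Ext l) (n m k : ℕ) (hk : k < l.length + n) :
    (extSeq l h (n + m)).1.getD k 0 = (extSeq l h n).1.getD k 0 := by
  induction m with
  | zero => rfl
  | succ m ih =>
    rw [← ih]
    show ((extSeq l h (n + m)).1 ++ [(extSeq l h (n + m)).2.step.choose]).getD k 0 = _
    rw [List.getD_append _ _ _ _ (by rw [extSeq_length]; omega)]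

/-- a right-extendable word is the beginning of an infinite squarefree word. -/
theorem konig {l : List (Fin 3)} (h : Ext l) :
    ∃ W : ℕ → Fin 3, SF W ∧ ∀ k < l.length, W k = l.getD k 0 := by
  refine ⟨fun k => (extSeq l h (k + 1)).1.getD k 0, ?_, ?_⟩
  · intro i p hp hs
    have hsq := (extSeq l h (i + 2 * p)).2.sqf
    rw [sqf_iff, extSeq_length] at hsq
    refine hsq i p hp (by omega) (fun j hj => ?_)
    have := hs j hj
    have e : ∀ k, k < i + 2 * p → (extSeq l h (i + 2 * p)).1.getD k 0
        = (extSeq l h (k + 1)).1.getD k 0 := by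
      intro k hk
      obtain ⟨m, hm⟩ : ∃ m, i + 2 * p = (k + 1) + m := ⟨i + 2 * p - (k + 1), by omega⟩
      rw [hm, extSeq_getD l h (k + 1) m k (by omega)]
    show (extSeq l h (i + 2 * p)).1.getD (i + j) 0 = (extSeq l h (i + 2 * p)).1.getD (i + p + j) 0
    rw [e _ (by omega), e _ (by omega)]
    exact this
  · intro k hk
    show (extSeq l h (k + 1)).1.getD k 0 = _
    have := extSeq_getD l h 0 (k + 1) k (by omega)
    rw [Nat.zero_add] at this
    exact this

theorem range_map_take {W : ℕ → Fin 3} {l : List (Fin 3)} (h : ∀ k < l.length, W k = l.getD k 0)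
    {N : ℕ} (hN : l.length ≤ N) : ∃ s, (List.range N).map W = l ++ s := by
  refine ⟨((List.range N).map W).drop l.length, ?_⟩
  have e : ((List.range N).map W).take l.length = l := by
    apply List.ext_getElem
    · simp [hN]
    · intro k h1 h2
      rw [List.getElem_take, List.getElem_map, List.getElem_range, h k h2,
        List.getD_eq_getElem _ _ h2]
  conv_lhs => rw [← List.take_append_drop l.length ((List.range N).map W)]
  rw [e]

/-! long squarefree words -/

theorem long_word (K : ℕ) : ∃ M : List (Fin 3), K ≤ M.length ∧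
    Sqf ([0, 1, 2] ++ M ++ [2, 1, 0]) := by
  induction K with
  | zero =>
    refine ⟨[0,2,1,0,2,0,1,0,2,1,2,0], by simp, ?_⟩
    have h := G_sqf [(0, false)] (by
      rw [sqf_iff]
      intro i p hp hi
      simp at hi
      omega)
    exact h
  | succ K ih =>
    obtain ⟨M, hM, hsq⟩ := ih
    let V : List (Fin 3) := [0, 1, 2] ++ M ++ [2, 1, 0]
    have h := G_sqf (V.map (fun a => (a, false))) (by
      rw [List.map_map]
      have : (Prod.fst ∘ fun a : Fin 3 => (a, false)) = id := rfl
      rw [this, List.map_id]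
      exact hsq)
    have e : G (V.map (fun a => (a, false))) = [0, 1, 2] ++ ([0,2,1,0,2,0,1,0,2,1,2,0,2,1,0] ++
        G ((([1, 2] : List (Fin 3)) ++ M ++ [2, 1]).map (fun a => (a, false)))
        ++ [0,1,2,0,2,1,0,2,0,1,0,2,1,2,0]) ++ [2, 1, 0] := by
      simp only [V, List.map_append, G_append]
      have e1 : G (([0, 1, 2] : List (Fin 3)).map (fun a => (a, false)))
          = [0,1,2,0,2,1,0,2,0,1,0,2,1,2,0,2,1,0] ++
            G (([1, 2] : List (Fin 3)).map (fun a => (a, false))) := by decide
      have e2 : G (([2, 1, 0] : List (Fin 3)).map (fun a => (a, false)))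
          = G (([2, 1] : List (Fin 3)).map (fun a => (a, false))) ++
            [0,1,2,0,2,1,0,2,0,1,0,2,1,2,0,2,1,0] := by decide
      rw [e1, e2]
      simp only [List.append_assoc, List.cons_append, List.nil_append]
    rw [e] at h
    refine ⟨_, ?_, h⟩
    simp only [List.length_append, G_length, List.length_map, List.length_cons, List.length_nil]
    omega

theorem long_between (K : ℕ) (t1 t2 : Fin 3) : ∃ T : List (Fin 3), K ≤ T.length ∧
    Sqf ([t1] ++ T ++ [t2]) := by
  obtain ⟨M, hM, h⟩ := long_word K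
  have h1 : ∃ a b : List (Fin 3), ([0, 1, 2] : List (Fin 3)) = a ++ [t1] ++ b := by
    fin_cases t1
    · exact ⟨[], [1, 2], rfl⟩
    · exact ⟨[0], [2], rfl⟩
    · exact ⟨[0, 1], [], rfl⟩
  have h2 : ∃ a b : List (Fin 3), ([2, 1, 0] : List (Fin 3)) = a ++ [t2] ++ b := by
    fin_cases t2
    · exact ⟨[2, 1], [], rfl⟩
    · exact ⟨[2], [0], rfl⟩
    · exact ⟨[], [1, 0], rfl⟩
  obtain ⟨a, b, hab⟩ := h1
  obtain ⟨c, d, hcd⟩ := h2
  rw [hab, hcd] at h
  refine ⟨b ++ M ++ c, by simp only [List.length_append]; omega, ?_⟩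
  apply Sqf.mid (a := a) (b := d)
  have e : a ++ ([t1] ++ (b ++ M ++ c) ++ [t2]) ++ d = a ++ [t1] ++ b ++ M ++ (c ++ [t2] ++ d) := by
    simp only [List.append_assoc]
  rw [e]
  exact h

end Pool.Agent.SqfBridge
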