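import Pool.Agent.SqfBridge.LossSem
import Pool.Agent.SqfBridge.LeafKern

set_option autoImplicit false

namespace Pool.Agent.SqfBridge

/-! Boolean plumbing -/

theorem bt_and {c x : Bool} (h : bt c x false = true) : c = true ∧ x = true := by
  rw [bt_eq] at h
  split_ifs at h with h1
  exact ⟨h1, h⟩

theorem bt_nand {c x : Bool} (h : bt c false x = true) : c = false ∧ x = true := by
  rw [bt_eq] at h
  split_ifs at h with h1
  exact ⟨by simpa using h1, h⟩

theorem bt_or {c x : Bool} (h : bt c true x = true) : c = true ∨ x = true := by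
  rw [bt_eq] at h
  split_ifs at h with h1
  · exact Or.inl h1
  · exact Or.inr h

theorem beq_false_ne {a b : ℕ} (h : Nat.beq a b = false) : a ≠ b := by
  intro hc
  rw [hc, Nat.beq_refl] at h
  exact absurd h (by decide)

theorem memL_nil (x : ℕ) : memL x [] = false := rfl

theorem memL_cons (x a : ℕ) (l : List ℕ) : memL x (a :: l) = bt (Nat.beq x a) true (memL x l) := rfl

/-! codes -/

theorem code_add (g : ℕ → ℕ) (m n : ℕ) :
    code g (m + n) = code g m + 4 ^ m * code (fun i => g (m + i)) n := by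
  induction n with
  | zero => simp [code]
  | succ n ih =>
    rw [← Nat.add_assoc, code, ih, code, pow_add]
    ring

theorem code_of_dig (X n : ℕ) (h : X < 4 ^ n) : code (fun k => X / 4 ^ k % 4) n = X := by
  induction n generalizing X with
  | zero => simp at h; simp [code, h]
  | succ n ih =>
    rw [code_cons]
    have h2 := ih (X / 4) (by rw [pow_succ] at h; omega)
    have e : (fun i => X / 4 ^ (i + 1) % 4) = (fun k => X / 4 / 4 ^ k % 4) := by
      funext i
      exact dig_succ X i
    rw [e, h2]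
    simp only [pow_zero, Nat.div_one]
    omega

theorem digOK_succ (f Z : ℕ) : digOK (f + 1) Z = bt (Nat.ble (Z % 4) 2) (digOK f (Z / 4)) false := rfl

theorem digOK_sound (f Z : ℕ) (h : digOK f Z = true) : ∀ i < f, Z / 4 ^ i % 4 < 3 := by
  induction f generalizing Z with
  | zero => intro i hi; omega
  | succ f ih =>
    intro i hi
    rw [digOK_succ] at h
    obtain ⟨h1, h2⟩ := bt_and h
    cases i with
    | zero =>
      have := Nat.le_of_ble_eq_true h1
      simp only [pow_zero, Nat.div_one]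
      omega
    | succ i =>
      rw [dig_succ]
      exact ih _ h2 i (by omega)

theorem sqfN_succ (f Z : ℕ) :
    sqfN (f + 1) Z = bt (sqp Z ((f + 1) / 2) 4) false (sqfN f (Z / 4)) := rfl

theorem sqp_complete (X f p0 : ℕ) (h : sqp X f (4 ^ p0) = false) :
    ∀ p, p0 ≤ p → p < p0 + f → X % 4 ^ p ≠ X / 4 ^ p % 4 ^ p := by
  induction f generalizing p0 with
  | zero => intro p h1 h2; omega
  | succ f ih =>
    intro p h1 h2
    rw [sqp_succ, bt_eq] at h
    split_ifs at h with h3
    rcases Nat.eq_or_lt_of_le h1 with h4 | h4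
    · subst h4
      intro hc
      exact h3 (by rw [hc]; exact Nat.beq_refl _)
    · have e : 4 * 4 ^ p0 = 4 ^ (p0 + 1) := by rw [pow_succ]; ring
      rw [e] at h
      exact ih (p0 + 1) h p h4 (by omega)

theorem sqfN_sound (g : ℕ → ℕ) (hg : ∀ i, g i < 4) (n : ℕ)
    (h : sqfN n (code g n) = true) :
    ∀ i p, 0 < p → i + 2 * p ≤ n → ¬ ∀ j < p, g (i + j) = g (i + p + j) := by
  induction n generalizing g with
  | zero => intro i p hp hi; omega
  | succ n ih =>
    intro i p hp hi hs
    rw [sqfN_succ] at h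
    obtain ⟨h1, h2⟩ := bt_nand h
    rw [code_div_four hg] at h2
    cases i with
    | zero =>
      have e4 : (4 : ℕ) = 4 ^ 1 := by norm_num
      have := sqp_complete (code g (n + 1)) ((n + 1) / 2) 1 (by rw [← e4]; exact h1) p hp (by omega)
      apply this
      obtain ⟨m, hm⟩ : ∃ m, n + 1 = m + p + p := ⟨n + 1 - p - p, by omega⟩
      rw [hm, code_mod hg, code_div hg, code_mod (fun i => hg _)]
      apply code_congr
      intro j hj
      have := hs j hj
      simp only [Nat.zero_add] at this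
      rw [this]
      congr 1
      omega
    | succ i =>
      refine ih (fun i => g (i + 1)) (fun i => hg _) h2 i p hp (by omega) (fun j hj => ?_)
      have := hs j hj
      have e1 : i + 1 + j = i + j + 1 := by omega
      have e2 : i + 1 + p + j = i + p + j + 1 := by omega
      rw [e1, e2] at this
      exact this

theorem noFac_succ (q e f Z : ℕ) :
    noFac q e (f + 1) Z = bt (Nat.beq (Z % q) e) false (noFac q e f (Z / 4)) := rfl

theorem noFac_sound (q e f Z : ℕ) (h : noFac q e f Z = true) : ∀ i < f, Z / 4 ^ i % q ≠ e := by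
  induction f generalizing Z with
  | zero => intro i hi; omega
  | succ f ih =>
    intro i hi
    rw [noFac_succ] at h
    obtain ⟨h1, h2⟩ := bt_nand h
    cases i with
    | zero => simpa using beq_false_ne h1
    | succ i =>
      have := ih _ h2 i (by omega)
      rw [Nat.div_div_eq_div_mul, ← Nat.pow_succ'] at this
      exact this

/-- window of a code. -/
theorem code_window {g : ℕ → ℕ} (hg : ∀ i, g i < 4) {n s w : ℕ} (h : s + w ≤ n) :
    code g n / 4 ^ s % 4 ^ w = code (fun i => g (s + i)) w := by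
  obtain ⟨m, rfl⟩ : ∃ m, n = m + w + s := ⟨n - w - s, by omega⟩
  rw [code_div hg, code_mod (fun i => hg _)]
  apply code_congr
  intro i _
  show g (i + s) = g (s + i)
  rw [Nat.add_comm]

theorem code_end {g : ℕ → ℕ} (hg : ∀ i, g i < 4) {n s : ℕ} (h : s ≤ n) :
    code g n / 4 ^ s = code (fun i => g (s + i)) (n - s) := by
  obtain ⟨m, rfl⟩ : ∃ m, n = m + s := ⟨n - s, by omega⟩
  rw [code_div hg, Nat.add_sub_cancel]
  apply code_congr
  intro i _
  show g (i + s) = g (s + i)
  rw [Nat.add_comm]

/-! blocks -/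

theorem bc_eq (a : Fin 3) (b : Bool) :
    bc a.val b = code (fun k => ((blk a b).getD k 0).val) 18 := by
  revert a b
  decide +kernel

theorem d2_eq (x y : Fin 3) (bx bY : Bool) (t : ℕ → Fin 3) (b : ℕ → Bool) (h0 : t 0 = x)
    (h1 : t 1 = y) (g0 : b 0 = bx) (g1 : b 1 = bY) :
    d2 x.val y.val bx bY = code (fun k => (Gf t b k).val) 36 := by
  have e : (36 : ℕ) = 18 + 18 := rfl
  rw [e, code_add]
  have e1 : code (fun k => (Gf t b k).val) 18 = bc x.val bx := by
    rw [bc_eq]
    apply code_congr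
    intro k hk
    show (Gf t b k).val = _
    unfold Gf
    rw [Nat.div_eq_of_lt hk, Nat.mod_eq_of_lt hk, h0, g0]
  have e2 : code (fun i => (Gf t b (18 + i)).val) 18 = bc y.val bY := by
    rw [bc_eq]
    apply code_congr
    intro k hk
    show (Gf t b (18 + k)).val = _
    unfold Gf
    have d1 : (18 + k) / 18 = 1 := by omega
    have d2 : (18 + k) % 18 = k := by omega
    rw [d1, d2, h1, g1]
  rw [e1, e2]
  show bc x.val bx + 68719476736 * bc y.val bY = _
  norm_num

theorem A12_all : ∀ x y : Fin 3, x ≠ y → ∀ bx bY : Bool, ∀ r : Fin 18,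
    memL (d2 x.val y.val bx bY / 4 ^ r.val % 4 ^ 12) A12L = true := by
  decide +kernel

theorem A19_all : ∀ x y : Fin 3, x ≠ y → ∀ bx bY : Bool, ∀ r : Fin 18,
    memL (d2 x.val y.val bx bY / 4 ^ r.val % 4 ^ 19) A19L = true := by
  decide +kernel

theorem Gf_window {t' : ℕ → Fin 3} {b' : ℕ → Bool} {k w : ℕ} (hw : w ≤ 19) :
    code (fun j => (Gf t' b' (k + j)).val) w
      = d2 (t' (k / 18)).val (t' (k / 18 + 1)).val (b' (k / 18)) (b' (k / 18 + 1))
        / 4 ^ (k % 18) % 4 ^ w := by
  have hd := d2_eq (t' (k / 18)) (t' (k / 18 + 1)) (b' (k / 18)) (b' (k / 18 + 1))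
    (fun i => t' (k / 18 + i)) (fun i => b' (k / 18 + i)) rfl rfl rfl rfl
  rw [hd, code_window (fun i => by omega) (by omega)]
  apply code_congr
  intro j _
  show (Gf t' b' (k + j)).val = (Gf (fun i => t' (k / 18 + i)) (fun i => b' (k / 18 + i)) (k % 18 + j)).val
  unfold Gf
  have e1 : (k + j) / 18 = k / 18 + (k % 18 + j) / 18 := by omega
  have e2 : (k + j) % 18 = (k % 18 + j) % 18 := by omega
  rw [e1, e2]

/-! leaves -/

/-- digits of a tail -/
def tv (ℓ : Leaf) (t : ℕ → Fin 3) (b : ℕ → Bool) (k : ℕ) : ℕ := (tail ℓ t b k).val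

theorem tv_lt (ℓ : Leaf) (t : ℕ → Fin 3) (b : ℕ → Bool) (k : ℕ) : tv ℓ t b k < 4 := by
  unfold tv; omega

theorem ycode_eq {ℓ : Leaf} (ho : ℓ.o ≤ 23) (h1 : ℓ.t1 < 3) (h0 : ℓ.t0 < 3)
    (hd : ∀ i < 19, ℓ.yl / 4 ^ i % 4 < 3) (hlt : ℓ.yl < 4 ^ 19) (t : ℕ → Fin 3) (b : ℕ → Bool) :
    ycode ℓ = code (tv ℓ t b) (55 - ℓ.o) := by
  have e : 55 - ℓ.o = 19 + (36 - ℓ.o) := by omega
  rw [e, code_add]
  have e1 : code (tv ℓ t b) 19 = ℓ.yl := by
    refine Eq.trans (code_congr ?_) (code_of_dig ℓ.yl 19 hlt)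
    intro k hk
    show tv ℓ t b k = ℓ.yl / 4 ^ k % 4
    unfold tv tail
    rw [if_pos hk]
    unfold dig
    exact toF_val (hd k hk)
  have e2 : code (fun i => tv ℓ t b (19 + i)) (36 - ℓ.o)
      = d2 ℓ.t1 ℓ.t0 ℓ.b1 ℓ.b0 / 4 ^ ℓ.o := by
    have := d2_eq (toF ℓ.t1) (toF ℓ.t0) ℓ.b1 ℓ.b0 (ℓ.st t) (ℓ.sb b) rfl rfl rfl rfl
    rw [toF_val h1, toF_val h0] at this
    rw [this, code_end (fun i => by omega) (by omega)]
    apply code_congr
    intro i _
    show tv ℓ t b (19 + i) = (Gf (ℓ.st t) (ℓ.sb b) (ℓ.o + i)).val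
    unfold tv
    rw [tail_ge (by omega)]
    congr 3
    omega
  rw [e1, e2]
  rfl

/-- letters of context and tail -/
def kv (P : ℕ) (ℓ : Leaf) (t : ℕ → Fin 3) (b : ℕ → Bool) (k : ℕ) : ℕ :=
  (app 8 (kapF P) (tail ℓ t b) k).val

theorem kv_lt (P : ℕ) (ℓ : Leaf) (t : ℕ → Fin 3) (b : ℕ → Bool) (k : ℕ) : kv P ℓ t b k < 4 := by
  unfold kv; omega

theorem leafChk_eq (c kc : ℕ) (l : Leaf) : leafChk c kc l =
  bt (Nat.ble 1 l.o)
  (bt (Nat.ble l.o 23)
  (bt (Nat.ble l.t1 2)
  (bt (Nat.ble l.t0 2)
  (bt (Nat.beq l.t1 l.t0) false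
  (bt (digOK 19 l.yl)
  (bt (Nat.ble (Nat.succ l.yl) 274877906944)
  (bt (Nat.beq (l.yl % 4) c)
    (bt (memL (ycode l / 68719476736 % 16777216) A12L) false
    (bt (memL ((kc + 65536 * ycode l) % 274877906944) A19L) false
    (bt (noFac 262144 (kc + 65536 * c) 24 (ycode l))
    (bt (noFac (4 ^ (26 - l.o)) ((kc + 65536 * ycode l) / 4 ^ 37)
        (12 + l.o) (kc + 65536 * ycode l))
    (sqfN (63 - l.o) (kc + 65536 * ycode l)) false) false)))
  false) false) false)) false) false) false) false := by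
  have h : leafChk c kc l =
    bt (Nat.ble 1 l.o)
    (bt (Nat.ble l.o 23)
    (bt (Nat.ble l.t1 2)
    (bt (Nat.ble l.t0 2)
    (bt (Nat.beq l.t1 l.t0) false
    (bt (digOK 19 l.yl)
    (bt (Nat.ble (Nat.succ l.yl) 274877906944)
    (bt (Nat.beq (l.yl % 4) c)
    (force (ycode l) (fun y => force (kc + 65536 * y) (fun Z =>
      bt (memL (y / 68719476736 % 16777216) A12L) false
      (bt (memL (Z % 274877906944) A19L) false
      (bt (noFac 262144 (kc + 65536 * c) 24 y)
      (bt (noFac (4 ^ (26 - l.o)) (Z / 4 ^ 37) (12 + l.o) Z)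
      (sqfN (63 - l.o) Z) false) false)))))
    false) false) false)) false) false) false) false := rfl
  rw [h, force_eq, force_eq]

theorem leafChk_sound {P : ℕ} {l : Leaf}
    (hkc : kcode P = code (fun j => (kapF P j).val) 8) (hc : (cF P).val = 3 - P % 4)
    (h : leafChk (3 - P % 4) (kcode P) l = true) :
    LeafOK (kapF P) (cF P) l ∧ ∀ t b, ycode l = code (tv l t b) (55 - l.o) := by
  rw [leafChk_eq] at h
  obtain ⟨h1, h⟩ := bt_and h
  obtain ⟨h2, h⟩ := bt_and h
  obtain ⟨h3, h⟩ := bt_and h
  obtain ⟨h4, h⟩ := bt_and h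
  obtain ⟨h5, h⟩ := bt_nand h
  obtain ⟨h6, h⟩ := bt_and h
  obtain ⟨h7, h⟩ := bt_and h
  obtain ⟨h8, h⟩ := bt_and h
  obtain ⟨h9, h⟩ := bt_nand h
  obtain ⟨h10, h⟩ := bt_nand h
  obtain ⟨h11, h⟩ := bt_and h
  obtain ⟨h12, h13⟩ := bt_and h
  have ho1 := Nat.le_of_ble_eq_true h1
  have ho2 := Nat.le_of_ble_eq_true h2
  have ht1 := Nat.le_of_ble_eq_true h3
  have ht0 := Nat.le_of_ble_eq_true h4
  have hne := beq_false_ne h5
  have hd := digOK_sound _ _ h6
  have hlt := Nat.le_of_ble_eq_true h7
  have hc0 := Nat.eq_of_beq_eq_true h8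
  have hy : ∀ t b, ycode l = code (tv l t b) (55 - l.o) :=
    ycode_eq ho2 (by omega) (by omega) hd (by
      have : (4 : ℕ) ^ 19 = 274877906944 := by norm_num
      rw [this]; exact hlt)
  -- context and tail
  have hZ : ∀ t b, kcode P + 65536 * ycode l = code (kv P l t b) (63 - l.o) := by
    intro t b
    have e : 63 - l.o = 8 + (55 - l.o) := by omega
    have g1 : code (fun j => (kapF P j).val) 8 = code (kv P l t b) 8 := by
      apply code_congr
      intro k hk
      show _ = kv P l t b k
      unfold kv app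
      rw [if_pos hk]
    have g2 : code (tv l t b) (55 - l.o) = code (fun i => kv P l t b (8 + i)) (55 - l.o) := by
      apply code_congr
      intro k hk
      show tv l t b k = kv P l t b (8 + k)
      unfold kv app tv
      rw [if_neg (by omega), Nat.add_sub_cancel_left]
    rw [e, code_add, hkc, hy t b, g1, g2]
    norm_num
  refine ⟨⟨ho1, ho2, ?_, ?_, ?_, ?_, ?_, ?_, ?_⟩, hy⟩
  · intro he
    apply hne
    have := congrArg Fin.val he
    rwa [toF_val (by omega), toF_val (by omega)] at this
  · apply Fin.ext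
    have h00 := hd 0 (by norm_num)
    unfold dig
    rw [toF_val h00, hc]
    simpa using hc0
  · -- c1
    intro t b i p hp hi hsq
    have h14 := h13
    rw [hZ t b] at h14
    refine sqfN_sound (kv P l t b) (kv_lt P l t b) _ h14 i p hp hi (fun j hj => ?_)
    unfold kv
    rw [hsq j hj]
  · -- c2
    intro t b s hs hcon
    have h14 := noFac_sound _ _ _ _ h12 s (by omega)
    apply h14
    rw [hZ t b, code_window (kv_lt P l t b) (by omega), code_end (kv_lt P l t b) (by omega)]
    have e : 63 - l.o - 37 = 26 - l.o := by omega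
    rw [e]
    apply code_congr
    intro j hj
    show kv P l t b (s + j) = kv P l t b (37 + j)
    unfold kv
    rw [hcon j hj]
  · -- c3
    intro t b t' b' k hk hcon
    have h14 : memL (ycode l / 68719476736 % 16777216) A12L = true := by
      have e1 : (68719476736 : ℕ) = 4 ^ 18 := by norm_num
      have e2 : (16777216 : ℕ) = 4 ^ 12 := by norm_num
      rw [e1, e2, hy t b, code_window (tv_lt l t b) (by omega)]
      have e3 : code (fun i => tv l t b (18 + i)) 12 = code (fun j => (Gf t' b' (k + j)).val) 12 := by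
        apply code_congr
        intro j hj
        show tv l t b (18 + j) = _
        unfold tv
        rw [hcon j hj]
      rw [e3, Gf_window (by norm_num)]
      exact A12_all _ _ hk _ _ ⟨k % 18, by omega⟩
    rw [h14] at h9
    exact absurd h9 (by decide)
  · -- c5
    intro t b s hs hcon
    have h14 := noFac_sound _ _ _ _ h11 s (by omega)
    apply h14
    have e1 : (262144 : ℕ) = 4 ^ 9 := by norm_num
    have g1 : code (fun i => tv l t b (s + i)) 8 = code (fun j => (kapF P j).val) 8 := by
      apply code_congr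
      intro j hj
      show tv l t b (s + j) = _
      unfold tv
      rw [hcon.1 j hj]
    have g2 : code (fun i => tv l t b (s + (8 + i))) 1 = 3 - P % 4 := by
      have e9 : ∀ g : ℕ → ℕ, code g 1 = g 0 := by intro g; simp [code]
      rw [e9]
      show tv l t b (s + (8 + 0)) = _
      unfold tv
      rw [Nat.add_zero, hcon.2, hc]
    have g3 := code_add (fun i => tv l t b (s + i)) 8 1
    rw [g1, g2] at g3
    rw [e1, hy t b, code_window (tv_lt l t b) (by omega), hkc]
    refine g3.trans ?_
    norm_num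
  · -- c6
    intro t b t' b' k hk hcon
    have h14 : memL ((kcode P + 65536 * ycode l) % 274877906944) A19L = true := by
      have e1 : (274877906944 : ℕ) = 4 ^ 19 := by norm_num
      have hw := code_window (g := kv P l t b) (kv_lt P l t b) (n := 63 - l.o) (s := 0) (w := 19)
        (by omega)
      rw [pow_zero, Nat.div_one] at hw
      rw [e1, hZ t b, hw]
      have e3 : code (fun i => kv P l t b (0 + i)) 19 = code (fun j => (Gf t' b' (k + j)).val) 19 := by
        apply code_congr
        intro j hj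
        show kv P l t b (0 + j) = _
        rw [Nat.zero_add]
        unfold kv app
        split_ifs with h8
        · rw [hcon.1 j h8]
        · have := hcon.2 (j - 8) (by omega)
          have e : k + 8 + (j - 8) = k + j := by omega
          rw [e] at this
          rw [this]
      rw [e3, Gf_window (by norm_num)]
      exact A19_all _ _ hk _ _ ⟨k % 18, by omega⟩
    rw [h14] at h10
    exact absurd h10 (by decide)

end Pool.Agent.SqfBridge
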