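import Pool.Agent.SqfBridge.KernSem

set_option autoImplicit false

namespace Pool.Agent.SqfBridge

theorem armN_zero (A B : ℕ) : armN 0 A B = 0 := rfl

theorem armN_succ (f A B : ℕ) :
    armN (f + 1) A B = if A % 4 = B % 4 then armN f (A / 4) (B / 4) + 1 else 0 := by
  have h : armN (f + 1) A B = bt (Nat.beq (A % 4) (B % 4)) (armN f (A / 4) (B / 4) + 1) 0 := rfl
  rw [h, bt_eq]
  by_cases h2 : A % 4 = B % 4
  · rw [if_pos h2, if_pos (by rw [h2]; exact Nat.beq_refl _)]
  · rw [if_neg h2, if_neg (by intro hc; exact h2 (Nat.eq_of_beq_eq_true hc))]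

theorem armN_le (f A B : ℕ) : armN f A B ≤ f := by
  induction f generalizing A B with
  | zero => simp [armN_zero]
  | succ f ih =>
    rw [armN_succ]
    split_ifs
    · have := ih (A / 4) (B / 4); omega
    · omega

theorem dig_succ (A k : ℕ) : A / 4 ^ (k + 1) % 4 = A / 4 / 4 ^ k % 4 := by
  rw [Nat.div_div_eq_div_mul, pow_succ, Nat.mul_comm 4]

theorem armN_dig (f A B : ℕ) : ∀ k < armN f A B, A / 4 ^ k % 4 = B / 4 ^ k % 4 := by
  induction f generalizing A B with
  | zero => intro k hk; simp [armN_zero] at hk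
  | succ f ih =>
    intro k hk
    rw [armN_succ] at hk
    split_ifs at hk with h1
    · cases k with
      | zero => simpa using h1
      | succ k =>
        rw [dig_succ, dig_succ]
        exact ih (A / 4) (B / 4) k (by omega)
    · omega

theorem armN_max (f A B : ℕ) (h : armN f A B < f) :
    A / 4 ^ (armN f A B) % 4 ≠ B / 4 ^ (armN f A B) % 4 := by
  induction f generalizing A B with
  | zero => omega
  | succ f ih =>
    rw [armN_succ] at h ⊢
    split_ifs at h ⊢ with h1
    · rw [dig_succ, dig_succ]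
      exact ih (A / 4) (B / 4) (by omega)
    · simpa using h1

/-- kernel arm versus true arm. -/
theorem armN_spec {W : ℕ → Fin 3} {N n p : ℕ} (hp : 1 ≤ p) (hpn : p < n) (hnN : n ≤ N) :
    armN (n - p) (code (fun k => gv W (N - 1 - k)) n)
      (code (fun k => gv W (N - 1 - (k + p))) (n - p)) = min (arm W N p) (n - p) := by
  set a := armN (n - p) (code (fun k => gv W (N - 1 - k)) n)
      (code (fun k => gv W (N - 1 - (k + p))) (n - p)) with ha
  have hle : a ≤ n - p := armN_le _ _ _
  have hdig := armN_dig (n - p) (code (fun k => gv W (N - 1 - k)) n)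
      (code (fun k => gv W (N - 1 - (k + p))) (n - p))
  rw [← ha] at hdig
  have hval : ∀ k < a, W (N - 1 - k) = W (N - 1 - (k + p)) := by
    intro k hk
    have := hdig k hk
    rw [code_dig (fun i => gv_lt W _) (by omega), code_dig (fun i => gv_lt W _) (by omega)] at this
    exact Fin.ext this
  have hrun : Run W N p a := by
    refine ⟨by omega, fun i hi1 hi2 => ?_⟩
    have := hval (N - p - 1 - i) (by omega)
    have e1 : N - 1 - (N - p - 1 - i) = i + p := by omega
    have e2 : N - 1 - (N - p - 1 - i + p) = i := by omega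
    rw [e1, e2] at this
    exact this.symm
  have h1 := le_arm hrun
  rcases Nat.lt_or_ge a (n - p) with h2 | h2
  · have hmx := armN_max (n - p) (code (fun k => gv W (N - 1 - k)) n)
      (code (fun k => gv W (N - 1 - (k + p))) (n - p)) (by rw [← ha]; exact h2)
    rw [← ha] at hmx
    rw [code_dig (fun i => gv_lt W _) (by omega), code_dig (fun i => gv_lt W _) (by omega)] at hmx
    have h3 : arm W N p ≤ a := by
      by_contra hc
      push Not at hc
      have hr := run_arm (W := W) (N := N) (p := p) (by omega)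
      have := hr.2 (N - p - 1 - a) (by have := hr.1; omega) (by omega)
      apply hmx
      have e1 : N - 1 - a = N - p - 1 - a + p := by have := hr.1; omega
      have e2 : N - 1 - (a + p) = N - p - 1 - a := by omega
      rw [e1, e2]
      unfold gv
      rw [this]
    omega
  · omega

/-- property of a mass trie. -/
def WalkOK (T : Tri) (L : List Leaf) : Prop :=
  ∀ V k, mass L (fun ℓ => ∀ j < min k 31, (yb ℓ (j + 1)).val = V / 4 ^ j % 4) ≤ T.walk V k

theorem lossN_zero (T : Tri) (c Y p V R : ℕ) : lossN T c Y 0 p V R = 0 := rfl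

theorem lossN_succ (T : Tri) (c Y f p V R : ℕ) :
    lossN T c Y (f + 1) p V R =
      (if V % 4 = c then lossC T f p V (armN (f + 1) Y R) else 0)
        + lossN T c Y f (p + 1) (4 * V + R % 4) (R / 4) := by
  have h : lossN T c Y (f + 1) p V R = bt (Nat.beq (V % 4) c)
      (lossC T f p V (armN (f + 1) Y R) + lossN T c Y f (p + 1) (4 * V + R % 4) (R / 4))
      (lossN T c Y f (p + 1) (4 * V + R % 4) (R / 4)) := rfl
  rw [h, bt_eq]
  by_cases h2 : V % 4 = c
  · rw [if_pos h2, if_pos (by rw [h2]; exact Nat.beq_refl _)]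
  · rw [if_neg h2, if_neg (by intro hc; exact h2 (Nat.eq_of_beq_eq_true hc)), Nat.zero_add]

theorem lossC_eq (T : Tri) (f p V a : ℕ) :
    lossC T f p V a = if f + 1 ≤ a then (if p ≤ 25 then 1000000 else 0)
      else if p + a ≤ 8 then 0 else T.walk (V / 4) (p - 1 - a) := by
  have h : lossC T f p V a = bt (Nat.ble (f + 1) a) (bt (Nat.ble p 25) 1000000 0)
    (bt (Nat.ble (p + a) 8) 0 (T.walk (V / 4) (p - 1 - a))) := rfl
  rw [h, bt_eq, bt_eq, bt_eq]
  simp only [Nat.ble_eq]

open Classical in
theorem lossN_sound {W : ℕ → Fin 3} (hW : SF W) {N n : ℕ} (hnN : n ≤ N) (T : Tri) (L : List Leaf)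
    (c : ℕ) (cF : Fin 3) (hc : cF.val = c) (hwalk : WalkOK T L) :
    ∀ f p, 1 ≤ p → p + f = n →
      lossN T c (code (fun k => gv W (N - 1 - k)) n) f p (code (fun j => gv W (N - p + j)) p)
        (code (fun k => gv W (N - 1 - (k + p))) (n - p)) < 1000000 →
      (∀ q, p ≤ q → q < n → W (N - q) = cF → n ≤ q + arm W N q → 26 ≤ q) ∧
      ∑ q ∈ (Finset.Ico p n).filter (fun q => VisP W N cF n q), mass L (Pre W N q) ≤
        lossN T c (code (fun k => gv W (N - 1 - k)) n) f p (code (fun j => gv W (N - p + j)) p)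
        (code (fun k => gv W (N - 1 - (k + p))) (n - p)) := by
  intro f
  induction f with
  | zero =>
    intro p hp hpn _
    have : p = n := by omega
    subst this
    refine ⟨fun q h1 h2 => by omega, ?_⟩
    simp
  | succ f ih =>
    intro p hp hpn hlt
    rw [lossN_succ] at hlt ⊢
    -- the next state
    have hV : 4 * code (fun j => gv W (N - p + j)) p
        + code (fun k => gv W (N - 1 - (k + p))) (n - p) % 4
        = code (fun j => gv W (N - (p + 1) + j)) (p + 1) := by
      have e1 : n - p = f + 1 := by omega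
      rw [e1, code_mod_four (fun i => gv_lt W _), code_cons (fun j => gv W (N - (p + 1) + j)) p]
      have : code (fun i => gv W (N - (p + 1) + (i + 1))) p
          = code (fun i => gv W (N - p + i)) p := by
        apply code_congr
        intro i _
        show gv W (N - (p + 1) + (i + 1)) = gv W (N - p + i)
        congr 1
        omega
      rw [this]
      have e2 : N - 1 - (0 + p) = N - (p + 1) + 0 := by omega
      simp only [e2]
      ring
    have hR : code (fun k => gv W (N - 1 - (k + p))) (n - p) / 4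
        = code (fun k => gv W (N - 1 - (k + (p + 1)))) (n - (p + 1)) := by
      have e1 : n - p = f + 1 := by omega
      have e2 : n - (p + 1) = f := by omega
      rw [e1, e2, code_div_four (fun i => gv_lt W _)]
      apply code_congr
      intro i _
      show gv W (N - 1 - (i + 1 + p)) = gv W (N - 1 - (i + (p + 1)))
      congr 1
      omega
    rw [hV, hR] at hlt ⊢
    obtain ⟨ih1, ih2⟩ := ih (p + 1) (by omega) (by omega) (by omega)
    have harm := armN_spec (W := W) (N := N) (n := n) (p := p) hp (by omega) hnN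
    have e1 : n - p = f + 1 := by omega
    rw [e1] at harm
    rw [e1] at hlt ⊢
    rw [harm] at hlt ⊢
    have hVm : code (fun j => gv W (N - p + j)) p % 4 = gv W (N - p) := by
      obtain ⟨p', rfl⟩ : ∃ p', p = p' + 1 := ⟨p - 1, by omega⟩
      rw [code_mod_four (fun i => gv_lt W _)]
      simp
    have hcc : (gv W (N - p) = c) ↔ W (N - p) = cF := by
      unfold gv
      rw [← hc]
      exact ⟨fun h => Fin.ext h, fun h => by rw [h]⟩
    rw [hVm] at hlt ⊢
    rw [lossC_eq] at hlt ⊢
    have harmlt := arm_lt hW (N := N) (p := p) (by omega) (by omega)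
    constructor
    · intro q hq1 hq2 hq3 hq4
      rcases Nat.eq_or_lt_of_le hq1 with h | h
      · subst h
        rw [if_pos (hcc.mpr hq3), if_pos (by omega)] at hlt
        by_contra hcon
        push Not at hcon
        rw [if_pos (by omega)] at hlt
        omega
      · exact ih1 q (by omega) hq2 hq3 hq4
    · have hsplit : (Finset.Ico p n) = insert p (Finset.Ico (p + 1) n) := by
        ext x; simp only [Finset.mem_Ico, Finset.mem_insert]; omega
      rw [hsplit, Finset.filter_insert]
      by_cases hv : VisP W N cF n p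
      · rw [if_pos hv, Finset.sum_insert (by simp)]
        obtain ⟨v1, v2, v3, v4⟩ := hv
        rw [if_pos (hcc.mpr v2), if_neg (by omega), if_neg (by omega)]
        have hmin : min (arm W N p) (f + 1) = arm W N p := by omega
        rw [hmin]
        have hm : mass L (Pre W N p) ≤ T.walk (code (fun j => gv W (N - p + j)) p / 4)
            (p - 1 - arm W N p) := by
          refine le_trans ?_ (hwalk _ _)
          apply mass_mono
          intro ℓ _ hpre j hj
          have h1 := hpre (j + 1) (by omega)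
          rw [h1]
          obtain ⟨p', rfl⟩ : ∃ p', p = p' + 1 := ⟨p - 1, by omega⟩
          rw [code_div_four (fun i => gv_lt W _), code_dig (fun i => gv_lt W _) (by omega)]
          rfl
        exact Nat.add_le_add hm ih2
      · rw [if_neg hv]
        exact ih2.trans (Nat.le_add_left _ _)

/-! key tree -/

structure KE where
  len : ℕ
  cd : ℕ
  g : ℕ
  T : Tri

def KE.up (a : ℕ) (e : KE) : KE := ⟨e.len + 1, 4 * e.cd + a, e.g, e.T⟩

def KT.keys : KT → List KE
  | .none => []
  | .key g T => [⟨0, 0, g, T⟩]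
  | .node a b c => a.keys.map (KE.up 0) ++ (b.keys.map (KE.up 1) ++ c.keys.map (KE.up 2))

theorem KT.get_none {α : Type} (V : ℕ) (k0 : α) (k1 : ℕ → Tri → α) : KT.none.get V k0 k1 = k0 := rfl
theorem KT.get_key {α : Type} (V g : ℕ) (T : Tri) (k0 : α) (k1 : ℕ → Tri → α) :
    (KT.key g T).get V k0 k1 = k1 g T := rfl
theorem KT.get_node {α : Type} (V : ℕ) (a b c : KT) (k0 : α) (k1 : ℕ → Tri → α) :
    (KT.node a b c).get V k0 k1
      = sel3 (V % 4) (a.get (V / 4) k0 k1) (b.get (V / 4) k0 k1) (c.get (V / 4) k0 k1) := rfl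

theorem KT.get_spec {α : Type} (K : KT) (k0 : α) (k1 : ℕ → Tri → α) :
    ∀ V, (∀ i, V / 4 ^ i % 4 < 3) → K.get V k0 k1 = k0 ∨
      ∃ e ∈ K.keys, V % 4 ^ e.len = e.cd ∧ K.get V k0 k1 = k1 e.g e.T := by
  induction K with
  | none => intro V _; left; rfl
  | key g T =>
    intro V _
    right
    exact ⟨⟨0, 0, g, T⟩, by simp [KT.keys], by simp [Nat.mod_one], rfl⟩
  | node a b c iha ihb ihc =>
    intro V hV
    have hV' : ∀ i, V / 4 / 4 ^ i % 4 < 3 := by
      intro i
      rw [← dig_succ]
      exact hV (i + 1)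
    have h0 := hV 0
    simp only [pow_zero, Nat.div_one] at h0
    have hmod : ∀ (e : KE) (a : ℕ), V % 4 = a → V / 4 % 4 ^ e.len = e.cd →
        V % 4 ^ (e.up a).len = (e.up a).cd := by
      intro e a ha he
      show V % 4 ^ (e.len + 1) = 4 * e.cd + a
      rw [pow_succ, Nat.mul_comm, Nat.mod_mul, ha, he]
      ring
    rw [KT.get_node]
    have hcase : V % 4 = 0 ∨ V % 4 = 1 ∨ V % 4 = 2 := by omega
    rcases hcase with h | h | h
    · rw [h, sel3_0]
      rcases iha (V / 4) hV' with h1 | ⟨e, he, h1, h2⟩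
      · left; exact h1
      · right
        exact ⟨e.up 0, by simp only [KT.keys, List.mem_append, List.mem_map]; left; exact ⟨e, he, rfl⟩,
          hmod e 0 h h1, h2⟩
    · rw [h, sel3_1]
      rcases ihb (V / 4) hV' with h1 | ⟨e, he, h1, h2⟩
      · left; exact h1
      · right
        exact ⟨e.up 1, by simp only [KT.keys, List.mem_append, List.mem_map]; right; left; exact ⟨e, he, rfl⟩,
          hmod e 1 h h1, h2⟩
    · rw [h, show (2 : ℕ) = 0 + 2 from rfl, sel3_2]
      rcases ihc (V / 4) hV' with h1 | ⟨e, he, h1, h2⟩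
      · left; exact h1
      · right
        exact ⟨e.up 2, by simp only [KT.keys, List.mem_append, List.mem_map]; right; right; exact ⟨e, he, rfl⟩,
          hmod e 2 h h1, h2⟩

/-- the context word of a key code: `κ 7 = 0`, `κ j = digit (7-j)`. -/
def kapF (P : ℕ) (j : ℕ) : Fin 3 := if j = 7 then 0 else toF (P / 4 ^ (7 - j) % 4)

def cF (P : ℕ) : Fin 3 := toF (3 - P % 4)

def KeyGood (e : KE) : Prop :=
  e.len = 8 ∧ e.g < 100000 ∧ ∃ L : List Leaf, KeyOK (kapF e.cd) (cF e.cd) L ∧ WalkOK e.T L ∧
    e.g + 1050 ≤ (L.map (fun ℓ => ℓ.w)).sum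

theorem testN_eq (K : KT) (n d Y need : ℕ) :
    testN K n d Y need = K.get (d + Y) false (fun g T =>
      Nat.ble (need + lossN T (3 - d) Y (n - 1) 1 0 (Y / 4)) g) := rfl

theorem toF_val {x : ℕ} (h : x < 3) : (toF x).val = x := by
  unfold toF
  simp [Fin.ofNat]
  omega

theorem toF_gv (W : ℕ → Fin 3) (k : ℕ) : toF (gv W k) = W k := by
  apply Fin.ext
  rw [toF_val (gv_lt3 W k)]
  rfl

theorem test_sound {W : ℕ → Fin 3} (hW : SF W) (K : KT) (hK : ∀ e ∈ K.keys, KeyGood e) {N n : ℕ}
    (hn : 32 ≤ n) (hnN : n ≤ N) (h0 : W (N - 1) = 0) (need : ℕ)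
    (hbad : ∀ ℓ, LeafOK (fun j => W (N - 8 + j)) (toF (3 - gv W N)) ℓ → Bad W N [ℓ])
    (h : testN K n (gv W N) (code (fun k => gv W (N - 1 - k)) n) need = true) :
    (need : ℚ) ≤ InvSum W N := by
  rw [testN_eq] at h
  have hWN : W N ≠ 0 := by
    intro hc
    refine hW (N - 1) 1 (by norm_num) (fun j hj => ?_)
    have : j = 0 := by omega
    subst this
    have e : N - 1 + 1 + 0 = N := by omega
    rw [e, Nat.add_zero, h0, hc]
  have hg : gv W (N - 1) = 0 := by unfold gv; rw [h0]; rfl
  have hgN : gv W N = 1 ∨ gv W N = 2 := by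
    unfold gv
    revert hWN
    generalize W N = x
    revert x
    decide
  -- V = d + Y as a code
  let u : ℕ → ℕ := fun k => if k = 0 then gv W N else gv W (N - 1 - k)
  have hu : ∀ i, u i < 4 := by
    intro i; simp only [u]; split_ifs <;> exact gv_lt W _
  have hu3 : ∀ i, u i < 3 := by
    intro i; simp only [u]; split_ifs <;> exact gv_lt3 W _
  have hV : gv W N + code (fun k => gv W (N - 1 - k)) n = code u n := by
    obtain ⟨n', rfl⟩ : ∃ n', n = n' + 1 := ⟨n - 1, by omega⟩
    rw [code_cons, code_cons]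
    have e1 : gv W (N - 1 - 0) = 0 := by rw [Nat.sub_zero]; exact hg
    have e2 : u 0 = gv W N := by simp [u]
    have e3 : (fun i => u (i + 1)) = (fun i => gv W (N - 1 - (i + 1))) := by
      funext i; simp [u]
    rw [e1, e2, e3]
    omega
  have hdig : ∀ i, code u n / 4 ^ i % 4 < 3 := by
    intro i
    rcases Nat.lt_or_ge i n with hi | hi
    · rw [code_dig hu hi]; exact hu3 i
    · have : code u n / 4 ^ i = 0 := by
        apply Nat.div_eq_of_lt
        exact (code_lt hu n).trans_le (Nat.pow_le_pow_right (by norm_num) hi)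
      rw [this]; norm_num
  rw [hV] at h
  rcases KT.get_spec K false (fun g T =>
      Nat.ble (need + lossN T (3 - gv W N) (code (fun k => gv W (N - 1 - k)) n) (n - 1) 1 0
        (code (fun k => gv W (N - 1 - k)) n / 4)) g) (code u n) hdig with h1 | ⟨e, he, h1, h2⟩
  · rw [h1] at h; exact absurd h (by decide)
  · rw [h2] at h
    have hle := Nat.le_of_ble_eq_true h
    obtain ⟨hlen, hglt, L, hL, hT, hsum⟩ := hK e he
    rw [hlen] at h1
    -- the key data agree with W
    have hcd : ∀ i < 8, e.cd / 4 ^ i % 4 = u i := by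
      intro i hi
      rw [← h1]
      obtain ⟨m, hm⟩ : ∃ m, n = m + 8 := ⟨n - 8, by omega⟩
      rw [hm, code_mod hu, code_dig hu hi]
    have hkap : ∀ j < 8, kapF e.cd j = W (N - 8 + j) := by
      intro j hj
      unfold kapF
      by_cases h7 : j = 7
      · rw [if_pos h7, h7, ← h0]; congr 1; omega
      · rw [if_neg h7, hcd (7 - j) (by omega)]
        simp only [u]
        rw [if_neg (by omega), toF_gv]
        congr 1
        omega
    have hcF : cF e.cd = toF (3 - gv W N) := by
      unfold cF
      have := hcd 0 (by norm_num)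
      simp only [pow_zero, Nat.div_one] at this
      rw [this]
      simp [u]
    have hcv : (cF e.cd).val = 3 - gv W N := by
      rw [hcF]
      apply toF_val
      rcases hgN with h | h <;> rw [h] <;> norm_num
    have hcW : cF e.cd ≠ W N := by
      intro hc
      rw [hc] at hcv
      have : (W N).val = gv W N := rfl
      rcases hgN with h | h <;> rw [this, h] at hcv <;> omega
    have hLK : ∀ ℓ, LeafOK (kapF e.cd) (cF e.cd) ℓ → LeafOK (fun j => W (N - 8 + j)) (toF (3 - gv W N)) ℓ := by
      intro ℓ hℓ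
      rw [← hcF]
      refine ⟨hℓ.ho1, hℓ.ho2, hℓ.ht, hℓ.h0, ?_, ?_, hℓ.c3, ?_, ?_⟩
      · intro t b
        have := hℓ.c1 t b
        have e : app 8 (fun j => W (N - 8 + j)) (tail ℓ t b) = app 8 (kapF e.cd) (tail ℓ t b) := by
          funext k; unfold app; split_ifs with hk
          · exact (hkap k hk).symm
          · rfl
        rw [e]; exact this
      · intro t b s hs
        have := hℓ.c2 t b s hs
        have e : app 8 (fun j => W (N - 8 + j)) (tail ℓ t b) = app 8 (kapF e.cd) (tail ℓ t b) := by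
          funext k; unfold app; split_ifs with hk
          · exact (hkap k hk).symm
          · rfl
        rw [e]; exact this
      · intro t b s hs hcon
        refine hℓ.c5 t b s hs ⟨fun j hj => ?_, hcon.2⟩
        rw [hkap j hj]; exact hcon.1 j hj
      · intro t b t' b' k hk hcon
        refine hℓ.c6 t b t' b' k hk ⟨fun j hj => ?_, hcon.2⟩
        rw [hkap j hj]; exact hcon.1 j hj
    have hbad' : Bad W N L := by
      intro ℓ hℓ
      exact hbad ℓ (hLK ℓ (hL.ok ℓ hℓ)) ℓ (by simp)
    -- loss
    have hV1 : (0 : ℕ) = code (fun j => gv W (N - 1 + j)) 1 := by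
      simp [code, hg]
    have hR1 : code (fun k => gv W (N - 1 - k)) n / 4
        = code (fun k => gv W (N - 1 - (k + 1))) (n - 1) := by
      obtain ⟨n', rfl⟩ : ∃ n', n = n' + 1 := ⟨n - 1, by omega⟩
      rw [code_div_four (fun i => gv_lt W _), Nat.add_sub_cancel]
    rw [hR1] at hle
    have hls := lossN_sound hW hnN e.T L (3 - gv W N) (cF e.cd) hcv hT (n - 1) 1 (le_refl _) (by omega)
    rw [← hV1] at hls
    obtain ⟨l1, l2⟩ := hls (by omega)
    have key := key_ineq hW hn hnN (κ := kapF e.cd) (c := cF e.cd) hkap hL hcW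
      (fun p hp1 hp2 hp3 hp4 => l1 p (by omega) hp2 hp3 hp4) hbad'
      (lossN e.T (3 - gv W N) (code (fun k => gv W (N - 1 - k)) n) (n - 1) 1 0
        (code (fun k => gv W (N - 1 - (k + 1))) (n - 1)))
      (by
        refine le_trans (le_of_eq ?_) l2
        apply Finset.sum_congr _ (fun _ _ => rfl)
        ext x
        simp only [Finset.mem_filter, Finset.mem_range, Finset.mem_Ico, VisP]
        constructor
        · rintro ⟨h1, h2⟩; exact ⟨⟨h2.1, h1⟩, h2⟩
        · rintro ⟨h1, h2⟩; exact ⟨h1.2, h2⟩)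
    have hsum' : ((e.g : ℚ) + 1050) ≤ (L.map (fun ℓ => (ℓ.w : ℚ))).sum := by
      have hq : (L.map (fun ℓ => (ℓ.w : ℚ))).sum = (((L.map (fun ℓ => ℓ.w)).sum : ℕ) : ℚ) := by
        rw [Nat.cast_list_sum, List.map_map]; rfl
      rw [hq]
      have : ((e.g + 1050 : ℕ) : ℚ) ≤ (((L.map (fun ℓ => ℓ.w)).sum : ℕ) : ℚ) := by exact_mod_cast hsum
      push_cast at this ⊢
      linarith
    have hle' : ((need : ℚ) + (lossN e.T (3 - gv W N) (code (fun k => gv W (N - 1 - k)) n) (n - 1) 1 0
        (code (fun k => gv W (N - 1 - (k + 1))) (n - 1)) : ℕ)) ≤ (e.g : ℚ) := by exact_mod_cast hle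
    linarith

end Pool.Agent.SqfBridge
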