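import Pool.Agent.SqfBridge.Konig

set_option autoImplicit false

namespace Pool.Agent.SqfBridge

lemma blk_length (a : Fin 3) (b : Bool) : (blk a b).length = 18 := by
  revert a b; decide

lemma blk_reverse (a : Fin 3) (b : Bool) : (blk a b).reverse = blk a (!b) := by
  revert a b; decide

lemma G_length (tb : List (Fin 3 × Bool)) : (G tb).length = 18 * tb.length := by
  induction tb with
  | nil => rfl
  | cons x tb ih =>
    rw [G, List.flatMap_cons, List.length_append, blk_length, ← G, ih, List.length_cons]
    ring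

lemma G_append (s t : List (Fin 3 × Bool)) : G (s ++ t) = G s ++ G t := List.flatMap_append

lemma G_reverse (tb : List (Fin 3 × Bool)) :
    (G tb).reverse = G ((tb.map fun x => (x.1, !x.2)).reverse) := by
  induction tb with
  | nil => rfl
  | cons x tb ih =>
    rw [G, List.flatMap_cons, List.reverse_append, ← G, ih, blk_reverse, List.map_cons,
      List.reverse_cons, G_append]
    congr 1
    simp [G]

lemma G_getD (tb : List (Fin 3 × Bool)) (q j : ℕ) (hq : q < tb.length) (hj : j < 18) :
    (G tb).getD (18 * q + j) 0 = (blk (tb.getD q (0, true)).1 (tb.getD q (0, true)).2).getD j 0 := by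
  induction tb generalizing q with
  | nil => simp at hq
  | cons x tb ih =>
    rw [G, List.flatMap_cons, ← G]
    cases q with
    | zero =>
      rw [Nat.mul_zero, Nat.zero_add, List.getD_append _ _ _ _ (by rw [blk_length]; exact hj)]
      rfl
    | succ q =>
      rw [List.getD_append_right _ _ _ _ (by rw [blk_length]; omega), blk_length]
      have : 18 * (q + 1) + j - 18 = 18 * q + j := by omega
      rw [this, ih q (by simpa using hq)]
      rfl

/-- a false block does not occur in two true blocks. -/
lemma no_copy : ∀ a c d : Fin 3, c ≠ d → ∀ o < 18, ∃ j < 18, (blk a false).getD j 0 ≠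
    if o + j < 18 then (blk c true).getD (o + j) 0 else (blk d true).getD (o + j - 18) 0 := by
  decide +kernel

/-- the window of an infinite word. -/
def win (W : ℕ → Fin 3) (s n : ℕ) : List (Fin 3) := (List.range n).map fun k => W (s + k)

lemma win_length (W : ℕ → Fin 3) (s n : ℕ) : (win W s n).length = n := by simp [win]

lemma win_getD (W : ℕ → Fin 3) (s n k : ℕ) (hk : k < n) : (win W s n).getD k 0 = W (s + k) := by
  rw [List.getD_eq_getElem _ _ (by simpa [win] using hk)]
  simp [win]

lemma win_sqf {W : ℕ → Fin 3} (hW : SF W) (s n : ℕ) : Sqf (win W s n) := by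
  apply sqf_of_SFto
  intro i p hp hi hs
  rw [win_length] at hi
  refine hW (s + i) p hp ?_
  intro j hj
  have h1 := hs j hj
  simp only [fn] at h1
  rw [win_getD _ _ _ _ (by omega), win_getD _ _ _ _ (by omega)] at h1
  rw [show s + i + j = s + (i + j) by ring, show s + i + p + j = s + (i + p + j) by ring]
  exact h1

lemma win_cons (W : ℕ → Fin 3) (s n : ℕ) : win W s (n + 1) = W s :: win W (s + 1) n := by
  rw [win, List.range_succ_eq_map, List.map_cons, List.map_map, win]
  congr 1
  apply List.map_congr_left
  intro k _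
  simp only [Function.comp_apply]
  congr 1
  omega

lemma win_snoc (W : ℕ → Fin 3) (s n : ℕ) : win W s (n + 1) = win W s n ++ [W (s + n)] := by
  rw [win, List.range_succ, List.map_append, win]
  rfl

lemma SF.ne {W : ℕ → Fin 3} (hW : SF W) (k : ℕ) : W k ≠ W (k + 1) := by
  intro h
  refine hW k 1 one_pos ?_
  intro j hj
  obtain rfl : j = 0 := by omega
  exact h

lemma four : ∀ x0 x1 x2 x3 a : Fin 3, x0 ≠ x1 → x1 ≠ x2 → x2 ≠ x3 → ¬ (x0 = x2 ∧ x1 = x3) →
    x0 = a ∨ x1 = a ∨ x2 = a ∨ x3 = a := by decide

lemma SF.occurs {W : ℕ → Fin 3} (hW : SF W) (a : Fin 3) (s : ℕ) : ∃ k, s ≤ k ∧ W k = a := by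
  have h := four (W s) (W (s + 1)) (W (s + 2)) (W (s + 3)) a (hW.ne s) (hW.ne (s + 1))
    (hW.ne (s + 2)) (by
      rintro ⟨h1, h2⟩
      refine hW s 2 two_pos ?_
      intro j hj
      interval_cases j
      · exact h1
      · exact h2)
  rcases h with h | h | h | h
  · exact ⟨_, le_rfl, h⟩
  · exact ⟨s + 1, by omega, h⟩
  · exact ⟨s + 2, by omega, h⟩
  · exact ⟨s + 3, by omega, h⟩

end Pool.Agent.SqfBridge
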