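import Pool.Agent.SqfBridge.Defs

set_option autoImplicit false

namespace Pool.Agent.SqfBridge

/-- `[N-p-a, N)` carries period `p` in `W`. -/
def Run (W : ℕ → Fin 3) (N p a : ℕ) : Prop :=
  p + a ≤ N ∧ ∀ i < N - p, N - p - a ≤ i → W i = W (i + p)

instance (W : ℕ → Fin 3) (N p a : ℕ) : Decidable (Run W N p a) := by
  unfold Run; infer_instance

/-- the maximal arm. -/
def arm (W : ℕ → Fin 3) (N p : ℕ) : ℕ := Nat.findGreatest (fun a => Run W N p a) N

theorem run_zero {W : ℕ → Fin 3} {N p : ℕ} (h : p ≤ N) : Run W N p 0 := by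
  refine ⟨by omega, fun i hi h2 => by omega⟩

theorem run_arm {W : ℕ → Fin 3} {N p : ℕ} (h : p ≤ N) : Run W N p (arm W N p) := by
  unfold arm
  exact Nat.findGreatest_spec (P := fun a => Run W N p a) (Nat.zero_le N) (run_zero h)

theorem run_mono {W : ℕ → Fin 3} {N p a b : ℕ} (h : Run W N p a) (hb : b ≤ a) : Run W N p b := by
  obtain ⟨h1, h2⟩ := h
  exact ⟨by omega, fun i hi h3 => h2 i hi (by omega)⟩

theorem le_arm {W : ℕ → Fin 3} {N p a : ℕ} (h : Run W N p a) : a ≤ arm W N p := by
  unfold arm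
  exact Nat.le_findGreatest (by have := h.1; omega) h

theorem run_iff {W : ℕ → Fin 3} {N p a : ℕ} (hp : p ≤ N) : Run W N p a ↔ a ≤ arm W N p :=
  ⟨le_arm, fun h => run_mono (run_arm hp) h⟩

theorem run_lt {W : ℕ → Fin 3} (hW : SF W) {N p a : ℕ} (hp : 0 < p) (h : Run W N p a) : a < p := by
  by_contra hc
  push Not at hc
  obtain ⟨h1, h2⟩ := h
  refine hW (N - p - p) p hp (fun j hj => ?_)
  have := h2 (N - p - p + j) (by omega) (by omega)
  rw [this]
  congr 1
  omega

theorem arm_lt {W : ℕ → Fin 3} (hW : SF W) {N p : ℕ} (hp : 0 < p) (h : p ≤ N) : arm W N p < p :=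
  run_lt hW hp (run_arm h)

/-- separation, smaller period on the left (or equal centres). -/
theorem sep_left {W : ℕ → Fin 3} (hW : SF W) {C p a C' q b : ℕ}
    (h1 : ∀ i < C, C - a ≤ i → W i = W (i + p)) (haC : a ≤ C)
    (h2 : ∀ i < C', C' - b ≤ i → W i = W (i + q)) (hbC : b ≤ C')
    (hbq : b < q) (hne : W C ≠ W (C + p))
    (hpq : p ≤ q) (hr : q - p ≤ a) (hCC : C ≤ C') (hdist : p ≠ q ∨ C ≠ C') :
    C + p + 1 ≤ C' + (q - b) := by
  by_contra hc
  push Not at hc
  rcases Nat.lt_or_ge p q with hlt | hge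
  · -- p < q
    refine hW (max (C - a) (C' - b) + p) (q - p) (by omega) (fun j hj => ?_)
    have e1 := h1 (max (C - a) (C' - b) + j) (by omega) (by omega)
    have e2 := h2 (max (C - a) (C' - b) + j) (by omega) (by omega)
    have e3 : max (C - a) (C' - b) + p + j = max (C - a) (C' - b) + j + p := by omega
    have e4 : max (C - a) (C' - b) + p + (q - p) + j = max (C - a) (C' - b) + j + q := by omega
    rw [e3, e4, ← e1, ← e2]
  · have hpq' : p = q := by omega
    subst hpq'
    exact hne (h2 C (by omega) (by omega))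

/-- separation, smaller period on the right. -/
theorem sep_right {W : ℕ → Fin 3} (hW : SF W) {C p a C' q b : ℕ}
    (h1 : ∀ i < C, C - a ≤ i → W i = W (i + p)) (haC : a ≤ C)
    (h2 : ∀ i < C', C' - b ≤ i → W i = W (i + q)) (hbC : b ≤ C')
    (hbq : b < q) (hne' : W C' ≠ W (C' + q))
    (hpq : p ≤ q) (hr : q - p ≤ a) (hr2 : (q - p) + (q - b) ≤ p)
    (hCC : C' ≤ C) (hdist : p ≠ q ∨ C ≠ C') :
    C' + a + 1 ≤ C := by
  by_contra hc
  push Not at hc
  rcases Nat.lt_or_ge p q with hlt | hge
  · refine hW (max (C - a) (C' - b + (q - p)) - (q - p)) (q - p) (by omega) (fun j hj => ?_)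
    have e1 := h1 (max (C - a) (C' - b + (q - p)) + j) (by omega) (by omega)
    have e2 := h2 (max (C - a) (C' - b + (q - p)) - (q - p) + j) (by omega) (by omega)
    have e3 : max (C - a) (C' - b + (q - p)) - (q - p) + (q - p) + j
        = max (C - a) (C' - b + (q - p)) + j := by omega
    have e4 : max (C - a) (C' - b + (q - p)) - (q - p) + j + q
        = max (C - a) (C' - b + (q - p)) + j + p := by omega
    rw [e3, e1, e2, e4]
  · have hpq' : p = q := by omega
    subst hpq'
    exact hne' (h1 C' (by omega) (by omega))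

/-- abstract counting lemma for separated weighted points. -/
theorem count_sep {ι : Type*} (E : Finset ι) (C D : ι → ℕ) (w : ι → ℚ) (ρ w0 : ℚ)
    (hρ : 0 ≤ ρ) (hw0 : 0 ≤ w0)
    (hsep : ∀ e ∈ E, ∀ e' ∈ E, e ≠ e' → C e ≤ C e' → C e + D e' ≤ C e')
    (hD : ∀ e ∈ E, 1 ≤ D e) (hw : ∀ e ∈ E, w e ≤ ρ * D e) (hwm : ∀ e ∈ E, w e ≤ w0) :
    ∀ T : ℕ, (∀ e ∈ E, C e < T) → ∑ e ∈ E, w e ≤ ρ * T + w0 := by
  classical
  induction' hn : E.card with n ih generalizing E
  · intro T hT
    rw [Finset.card_eq_zero] at hn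
    subst hn
    simp only [Finset.sum_empty]
    positivity
  · intro T hT
    have hne : E.Nonempty := by
      rw [← Finset.card_pos]; omega
    obtain ⟨e0, he0, hmax⟩ := Finset.exists_max_image E C hne
    have hsum : ∑ e ∈ E, w e = w e0 + ∑ e ∈ E.erase e0, w e := by
      rw [Finset.add_sum_erase E w he0]
    rw [hsum]
    by_cases hE : (E.erase e0).Nonempty
    · have hlt : ∀ e ∈ E.erase e0, C e < C e0 + 1 - D e0 := by
        intro e he
        have he' := Finset.mem_of_mem_erase he
        have hne' := Finset.ne_of_mem_erase he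
        have := hsep e he' e0 he0 hne' (hmax e he')
        have := hD e0 he0
        omega
      have hih := ih (E.erase e0)
        (fun e he e' he' => hsep e (Finset.mem_of_mem_erase he) e' (Finset.mem_of_mem_erase he'))
        (fun e he => hD e (Finset.mem_of_mem_erase he))
        (fun e he => hw e (Finset.mem_of_mem_erase he))
        (fun e he => hwm e (Finset.mem_of_mem_erase he))
        (by rw [Finset.card_erase_of_mem he0, hn]; simp) (C e0 + 1 - D e0) hlt
      obtain ⟨e1, he1⟩ := hE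
      have h5 := hlt e1 he1
      have h6 := hT e0 he0
      have h7 := hw e0 he0
      have hcast : ((C e0 + 1 - D e0 : ℕ) : ℚ) = (C e0 : ℚ) + 1 - D e0 := by
        rw [Nat.cast_sub (by omega)]; push_cast; ring
      rw [hcast] at hih
      have h8 : (C e0 : ℚ) + 1 ≤ T := by exact_mod_cast h6
      nlinarith
    · rw [Finset.not_nonempty_iff_eq_empty] at hE
      rw [hE, Finset.sum_empty, add_zero]
      have := hwm e0 he0
      have : (0 : ℚ) ≤ ρ * T := by positivity
      linarith

end Pool.Agent.SqfBridge
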