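import Pool.Agent.SqfBridge.LeafKern

set_option autoImplicit false

namespace Pool.Agent.SqfBridge

/-- square of period `p0 ≤ p < p0 + fuel` at the low end; `q = 4 ^ p0`. -/
noncomputable def sqf1 (X : Nat) (fuel : Nat) : Nat → Bool :=
  Nat.rec (motive := fun _ => Nat → Bool) (fun _ => false)
    (fun _ ih q => bt (Nat.beq (Nat.mod X q) (Nat.mod (Nat.div X q) q)) true
      (force (Nat.mul (nat_lit 4) q) ih)) fuel

/-- no square of period at most 34 starting among the first `fuel` digits. -/
noncomputable def shortChk (fuel : Nat) : Nat → Bool :=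
  Nat.rec (motive := fun _ => Nat → Bool) (fun _ => true)
    (fun _ ih X => bt (sqf1 X (nat_lit 34) (nat_lit 4)) false
      (force (Nat.div X (nat_lit 4)) ih)) fuel

noncomputable def shortW (x0 x1 x2 x3 x4 : Nat) (b0 b1 b2 b3 b4 : Bool) : Bool :=
  force (Nat.add (bc x0 b0) (Nat.add (Nat.mul (nat_lit 68719476736) (bc x1 b1))
    (Nat.add (Nat.mul (nat_lit 4722366482869645213696) (bc x2 b2))
    (Nat.add (Nat.mul (nat_lit 324518553658426726783156020576256) (bc x3 b3))
    (Nat.mul (nat_lit 22300745198530623141535718272648361505980416) (bc x4 b4))))))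
    (fun X => shortChk (nat_lit 18) X)

noncomputable def all2 (f : Bool → Bool) : Bool := bt (f true) (f false) false

noncomputable def all3 (x : Nat) (f : Nat → Bool) : Bool :=
  bt (bt (Nat.beq x (nat_lit 0)) true (f (nat_lit 0)))
    (bt (bt (Nat.beq x (nat_lit 1)) true (f (nat_lit 1)))
      (bt (Nat.beq x (nat_lit 2)) true (f (nat_lit 2))) false) false

noncomputable def shortAll : Bool :=
  all3 (nat_lit 0) fun x1 => all3 x1 fun x2 => all3 x2 fun x3 => all3 x3 fun x4 =>
    all2 fun b0 => all2 fun b1 => all2 fun b2 => all2 fun b3 => all2 fun b4 =>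
      shortW (nat_lit 0) x1 x2 x3 x4 b0 b1 b2 b3 b4

theorem shortAll_true : shortAll = true := by decide +kernel

end Pool.Agent.SqfBridge
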