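import Pool.Agent.SqfBridge.Words
import Pool.Agent.SqfBridge.Digits
import Pool.Agent.SqfBridge.SubstKern

set_option autoImplicit false

namespace Pool.Agent.SqfBridge

theorem sk_bt {α : Type} (c : Bool) (a b : α) : bt c a b = if c = true then a else b := by
  cases c <;> rfl

theorem sk_force {α : Type} (x : ℕ) (k : ℕ → α) : force x k = k x := by
  cases x <;> rfl

theorem sk_and {c x : Bool} (h : bt c x false = true) : c = true ∧ x = true := by
  rw [sk_bt] at h
  split_ifs at h with h1
  exact ⟨h1, h⟩

theorem sk_nand {c x : Bool} (h : bt c false x = true) : c = false ∧ x = true := by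
  rw [sk_bt] at h
  split_ifs at h with h1
  exact ⟨by simpa using h1, h⟩

theorem sk_or {c x : Bool} (h : bt c true x = true) : c = true ∨ x = true := by
  rw [sk_bt] at h
  split_ifs at h with h1
  · exact Or.inl h1
  · exact Or.inr h

theorem sk_code_add (g : ℕ → ℕ) (m n : ℕ) :
    code g (m + n) = code g m + 4 ^ m * code (fun i => g (m + i)) n := by
  induction n with
  | zero => simp [code]
  | succ n ih =>
    rw [← Nat.add_assoc, code, ih, code, pow_add]
    ring

theorem bc_code (a : Fin 3) (b : Bool) :
    bc a.val b = code (fun k => ((blk a b).getD k 0).val) 18 := by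
  revert a b
  decide +kernel

theorem sqf1_succ (X f q : ℕ) : sqf1 X (f + 1) q
    = bt (Nat.beq (X % q) (X / q % q)) true (sqf1 X f (4 * q)) := by
  have h : sqf1 X (f + 1) q
    = bt (Nat.beq (X % q) (X / q % q)) true (force (4 * q) (sqf1 X f)) := rfl
  rw [h, sk_force]

theorem sqf1_complete (X f p0 : ℕ) (h : sqf1 X f (4 ^ p0) = false) :
    ∀ p, p0 ≤ p → p < p0 + f → X % 4 ^ p ≠ X / 4 ^ p % 4 ^ p := by
  induction f generalizing p0 with
  | zero => intro p h1 h2; omega
  | succ f ih =>
    intro p h1 h2
    rw [sqf1_succ, sk_bt] at h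
    split_ifs at h with h3
    rcases Nat.eq_or_lt_of_le h1 with h4 | h4
    · subst h4
      intro hc
      exact h3 (by rw [hc]; exact Nat.beq_refl _)
    · have e : 4 * 4 ^ p0 = 4 ^ (p0 + 1) := by rw [pow_succ]; ring
      rw [e] at h
      exact ih (p0 + 1) h p h4 (by omega)

theorem shortChk_succ (f X : ℕ) :
    shortChk (f + 1) X = bt (sqf1 X 34 4) false (shortChk f (X / 4)) := by
  have h : shortChk (f + 1) X = bt (sqf1 X 34 4) false (force (X / 4) (shortChk f)) := rfl
  rw [h, sk_force]

theorem shortChk_sound (f X : ℕ) (h : shortChk f X = true) :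
    ∀ r < f, sqf1 (X / 4 ^ r) 34 4 = false := by
  induction f generalizing X with
  | zero => intro r hr; omega
  | succ f ih =>
    intro r hr
    rw [shortChk_succ] at h
    obtain ⟨h1, h2⟩ := sk_nand h
    cases r with
    | zero => simpa using h1
    | succ r =>
      have := ih _ h2 r (by omega)
      rw [Nat.div_div_eq_div_mul, ← Nat.pow_succ'] at this
      exact this

theorem all2_true {f : Bool → Bool} (h : all2 f = true) (b : Bool) : f b = true := by
  have h' : bt (f true) (f false) false = true := h
  obtain ⟨h1, h2⟩ := sk_and h'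
  cases b
  · exact h2
  · exact h1

theorem all3_true {x : ℕ} {f : ℕ → Bool} (h : all3 x f = true) (y : Fin 3) (hy : x ≠ y.val) :
    f y.val = true := by
  have h' : bt (bt (Nat.beq x 0) true (f 0))
    (bt (bt (Nat.beq x 1) true (f 1)) (bt (Nat.beq x 2) true (f 2)) false) false = true := h
  obtain ⟨h1, h2⟩ := sk_and h'
  obtain ⟨h3, h4⟩ := sk_and h2
  have key : ∀ z, x ≠ z → bt (Nat.beq x z) true (f z) = true → f z = true := by
    intro z hz hh
    rcases sk_or hh with h5 | h5
    · exact (hz (Nat.eq_of_beq_eq_true h5)).elim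
    · exact h5
  have hcase : y.val = 0 ∨ y.val = 1 ∨ y.val = 2 := by omega
  rcases hcase with h5 | h5 | h5
  · rw [h5] at hy ⊢; exact key 0 hy h1
  · rw [h5] at hy ⊢; exact key 1 hy h3
  · rw [h5] at hy ⊢; exact key 2 hy h4

theorem code_block (t : ℕ → Fin 3) (b : ℕ → Bool) (q : ℕ) :
    code (fun i => (Gf t b (18 * q + i)).val) 18 = bc (t q).val (b q) := by
  rw [bc_code]
  apply code_congr
  intro k hk
  show (Gf t b (18 * q + k)).val = _
  unfold Gf
  have e1 : (18 * q + k) / 18 = q := by omega
  have e2 : (18 * q + k) % 18 = k := by omega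
  rw [e1, e2]

theorem code_five (t : ℕ → Fin 3) (b : ℕ → Bool) :
    code (fun k => (Gf t b k).val) 90 =
      bc (t 0).val (b 0) + (68719476736 * bc (t 1).val (b 1) +
      (4722366482869645213696 * bc (t 2).val (b 2) +
      (324518553658426726783156020576256 * bc (t 3).val (b 3) +
      22300745198530623141535718272648361505980416 * bc (t 4).val (b 4)))) := by
  have h0 := code_block t b 0
  have h1 := code_block t b 1
  have h2 := code_block t b 2
  have h3 := code_block t b 3
  have h4 := code_block t b 4
  simp only [Nat.mul_zero, Nat.zero_add, Nat.mul_one, Nat.reduceMul] at h0 h1 h2 h3 h4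
  have a1 := sk_code_add (fun k => (Gf t b k).val) 18 72
  have a2 := sk_code_add (fun i => (Gf t b (18 + i)).val) 18 54
  have a3 := sk_code_add (fun i => (Gf t b (36 + i)).val) 18 36
  have a4 := sk_code_add (fun i => (Gf t b (54 + i)).val) 18 18
  have c2 : (fun i => (Gf t b (18 + (18 + i))).val) = (fun i => (Gf t b (36 + i)).val) := by
    funext i; congr 2; omega
  have c3 : (fun i => (Gf t b (36 + (18 + i))).val) = (fun i => (Gf t b (54 + i)).val) := by
    funext i; congr 2; omega
  have c4 : (fun i => (Gf t b (54 + (18 + i))).val) = (fun i => (Gf t b (72 + i)).val) := by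
    funext i; congr 2; omega
  simp only [c2] at a2
  simp only [c3] at a3
  simp only [c4] at a4
  norm_num at a1 a2 a3 a4
  rw [a1, a2, a3, a4, h0, h1, h2, h3, h4]
  ring

theorem shortW_eq (x0 x1 x2 x3 x4 : ℕ) (b0 b1 b2 b3 b4 : Bool) :
    shortW x0 x1 x2 x3 x4 b0 b1 b2 b3 b4 = shortChk 18
      (bc x0 b0 + (68719476736 * bc x1 b1 + (4722366482869645213696 * bc x2 b2 +
      (324518553658426726783156020576256 * bc x3 b3 +
      22300745198530623141535718272648361505980416 * bc x4 b4)))) := by
  have h : shortW x0 x1 x2 x3 x4 b0 b1 b2 b3 b4 = force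
      (bc x0 b0 + (68719476736 * bc x1 b1 + (4722366482869645213696 * bc x2 b2 +
      (324518553658426726783156020576256 * bc x3 b3 +
      22300745198530623141535718272648361505980416 * bc x4 b4)))) (fun X => shortChk 18 X) := rfl
  rw [h, sk_force]

theorem short_ok0 (t : ℕ → Fin 3) (b : ℕ → Bool) (h0 : t 0 = 0)
    (hadj : ∀ i < 4, t i ≠ t (i + 1)) (r p : ℕ) (hr : r < 18) (hp : 0 < p) (hp34 : p ≤ 34) :
    ¬ SqAt (Gf t b) r p := by
  intro hsq
  have hne : ∀ i < 4, (t i).val ≠ (t (i + 1)).val := fun i hi hc => hadj i hi (Fin.ext hc)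
  have s0 := shortAll_true
  have n0 := hne 0 (by norm_num)
  rw [h0] at n0
  have s1 := all3_true s0 (t 1) n0
  have s2 := all3_true s1 (t 2) (hne 1 (by norm_num))
  have s3 := all3_true s2 (t 3) (hne 2 (by norm_num))
  have s4 := all3_true s3 (t 4) (hne 3 (by norm_num))
  have s5 := all2_true s4 (b 0)
  have s6 := all2_true s5 (b 1)
  have s7 := all2_true s6 (b 2)
  have s8 := all2_true s7 (b 3)
  have s9 := all2_true s8 (b 4)
  have s10 : shortW (t 0).val (t 1).val (t 2).val (t 3).val (t 4).val (b 0) (b 1) (b 2) (b 3) (b 4)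
      = true := by
    rw [h0]; exact s9
  rw [shortW_eq, ← code_five] at s10
  have s11 := shortChk_sound 18 _ s10 r hr
  have hg : ∀ i, (fun k => (Gf t b k).val) i < 4 := fun i => by
    show (Gf t b i).val < 4
    omega
  have e4 : (4 : ℕ) = 4 ^ 1 := by norm_num
  have s12 := sqf1_complete _ 34 1 (by rw [← e4]; exact s11) p hp (by omega)
  apply s12
  obtain ⟨m, hm⟩ : ∃ m, 90 = (m + p + p) + r := ⟨90 - r - p - p, by omega⟩
  rw [hm, code_div hg, code_mod (fun i => hg _), code_div (fun i => hg _),
    code_mod (fun i => hg _)]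
  apply code_congr
  intro j hj
  show (Gf t b (j + r)).val = (Gf t b (j + p + r)).val
  have := hsq j hj
  have f1 : j + r = r + j := by omega
  have f2 : j + p + r = r + p + j := by omega
  rw [f1, f2, this]

theorem short_ok (t : ℕ → Fin 3) (b : ℕ → Bool) (hadj : ∀ i, t i ≠ t (i + 1)) (i p : ℕ)
    (hp : 0 < p) (hp34 : p ≤ 34) : ¬ SqAt (Gf t b) i p := by
  intro hsq
  refine short_ok0 (fun k => t (i / 18 + k) - t (i / 18)) (fun k => b (i / 18 + k))
    (by simp) (fun k _ hc => hadj (i / 18 + k) (sub_left_injective hc)) (i % 18) p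
    (Nat.mod_lt _ (by norm_num)) hp hp34 (fun j hj => ?_)
  have key : ∀ k, Gf (fun k => t (i / 18 + k) - t (i / 18)) (fun k => b (i / 18 + k)) (i % 18 + k)
      = Gf t b (i + k) - t (i / 18) := by
    intro k
    rw [eq_sub_iff_add_eq, ← Gf_shift]
    unfold Gf
    have e1 : (i + k) / 18 = i / 18 + (i % 18 + k) / 18 := by omega
    have e2 : (i + k) % 18 = (i % 18 + k) % 18 := by omega
    rw [e1, e2]
    simp only [sub_add_cancel]
  have := hsq j hj
  rw [key, Nat.add_assoc, key, this, Nat.add_assoc]

theorem occ_check : ∀ a x y : Fin 3, x ≠ y → ∀ β β1 β2 : Bool, ∀ r : Fin 18, r ≠ 0 →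
    ∃ s : Fin 18, (blk a β).getD s.val 0 ≠ (blk x β1 ++ blk y β2).getD (r.val + s.val) 0 := by
  decide +kernel

theorem blk_head (a : Fin 3) (b : Bool) : (blk a b).getD 0 0 = a := by
  revert a b; decide

/-- a block occurs in a word of blocks with distinct neighbours only at block boundaries. -/
theorem occ_aligned {t : ℕ → Fin 3} {b : ℕ → Bool} {a : Fin 3} {β : Bool} {k : ℕ}
    (hadj : t (k / 18) ≠ t (k / 18 + 1)) (h : ∀ s < 18, Gf t b (k + s) = (blk a β).getD s 0) :
    k % 18 = 0 := by
  by_contra hr
  obtain ⟨s, hs⟩ := occ_check a (t (k / 18)) (t (k / 18 + 1)) hadj β (b (k / 18)) (b (k / 18 + 1))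
    ⟨k % 18, Nat.mod_lt _ (by norm_num)⟩ (fun hc => hr (congrArg Fin.val hc))
  apply hs
  rw [← h s.val s.isLt]
  show Gf t b (k + s.val) = (blk (t (k / 18)) (b (k / 18)) ++ blk (t (k / 18 + 1))
    (b (k / 18 + 1))).getD (k % 18 + s.val) 0
  have hslt := s.isLt
  unfold Gf
  rcases Nat.lt_or_ge (k % 18 + s.val) 18 with h1 | h1
  · have e1 : (k + s.val) / 18 = k / 18 := by omega
    have e2 : (k + s.val) % 18 = k % 18 + s.val := by omega
    rw [e1, e2, List.getD_append _ _ _ _ (by rw [blk_length]; exact h1)]
  · have e1 : (k + s.val) / 18 = k / 18 + 1 := by omega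
    have e2 : (k + s.val) % 18 = k % 18 + s.val - 18 := by omega
    rw [e1, e2, List.getD_append_right _ _ _ _ (by rw [blk_length]; exact h1), blk_length]

theorem Gf_sf (t : ℕ → Fin 3) (b : ℕ → Bool) (n : ℕ) (h01 : t 0 ≠ t 1)
    (ht : SFto (fun i => t (i+1)) n) : ∀ i p, 0 < p → 1 ≤ i → i + 2*p ≤ 18*(n+1) →
      ¬ SqAt (Gf t b) i p := by
  intro i p hp hi hlen hsq
  have hadj : ∀ k < n, t k ≠ t (k + 1) := by
    intro k hk
    cases k with
    | zero => exact h01
    | succ k =>
      intro hc
      refine ht k 1 (by norm_num) (by omega) (fun j hj => ?_)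
      have : j = 0 := by omega
      subst this
      exact hc
  rcases Nat.lt_or_ge 34 p with h34 | h34
  · -- long periods
    have hcop : ∀ k, i ≤ k → k < i + p → Gf t b k = Gf t b (k + p) := by
      intro k h1 h2
      have := hsq (k - i) (by omega)
      have e1 : i + (k - i) = k := by omega
      have e2 : i + p + (k - i) = k + p := by omega
      rw [e1, e2] at this
      exact this
    have hmod : (18 * ((i + 17) / 18) + p) % 18 = 0 := by
      by_cases hz : (18 * ((i + 17) / 18) + p) / 18 < n
      · refine occ_aligned (t := t) (b := b) (a := t ((i + 17) / 18)) (β := b ((i + 17) / 18))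
          (k := 18 * ((i + 17) / 18) + p) (hadj _ hz) ?_
        intro s hs
        have := hcop (18 * ((i + 17) / 18) + s) (by omega) (by omega)
        have e : 18 * ((i + 17) / 18) + p + s = 18 * ((i + 17) / 18) + s + p := by omega
        rw [e, ← this]
        unfold Gf
        have e1 : (18 * ((i + 17) / 18) + s) / 18 = (i + 17) / 18 := by omega
        have e2 : (18 * ((i + 17) / 18) + s) % 18 = s := by omega
        rw [e1, e2]
      · omega
    obtain ⟨κ, rfl⟩ : ∃ κ, p = 18 * κ := ⟨p / 18, by omega⟩
    refine ht ((i + 17) / 18 - 1) κ (by omega) (by omega) (fun s hs => ?_)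
    have := hcop (18 * ((i + 17) / 18 + s)) (by omega) (by omega)
    have f : ∀ q, Gf t b (18 * q) = t q := by
      intro q
      unfold Gf
      have e1 : 18 * q / 18 = q := by omega
      have e2 : 18 * q % 18 = 0 := by omega
      rw [e1, e2, blk_head]
    have e : 18 * ((i + 17) / 18 + s) + 18 * κ = 18 * ((i + 17) / 18 + s + κ) := by ring
    rw [e, f, f] at this
    show t ((i + 17) / 18 - 1 + s + 1) = t ((i + 17) / 18 - 1 + κ + s + 1)
    have e1 : (i + 17) / 18 - 1 + s + 1 = (i + 17) / 18 + s := by omega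
    have e2 : (i + 17) / 18 - 1 + κ + s + 1 = (i + 17) / 18 + s + κ := by omega
    rw [e1, e2]
    exact this
  · -- short periods
    let t' : ℕ → Fin 3 := fun k => if k ≤ n then t k else if (k - n) % 2 = 1 then t n + 1 else t n
    have ht' : ∀ k, k ≤ n → t' k = t k := by
      intro k hk
      simp only [t']
      rw [if_pos hk]
    have ho : ∀ k, n ≤ k → (k - n) % 2 = 1 → t' k = t n + 1 := by
      intro k hk h2
      simp only [t']
      rw [if_neg (by omega), if_pos h2]
    have he : ∀ k, n ≤ k → (k - n) % 2 = 0 → t' k = t n := by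
      intro k hk h2
      rcases Nat.eq_or_lt_of_le hk with h3 | h3
      · rw [← h3]; exact ht' n (le_refl _)
      · simp only [t']
        rw [if_neg (by omega), if_neg (by omega)]
    have hne : t n ≠ t n + 1 := by
      generalize t n = z
      revert z
      decide
    have hadj' : ∀ k, t' k ≠ t' (k + 1) := by
      intro k
      rcases Nat.lt_or_ge k n with h | h
      · rw [ht' k (by omega), ht' (k + 1) (by omega)]
        exact hadj k h
      · have hcase : (k - n) % 2 = 0 ∨ (k - n) % 2 = 1 := by omega
        rcases hcase with h5 | h5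
        · rw [he k h h5, ho (k + 1) (by omega) (by omega)]
          exact hne
        · rw [ho k h h5, he (k + 1) (by omega) (by omega)]
          exact hne.symm
    refine short_ok t' b hadj' i p hp (by omega) (fun j hj => ?_)
    have hG : ∀ k, k < 18 * (n + 1) → Gf t' b k = Gf t b k := by
      intro k hk
      unfold Gf
      rw [ht' _ (by omega)]
    rw [hG _ (by omega), hG _ (by omega)]
    exact hsq j hj

/-- the image of a squarefree word is squarefree. -/
theorem G_sqf (tb : List (Fin 3 × Bool)) (h : Sqf (tb.map Prod.fst)) : Sqf (G tb) := by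
  rw [sqf_iff_SFto (f := Gf (fun i => (tb.getD i (0, false)).1) (fun i => (tb.getD i (0, false)).2))
    (n := 18 * tb.length) (G_length tb) (fun k hk => G_getD tb k hk)]
  intro i p hp hi hsq
  have h1 : SFto (fun i => (tb.getD i (0, false)).1) tb.length := by
    rw [sqf_iff_SFto (n := tb.length) (by simp)] at h
    · exact h
    · intro k hk
      rw [List.getD_eq_getElem _ _ (by simpa using hk), List.getElem_map,
        List.getD_eq_getElem _ _ hk]
  have key := Gf_sf
    (fun i => if i = 0 then (tb.getD 0 (0, false)).1 + 1 else (tb.getD (i - 1) (0, false)).1)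
    (fun i => if i = 0 then false else (tb.getD (i - 1) (0, false)).2) tb.length
    (by
      show (tb.getD 0 (0, false)).1 + 1 ≠ (tb.getD 0 (0, false)).1
      generalize (tb.getD 0 (0, false)).1 = z
      revert z
      decide)
    (by simpa using h1) (i + 18) p hp (by omega) (by omega)
  apply key
  intro j hj
  have e : ∀ k, Gf
    (fun i => if i = 0 then (tb.getD 0 (0, false)).1 + 1 else (tb.getD (i - 1) (0, false)).1)
    (fun i => if i = 0 then false else (tb.getD (i - 1) (0, false)).2) (k + 18)
    = Gf (fun i => (tb.getD i (0, false)).1) (fun i => (tb.getD i (0, false)).2) k := by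
    intro k
    unfold Gf
    have e1 : (k + 18) / 18 = k / 18 + 1 := by omega
    have e2 : (k + 18) % 18 = k % 18 := by omega
    rw [e1, e2]
    simp
  have f1 : i + 18 + j = i + j + 18 := by omega
  have f2 : i + 18 + p + j = i + p + j + 18 := by omega
  rw [f1, f2, e, e]
  exact hsq j hj

end Pool.Agent.SqfBridge
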