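import Pool.Agent.SqfBridge.Subst
import Pool.Agent.SqfBridge.LeafData
import Pool.Agent.SqfBridge.Sep

set_option autoImplicit false

namespace Pool.Agent.SqfBridge

def fcons {α : Type} (a : α) (f : ℕ → α) : ℕ → α
  | 0 => a
  | n + 1 => f n

/-- base-4 digit. -/
def dig (X i : ℕ) : ℕ := X / 4 ^ i % 4

def toF (x : ℕ) : Fin 3 := Fin.ofNat 3 x

def Leaf.st (ℓ : Leaf) (t : ℕ → Fin 3) : ℕ → Fin 3 := fcons (toF ℓ.t1) (fcons (toF ℓ.t0) t)

def Leaf.sb (ℓ : Leaf) (b : ℕ → Bool) : ℕ → Bool := fcons ℓ.b1 (fcons ℓ.b0 b)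

def tail (ℓ : Leaf) (t : ℕ → Fin 3) (b : ℕ → Bool) (k : ℕ) : Fin 3 :=
  if k < 19 then toF (dig ℓ.yl k) else Gf (ℓ.st t) (ℓ.sb b) (ℓ.o + (k - 19))

/-- the first `n` letters of `κ`, then `x`. -/
def app (n : ℕ) (κ x : ℕ → Fin 3) (k : ℕ) : Fin 3 := if k < n then κ k else x (k - n)

structure LeafOK (κ : ℕ → Fin 3) (c : Fin 3) (ℓ : Leaf) : Prop where
  ho1 : 1 ≤ ℓ.o
  ho2 : ℓ.o ≤ 23
  ht : toF ℓ.t1 ≠ toF ℓ.t0
  h0 : toF (dig ℓ.yl 0) = c
  c1 : ∀ t b, SFto (app 8 κ (tail ℓ t b)) (63 - ℓ.o)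
  c2 : ∀ t b s, s + (26 - ℓ.o) ≤ 37 →
    ¬ ∀ j < 26 - ℓ.o, app 8 κ (tail ℓ t b) (37 + j) = app 8 κ (tail ℓ t b) (s + j)
  c3 : ∀ t b t' b' k, t' (k / 18) ≠ t' (k / 18 + 1) →
    ¬ ∀ j < 12, Gf t' b' (k + j) = tail ℓ t b (18 + j)
  c5 : ∀ t b s, s + 9 ≤ 32 →
    ¬ ((∀ j < 8, tail ℓ t b (s + j) = κ j) ∧ tail ℓ t b (s + 8) = c)
  c6 : ∀ t b t' b' k, t' (k / 18) ≠ t' (k / 18 + 1) →
    ¬ ((∀ j < 8, Gf t' b' (k + j) = κ j) ∧ ∀ j < 11, Gf t' b' (k + 8 + j) = tail ℓ t b j)

/-- adjacent letters of `t0 t` differ. -/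
def AdjT (ℓ : Leaf) (t : ℕ → Fin 3) : Prop :=
  ∀ i, fcons (toF ℓ.t0) t i ≠ fcons (toF ℓ.t0) t (i + 1)

theorem st_adj {κ : ℕ → Fin 3} {c : Fin 3} {ℓ : Leaf} (h : LeafOK κ c ℓ) {t : ℕ → Fin 3}
    (ha : AdjT ℓ t) (i : ℕ) : ℓ.st t i ≠ ℓ.st t (i + 1) := by
  cases i with
  | zero => exact h.ht
  | succ n => exact ha n

theorem tail_ge {ℓ : Leaf} {t : ℕ → Fin 3} {b : ℕ → Bool} {k : ℕ} (h : 19 ≤ k) :
    tail ℓ t b k = Gf (ℓ.st t) (ℓ.sb b) (ℓ.o + (k - 19)) := by
  unfold tail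
  rw [if_neg (by omega)]

theorem tail_sf {κ : ℕ → Fin 3} {c : Fin 3} {ℓ : Leaf} (h : LeafOK κ c ℓ) (t : ℕ → Fin 3)
    (b : ℕ → Bool) (n : ℕ) (ha : AdjT ℓ t) (hsf : SFto (fcons (toF ℓ.t0) t) (n + 1)) :
    SFto (app 8 κ (tail ℓ t b)) (63 - ℓ.o + 18 * n) := by
  intro i p hp hlen hsq
  have ho1 := h.ho1
  have ho2 := h.ho2
  have hX : ∀ k, 27 ≤ k → app 8 κ (tail ℓ t b) k = Gf (ℓ.st t) (ℓ.sb b) (ℓ.o + (k - 27)) := by
    intro k hk
    unfold app
    rw [if_neg (by omega), tail_ge (by omega)]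
    congr 1
  have hX2 : ∀ j, app 8 κ (tail ℓ t b) (26 + j) = tail ℓ t b (18 + j) := by
    intro j
    unfold app
    rw [if_neg (by omega)]
    congr 1
    omega
  rcases Nat.lt_or_ge i 27 with hi | hi
  · rcases Nat.lt_or_ge (63 - ℓ.o) (i + 2 * p) with h2 | h2
    · rcases Nat.lt_or_ge (i + p) 38 with h3 | h3
      · -- E2 copied into the beginning
        refine h.c2 t b (37 - p) (by omega) (fun j hj => ?_)
        have := hsq (37 + j - p - i) (by omega)
        have e1 : i + (37 + j - p - i) = 37 - p + j := by omega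
        have e2 : i + p + (37 + j - p - i) = 37 + j := by omega
        rw [e1, e2] at this
        exact this.symm
      · refine h.c3 t b (ℓ.st t) (ℓ.sb b) (ℓ.o + p - 1) (st_adj h ha _) (fun j hj => ?_)
        have := hsq (26 + j - i) (by omega)
        have e1 : i + (26 + j - i) = 26 + j := by omega
        have e2 : i + p + (26 + j - i) = 26 + p + j := by omega
        rw [e1, e2, hX2, hX _ (by omega)] at this
        rw [this]
        congr 1
        omega
    · exact h.c1 t b i p hp h2 hsq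
  · refine Gf_sf (ℓ.st t) (ℓ.sb b) (n + 1) (st_adj h ha 0) hsf (ℓ.o + (i - 27)) p hp (by omega)
      (by omega) (fun j hj => ?_)
    have := hsq j hj
    rw [hX _ (by omega), hX _ (by omega)] at this
    have e1 : ℓ.o + (i - 27) + j = ℓ.o + (i + j - 27) := by omega
    have e2 : ℓ.o + (i - 27) + p + j = ℓ.o + (i + p + j - 27) := by omega
    rw [e1, e2]
    exact this

/-- first `N` letters of `W`, then `x` -/
theorem classify {W : ℕ → Fin 3} (hW : SF W) {N : ℕ} (hN : 8 ≤ N) {x κ : ℕ → Fin 3}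
    (hκ : ∀ j < 8, κ j = W (N - 8 + j)) {M : ℕ} (hx : SFto (app 8 κ x) (8 + M)) {i p : ℕ}
    (hp : 0 < p) (hlen : i + 2 * p ≤ N + M) (hsq : SqAt (app N W x) i p) :
    (p ≤ N ∧ 9 ≤ p + arm W N p ∧ ∀ j < p - arm W N p, x j = W (N - p + j)) ∨
    (∃ j0, 1 ≤ j0 ∧ j0 + 8 < p ∧ p ≤ N + j0 ∧ (∀ k, j0 ≤ k → k < p → W (N + k - p) = x k) ∧
      (∀ k < j0, x (p + k) = x k)) := by
  have hlt : ∀ k, k < N → app N W x k = W k := by
    intro k hk; unfold app; rw [if_pos hk]
  have hge : ∀ k, app N W x (N + k) = x k := by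
    intro k; unfold app; rw [if_neg (by omega)]; congr 1; omega
  -- not inside W
  have h1 : N < i + 2 * p := by
    by_contra hc
    push Not at hc
    refine hW i p hp (fun j hj => ?_)
    have := hsq j hj
    rw [hlt _ (by omega), hlt _ (by omega)] at this
    exact this
  -- not inside κ x
  have h2 : i + 8 < N := by
    by_contra hc
    push Not at hc
    refine hx (i - (N - 8)) p hp (by omega) (fun j hj => ?_)
    have hh : ∀ k, N - 8 ≤ k → app 8 κ x (k - (N - 8)) = app N W x k := by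
      intro k hk
      unfold app
      by_cases h8 : k < N
      · rw [if_pos (by omega), if_pos h8, hκ _ (by omega)]
        congr 1; omega
      · rw [if_neg (by omega), if_neg h8]
        congr 1; omega
    have e1 : i - (N - 8) + j = i + j - (N - 8) := by omega
    have e2 : i - (N - 8) + p + j = i + p + j - (N - 8) := by omega
    rw [e1, e2, hh _ (by omega), hh _ (by omega)]
    exact hsq j hj
  rcases Nat.lt_or_ge N (i + p) with h3 | h3
  · right
    refine ⟨i + p - N, by omega, by omega, by omega, ?_, ?_⟩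
    · intro k hk1 hk2
      have := hsq (k - (i + p - N)) (by omega)
      have e1 : i + (k - (i + p - N)) = N + k - p := by omega
      have e2 : i + p + (k - (i + p - N)) = N + k := by omega
      rw [e1, e2, hlt _ (by omega), hge] at this
      exact this
    · intro k hk
      have := hsq (N - i + k) (by omega)
      have e1 : i + (N - i + k) = N + k := by omega
      have e2 : i + p + (N - i + k) = N + (p + k) := by omega
      rw [e1, e2, hge, hge] at this
      exact this.symm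
  · left
    have hrun : Run W N p (N - i - p) := by
      refine ⟨by omega, fun k hk1 hk2 => ?_⟩
      have := hsq (k - i) (by omega)
      have e1 : i + (k - i) = k := by omega
      have e2 : i + p + (k - i) = k + p := by omega
      rw [e1, e2, hlt _ (by omega), hlt _ (by omega)] at this
      exact this
    have harm := le_arm hrun
    refine ⟨by omega, by omega, fun j hj => ?_⟩
    have := hsq (N + j - p - i) (by omega)
    have e1 : i + (N + j - p - i) = N - p + j := by omega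
    have e2 : i + p + (N + j - p - i) = N + j := by omega
    rw [e1, e2, hlt _ (by omega), hge] at this
    exact this.symm

end Pool.Agent.SqfBridge
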