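import Pool.Agent.SqfBridge.Defs

set_option autoImplicit false

namespace Pool.Agent.SqfBridge

theorem SFto_congr {f g : ℕ → Fin 3} {n : ℕ} (h : ∀ k < n, f k = g k) : SFto f n ↔ SFto g n := by
  constructor
  · intro hf i p hp hi hs
    refine hf i p hp hi (fun j hj => ?_)
    rw [h _ (by omega), h _ (by omega)]
    exact hs j hj
  · intro hf i p hp hi hs
    refine hf i p hp hi (fun j hj => ?_)
    rw [← h _ (by omega), ← h _ (by omega)]
    exact hs j hj

theorem SFto_shift {f : ℕ → Fin 3} {n : ℕ} (a : Fin 3) :
    SFto (fun k => f k + a) n ↔ SFto f n := by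
  constructor
  · intro hf i p hp hi hs
    refine hf i p hp hi (fun j hj => ?_)
    show f (i + j) + a = f (i + p + j) + a
    rw [hs j hj]
  · intro hf i p hp hi hs
    refine hf i p hp hi (fun j hj => ?_)
    exact add_right_cancel (hs j hj)

theorem SFto_mono {f : ℕ → Fin 3} {n m : ℕ} (h : SFto f n) (hm : m ≤ n) : SFto f m :=
  fun i p hp hi => h i p hp (by omega)

theorem sqf_iff (l : List (Fin 3)) : Sqf l ↔ SFto (fun k => l.getD k 0) l.length := by
  constructor
  · intro h i p hp hi hs
    refine h (l.take i) ((l.drop i).take p) (l.drop (i + 2 * p)) ?_ ?_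
    · intro hc
      have := congrArg List.length hc
      simp only [List.length_take, List.length_drop, List.length_nil] at this
      omega
    · have e : (l.drop i).take p = (l.drop (i + p)).take p := by
        apply List.ext_getElem
        · simp only [List.length_take, List.length_drop]; omega
        · intro j h1 h2
          simp only [List.length_take, List.length_drop] at h1 h2
          simp only [List.getElem_take, List.getElem_drop]
          have := hs j (by omega)
          simp only at this
          rw [List.getD_eq_getElem _ _ (by omega), List.getD_eq_getElem _ _ (by omega)] at this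
          exact this
      have e1 : l = l.take i ++ l.drop i := (List.take_append_drop i l).symm
      have e2 : l.drop i = (l.drop i).take p ++ (l.drop i).drop p := (List.take_append_drop p _).symm
      have e3 : (l.drop i).drop p = l.drop (i + p) := by rw [List.drop_drop]
      have e4 : l.drop (i + p) = (l.drop (i + p)).take p ++ (l.drop (i + p)).drop p :=
        (List.take_append_drop p _).symm
      have e5 : (l.drop (i + p)).drop p = l.drop (i + 2 * p) := by
        rw [List.drop_drop]; congr 1; omega
      calc l = l.take i ++ l.drop i := e1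
        _ = l.take i ++ ((l.drop i).take p ++ l.drop (i + p)) := by rw [← e3, ← e2]
        _ = l.take i ++ ((l.drop i).take p ++ ((l.drop (i + p)).take p ++ l.drop (i + 2 * p))) := by
            rw [← e5, ← e4]
        _ = l.take i ++ (l.drop i).take p ++ (l.drop i).take p ++ l.drop (i + 2 * p) := by
            rw [← e]; simp only [List.append_assoc]
  · intro h a u b hu hl
    have hup : 0 < u.length := List.length_pos_of_ne_nil hu
    refine h a.length u.length hup ?_ (fun j hj => ?_)
    · rw [hl]; simp only [List.length_append]; omega
    · show l.getD (a.length + j) 0 = l.getD (a.length + u.length + j) 0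
      have e1 : l = a ++ (u ++ (u ++ b)) := by rw [hl]; simp only [List.append_assoc]
      have f1 : (a ++ (u ++ (u ++ b))).getD (a.length + j) 0 = u.getD j 0 := by
        rw [List.getD_append_right _ _ _ _ (Nat.le_add_right _ _), Nat.add_sub_cancel_left,
          List.getD_append _ _ _ _ hj]
      have f2 : (a ++ (u ++ (u ++ b))).getD (a.length + u.length + j) 0 = u.getD j 0 := by
        rw [Nat.add_assoc, List.getD_append_right _ _ _ _ (Nat.le_add_right _ _),
          Nat.add_sub_cancel_left, List.getD_append_right _ _ _ _ (Nat.le_add_right _ _),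
          Nat.add_sub_cancel_left, List.getD_append _ _ _ _ hj]
      rw [e1, f1, f2]

theorem sqf_iff_SFto {l : List (Fin 3)} {f : ℕ → Fin 3} {n : ℕ} (hn : l.length = n)
    (hf : ∀ k < n, l.getD k 0 = f k) : Sqf l ↔ SFto f n := by
  rw [sqf_iff, hn]
  exact SFto_congr hf

theorem blk_length (a : Fin 3) (b : Bool) : (blk a b).length = 18 := by
  revert a b; decide

theorem G_cons (x : Fin 3 × Bool) (tb : List (Fin 3 × Bool)) :
    G (x :: tb) = blk x.1 x.2 ++ G tb := rfl

theorem G_nil : G [] = [] := rfl

theorem G_append (s t : List (Fin 3 × Bool)) : G (s ++ t) = G s ++ G t := by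
  unfold G; rw [List.flatMap_append]

theorem G_length (tb : List (Fin 3 × Bool)) : (G tb).length = 18 * tb.length := by
  induction tb with
  | nil => rfl
  | cons x l ih => rw [G_cons, List.length_append, blk_length, ih, List.length_cons]; ring

theorem G_getD (tb : List (Fin 3 × Bool)) (k : ℕ) (hk : k < 18 * tb.length) :
    (G tb).getD k 0 = (blk (tb.getD (k / 18) (0, false)).1 (tb.getD (k / 18) (0, false)).2).getD
      (k % 18) 0 := by
  induction tb generalizing k with
  | nil => simp at hk
  | cons x l ih =>
    rw [G_cons]
    rcases Nat.lt_or_ge k 18 with h | h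
    · rw [List.getD_append _ _ _ _ (by rw [blk_length]; omega), Nat.div_eq_of_lt h,
        Nat.mod_eq_of_lt h]
      rfl
    · rw [List.getD_append_right _ _ _ _ (by rw [blk_length]; omega), blk_length,
        ih (k - 18) (by simp only [List.length_cons] at hk; omega)]
      have e1 : (k - 18) / 18 = k / 18 - 1 := by omega
      have e2 : (k - 18) % 18 = k % 18 := by omega
      obtain ⟨q, hq⟩ : ∃ q, k / 18 = q + 1 := ⟨k / 18 - 1, by omega⟩
      rw [e1, e2, hq, Nat.add_sub_cancel, List.getD_cons_succ]

theorem blk_shift (a s : Fin 3) (b : Bool) (r : ℕ) (hr : r < 18) :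
    (blk (a + s) b).getD r 0 = (blk a b).getD r 0 + s := by
  have : ∀ a s : Fin 3, ∀ b : Bool, ∀ r : Fin 18,
      (blk (a + s) b).getD r.val 0 = (blk a b).getD r.val 0 + s := by decide
  exact this a s b ⟨r, hr⟩

theorem Gf_shift (t : ℕ → Fin 3) (b : ℕ → Bool) (s : Fin 3) (k : ℕ) :
    Gf (fun i => t i + s) b k = Gf t b k + s := by
  unfold Gf
  exact blk_shift _ _ _ _ (Nat.mod_lt _ (by norm_num))

end Pool.Agent.SqfBridge
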